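import Pool.Agent.Lib.MP_4318ff_ag.Q.Basic

/-!
# Changes of coordinates

PROOF of `Coord.of_FF_eq`: `K` is finite over `k(t, s) = k(t', s')`, of transcendence degree 2 over `k`, and `K` is algebraic
over `k(t', s')`; so the family `![t', s']` is a transcendence basis. The other statements: compute `FF` of the new pair (each
of the new elements lies in the old field and conversely) and apply `Coord.of_FF_eq`.
-/

set_option autoImplicit false

namespace Pool.Agent.Lib.MP_4318ff_ag.Q

open MvPolynomial

variable {k K : Type} [Field k] [Field K] [Algebra k K]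

open IntermediateField.algebraAdjoinAdjoin in
theorem Coord.of_FF_eq {t s t' s' : K} (hc : Coord k t s) (h : FF k t' s' = FF k t s) : Coord k t' s' := by
  have hfin : FiniteDimensional (FF k t' s') K := by
    rw [h]
    exact hc.fin
  have hsep : Algebra.IsSeparable (FF k t' s') K := by
    rw [h]
    exact hc.sep
  refine ⟨?_, hfin, hsep⟩
  have hind : AlgebraicIndependent k ![t, s] := hc.inj
  have htr : Cardinal.mk (Fin 2) ≤ Algebra.trdeg k K := hind.cardinalMk_le_trdeg
  have halg : Algebra.IsAlgebraic (FF k t' s') K := inferInstance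
  have hr : Set.range ![t', s'] = {t', s'} := by
    ext x
    simp [eq_comm, or_comm]
  have halg2 : Algebra.IsAlgebraic (Algebra.adjoin k (Set.range ![t', s'])) K := by
    rw [hr]
    exact (IsFractionRing.comap_isAlgebraic_iff (A := Algebra.adjoin k {t', s'})
      (K := FF k t' s') (C := K)).2 halg
  have h2 := Algebra.IsAlgebraic.isTranscendenceBasis_of_le_trdeg_of_finite k ![t', s'] htr
  exact h2.1

private theorem memL (t s : K) : t ∈ FF k t s :=
  IntermediateField.subset_adjoin k {t, s} (Set.mem_insert _ _)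

private theorem memR (t s : K) : s ∈ FF k t s :=
  IntermediateField.subset_adjoin k {t, s} (Set.mem_insert_of_mem _ rfl)

private theorem FF_eq {t s t' s' : K} (h1 : t' ∈ FF k t s) (h2 : s' ∈ FF k t s)
    (h3 : t ∈ FF k t' s') (h4 : s ∈ FF k t' s') : FF k t' s' = FF k t s := by
  apply le_antisymm
  · rw [IntermediateField.adjoin_le_iff]
    rintro x (rfl | hx)
    · exact h1
    · rw [Set.mem_singleton_iff] at hx
      rw [hx]
      exact h2
  · rw [IntermediateField.adjoin_le_iff]
    rintro x (rfl | hx)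
    · exact h3
    · rw [Set.mem_singleton_iff] at hx
      rw [hx]
      exact h4

theorem FF_inv {t s : K} (hc : Coord k t s) : FF k t⁻¹ (s / t) = FF k t s := by
  have h3 : t ∈ FF k t⁻¹ (s / t) := by
    have := inv_mem (memL (k := k) t⁻¹ (s / t))
    rwa [inv_inv] at this
  apply FF_eq (inv_mem (memL t s)) (div_mem (memR t s) (memL t s)) h3
  have := mul_mem (memR (k := k) t⁻¹ (s / t)) h3
  rwa [div_mul_cancel₀ _ hc.t_ne] at this

theorem Coord.inv {t s : K} (hc : Coord k t s) : Coord k t⁻¹ (s / t) := hc.of_FF_eq (FF_inv hc)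

private theorem algMem (F : IntermediateField k K) (a : k) : algebraMap k K a ∈ F :=
  F.algebraMap_mem a

theorem FF_sl {t s : K} (hc : Coord k t s) (T : k × k) : FF k t (sl t s T) = FF k t s := by
  have h2 : Q.sl t s T ∈ FF k t s :=
    div_mem (sub_mem (memR t s) (algMem _ _)) (sub_mem (memL t s) (algMem _ _))
  apply FF_eq (memL t s) h2 (memL t _)
  have h5 : s = Q.sl t s T * (t - algebraMap k K T.1) + algebraMap k K T.2 := by
    unfold Q.sl
    rw [div_mul_cancel₀ _ (hc.t_sub_ne T.1), sub_add_cancel]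
  have h6 : Q.sl t s T * (t - algebraMap k K T.1) + algebraMap k K T.2 ∈ FF k t (Q.sl t s T) :=
    add_mem (mul_mem (memR t _) (sub_mem (memL t _) (algMem _ _))) (algMem _ _)
  rwa [← h5] at h6

theorem Coord.sl {t s : K} (hc : Coord k t s) (T : k × k) : Coord k t (sl t s T) :=
  hc.of_FF_eq (FF_sl hc T)

theorem Coord.sl_inv {t s : K} (hc : Coord k t s) (T : k × k) : Coord k s (Q.sl t s T)⁻¹ := by
  apply hc.of_FF_eq
  have h2 : (Q.sl t s T)⁻¹ ∈ FF k t s :=
    inv_mem (div_mem (sub_mem (memR t s) (algMem _ _)) (sub_mem (memL t s) (algMem _ _)))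
  apply FF_eq (memR t s) h2 _ (memL s _)
  have h5 : t = (Q.sl t s T)⁻¹ * (s - algebraMap k K T.2) + algebraMap k K T.1 := by
    unfold Q.sl
    rw [inv_div, div_mul_cancel₀ _ (hc.s_sub_ne T.2), sub_add_cancel]
  have h6 : (Q.sl t s T)⁻¹ * (s - algebraMap k K T.2) + algebraMap k K T.1 ∈
      FF k s (Q.sl t s T)⁻¹ :=
    add_mem (mul_mem (memR s _) (sub_mem (memL s _) (algMem _ _))) (algMem _ _)
  rwa [← h5] at h6

theorem FF_sInv {t s : K} : FF k t s⁻¹ = FF k t s := by
  apply FF_eq (memL t s) (inv_mem (memR t s)) (memL t _)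
  have := inv_mem (memR (k := k) t s⁻¹)
  rwa [inv_inv] at this

theorem Coord.sInv {t s : K} (hc : Coord k t s) : Coord k t s⁻¹ := hc.of_FF_eq FF_sInv

theorem Coord.swap {t s : K} (hc : Coord k t s) : Coord k s t :=
  hc.of_FF_eq (FF_eq (memR t s) (memL t s) (memR s t) (memL s t))

end Pool.Agent.Lib.MP_4318ff_ag.Q
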