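import Pool.Agent.Lib.MP_4318ff_ag.Q.LocUFD
import Pool.Agent.Lib.MP_4318ff_ag.Q.CoordCh

/-!
# Total degree = pole order at the line at infinity

`D = totalDegree G`: `G(t, s) = t^D G̃(1/t, s/t)` with `G̃ = ∑ g_ab X₀^(D-a-b) X₁^b` and `X₀ ∤ G̃` (leading form).
Derivations which map `t, s` into a local ring (or into `k[t,s]`) preserve it.
-/

set_option autoImplicit false

namespace Pool.Agent.Lib.MP_4318ff_ag.Q

open MvPolynomial

variable {k K : Type} [Field k] [Field K] [Algebra k K]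

/-- `G̃ = ∑ g_ab X₀^(D-a-b) X₁^b`. -/
private noncomputable def Deg_til (G : MvPolynomial (Fin 2) k) : MvPolynomial (Fin 2) k :=
  ∑ m ∈ G.support, C (G.coeff m) * (X 0 ^ (G.totalDegree - (m 0 + m 1)) * X 1 ^ (m 1))

private theorem Deg_le {G : MvPolynomial (Fin 2) k} {m : Fin 2 →₀ ℕ} (hm : m ∈ G.support) :
    m 0 + m 1 ≤ G.totalDegree := by
  have h := le_totalDegree hm
  rw [Finsupp.sum_fintype _ _ (fun _ => rfl), Fin.sum_univ_two] at h
  exact h

private theorem Deg_cv {t s : K} (ht : t ≠ 0) (G : MvPolynomial (Fin 2) k) :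
    cv t s G = cv t⁻¹ (s / t) (Deg_til G) * t ^ G.totalDegree := by
  have h1 : cv t s G = ∑ m ∈ G.support, algebraMap k K (G.coeff m) * (t ^ (m 0) * s ^ (m 1)) := by
    unfold cv
    rw [aeval_def, eval₂_eq']
    apply Finset.sum_congr rfl
    intro m _
    rw [Fin.prod_univ_two]
    rfl
  rw [h1]
  unfold Deg_til
  rw [map_sum, Finset.sum_mul]
  apply Finset.sum_congr rfl
  intro m hm
  have h2 := Deg_le hm
  rw [map_mul, map_mul, map_pow, map_pow, cv_X0, cv_X1, cv_C]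
  obtain ⟨e, he⟩ := Nat.exists_eq_add_of_le h2
  have h3 : G.totalDegree - (m 0 + m 1) = e := by omega
  rw [h3, he, pow_add, pow_add, div_pow, inv_pow]
  have h4 : t ^ e ≠ 0 := pow_ne_zero _ ht
  have h5 : t ^ (m 1) ≠ 0 := pow_ne_zero _ ht
  field_simp

private theorem Deg_ev (a : k) (e b : ℕ) :
    (aeval ![(0 : Polynomial k), Polynomial.X]) (C a * (X 0 ^ e * X 1 ^ b) : MvPolynomial (Fin 2) k) =
      Polynomial.C a * (0 ^ e * Polynomial.X ^ b) := by
  simp only [map_mul, map_pow, aeval_X, aeval_C, Matrix.cons_val_zero, Matrix.cons_val_one, Polynomial.algebraMap_eq]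

private theorem Deg_ndvd {G : MvPolynomial (Fin 2) k} (hG : G ≠ 0) :
    ¬ (X 0 : MvPolynomial (Fin 2) k) ∣ Deg_til G := by
  rintro ⟨Q, hQ⟩
  have h1 := congrArg (aeval ![(0 : Polynomial k), Polynomial.X]) hQ
  rw [map_mul, aeval_X, Matrix.cons_val_zero, zero_mul] at h1
  unfold Deg_til at h1
  rw [map_sum] at h1
  have hne : G.support.Nonempty := by
    rw [Finset.nonempty_iff_ne_empty, Ne, support_eq_empty]
    exact hG
  obtain ⟨m0, hm0, hd⟩ : ∃ m0 ∈ G.support, m0 0 + m0 1 = G.totalDegree := by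
    obtain ⟨m0, hm0, h2⟩ := Finset.exists_mem_eq_sup G.support hne (fun s => s.sum fun _ e => e)
    refine ⟨m0, hm0, ?_⟩
    unfold totalDegree
    rw [h2, Finsupp.sum_fintype _ _ (fun _ => rfl), Fin.sum_univ_two]
  have h3 := congrArg (fun p : Polynomial k => p.coeff (m0 1)) h1
  simp only [Polynomial.finsetSum_coeff, Polynomial.coeff_zero] at h3
  rw [Finset.sum_eq_single m0] at h3
  · rw [Deg_ev, hd, Nat.sub_self, pow_zero, one_mul, Polynomial.coeff_C_mul_X_pow, if_pos rfl] at h3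
    exact (mem_support_iff.mp hm0) h3
  · intro m hm hne'
    rw [Deg_ev]
    by_cases he : m 0 + m 1 = G.totalDegree
    · rw [he, Nat.sub_self, pow_zero, one_mul, Polynomial.coeff_C_mul_X_pow, if_neg]
      intro h4
      apply hne'
      ext i
      fin_cases i
      · simp only [Fin.zero_eta]
        omega
      · simp only [Fin.mk_one]
        omega
    · have h4 : G.totalDegree - (m 0 + m 1) ≠ 0 := by
        have := Deg_le hm
        omega
      rw [zero_pow h4, zero_mul, mul_zero, Polynomial.coeff_zero]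
  · intro h
    exact absurd hm0 h

private theorem Deg_key {t s : K} (hc : Coord k t s) {G : MvPolynomial (Fin 2) k} (hG : G ≠ 0) {H E : MvPolynomial (Fin 2) k}
    (hH : ¬ (X 0 : MvPolynomial (Fin 2) k) ∣ H) {e : ℕ} (he : 1 ≤ e)
    (h : cv t⁻¹ (s / t) (Deg_til G) * cv t⁻¹ (s / t) H = cv t⁻¹ (s / t) E * t⁻¹ ^ e) : False := by
  have hc' := hc.inv
  have h1 : Deg_til G * H = E * X 0 ^ e := by
    apply hc'.inj
    rw [map_mul, map_mul, map_pow, cv_X0, h]
  have h2 : (X 0 : MvPolynomial (Fin 2) k) ∣ Deg_til G * H := by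
    rw [h1]
    exact (dvd_pow_self _ (by omega)).mul_left _
  rcases (X_prime (R := k) (i := (0 : Fin 2))).dvd_or_dvd h2 with h3 | h3
  · exact Deg_ndvd hG h3
  · exact hH h3

theorem deg_le {t s : K} (hc : Coord k t s) {G : MvPolynomial (Fin 2) k} {c : ℕ}
    (h : cv t s G * t⁻¹ ^ c ∈ locO k t⁻¹ (s / t)) : G.totalDegree ≤ c := by
  by_contra hcon
  push Not at hcon
  have hG : G ≠ 0 := by
    rintro rfl
    rw [totalDegree_zero] at hcon
    omega
  have ht := hc.t_ne
  obtain ⟨E, H, hH, e⟩ := (mem_loc hc.inv (X_prime (R := k) (i := (0 : Fin 2)))).mp h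
  refine Deg_key hc hG hH (E := E) (e := G.totalDegree - c) (by omega) ?_
  rw [← e, Deg_cv ht G]
  obtain ⟨d, hd⟩ := Nat.exists_eq_add_of_lt hcon
  have h3 : G.totalDegree - c = d + 1 := by omega
  rw [h3, hd, inv_pow, inv_pow]
  have h4 : t ^ c ≠ 0 := pow_ne_zero _ ht
  have h5 : t ^ (d + 1) ≠ 0 := pow_ne_zero _ ht
  have h6 : t ^ (c + d + 1) = t ^ c * t ^ (d + 1) := by
    rw [← pow_add]
    congr 1
  rw [h6]
  field_simp

theorem deg_neg {t s : K} (hc : Coord k t s) {G : MvPolynomial (Fin 2) k}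
    (h : cv t s G * t ∈ locO k t⁻¹ (s / t)) : G = 0 := by
  by_contra hG
  have ht := hc.t_ne
  obtain ⟨E, H, hH, e⟩ := (mem_loc hc.inv (X_prime (R := k) (i := (0 : Fin 2)))).mp h
  refine Deg_key hc hG hH (E := E) (e := G.totalDegree + 1) (by omega) ?_
  rw [← e, Deg_cv ht G, inv_pow, pow_succ]
  have h4 : t ^ G.totalDegree ≠ 0 := pow_ne_zero _ ht
  field_simp

private theorem Deg_der {t s : K} {S : Subalgebra k K} (ht : t ∈ S) (hs : s ∈ S) (D : Derivation k K K)
    (h1 : D t ∈ S) (h2 : D s ∈ S) {x : K} (hx : x ∈ pol k t s) : x ∈ S ∧ D x ∈ S := by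
  unfold pol at hx
  induction hx using Algebra.adjoin_induction with
  | mem x hx =>
    rcases hx with rfl | rfl
    · exact ⟨ht, h1⟩
    · exact ⟨hs, h2⟩
  | algebraMap r =>
    refine ⟨S.algebraMap_mem r, ?_⟩
    rw [Derivation.map_algebraMap]
    exact zero_mem _
  | add x y _ _ ihx ihy =>
    refine ⟨add_mem ihx.1 ihy.1, ?_⟩
    rw [map_add]
    exact add_mem ihx.2 ihy.2
  | mul x y _ _ ihx ihy =>
    refine ⟨mul_mem ihx.1 ihy.1, ?_⟩
    rw [Derivation.leibniz, smul_eq_mul, smul_eq_mul]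
    exact add_mem (mul_mem ihx.1 ihy.2) (mul_mem ihy.1 ihx.2)

/-- A derivation which maps `t, s` to `k[t,s]` preserves the local rings. -/
theorem loc_der {t s : K} {π : MvPolynomial (Fin 2) k} (hπ : Prime π) (hc : Coord k t s) (D : Derivation k K K)
    (h1 : D t ∈ loc t s π) (h2 : D s ∈ loc t s π) {x : K} (hx : x ∈ loc t s π) : D x ∈ loc t s π := by
  have ht : t ∈ loc t s π := by
    have := cv_mem_loc t s hπ (X 0)
    rwa [cv_X0] at this
  have hs : s ∈ loc t s π := by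
    have := cv_mem_loc t s hπ (X 1)
    rwa [cv_X1] at this
  obtain ⟨G, H, hH, e⟩ := (mem_loc hc hπ).mp hx
  have hH0 : H ≠ 0 := by
    rintro rfl
    exact hH (dvd_zero _)
  have hcH := hc.cv_ne hH0
  have dG := (Deg_der ht hs D h1 h2 (mem_pol.mpr ⟨G, rfl⟩)).2
  have dH := (Deg_der ht hs D h1 h2 (mem_pol.mpr ⟨H, rfl⟩)).2
  have h3 := congrArg D e
  rw [Derivation.leibniz, smul_eq_mul, smul_eq_mul] at h3
  have h4 : D x = (D (cv t s G) - x * D (cv t s H)) * (cv t s H)⁻¹ := by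
    rw [← h3]
    field_simp
    ring
  rw [h4]
  exact mul_mem (sub_mem dG (mul_mem hx dH)) (inv_cv_mem_loc t s hH)

theorem pol_der {t s : K} (D : Derivation k K K)
    (h1 : D t ∈ pol k t s) (h2 : D s ∈ pol k t s) {x : K} (hx : x ∈ pol k t s) : D x ∈ pol k t s := by
  refine (Deg_der ?_ ?_ D h1 h2 hx).2
  · exact Algebra.subset_adjoin (Or.inl rfl)
  · exact Algebra.subset_adjoin (Or.inr rfl)

end Pool.Agent.Lib.MP_4318ff_ag.Q
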