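import Pool.Agent.Lib.MP_4318ff_ag.Q.MinPoly

/-!
# Derivations and integral closures

`F` an intermediate field, `K = F(θ)` finite separable, `dsc F θ` = discriminant of `1, θ, …, θ^(N-1)`, `N = [K : F]`. `O ≤ F` a subalgebra, integrally closed in `F`, with fraction field `F`, `θ ∈ ic O`.
-/

set_option autoImplicit false

namespace Pool.Agent.Lib.MP_4318ff_ag.Q

open MvPolynomial

variable {k K : Type} [Field k] [Field K] [Algebra k K]

/-- The discriminant of `1, θ, …, θ^(N-1)`, as an element of `K`. -/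
noncomputable def dsc (F : IntermediateField k K) (θ : K) : K :=
  ((Algebra.discr F (fun i : Fin (Module.finrank F K) => θ ^ (i : ℕ)) : F) : K)

private theorem Der_pb (F : IntermediateField k K) [FiniteDimensional F K] {θ : K}
    (hθ : IntermediateField.adjoin F {θ} = ⊤) : ∃ pb : PowerBasis F K, pb.gen = θ := by
  have hi : IsIntegral F θ := Algebra.IsIntegral.isIntegral θ
  exact ⟨PowerBasis.ofAdjoinEqTop hi
    ((IntermediateField.adjoin_simple_eq_top_iff_of_isAlgebraic hi.isAlgebraic).1 hθ),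
    PowerBasis.ofAdjoinEqTop_gen _ _⟩

private theorem Der_basis (F : IntermediateField k K) [FiniteDimensional F K] {θ : K}
    (hθ : IntermediateField.adjoin F {θ} = ⊤) :
    ∃ b : Module.Basis (Fin (Module.finrank F K)) F K, ∀ i, b i = θ ^ (i : ℕ) := by
  obtain ⟨pb, hpb⟩ := Der_pb F hθ
  refine ⟨pb.basis.reindex (finCongr pb.finrank.symm), fun i => ?_⟩
  rw [Module.Basis.reindex_apply, PowerBasis.coe_basis, hpb]
  rfl

theorem dsc_ne (F : IntermediateField k K) [FiniteDimensional F K] [Algebra.IsSeparable F K] {θ : K}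
    (hθ : IntermediateField.adjoin F {θ} = ⊤) : dsc F θ ≠ 0 := by
  obtain ⟨b, hb⟩ := Der_basis F hθ
  have h1 : (fun i : Fin (Module.finrank F K) => θ ^ (i : ℕ)) = b := funext fun i => (hb i).symm
  unfold dsc
  rw [h1]
  have h2 := Algebra.discr_not_zero_of_basis F b
  intro h
  exact h2 (Subtype.ext h)

/-- The elements of `F` which are in `O`. -/
private def Der_O (F : IntermediateField k K) (O : Subalgebra k K) : Subring F :=
  O.toSubring.comap (algebraMap F K)

private theorem Der_memO {F : IntermediateField k K} {O : Subalgebra k K} {x : F} :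
    x ∈ Der_O F O ↔ (x : K) ∈ O := Iff.rfl

private theorem Der_tr (F : IntermediateField k K) [FiniteDimensional F K] (O : Subalgebra k K)
    (hOF : ∀ x ∈ O, x ∈ F) (hint : ∀ x ∈ F, x ∈ ic O → x ∈ O) {z : K} (hz : z ∈ ic O) :
    Algebra.trace F K z ∈ Der_O F O := by
  rw [Der_memO]
  refine hint _ (Algebra.trace F K z).2 ?_
  rw [mem_ic] at hz ⊢
  let e : O →+* Der_O F O :=
    { toFun := fun x => ⟨⟨x.1, hOF x.1 x.2⟩, x.2⟩
      map_one' := rfl
      map_mul' := fun _ _ => rfl
      map_zero' := rfl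
      map_add' := fun _ _ => rfl }
  let e' : Der_O F O →+* O :=
    { toFun := fun x => ⟨x.1.1, x.2⟩
      map_one' := rfl
      map_mul' := fun _ _ => rfl
      map_zero' := rfl
      map_add' := fun _ _ => rfl }
  have h1 : IsIntegral (Der_O F O) z := by
    have h2 : ((algebraMap (Der_O F O) K).comp e).IsIntegralElem z := hz
    exact h2.of_comp
  have : IsScalarTower (Der_O F O) F K := IsScalarTower.of_algebraMap_eq fun _ => rfl
  have h3 : IsIntegral (Der_O F O) (algebraMap F K (Algebra.trace F K z)) :=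
    (Algebra.isIntegral_trace (R := Der_O F O) h1).algebraMap
  have h4 : ((algebraMap O K).comp e').IsIntegralElem (algebraMap F K (Algebra.trace F K z)) := h3
  exact h4.of_comp

private theorem Der_tm (F : IntermediateField k K) [FiniteDimensional F K] {θ : K} (O : Subalgebra k K)
    (hOF : ∀ x ∈ O, x ∈ F) (hint : ∀ x ∈ F, x ∈ ic O → x ∈ O) (hO : θ ∈ ic O)
    {b : Fin (Module.finrank F K) → K} (hb : ∀ i, b i = θ ^ (i : ℕ)) :
    ∃ T' : Matrix (Fin (Module.finrank F K)) (Fin (Module.finrank F K)) (Der_O F O),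
      (Der_O F O).subtype.mapMatrix T' = Algebra.traceMatrix F b := by
  refine ⟨Matrix.of fun i j => ⟨Algebra.traceMatrix F b i j, ?_⟩, ?_⟩
  · rw [Algebra.traceMatrix_apply, Algebra.traceForm_apply, hb, hb]
    exact Der_tr F O hOF hint (mul_mem (pow_mem hO _) (pow_mem hO _))
  · ext i j
    rfl

theorem dsc_mem (F : IntermediateField k K) [FiniteDimensional F K] [Algebra.IsSeparable F K] {θ : K} (O : Subalgebra k K)
    (hOF : ∀ x ∈ O, x ∈ F)
    (hint : ∀ x ∈ F, x ∈ ic O → x ∈ O) (hO : θ ∈ ic O) : dsc F θ ∈ O := by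
  obtain ⟨T', hT'⟩ := Der_tm F O hOF hint hO
    (b := fun i : Fin (Module.finrank F K) => θ ^ (i : ℕ)) (fun _ => rfl)
  unfold dsc
  rw [Algebra.discr_def, ← hT', ← RingHom.map_det]
  exact (T'.det).2

private theorem Der_mul (F : IntermediateField k K) [FiniteDimensional F K] {θ : K}
    (hθ : IntermediateField.adjoin F {θ} = ⊤) (O : Subalgebra k K) (hOF : ∀ x ∈ O, x ∈ F)
    (hint : ∀ x ∈ F, x ∈ ic O → x ∈ O) (hO : θ ∈ ic O) {y : K}
    (hy : ∀ i : Fin (Module.finrank F K), Algebra.trace F K (y * θ ^ (i : ℕ)) ∈ Der_O F O) :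
    ∃ c : Fin (Module.finrank F K) → K, (∀ i, c i ∈ O) ∧ dsc F θ * y = ∑ i, c i * θ ^ (i : ℕ) := by
  classical
  obtain ⟨b, hb⟩ := Der_basis F hθ
  have h1 : (fun i : Fin (Module.finrank F K) => θ ^ (i : ℕ)) = b := funext fun i => (hb i).symm
  obtain ⟨T', hT'⟩ := Der_tm F O hOF hint hO hb
  have hd : dsc F θ = (((Algebra.traceMatrix F b).det : F) : K) := by
    unfold dsc
    rw [h1, Algebra.discr_def]
  have h2 := Algebra.traceMatrix_of_basis_mulVec b y
  have h3 : ∀ i, (Algebra.traceMatrix F b).det * b.equivFun y i ∈ Der_O F O := by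
    intro i
    have h4 : (Algebra.traceMatrix F b).adjugate.mulVec
        ((Algebra.traceMatrix F b).mulVec (b.equivFun y)) =
        (Algebra.traceMatrix F b).det • b.equivFun y := by
      rw [Matrix.mulVec_mulVec, Matrix.adjugate_mul, Matrix.smul_mulVec, Matrix.one_mulVec]
    have h5 := congrFun h4 i
    rw [Pi.smul_apply, smul_eq_mul] at h5
    rw [← h5, h2, Matrix.mulVec, dotProduct]
    refine (Der_O F O).sum_mem fun j _ => (Der_O F O).mul_mem ?_ ?_
    · rw [← hT', ← RingHom.map_adjugate]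
      exact (T'.adjugate i j).2
    · rw [hb]
      exact hy j
  refine ⟨fun i => (((Algebra.traceMatrix F b).det * b.equivFun y i : F) : K), fun i => h3 i, ?_⟩
  have h6 : y = ∑ i, ((b.equivFun y i : F) : K) * θ ^ (i : ℕ) := by
    have h7 := b.sum_equivFun y
    conv_lhs => rw [← h7]
    refine Finset.sum_congr rfl fun i _ => ?_
    rw [hb]
    rfl
  conv_lhs => rw [h6]
  rw [hd, Finset.mul_sum]
  refine Finset.sum_congr rfl fun i _ => ?_
  rw [← mul_assoc]
  rfl

theorem dsc_mul (F : IntermediateField k K) [FiniteDimensional F K] [Algebra.IsSeparable F K] {θ : K}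
    (hθ : IntermediateField.adjoin F {θ} = ⊤) (O : Subalgebra k K) (hOF : ∀ x ∈ O, x ∈ F)
    (hint : ∀ x ∈ F, x ∈ ic O → x ∈ O) (hO : θ ∈ ic O) {y : K} (hy : y ∈ ic O) :
    ∃ c : Fin (Module.finrank F K) → K, (∀ i, c i ∈ O) ∧ dsc F θ * y = ∑ i, c i * θ ^ (i : ℕ) :=
  Der_mul F hθ O hOF hint hO fun _ =>
    Der_tr F O hOF hint ((ic O).mul_mem hy ((ic O).pow_mem hO _))

/-- The inverse of the different of `θ`. -/
private theorem Der_inv (F : IntermediateField k K) [FiniteDimensional F K] [Algebra.IsSeparable F K] {θ : K}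
    (hθ : IntermediateField.adjoin F {θ} = ⊤) (O : Subalgebra k K)
    (i : Fin (Module.finrank F K)) :
    Algebra.trace F K ((Polynomial.aeval θ (Polynomial.derivative (minpoly F θ)))⁻¹ * θ ^ (i : ℕ)) ∈
      Der_O F O := by
  classical
  obtain ⟨pb, hpb⟩ := Der_pb F hθ
  have hdim : 0 < pb.dim := pb.dim_pos
  have hint' : IsIntegral F pb.gen := Algebra.IsIntegral.isIntegral _
  have h1 := Module.Basis.traceDual_powerBasis_eq pb ⟨pb.dim - 1, by omega⟩
  have h2 : (minpolyDiv F pb.gen).coeff (pb.dim - 1) = 1 := by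
    have h3 := minpolyDiv_monic hint'
    have h4 := natDegree_minpolyDiv_succ hint'
    rw [← pb.natDegree_minpoly, ← h4, Nat.add_sub_cancel]
    exact h3
  rw [show ((⟨pb.dim - 1, by omega⟩ : Fin pb.dim) : ℕ) = pb.dim - 1 from rfl, h2, hpb, one_div] at h1
  have h5 := pb.basis.trace_traceDual_mul ⟨pb.dim - 1, by omega⟩ (finCongr pb.finrank i)
  rw [h1, PowerBasis.coe_basis, hpb] at h5
  have h6 : ((finCongr pb.finrank i : Fin pb.dim) : ℕ) = i := rfl
  simp only [h6] at h5
  rw [h5]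
  split_ifs
  · exact one_mem _
  · exact zero_mem _

private theorem Der_sum (D : Derivation k K K) {N : ℕ} (c : Fin N → K) (θ : K) :
    D (∑ i, c i * θ ^ (i : ℕ)) = ∑ i, D (c i) * θ ^ (i : ℕ) +
      (∑ i, c i * (((i : ℕ) : K) * θ ^ ((i : ℕ) - 1))) * D θ := by
  rw [map_sum, Finset.sum_mul, ← Finset.sum_add_distrib]
  refine Finset.sum_congr rfl fun i _ => ?_
  rw [Derivation.leibniz, Derivation.leibniz_pow]
  simp only [smul_eq_mul, nsmul_eq_mul]
  ring

private theorem Der_theta (F : IntermediateField k K) [FiniteDimensional F K] {θ : K}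
    (O : Subalgebra k K) (hOF : ∀ x ∈ O, x ∈ F)
    (hint : ∀ x ∈ F, x ∈ ic O → x ∈ O) (hO : θ ∈ ic O) (D : Derivation k K K) (hD : ∀ x ∈ O, D x ∈ O) :
    Polynomial.aeval θ (Polynomial.derivative (minpoly F θ)) * D θ ∈ ic O := by
  have h0 : Polynomial.aeval θ (minpoly F θ) = 0 := minpoly.aeval F θ
  have h1 : Polynomial.aeval θ (minpoly F θ) = ∑ i : Fin ((minpoly F θ).natDegree + 1),
      (((minpoly F θ).coeff i : F) : K) * θ ^ (i : ℕ) := by
    rw [Polynomial.aeval_eq_sum_range, Finset.sum_range]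
    rfl
  have h2 : Polynomial.aeval θ (Polynomial.derivative (minpoly F θ)) =
      ∑ i : Fin ((minpoly F θ).natDegree + 1),
        (((minpoly F θ).coeff i : F) : K) * (((i : ℕ) : K) * θ ^ ((i : ℕ) - 1)) := by
    rw [Polynomial.derivative_apply, Polynomial.sum_over_range _ (by simp), map_sum,
      Finset.sum_range]
    refine Finset.sum_congr rfl fun i _ => ?_
    rw [map_mul, Polynomial.aeval_C, map_pow, Polynomial.aeval_X, map_mul, map_natCast, mul_assoc]
    rfl
  have h3 := Der_sum D (fun i : Fin ((minpoly F θ).natDegree + 1) =>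
    (((minpoly F θ).coeff i : F) : K)) θ
  rw [← h1, h0, map_zero, ← h2] at h3
  have h4 : Polynomial.aeval θ (Polynomial.derivative (minpoly F θ)) * D θ =
      -∑ i : Fin ((minpoly F θ).natDegree + 1),
        D (((minpoly F θ).coeff i : F) : K) * θ ^ (i : ℕ) := by
    linear_combination -h3
  rw [h4]
  refine neg_mem (sum_mem fun i _ => mul_mem (le_ic O (hD _ ?_)) (pow_mem hO _))
  exact minpoly_coeff_mem F O hOF hint hO i

theorem dsc_der (F : IntermediateField k K) [FiniteDimensional F K] [Algebra.IsSeparable F K] {θ : K}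
    (hθ : IntermediateField.adjoin F {θ} = ⊤) (O : Subalgebra k K) (hOF : ∀ x ∈ O, x ∈ F)
    (hint : ∀ x ∈ F, x ∈ ic O → x ∈ O) (hO : θ ∈ ic O) (D : Derivation k K K) (hD : ∀ x ∈ O, D x ∈ O) {y : K}
    (hy : y ∈ ic O) : dsc F θ ^ 2 * D y ∈ ic O := by
  have hdO := dsc_mem F O hOF hint hO
  -- `Δ D θ` is integral
  have hΔθ : dsc F θ * D θ ∈ ic O := by
    obtain ⟨c, hc, hw⟩ := Der_mul F hθ O hOF hint hO (Der_inv F hθ O)
    have h1 := Der_theta F O hOF hint hO D hD
    have hne : Polynomial.aeval θ (Polynomial.derivative (minpoly F θ)) ≠ 0 :=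
      (Algebra.IsSeparable.isSeparable F θ).aeval_derivative_ne_zero (minpoly.aeval F θ)
    have h2 : dsc F θ * D θ = (dsc F θ *
        (Polynomial.aeval θ (Polynomial.derivative (minpoly F θ)))⁻¹) *
        (Polynomial.aeval θ (Polynomial.derivative (minpoly F θ)) * D θ) := by
      field_simp
    rw [h2, hw]
    exact mul_mem (sum_mem fun i _ => mul_mem (le_ic O (hc i)) (pow_mem hO _)) h1
  obtain ⟨c, hc, hy'⟩ := dsc_mul F hθ O hOF hint hO hy
  have h3 := congrArg D hy'
  rw [Derivation.leibniz, Der_sum] at h3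
  simp only [smul_eq_mul] at h3
  have h4 : dsc F θ ^ 2 * D y = dsc F θ * ∑ i, D (c i) * θ ^ (i : ℕ) +
      (∑ i, c i * (((i : ℕ) : K) * θ ^ ((i : ℕ) - 1))) * (dsc F θ * D θ) -
      (dsc F θ * y) * D (dsc F θ) := by
    linear_combination dsc F θ * h3
  rw [h4]
  refine sub_mem (add_mem (mul_mem (le_ic O hdO) (sum_mem fun i _ =>
    mul_mem (le_ic O (hD _ (hc i))) (pow_mem hO _))) (mul_mem (sum_mem fun i _ =>
    mul_mem (le_ic O (hc i)) (mul_mem (natCast_mem _ _) (pow_mem hO _))) hΔθ))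
    (mul_mem (mul_mem (le_ic O hdO) hy) (le_ic O (hD _ hdO)))

end Pool.Agent.Lib.MP_4318ff_ag.Q
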