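import Pool.Agent.Lib.MP_4318ff_ag.Q.Basic

/-!
# The common kernel of `∂/∂t` and `∂/∂s` in characteristic `p`
-/

set_option autoImplicit false

namespace Pool.Agent.Lib.MP_4318ff_ag.Q

open MvPolynomial

variable {k K : Type} [Field k] [Field K] [Algebra k K]

private theorem KerDer_pow (p : ℕ) [CharP K p] (D : Derivation k K K) (z : K) : D (z ^ p) = 0 := by
  rw [Derivation.leibniz_pow, nsmul_eq_mul, CharP.cast_eq_zero, zero_mul]

/-- Vandermonde. -/
private theorem KerDer_one (p : ℕ) [Fact p.Prime] [CharP K p] (D : Derivation k K K) {u : K}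
    (hu : D u = 1) (T : Fin p → K) (hT : ∀ j, D (T j) = 0)
    (h : D (∑ j, T j * u ^ (j : ℕ)) = 0) :
    ∑ j, T j * u ^ (j : ℕ) = T ⟨0, (Fact.out : p.Prime).pos⟩ := by
  have hstep : ∀ j : Fin p, u * D (T j * u ^ (j : ℕ)) = ((j : ℕ) : K) * (T j * u ^ (j : ℕ)) := by
    intro j
    rw [Derivation.leibniz, Derivation.leibniz_pow, hT, hu]
    simp only [smul_eq_mul, nsmul_eq_mul, mul_zero, add_zero, mul_one]
    rcases Nat.eq_zero_or_pos (j : ℕ) with h0 | h0
    · rw [h0]
      simp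
    · obtain ⟨m, hm⟩ : ∃ m, (j : ℕ) = m + 1 := ⟨(j : ℕ) - 1, by omega⟩
      rw [hm, Nat.add_sub_cancel, pow_succ]
      ring
  have hall : ∀ m : ℕ, ∑ j : Fin p, (((j : ℕ) : K) * (T j * u ^ (j : ℕ))) * ((j : ℕ) : K) ^ m = 0 := by
    intro m
    induction m with
    | zero =>
      have h1 : u * D (∑ j, T j * u ^ (j : ℕ)) = 0 := by rw [h, mul_zero]
      rw [map_sum, Finset.mul_sum, Finset.sum_congr rfl fun j _ => hstep j] at h1
      simpa using h1
    | succ m ih =>
      have h1 : u * D (∑ j : Fin p, (((j : ℕ) : K) * (T j * u ^ (j : ℕ))) * ((j : ℕ) : K) ^ m) = 0 := by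
        rw [ih, map_zero, mul_zero]
      rw [map_sum, Finset.mul_sum] at h1
      rw [← h1]
      refine Finset.sum_congr rfl fun j _ => ?_
      have h2 : ((j : ℕ) : K) * (T j * u ^ (j : ℕ)) * ((j : ℕ) : K) ^ m =
          ((((j : ℕ) ^ (m + 1) : ℕ)) : K) * (T j * u ^ (j : ℕ)) := by
        push_cast
        ring
      have h3 : u * D (((((j : ℕ) ^ (m + 1) : ℕ)) : K) * (T j * u ^ (j : ℕ))) =
          ((((j : ℕ) ^ (m + 1) : ℕ)) : K) * (u * D (T j * u ^ (j : ℕ))) := by
        rw [Derivation.leibniz, Derivation.map_natCast, smul_zero, add_zero, smul_eq_mul]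
        ring
      rw [h2, h3, hstep]
      push_cast
      ring
  have hinj : Function.Injective fun j : Fin p => ((j : ℕ) : K) := by
    intro i j hij
    have h1 := (CharP.natCast_eq_natCast K p).1 hij
    exact Fin.ext (Nat.ModEq.eq_of_lt_of_lt h1 i.2 j.2)
  have hv := Matrix.eq_zero_of_forall_pow_sum_mul_pow_eq_zero
    (f := fun j : Fin p => ((j : ℕ) : K))
    (v := fun j : Fin p => ((j : ℕ) : K) * (T j * u ^ (j : ℕ))) hinj fun i => hall i
  rw [Finset.sum_eq_single ⟨0, (Fact.out : p.Prime).pos⟩]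
  · simp
  · intro j _ hj
    have h1 := congrFun hv j
    simp only [Pi.zero_apply] at h1
    refine (mul_eq_zero.1 h1).resolve_left fun h2 => hj ?_
    have h3 : ((j : ℕ) : K) = ((0 : ℕ) : K) := by rw [h2, Nat.cast_zero]
    have h4 := (CharP.natCast_eq_natCast K p).1 h3
    exact Fin.ext (Nat.ModEq.eq_of_lt_of_lt h4 j.2 (Fact.out : p.Prime).pos)
  · intro h1
    exact absurd (Finset.mem_univ _) h1

/-- The expansion with `p`-th powers as coefficients. -/
private theorem KerDer_exp (p : ℕ) [Fact p.Prime] [CharP k p] [CharP K p] [PerfectField k] {t s : K}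
    (hc : Coord k t s) (x : K) :
    ∃ z : Fin p × Fin p → K, x = ∑ i, z i ^ p * (t ^ (i.1 : ℕ) * s ^ (i.2 : ℕ)) := by
  have hp : p.Prime := Fact.out
  let E : Subfield K := (frobenius K p).fieldRange
  have hE : ∀ y : K, y ^ p ∈ E := fun y => ⟨y, rfl⟩
  let A : Subalgebra E K := Algebra.adjoin E {t, s}
  have hEA : ∀ y : K, y ^ p ∈ A := fun y => A.algebraMap_mem ⟨y ^ p, hE y⟩
  have hinv : ∀ y ∈ A, y⁻¹ ∈ A := by
    intro y hy
    by_cases h0 : y = 0
    · rw [h0, inv_zero]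
      exact A.zero_mem
    · have h1 : y⁻¹ = (y⁻¹) ^ p * y ^ (p - 1) := by
        have h2 : p = (p - 1) + 1 := by have := hp.pos; omega
        conv_rhs => rw [h2]
        rw [Nat.add_sub_cancel, pow_succ, mul_right_comm, ← mul_pow, inv_mul_cancel₀ h0, one_pow,
          one_mul]
      rw [h1]
      exact A.mul_mem (hEA _) (A.pow_mem hy _)
  let B : IntermediateField k K :=
    { carrier := A
      mul_mem' := fun ha hb => A.mul_mem ha hb
      one_mem' := A.one_mem
      add_mem' := fun ha hb => A.add_mem ha hb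
      zero_mem' := A.zero_mem
      algebraMap_mem' := by
        intro r
        obtain ⟨r', hr'⟩ := (bijective_frobenius k p).2 r
        rw [frobenius_def] at hr'
        rw [← hr', map_pow]
        exact hEA _
      inv_mem' := hinv }
  have hB : ∀ y : K, y ∈ B ↔ y ∈ A := fun y => Iff.rfl
  have hFB : FF k t s ≤ B := by
    rw [IntermediateField.adjoin_le_iff]
    rintro y hy
    exact Algebra.subset_adjoin hy
  have := hc.sep
  have := hc.fin
  let B' : IntermediateField (FF k t s) K := IntermediateField.extendScalars hFB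
  have hB' : ∀ y : K, y ∈ B' ↔ y ∈ A := fun y => Iff.rfl
  have : CharP B' p := (algebraMap B' K).charP (algebraMap B' K).injective p
  have : ExpChar B' p := ExpChar.prime hp
  have : IsPurelyInseparable B' K := by
    rw [isPurelyInseparable_iff_pow_mem B' p]
    intro y
    refine ⟨1, ⟨⟨y ^ p, (hB' _).2 (hEA y)⟩, ?_⟩⟩
    rw [pow_one]
    rfl
  obtain ⟨⟨x', hx'⟩, rfl⟩ := IsPurelyInseparable.surjective_algebraMap_of_isSeparable B' K x
  have hxA : x' ∈ A := (hB' _).1 hx'
  have h1 : x' ∈ Subalgebra.toSubmodule A := hxA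
  rw [Algebra.adjoin_eq_span] at h1
  have h2 : Submodule.span E ((Submonoid.closure {t, s} : Submonoid K) : Set K) ≤
      Submodule.span E (Set.range fun i : Fin p × Fin p => t ^ (i.1 : ℕ) * s ^ (i.2 : ℕ)) := by
    rw [Submodule.span_le]
    intro y hy
    obtain ⟨m, n, rfl⟩ := (Submonoid.mem_closure_pair _ _ _).1 hy
    have h3 : t ^ m * s ^ n = (⟨(t ^ (m / p) * s ^ (n / p)) ^ p, hE _⟩ : E) •
        (t ^ (m % p) * s ^ (n % p)) := by
      rw [Subfield.smul_def, smul_eq_mul]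
      change t ^ m * s ^ n = (t ^ (m / p) * s ^ (n / p)) ^ p * (t ^ (m % p) * s ^ (n % p))
      conv_lhs => rw [← Nat.div_add_mod m p, ← Nat.div_add_mod n p]
      rw [pow_add, pow_add, mul_pow, ← pow_mul, ← pow_mul, mul_comm (m / p), mul_comm (n / p)]
      ring
    rw [h3]
    refine Submodule.smul_mem _ _ (Submodule.subset_span ?_)
    exact ⟨(⟨m % p, Nat.mod_lt _ hp.pos⟩, ⟨n % p, Nat.mod_lt _ hp.pos⟩), rfl⟩
  obtain ⟨c, hc'⟩ := (Submodule.mem_span_range_iff_exists_fun E).1 (h2 h1)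
  have h4 : ∀ i, ∃ z : K, z ^ p = (c i : K) := fun i => (c i).2
  choose z hz using h4
  refine ⟨z, ?_⟩
  change x' = _
  rw [← hc']
  refine Finset.sum_congr rfl fun i _ => ?_
  rw [hz, Subfield.smul_def, smul_eq_mul]

theorem ker_der (p : ℕ) [Fact p.Prime] [CharP k p] [PerfectField k] {t s : K} (hc : Coord k t s)
    (Dt Ds : Derivation k K K) (h1 : Dt t = 1) (h2 : Dt s = 0) (h3 : Ds t = 0) (h4 : Ds s = 1) {x : K}
    (hx : Dt x = 0) (hx' : Ds x = 0) : ∃ y : K, y ^ p = x := by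
  have hp : p.Prime := Fact.out
  have : CharP K p := (RingHom.charP_iff (algebraMap k K) (algebraMap k K).injective p).1 inferInstance
  obtain ⟨z, rfl⟩ := KerDer_exp p hc x
  have e1 : ∑ i, z i ^ p * (t ^ (i.1 : ℕ) * s ^ (i.2 : ℕ)) =
      ∑ j : Fin p, (∑ i : Fin p, z (i, j) ^ p * t ^ (i : ℕ)) * s ^ (j : ℕ) := by
    rw [Fintype.sum_prod_type, Finset.sum_comm]
    refine Finset.sum_congr rfl fun j _ => ?_
    rw [Finset.sum_mul]
    refine Finset.sum_congr rfl fun i _ => ?_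
    ring
  rw [e1] at hx hx' ⊢
  have hT : ∀ j : Fin p, Ds (∑ i : Fin p, z (i, j) ^ p * t ^ (i : ℕ)) = 0 := by
    intro j
    rw [map_sum]
    refine Finset.sum_eq_zero fun i _ => ?_
    rw [Derivation.leibniz, KerDer_pow p, Derivation.leibniz_pow, h3]
    simp
  have e2 := KerDer_one p Ds h4 (fun j : Fin p => ∑ i : Fin p, z (i, j) ^ p * t ^ (i : ℕ)) hT hx'
  rw [e2] at hx ⊢
  have e3 := KerDer_one p Dt h1 (fun i : Fin p => z (i, ⟨0, hp.pos⟩) ^ p)
    (fun i => KerDer_pow p Dt _) hx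
  exact ⟨z (⟨0, hp.pos⟩, ⟨0, hp.pos⟩), e3.symm⟩

end Pool.Agent.Lib.MP_4318ff_ag.Q
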