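import Pool.Agent.Lib.MP_4318ff_ag.Q.ExDer
import Pool.Agent.Lib.MP_4318ff_ag.Q.Der
import Pool.Agent.Lib.MP_4318ff_ag.Q.KerDer
import Pool.Agent.Lib.MP_4318ff_ag.Q.Deg

/-!
# Extraction of a `p`-th root
-/

set_option autoImplicit false

namespace Pool.Agent.Lib.MP_4318ff_ag.Q

open MvPolynomial

variable {k K : Type} [Field k] [Field K] [Algebra k K]

/-- The powers of `θ` are independent. -/
private theorem PthRoot_uniq (F : IntermediateField k K) [FiniteDimensional F K] {θ : K}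
    (hθ : IntermediateField.adjoin F {θ} = ⊤) {c c' : Fin (Module.finrank F K) → K}
    (hc : ∀ i, c i ∈ F) (hc' : ∀ i, c' i ∈ F)
    (h : ∑ i, c i * θ ^ (i : ℕ) = ∑ i, c' i * θ ^ (i : ℕ)) (i : Fin (Module.finrank F K)) :
    c i = c' i := by
  have hi : IsIntegral F θ := Algebra.IsIntegral.isIntegral θ
  have hdeg : (minpoly F θ).natDegree = Module.finrank F K := by
    rw [← IntermediateField.adjoin.finrank hi, hθ, IntermediateField.finrank_top']
  have hli := linearIndependent_pow (K := F) θ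
  have h1 : ∑ j : Fin (minpoly F θ).natDegree,
      ((⟨c (Fin.cast hdeg j), hc _⟩ : F) - (⟨c' (Fin.cast hdeg j), hc' _⟩ : F)) • θ ^ (j : ℕ) = 0 := by
    have h2 : ∀ f : Fin (Module.finrank F K) → K,
        ∑ j : Fin (minpoly F θ).natDegree, f (Fin.cast hdeg j) * θ ^ (j : ℕ) =
          ∑ i, f i * θ ^ (i : ℕ) := by
      intro f
      refine Fintype.sum_equiv (finCongr hdeg) _ _ fun j => ?_
      rfl
    have h3 : ∑ j : Fin (minpoly F θ).natDegree,
        ((⟨c (Fin.cast hdeg j), hc _⟩ : F) - (⟨c' (Fin.cast hdeg j), hc' _⟩ : F)) • θ ^ (j : ℕ) =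
        ∑ j : Fin (minpoly F θ).natDegree, c (Fin.cast hdeg j) * θ ^ (j : ℕ) -
          ∑ j : Fin (minpoly F θ).natDegree, c' (Fin.cast hdeg j) * θ ^ (j : ℕ) := by
      rw [← Finset.sum_sub_distrib]
      refine Finset.sum_congr rfl fun j _ => ?_
      rw [sub_smul]
      rfl
    rw [h3, h2 c, h2 c', h, sub_self]
  have h4 := Fintype.linearIndependent_iff.1 hli _ h1 (Fin.cast hdeg.symm i)
  have h5 := congrArg (Subtype.val) h4
  exact sub_eq_zero.1 h5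

/-- The discriminant of a multiple. -/
private theorem PthRoot_disc (F : IntermediateField k K) [FiniteDimensional F K] {θ : K} (u : F) (a : ℕ) :
    dsc F (θ * (u : K) ^ a) =
      (u : K) ^ (a * (Module.finrank F K * (Module.finrank F K - 1))) * dsc F θ := by
  have h1 : (fun i : Fin (Module.finrank F K) => (θ * (u : K) ^ a) ^ (i : ℕ)) =
      Matrix.mulVec ((Matrix.diagonal fun i : Fin (Module.finrank F K) =>
        u ^ (a * (i : ℕ))).map (algebraMap F K))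
        (fun i : Fin (Module.finrank F K) => θ ^ (i : ℕ)) := by
    funext i
    rw [Matrix.diagonal_map (map_zero _), Matrix.mulVec_diagonal, mul_pow, ← pow_mul, mul_comm,
      map_pow]
    rfl
  have h2 : (Matrix.diagonal fun i : Fin (Module.finrank F K) => u ^ (a * (i : ℕ))).det ^ 2 =
      u ^ (a * (Module.finrank F K * (Module.finrank F K - 1))) := by
    rw [Matrix.det_diagonal, Finset.prod_pow_eq_pow_sum, ← pow_mul, ← Finset.mul_sum,
      ← Finset.sum_range (fun i => i), mul_assoc, Finset.sum_range_id_mul_two]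
  unfold dsc
  rw [h1, Algebra.discr_of_matrix_mulVec, h2]
  push_cast
  rfl

private theorem PthRoot_D (p : ℕ) [Fact p.Prime] [CharP K p] {t s : K} (hc : Coord k t s) (a : ℕ)
    {θ : K} (hθ : IntermediateField.adjoin (FF k t s) {θ} = ⊤)
    (h1 : θ ∈ ic (pol k t s)) (h2 : θ * t⁻¹ ^ a ∈ ic (pol k t⁻¹ (s / t))) {x : K} {d : ℕ}
    (hd : 3 * a * Module.finrank (FF k t s) K ^ 2 + 1 < d)
    (hx : ∀ π : MvPolynomial (Fin 2) k, Prime π → ∃ r : K, x - r ^ p ∈ ic (loc t s π))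
    (hx' : ∃ r : K, (x - r ^ p) * t ^ d ∈ ic (locO k t⁻¹ (s / t)))
    (D : Derivation k K K) (hDt : D t ∈ pol k t s) (hDs : D s ∈ pol k t s)
    (hD1 : D t⁻¹ ∈ locO k t⁻¹ (s / t)) (hD2 : D (s / t) ∈ locO k t⁻¹ (s / t)) : D x = 0 := by
  have := hc.sep
  have := hc.fin
  have hDp : ∀ r : K, D (x - r ^ p) = D x := by
    intro r
    rw [map_sub, Derivation.leibniz_pow, nsmul_eq_mul, CharP.cast_eq_zero, zero_mul, sub_zero]
  have ht : t ≠ 0 := hc.t_ne
  have htF : t ∈ FF k t s := IntermediateField.subset_adjoin k _ (by simp)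
  have hτF : t⁻¹ ∈ FF k t s := inv_mem htF
  -- the finite part
  have hple : ∀ {u v : K} (π : MvPolynomial (Fin 2) k), Prime π → pol k u v ≤ loc u v π := by
    intro u v π hπ y hy
    obtain ⟨G, rfl⟩ := mem_pol.1 hy
    exact cv_mem_loc u v hπ G
  have hfin : ∀ π : MvPolynomial (Fin 2) k, Prime π →
      ∃ c : Fin (Module.finrank (FF k t s) K) → K, (∀ i, c i ∈ loc t s π) ∧
        dsc (FF k t s) θ ^ 3 * D x = ∑ i, c i * θ ^ (i : ℕ) := by
    intro π hπ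
    obtain ⟨r, hr⟩ := hx π hπ
    have e1 := dsc_der (FF k t s) hθ (loc t s π) (fun y hy => loc_le_FF π hy)
      (fun y hy hy' => loc_int hc hπ hy hy') (ic_mono (hple π hπ) h1) D
      (fun y hy => loc_der hπ hc D (hple π hπ hDt) (hple π hπ hDs) hy) hr
    rw [hDp] at e1
    obtain ⟨c, hc1, hc2⟩ := dsc_mul (FF k t s) hθ (loc t s π) (fun y hy => loc_le_FF π hy)
      (fun y hy hy' => loc_int hc hπ hy hy') (ic_mono (hple π hπ) h1) e1
    exact ⟨c, hc1, by rw [← hc2]; ring⟩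
  obtain ⟨z, hz1, hz2⟩ := hfin (X 0 - C 0) (prime_X0_sub 0)
  have hzF : ∀ i, z i ∈ FF k t s := fun i => loc_le_FF _ (hz1 i)
  have hzpol : ∀ i, z i ∈ pol k t s := by
    intro i
    refine mem_pol_of_loc hc (hzF i) fun π hπ => ?_
    obtain ⟨c, hc1, hc2⟩ := hfin π hπ
    rw [PthRoot_uniq (FF k t s) hθ hzF (fun i => loc_le_FF π (hc1 i)) (by rw [← hz2, hc2]) i]
    exact hc1 i
  -- the part at infinity
  have hc' : Coord k t⁻¹ (s / t) := hc.inv
  have hFF := FF_inv hc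
  have hX0 : Prime (X 0 : MvPolynomial (Fin 2) k) := by
    have := prime_X0_sub (k := k) 0
    rwa [map_zero, sub_zero] at this
  have hle' : pol k t⁻¹ (s / t) ≤ locO k t⁻¹ (s / t) := hple (X 0) hX0
  have hOF : ∀ y ∈ locO k t⁻¹ (s / t), y ∈ FF k t s := by
    intro y hy
    rw [← hFF]
    exact loc_le_FF _ hy
  have hint : ∀ y ∈ FF k t s, y ∈ ic (locO k t⁻¹ (s / t)) → y ∈ locO k t⁻¹ (s / t) := by
    intro y hy hy'
    rw [← hFF] at hy
    exact loc_int hc' hX0 hy hy'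
  have hτO : t⁻¹ ∈ locO k t⁻¹ (s / t) := hle' (mem_pol.2 ⟨X 0, (cv_X0 _ _).symm⟩)
  have hθ' : IntermediateField.adjoin (FF k t s) {θ * t⁻¹ ^ a} = ⊤ := by
    rw [eq_top_iff, ← hθ, IntermediateField.adjoin_simple_le_iff]
    have e0 : (⟨t ^ a, pow_mem htF a⟩ : FF k t s) • (θ * t⁻¹ ^ a) ∈
        IntermediateField.adjoin (FF k t s) {θ * t⁻¹ ^ a} :=
      IntermediateField.smul_mem _ (IntermediateField.mem_adjoin_simple_self _ _)
    have e1 : (⟨t ^ a, pow_mem htF a⟩ : FF k t s) • (θ * t⁻¹ ^ a) = θ := by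
      change t ^ a * (θ * t⁻¹ ^ a) = θ
      rw [mul_left_comm, ← mul_pow, mul_inv_cancel₀ ht, one_pow, mul_one]
    rwa [e1] at e0
  have hθO := ic_mono hle' h2
  have hDO : ∀ y ∈ locO k t⁻¹ (s / t), D y ∈ locO k t⁻¹ (s / t) := fun y hy =>
    loc_der hX0 hc' D hD1 hD2 hy
  obtain ⟨r, hr⟩ := hx'
  have hΔ' := dsc_mem (FF k t s) (locO k t⁻¹ (s / t)) hOF hint hθO
  obtain ⟨y, hy⟩ : ∃ y : K, y = (x - r ^ p) * t ^ d := ⟨_, rfl⟩
  rw [← hy] at hr
  have hxy : x - r ^ p = t⁻¹ ^ d * y := by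
    rw [hy, mul_left_comm, ← mul_pow, inv_mul_cancel₀ ht, one_pow, mul_one]
  have hy1 := dsc_der (FF k t s) hθ' (locO k t⁻¹ (s / t)) hOF hint hθO D hDO hr
  obtain ⟨d', rfl⟩ : ∃ d', d = d' + 1 := ⟨d - 1, by omega⟩
  have hDx : D x = t⁻¹ ^ d' * (((d' + 1 : ℕ) : K) * D t⁻¹ * y + t⁻¹ * D y) := by
    rw [← hDp r, hxy, Derivation.leibniz, Derivation.leibniz_pow]
    simp only [smul_eq_mul, nsmul_eq_mul, Nat.add_sub_cancel]
    ring
  obtain ⟨v, hv⟩ : ∃ v : K, v = ((d' + 1 : ℕ) : K) * D t⁻¹ *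
      (dsc (FF k t s) (θ * t⁻¹ ^ a) ^ 2 * y) +
      t⁻¹ * (dsc (FF k t s) (θ * t⁻¹ ^ a) ^ 2 * D y) := ⟨_, rfl⟩
  have hvO : v ∈ ic (locO k t⁻¹ (s / t)) := by
    rw [hv]
    refine add_mem (mul_mem (mul_mem (natCast_mem _ _) (le_ic _ hD1))
      (mul_mem (pow_mem (le_ic _ hΔ') 2) hr)) (mul_mem (le_ic _ hτO) hy1)
  obtain ⟨z', hz'1, hz'2⟩ := dsc_mul (FF k t s) hθ' (locO k t⁻¹ (s / t)) hOF hint hθO hvO
  have hdisc := PthRoot_disc (FF k t s) (θ := θ) ⟨t⁻¹, hτF⟩ a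
  simp only at hdisc
  obtain ⟨N, hN⟩ : ∃ N, N = Module.finrank (FF k t s) K := ⟨_, rfl⟩
  obtain ⟨M, hM⟩ : ∃ M, M = a * (N * (N - 1)) := ⟨_, rfl⟩
  rw [← hN, ← hM] at hdisc
  -- comparison
  have hcmp : ∑ i, (t⁻¹ ^ (3 * M) * z i) * θ ^ (i : ℕ) =
      ∑ i : Fin (Module.finrank (FF k t s) K), (t⁻¹ ^ (d' + a * (i : ℕ)) * z' i) * θ ^ (i : ℕ) := by
    have e1 : ∑ i, (t⁻¹ ^ (3 * M) * z i) * θ ^ (i : ℕ) =
        t⁻¹ ^ (3 * M) * (dsc (FF k t s) θ ^ 3 * D x) := by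
      rw [hz2, Finset.mul_sum]
      exact Finset.sum_congr rfl fun i _ => by ring
    have e2 : ∑ i : Fin (Module.finrank (FF k t s) K),
        (t⁻¹ ^ (d' + a * (i : ℕ)) * z' i) * θ ^ (i : ℕ) =
        t⁻¹ ^ d' * (dsc (FF k t s) (θ * t⁻¹ ^ a) * v) := by
      rw [hz'2, Finset.mul_sum]
      refine Finset.sum_congr rfl fun i _ => ?_
      rw [mul_pow, ← pow_mul, pow_add]
      ring
    rw [e1, e2, hv, hDx, hdisc]
    ring
  have hz0 : ∀ i, z i = 0 := by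
    intro i
    have e1 := PthRoot_uniq (FF k t s) hθ
      (fun i => mul_mem (pow_mem hτF (3 * M)) (hzF i))
      (fun i => mul_mem (pow_mem hτF (d' + a * (i : ℕ))) (hOF _ (hz'1 i))) hcmp i
    have hMle : 3 * M + 1 ≤ d' + a * (i : ℕ) := by
      have e2 : M ≤ a * N ^ 2 := by
        rw [hM, pow_two]
        exact Nat.mul_le_mul_left _ (Nat.mul_le_mul_left _ (Nat.sub_le _ _))
      have e3 : 3 * M ≤ 3 * a * N ^ 2 := by
        rw [mul_assoc]
        exact Nat.mul_le_mul_left _ e2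
      rw [← hN] at hd
      have e4 := Nat.zero_le (a * (i : ℕ))
      omega
    obtain ⟨e, he⟩ := Nat.exists_eq_add_of_le hMle
    obtain ⟨G, hG⟩ := mem_pol.1 (hzpol i)
    have e5 : z i * t = t⁻¹ ^ e * z' i := by
      have e6 : t⁻¹ ^ (3 * M) ≠ 0 := pow_ne_zero _ (inv_ne_zero ht)
      apply mul_left_cancel₀ e6
      rw [← mul_assoc, e1, he, pow_add, pow_add, pow_one]
      field_simp
    have e7 : cv t s G * t ∈ locO k t⁻¹ (s / t) := by
      rw [← hG, e5]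
      exact mul_mem (pow_mem hτO e) (hz'1 i)
    rw [hG, deg_neg hc e7, map_zero]
  have hfinal : dsc (FF k t s) θ ^ 3 * D x = 0 := by
    rw [hz2]
    exact Finset.sum_eq_zero fun i _ => by rw [hz0, zero_mul]
  exact (mul_eq_zero.1 hfinal).resolve_left (pow_ne_zero _ (dsc_ne (FF k t s) hθ))

theorem pth_root (p : ℕ) [Fact p.Prime] [CharP k p] [PerfectField k] {t s : K} (hc : Coord k t s) (N a : ℕ)
    (hN : Module.finrank (FF k t s) K = N) {θ : K} (hθ : IntermediateField.adjoin (FF k t s) {θ} = ⊤)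
    (h1 : θ ∈ ic (pol k t s)) (h2 : θ * t⁻¹ ^ a ∈ ic (pol k t⁻¹ (s / t))) {x : K} {d : ℕ} (hd : 3 * a * N ^ 2 + 1 < d)
    (hx : ∀ π : MvPolynomial (Fin 2) k, Prime π → ∃ r : K, x - r ^ p ∈ ic (loc t s π))
    (hx' : ∃ r : K, (x - r ^ p) * t ^ d ∈ ic (locO k t⁻¹ (s / t))) : ∃ y : K, y ^ p = x := by
  subst hN
  have : CharP K p := (RingHom.charP_iff (algebraMap k K) (algebraMap k K).injective p).1 inferInstance
  have ht : t ≠ 0 := hc.t_ne
  obtain ⟨Dt, a1, a2⟩ := exists_der hc 1 0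
  obtain ⟨Ds, b1, b2⟩ := exists_der hc 0 1
  have hX0 : Prime (X 0 : MvPolynomial (Fin 2) k) := by
    have := prime_X0_sub (k := k) 0
    rwa [map_zero, sub_zero] at this
  have hτ : t⁻¹ ∈ locO k t⁻¹ (s / t) := by
    have := cv_mem_loc t⁻¹ (s / t) hX0 (X 0)
    rwa [cv_X0] at this
  have hs' : s / t ∈ locO k t⁻¹ (s / t) := by
    have := cv_mem_loc t⁻¹ (s / t) hX0 (X 1)
    rwa [cv_X1] at this
  have hinv : ∀ D : Derivation k K K, D t⁻¹ = -(t⁻¹ * t⁻¹) * D t := by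
    intro D
    have e1 : D (t * t⁻¹) = 0 := by
      rw [mul_inv_cancel₀ ht]
      exact D.map_one_eq_zero
    rw [Derivation.leibniz] at e1
    simp only [smul_eq_mul] at e1
    have e2 : t * t⁻¹ = 1 := mul_inv_cancel₀ ht
    apply mul_left_cancel₀ ht
    linear_combination e1 + (t⁻¹ * D t) * e2
  refine ker_der p hc Dt Ds a1 a2 b1 b2
    (PthRoot_D p hc a hθ h1 h2 hd hx hx' Dt ?_ ?_ ?_ ?_)
    (PthRoot_D p hc a hθ h1 h2 hd hx hx' Ds ?_ ?_ ?_ ?_)
  · rw [a1]; exact one_mem _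
  · rw [a2]; exact zero_mem _
  · rw [hinv, a1, mul_one]
    exact neg_mem (mul_mem hτ hτ)
  · rw [div_eq_mul_inv, Derivation.leibniz, a2, smul_zero, add_zero, hinv, a1, smul_eq_mul]
    have e1 : s * (-(t⁻¹ * t⁻¹) * 1) = -(s / t * t⁻¹) := by
      rw [div_eq_mul_inv]
      ring
    rw [e1, ← div_eq_mul_inv]
    exact neg_mem (mul_mem hs' hτ)
  · rw [b1]; exact zero_mem _
  · rw [b2]; exact one_mem _
  · rw [hinv, b1, mul_zero]
    exact zero_mem _
  · rw [div_eq_mul_inv, Derivation.leibniz, b2, hinv, b1, mul_zero, smul_zero, zero_add, smul_eq_mul,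
      mul_one, ← div_eq_mul_inv]
    exact hτ

end Pool.Agent.Lib.MP_4318ff_ag.Q
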