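import Pool.Agent.Lib.MP_4318ff_ag.Q.Basic

/-!
# Local rings of `k[t, s]` and unique factorisation

`MvPolynomial (Fin 2) k` is a UFD and `cv t s` is injective on it, `FF k t s` is its fraction field.
(b) every `x ∈ FF` is `G/H` in lowest terms. (c) then `x ∈ loc t s π` iff `π ∤ H`. (d) `loc` is integrally closed in `FF`.
(e) `x ∈ loc` for all `π`: `H` is a unit. (f) if only vertical primes divide `H`, then `H` divides a polynomial in `X₀`.
(g) removal of denominators.
-/

set_option autoImplicit false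

namespace Pool.Agent.Lib.MP_4318ff_ag.Q

open MvPolynomial

variable {k K : Type} [Field k] [Field K] [Algebra k K]

theorem exists_coprime {t s : K} (hc : Coord k t s) {x : K} (hx : x ∈ FF k t s) :
    ∃ G H : MvPolynomial (Fin 2) k, H ≠ 0 ∧ IsRelPrime G H ∧ x * cv t s H = cv t s G := by
  obtain ⟨G0, H0, hH0, e⟩ := (mem_FF hc).mp hx
  obtain ⟨a', b', c', hrel, ea, eb⟩ := UniqueFactorizationMonoid.exists_reduced_factors H0 hH0 G0
  have hc0 : c' ≠ 0 := by
    rintro rfl
    rw [zero_mul] at ea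
    exact hH0 ea.symm
  have ha0 : a' ≠ 0 := by
    rintro rfl
    rw [mul_zero] at ea
    exact hH0 ea.symm
  refine ⟨b', a', ha0, hrel.symm, ?_⟩
  have h1 := hc.cv_ne hc0
  apply mul_left_cancel₀ h1
  rw [← map_mul, eb, ← e, ← ea, map_mul]
  ring

theorem mem_loc_coprime {t s : K} (hc : Coord k t s) {π : MvPolynomial (Fin 2) k} (hπ : Prime π) {x : K}
    {G H : MvPolynomial (Fin 2) k} (hH : H ≠ 0) (hGH : IsRelPrime G H) (hx : x * cv t s H = cv t s G) :
    x ∈ loc t s π ↔ ¬ π ∣ H := by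
  have _ := hH
  constructor
  · intro h hdvd
    obtain ⟨G', H', hH', e⟩ := (mem_loc hc hπ).mp h
    have h1 : G * H' = G' * H := by
      apply hc.inj
      rw [map_mul, map_mul, ← hx, ← e]
      ring
    have h2 : π ∣ G * H' := by
      rw [h1]
      exact hdvd.mul_left _
    rcases hπ.dvd_or_dvd h2 with h3 | h3
    · exact hπ.not_isUnit (hGH h3 hdvd)
    · exact hH' h3
  · intro h
    exact (mem_loc hc hπ).mpr ⟨G, H, h, hx⟩

private theorem loc_or_inv {t s : K} (hc : Coord k t s) {π : MvPolynomial (Fin 2) k} (hπ : Prime π) {x : K}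
    (hx : x ∈ FF k t s) : x ∈ loc t s π ∨ x⁻¹ ∈ loc t s π := by
  obtain ⟨G, H, hH, hGH, e⟩ := exists_coprime hc hx
  by_cases h : π ∣ H
  · right
    have hG : ¬ π ∣ G := fun h' => hπ.not_isUnit (hGH h' h)
    refine (mem_loc hc hπ).mpr ⟨H, G, hG, ?_⟩
    by_cases hx0 : x = 0
    · exfalso
      rw [hx0, zero_mul] at e
      have hG0 : G ≠ 0 := by
        rintro rfl
        exact hG (dvd_zero _)
      exact hc.cv_ne hG0 e.symm
    · rw [← e, ← mul_assoc, inv_mul_cancel₀ hx0, one_mul]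
  · left
    exact (mem_loc hc hπ).mpr ⟨G, H, h, e⟩

private theorem int_of_inv {S : Subalgebra k K} {x : K} (hx : x⁻¹ ∈ S) (h : x ∈ ic S) : x ∈ S := by
  by_cases hx0 : x = 0
  · rw [hx0]
    exact zero_mem _
  obtain ⟨p, hp, hc, he⟩ := mem_ic_iff_poly.mp h
  have hn : p.natDegree ≠ 0 := by
    intro h0
    rw [hp.natDegree_eq_zero.mp h0, Polynomial.eval_one] at he
    exact one_ne_zero he
  obtain ⟨n, hn'⟩ := Nat.exists_eq_succ_of_ne_zero hn
  rw [Polynomial.eval_eq_sum_range, hn', Finset.sum_range_succ] at he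
  have hlead : p.coeff n.succ = 1 := by
    rw [← hn']
    exact hp.coeff_natDegree
  rw [hlead, one_mul] at he
  have h1 : x = - ∑ i ∈ Finset.range (n + 1), p.coeff i * x⁻¹ ^ (n - i) := by
    have h2 : x ^ n * x = x ^ n * (- ∑ i ∈ Finset.range (n + 1), p.coeff i * x⁻¹ ^ (n - i)) := by
      rw [mul_neg, Finset.mul_sum]
      have h3 : ∀ i ∈ Finset.range (n + 1), x ^ n * (p.coeff i * x⁻¹ ^ (n - i)) = p.coeff i * x ^ i := by
        intro i hi
        have hi' : i ≤ n := by
          have := Finset.mem_range.mp hi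
          omega
        have h4 : x ^ n = x ^ i * x ^ (n - i) := by
          rw [← pow_add]
          congr 1
          omega
        rw [h4, inv_pow]
        have h5 : x ^ (n - i) ≠ 0 := pow_ne_zero _ hx0
        field_simp
      rw [Finset.sum_congr rfl h3, ← pow_succ]
      exact eq_neg_of_add_eq_zero_right he
    exact mul_left_cancel₀ (pow_ne_zero _ hx0) h2
  rw [h1]
  exact neg_mem (sum_mem fun i _ => mul_mem (hc i) (pow_mem hx _))

theorem loc_int {t s : K} (hc : Coord k t s) {π : MvPolynomial (Fin 2) k} (hπ : Prime π) {x : K}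
    (hx : x ∈ FF k t s) (h : x ∈ ic (loc t s π)) : x ∈ loc t s π := by
  rcases loc_or_inv hc hπ hx with h1 | h1
  · exact h1
  · exact int_of_inv h1 h

private theorem inv_const (t s : K) (S : Subalgebra k K) {u : MvPolynomial (Fin 2) k} (hu : IsUnit u) :
    (cv t s u)⁻¹ ∈ S := by
  obtain ⟨a, ha, rfl⟩ := MvPolynomial.isUnit_iff_eq_C_of_isReduced.mp hu
  rw [cv_C, ← map_inv₀]
  exact S.algebraMap_mem _

theorem mem_pol_of_loc {t s : K} (hc : Coord k t s) {x : K} (hx : x ∈ FF k t s)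
    (h : ∀ π : MvPolynomial (Fin 2) k, Prime π → x ∈ loc t s π) : x ∈ pol k t s := by
  obtain ⟨G, H, hH, hGH, e⟩ := exists_coprime hc hx
  have hu : IsUnit H := by
    by_contra hcon
    obtain ⟨π, hπ, hd⟩ := WfDvdMonoid.exists_irreducible_factor hcon hH
    exact (mem_loc_coprime hc hπ.prime hH hGH e).mp (h π hπ.prime) hd
  have h1 : x = cv t s G * (cv t s H)⁻¹ := by
    rw [← e, mul_assoc, mul_inv_cancel₀ (hc.cv_ne hH), mul_one]
  rw [h1]
  exact mul_mem (mem_pol.mpr ⟨G, rfl⟩) (inv_const t s _ hu)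

theorem pol_int {t s : K} (hc : Coord k t s) {x : K} (hx : x ∈ FF k t s) (h : x ∈ ic (pol k t s)) :
    x ∈ pol k t s := by
  refine mem_pol_of_loc hc hx fun π hπ => loc_int hc hπ hx (ic_mono ?_ h)
  intro y hy
  obtain ⟨G, rfl⟩ := mem_pol.mp hy
  exact cv_mem_loc t s hπ G

theorem ringV_le_loc {t s : K} (hc : Coord k t s) (pts : Finset (k × k)) {π : MvPolynomial (Fin 2) k} (hπ : Prime π)
    (h : ∀ T ∈ pts, ¬ Associated π (X 1 - C T.2)) : ringV t s pts ≤ loc t s π := by
  have _ := hc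
  unfold ringV
  refine Algebra.adjoin_le ?_
  rintro x ((rfl | rfl) | ⟨T, hT, rfl⟩)
  · have := cv_mem_loc x s hπ (X 0)
    rwa [cv_X0] at this
  · have := cv_mem_loc t x hπ (X 1)
    rwa [cv_X1] at this
  · have h1 : ¬ π ∣ (X 1 - C T.2) := by
      intro hd
      exact h T hT (hπ.irreducible.associated_of_dvd (prime_X1_sub T.2).irreducible hd)
    have := inv_cv_mem_loc t s h1
    rwa [map_sub, cv_X1, cv_C] at this

theorem mem_ringV_of_loc {t s : K} (hc : Coord k t s) (pts : Finset (k × k)) {x : K} (hx : x ∈ FF k t s)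
    (h : ∀ π : MvPolynomial (Fin 2) k, Prime π → (∀ T ∈ pts, ¬ Associated π (X 1 - C T.2)) → x ∈ loc t s π) :
    x ∈ ringV t s pts := by
  obtain ⟨G, H, hH, hGH, e⟩ := exists_coprime hc hx
  have h1 : x = cv t s G * (cv t s H)⁻¹ := by
    rw [← e, mul_assoc, mul_inv_cancel₀ (hc.cv_ne hH), mul_one]
  have hpol : ∀ G : MvPolynomial (Fin 2) k, cv t s G ∈ ringV t s pts := by
    intro G
    have h2 : pol k t s ≤ ringV t s pts := Algebra.adjoin_mono (Set.subset_union_left)
    exact h2 (mem_pol.mpr ⟨G, rfl⟩)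
  have key : ∀ H : MvPolynomial (Fin 2) k, H ≠ 0 →
      (∀ π, Prime π → π ∣ H → ∃ T ∈ pts, Associated π (X 1 - C T.2)) →
      (cv t s H)⁻¹ ∈ ringV t s pts := by
    intro H hH0
    induction H using WfDvdMonoid.induction_on_irreducible with
    | zero => exact absurd rfl hH0
    | unit u hu => exact fun _ => inv_const t s _ hu
    | mul a i ha hi ih =>
      intro hp
      obtain ⟨T, hT, v, hv⟩ := hp i hi.prime (Dvd.intro a rfl)
      rw [map_mul, mul_inv]
      refine mul_mem ?_ (ih ha fun π h1 h2 => hp π h1 (h2.mul_left i))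
      have h3 : (cv t s i)⁻¹ = cv t s (v : MvPolynomial (Fin 2) k) * (s - algebraMap k K T.2)⁻¹ := by
        have h4 : cv t s i * cv t s (v : MvPolynomial (Fin 2) k) = s - algebraMap k K T.2 := by
          rw [← map_mul, hv, map_sub, cv_X1, cv_C]
        rw [← h4, mul_inv, mul_comm (cv t s i)⁻¹, ← mul_assoc, mul_inv_cancel₀, one_mul]
        exact hc.cv_ne v.ne_zero
      rw [h3]
      exact mul_mem (hpol _) (Algebra.subset_adjoin (Or.inr ⟨T, hT, rfl⟩))
  rw [h1]
  refine mul_mem (hpol G) (key H hH ?_)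
  intro π hπ hd
  by_contra hcon
  push Not at hcon
  exact (mem_loc_coprime hc hπ hH hGH e).mp (h π hπ hcon) hd

theorem hor_den {t s : K} (hc : Coord k t s) {x : K} (hx : x ∈ FF k t s)
    (h : ∀ π : MvPolynomial (Fin 2) k, Hor π → x ∈ loc t s π) :
    ∃ f : Polynomial k, f ≠ 0 ∧ Polynomial.aeval t f * x ∈ pol k t s := by
  obtain ⟨G, H, hH, hGH, e⟩ := exists_coprime hc hx
  have key : ∀ H : MvPolynomial (Fin 2) k, H ≠ 0 → (∀ π, Prime π → π ∣ H → ¬ Hor π) →
      ∃ f : Polynomial k, f ≠ 0 ∧ H ∣ Polynomial.aeval (X 0 : MvPolynomial (Fin 2) k) f := by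
    intro H hH0
    induction H using WfDvdMonoid.induction_on_irreducible with
    | zero => exact absurd rfl hH0
    | unit u hu => exact fun _ => ⟨1, one_ne_zero, hu.dvd⟩
    | mul a i ha hi ih =>
      intro hp
      obtain ⟨f, hf, hfd⟩ := ih ha fun π h1 h2 => hp π h1 (h2.mul_left i)
      have h1 := hp i hi.prime (Dvd.intro a rfl)
      have h2 : ∃ g : Polynomial k, g ≠ 0 ∧ i ∣ Polynomial.aeval (X 0 : MvPolynomial (Fin 2) k) g := by
        by_contra hcon
        push Not at hcon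
        exact h1 ⟨hi.prime, hcon⟩
      obtain ⟨g, hg, hgd⟩ := h2
      exact ⟨g * f, mul_ne_zero hg hf, by rw [map_mul]; exact mul_dvd_mul hgd hfd⟩
  obtain ⟨f, hf, q, hq⟩ := key H hH (by
    intro π hπ hd hhor
    exact (mem_loc_coprime hc hπ hH hGH e).mp (h π hhor) hd)
  refine ⟨f, hf, mem_pol.mpr ⟨q * G, ?_⟩⟩
  have h1 : Polynomial.aeval t f = cv t s (Polynomial.aeval (X 0 : MvPolynomial (Fin 2) k) f) := by
    rw [← Polynomial.aeval_algHom_apply, cv_X0]
  rw [h1, hq, map_mul, map_mul, ← e]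
  ring

theorem rem_loc {t s : K} (hc : Coord k t s) {π : MvPolynomial (Fin 2) k} (hπ : Prime π) {w c : K}
    (hw : w ∈ FF k t s) (hw0 : w ≠ 0) (hcF : c ∈ FF k t s) (p : ℕ) (hp : 2 ≤ p)
    (h : ∀ j : ℕ, w * c ^ (p ^ j) ∈ loc t s π) : c ∈ loc t s π := by
  obtain ⟨G, H, hH, hGH, e⟩ := exists_coprime hc hcF
  obtain ⟨W, W', hW', ew⟩ := (mem_FF hc).mp hw
  have hW0 : W ≠ 0 := by
    rintro rfl
    rw [map_zero] at ew
    exact mul_ne_zero hw0 (hc.cv_ne hW') ew
  rw [mem_loc_coprime hc hπ hH hGH e]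
  intro hd
  have hG : ¬ π ∣ G := fun h' => hπ.not_isUnit (hGH h' hd)
  have hfin : FiniteMultiplicity π W := FiniteMultiplicity.of_not_isUnit hπ.not_isUnit hW0
  obtain ⟨n, hn⟩ := hfin
  obtain ⟨A, E, hE, eA⟩ := (mem_loc hc hπ).mp (h (n + 1))
  set q := p ^ (n + 1) with hq
  have hqn : n + 1 ≤ q := (Nat.lt_pow_self (by omega)).le
  have h1 : W * (G ^ q * E) = A * W' * H ^ q := by
    apply hc.inj
    simp only [map_mul, map_pow]
    rw [← ew, ← e, ← eA]
    ring
  have h2 : π ^ q ∣ W * (G ^ q * E) := by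
    rw [h1]
    exact (pow_dvd_pow_of_dvd hd q).mul_left _
  have h3 : ¬ π ∣ G ^ q * E := by
    intro h4
    rcases hπ.dvd_or_dvd h4 with h5 | h5
    · exact hG (hπ.dvd_of_dvd_pow h5)
    · exact hE h5
  have h4 : π ^ q ∣ W := hπ.pow_dvd_of_dvd_mul_right q h3 h2
  exact hn ((pow_dvd_pow π hqn).trans h4)

/-- A line `s = a + b t` is horizontal. -/
theorem hor_line (a b : k) : Hor (X 1 - C a - C b * X 0 : MvPolynomial (Fin 2) k) := by
  refine ⟨prime_line a b, ?_⟩
  rintro f hf ⟨g, hg⟩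
  apply hf
  have h1 := congrArg (aeval ![(Polynomial.X : Polynomial k), Polynomial.C a + Polynomial.C b * Polynomial.X]) hg
  rw [← Polynomial.aeval_algHom_apply, map_mul, aeval_X] at h1
  simp only [map_sub, map_mul, aeval_X, aeval_C, Matrix.cons_val_zero, Matrix.cons_val_one,
    Polynomial.algebraMap_eq, Polynomial.aeval_X_left_apply] at h1
  rw [h1]
  ring

end Pool.Agent.Lib.MP_4318ff_ag.Q
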