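import Pool.Agent.Lib.MP_4318ff_ag.Q.MinPoly
import Pool.Agent.Lib.MP_4318ff_ag.Q.LocUFD
import Pool.Agent.Lib.MP_4318ff_ag.Q.CoordCh
import Pool.Agent.Lib.MP_4318ff_ag.S.Remove

/-!
# Removal of a fixed multiplier in characteristic p

PROOF of `removal`. Let `f = minpoly F z = X^n + ∑ c_l X^l`, `q = p^j`. Frobenius: `f^(q) := X^n + ∑ c_l^q X^l` kills `z^q`. `F(z^q) = F(z)` because `z` is
separable over `F` (Mathlib: `IntermediateField.adjoin_simple_eq_adjoin_pow_expChar_pow_of_isSeparable` or similar), so `z^q` and `w z^q` have degree `n` over `F` and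
the minimal polynomial of `w z^q` is `X^n + ∑ w^(n-l) c_l^q X^l`. By `minpoly_coeff_mem`: `w^(n-l) c_l^q ∈ S` for all `j`, so `c_l ∈ S` by `hrem`
(for the multiplier `w^(n-l) ≠ 0`; for `l = n` nothing to show). So `z ∈ ic S`.
`removal_V`: apply `removal` with `S = ringV t s pts`; `hrem`, `hint`: a prime `π` not associated to the lines: `ringV ≤ loc π`, so `rem_loc`, `loc_int` and
`mem_ringV_of_loc`. `removal_loc`: `S = loc t s π`.
-/

set_option autoImplicit false

namespace Pool.Agent.Lib.MP_4318ff_ag.Q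

open MvPolynomial

variable {k K : Type} [Field k] [Field K] [Algebra k K]

theorem removal (p : ℕ) [Fact p.Prime] [CharP k p] (F : IntermediateField k K) [FiniteDimensional F K]
    [Algebra.IsSeparable F K] (S : Subalgebra k K) (hSF : ∀ x ∈ S, x ∈ F)
    (hint : ∀ x ∈ F, x ∈ ic S → x ∈ S)
    (hrem : ∀ w ∈ F, w ≠ 0 → ∀ c ∈ F, (∀ j : ℕ, w * c ^ (p ^ j) ∈ S) → c ∈ S)
    {w : K} (hw : w ∈ F) (hw0 : w ≠ 0) {z : K} (hz : ∀ j : ℕ, w * z ^ (p ^ j) ∈ ic S) : z ∈ ic S := by
  have hexpk : ExpChar k p := ExpChar.prime Fact.out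
  have hexp : ExpChar F p := expChar_of_injective_algebraMap (algebraMap k F).injective p
  have hzF : IsIntegral F z := Algebra.IsSeparable.isIntegral F z
  have hw' : (⟨w, hw⟩ : F) ≠ 0 := fun h => hw0 (congrArg Subtype.val h)
  have hc : ∀ i, (((minpoly F z).coeff i : F) : K) ∈ S := by
    intro i
    apply hrem (w ^ ((minpoly F z).natDegree - i)) (pow_mem hw _) (pow_ne_zero _ hw0) _ ((minpoly F z).coeff i).2
    intro j
    have h1 := minpoly_coeff_mem F S hSF hint (hz j) i
    have e : w * z ^ (p ^ j) = (⟨w, hw⟩ : F) • z ^ p ^ j := by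
      rw [Algebra.smul_def]
      rfl
    rw [e, Pool.Agent.Lib.MP_4318ff_ag.coeff_minpoly_mul_pow p _ hw' z j i] at h1
    rw [mul_comm]
    exact h1
  rw [mem_ic_iff_poly]
  refine ⟨(minpoly F z).map (algebraMap F K), (minpoly.monic hzF).map _, ?_, ?_⟩
  · intro i
    rw [Polynomial.coeff_map]
    exact hc i
  · rw [Polynomial.eval_map, ← Polynomial.aeval_def]
    exact minpoly.aeval F z

theorem removal_t_mem (t s : K) : t ∈ FF k t s := IntermediateField.subset_adjoin _ _ (Or.inl rfl)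

theorem removal_s_mem (t s : K) : s ∈ FF k t s := IntermediateField.subset_adjoin _ _ (Or.inr rfl)

theorem removal_ringV_le (t s : K) (pts : Finset (k × k)) {x : K} (hx : x ∈ ringV t s pts) : x ∈ FF k t s := by
  have h : ringV t s pts ≤ (FF k t s).toSubalgebra := by
    apply Algebra.adjoin_le
    rintro y ((rfl | rfl) | ⟨T, -, rfl⟩)
    · exact removal_t_mem _ s
    · exact removal_s_mem t _
    · exact (FF k t s).inv_mem (sub_mem (removal_s_mem t s) ((FF k t s).algebraMap_mem _))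
  exact h hx

theorem removal_V (p : ℕ) [Fact p.Prime] [CharP k p] {t s : K} (hc : Coord k t s) (pts : Finset (k × k))
    {w : K} (hw : w ∈ FF k t s) (hw0 : w ≠ 0) {z : K} (hz : ∀ j : ℕ, w * z ^ (p ^ j) ∈ ic (ringV t s pts)) :
    z ∈ ic (ringV t s pts) := by
  have := hc.fin
  have := hc.sep
  refine removal p (FF k t s) (ringV t s pts) (fun x hx => removal_ringV_le t s pts hx) ?_ ?_ hw hw0 hz
  · intro x hxF hx
    apply mem_ringV_of_loc hc pts hxF
    intro π hπ hT
    exact loc_int hc hπ hxF (ic_mono (ringV_le_loc hc pts hπ hT) hx)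
  · intro w hw hw0 c hcF h
    apply mem_ringV_of_loc hc pts hcF
    intro π hπ hT
    exact rem_loc hc hπ hw hw0 hcF p (Fact.out : p.Prime).two_le fun j => ringV_le_loc hc pts hπ hT (h j)

theorem removal_loc (p : ℕ) [Fact p.Prime] [CharP k p] {t s : K} (hc : Coord k t s)
    {π : MvPolynomial (Fin 2) k} (hπ : Prime π)
    {w : K} (hw : w ∈ FF k t s) (hw0 : w ≠ 0) {z : K} (hz : ∀ j : ℕ, w * z ^ (p ^ j) ∈ ic (loc t s π)) :
    z ∈ ic (loc t s π) := by
  have := hc.fin
  have := hc.sep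
  refine removal p (FF k t s) (loc t s π) (fun x hx => loc_le_FF π hx) ?_ ?_ hw hw0 hz
  · intro x hxF hx
    exact loc_int hc hπ hxF hx
  · intro w hw hw0 c hcF h
    exact rem_loc hc hπ hw hw0 hcF p (Fact.out : p.Prime).two_le h

end Pool.Agent.Lib.MP_4318ff_ag.Q
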