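import Pool.Agent.Lib.MP_4318ff_ag.Q.HalfSol
import Pool.Agent.Lib.MP_4318ff_ag.Q.Removal
import Pool.Agent.Lib.MP_4318ff_ag.Q.PthRoot

/-!
# The theorem in characteristic `p`

Twist of the half solutions, removal of the fixed multiplier, extraction of `p`-th roots down to
level 0.
-/

set_option autoImplicit false

namespace Pool.Agent.Lib.MP_4318ff_ag.Q

open MvPolynomial

variable {k K : Type} [Field k] [Field K] [Algebra k K]

/-- `p₀(n, N, a)`. -/
def pBound (n N a : ℕ) : ℕ := n * (3 * a * N ^ 2 + 3)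

omit [Field k] [Field K] [Algebra k K] in
private theorem map_map' (f g : K → K) (D : Fam k K) : (D.map f).map g = D.map (fun y => g (f y)) := rfl

private theorem adjoin_t_le (t s : K) : IntermediateField.adjoin k {t} ≤ FF k t s :=
  IntermediateField.adjoin.mono k _ _ (by
    intro x hx
    rw [Set.mem_singleton_iff] at hx
    rw [hx]
    exact Set.mem_insert t _)

private theorem quot_eq {p : ℕ} [Fact p.Prime] [CharP K p] (z ρ v w : K) (j : ℕ) :
    (z ^ p ^ j - ρ ^ p ^ j) / (v ^ p ^ j / w) = w * ((z - ρ) / v) ^ p ^ j := by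
  rw [div_pow, sub_pow_char_pow, div_div_eq_mul_div]
  ring

private theorem removal_sol (p : ℕ) [Fact p.Prime] [CharP k p] {t s w v z : K} (hc : Coord k t s)
    {D : Fam k K} (hw : w ∈ IntermediateField.adjoin k {t}) (hw0 : w ≠ 0)
    (hz : ∀ j, (D.map (fun y => y ^ p ^ j)).Sol t s (v ^ p ^ j / w) (z ^ p ^ j)) : D.Sol t s v z := by
  have : CharP K p := charP_of_injective_algebraMap (algebraMap k K).injective p
  refine ⟨?_, fun T hT => ?_, fun T hT => ?_, ?_⟩
  · refine removal_V p hc D.pts (adjoin_t_le t s hw) hw0 fun j => ?_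
    have := (hz j).s1
    change (z ^ p ^ j - D.ρ1 ^ p ^ j) / (v ^ p ^ j / w) ∈ ic (ringV t s D.pts) at this
    rwa [quot_eq] at this
  · refine removal_loc p hc (prime_X1_sub T.2) (adjoin_t_le t s hw) hw0 fun j => ?_
    have := (hz j).s2 T hT
    change (z ^ p ^ j - D.ρT T ^ p ^ j) / (v ^ p ^ j / w) ∈ ic (locS t s T) at this
    rwa [quot_eq] at this
  · refine removal_loc p (hc.sl T) (prime_X0_sub T.1) (adjoin_t_le t _ hw) hw0 fun j => ?_
    have := (hz j).s3 T hT
    change (z ^ p ^ j - D.ρ1 ^ p ^ j) / (v ^ p ^ j / w) ∈ ic (locE t s T) at this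
    rwa [quot_eq] at this
  · have h1 : Prime (X 1 : MvPolynomial (Fin 2) k) := by
      have := prime_X1_sub (0 : k)
      rwa [C_0, sub_zero] at this
    refine removal_loc p hc.sInv h1 (adjoin_t_le t _ hw) hw0 fun j => ?_
    have := (hz j).s4
    change (z ^ p ^ j - D.ρ3 ^ p ^ j) / (v ^ p ^ j / w) ∈ ic (locI k t s) at this
    rwa [quot_eq] at this

private theorem root_mem (p : ℕ) [Fact p.Prime] [CharP K p] {S : Subalgebra k K} {z ρ v : K}
    (h : (z ^ p - ρ ^ p) / v ^ p ∈ ic S) : (z - ρ) / v ∈ ic S := by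
  refine mem_ic_of_pow (Fact.out : p.Prime).pos ?_
  rwa [div_pow, sub_pow_char]

private theorem sol_root (p : ℕ) [Fact p.Prime] [CharP k p] {t s v z : K} {D : Fam k K}
    (h : (D.map (fun y => y ^ p)).Sol t s (v ^ p) (z ^ p)) : D.Sol t s v z := by
  have : CharP K p := charP_of_injective_algebraMap (algebraMap k K).injective p
  exact ⟨root_mem p h.s1, fun T hT => root_mem p (h.s2 T hT), fun T hT => root_mem p (h.s3 T hT),
    root_mem p h.s4⟩

private theorem loc_assoc (t s : K) {π π' : MvPolynomial (Fin 2) k} (h : Associated π π') :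
    loc t s π = loc t s π' := by
  unfold loc
  congr 1
  ext x
  constructor
  · rintro ⟨G, H, h1, h2⟩
    exact ⟨G, H, fun h3 => h1 (h.dvd_iff_dvd_left.mpr h3), h2⟩
  · rintro ⟨G, H, h1, h2⟩
    exact ⟨G, H, fun h3 => h1 (h.dvd_iff_dvd_left.mp h3), h2⟩

private theorem not_assoc (c : k) : ¬ Associated (X 0 : MvPolynomial (Fin 2) k) (X 1 - C c) := by
  intro h
  obtain ⟨g, hg⟩ := h.dvd
  have h1 := congrArg (aeval ![(0 : Polynomial k), Polynomial.X]) hg
  simp only [map_sub, map_mul, aeval_X, aeval_C, Matrix.cons_val_zero, Matrix.cons_val_one,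
    zero_mul, Polynomial.algebraMap_eq] at h1
  exact Polynomial.X_sub_C_ne_zero c h1

private theorem descent (p : ℕ) [Fact p.Prime] [CharP k p] [PerfectField k] {t s u θ : K} (hc : Coord k t s)
    {n κ N a : ℕ} (hn : 0 < n) (hκ : 0 < κ) (hu : u ^ n * t = 1)
    (hN : Module.finrank (FF k t s) K = N) (hθ : IntermediateField.adjoin (FF k t s) {θ} = ⊤)
    (h1 : θ ∈ ic (pol k t s)) (h2 : θ * t⁻¹ ^ a ∈ ic (pol k t⁻¹ (s / t))) (hp : pBound n N a ≤ p)
    {D D' : Fam k K} (e : ℕ) : ∀ z : K, (D.map (fun y => y ^ p ^ e)).Sol t s 1 z →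
      (D'.map (fun y => y ^ p ^ e)).Sol t⁻¹ (s / t) (u ^ (κ * p ^ e)) z →
      ∃ x : K, D.Sol t s 1 x ∧ D'.Sol t⁻¹ (s / t) (u ^ κ) x := by
  have : CharP K p := charP_of_injective_algebraMap (algebraMap k K).injective p
  induction e with
  | zero =>
    intro z hz hz'
    have hf : (fun y : K => y ^ p ^ 0) = fun y => y := by
      funext y
      rw [pow_zero, pow_one]
    rw [hf] at hz hz'
    rw [pow_zero, mul_one] at hz'
    exact ⟨z, hz, hz'⟩
  | succ e ih =>
    intro z hz hz'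
    have hpe : ∀ y : K, y ^ p ^ (e + 1) = (y ^ p ^ e) ^ p := fun y => by rw [← pow_mul, pow_succ]
    have hpf : (fun y : K => y ^ p ^ (e + 1)) = fun y => (y ^ p ^ e) ^ p := funext hpe
    have hp1 : 0 < p := (Fact.out : p.Prime).pos
    -- the order of vanishing at infinity
    have hd : 3 * a * N ^ 2 + 1 < κ * p ^ (e + 1) / n := by
      have h3 : n * (3 * a * N ^ 2 + 3) ≤ κ * p ^ (e + 1) := by
        calc n * (3 * a * N ^ 2 + 3) ≤ p := hp
          _ = 1 * p ^ 1 := by ring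
          _ ≤ κ * p ^ (e + 1) := Nat.mul_le_mul hκ (Nat.pow_le_pow_right hp1 (by omega))
      have h4 : 3 * a * N ^ 2 + 3 ≤ κ * p ^ (e + 1) / n := (Nat.le_div_iff_mul_le hn).mpr (by
        rw [mul_comm]; exact h3)
      omega
    have hx : ∀ π : MvPolynomial (Fin 2) k, Prime π → ∃ r : K, z - r ^ p ∈ ic (loc t s π) := by
      intro π hπ
      by_cases hT : ∀ T ∈ D.pts, ¬ Associated π (X 1 - C T.2)
      · refine ⟨D.ρ1 ^ p ^ e, ?_⟩
        have h3 := hz.s1
        change (z - D.ρ1 ^ p ^ (e + 1)) / 1 ∈ ic (ringV t s D.pts) at h3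
        rw [div_one, hpe] at h3
        exact ic_mono (ringV_le_loc hc D.pts hπ hT) h3
      · push Not at hT
        obtain ⟨T, hT, hass⟩ := hT
        refine ⟨D.ρT T ^ p ^ e, ?_⟩
        have h3 := hz.s2 T hT
        change (z - D.ρT T ^ p ^ (e + 1)) / 1 ∈ ic (loc t s (X 1 - C T.2)) at h3
        rw [div_one, hpe] at h3
        rw [loc_assoc t s hass]
        exact h3
    have hu0 : u ≠ 0 := by
      rintro rfl
      rw [zero_pow hn.ne', zero_mul] at hu
      exact zero_ne_one hu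
    have hX0 : Prime (X 0 : MvPolynomial (Fin 2) k) := by
      have := prime_X0_sub (0 : k)
      rwa [C_0, sub_zero] at this
    have huO : u ∈ ic (locO k t⁻¹ (s / t)) := by
      refine mem_ic_of_pow hn ?_
      rw [eq_inv_of_mul_eq_one_left hu]
      refine le_ic _ ?_
      have := cv_mem_loc t⁻¹ (s / t) hX0 (X 0)
      rwa [cv_X0] at this
    have hx' : ∃ r : K, (z - r ^ p) * t ^ (κ * p ^ (e + 1) / n) ∈ ic (locO k t⁻¹ (s / t)) := by
      refine ⟨D'.ρ1 ^ p ^ e, ?_⟩
      have h3 := hz'.s1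
      change (z - D'.ρ1 ^ p ^ (e + 1)) / u ^ (κ * p ^ (e + 1)) ∈ ic (ringV t⁻¹ (s / t) D'.pts) at h3
      rw [hpe] at h3
      have h4 := ic_mono (ringV_le_loc hc.inv D'.pts hX0 (fun T _ => not_assoc T.2)) h3
      set d := κ * p ^ (e + 1) / n with hdd
      have h5 : n * d ≤ κ * p ^ (e + 1) := Nat.mul_div_le _ _
      obtain ⟨r, hr⟩ := Nat.exists_eq_add_of_le h5
      have h6 : (z - (D'.ρ1 ^ p ^ e) ^ p) * t ^ d =
          (z - (D'.ρ1 ^ p ^ e) ^ p) / u ^ (κ * p ^ (e + 1)) * u ^ r := by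
        have h7 : u ^ (κ * p ^ (e + 1)) * t ^ d = u ^ r := by
          rw [hr, pow_add, pow_mul, mul_right_comm, ← mul_pow, hu, one_pow, one_mul]
        rw [← h7, div_mul_eq_mul_div, ← mul_assoc, mul_right_comm, mul_div_assoc,
          div_self (pow_ne_zero _ hu0), mul_one]
      rw [h6]
      exact mul_mem h4 (pow_mem huO _)
    obtain ⟨y, rfl⟩ := pth_root p hc N a hN hθ h1 h2 hd hx hx'
    refine ih y (sol_root p ?_) (sol_root p ?_)
    · rw [one_pow, map_map', ← hpf]
      exact hz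
    · rw [map_map', ← hpf, ← pow_mul, mul_assoc, ← pow_succ]
      exact hz'

theorem charP_main (p : ℕ) [Fact p.Prime] [CharP k p] [PerfectField k] {t s u θ : K} (hc : Coord k t s) {n κ N a : ℕ}
    (hn : 0 < n) (hκ : 0 < κ) (hu : u ^ n * t = 1)
    (hN : Module.finrank (FF k t s) K = N) (hθ : IntermediateField.adjoin (FF k t s) {θ} = ⊤)
    (h1 : θ ∈ ic (pol k t s)) (h2 : θ * t⁻¹ ^ a ∈ ic (pol k t⁻¹ (s / t))) (hp : pBound n N a ≤ p)
    {D D' : Fam k K} (hD : D.Reg t s 1) (hD' : D'.Reg t⁻¹ (s / t) (u ^ κ)) (hco : Compat t s D D')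
    (h : K ≃ₐ[k] K) (ht : h t = t) (hs : h s = s) (conn : ∀ z : K, AlgT k t z → h z = z) :
    ∃ x : K, (D.map (fun y => h y - y)).Sol t s 1 x ∧ (D'.map (fun y => h y - y)).Sol t⁻¹ (s / t) (u ^ κ) x := by
  have : CharP K p := charP_of_injective_algebraMap (algebraMap k K).injective p
  obtain ⟨Φ, Φ', hΦ, hΦ', e₀, hx⟩ := half_sol p hc hn hκ hu hD hD' hco
  -- `u` is algebraic over `k(t)`
  have hut : u ^ n = t⁻¹ := eq_inv_of_mul_eq_one_left hu
  have hmem : t⁻¹ ∈ IntermediateField.adjoin k {t} :=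
    inv_mem (IntermediateField.subset_adjoin k _ (Set.mem_singleton t))
  have hualg : AlgT k t u := by
    refine IsAlgebraic.of_pow hn ?_
    rw [hut]
    exact isAlgebraic_algebraMap (⟨t⁻¹, hmem⟩ : IntermediateField.adjoin k {t})
  have huh : h u = u := conn u hualg
  have ht' : h t⁻¹ = t⁻¹ := by rw [map_inv₀, ht]
  have hs' : h (s / t) = s / t := by rw [map_div₀, hs, ht]
  have hcom : ∀ e : ℕ, (fun y : K => h (y ^ p ^ e) - y ^ p ^ e) = fun y => (h y - y) ^ p ^ e := by
    intro e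
    funext y
    rw [sub_pow_char_pow, map_pow]
  have hΦt : h (Polynomial.aeval t Φ)⁻¹ = (Polynomial.aeval t Φ)⁻¹ := by
    rw [map_inv₀, ← Polynomial.aeval_algHom_apply h t Φ, ht]
  have hΦt' : ∀ m : ℕ, h (u ^ m / Polynomial.aeval t⁻¹ Φ') = u ^ m / Polynomial.aeval t⁻¹ Φ' := by
    intro m
    rw [map_div₀, ← Polynomial.aeval_algHom_apply h t⁻¹ Φ', ht', map_pow, huh]
  choose! x x' hx1 hx2 hx3 using hx
  have hxx : ∀ e ≥ e₀, h (x' e) - x' e = h (x e) - x e := by
    intro e he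
    have h3 := conn _ (hx3 e he)
    rw [map_sub] at h3
    linear_combination -h3
  -- Frobenius
  have hstep : ∀ e ≥ e₀, h (x (e + 1)) - x (e + 1) = (h (x e) - x e) ^ p := by
    intro e he
    have h3 := sol_frob p (hx1 e he) 1
    rw [map_map', pow_one] at h3
    have h4 : (Polynomial.aeval t Φ)⁻¹ ^ p = (Polynomial.aeval t (Φ ^ p))⁻¹ := by
      rw [map_pow, inv_pow]
    rw [h4] at h3
    have h5 : (fun y : K => (y ^ p ^ e) ^ p) = fun y => y ^ p ^ (e + 1) := by
      funext y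
      rw [← pow_mul, pow_succ]
    rw [h5] at h3
    have h6 := conn _ (sol_diff hc hΦ (pow_ne_zero p hΦ) (hx1 (e + 1) (by omega)) h3)
    rw [map_sub, map_pow] at h6
    rw [sub_pow_char]
    linear_combination h6
  have hpow : ∀ j : ℕ, h (x (e₀ + j)) - x (e₀ + j) = (h (x e₀) - x e₀) ^ p ^ j := by
    intro j
    induction j with
    | zero => rw [pow_zero, pow_one, add_zero]
    | succ j ih => rw [← add_assoc, hstep (e₀ + j) (by omega), ih, ← pow_mul, ← pow_succ]
  set δ : K := h (x e₀) - x e₀ with hδ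
  have hpadd : ∀ j : ℕ, (fun y : K => ((h y - y) ^ p ^ e₀) ^ p ^ j) = fun y => (h y - y) ^ p ^ (e₀ + j) := by
    intro j
    funext y
    rw [← pow_mul, ← pow_add]
  have haev : ∀ (a : K) (f : Polynomial k), a ∈ IntermediateField.adjoin k {a} ∧
      Polynomial.aeval a f ∈ IntermediateField.adjoin k {a} := by
    intro a f
    have h3 : a ∈ IntermediateField.adjoin k {a} :=
      IntermediateField.subset_adjoin k _ (Set.mem_singleton a)
    refine ⟨h3, ?_⟩
    have h4 : Polynomial.aeval a f = ((Polynomial.aeval (⟨a, h3⟩ : IntermediateField.adjoin k {a}) f :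
        IntermediateField.adjoin k {a}) : K) := by
      rw [← IntermediateField.coe_val, ← Polynomial.aeval_algHom_apply]
      rfl
    rw [h4]
    exact SetLike.coe_mem _
  refine descent p hc hn hκ hu hN hθ h1 h2 hp e₀ δ ?_ ?_
  · refine removal_sol p hc (haev t Φ).2 (hc.aeval_ne hΦ) fun j => ?_
    rw [one_pow, one_div, map_map', map_map', hpadd, ← hpow]
    have h3 := sol_twist h ht hs hΦt (hx1 (e₀ + j) (by omega))
    rw [map_map', hcom] at h3
    exact h3
  · refine removal_sol p hc.inv (haev t⁻¹ Φ').2 (hc.inv.aeval_ne hΦ') fun j => ?_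
    rw [map_map', map_map', hpadd, ← hpow, ← hxx _ (by omega), ← pow_mul, mul_assoc, ← pow_add]
    have h3 := sol_twist h ht' hs' (hΦt' _) (hx2 (e₀ + j) (by omega))
    rw [map_map', hcom] at h3
    exact h3

end Pool.Agent.Lib.MP_4318ff_ag.Q
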