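import Pool.Agent.Lib.MP_4318ff_ag.Q.UDefs

/-!
# `ℂ` is the ultraproduct of the algebraic closures of the prime fields

PROOF. `U` = any ultrafilter finer than the cofinite filter on the infinite set `Nat.Primes` (`Filter.hyperfilter`); `κ p = AlgebraicClosure (ZMod p)` (`Fact (p : ℕ).Prime`
from `p.2`). `P = (∀ p, κ p) ⧸ UI U κ` is a field (a family which is not in the ideal is eventually nonzero, invert it there), of characteristic 0 (`n < p`
eventually), algebraically closed (a monic polynomial of degree `m > 0` over `P` lifts to a family of monic polynomials of degree `m`, choose a root for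
every `p`), of cardinality the continuum: `≤`: every `κ p` is countable, so `#(∀ p, κ p) ≤ ℵ₀ ^ ℵ₀ = 𝔠`. `≥`: an algebraically closed field `P` of
characteristic 0; injection of `ℕ → Bool` (or of an almost disjoint family): for `f : ℕ → Bool` let `a_f p = ∑_(m < M(p)) f(m) 2^m` in `κ p`, where `M(p)` is maximal with
`2^(M(p)) ≤ p` (then the sum is `< p` and determines `f(0), …, f(M(p)-1)`, and `M(p) → ∞` along `U`); if `f ≠ g` then `a_f p ≠ a_g p` for all large `p`. So
`# P = 𝔠` and `P ≃+* ℂ` by `IsAlgClosed.ringEquivOfCardinalEqOfCharZero` (`Cardinal.mk_complex`). `lim` = quotient map followed by this isomorphism.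
(Compare `Pool/Agent/Lib/MP_740d3f_ag/Los.lean`, which does the algebraically closed part for the ultrapower of `ℂ`.)
-/

set_option autoImplicit false

namespace Pool.Agent.Lib.MP_4318ff_ag.Q

open Filter MvPolynomial

section Field

variable {I : Type} (U : Ultrafilter I) (κ : I → Type) [∀ i, Field (κ i)]

private theorem U1_max : (UI U κ).IsMaximal := by
  rw [Ideal.isMaximal_iff]
  constructor
  · intro h
    have h' : ∀ᶠ i in (U : Filter I), (1 : ∀ i, κ i) i = 0 := h
    obtain ⟨i, hi⟩ := h'.exists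
    exact one_ne_zero hi
  · intro J x hJ hx hxJ
    have h1 : ∀ᶠ i in (U : Filter I), ¬ x i = 0 := by
      rw [Ultrafilter.eventually_not]
      exact hx
    have h2 : (1 - (fun i => (x i)⁻¹) * x : ∀ i, κ i) ∈ UI U κ := by
      change ∀ᶠ i in (U : Filter I), (1 - (fun i => (x i)⁻¹) * x : ∀ i, κ i) i = 0
      filter_upwards [h1] with i hi
      rw [Pi.sub_apply, Pi.mul_apply, Pi.one_apply, inv_mul_cancel₀ hi, sub_self]
    have h3 := J.add_mem (hJ h2) (J.mul_mem_left (fun i => (x i)⁻¹) hxJ)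
    rwa [sub_add_cancel] at h3

/-- The field structure of the ultraproduct. -/
private noncomputable abbrev U1_field : Field (UP U κ) :=
  haveI := U1_max U κ
  Ideal.Quotient.field (UI U κ)

private theorem U1_closed [∀ i, IsAlgClosed (κ i)] : @IsAlgClosed (UP U κ) (U1_field U κ) := by
  let _ := U1_field U κ
  refine IsAlgClosed.of_exists_root _ ?_
  intro p hp hirr
  have hdeg : 0 < p.natDegree := hirr.natDegree_pos
  choose c hc using fun n : ℕ => mkU_surj U (p.coeff n)
  have hroot : ∀ i, ∃ x : κ i, x ^ p.natDegree + ∑ n ∈ Finset.range p.natDegree, c n i * x ^ n = 0 := by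
    intro i
    let F : Polynomial (κ i) := Polynomial.X ^ p.natDegree +
      ∑ n ∈ Finset.range p.natDegree, Polynomial.C (c n i) * Polynomial.X ^ n
    have hlt : (∑ n ∈ Finset.range p.natDegree, Polynomial.C (c n i) * Polynomial.X ^ n).degree <
        (p.natDegree : WithBot ℕ) := by
      apply lt_of_le_of_lt (Polynomial.degree_sum_le _ _)
      rw [Finset.sup_lt_iff (WithBot.bot_lt_coe _)]
      intro n hn
      rw [Finset.mem_range] at hn
      exact lt_of_le_of_lt (Polynomial.degree_C_mul_X_pow_le _ _) (by exact_mod_cast hn)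
    have hFdeg : F.degree = p.natDegree := by
      change (Polynomial.X ^ p.natDegree + _ : Polynomial (κ i)).degree = _
      rw [Polynomial.degree_add_eq_left_of_degree_lt]
      · rw [Polynomial.degree_X_pow]
      · rw [Polynomial.degree_X_pow]; exact hlt
    obtain ⟨x, hx⟩ := IsAlgClosed.exists_root F (by
      rw [hFdeg]; exact_mod_cast hdeg.ne')
    refine ⟨x, ?_⟩
    have h1 : F.eval x = 0 := hx
    have h2 : F.eval x = x ^ p.natDegree + ∑ n ∈ Finset.range p.natDegree, c n i * x ^ n := by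
      change (Polynomial.X ^ p.natDegree + _ : Polynomial (κ i)).eval x = _
      rw [Polynomial.eval_add, Polynomial.eval_pow, Polynomial.eval_X, Polynomial.eval_finsetSum]
      simp
    rw [← h2, h1]
  choose x hx using hroot
  refine ⟨mkU U κ x, ?_⟩
  have h3 : p.eval (mkU U κ x) = mkU U κ (x ^ p.natDegree + ∑ n ∈ Finset.range p.natDegree, c n * x ^ n) := by
    conv_lhs => rw [hp.as_sum]
    rw [Polynomial.eval_add, Polynomial.eval_pow, Polynomial.eval_X, Polynomial.eval_finsetSum, map_add, map_pow,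
      map_sum]
    congr 1
    apply Finset.sum_congr rfl
    intro n _
    rw [Polynomial.eval_mul, Polynomial.eval_C, Polynomial.eval_pow, Polynomial.eval_X, map_mul, map_pow, hc]
  rw [h3]
  refine (mkU_eq_zero U _).2 (Eventually.of_forall fun i => ?_)
  rw [← hx i]
  simp

end Field

section Bits

private def U1_l (f : ℕ → Bool) (M : ℕ) : List ℕ := (List.range M).map (fun m => if f m then 1 else 0)

private theorem U1_l_lt (f : ℕ → Bool) (M : ℕ) : ∀ x ∈ U1_l f M, x < 2 := by
  intro x hx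
  unfold U1_l at hx
  rw [List.mem_map] at hx
  obtain ⟨m, -, rfl⟩ := hx
  split_ifs <;> omega

private theorem U1_l_len (f : ℕ → Bool) (M : ℕ) : (U1_l f M).length = M := by
  unfold U1_l
  rw [List.length_map, List.length_range]

private theorem U1_l_inj {f g : ℕ → Bool} {M : ℕ} (h : U1_l f M = U1_l g M) : ∀ m < M, f m = g m := by
  intro m hm
  unfold U1_l at h
  rw [List.map_inj_left] at h
  have := h m (List.mem_range.2 hm)
  cases hf : f m <;> cases hg : g m <;> simp_all

private def U1_N (f : ℕ → Bool) (p : ℕ) : ℕ := Nat.ofDigits 2 (U1_l f (Nat.log 2 p))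

private theorem U1_N_lt (f : ℕ → Bool) {p : ℕ} (hp : p ≠ 0) : U1_N f p < p := by
  have h1 := Nat.ofDigits_lt_base_pow_length (b := 2) (by norm_num) (U1_l_lt f (Nat.log 2 p))
  rw [U1_l_len] at h1
  exact lt_of_lt_of_le h1 (Nat.pow_log_le_self 2 hp)

private theorem U1_N_inj {f g : ℕ → Bool} {p : ℕ} (h : U1_N f p = U1_N g p) : ∀ m < Nat.log 2 p, f m = g m :=
  U1_l_inj (Nat.ofDigits_inj_of_len_eq (by norm_num) (by rw [U1_l_len, U1_l_len]) (U1_l_lt _ _) (U1_l_lt _ _) h)

end Bits

section Card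

open Cardinal

variable (U : Ultrafilter Nat.Primes) (κ : Nat.Primes → Type) [∀ p, Field (κ p)]

private theorem U1_card_le [∀ p, Countable (κ p)] : #(UP U κ) ≤ 𝔠 := by
  have h1 : #(UP U κ) ≤ #(∀ p, κ p) := mk_le_of_surjective (mkU_surj U)
  choose e he using fun p => exists_injective_nat (κ p)
  have h2 : #(∀ p, κ p) ≤ #(Nat.Primes → ℕ) := by
    refine mk_le_of_injective (f := fun a p => e p (a p)) ?_
    intro a b hab
    funext p
    exact he p (congrFun hab p)
  refine h1.trans (h2.trans ?_)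
  rw [mk_pi, prod_const, lift_id, lift_id, mk_nat]
  calc ℵ₀ ^ #Nat.Primes ≤ ℵ₀ ^ ℵ₀ := power_le_power_left aleph0_ne_zero mk_le_aleph0
    _ = 𝔠 := aleph0_power_aleph0

private theorem U1_le_card (hU : ∀ n : ℕ, ∀ᶠ p : Nat.Primes in (U : Filter Nat.Primes), n < (p : ℕ))
    [∀ p : Nat.Primes, CharP (κ p) (p : ℕ)] : 𝔠 ≤ #(UP U κ) := by
  have h1 : #(ℕ → Bool) = 𝔠 := by
    rw [mk_pi, prod_const, lift_id, lift_id, mk_nat, mk_bool]
    exact two_power_aleph0
  rw [← h1]
  refine mk_le_of_injective (f := fun f : ℕ → Bool => mkU U κ (fun p => ((U1_N f (p : ℕ) : ℕ) : κ p))) ?_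
  intro f g hfg
  simp only at hfg
  rw [mkU_eq] at hfg
  funext m
  obtain ⟨p, hp1, hp2⟩ := (hfg.and (hU (2 ^ (m + 1)))).exists
  have hp0 : (p : ℕ) ≠ 0 := p.2.ne_zero
  rw [CharP.natCast_eq_natCast (κ p) (p : ℕ)] at hp1
  have h2 := hp1.eq_of_lt_of_lt (U1_N_lt f hp0) (U1_N_lt g hp0)
  apply U1_N_inj h2
  exact Nat.lt_of_succ_le ((Nat.le_log_iff_pow_le (by norm_num) hp0).2 hp2.le)

end Card

theorem exists_limD : ∃ U : Ultrafilter Nat.Primes,
    (∀ n : ℕ, ∀ᶠ p : Nat.Primes in (U : Filter Nat.Primes), n < (p : ℕ)) ∧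
    ∃ (κ : Nat.Primes → Type) (_ : ∀ p, Field (κ p)), (∀ p, IsAlgClosed (κ p)) ∧ (∀ p : Nat.Primes, CharP (κ p) (p : ℕ)) ∧
      Nonempty (LimD U κ ℂ) := by
  have hU : ∀ n : ℕ, ∀ᶠ p : Nat.Primes in (hyperfilter Nat.Primes : Filter Nat.Primes), n < (p : ℕ) := by
    intro n
    apply hyperfilter_le_cofinite
    rw [mem_cofinite]
    have h1 : ({p : Nat.Primes | n < (p : ℕ)}ᶜ : Set Nat.Primes) ⊆ (fun p : Nat.Primes => (p : ℕ)) ⁻¹' Set.Iic n := by
      intro p hp
      have hp' : ¬ n < (p : ℕ) := hp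
      exact Set.mem_Iic.2 (not_lt.1 hp')
    exact ((Set.finite_Iic n).preimage (fun a _ b _ h => Subtype.ext h)).subset h1
  have hF : ∀ p : Nat.Primes, Fact (p : ℕ).Prime := fun p => ⟨p.2⟩
  refine ⟨hyperfilter Nat.Primes, hU, fun p => AlgebraicClosure (ZMod (p : ℕ)), fun p => inferInstance,
    fun p => inferInstance, ?_, ?_⟩
  · intro p
    exact charP_of_injective_algebraMap (algebraMap (ZMod (p : ℕ)) (AlgebraicClosure (ZMod (p : ℕ)))).injective _
  · have hC : ∀ p : Nat.Primes, CharP (AlgebraicClosure (ZMod (p : ℕ))) (p : ℕ) := fun p =>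
      charP_of_injective_algebraMap (algebraMap (ZMod (p : ℕ)) (AlgebraicClosure (ZMod (p : ℕ)))).injective _
    have hN : ∀ p : Nat.Primes, Countable (AlgebraicClosure (ZMod (p : ℕ))) := by
      intro p
      rw [← Cardinal.mk_le_aleph0_iff]
      refine (Algebra.IsAlgebraic.cardinalMk_le_max (ZMod (p : ℕ)) (AlgebraicClosure (ZMod (p : ℕ)))).trans ?_
      exact max_le Cardinal.mk_le_aleph0 le_rfl
    let U := hyperfilter Nat.Primes
    let κ : Nat.Primes → Type := fun p => AlgebraicClosure (ZMod (p : ℕ))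
    let _ := U1_field U κ
    have := U1_closed U κ
    have hcard : Cardinal.mk (UP U κ) = Cardinal.mk ℂ := by
      rw [Cardinal.mk_complex]
      exact le_antisymm (U1_card_le U κ) (U1_le_card U κ hU)
    have : CharZero (UP U κ) := by
      refine ⟨fun m n h => ?_⟩
      have h' : mkU U κ (fun p => (m : κ p)) = mkU U κ (fun p => (n : κ p)) := h
      rw [mkU_eq] at h'
      obtain ⟨p, hp1, hp2⟩ := (h'.and (hU (m + n))).exists
      rw [CharP.natCast_eq_natCast (κ p) (p : ℕ)] at hp1
      exact hp1.eq_of_lt_of_lt (by omega) (by omega)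
    obtain ⟨e⟩ := IsAlgClosed.ringEquiv_of_equiv_of_charZero (K := UP U κ) (L := ℂ)
      (by rw [hcard, Cardinal.mk_complex]; exact Cardinal.aleph0_lt_continuum) (Cardinal.eq.1 hcard)
    refine ⟨⟨e.toRingHom.comp (mkU U κ), ?_, ?_⟩⟩
    · exact e.surjective.comp (mkU_surj U)
    · intro a
      rw [← mkU_eq_zero U a]
      exact e.map_eq_zero_iff

end Pool.Agent.Lib.MP_4318ff_ag.Q
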