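import Pool.Agent.Lib.MP_4318ff_ag.Q.Basic

/-!
# Existence of derivations

PROOF. `t, s` are algebraically independent: there is a derivation of `k[t,s] ≅ MvPolynomial (Fin 2) k` to `K` with prescribed values on `t, s` (`MvPolynomial.mkDerivation`), it extends to the fraction
field `FF k t s`, and to the finite separable extension `K` (`K = F(θ)`, `m(θ) = 0`, `m'(θ) ≠ 0`; Mathlib: formally etale extensions, `Derivation.liftOfSurjective`, `Differential` ..., see what exists).
-/

set_option autoImplicit false

namespace Pool.Agent.Lib.MP_4318ff_ag.Q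

open MvPolynomial

variable {k K : Type} [Field k] [Field K] [Algebra k K]

open TensorProduct KaehlerDifferential in
/-- Derivations extend to formally etale algebras. -/
theorem exder_ext {k B A : Type} [CommRing k] [CommRing B] [CommRing A] [Algebra k B]
    [Algebra k A] [Algebra B A] [IsScalarTower k B A] [Algebra.FormallyEtale B A]
    (δ : Derivation k B A) :
    ∃ δ' : Derivation k A A, ∀ b, δ' (algebraMap B A b) = δ b := by
  let l : A ⊗[B] Ω[B⁄k] →ₗ[A] A := LinearMap.liftBaseChange A δ.liftKaehlerDifferential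
  let l' : Ω[A⁄k] →ₗ[A] A :=
    l ∘ₗ (tensorKaehlerEquivOfFormallyEtale k B A).symm.toLinearMap
  refine ⟨l'.compDer (KaehlerDifferential.D k A), fun b => ?_⟩
  have h1 : l'.compDer (KaehlerDifferential.D k A) (algebraMap B A b) =
      l ((tensorKaehlerEquivOfFormallyEtale k B A).symm
        (KaehlerDifferential.D k A (algebraMap B A b))) := rfl
  rw [h1, tensorKaehlerEquivOfFormallyEtale_symm_D_algebraMap]
  simp only [l, LinearMap.liftBaseChange_tmul, one_smul,
    Derivation.liftKaehlerDifferential_comp_D]

theorem exists_der {t s : K} (hc : Coord k t s) (a b : K) : ∃ D : Derivation k K K, D t = a ∧ D s = b := by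
  have := hc.fin
  have := hc.sep
  let algK : Algebra (MvPolynomial (Fin 2) k) K := (cv (k := k) t s).toRingHom.toAlgebra
  have hmem : ∀ G : MvPolynomial (Fin 2) k, cv t s G ∈ (FF k t s).toSubalgebra := by
    intro G
    change cv t s G ∈ FF k t s
    rw [mem_FF hc]
    exact ⟨G, 1, one_ne_zero, by rw [map_one, mul_one]⟩
  let algF : Algebra (MvPolynomial (Fin 2) k) (FF k t s) :=
    ((cv (k := k) t s).codRestrict (FF k t s).toSubalgebra hmem).toRingHom.toAlgebra
  have tower : IsScalarTower (MvPolynomial (Fin 2) k) (FF k t s) K := IsScalarTower.of_algebraMap_eq fun G => rfl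
  have towerk : IsScalarTower k (MvPolynomial (Fin 2) k) K :=
    IsScalarTower.of_algebraMap_eq fun c => ((cv (k := k) t s).commutes c).symm
  have hinj : Function.Injective (algebraMap (MvPolynomial (Fin 2) k) (FF k t s)) := by
    intro G H h
    exact hc.inj (congrArg Subtype.val h)
  have : FaithfulSMul (MvPolynomial (Fin 2) k) (FF k t s) := (faithfulSMul_iff_algebraMap_injective _ _).2 hinj
  have frac : IsFractionRing (MvPolynomial (Fin 2) k) (FF k t s) := by
    apply IsFractionRing.of_field
    rintro ⟨z, hz⟩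
    obtain ⟨G, H, hH, h⟩ := (mem_FF hc).1 hz
    refine ⟨G, H, ?_⟩
    apply Subtype.ext
    change z = cv t s G / cv t s H
    rw [← h, mul_div_cancel_right₀ _ (hc.cv_ne hH)]
  have e1 : Algebra.FormallyEtale (MvPolynomial (Fin 2) k) (FF k t s) :=
    Algebra.FormallyEtale.of_isLocalization (nonZeroDivisors (MvPolynomial (Fin 2) k))
  have e2 : Algebra.FormallyEtale (FF k t s) K := Algebra.FormallyEtale.of_isSeparable (FF k t s) K
  have e3 : Algebra.FormallyEtale (MvPolynomial (Fin 2) k) K :=
    Algebra.FormallyEtale.comp (MvPolynomial (Fin 2) k) (FF k t s) K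
  obtain ⟨D, hD⟩ := exder_ext (mkDerivation k ![a, b] : Derivation k (MvPolynomial (Fin 2) k) K)
  refine ⟨D, ?_, ?_⟩
  · have h := hD (X 0)
    rw [mkDerivation_X] at h
    have h2 : algebraMap (MvPolynomial (Fin 2) k) K (X 0) = t := cv_X0 t s
    rw [h2] at h
    exact h
  · have h := hD (X 1)
    rw [mkDerivation_X] at h
    have h2 : algebraMap (MvPolynomial (Fin 2) k) K (X 1) = s := cv_X1 t s
    rw [h2] at h
    exact h

end Pool.Agent.Lib.MP_4318ff_ag.Q
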