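import Pool.Agent.Lib.MP_4318ff_ag.Q.Defs

/-!
# Basic facts on integral closures and coordinates (statements fixed; used everywhere)
-/

set_option autoImplicit false

namespace Pool.Agent.Lib.MP_4318ff_ag.Q

open MvPolynomial

variable {k K : Type} [Field k] [Field K] [Algebra k K]

theorem mem_ic {S : Subalgebra k K} {x : K} : x ∈ ic S ↔ IsIntegral S x := by
  unfold ic
  rw [Subalgebra.mem_restrictScalars, mem_integralClosure_iff]

theorem mem_ic_iff_poly {S : Subalgebra k K} {x : K} :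
    x ∈ ic S ↔ ∃ p : Polynomial K, p.Monic ∧ (∀ i, p.coeff i ∈ S) ∧ p.eval x = 0 := by
  rw [mem_ic]
  constructor
  · rintro ⟨p, hp, hx⟩
    refine ⟨p.map (algebraMap S K), hp.map _, fun i => ?_, ?_⟩
    · rw [Polynomial.coeff_map]
      exact (p.coeff i).2
    · rw [Polynomial.eval_map]
      exact hx
  · rintro ⟨p, hp, hc, hx⟩
    have hl : p ∈ Polynomial.lifts (algebraMap S K) := by
      rw [Polynomial.lifts_iff_coeff_lifts]
      intro i
      exact ⟨⟨p.coeff i, hc i⟩, rfl⟩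
    obtain ⟨q, hq, -, hqm⟩ := Polynomial.lifts_and_degree_eq_and_monic hl hp
    refine ⟨q, hqm, ?_⟩
    rw [← Polynomial.eval_map, hq]
    exact hx

theorem le_ic (S : Subalgebra k K) : S ≤ ic S := by
  intro x hx
  rw [mem_ic]
  exact isIntegral_algebraMap (R := S) (A := K) (x := ⟨x, hx⟩)

theorem ic_mono {S S' : Subalgebra k K} (h : S ≤ S') : ic S ≤ ic S' := by
  intro x hx
  rw [mem_ic_iff_poly] at hx ⊢
  obtain ⟨p, hp, hc, h0⟩ := hx
  exact ⟨p, hp, fun i => h (hc i), h0⟩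

/-- Transitivity of integrality. -/
theorem ic_le {S S' : Subalgebra k K} (h : S ≤ ic S') : ic S ≤ ic S' := by
  intro x hx
  rw [mem_ic_iff_poly] at hx
  obtain ⟨p, hp, hc, h0⟩ := hx
  have h1 : IsIntegral (integralClosure S' K) x := by
    have hl : p ∈ Polynomial.lifts (algebraMap (integralClosure S' K) K) := by
      rw [Polynomial.lifts_iff_coeff_lifts]
      intro i
      have h2 : p.coeff i ∈ ic S' := h (hc i)
      rw [mem_ic] at h2
      exact ⟨⟨p.coeff i, h2⟩, rfl⟩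
    obtain ⟨q, hq, -, hqm⟩ := Polynomial.lifts_and_degree_eq_and_monic hl hp
    refine ⟨q, hqm, ?_⟩
    rw [← Polynomial.eval_map, hq]
    exact h0
  rw [mem_ic]
  exact isIntegral_trans (R := S') (A := integralClosure S' K) x h1

theorem mem_ic_of_pow {S : Subalgebra k K} {x : K} {n : ℕ} (hn : 0 < n) (h : x ^ n ∈ ic S) : x ∈ ic S := by
  rw [mem_ic] at h ⊢
  exact h.of_pow hn

theorem map_mem_ic {S S' : Subalgebra k K} (h : K →+* K) (hS : ∀ x ∈ S, h x ∈ S') {x : K} (hx : x ∈ ic S) :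
    h x ∈ ic S' := by
  rw [mem_ic_iff_poly] at hx ⊢
  obtain ⟨p, hp, hc, h0⟩ := hx
  refine ⟨p.map h, hp.map _, fun i => ?_, ?_⟩
  · rw [Polynomial.coeff_map]
    exact hS _ (hc i)
  · rw [Polynomial.eval_map, Polynomial.eval₂_hom, h0, map_zero]

/-- Denominators. PROOF: `x^n + ∑ a_i x^i = 0` with `a_i ∈ T`, `f^M a_i ∈ S` for all `i`; `f^M x` is a root of the monic polynomial
with the coefficients `f^(M (n - i)) a_i`. -/
theorem exists_pow_mul_mem_ic {S T : Subalgebra k K} {f : K} (hf : f ∈ S)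
    (hT : ∀ y ∈ T, ∃ m : ℕ, f ^ m * y ∈ S) {x : K} (hx : x ∈ ic T) : ∃ m : ℕ, f ^ m * x ∈ ic S := by
  rw [mem_ic_iff_poly] at hx
  obtain ⟨p, hp, hc, h0⟩ := hx
  choose g hg using fun i => hT _ (hc i)
  set M : ℕ := (Finset.range (p.natDegree + 1)).sup g with hM
  have hgM : ∀ i ≤ p.natDegree, f ^ M * p.coeff i ∈ S := by
    intro i hi
    have h1 : g i ≤ M := Finset.le_sup (f := g) (Finset.mem_range.2 (by omega))
    have h2 : f ^ M * p.coeff i = f ^ (M - g i) * (f ^ g i * p.coeff i) := by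
      rw [← mul_assoc, ← pow_add, Nat.sub_add_cancel h1]
    rw [h2]
    exact S.mul_mem (S.pow_mem hf _) (hg i)
  refine ⟨M, ?_⟩
  rw [mem_ic_iff_poly]
  refine ⟨Polynomial.scaleRoots p (f ^ M), ?_, fun i => ?_, ?_⟩
  · exact (Polynomial.monic_scaleRoots_iff _).2 hp
  · rw [Polynomial.coeff_scaleRoots]
    rcases lt_trichotomy i p.natDegree with hi | hi | hi
    · have h3 : p.coeff i * (f ^ M) ^ (p.natDegree - i) =
          (f ^ M * p.coeff i) * (f ^ M) ^ (p.natDegree - i - 1) := by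
        obtain ⟨j, hj⟩ : ∃ j, p.natDegree - i = j + 1 := ⟨p.natDegree - i - 1, by omega⟩
        rw [hj, Nat.add_sub_cancel, pow_succ]
        ring
      rw [h3]
      exact S.mul_mem (hgM i hi.le) (S.pow_mem (S.pow_mem hf _) _)
    · rw [hi, Nat.sub_self, pow_zero, mul_one, hp.coeff_natDegree]
      exact S.one_mem
    · rw [Polynomial.coeff_eq_zero_of_natDegree_lt hi, zero_mul]
      exact S.zero_mem
  · have h4 := Polynomial.scaleRoots_eval₂_mul (p := p) (f := RingHom.id K) (r := x) (s := f ^ M)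
    rw [Polynomial.eval₂_id, RingHom.id_apply] at h4
    rw [h4, Polynomial.eval₂_id, h0, mul_zero]

@[simp] theorem cv_X0 (t s : K) : cv t s (X 0 : MvPolynomial (Fin 2) k) = t := by
  simp [cv]

@[simp] theorem cv_X1 (t s : K) : cv t s (X 1 : MvPolynomial (Fin 2) k) = s := by
  simp [cv]

@[simp] theorem cv_C (t s : K) (a : k) : cv t s (C a : MvPolynomial (Fin 2) k) = algebraMap k K a := by
  simp [cv]

theorem mem_pol {t s x : K} : x ∈ pol k t s ↔ ∃ G : MvPolynomial (Fin 2) k, x = cv t s G := by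
  have h : pol k t s = (cv (k := k) t s).range := by
    unfold pol cv
    rw [← Algebra.adjoin_range_eq_range_aeval]
    congr 1
    ext y
    simp [eq_comm, or_comm]
  rw [h, AlgHom.mem_range]
  constructor
  · rintro ⟨G, hG⟩
    exact ⟨G, hG.symm⟩
  · rintro ⟨G, hG⟩
    exact ⟨G, hG.symm⟩

theorem Coord.cv_ne {t s : K} (hc : Coord k t s) {H : MvPolynomial (Fin 2) k} (hH : H ≠ 0) : cv t s H ≠ 0 := by
  intro h
  exact hH (hc.inj (by rw [h, map_zero]))

/-- The automorphism `X₀ ↦ X₀`, `X₁ ↦ X₁ - a - b X₀`. -/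
noncomputable def autLine (a b : k) : MvPolynomial (Fin 2) k ≃ₐ[k] MvPolynomial (Fin 2) k :=
  AlgEquiv.ofAlgHom (aeval ![X 0, X 1 - C a - C b * X 0]) (aeval ![X 0, X 1 + C a + C b * X 0])
    (by
      apply MvPolynomial.algHom_ext
      intro i
      fin_cases i
      · simp
      · simp [algebraMap_eq]
        ring)
    (by
      apply MvPolynomial.algHom_ext
      intro i
      fin_cases i
      · simp
      · simp [algebraMap_eq]
        ring)

/-- Linear polynomials are prime. -/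
theorem prime_line (a b : k) : Prime (X 1 - C a - C b * X 0 : MvPolynomial (Fin 2) k) := by
  have h : (autLine a b) (X 1) = X 1 - C a - C b * X 0 := by
    simp [autLine]
  rw [← h]
  exact (MulEquiv.prime_iff (autLine a b).toMulEquiv).2 (X_prime)

/-- The automorphism `X₀ ↦ X₀ - a`, `X₁ ↦ X₁`. -/
noncomputable def autX0 (a : k) : MvPolynomial (Fin 2) k ≃ₐ[k] MvPolynomial (Fin 2) k :=
  AlgEquiv.ofAlgHom (aeval ![X 0 - C a, X 1]) (aeval ![X 0 + C a, X 1])
    (by
      apply MvPolynomial.algHom_ext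
      intro i
      fin_cases i <;> simp [algebraMap_eq])
    (by
      apply MvPolynomial.algHom_ext
      intro i
      fin_cases i <;> simp [algebraMap_eq])

theorem prime_X0_sub (a : k) : Prime (X 0 - C a : MvPolynomial (Fin 2) k) := by
  have h : (autX0 a) (X 0) = X 0 - C a := by
    simp [autX0]
  rw [← h]
  exact (MulEquiv.prime_iff (autX0 a).toMulEquiv).2 (X_prime)

theorem prime_X1_sub (a : k) : Prime (X 1 - C a : MvPolynomial (Fin 2) k) := by
  have h := prime_line (k := k) a 0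
  rwa [C_0, zero_mul, sub_zero] at h

theorem Coord.t_ne {t s : K} (hc : Coord k t s) : t ≠ 0 := by
  have h := hc.cv_ne (H := X 0) (X_ne_zero 0)
  rwa [cv_X0] at h

theorem Coord.s_ne {t s : K} (hc : Coord k t s) : s ≠ 0 := by
  have h := hc.cv_ne (H := X 1) (X_ne_zero 1)
  rwa [cv_X1] at h

theorem Coord.line_ne {t s : K} (hc : Coord k t s) (a b : k) :
    s - algebraMap k K a - algebraMap k K b * t ≠ 0 := by
  have h := hc.cv_ne (prime_line a b).ne_zero
  rwa [map_sub, map_sub, map_mul, cv_X1, cv_C, cv_C, cv_X0] at h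

theorem Coord.t_sub_ne {t s : K} (hc : Coord k t s) (a : k) : t - algebraMap k K a ≠ 0 := by
  have h := hc.cv_ne (prime_X0_sub a).ne_zero
  rwa [map_sub, cv_X0, cv_C] at h

theorem Coord.s_sub_ne {t s : K} (hc : Coord k t s) (a : k) : s - algebraMap k K a ≠ 0 := by
  have h := hc.cv_ne (prime_X1_sub a).ne_zero
  rwa [map_sub, cv_X1, cv_C] at h

theorem cv_aeval_X0 (t s : K) (f : Polynomial k) :
    cv t s (Polynomial.aeval (X 0 : MvPolynomial (Fin 2) k) f) = Polynomial.aeval t f := by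
  rw [← Polynomial.aeval_algHom_apply, cv_X0]

theorem aeval_X0_ne {f : Polynomial k} (hf : f ≠ 0) : Polynomial.aeval (X 0 : MvPolynomial (Fin 2) k) f ≠ 0 := by
  intro h
  have h1 : (aeval (fun _ => (Polynomial.X : Polynomial k)) : MvPolynomial (Fin 2) k →ₐ[k] Polynomial k)
      (Polynomial.aeval (X 0 : MvPolynomial (Fin 2) k) f) = f := by
    rw [← Polynomial.aeval_algHom_apply, aeval_X, Polynomial.aeval_X_left_apply]
  rw [h, map_zero] at h1
  exact hf h1.symm

theorem Coord.aeval_ne {t s : K} (hc : Coord k t s) {f : Polynomial k} (hf : f ≠ 0) : Polynomial.aeval t f ≠ 0 := by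
  have h := hc.cv_ne (aeval_X0_ne hf)
  rwa [cv_aeval_X0] at h

theorem cv_mem_FF (t s : K) (G : MvPolynomial (Fin 2) k) : cv t s G ∈ FF k t s := by
  have h : cv t s G ∈ pol k t s := mem_pol.2 ⟨G, rfl⟩
  exact IntermediateField.algebra_adjoin_le_adjoin k _ h

theorem mem_FF {t s : K} (hc : Coord k t s) {x : K} :
    x ∈ FF k t s ↔ ∃ G H : MvPolynomial (Fin 2) k, H ≠ 0 ∧ x * cv t s H = cv t s G := by
  constructor
  · intro hx
    have h1 := (IntermediateField.mem_adjoin_iff_div (F := k) (S := {t, s}) (x := x)).1 hx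
    obtain ⟨r, hr, q, hq, h2⟩ := h1
    obtain ⟨G, hG⟩ := (mem_pol (k := k)).1 hr
    obtain ⟨H, hH⟩ := (mem_pol (k := k)).1 hq
    by_cases h0 : H = 0
    · refine ⟨0, 1, one_ne_zero, ?_⟩
      rw [h2, hH, h0, map_zero, div_zero, zero_mul]
    · refine ⟨G, H, h0, ?_⟩
      rw [h2, hH, hG, div_mul_cancel₀ _ (hc.cv_ne h0)]
  · rintro ⟨G, H, hH, h⟩
    have h1 : x = cv t s G / cv t s H := by
      rw [← h, mul_div_cancel_right₀ _ (hc.cv_ne hH)]
    rw [h1]
    exact div_mem (cv_mem_FF t s G) (cv_mem_FF t s H)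

theorem cv_mem_loc (t s : K) {π : MvPolynomial (Fin 2) k} (hπ : Prime π) (G : MvPolynomial (Fin 2) k) :
    cv t s G ∈ loc t s π := by
  refine Algebra.subset_adjoin ⟨G, 1, fun h => hπ.not_isUnit (isUnit_of_dvd_one h), ?_⟩
  rw [map_one, div_one]

theorem inv_cv_mem_loc (t s : K) {π : MvPolynomial (Fin 2) k} {H : MvPolynomial (Fin 2) k} (hH : ¬ π ∣ H) :
    (cv t s H)⁻¹ ∈ loc t s π := by
  refine Algebra.subset_adjoin ⟨1, H, hH, ?_⟩
  rw [map_one, one_div]

theorem mem_loc {t s : K} (hc : Coord k t s) {π : MvPolynomial (Fin 2) k} (hπ : Prime π) {x : K} :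
    x ∈ loc t s π ↔ ∃ G H : MvPolynomial (Fin 2) k, ¬ π ∣ H ∧ x * cv t s H = cv t s G := by
  have hne : ∀ {H : MvPolynomial (Fin 2) k}, ¬ π ∣ H → cv t s H ≠ 0 := by
    intro H hH
    exact hc.cv_ne (fun h0 => hH (h0 ▸ dvd_zero π))
  constructor
  · intro hx
    unfold loc at hx
    induction hx using Algebra.adjoin_induction with
    | mem x hx =>
      obtain ⟨G, H, hH, h⟩ := hx
      exact ⟨G, H, hH, by rw [h, div_mul_cancel₀ _ (hne hH)]⟩
    | algebraMap r =>
      refine ⟨C r, 1, fun h => hπ.not_isUnit (isUnit_of_dvd_one h), ?_⟩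
      rw [map_one, mul_one, cv_C]
    | add x y _ _ h1 h2 =>
      obtain ⟨G, H, hH, h⟩ := h1
      obtain ⟨G', H', hH', h'⟩ := h2
      refine ⟨G * H' + G' * H, H * H', fun h0 => (hπ.dvd_or_dvd h0).elim hH hH', ?_⟩
      rw [map_mul, map_add, map_mul, map_mul, ← h, ← h']
      ring
    | mul x y _ _ h1 h2 =>
      obtain ⟨G, H, hH, h⟩ := h1
      obtain ⟨G', H', hH', h'⟩ := h2
      refine ⟨G * G', H * H', fun h0 => (hπ.dvd_or_dvd h0).elim hH hH', ?_⟩
      rw [map_mul, map_mul, ← h, ← h']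
      ring
  · rintro ⟨G, H, hH, h⟩
    refine Algebra.subset_adjoin ⟨G, H, hH, ?_⟩
    rw [← h, mul_div_cancel_right₀ _ (hne hH)]

theorem loc_le_FF {t s : K} (π : MvPolynomial (Fin 2) k) {x : K} (hx : x ∈ loc t s π) : x ∈ FF k t s := by
  unfold loc at hx
  induction hx using Algebra.adjoin_induction with
  | mem x hx =>
    obtain ⟨G, H, hH, h⟩ := hx
    rw [h]
    exact div_mem (cv_mem_FF t s G) (cv_mem_FF t s H)
  | algebraMap r => exact IntermediateField.algebraMap_mem _ r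
  | add x y _ _ h1 h2 => exact add_mem h1 h2
  | mul x y _ _ h1 h2 => exact mul_mem h1 h2

end Pool.Agent.Lib.MP_4318ff_ag.Q
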