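import Pool.Agent.Lib.MP_4318ff_ag.Q.UEval
import Pool.Agent.Lib.MP_4318ff_ag.Q.Basic

/-!
# Bounded families have limits

PROOF. Let `Δ` be the limit of `Δi` (`rep_limit`), `Δ ≠ 0` (`rep_ne'`), `z l` the limits of the families `zi l`, `x = (∑_(l<N) cv(z l) θ^l)/cv Δ`. By `R_cv, R_sum, R_mul, R_pow, R_div` it is represented by `(∑ cv(zi l i) θi^l)/cv(Δi i)`, which is eventually `xi i` (`cv(Δi i) ≠ 0`: `Coord.cv_ne`). `R_congr`.
-/

set_option autoImplicit false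

namespace Pool.Agent.Lib.MP_4318ff_ag.Q

open Filter MvPolynomial

variable {I : Type} {U : Ultrafilter I} {κ : I → Type} [∀ i, Field (κ i)] {k : Type} [Field k] {L : LimD U κ k}
  {K : Type} [Field K] [Algebra k K] {Ki : I → Type} [∀ i, Field (Ki i)] [∀ i, Algebra (κ i) (Ki i)]

theorem exists_of_bounded (E : Emb L K Ki) {t s θ : K} {ti si θi : ∀ i, Ki i}
    (hci : ∀ᶠ i in (U : Filter I), Coord (κ i) (ti i) (si i)) (ht : E.R t ti) (hs : E.R s si) (hθ : E.R θ θi) (N d : ℕ)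
    (xi : ∀ i, Ki i)
    (h : ∀ᶠ i in (U : Filter I), ∃ (Δ : MvPolynomial (Fin 2) (κ i)) (z : ℕ → MvPolynomial (Fin 2) (κ i)), Δ ≠ 0 ∧
      Δ.totalDegree ≤ d ∧ (∀ l < N, (z l).totalDegree ≤ d) ∧
      cv (ti i) (si i) Δ * xi i = ∑ l ∈ Finset.range N, cv (ti i) (si i) (z l) * θi i ^ l) :
    ∃ x : K, E.R x xi := by
  classical
  have h1 : ∀ i, ∃ Dz : MvPolynomial (Fin 2) (κ i) × (ℕ → MvPolynomial (Fin 2) (κ i)),
      (∃ (Δ : MvPolynomial (Fin 2) (κ i)) (z : ℕ → MvPolynomial (Fin 2) (κ i)), Δ ≠ 0 ∧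
        Δ.totalDegree ≤ d ∧ (∀ l < N, (z l).totalDegree ≤ d) ∧
        cv (ti i) (si i) Δ * xi i = ∑ l ∈ Finset.range N, cv (ti i) (si i) (z l) * θi i ^ l) →
      (Dz.1 ≠ 0 ∧ Dz.1.totalDegree ≤ d ∧ (∀ l < N, (Dz.2 l).totalDegree ≤ d) ∧
        cv (ti i) (si i) Dz.1 * xi i = ∑ l ∈ Finset.range N, cv (ti i) (si i) (Dz.2 l) * θi i ^ l) := by
    intro i
    by_cases h2 : ∃ (Δ : MvPolynomial (Fin 2) (κ i)) (z : ℕ → MvPolynomial (Fin 2) (κ i)), Δ ≠ 0 ∧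
        Δ.totalDegree ≤ d ∧ (∀ l < N, (z l).totalDegree ≤ d) ∧
        cv (ti i) (si i) Δ * xi i = ∑ l ∈ Finset.range N, cv (ti i) (si i) (z l) * θi i ^ l
    · obtain ⟨Δ, z, h3⟩ := h2
      exact ⟨(Δ, z), fun _ => h3⟩
    · exact ⟨(0, 0), fun h3 => absurd h3 h2⟩
  choose Dz hDz using h1
  have h2 : ∀ᶠ i in (U : Filter I), ((Dz i).1 ≠ 0 ∧ (Dz i).1.totalDegree ≤ d ∧ (∀ l < N, ((Dz i).2 l).totalDegree ≤ d) ∧
        cv (ti i) (si i) (Dz i).1 * xi i = ∑ l ∈ Finset.range N, cv (ti i) (si i) ((Dz i).2 l) * θi i ^ l) := by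
    filter_upwards [h] with i hi
    exact hDz i hi
  obtain ⟨Δ, hΔ⟩ := rep_limit L (fun i => (Dz i).1) d (h2.mono fun i hi => hi.2.1)
  have h3 : ∀ l, ∃ f : MvPolynomial (Fin 2) k, l < N → L.Rep f (fun i => (Dz i).2 l) := by
    intro l
    by_cases hl : l < N
    · obtain ⟨f, hf⟩ := rep_limit L (fun i => (Dz i).2 l) d (h2.mono fun i hi => hi.2.2.1 l hl)
      exact ⟨f, fun _ => hf⟩
    · exact ⟨0, fun h4 => absurd h4 hl⟩
  choose z hz using h3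
  refine ⟨(∑ l ∈ Finset.range N, cv t s (z l) * θ ^ l) / cv t s Δ, ?_⟩
  have h4 : E.R (∑ l ∈ Finset.range N, cv t s (z l) * θ ^ l)
      (fun i => ∑ l ∈ Finset.range N, cv (ti i) (si i) ((Dz i).2 l) * θi i ^ l) :=
    E.R_sum (Finset.range N) (z := fun l => cv t s (z l) * θ ^ l)
      (w := fun l i => cv (ti i) (si i) ((Dz i).2 l) * θi i ^ l)
      (fun l hl => E.R_mul (R_cv E ht hs (hz l (Finset.mem_range.1 hl))) (E.R_pow hθ l))
  have h5 := E.R_div h4 (R_cv E ht hs hΔ)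
  refine E.R_congr h5 ?_
  filter_upwards [h2, hci] with i hi hc
  rw [← hi.2.2.2]
  exact mul_div_cancel_left₀ _ (hc.cv_ne hi.1)

end Pool.Agent.Lib.MP_4318ff_ag.Q
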