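import Pool.Agent.Lib.MP_4318ff_ag.Q.Fin
import Pool.Agent.Lib.MP_4318ff_ag.Q.CoordCh

/-!
# Expansion at `s = ∞`

PROOF. Let `h = ∏_(c ∈ lines) (s - c.1 - c.2 t)`, monic in `s` over `k[t]`. Let `e_j` be generators of `ic k[t,s]` (`exists_gens`), `M` with `s^(-M) e_j ∈ ic (locI k t s)`
for all `j` (`e_j^n + ∑ a_i(t,s) e_j^i = 0`, `s^(-M(n-i)) a_i(t,s) ∈ k[t, 1/s]` for `M` large). For `z ∈ ic (ringL)`: `h^m z ∈ ic k[t,s]` (`exists_pow_mul_mem_ic`), so
`z = ∑_j (G_j/h^m) e_j`. Divide `s^M G_j` by the monic polynomial `h^m` (as polynomials in `s` over `k[t]`): `s^M G_j = Q_j h^m + R_j`, `deg_s R_j < deg_s h^m`, so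
`R_j/h^m ∈ locI` and `(R_j/h^m) s^(-M) e_j ∈ ic (locI)`. `Q_j s^(-M) e_j = ∑_i q_ji(t) s^(i-M) e_j`: the terms with `i ≥ M` are in `ic k[t,s]`, the others are `k[t]`-multiples
of the finitely many elements `s^(-i) e_j`, `1 ≤ i ≤ M`. (Convenient model of the polynomials: `Polynomial (Polynomial k)` with evaluation `eval₂ (aeval t) s`;
`R/h^m ∈ locI`: multiply numerator and denominator by `s^(-deg)`; the denominator becomes a polynomial in `t, 1/s` with constant term 1 in `1/s`, so it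
is not divisible by `X 1`.)
-/

set_option autoImplicit false

namespace Pool.Agent.Lib.MP_4318ff_ag.Q

open MvPolynomial

variable {k K : Type} [Field k] [Field K] [Algebra k K]

namespace Expand

/-- The value of a polynomial in `s` with coefficients in `k[t]`. -/
noncomputable def ev (t s : K) : Polynomial (Polynomial k) →+* K :=
  Polynomial.eval₂RingHom (Polynomial.aeval t).toRingHom s

theorem ev_X (t s : K) : ev (k := k) t s Polynomial.X = s := by
  simp [ev]

theorem ev_C (t s : K) (q : Polynomial k) : ev t s (Polynomial.C q) = Polynomial.aeval t q := by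
  simp [ev]

theorem ev_eq_sum (t s : K) (P : Polynomial (Polynomial k)) {d : ℕ} (hd : P.natDegree ≤ d) :
    ev t s P = ∑ i ∈ Finset.range (d + 1), Polynomial.aeval t (P.coeff i) * s ^ i := by
  conv_lhs => rw [P.as_sum_range' (d + 1) (by omega)]
  rw [map_sum]
  refine Finset.sum_congr rfl fun i _ => ?_
  rw [← Polynomial.C_mul_X_pow_eq_monomial, map_mul, map_pow, ev_X, ev_C]

/-- The reversed polynomial. -/
noncomputable def rv (d : ℕ) (P : Polynomial (Polynomial k)) : MvPolynomial (Fin 2) k :=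
  ∑ i ∈ Finset.range (d + 1), Polynomial.aeval (X 0 : MvPolynomial (Fin 2) k) (P.coeff i) * X 1 ^ (d - i)

theorem cv_aeval (t s : K) (f : Polynomial k) :
    cv t s (Polynomial.aeval (X 0 : MvPolynomial (Fin 2) k) f) = Polynomial.aeval t f := by
  rw [← Polynomial.aeval_algHom_apply, cv_X0]

theorem cv_rv {t s : K} (hs : s ≠ 0) {d : ℕ} {P : Polynomial (Polynomial k)} (hd : P.natDegree ≤ d) :
    cv t s⁻¹ (rv d P) = s⁻¹ ^ d * ev t s P := by
  unfold rv
  rw [map_sum, ev_eq_sum t s P hd, Finset.mul_sum]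
  refine Finset.sum_congr rfl fun i hi => ?_
  rw [map_mul, map_pow, cv_X1, cv_aeval]
  have : s⁻¹ ^ d = s⁻¹ ^ (d - i) * s⁻¹ ^ i := by
    rw [← pow_add]
    congr 1
    have := Finset.mem_range.1 hi
    omega
  rw [this, inv_pow s i]
  field_simp

theorem not_dvd_rv {H : Polynomial (Polynomial k)} (hH : H.Monic) : ¬ (X 1 : MvPolynomial (Fin 2) k) ∣ rv H.natDegree H := by
  intro hdvd
  have h1 : constantCoeff (rv H.natDegree H) = 0 := by
    obtain ⟨G, hG⟩ := hdvd
    rw [hG, map_mul]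
    simp
  have h2 : constantCoeff (rv H.natDegree H) = 1 := by
    unfold rv
    rw [map_sum, Finset.sum_eq_single H.natDegree]
    · have : H.coeff H.natDegree = 1 := hH
      rw [this]
      simp
    · intro i hi hne
      have : H.natDegree - i ≠ 0 := by
        have := Finset.mem_range.1 hi
        omega
      rw [map_mul, map_pow]
      simp [this]
    · intro h
      exfalso
      apply h
      rw [Finset.mem_range]
      omega
  rw [h1] at h2
  exact zero_ne_one h2

/-- Proper fractions are regular at `s = ∞`. -/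
theorem proper_mem {t s : K} (hs : s ≠ 0) {H R : Polynomial (Polynomial k)} (hH : H.Monic)
    (hR : R.natDegree ≤ H.natDegree) : ev t s R / ev t s H ∈ locI k t s := by
  have h1 : ev t s R / ev t s H = cv t s⁻¹ (rv H.natDegree R) / cv t s⁻¹ (rv H.natDegree H) := by
    rw [cv_rv hs hR, cv_rv hs le_rfl]
    rw [mul_div_mul_left]
    exact pow_ne_zero _ (inv_ne_zero hs)
  rw [h1]
  exact Algebra.subset_adjoin ⟨_, _, not_dvd_rv hH, rfl⟩

theorem exists_ev {t s : K} (G : MvPolynomial (Fin 2) k) : ∃ P : Polynomial (Polynomial k), ev t s P = cv t s G := by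
  induction G using MvPolynomial.induction_on with
  | C c => exact ⟨Polynomial.C (Polynomial.C c), by rw [ev_C, cv_C, Polynomial.aeval_C]⟩
  | add P Q hP hQ =>
    obtain ⟨P', hP'⟩ := hP
    obtain ⟨Q', hQ'⟩ := hQ
    exact ⟨P' + Q', by rw [map_add, map_add, hP', hQ']⟩
  | mul_X P i hP =>
    obtain ⟨P', hP'⟩ := hP
    fin_cases i
    · refine ⟨P' * Polynomial.C Polynomial.X, ?_⟩
      rw [map_mul, map_mul, hP', ev_C, Polynomial.aeval_X]
      congr 1
      exact (cv_X0 t s).symm
    · refine ⟨P' * Polynomial.X, ?_⟩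
      rw [map_mul, map_mul, hP', ev_X]
      congr 1
      exact (cv_X1 t s).symm

/-- Multiples by powers of `f` of the elements of a generated algebra. -/
theorem adjoin_pow_mul {S : Subalgebra k K} {f : K} (hf : f ∈ S) {X : Set K}
    (hX : ∀ y ∈ X, ∃ m : ℕ, f ^ m * y ∈ S) {y : K} (hy : y ∈ Algebra.adjoin k X) : ∃ m : ℕ, f ^ m * y ∈ S := by
  induction hy using Algebra.adjoin_induction with
  | mem y hy => exact hX y hy
  | algebraMap r => exact ⟨0, by rw [pow_zero, one_mul]; exact S.algebraMap_mem r⟩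
  | add y z _ _ ihy ihz =>
    obtain ⟨m, hm⟩ := ihy
    obtain ⟨n, hn⟩ := ihz
    refine ⟨m + n, ?_⟩
    have : f ^ (m + n) * (y + z) = f ^ n * (f ^ m * y) + f ^ m * (f ^ n * z) := by ring
    rw [this]
    exact S.add_mem (S.mul_mem (S.pow_mem hf n) hm) (S.mul_mem (S.pow_mem hf m) hn)
  | mul y z _ _ ihy ihz =>
    obtain ⟨m, hm⟩ := ihy
    obtain ⟨n, hn⟩ := ihz
    refine ⟨m + n, ?_⟩
    have : f ^ (m + n) * (y * z) = (f ^ m * y) * (f ^ n * z) := by ring
    rw [this]
    exact S.mul_mem hm hn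

/-- The expansion with a finite index type. -/
theorem expand' {t s : K} (hc : Coord k t s) (lines : Finset (k × k)) :
    ∃ (ι : Type) (_ : Fintype ι) (e : ι → K), ∀ z ∈ ic (ringL t s lines), ∃ α ∈ ic (pol k t s), ∃ c : ι → Polynomial k,
      z - α - ∑ j, Polynomial.aeval t (c j) * e j ∈ ic (locI k t s) := by
  have hs0 : s ≠ 0 := hc.s_ne
  have hprI : Prime (X 1 : MvPolynomial (Fin 2) k) := by
    have := prime_X1_sub (0 : k)
    rwa [C_0, sub_zero] at this
  have htI : t ∈ locI k t s := by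
    have := cv_mem_loc t s⁻¹ hprI (X 0)
    rwa [cv_X0] at this
  have hsI : s⁻¹ ∈ locI k t s := by
    have := cv_mem_loc t s⁻¹ hprI (X 1)
    rwa [cv_X1] at this
  have htp : t ∈ pol k t s := Algebra.subset_adjoin (by simp)
  have hsp : s ∈ pol k t s := Algebra.subset_adjoin (by simp)
  obtain ⟨m, e, he, hgen⟩ := exists_gens hc
  have h1 : ∀ j, ∃ n : ℕ, s⁻¹ ^ n * e j ∈ ic (locI k t s) := by
    intro j
    refine exists_pow_mul_mem_ic hsI ?_ (he j)
    intro y hy
    refine adjoin_pow_mul hsI ?_ hy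
    intro y hy
    simp only [Set.mem_insert_iff, Set.mem_singleton_iff] at hy
    rcases hy with rfl | rfl
    · exact ⟨0, by rw [pow_zero, one_mul]; exact htI⟩
    · refine ⟨1, ?_⟩
      rw [pow_one, inv_mul_cancel₀ hs0]
      exact (locI k t y).one_mem
  choose n hn using h1
  set M := ∑ j, n j with hM
  have h2 : ∀ j, s⁻¹ ^ M * e j ∈ ic (locI k t s) := by
    intro j
    have h3 : n j ≤ M := Finset.single_le_sum (fun _ _ => Nat.zero_le _) (Finset.mem_univ j)
    have h4 : s⁻¹ ^ M * e j = s⁻¹ ^ (M - n j) * (s⁻¹ ^ n j * e j) := by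
      rw [← mul_assoc, ← pow_add]
      congr 2
      omega
    rw [h4]
    exact (ic _).mul_mem ((ic _).pow_mem (le_ic _ hsI) _) (hn j)
  -- the denominator
  set H : Polynomial (Polynomial k) :=
    ∏ c ∈ lines, (Polynomial.X - Polynomial.C (Polynomial.C c.1 + Polynomial.C c.2 * Polynomial.X)) with hH
  have hHm : H.Monic := Polynomial.monic_prod_of_monic _ _ fun c _ => Polynomial.monic_X_sub_C _
  have hfac : ∀ c : k × k, ev t s (Polynomial.X - Polynomial.C (Polynomial.C c.1 + Polynomial.C c.2 * Polynomial.X)) =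
      s - algebraMap k K c.1 - algebraMap k K c.2 * t := by
    intro c
    rw [map_sub, ev_X, ev_C, map_add, map_mul, Polynomial.aeval_C, Polynomial.aeval_C, Polynomial.aeval_X]
    ring
  have hHev : ev t s H = ∏ c ∈ lines, (s - algebraMap k K c.1 - algebraMap k K c.2 * t) := by
    rw [hH, map_prod]
    exact Finset.prod_congr rfl fun c _ => hfac c
  have hline : ∀ c : k × k, s - algebraMap k K c.1 - algebraMap k K c.2 * t ∈ pol k t s := fun c =>
    (pol k t s).sub_mem ((pol k t s).sub_mem hsp ((pol k t s).algebraMap_mem _))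
      ((pol k t s).mul_mem ((pol k t s).algebraMap_mem _) htp)
  have hHne : ev t s H ≠ 0 := by
    rw [hHev]
    exact Finset.prod_ne_zero_iff.2 fun c _ => hc.line_ne _ _
  have hHp : ev t s H ∈ pol k t s := by
    rw [hHev]
    exact (pol k t s).prod_mem fun c _ => hline c
  refine ⟨Fin m × Fin M, inferInstance, fun ji => s ^ (ji.2 : ℕ) * (s⁻¹ ^ M * e ji.1), ?_⟩
  intro z hz
  have h3 : ∃ n : ℕ, ev t s H ^ n * z ∈ ic (pol k t s) := by
    refine exists_pow_mul_mem_ic hHp ?_ hz
    intro y hy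
    refine adjoin_pow_mul hHp ?_ hy
    intro y hy
    rcases hy with hy | ⟨c, hc1, rfl⟩
    · simp only [Set.mem_insert_iff, Set.mem_singleton_iff] at hy
      rcases hy with rfl | rfl
      · exact ⟨0, by rw [pow_zero, one_mul]; exact htp⟩
      · exact ⟨0, by rw [pow_zero, one_mul]; exact hsp⟩
    · refine ⟨1, ?_⟩
      classical
      rw [pow_one, hHev, ← Finset.mul_prod_erase _ _ hc1, mul_right_comm, mul_inv_cancel₀ (hc.line_ne _ _), one_mul]
      exact (pol k t s).prod_mem fun c _ => hline c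
  obtain ⟨n', hn'⟩ := h3
  obtain ⟨G, hG⟩ := hgen _ hn'
  choose P hP using fun j => exists_ev (t := t) (s := s) (G j)
  set Hn := H ^ n' with hHn
  have hHnm : Hn.Monic := hHm.pow _
  have hHnev : ev t s Hn = ev t s H ^ n' := by rw [hHn, map_pow]
  have hHnne : ev t s Hn ≠ 0 := by rw [hHnev]; exact pow_ne_zero _ hHne
  -- the division
  let Q : Fin m → Polynomial (Polynomial k) := fun j => (Polynomial.X ^ M * P j) /ₘ Hn
  let R : Fin m → Polynomial (Polynomial k) := fun j => (Polynomial.X ^ M * P j) %ₘ Hn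
  have hQR : ∀ j, s ^ M * cv t s (G j) = ev t s (Q j) * ev t s Hn + ev t s (R j) := by
    intro j
    have h4 := Polynomial.modByMonic_add_div (Polynomial.X ^ M * P j) Hn
    rw [← hP j, ← ev_X (k := k) t s, ← map_pow, ← map_mul, ev_X, ← map_mul, ← map_add]
    rw [mul_comm (Q j), add_comm]
    exact congrArg _ h4.symm
  have hz1 : z = ∑ j, (ev t s (Q j) * (s⁻¹ ^ M * e j) + (ev t s (R j) / ev t s Hn) * (s⁻¹ ^ M * e j)) := by
    have h5 : ev t s Hn * z = ∑ j, cv t s (G j) * e j := by rw [hHnev, ← hG]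
    have h6 : z = (ev t s Hn)⁻¹ * ∑ j, cv t s (G j) * e j := by
      rw [← h5, ← mul_assoc, inv_mul_cancel₀ hHnne, one_mul]
    rw [h6, Finset.mul_sum]
    refine Finset.sum_congr rfl fun j _ => ?_
    have h7 : cv t s (G j) = s⁻¹ ^ M * (ev t s (Q j) * ev t s Hn + ev t s (R j)) := by
      rw [← hQR, ← mul_assoc, ← mul_pow, inv_mul_cancel₀ hs0, one_pow, one_mul]
    rw [h7]
    field_simp
  -- the parts
  have hsplit : ∀ j, ev t s (Q j) * (s⁻¹ ^ M * e j) =
      ∑ i : Fin M, Polynomial.aeval t ((Q j).coeff i) * (s ^ (i : ℕ) * (s⁻¹ ^ M * e j)) +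
      ∑ i ∈ Finset.range ((Q j).natDegree + 1), Polynomial.aeval t ((Q j).coeff (M + i)) * s ^ i * e j := by
    intro j
    rw [ev_eq_sum t s (Q j) (show (Q j).natDegree ≤ M + (Q j).natDegree by omega), add_assoc,
      Finset.sum_range_add, add_mul, Finset.sum_mul, Finset.sum_mul, Finset.sum_range]
    congr 1
    · refine Finset.sum_congr rfl fun i _ => ?_
      ring
    · refine Finset.sum_congr rfl fun i _ => ?_
      have : s ^ M * s⁻¹ ^ M = 1 := by rw [← mul_pow, mul_inv_cancel₀ hs0, one_pow]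
      calc Polynomial.aeval t ((Q j).coeff (M + i)) * s ^ (M + i) * (s⁻¹ ^ M * e j)
          = Polynomial.aeval t ((Q j).coeff (M + i)) * s ^ i * e j * (s ^ M * s⁻¹ ^ M) := by rw [pow_add]; ring
        _ = _ := by rw [this, mul_one]
  refine ⟨∑ j, ∑ i ∈ Finset.range ((Q j).natDegree + 1), Polynomial.aeval t ((Q j).coeff (M + i)) * s ^ i * e j, ?_,
    fun ji => (Q ji.1).coeff ji.2, ?_⟩
  · have haev : ∀ f : Polynomial k, Polynomial.aeval t f ∈ pol k t s := by
      intro f
      rw [← cv_aeval t s f]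
      exact mem_pol.2 ⟨_, rfl⟩
    exact (ic _).sum_mem fun j _ => (ic _).sum_mem fun i _ => (ic _).mul_mem
      (le_ic _ ((pol k t s).mul_mem (haev _) ((pol k t s).pow_mem hsp _))) (he j)
  · have h8 : z - (∑ j, ∑ i ∈ Finset.range ((Q j).natDegree + 1), Polynomial.aeval t ((Q j).coeff (M + i)) * s ^ i * e j) -
        ∑ ji : Fin m × Fin M, Polynomial.aeval t ((Q ji.1).coeff ji.2) * (s ^ (ji.2 : ℕ) * (s⁻¹ ^ M * e ji.1)) =
        ∑ j, (ev t s (R j) / ev t s Hn) * (s⁻¹ ^ M * e j) := by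
      rw [Fintype.sum_prod_type]
      conv_lhs => rw [hz1]
      rw [← Finset.sum_sub_distrib, ← Finset.sum_sub_distrib]
      refine Finset.sum_congr rfl fun j _ => ?_
      rw [hsplit]
      ring
    rw [h8]
    refine (ic _).sum_mem fun j _ => (ic _).mul_mem (le_ic _ ?_) (h2 j)
    exact proper_mem hs0 hHnm (Polynomial.natDegree_modByMonic_le _ hHnm)

end Expand

theorem expand {t s : K} (hc : Coord k t s) (lines : Finset (k × k)) :
    ∃ (m : ℕ) (e : Fin m → K), ∀ z ∈ ic (ringL t s lines), ∃ α ∈ ic (pol k t s), ∃ c : Fin m → Polynomial k,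
      z - α - ∑ j, Polynomial.aeval t (c j) * e j ∈ ic (locI k t s) := by
  obtain ⟨ι, _, e, h⟩ := Expand.expand' hc lines
  let φ := Fintype.equivFin ι
  refine ⟨Fintype.card ι, fun i => e (φ.symm i), fun z hz => ?_⟩
  obtain ⟨α, hα, c, hcc⟩ := h z hz
  refine ⟨α, hα, fun i => c (φ.symm i), ?_⟩
  have : ∑ j, Polynomial.aeval t (c (φ.symm j)) * e (φ.symm j) = ∑ j, Polynomial.aeval t (c j) * e j :=
    Equiv.sum_comp φ.symm (fun j => Polynomial.aeval t (c j) * e j)
  rw [this]
  exact hcc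

end Pool.Agent.Lib.MP_4318ff_ag.Q
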