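import Pool.Agent.Lib.MP_4318ff_ag.Q.Basic

/-!
# Coefficients of minimal polynomials

PROOF. `S` is integrally closed and `F` is its fraction field: `minpoly.isIntegrallyClosed_eq_field_fractions`. (Build the instances
`Algebra S F`, `IsFractionRing S F`, `IsIntegrallyClosed S`.) Or: the coefficients of `minpoly F y` are integral over `S`, because the minimal
polynomial divides a monic polynomial over `S` (all its roots in a splitting field are integral).
-/

set_option autoImplicit false

namespace Pool.Agent.Lib.MP_4318ff_ag.Q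

open MvPolynomial

variable {k K : Type} [Field k] [Field K] [Algebra k K]

theorem minpoly_coeff_mem (F : IntermediateField k K) (S : Subalgebra k K) (hSF : ∀ x ∈ S, x ∈ F)
    (hint : ∀ x ∈ F, x ∈ ic S → x ∈ S) {y : K} (hy : y ∈ ic S) (i : ℕ) :
    (((minpoly F y).coeff i : F) : K) ∈ S := by
  apply hint _ ((minpoly F y).coeff i).2
  have hy' : IsIntegral S y := mem_ic.1 hy
  rw [mem_ic]
  let O : Subalgebra k F := S.comap F.val
  let f : S →+* O :=
    { toFun := fun x => ⟨⟨x.1, hSF x.1 x.2⟩, x.2⟩
      map_one' := rfl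
      map_mul' := fun _ _ => rfl
      map_zero' := rfl
      map_add' := fun _ _ => rfl }
  let g : O →+* S :=
    { toFun := fun x => ⟨x.1.1, x.2⟩
      map_one' := rfl
      map_mul' := fun _ _ => rfl
      map_zero' := rfl
      map_add' := fun _ _ => rfl }
  have hyO : IsIntegral O y := by
    obtain ⟨p, hp, hpy⟩ := hy'
    refine ⟨p.map f, hp.map _, ?_⟩
    rw [Polynomial.eval₂_map]
    exact hpy
  have hc : IsIntegral O ((minpoly F y).coeff i) := by
    have hyF : IsIntegral F y := hyO.tower_top
    obtain ⟨p, hp, hpy⟩ := hyO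
    have hd : minpoly F y ∣ p.map (algebraMap O F) := by
      apply minpoly.dvd
      rw [Polynomial.aeval_def, Polynomial.eval₂_map]
      rw [← IsScalarTower.algebraMap_eq O F K]
      exact hpy
    have h := integralClosure.mem_lifts_of_monic_of_dvd_map (R := O) F hp (minpoly.monic hyF) hd
    rw [Polynomial.lifts_iff_coeff_lifts] at h
    obtain ⟨c, hc⟩ := h i
    rw [← hc]
    exact c.2
  obtain ⟨p, hp, hpc⟩ := hc
  refine ⟨p.map g, hp.map _, ?_⟩
  rw [Polynomial.eval₂_map]
  have h1 := congrArg (algebraMap F K) hpc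
  rw [Polynomial.hom_eval₂, map_zero] at h1
  exact h1

end Pool.Agent.Lib.MP_4318ff_ag.Q
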