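import Pool.Agent.Lib.MP_4318ff_ag.Q.Basic
import Pool.Agent.Lib.MP_4318ff_ag.Q.LocUFD
import Pool.Agent.Lib.MP_4318ff_ag.Q.MinPoly
import Pool.Agent.Lib.MP_4318ff_ag.Q.CoordCh
import Pool.Agent.Lib.MP_4318ff_ag.Q.Expand

/-!
# Elements which are algebraic over `k(t)` (no ultrafilter)

Polynomials in `s` with coefficients in `k[t]` are `Polynomial (Polynomial k)` with the evaluation `Expand.ev t s`.
-/

set_option autoImplicit false

namespace Pool.Agent.Lib.MP_4318ff_ag.Q

variable {k K : Type} [Field k] [Field K] [Algebra k K]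

open MvPolynomial

private theorem UConst_inj {t s : K} (hc : Coord k t s) : Function.Injective (Expand.ev (k := k) t s) := by
  let χ : Polynomial (Polynomial k) →+* MvPolynomial (Fin 2) k :=
    Polynomial.eval₂RingHom (Polynomial.aeval (X 0 : MvPolynomial (Fin 2) k)).toRingHom (X 1)
  let φ : MvPolynomial (Fin 2) k →ₐ[k] Polynomial (Polynomial k) := aeval ![Polynomial.C Polynomial.X, Polynomial.X]
  have h1 : ∀ P, φ (χ P) = P := by
    intro P
    have h2 : (φ.toRingHom.comp χ) = RingHom.id _ := by
      apply Polynomial.ringHom_ext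
      · intro q
        have h3 : ((φ.toRingHom.comp χ).comp Polynomial.C) = Polynomial.C := by
          apply Polynomial.ringHom_ext
          · intro c
            simp [φ, χ]
          · simp [φ, χ]
        exact RingHom.congr_fun h3 q
      · simp [φ, χ]
    exact RingHom.congr_fun h2 P
  have h2 : ∀ P, cv t s (χ P) = Expand.ev t s P := by
    intro P
    have h3 : ((cv (k := k) t s).toRingHom.comp χ) = Expand.ev t s := by
      apply Polynomial.ringHom_ext
      · intro q
        have h4 : (((cv (k := k) t s).toRingHom.comp χ).comp Polynomial.C) = (Expand.ev t s).comp Polynomial.C := by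
          apply Polynomial.ringHom_ext
          · intro c
            simp [χ, Expand.ev]
          · simp [χ, Expand.ev]
        exact RingHom.congr_fun h4 q
      · simp [χ, Expand.ev]
    exact RingHom.congr_fun h3 P
  intro P Q h
  rw [← h2, ← h2] at h
  rw [← h1 P, ← h1 Q, hc.inj h]

open IntermediateField.algebraAdjoinAdjoin in
theorem exists_integral {t s : K} (hc : Coord k t s) {y : K} (hy : AlgT k t y) :
    ∃ e : Polynomial k, e ≠ 0 ∧ Polynomial.aeval t e * y ∈ ic (Algebra.adjoin k {t}) := by
  have h1 : IsAlgebraic (Algebra.adjoin k {t}) y :=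
    (IsFractionRing.isAlgebraic_iff (Algebra.adjoin k {t}) (IntermediateField.adjoin k {t}) K).2 hy
  obtain ⟨a, ha, hi⟩ := h1.exists_integral_multiple
  obtain ⟨e, he⟩ : ∃ e : Polynomial k, Polynomial.aeval t e = (a : K) := by
    have h2 : ∀ z ∈ Algebra.adjoin k {t}, ∃ e : Polynomial k, Polynomial.aeval t e = z := by
      intro z hz
      rw [Algebra.adjoin_singleton_eq_range_aeval] at hz
      exact hz
    exact h2 _ a.2
  refine ⟨e, ?_, ?_⟩
  · rintro rfl
    apply ha
    apply Subtype.ext
    rw [← he]
    simp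
  · rw [mem_ic]
    have h3 : Polynomial.aeval t e * y = a • y := by
      rw [Subalgebra.smul_def, smul_eq_mul, ← he]
    rw [h3]
    exact hi

theorem t_int {t s : K} (hc : Coord k t s) {x : K} (hx : x ∈ FF k t s) (h : x ∈ ic (Algebra.adjoin k {t})) :
    x ∈ Algebra.adjoin k {t} := by
  have h1 : x ∈ pol k t s := by
    apply pol_int hc hx
    refine ic_mono ?_ h
    exact Algebra.adjoin_mono (Set.singleton_subset_iff.2 (Set.mem_insert _ _))
  obtain ⟨G, hG⟩ := mem_pol.1 h1
  obtain ⟨P, hP⟩ := Expand.exists_ev (t := t) (s := s) G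
  rw [← hG] at hP
  obtain ⟨p, hp, hpc, h0⟩ := mem_ic_iff_poly.1 h
  have hl : p ∈ Polynomial.lifts (Polynomial.aeval (R := k) t).toRingHom := by
    rw [Polynomial.lifts_iff_coeff_lifts]
    intro i
    have h2 := hpc i
    rw [Algebra.adjoin_singleton_eq_range_aeval] at h2
    exact h2
  obtain ⟨q, hq, -, hqm⟩ := Polynomial.lifts_and_degree_eq_and_monic hl hp
  have h3 : Expand.ev t s (q.comp P) = 0 := by
    have h4 : Expand.ev t s (q.comp P) = (q.map (Polynomial.aeval (R := k) t).toRingHom).eval (Expand.ev t s P) := by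
      rw [Polynomial.eval_map]
      exact Polynomial.eval₂_comp _
    rw [h4, hq, hP, h0]
  have h4 : q.comp P = 0 := UConst_inj hc (by rw [h3, map_zero])
  have h5 : q.natDegree * P.natDegree = 0 := by
    rw [← Polynomial.natDegree_comp, h4, Polynomial.natDegree_zero]
  have h6 : P.natDegree = 0 := by
    rcases Nat.mul_eq_zero.1 h5 with h7 | h7
    · exfalso
      rw [hqm.natDegree_eq_zero.1 h7] at h4
      simp at h4
    · exact h7
  rw [Polynomial.eq_C_of_natDegree_eq_zero h6, Expand.ev_C] at hP
  rw [← hP, Algebra.adjoin_singleton_eq_range_aeval]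
  exact ⟨_, rfl⟩

private theorem UConst_ic {t y : K} : y ∈ ic (IntermediateField.adjoin k {t}).toSubalgebra ↔ AlgT k t y := by
  rw [mem_ic]
  unfold AlgT
  exact (isAlgebraic_iff_isIntegral (K := IntermediateField.adjoin k {t})).symm

private theorem UConst_closed {t s : K} (hc : Coord k t s) {x : K} (hx : x ∈ FF k t s) (h : AlgT k t x) :
    x ∈ IntermediateField.adjoin k {t} := by
  obtain ⟨e, he, h1⟩ := exists_integral hc h
  have h2 : ∀ f : Polynomial k, Polynomial.aeval t f ∈ IntermediateField.adjoin k {t} := fun f => by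
    have h3 : Polynomial.aeval t f ∈ Algebra.adjoin k {t} := by
      rw [Algebra.adjoin_singleton_eq_range_aeval]
      exact ⟨f, rfl⟩
    exact IntermediateField.algebra_adjoin_le_adjoin k _ h3
  have h3 : Polynomial.aeval t e ∈ FF k t s :=
    IntermediateField.adjoin.mono k _ _ (Set.singleton_subset_iff.2 (Set.mem_insert _ _)) (h2 e)
  have h4 := t_int hc (mul_mem h3 hx) h1
  have h5 : x = (Polynomial.aeval t e * x) / Polynomial.aeval t e := by
    rw [mul_div_cancel_left₀ _ (hc.aeval_ne he)]
  rw [h5]
  exact div_mem (IntermediateField.algebra_adjoin_le_adjoin k _ h4) (h2 e)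

theorem algT_minpoly {t s : K} (hc : Coord k t s) {y : K} (hy : AlgT k t y) (l : ℕ) :
    ((minpoly (FF k t s) y).coeff l : K) ∈ IntermediateField.adjoin k {t} := by
  refine minpoly_coeff_mem (FF k t s) (IntermediateField.adjoin k {t}).toSubalgebra ?_ ?_ (UConst_ic.2 hy) l
  · intro x hx
    exact IntermediateField.adjoin.mono k _ _ (Set.singleton_subset_iff.2 (Set.mem_insert _ _)) hx
  · intro x hx h
    exact UConst_closed hc hx (UConst_ic.1 h)

/-- The derivative of a value of a polynomial. -/
private theorem UConst_der (D : Derivation k K K) (p : Polynomial K) (y : K) :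
    D (p.eval y) = (∑ l ∈ Finset.range (p.natDegree + 1), D (p.coeff l) * y ^ l) + p.derivative.eval y * D y := by
  have h : ∀ n, p.natDegree < n → D (p.eval y) = (∑ l ∈ Finset.range n, D (p.coeff l) * y ^ l) +
      p.derivative.eval y * D y := by
    intro n hn
    rw [Polynomial.eval_eq_sum_range' hn, Polynomial.derivative_eval, Polynomial.sum_over_range' _ _ n hn, map_sum,
      Finset.sum_mul, ← Finset.sum_add_distrib]
    · refine Finset.sum_congr rfl fun l _ => ?_
      rw [Derivation.leibniz, Derivation.leibniz_pow]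
      simp only [smul_eq_mul, nsmul_eq_mul]
      ring
    · intro n
      simp
  exact h _ (Nat.lt_succ_self _)

private theorem UConst_sum {t s : K} (D : Derivation k K K) (y : K) :
    (∑ l ∈ Finset.range ((minpoly (FF k t s) y).natDegree + 1), D ((minpoly (FF k t s) y).coeff l : K) * y ^ l) +
      Polynomial.aeval y (Polynomial.derivative (minpoly (FF k t s) y)) * D y = 0 := by
  have h1 := UConst_der D ((minpoly (FF k t s) y).map (algebraMap (FF k t s) K)) y
  rw [Polynomial.eval_map_algebraMap, minpoly.aeval, map_zero, Polynomial.natDegree_map, Polynomial.derivative_map,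
    Polynomial.eval_map_algebraMap] at h1
  rw [h1]
  congr 1
  refine Finset.sum_congr rfl fun l _ => ?_
  rw [Polynomial.coeff_map]
  rfl

private theorem UConst_zero {t : K} (D : Derivation k K K) (hD : D t = 0) {c : K}
    (h : c ∈ IntermediateField.adjoin k {t}) : D c = 0 := by
  induction h using IntermediateField.adjoin_induction with
  | mem x hx =>
    rw [Set.mem_singleton_iff.1 hx, hD]
  | algebraMap x => exact D.map_algebraMap x
  | add x y _ _ h1 h2 => rw [map_add, h1, h2, add_zero]
  | inv x _ h1 => rw [Derivation.leibniz_inv, h1, smul_zero]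
  | mul x y _ _ h1 h2 => rw [Derivation.leibniz, h1, h2, smul_zero, smul_zero, add_zero]

theorem algT_der {t s : K} (hc : Coord k t s) {y : K} (hy : AlgT k t y) (D : Derivation k K K) (hD : D t = 0) : D y = 0 := by
  have h1 := UConst_sum (t := t) (s := s) D y
  have h2 : ∀ l, D ((minpoly (FF k t s) y).coeff l : K) = 0 := fun l => UConst_zero D hD (algT_minpoly hc hy l)
  rw [Finset.sum_eq_zero fun l _ => by rw [h2 l, zero_mul], zero_add] at h1
  have := hc.sep
  exact (mul_eq_zero.1 h1).resolve_left
    ((Algebra.IsSeparable.isSeparable (FF k t s) y).aeval_derivative_ne_zero (minpoly.aeval _ _))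

private theorem UConst_aeval (t : K) (f : Polynomial k) : Polynomial.aeval t f ∈ IntermediateField.adjoin k {t} := by
  have h3 : Polynomial.aeval t f ∈ Algebra.adjoin k {t} := by
    rw [Algebra.adjoin_singleton_eq_range_aeval]
    exact ⟨f, rfl⟩
  exact IntermediateField.algebra_adjoin_le_adjoin k _ h3

private theorem UConst_ev {t s : K} (D : Derivation k K K) (h1 : D t = 0) (h2 : D s = 1) (P : Polynomial (Polynomial k)) :
    D (Expand.ev t s P) = Expand.ev t s (Polynomial.derivative P) := by
  have h3 : ∀ P : Polynomial (Polynomial k), Expand.ev t s P = (P.map (Polynomial.aeval (R := k) t).toRingHom).eval s := by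
    intro P
    rw [Polynomial.eval_map]
    rfl
  rw [h3, h3, UConst_der, h2, mul_one, ← Polynomial.derivative_map, Finset.sum_eq_zero, zero_add]
  intro l _
  rw [Polynomial.coeff_map]
  have h4 := UConst_zero D h1 (UConst_aeval t (P.coeff l))
  have h5 : D ((Polynomial.aeval (R := k) t).toRingHom (P.coeff l)) = 0 := h4
  rw [h5, zero_mul]

/-- The constants of `d/ds` in `k(t, s)`. -/
private theorem UConst_const [CharZero k] {t s : K} (hc : Coord k t s) (D : Derivation k K K) (h1 : D t = 0) (h2 : D s = 1)
    {c : K} (hcF : c ∈ FF k t s) (h : D c = 0) : c ∈ IntermediateField.adjoin k {t} := by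
  obtain ⟨G, H, hH, e⟩ := (mem_FF hc).1 hcF
  obtain ⟨P0, hP0⟩ := Expand.exists_ev (t := t) (s := s) G
  obtain ⟨Q0, hQ0⟩ := Expand.exists_ev (t := t) (s := s) H
  have hQ00 : Q0 ≠ 0 := by
    rintro rfl
    rw [map_zero] at hQ0
    exact hc.cv_ne hH hQ0.symm
  obtain ⟨Q, P, c', hrel, eb, ea⟩ := UniqueFactorizationMonoid.exists_reduced_factors Q0 hQ00 P0
  have hc0 : c' ≠ 0 := by
    rintro rfl
    rw [zero_mul] at eb
    exact hQ00 eb.symm
  have hQ : Q ≠ 0 := by
    rintro rfl
    rw [mul_zero] at eb
    exact hQ00 eb.symm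
  have hinj := UConst_inj hc
  have hne : ∀ {R : Polynomial (Polynomial k)}, R ≠ 0 → Expand.ev t s R ≠ 0 := fun hR h0 =>
    hR (hinj (by rw [h0, map_zero]))
  have e1 : c * Expand.ev t s Q = Expand.ev t s P := by
    rw [← hP0, ← hQ0, ← ea, ← eb, map_mul, map_mul] at e
    apply mul_left_cancel₀ (hne hc0)
    rw [← e]
    ring
  have e2 : c * Expand.ev t s (Polynomial.derivative Q) = Expand.ev t s (Polynomial.derivative P) := by
    have h3 := congrArg D e1
    rw [Derivation.leibniz, h, smul_zero, add_zero, UConst_ev D h1 h2, UConst_ev D h1 h2, smul_eq_mul] at h3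
    exact h3
  have e3 : P * Polynomial.derivative Q = Q * Polynomial.derivative P := by
    apply hinj
    rw [map_mul, map_mul, ← e1, ← e2]
    ring
  have hd : Q ∣ Polynomial.derivative Q := hrel.dvd_of_dvd_mul_left (Dvd.intro _ e3.symm)
  have hQ' : Polynomial.derivative Q = 0 :=
    Polynomial.eq_zero_of_dvd_of_degree_lt hd (Polynomial.degree_derivative_lt hQ)
  have hP' : Polynomial.derivative P = 0 := by
    rw [hQ', mul_zero] at e3
    exact (mul_eq_zero.1 e3.symm).resolve_left hQ
  have hQ2 := Polynomial.eq_C_of_natDegree_eq_zero (Polynomial.derivative_eq_zero.1 hQ')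
  have hP2 := Polynomial.eq_C_of_natDegree_eq_zero (Polynomial.derivative_eq_zero.1 hP')
  have hQ3 := hne hQ
  rw [hQ2, hP2, Expand.ev_C, Expand.ev_C] at e1
  rw [hQ2, Expand.ev_C] at hQ3
  have e4 : c = Polynomial.aeval t (P.coeff 0) / Polynomial.aeval t (Q.coeff 0) := by
    rw [← e1, mul_div_cancel_right₀ _ hQ3]
  rw [e4]
  exact div_mem (UConst_aeval t _) (UConst_aeval t _)

private theorem UConst_FF {t s : K} (D : Derivation k K K) (h1 : D t = 0) (h2 : D s = 1) {c : K}
    (hcF : c ∈ FF k t s) : D c ∈ FF k t s := by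
  induction hcF using IntermediateField.adjoin_induction with
  | mem x hx =>
    rcases hx with rfl | hx
    · rw [h1]
      exact zero_mem _
    · rw [Set.mem_singleton_iff.1 hx, h2]
      exact one_mem _
  | algebraMap x =>
    rw [D.map_algebraMap x]
    exact zero_mem _
  | add x y _ _ h1 h2 =>
    rw [map_add]
    exact add_mem h1 h2
  | inv x hx h1 =>
    rw [Derivation.leibniz_inv, smul_eq_mul]
    exact mul_mem (neg_mem (pow_mem (inv_mem hx) 2)) h1
  | mul x y hx hy h1 h2 =>
    rw [Derivation.leibniz, smul_eq_mul, smul_eq_mul]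
    exact add_mem (mul_mem hx h2) (mul_mem hy h1)

theorem der_algT [CharZero k] {t s : K} (hc : Coord k t s) {y : K} (D : Derivation k K K) (h1 : D t = 0) (h2 : D s = 1)
    (hy : D y = 0) : AlgT k t y := by
  have := hc.fin
  have hint : IsIntegral (FF k t s) y := IsIntegral.of_finite (FF k t s) y
  set p := minpoly (FF k t s) y with hp
  have hs := UConst_sum (t := t) (s := s) D y
  rw [hy, mul_zero, add_zero, ← hp] at hs
  have hmem : ∀ l, D ((p.coeff l : FF k t s) : K) ∈ FF k t s := fun l => UConst_FF D h1 h2 (p.coeff l).2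
  let q : Polynomial (FF k t s) := ∑ l ∈ Finset.range (p.natDegree + 1), Polynomial.monomial l ⟨_, hmem l⟩
  have hq0 : Polynomial.aeval y q = 0 := by
    rw [← hs]
    unfold q
    rw [map_sum]
    refine Finset.sum_congr rfl fun l _ => ?_
    rw [Polynomial.aeval_monomial]
    rfl
  have hqc : ∀ l, l ≤ p.natDegree → ((q.coeff l : FF k t s) : K) = D ((p.coeff l : FF k t s) : K) := by
    intro l hl
    unfold q
    rw [Polynomial.finsetSum_coeff, Finset.sum_eq_single l]
    · rw [Polynomial.coeff_monomial, if_pos rfl]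
    · intro j _ hj
      rw [Polynomial.coeff_monomial, if_neg hj]
    · intro hl'
      exact absurd (Finset.mem_range.2 (by omega)) hl'
  have hmon : p.Monic := minpoly.monic hint
  have hqd : q.degree < p.degree := by
    rw [Polynomial.degree_eq_natDegree hmon.ne_zero, Polynomial.degree_lt_iff_coeff_zero]
    intro l hl
    rcases Nat.lt_or_ge p.natDegree l with h3 | h3
    · unfold q
      rw [Polynomial.finsetSum_coeff]
      refine Finset.sum_eq_zero fun j hj => ?_
      have := Finset.mem_range.1 hj
      rw [Polynomial.coeff_monomial, if_neg (by omega)]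
    · have h4 : l = p.natDegree := le_antisymm h3 (by exact_mod_cast hl)
      apply Subtype.ext
      rw [hqc l h3, h4, hmon.coeff_natDegree]
      have h5 : (((1 : FF k t s)) : K) = 1 := rfl
      rw [h5, Derivation.map_one_eq_zero]
      rfl
  have hq : q = 0 := by
    by_contra h3
    exact absurd (minpoly.degree_le_of_ne_zero (FF k t s) y h3 hq0) (not_le.2 hqd)
  have hk : ∀ l, ((p.coeff l : FF k t s) : K) ∈ IntermediateField.adjoin k {t} := by
    intro l
    rcases Nat.lt_or_ge p.natDegree l with h3 | h3
    · rw [Polynomial.coeff_eq_zero_of_natDegree_lt h3]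
      exact zero_mem _
    · apply UConst_const hc D h1 h2 (p.coeff l).2
      rw [← hqc l h3, hq, Polynomial.coeff_zero]
      rfl
  rw [← UConst_ic, mem_ic_iff_poly]
  refine ⟨p.map (algebraMap (FF k t s) K), hmon.map _, fun l => ?_, ?_⟩
  · rw [Polynomial.coeff_map]
    exact hk l
  · rw [Polynomial.eval_map_algebraMap]
    exact minpoly.aeval _ _

end Pool.Agent.Lib.MP_4318ff_ag.Q
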