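import Pool.Agent.Lib.MP_4318ff_ag.Q.Basic
import Pool.Agent.Lib.MP_4318ff_ag.Q.LocUFD
import Pool.Agent.Lib.MP_4318ff_ag.Q.CoordCh

/-!
# Degree in `s` = pole order at `s = ∞` (no ultrafilter)

PROOF. Let `G ≠ 0` have degree `d > c` in `X 1` (otherwise done), `G = ∑_(j ≤ d) g_j(X 0) X 1^j`, `g_d ≠ 0`. `cv t s G = s^d cv t s⁻¹ (R)` with `R = ∑_j g_j(X 0) (X 1)^(d-j)`, `X 1 ∤ R` (its value at `X 1 = 0` is `g_d(X 0) ≠ 0`; compare `Q/Deg.lean` for the same argument for the total degree and `Q/Expand.lean`: `rv`, `cv_rv`). The hypothesis says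
(`mem_loc` in the coordinates `t, s⁻¹`, `Coord.sInv`, `prime_X1_sub 0`): `cv t s G * s⁻¹^c * cv t s⁻¹ H = cv t s⁻¹ E`, `X 1 ∤ H`. Multiply by `s⁻¹^(d-c)`: `cv t s⁻¹ (R H) = cv t s⁻¹ (E X 1^(d-c))`, so `R H = E (X 1)^(d-c)` (injectivity), and `X 1 ∣ R H`, `X 1` prime: contradiction.
-/

set_option autoImplicit false

namespace Pool.Agent.Lib.MP_4318ff_ag.Q

variable {k K : Type} [Field k] [Field K] [Algebra k K]

open MvPolynomial

/-- `G̃ = ∑ g_ab X₀^a X₁^(d-b)`, `d` the degree in `X₁`. -/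
private noncomputable def UDegS_til (G : MvPolynomial (Fin 2) k) : MvPolynomial (Fin 2) k :=
  ∑ m ∈ G.support, C (G.coeff m) * (X 0 ^ (m 0) * X 1 ^ (G.degreeOf 1 - m 1))

private theorem UDegS_le {G : MvPolynomial (Fin 2) k} {m : Fin 2 →₀ ℕ} (hm : m ∈ G.support) :
    m 1 ≤ G.degreeOf 1 := by
  rw [degreeOf_eq_sup]
  exact Finset.le_sup (f := fun m : Fin 2 →₀ ℕ => m 1) hm

private theorem UDegS_sum (t s : K) (G : MvPolynomial (Fin 2) k) :
    cv t s G = ∑ m ∈ G.support, algebraMap k K (coeff m G) * (t ^ (m 0) * s ^ (m 1)) := by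
  unfold cv
  rw [aeval_def, eval₂_eq']
  refine Finset.sum_congr rfl fun m _ => ?_
  rw [Fin.prod_univ_two]
  rfl

private theorem UDegS_cv {t s : K} (hs : s ≠ 0) (G : MvPolynomial (Fin 2) k) :
    cv t s G = cv t s⁻¹ (UDegS_til G) * s ^ G.degreeOf 1 := by
  rw [UDegS_sum]
  unfold UDegS_til
  rw [map_sum, Finset.sum_mul]
  apply Finset.sum_congr rfl
  intro m hm
  have h2 := UDegS_le hm
  rw [map_mul, map_mul, map_pow, map_pow, cv_X0, cv_X1, cv_C]
  obtain ⟨e, he⟩ := Nat.exists_eq_add_of_le h2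
  have h3 : G.degreeOf 1 - m 1 = e := by omega
  rw [h3, he, pow_add, inv_pow]
  have h4 : s ^ e ≠ 0 := pow_ne_zero _ hs
  field_simp

private theorem UDegS_ev (a : k) (e b : ℕ) :
    (aeval ![Polynomial.X, (0 : Polynomial k)]) (C a * (X 0 ^ b * X 1 ^ e) : MvPolynomial (Fin 2) k) =
      Polynomial.C a * (Polynomial.X ^ b * 0 ^ e) := by
  simp only [map_mul, map_pow, aeval_X, aeval_C, Matrix.cons_val_zero, Matrix.cons_val_one, Polynomial.algebraMap_eq]

private theorem UDegS_ndvd {G : MvPolynomial (Fin 2) k} (hG : G ≠ 0) :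
    ¬ (X 1 : MvPolynomial (Fin 2) k) ∣ UDegS_til G := by
  rintro ⟨Q, hQ⟩
  have h1 := congrArg (aeval ![Polynomial.X, (0 : Polynomial k)]) hQ
  rw [map_mul, aeval_X, Matrix.cons_val_one, Matrix.cons_val_zero, zero_mul] at h1
  unfold UDegS_til at h1
  rw [map_sum] at h1
  have hne : G.support.Nonempty := by
    rw [Finset.nonempty_iff_ne_empty, Ne, support_eq_empty]
    exact hG
  obtain ⟨m0, hm0, hd⟩ : ∃ m0 ∈ G.support, m0 1 = G.degreeOf 1 := by
    obtain ⟨m0, hm0, h2⟩ := Finset.exists_mem_eq_sup G.support hne (fun m : Fin 2 →₀ ℕ => m 1)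
    refine ⟨m0, hm0, ?_⟩
    rw [degreeOf_eq_sup, h2]
  have h3 := congrArg (fun p : Polynomial k => p.coeff (m0 0)) h1
  simp only [Polynomial.finsetSum_coeff, Polynomial.coeff_zero] at h3
  rw [Finset.sum_eq_single m0] at h3
  · rw [UDegS_ev, hd, Nat.sub_self, pow_zero, mul_one, Polynomial.coeff_C_mul_X_pow, if_pos rfl] at h3
    exact (mem_support_iff.mp hm0) h3
  · intro m hm hne'
    rw [UDegS_ev]
    by_cases he : m 1 = G.degreeOf 1
    · rw [he, Nat.sub_self, pow_zero, mul_one, Polynomial.coeff_C_mul_X_pow, if_neg]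
      intro h4
      apply hne'
      ext i
      fin_cases i
      · simp only [Fin.zero_eta]
        omega
      · simp only [Fin.mk_one]
        omega
    · have h4 : G.degreeOf 1 - m 1 ≠ 0 := by
        have := UDegS_le hm
        omega
      rw [zero_pow h4, mul_zero, mul_zero, Polynomial.coeff_zero]
  · intro h
    exact absurd hm0 h

private theorem UDegS_prime : Prime (X 1 : MvPolynomial (Fin 2) k) := X_prime

theorem degS_le {t s : K} (hc : Coord k t s) {G : MvPolynomial (Fin 2) k} {c : ℕ}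
    (h : cv t s G * s⁻¹ ^ c ∈ locI k t s) : G.degreeOf 1 ≤ c := by
  by_contra hcon
  push Not at hcon
  have hG : G ≠ 0 := by
    rintro rfl
    rw [degreeOf_zero] at hcon
    omega
  have hs := hc.s_ne
  have hc' := hc.sInv
  obtain ⟨E, H, hH, e⟩ := (mem_loc hc' UDegS_prime).mp h
  obtain ⟨d, hd⟩ := Nat.exists_eq_add_of_lt hcon
  have h1 : UDegS_til G * H = E * X 1 ^ (d + 1) := by
    apply hc'.inj
    rw [map_mul, map_mul, map_pow, cv_X1, ← e, UDegS_cv hs G, hd]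
    have h6 : s ^ (c + d + 1) = s ^ c * s ^ (d + 1) := by
      rw [← pow_add]
      congr 1
    have h7 : s ^ c * s⁻¹ ^ c = 1 := by rw [← mul_pow, mul_inv_cancel₀ hs, one_pow]
    have h8 : s ^ (d + 1) * s⁻¹ ^ (d + 1) = 1 := by rw [← mul_pow, mul_inv_cancel₀ hs, one_pow]
    rw [h6]
    calc cv t s⁻¹ (UDegS_til G) * cv t s⁻¹ H
        = cv t s⁻¹ (UDegS_til G) * cv t s⁻¹ H * (s ^ c * s⁻¹ ^ c) * (s ^ (d + 1) * s⁻¹ ^ (d + 1)) := by
          rw [h7, h8, mul_one, mul_one]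
      _ = cv t s⁻¹ (UDegS_til G) * (s ^ c * s ^ (d + 1)) * s⁻¹ ^ c * cv t s⁻¹ H * s⁻¹ ^ (d + 1) := by ring
  have h2 : (X 1 : MvPolynomial (Fin 2) k) ∣ UDegS_til G * H := by
    rw [h1]
    exact (dvd_pow_self _ (by omega)).mul_left _
  rcases UDegS_prime.dvd_or_dvd h2 with h3 | h3
  · exact UDegS_ndvd hG h3
  · exact hH h3

/-- Expansion in powers of `s`. -/
theorem expand_s (G : MvPolynomial (Fin 2) k) {d : ℕ} (hd : G.degreeOf 1 ≤ d) :
    ∃ g : ℕ → Polynomial k, ∀ {K : Type} [Field K] [Algebra k K] (t s : K),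
      cv t s G = ∑ j ∈ Finset.range (d + 1), Polynomial.aeval t (g j) * s ^ j := by
  refine ⟨fun j => ∑ m ∈ G.support.filter (fun m => m 1 = j), Polynomial.C (coeff m G) * Polynomial.X ^ (m 0), ?_⟩
  intro K _ _ t s
  rw [UDegS_sum]
  have h1 : ∀ m ∈ G.support, m 1 ∈ Finset.range (d + 1) := by
    intro m hm
    have := (UDegS_le hm).trans hd
    exact Finset.mem_range.2 (by omega)
  rw [← Finset.sum_fiberwise_of_maps_to h1]
  refine Finset.sum_congr rfl fun j _ => ?_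
  rw [map_sum, Finset.sum_mul]
  refine Finset.sum_congr rfl fun m hm => ?_
  have h2 : m 1 = j := (Finset.mem_filter.1 hm).2
  rw [map_mul, map_pow, Polynomial.aeval_C, Polynomial.aeval_X, h2, mul_assoc]

end Pool.Agent.Lib.MP_4318ff_ag.Q
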