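import Pool.Agent.Lib.MP_4318ff_ag.Q.UDsc
import Pool.Agent.Lib.MP_4318ff_ag.Q.UDegS
import Pool.Agent.Lib.MP_4318ff_ag.Q.UConst

/-!
# Elements algebraic over `k(t)` are bounded (no ultrafilter)

PROOF. `N = [K : FF]`, `n₂ = N (N-1)`. `e ≠ 0` with `y' = e(t) y ∈ ic (k[t])` (`exists_integral`). `k[t] ≤ k[t,s]` and `k[t] ≤ locI k t s`, so `y' ∈ ic (pol k t s)`, `y' ∈ ic (locI k t s)` (`ic_mono`). `dsc_mul` with `O = pol k t s`: `dsc θ * y' = ∑_(l<N) cv (G_l) θ^l`. `dsc_mul` with `O = locI k t s` (coordinates `t, s⁻¹`: `Coord.sInv`, `FF_sInv`, `loc_int`,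
`loc_le_FF`, `prime_X1_sub 0`) and the generator `θ' = θ s⁻¹^a` (`genBd_s`, `pol k t s⁻¹ ≤ locI`; it generates because `s⁻¹^a ∈ FF`, `≠ 0`): `dsc θ' * y' = ∑_(l<N) c_l θ'^l`, `c_l ∈ locI`; `dsc θ' = s⁻¹^(a n₂) dsc θ` (`dsc_smul`). The powers of `θ` are linearly independent over `FF`, so `cv (G_l) s⁻¹^(a n₂) = c_l s⁻¹^(a l) ∈ locI`, and `degS_le`:
`degreeOf 1 G_l ≤ a n₂`. `expand_s`.
-/

set_option autoImplicit false

namespace Pool.Agent.Lib.MP_4318ff_ag.Q

variable {k K : Type} [Field k] [Field K] [Algebra k K]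

open MvPolynomial

/-- The powers of a generator are linearly independent. -/
private theorem UBdS_indep (F : IntermediateField k K) [FiniteDimensional F K] [Algebra.IsSeparable F K] {θ : K}
    (hg : IntermediateField.adjoin F {θ} = ⊤) {c c' : Fin (Module.finrank F K) → K} (h : ∀ i, c i ∈ F) (h' : ∀ i, c' i ∈ F)
    (he : ∑ i, c i * θ ^ (i : ℕ) = ∑ i, c' i * θ ^ (i : ℕ)) (i : Fin (Module.finrank F K)) : c i = c' i := by
  have h1 : (minpoly F θ).natDegree = Module.finrank F K := (Field.primitive_element_iff_minpoly_natDegree_eq F θ).1 hg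
  have h2 : LinearIndependent F (fun i : Fin (minpoly F θ).natDegree => θ ^ (i : ℕ)) := linearIndependent_pow θ
  have h3 : LinearIndependent F (fun i : Fin (Module.finrank F K) => θ ^ (i : ℕ)) := by
    rw [← h1]
    exact h2
  have h4 := Fintype.linearIndependent_iff.1 h3 (fun i => (⟨c i - c' i, sub_mem (h i) (h' i)⟩ : F)) ?_ i
  · have h5 : c i - c' i = 0 := congrArg Subtype.val h4
    exact sub_eq_zero.1 h5
  · have h5 : ∀ i : Fin (Module.finrank F K), (⟨c i - c' i, sub_mem (h i) (h' i)⟩ : F) • θ ^ (i : ℕ) =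
        c i * θ ^ (i : ℕ) - c' i * θ ^ (i : ℕ) := by
      intro i
      rw [← sub_mul]
      rfl
    rw [Finset.sum_congr rfl fun i _ => h5 i, Finset.sum_sub_distrib, he, sub_self]

private theorem UBdS_prime : Prime (X 1 : MvPolynomial (Fin 2) k) := X_prime

theorem algT_bounded {t s θ : K} (hc : Coord k t s) (hg : IntermediateField.adjoin (FF k t s) {θ} = ⊤) {a : ℕ}
    (hθ : GenBd k t s θ a) {y : K} (hy : AlgT k t y) :
    ∃ (e : Polynomial k) (g : ℕ → ℕ → Polynomial k), e ≠ 0 ∧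
      Polynomial.aeval t e * dsc (FF k t s) θ * y = ∑ l ∈ Finset.range (Module.finrank (FF k t s) K),
        ∑ j ∈ Finset.range (a * (Module.finrank (FF k t s) K * (Module.finrank (FF k t s) K - 1)) + 1),
          Polynomial.aeval t (g l j) * s ^ j * θ ^ l := by
  have hfin : FiniteDimensional (FF k t s) K := hc.fin
  have hsep : Algebra.IsSeparable (FF k t s) K := hc.sep
  obtain ⟨e, he, hi⟩ := exists_integral hc hy
  set y' : K := Polynomial.aeval t e * y with hy'
  have hs := hc.s_ne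
  have hc' := hc.sInv
  have hF : FF k t s⁻¹ = FF k t s := FF_sInv
  have hsF : s⁻¹ ∈ FF k t s := by
    have h4 := cv_mem_FF (k := k) t s (X 1)
    rw [cv_X1] at h4
    exact inv_mem h4
  have hpI : pol k t s⁻¹ ≤ locI k t s := by
    intro x hx
    obtain ⟨G, rfl⟩ := mem_pol.1 hx
    exact cv_mem_loc _ _ UBdS_prime G
  have htI : t ∈ locI k t s := hpI (Algebra.subset_adjoin (Set.mem_insert _ _))
  have h1 : y' ∈ ic (pol k t s) :=
    ic_mono (Algebra.adjoin_mono (Set.singleton_subset_iff.2 (Set.mem_insert _ _))) hi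
  have h2 : y' ∈ ic (locI k t s) :=
    ic_mono (Algebra.adjoin_le (Set.singleton_subset_iff.2 htI)) hi
  obtain ⟨c, hcp, hcs⟩ := dsc_mul (FF k t s) hg (pol k t s)
    (fun x hx => by
      obtain ⟨G, rfl⟩ := mem_pol.1 hx
      exact cv_mem_FF t s G) (fun x hx h => pol_int hc hx h) (genBd_int hθ) h1
  choose G hG using fun i => mem_pol.1 (hcp i)
  have hsa : s⁻¹ ^ a ≠ 0 := pow_ne_zero _ (inv_ne_zero hs)
  have hg' : IntermediateField.adjoin (FF k t s) {s⁻¹ ^ a * θ} = ⊤ := by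
    rw [eq_top_iff, ← hg, IntermediateField.adjoin_simple_le_iff]
    have h3 : s⁻¹ ^ a * θ ∈ IntermediateField.adjoin (FF k t s) {s⁻¹ ^ a * θ} :=
      IntermediateField.mem_adjoin_simple_self _ _
    have h4 : s⁻¹ ^ a ∈ IntermediateField.adjoin (FF k t s) {s⁻¹ ^ a * θ} :=
      IntermediateField.algebraMap_mem _ (⟨s⁻¹ ^ a, pow_mem hsF a⟩ : FF k t s)
    have h5 : (s⁻¹ ^ a * θ) / s⁻¹ ^ a = θ := by
      rw [mul_div_cancel_left₀ _ hsa]
    have h6 := div_mem h3 h4
    rwa [h5] at h6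
  have hOF : ∀ x ∈ locI k t s, x ∈ FF k t s := by
    intro x hx
    rw [← hF]
    exact loc_le_FF (X 1) hx
  obtain ⟨c', hcI, hcs'⟩ := dsc_mul (FF k t s) hg' (locI k t s) hOF
    (fun x hx h => by
      rw [← hF] at hx
      exact loc_int hc' UBdS_prime hx h)
    (by
      rw [mul_comm]
      exact ic_mono hpI (genBd_s hs hθ)) h2
  rw [dsc_smul (FF k t s) (s⁻¹ ^ a) θ (pow_mem hsF a), mul_assoc, hcs, Finset.mul_sum] at hcs'
  have h3 : ∀ i : Fin (Module.finrank (FF k t s) K), (s⁻¹ ^ a) ^ (Module.finrank (FF k t s) K * (Module.finrank (FF k t s) K - 1)) * c i = c' i * (s⁻¹ ^ a) ^ (i : ℕ) := by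
    refine UBdS_indep (FF k t s) hg ?_ ?_ ?_
    · intro i
      refine mul_mem (pow_mem (pow_mem hsF a) _) ?_
      rw [hG i]
      exact cv_mem_FF t s _
    · intro i
      exact mul_mem (hOF _ (hcI i)) (pow_mem (pow_mem hsF a) _)
    · have h4 : ∀ i : Fin (Module.finrank (FF k t s) K), (s⁻¹ ^ a) ^ (Module.finrank (FF k t s) K * (Module.finrank (FF k t s) K - 1)) * c i * θ ^ (i : ℕ) =
          (s⁻¹ ^ a) ^ (Module.finrank (FF k t s) K * (Module.finrank (FF k t s) K - 1)) * (c i * θ ^ (i : ℕ)) := fun i => by ring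
      rw [Finset.sum_congr rfl fun i _ => h4 i, hcs']
      refine Finset.sum_congr rfl fun i _ => ?_
      rw [mul_pow]
      ring
  have h4 : ∀ i : Fin (Module.finrank (FF k t s) K), (G i).degreeOf 1 ≤ a * (Module.finrank (FF k t s) K * (Module.finrank (FF k t s) K - 1)) := by
    intro i
    apply degS_le hc
    rw [← hG i, pow_mul, mul_comm, h3 i]
    exact mul_mem (hcI i) (pow_mem (pow_mem (hpI (Algebra.subset_adjoin (Set.mem_insert_of_mem _ rfl))) a) _)
  choose g hgg using fun i => expand_s (G i) (h4 i)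
  refine ⟨e, fun l j => if h : l < Module.finrank (FF k t s) K then g ⟨l, h⟩ j else 0, he, ?_⟩
  have h5 : Polynomial.aeval t e * dsc (FF k t s) θ * y = dsc (FF k t s) θ * y' := by
    rw [hy']
    ring
  rw [h5, hcs, Finset.sum_range]
  refine Finset.sum_congr rfl fun i _ => ?_
  rw [hG i, hgg i t s, Finset.sum_mul]
  refine Finset.sum_congr rfl fun j _ => ?_
  beta_reduce
  rw [dif_pos i.2]

end Pool.Agent.Lib.MP_4318ff_ag.Q
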