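import Pool.Agent.Lib.MP_4318ff_ag.Q.UMin

/-!
# Derivations transfer

PROOF. Let `G` be a polynomial, represented by `Gi`. `D (cv t s G) = cv t s (pderiv 0 G) * D t + cv t s (pderiv 1 G) * D s` (chain rule: induction on `G`, or `Derivation` extensionality), the same for `Di`; so by `rep_pderiv`, `R_cv`, `R_add`, `R_mul` the claim holds for `z = cv t s G`. For `z ∈ FF k t s`: `z * cv H = cv G` (`mem_FF`), `H ≠ 0`,
`D z = (D (cv G) - z D (cv H))/cv H`, the same formula in `Ki i` (`Coord.cv_ne`, eventually `H_i ≠ 0`). General `z`: let `p` be the minimal polynomial over `FF k t s`, with coefficients `a_l ∈ FF`, of degree `m`, and `p_i` the minimal polynomial of `w i`, of the same degree, whose coefficients represent the `a_l` (`R_minpoly`).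
`0 = D (p(z)) = ∑_(l ≤ m) D(a_l) z^l + p'(z) D z`, `p'(z) = ∑ l a_l z^(l-1) ≠ 0` (`K/FF` separable: `hc.sep`; `Polynomial.Separable.aeval_derivative_ne_zero`), so `D z = - (∑ D(a_l) z^l)/p'(z)`, and in the same way `Di (w i) = - (∑ Di(a_(l,i)) (w i)^l)/p_i'(w i)` eventually. `R_sum, R_mul, R_pow, R_neg, R_div` and the case of `FF`.
-/

set_option autoImplicit false

namespace Pool.Agent.Lib.MP_4318ff_ag.Q

variable {I : Type} {U : Ultrafilter I} {κ : I → Type} [∀ i, Field (κ i)] {k : Type} [Field k] {L : LimD U κ k}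
  {K : Type} [Field K] [Algebra k K] {Ki : I → Type} [∀ i, Field (Ki i)] [∀ i, Algebra (κ i) (Ki i)]

open Filter MvPolynomial

private theorem der_cv {k K : Type} [Field k] [Field K] [Algebra k K] (t s : K) (D : Derivation k K K)
    (G : MvPolynomial (Fin 2) k) :
    D (cv t s G) = cv t s (pderiv 0 G) * D t + cv t s (pderiv 1 G) * D s := by
  induction G using MvPolynomial.induction_on with
  | C a =>
    rw [cv_C, Derivation.map_algebraMap, pderiv_C, pderiv_C, map_zero]
    ring
  | add p q hp hq =>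
    simp only [map_add, hp, hq]
    ring
  | mul_X p n hp =>
    rw [map_mul, Derivation.leibniz, hp, Derivation.leibniz, Derivation.leibniz]
    simp only [smul_eq_mul, map_add, map_mul]
    fin_cases n
    · have h0 : pderiv (R := k) (0 : Fin 2) (X 0 : MvPolynomial (Fin 2) k) = 1 := pderiv_X_self 0
      have h1 : pderiv (R := k) (1 : Fin 2) (X 0 : MvPolynomial (Fin 2) k) = 0 :=
        pderiv_X_of_ne (by decide)
      simp only [Fin.zero_eta, cv_X0, h0, h1, map_one, map_zero]
      ring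
    · have h0 : pderiv (R := k) (0 : Fin 2) (X 1 : MvPolynomial (Fin 2) k) = 0 :=
        pderiv_X_of_ne (by decide)
      have h1 : pderiv (R := k) (1 : Fin 2) (X 1 : MvPolynomial (Fin 2) k) = 1 := pderiv_X_self 1
      simp only [Fin.mk_one, cv_X1, h0, h1, map_one, map_zero]
      ring

private theorem der_min {k K : Type} [Field k] [Field K] [Algebra k K] {t s : K} (hc : Coord k t s)
    (D : Derivation k K K) (z : K) {m : ℕ} (hm : (minpoly (FF k t s) z).natDegree = m) :
    (∑ l ∈ Finset.range (m + 1), (l : K) * ((minpoly (FF k t s) z).coeff l : K) * z ^ (l - 1)) ≠ 0 ∧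
    D z = -(∑ l ∈ Finset.range (m + 1), D ((minpoly (FF k t s) z).coeff l : K) * z ^ l) /
      (∑ l ∈ Finset.range (m + 1), (l : K) * ((minpoly (FF k t s) z).coeff l : K) * z ^ (l - 1)) := by
  have := hc.fin
  have := hc.sep
  set p := minpoly (FF k t s) z with hp
  have h1 : Polynomial.aeval z (Polynomial.derivative p) ≠ 0 :=
    (Algebra.IsSeparable.isSeparable (FF k t s) z).aeval_derivative_ne_zero (minpoly.aeval _ z)
  have h2 : Polynomial.aeval z (Polynomial.derivative p) =
      ∑ l ∈ Finset.range (m + 1), (l : K) * (p.coeff l : K) * z ^ (l - 1) := by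
    rw [Polynomial.derivative_apply, Polynomial.sum_over_range' p (fun n => by simp) (m + 1) (by rw [hm]; omega),
      map_sum]
    refine Finset.sum_congr rfl fun l _ => ?_
    rw [map_mul, map_pow, Polynomial.aeval_X, Polynomial.aeval_C, map_mul, map_natCast, mul_comm (l : K)]
    rfl
  have h3 : Polynomial.aeval z p = ∑ l ∈ Finset.range (m + 1), (p.coeff l : K) * z ^ l := by
    rw [Polynomial.aeval_eq_sum_range, hm]
    refine Finset.sum_congr rfl fun l _ => ?_
    rw [Algebra.smul_def]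
    rfl
  rw [h2] at h1
  refine ⟨h1, ?_⟩
  rw [eq_div_iff h1]
  have h4 : D (Polynomial.aeval z p) = 0 := by rw [minpoly.aeval, map_zero]
  rw [h3, map_sum] at h4
  have h5 : ∀ l ∈ Finset.range (m + 1), D ((p.coeff l : K) * z ^ l) =
      D (p.coeff l : K) * z ^ l + (l : K) * (p.coeff l : K) * z ^ (l - 1) * D z := by
    intro l _
    rw [Derivation.leibniz, Derivation.leibniz_pow]
    simp only [smul_eq_mul, nsmul_eq_mul]
    ring
  rw [Finset.sum_congr rfl h5, Finset.sum_add_distrib, ← Finset.sum_mul] at h4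
  linear_combination h4

private theorem R_nat (E : Emb L K Ki) (l : ℕ) : E.R (l : K) (fun i => (l : Ki i)) := by
  unfold Emb.R
  rw [map_natCast]
  exact (map_natCast (mkU U Ki) l).symm

private theorem R_derF (E : Emb L K Ki) {t s : K} {ti si : ∀ i, Ki i} (hc : Coord k t s)
    (hci : ∀ᶠ i in (U : Filter I), Coord (κ i) (ti i) (si i)) (ht : E.R t ti) (hs : E.R s si) (D : Derivation k K K)
    (Di : ∀ i, Derivation (κ i) (Ki i) (Ki i)) (h1 : E.R (D t) (fun i => Di i (ti i))) (h2 : E.R (D s) (fun i => Di i (si i)))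
    {z : K} {w : ∀ i, Ki i} (hF : z ∈ FF k t s) (hz : E.R z w) : E.R (D z) (fun i => Di i (w i)) := by
  have key : ∀ G : MvPolynomial (Fin 2) k, ∀ Gi, L.Rep G Gi →
      E.R (D (cv t s G)) (fun i => Di i (cv (ti i) (si i) (Gi i))) := by
    intro G Gi hG
    rw [der_cv]
    have h3 := E.R_add (E.R_mul (R_cv E ht hs (rep_pderiv 0 hG)) h1) (E.R_mul (R_cv E ht hs (rep_pderiv 1 hG)) h2)
    refine E.R_congr h3 (Eventually.of_forall fun i => ?_)
    rw [der_cv]
  obtain ⟨G, H, hH, e⟩ := (mem_FF hc).1 hF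
  obtain ⟨Gi, hGi, -⟩ := rep_exists L G
  obtain ⟨Hi, hHi, -⟩ := rep_exists L H
  have e1 : ∀ᶠ i in (U : Filter I), w i * cv (ti i) (si i) (Hi i) = cv (ti i) (si i) (Gi i) := by
    have h3 := E.R_mul hz (R_cv E ht hs hHi)
    rw [e] at h3
    exact E.R_eq h3 (R_cv E ht hs hGi)
  have e2 : D z = (D (cv t s G) - z * D (cv t s H)) / cv t s H := by
    rw [eq_div_iff (hc.cv_ne hH), ← e, Derivation.leibniz]
    simp only [smul_eq_mul]
    ring
  rw [e2]
  refine E.R_congr (E.R_div (E.R_sub (key G Gi hGi) (E.R_mul hz (key H Hi hHi))) (R_cv E ht hs hHi)) ?_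
  filter_upwards [e1, hci, rep_ne hHi hH] with i h3 h4 h5
  rw [div_eq_iff (h4.cv_ne h5), ← h3, Derivation.leibniz]
  simp only [smul_eq_mul]
  ring

theorem R_der (E : Emb L K Ki) {t s : K} {ti si : ∀ i, Ki i} (hc : Coord k t s)
    (hci : ∀ᶠ i in (U : Filter I), Coord (κ i) (ti i) (si i)) (ht : E.R t ti) (hs : E.R s si) (D : Derivation k K K)
    (Di : ∀ i, Derivation (κ i) (Ki i) (Ki i)) (h1 : E.R (D t) (fun i => Di i (ti i))) (h2 : E.R (D s) (fun i => Di i (si i)))
    {z : K} {w : ∀ i, Ki i} (hz : E.R z w) : E.R (D z) (fun i => Di i (w i)) := by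
  obtain ⟨g1, g2⟩ := R_minpoly E hc hci ht hs hz
  set m := (minpoly (FF k t s) z).natDegree with hm
  obtain ⟨-, e1⟩ := der_min hc D z hm.symm
  rw [e1]
  have h3 := E.R_div (E.R_neg (E.R_sum (Finset.range (m + 1))
      (z := fun l => D ((minpoly (FF k t s) z).coeff l : K) * z ^ l)
      (w := fun l i => Di i ((minpoly (FF (κ i) (ti i) (si i)) (w i)).coeff l : Ki i) * w i ^ l)
      fun l _ => E.R_mul (R_derF E hc hci ht hs D Di h1 h2 ((minpoly (FF k t s) z).coeff l).2 (g2 l)) (E.R_pow hz l)))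
    (E.R_sum (Finset.range (m + 1))
      (z := fun l => (l : K) * ((minpoly (FF k t s) z).coeff l : K) * z ^ (l - 1))
      (w := fun l i => (l : Ki i) * ((minpoly (FF (κ i) (ti i) (si i)) (w i)).coeff l : Ki i) * w i ^ (l - 1))
      fun l _ => E.R_mul (E.R_mul (R_nat E l) (g2 l)) (E.R_pow hz (l - 1)))
  refine E.R_congr h3 ?_
  filter_upwards [g1, hci] with i h4 h5
  obtain ⟨-, e2⟩ := der_min h5 (Di i) (w i) h4
  rw [e2]

end Pool.Agent.Lib.MP_4318ff_ag.Q
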