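import Pool.Agent.Lib.MP_4318ff_ag.Q.UInd
import Pool.Agent.Lib.MP_4318ff_ag.Q.UBdS
import Pool.Agent.Lib.MP_4318ff_ag.Q.UDer
import Pool.Agent.Lib.MP_4318ff_ag.Q.UConst
import Pool.Agent.Lib.MP_4318ff_ag.Q.UBd
import Pool.Agent.Lib.MP_4318ff_ag.Q.ExDer

/-!
# If `h` fixes the elements which are algebraic over `k(t)`, so does `hi i` for almost all `i`

PROOF. `N = [K : FF]`, `n₂ = N (N-1)`, `B = a n₂`. Let `a` be a common bound. For almost all `i`: `Coord`, `gen`, `rank`, `GenBd (κ i)`, so by `dsc_cv` (`genBd_int`, `genBd_inf`) `dsc_i = cv Δi`, `Δi ≠ 0`, `totalDegree Δi ≤ B` (choose `Δi = 1` for the other `i`). Let `Δ` be the limit of `Δi` (`rep_limit`), `Δ ≠ 0` (`rep_ne'`), `δ = cv t s Δ ≠ 0`. It is represented by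
`cv Δi = dsc_i`. Index set `J = Fin N × Fin (B+1)`, `ε_(l,j) = s^j θ^l/δ ∈ K`, represented by `ε_((l,j),i) = si^j θi^l/dsc_i`. `D` the derivation of `K` over `k` with `D t = 0`, `D s = 1` (`exists_der`), `Di i` that of `Ki i` with `Di ti = 0`, `Di si = 1` (for almost all `i`; otherwise `0`); by `R_der` `D z` is represented by `Di (w i)`. `v_m = D ε_m` (`m ∈ J`). Choose a maximal linearly independent
subfamily over `k(t)`: `f : Fin ρ → J` with `v ∘ f` linearly independent over `k(t)` and `v_m = ∑_(r<ρ) c_(m,r) v_(f r)`, `c_(m,r) ∈ k(t)` (`exists_linearIndependent` for `Set.range v` in the `k(t)`-module `K`, an enumeration of the finite subset and `Submodule.mem_span_range_iff_exists_fun`). `ω_m = ε_m - ∑_r c_(m,r) ε_(f r)`. `D` is `k(t)`-linear (`D t = 0`), so `D ω_m = 0`, so `ω_m` is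
algebraic over `k(t)` (`der_algT`, characteristic 0), so `h ω_m = ω_m`. Represent `c_(m,r)` by `c_(m,r),i` (`E.exists_R`), eventually in `κi(ti)` (`R_ft`). Eventually for all `m ∈ J`: `Di ε_(m,i) = ∑_r c_(m,r),i Di ε_(f r,i)`, `hi i (ω_(m,i)) = ω_(m,i)` where `ω_(m,i) = ε_(m,i) - ∑ c_(m,r),i ε_(f r,i)` (`R_eq` with the hypothesis on `hi` and `h ω_m = ω_m`), and
`Di ε_(f r,i)` (`r < ρ`) are linearly independent over `κi(ti)` (`linInd_tr`). Fix such an `i` and let `y ∈ Ki` be algebraic over `κi(ti)`. `algT_bounded`: `e(ti) dsc_i y = ∑_(l,j) g_(l,j)(ti) si^j θi^l`, that is `e(ti) y = ∑_(m ∈ J) g_m(ti) ε_(m,i)`. Apply `Di`: `Di y = 0` (`algT_der`), `Di (g(ti)) = 0`, so `0 = ∑_m g_m(ti) Di ε_(m,i) = ∑_r (∑_m g_m(ti) c_(m,r),i) Di ε_(f r,i)`,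
so `∑_m g_m(ti) c_(m,r),i = 0` for all `r`. So `e(ti) y = ∑_m g_m(ti) ω_(m,i)`. `hi` fixes `ti`, so `e(ti)`, `g_m(ti)`, and it fixes `ω_(m,i)`. So `hi y = y` (`e(ti) ≠ 0`: `Coord.aeval_ne`).
`genBd_tr`: represent the `c l` (`l < m`) with `rep_exists` (total degree `≤`), `R_cv`, `R_sum`, `R_eq` with `R_zero`.
-/

set_option autoImplicit false

namespace Pool.Agent.Lib.MP_4318ff_ag.Q

variable {I : Type} {U : Ultrafilter I} {κ : I → Type} [∀ i, Field (κ i)] {k : Type} [Field k] {L : LimD U κ k}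
  {K : Type} [Field K] [Algebra k K] {Ki : I → Type} [∀ i, Field (Ki i)] [∀ i, Algebra (κ i) (Ki i)]

open Filter MvPolynomial

theorem genBd_tr (E : Emb L K Ki) {t s θ : K} {ti si θi : ∀ i, Ki i} (ht : E.R t ti) (hs : E.R s si) (hθ : E.R θ θi) {a : ℕ}
    (h : GenBd k t s θ a) : ∀ᶠ i in (U : Filter I), GenBd (κ i) (ti i) (si i) (θi i) a := by
  obtain ⟨m, c, hm, hc, h0⟩ := h
  choose g hg1 hg2 using fun l => rep_exists L (c l)
  have h1 := E.R_add (E.R_pow hθ m)
    (E.R_sum (Finset.range m) (z := fun l => cv t s (c l) * θ ^ l)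
      (w := fun l i => cv (ti i) (si i) (g l i) * θi i ^ l)
      (fun l _ => E.R_mul (R_cv E ht hs (hg1 l)) (E.R_pow hθ l)))
  rw [h0] at h1
  filter_upwards [E.R_eq h1 E.R_zero] with i hi
  exact ⟨m, fun l => g l i, hm, fun l hl => (hg2 l i).trans (hc l hl), hi⟩

/-- The situation at one index. -/
private structure UAlg_Good {k K : Type} [Field k] [Field K] [Algebra k K] (t s θ : K) (a N : ℕ)
    (Δ : MvPolynomial (Fin 2) k) (D : Derivation k K K) (h : K ≃ₐ[k] K) {ρ : ℕ}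
    (f : Fin ρ → Fin N × Fin (a * (N * (N - 1)) + 1))
    (c : Fin N × Fin (a * (N * (N - 1)) + 1) → Fin ρ → K)
    (ε : Fin N × Fin (a * (N * (N - 1)) + 1) → K) : Prop where
  hc : Coord k t s
  gen : IntermediateField.adjoin (FF k t s) {θ} = ⊤
  rank : Module.finrank (FF k t s) K = N
  bd : GenBd k t s θ a
  dsc : dsc (FF k t s) θ = cv t s Δ
  ne : Δ ≠ 0
  ht : h t = t
  Dt : D t = 0
  eps : ∀ m, ε m * cv t s Δ = s ^ (m.2 : ℕ) * θ ^ (m.1 : ℕ)
  cmem : ∀ m r, c m r ∈ IntermediateField.adjoin k {t}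
  rel : ∀ m, D (ε m) = ∑ r, c m r * D (ε (f r))
  fix : ∀ m, h (ε m - ∑ r, c m r * ε (f r)) = ε m - ∑ r, c m r * ε (f r)
  ind : LinearIndependent (IntermediateField.adjoin k {t}) (fun r => D (ε (f r)))

private theorem UAlg_algT {k K : Type} [Field k] [Field K] [Algebra k K] {t x : K}
    (hx : x ∈ IntermediateField.adjoin k {t}) : AlgT k t x :=
  isAlgebraic_algebraMap (⟨x, hx⟩ : IntermediateField.adjoin k {t})

private theorem UAlg_aeval_mem {k K : Type} [Field k] [Field K] [Algebra k K] (t : K) (f : Polynomial k) :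
    Polynomial.aeval t f ∈ IntermediateField.adjoin k {t} :=
  IntermediateField.algebra_adjoin_le_adjoin k _ (Polynomial.aeval_mem_adjoin_singleton k t)

private theorem UAlg_one {k K : Type} [Field k] [Field K] [Algebra k K] {t s θ : K} {a N : ℕ}
    {Δ : MvPolynomial (Fin 2) k} {D : Derivation k K K} {h : K ≃ₐ[k] K} {ρ : ℕ}
    {f : Fin ρ → Fin N × Fin (a * (N * (N - 1)) + 1)}
    {c : Fin N × Fin (a * (N * (N - 1)) + 1) → Fin ρ → K}
    {ε : Fin N × Fin (a * (N * (N - 1)) + 1) → K} (G : UAlg_Good t s θ a N Δ D h f c ε) {y : K} (hy : AlgT k t y) :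
    h y = y := by
  obtain ⟨e, g, he, h1⟩ := algT_bounded G.hc G.gen G.bd hy
  rw [G.rank, G.dsc] at h1
  have hΔ : cv t s Δ ≠ 0 := G.hc.cv_ne G.ne
  have hder : ∀ x : K, AlgT k t x → D x = 0 := fun x hx => algT_der G.hc hx D G.Dt
  have hDe : ∀ (p : Polynomial k) (x : K), D (Polynomial.aeval t p * x) = Polynomial.aeval t p * D x := by
    intro p x
    rw [Derivation.leibniz, hder _ (UAlg_algT (UAlg_aeval_mem t p)), smul_zero, add_zero, smul_eq_mul]
  have hhe : ∀ p : Polynomial k, h (Polynomial.aeval t p) = Polynomial.aeval t p := by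
    intro p
    have h2 := Polynomial.aeval_algHom_apply (h : K →ₐ[k] K) t p
    change Polynomial.aeval (h t) p = h (Polynomial.aeval t p) at h2
    rw [← h2, G.ht]
  -- the expansion of `y`
  have h2 : Polynomial.aeval t e * y = ∑ m : Fin N × Fin (a * (N * (N - 1)) + 1),
      Polynomial.aeval t (g m.1 m.2) * ε m := by
    apply mul_right_cancel₀ hΔ
    rw [Finset.sum_mul, Fintype.sum_prod_type]
    rw [Finset.sum_range] at h1
    have h3 : Polynomial.aeval t e * y * cv t s Δ = Polynomial.aeval t e * cv t s Δ * y := by ring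
    rw [h3, h1]
    refine Finset.sum_congr rfl fun l _ => ?_
    rw [Finset.sum_range]
    refine Finset.sum_congr rfl fun j _ => ?_
    rw [mul_assoc, mul_assoc, G.eps]
  -- apply `D`
  have h3 : ∑ m : Fin N × Fin (a * (N * (N - 1)) + 1), Polynomial.aeval t (g m.1 m.2) * D (ε m) = 0 := by
    have h4 := congrArg D h2
    rw [hDe, hder y hy, mul_zero, map_sum] at h4
    rw [h4]
    exact Finset.sum_congr rfl fun m _ => (hDe _ _).symm
  have h4 : ∀ r, ∑ m : Fin N × Fin (a * (N * (N - 1)) + 1), Polynomial.aeval t (g m.1 m.2) * c m r = 0 := by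
    have h5 := Fintype.linearIndependent_iff.1 G.ind (fun r =>
      (⟨∑ m : Fin N × Fin (a * (N * (N - 1)) + 1), Polynomial.aeval t (g m.1 m.2) * c m r,
        sum_mem fun m _ => mul_mem (UAlg_aeval_mem t _) (G.cmem m r)⟩ : IntermediateField.adjoin k {t})) (by
      rw [← h3]
      have h6 : ∀ m : Fin N × Fin (a * (N * (N - 1)) + 1), Polynomial.aeval t (g m.1 m.2) * D (ε m) =
          ∑ r, Polynomial.aeval t (g m.1 m.2) * c m r * D (ε (f r)) := by
        intro m
        rw [G.rel m, Finset.mul_sum]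
        exact Finset.sum_congr rfl fun r _ => (mul_assoc _ _ _).symm
      rw [Finset.sum_congr rfl fun m _ => h6 m, Finset.sum_comm]
      refine Finset.sum_congr rfl fun r _ => ?_
      rw [Algebra.smul_def]
      change (∑ m : Fin N × Fin (a * (N * (N - 1)) + 1), Polynomial.aeval t (g m.1 m.2) * c m r) * D (ε (f r)) = _
      rw [Finset.sum_mul])
    intro r
    exact congrArg Subtype.val (h5 r)
  have h5 : Polynomial.aeval t e * y = ∑ m : Fin N × Fin (a * (N * (N - 1)) + 1),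
      Polynomial.aeval t (g m.1 m.2) * (ε m - ∑ r, c m r * ε (f r)) := by
    have h6 : ∑ m : Fin N × Fin (a * (N * (N - 1)) + 1), ∑ r, Polynomial.aeval t (g m.1 m.2) * c m r * ε (f r) = 0 := by
      rw [Finset.sum_comm]
      refine Finset.sum_eq_zero fun r _ => ?_
      rw [← Finset.sum_mul, h4 r, zero_mul]
    rw [h2, ← sub_zero (∑ m : Fin N × Fin (a * (N * (N - 1)) + 1), Polynomial.aeval t (g m.1 m.2) * ε m), ← h6,
      ← Finset.sum_sub_distrib]
    refine Finset.sum_congr rfl fun m _ => ?_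
    rw [mul_sub, Finset.mul_sum]
    refine congrArg _ (Finset.sum_congr rfl fun r _ => ?_)
    rw [mul_assoc]
  have h6 : h (Polynomial.aeval t e * y) = Polynomial.aeval t e * y := by
    rw [h5, map_sum]
    refine Finset.sum_congr rfl fun m _ => ?_
    rw [map_mul, hhe, G.fix m]
  rw [map_mul, hhe] at h6
  exact mul_left_cancel₀ (G.hc.aeval_ne he) h6

private theorem UAlg_basis {F V : Type} [Field F] [AddCommGroup V] [Module F V] {J : Type} [Finite J] (v : J → V) :
    ∃ (ρ : ℕ) (f : Fin ρ → J) (c : J → Fin ρ → F), LinearIndependent F (fun r => v (f r)) ∧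
      ∀ m, v m = ∑ r, c m r • v (f r) := by
  obtain ⟨κ', a', ha', hspan, hli⟩ := exists_linearIndependent' F v
  have hfin : Finite κ' := Finite.of_injective a' ha'
  obtain ⟨ρ, ⟨e⟩⟩ := Finite.exists_equiv_fin κ'
  have h1 : LinearIndependent F (fun r => v (a' (e.symm r))) := hli.comp e.symm e.symm.injective
  have h2 : ∀ m, ∃ c : Fin ρ → F, ∑ r, c r • v (a' (e.symm r)) = v m := by
    intro m
    have h3 : v m ∈ Submodule.span F (Set.range (fun r => v (a' (e.symm r)))) := by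
      have h4 : Set.range (fun r => v (a' (e.symm r))) = Set.range (v ∘ a') := by
        have : (fun r => v (a' (e.symm r))) = (v ∘ a') ∘ e.symm := rfl
        rw [this, e.symm.surjective.range_comp]
      rw [h4, hspan]
      exact Submodule.subset_span ⟨m, rfl⟩
    exact (Submodule.mem_span_range_iff_exists_fun F).1 h3
  choose c hc using h2
  exact ⟨ρ, fun r => a' (e.symm r), c, h1, fun m => (hc m).symm⟩

theorem algT_fixed [CharZero k] {E : Emb L K Ki} {t s θ : K} {ti si θi : ∀ i, Ki i} (S : USetup E t s θ ti si θi) {a : ℕ}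
    (hθ : GenBd k t s θ a) (h : K ≃ₐ[k] K) (hconn : ∀ z : K, AlgT k t z → h z = z) (hi : ∀ i, Ki i ≃ₐ[κ i] Ki i)
    (hti : ∀ᶠ i in (U : Filter I), hi i (ti i) = ti i)
    (hh : ∀ z w, E.R z w → E.R (h z) (fun i => hi i (w i))) :
    ∀ᶠ i in (U : Filter I), ∀ y : Ki i, AlgT (κ i) (ti i) y → hi i y = y := by
  classical
  obtain ⟨N, hN⟩ : ∃ N, Module.finrank (FF k t s) K = N := ⟨_, rfl⟩
  -- the discriminants
  have hbd := genBd_tr E S.rt S.rs S.rθ hθ
  have h1 : ∀ i, ∃ Δ : MvPolynomial (Fin 2) (κ i),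
      (Coord (κ i) (ti i) (si i) ∧ IntermediateField.adjoin (FF (κ i) (ti i) (si i)) {θi i} = ⊤ ∧
        Module.finrank (FF (κ i) (ti i) (si i)) (Ki i) = N ∧ GenBd (κ i) (ti i) (si i) (θi i) a) →
      (Δ ≠ 0 ∧ Δ.totalDegree ≤ a * (N * (N - 1)) ∧
        dsc (FF (κ i) (ti i) (si i)) (θi i) = cv (ti i) (si i) Δ) := by
    intro i
    by_cases hg : Coord (κ i) (ti i) (si i) ∧ IntermediateField.adjoin (FF (κ i) (ti i) (si i)) {θi i} = ⊤ ∧
        Module.finrank (FF (κ i) (ti i) (si i)) (Ki i) = N ∧ GenBd (κ i) (ti i) (si i) (θi i) a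
    · obtain ⟨g1, g2, g3, g4⟩ := hg
      obtain ⟨Δ, d1, d2, d3⟩ := dsc_cv g1 g2 (genBd_int g4) (genBd_inf g1.t_ne g4)
      rw [g3] at d2
      exact ⟨Δ, fun _ => ⟨d1, d2, d3⟩⟩
    · exact ⟨0, fun hg' => absurd hg' hg⟩
  choose Δi hΔi using h1
  have hgood : ∀ᶠ i in (U : Filter I), (Coord (κ i) (ti i) (si i) ∧
      IntermediateField.adjoin (FF (κ i) (ti i) (si i)) {θi i} = ⊤ ∧
        Module.finrank (FF (κ i) (ti i) (si i)) (Ki i) = N ∧ GenBd (κ i) (ti i) (si i) (θi i) a) := by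
    filter_upwards [S.hci, S.geni, S.rank, hbd] with i g1 g2 g3 g4
    exact ⟨g1, g2, g3.trans hN, g4⟩
  obtain ⟨Δ, hΔ⟩ := rep_limit L Δi (a * (N * (N - 1))) (hgood.mono fun i hg => (hΔi i hg).2.1)
  have hΔ0 : Δ ≠ 0 := rep_ne' hΔ (hgood.mono fun i hg => (hΔi i hg).1)
  have hδ : cv t s Δ ≠ 0 := S.hc.cv_ne hΔ0
  have hRδ := R_cv E S.rt S.rs hΔ
  -- the derivations
  obtain ⟨D, hDt, hDs⟩ := exists_der S.hc (0 : K) 1
  have h2 : ∀ i, ∃ D' : Derivation (κ i) (Ki i) (Ki i), Coord (κ i) (ti i) (si i) → (D' (ti i) = 0 ∧ D' (si i) = 1) := by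
    intro i
    by_cases hg : Coord (κ i) (ti i) (si i)
    · obtain ⟨D', hD'⟩ := exists_der hg (0 : Ki i) 1
      exact ⟨D', fun _ => hD'⟩
    · exact ⟨0, fun hg' => absurd hg' hg⟩
  choose Di hDi using h2
  have hRD : ∀ {z : K} {w : ∀ i, Ki i}, E.R z w → E.R (D z) (fun i => Di i (w i)) := by
    intro z w hz
    refine R_der E S.hc S.hci S.rt S.rs D Di ?_ ?_ hz
    · rw [hDt]
      refine E.R_congr E.R_zero ?_
      filter_upwards [S.hci] with i hc
      exact (hDi i hc).1.symm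
    · rw [hDs]
      refine E.R_congr E.R_one ?_
      filter_upwards [S.hci] with i hc
      exact (hDi i hc).2.symm
  -- the elements `ε`
  let ε : Fin N × Fin (a * (N * (N - 1)) + 1) → K := fun m => s ^ (m.2 : ℕ) * θ ^ (m.1 : ℕ) / cv t s Δ
  let εi : Fin N × Fin (a * (N * (N - 1)) + 1) → ∀ i, Ki i :=
    fun m i => si i ^ (m.2 : ℕ) * θi i ^ (m.1 : ℕ) / cv (ti i) (si i) (Δi i)
  have hRε : ∀ m, E.R (ε m) (εi m) := fun m =>
    E.R_div (E.R_mul (E.R_pow S.rs _) (E.R_pow S.rθ _)) hRδ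
  obtain ⟨ρ, f, c, hli, hrel⟩ := UAlg_basis (F := IntermediateField.adjoin k {t}) (fun m => D (ε m))
  have hDc : ∀ (x : IntermediateField.adjoin k {t}) (z : K), D ((x : K) * z) = (x : K) * D z := by
    intro x z
    rw [Derivation.leibniz, algT_der S.hc (UAlg_algT x.2) D hDt, smul_zero, add_zero, smul_eq_mul]
  have hrel' : ∀ m, D (ε m) = ∑ r, (c m r : K) * D (ε (f r)) := by
    intro m
    rw [hrel m]
    refine Finset.sum_congr rfl fun r _ => ?_
    rw [Algebra.smul_def]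
    rfl
  have hω : ∀ m, h (ε m - ∑ r, (c m r : K) * ε (f r)) = ε m - ∑ r, (c m r : K) * ε (f r) := by
    intro m
    apply hconn
    refine der_algT S.hc D hDt hDs ?_
    rw [map_sub, map_sum, sub_eq_zero, hrel' m]
    exact Finset.sum_congr rfl fun r _ => (hDc _ _).symm
  choose ci hci using fun (m : Fin N × Fin (a * (N * (N - 1)) + 1)) (r : Fin ρ) => E.exists_R (c m r : K)
  have hcmem : ∀ᶠ i in (U : Filter I), ∀ m r, ci m r i ∈ IntermediateField.adjoin (κ i) {ti i} := by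
    rw [Filter.eventually_all]
    intro m
    rw [Filter.eventually_all]
    intro r
    exact R_ft E S.rt (c m r).2 (hci m r)
  have hreli : ∀ᶠ i in (U : Filter I), ∀ m, Di i (εi m i) = ∑ r, ci m r i * Di i (εi (f r) i) := by
    rw [Filter.eventually_all]
    intro m
    have h3 := hRD (hRε m)
    rw [hrel' m] at h3
    exact E.R_eq h3 (E.R_sum Finset.univ (z := fun r => (c m r : K) * D (ε (f r)))
      (w := fun r i => ci m r i * Di i (εi (f r) i)) (fun r _ => E.R_mul (hci m r) (hRD (hRε (f r)))))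
  have hRω : ∀ m, E.R (ε m - ∑ r, (c m r : K) * ε (f r)) (fun i => εi m i - ∑ r, ci m r i * εi (f r) i) := fun m =>
    E.R_sub (hRε m) (E.R_sum Finset.univ (z := fun r => (c m r : K) * ε (f r))
      (w := fun r i => ci m r i * εi (f r) i) (fun r _ => E.R_mul (hci m r) (hRε (f r))))
  have hfix : ∀ᶠ i in (U : Filter I), ∀ m, hi i (εi m i - ∑ r, ci m r i * εi (f r) i) =
      εi m i - ∑ r, ci m r i * εi (f r) i := by
    rw [Filter.eventually_all]
    intro m
    have h3 := hh _ _ (hRω m)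
    rw [hω m] at h3
    exact E.R_eq h3 (hRω m)
  have hind := linInd_tr S (fun r => D (ε (f r))) (fun r i => Di i (εi (f r) i)) (fun r => hRD (hRε (f r))) hli
  filter_upwards [hgood, hti, hcmem, hreli, hfix, hind] with i g1 g2 g3 g4 g5 g6 y hy
  obtain ⟨d1, -, d3⟩ := hΔi i g1
  have G : UAlg_Good (ti i) (si i) (θi i) a N (Δi i) (Di i) (hi i) f (fun m r => ci m r i) (fun m => εi m i) :=
    { hc := g1.1
      gen := g1.2.1
      rank := g1.2.2.1
      bd := g1.2.2.2
      dsc := d3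
      ne := d1
      ht := g2
      Dt := (hDi i g1.1).1
      eps := fun m => div_mul_cancel₀ _ (g1.1.cv_ne d1)
      cmem := g3
      rel := g4
      fix := g5
      ind := g6 }
  exact UAlg_one G hy

end Pool.Agent.Lib.MP_4318ff_ag.Q
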