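import Pool.Agent.Lib.MP_4318ff_ag.Q.Basic
import Pool.Agent.Lib.MP_4318ff_ag.Q.CoordCh
import Pool.Agent.Lib.MP_4318ff_ag.Q.LocUFD

/-!
# Denominators (no ultrafilter)

PROOF. `exists_Q`: every `z ∈ K` is algebraic over `FF k t s`, the coefficients of its minimal polynomial have a common denominator `cv Q` (`mem_FF`), and then `cv Q * z` is integral over `k[t,s]`; for a finite set take the product. `exists_b`: in the coordinates `t' = t⁻¹, s' = s/t` (`Coord.inv`): there is `Q ≠ 0` with `cv t' s' Q * z ∈ ic (pol k t' s')` (`exists_Q`), `Q = X 0^b Q'` with `X 0 ∤ Q'`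
(`X 0` is prime: `prime_X0_sub 0`; finite multiplicity in a UFD), so `(cv t' s' Q')⁻¹ ∈ locO k t' s'` (`inv_cv_mem_loc`) and `t⁻¹^b * z = (cv Q')⁻¹ * (cv Q * z) ∈ ic (locO k t' s')` (`pol ≤ locO`, `ic_mono`).
-/

set_option autoImplicit false

namespace Pool.Agent.Lib.MP_4318ff_ag.Q

variable {k K : Type} [Field k] [Field K] [Algebra k K]

open MvPolynomial

private def uclrT (S : Subalgebra k K) (f : K) (hf : f ∈ S) : Subalgebra k K where
  carrier := {y | ∃ m : ℕ, f ^ m * y ∈ S}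
  algebraMap_mem' := by
    intro r
    exact ⟨0, by rw [pow_zero, one_mul]; exact S.algebraMap_mem r⟩
  add_mem' := by
    rintro x y ⟨m, hm⟩ ⟨n, hn⟩
    refine ⟨m + n, ?_⟩
    have h : f ^ (m + n) * (x + y) = f ^ n * (f ^ m * x) + f ^ m * (f ^ n * y) := by ring
    rw [h]
    exact S.add_mem (S.mul_mem (S.pow_mem hf _) hm) (S.mul_mem (S.pow_mem hf _) hn)
  mul_mem' := by
    rintro x y ⟨m, hm⟩ ⟨n, hn⟩
    refine ⟨m + n, ?_⟩
    have h : f ^ (m + n) * (x * y) = (f ^ m * x) * (f ^ n * y) := by ring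
    rw [h]
    exact S.mul_mem hm hn

private theorem uclr_one {t s : K} (hc : Coord k t s) (z : K) :
    ∃ Q : MvPolynomial (Fin 2) k, Q ≠ 0 ∧ cv t s Q * z ∈ ic (pol k t s) := by
  have := hc.fin
  have hz : IsIntegral (FF k t s) z := IsIntegral.of_finite (FF k t s) z
  have h1 : ∀ l, ∃ G H : MvPolynomial (Fin 2) k, H ≠ 0 ∧
      (((minpoly (FF k t s) z).coeff l : FF k t s) : K) * cv t s H = cv t s G :=
    fun l => (mem_FF hc).1 ((minpoly (FF k t s) z).coeff l).2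
  choose G H hH hGH using h1
  obtain ⟨Q, hQ⟩ : ∃ Q, Q = ∏ l ∈ Finset.range ((minpoly (FF k t s) z).natDegree + 1), H l := ⟨_, rfl⟩
  have hQ0 : Q ≠ 0 := by
    rw [hQ]
    exact Finset.prod_ne_zero_iff.2 fun l _ => hH l
  have hf : cv t s Q ∈ pol k t s := mem_pol.2 ⟨Q, rfl⟩
  have h2 : z ∈ ic (uclrT (pol k t s) (cv t s Q) hf) := by
    rw [mem_ic_iff_poly]
    refine ⟨(minpoly (FF k t s) z).map (algebraMap (FF k t s) K), (minpoly.monic hz).map _, ?_, ?_⟩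
    · intro l
      rw [Polynomial.coeff_map]
      by_cases hl : l ≤ (minpoly (FF k t s) z).natDegree
      · refine ⟨1, ?_⟩
        have hl' : l ∈ Finset.range ((minpoly (FF k t s) z).natDegree + 1) := Finset.mem_range.2 (by omega)
        have h3 : cv t s Q ^ 1 * (algebraMap (FF k t s) K ((minpoly (FF k t s) z).coeff l)) =
            cv t s ((∏ l ∈ (Finset.range ((minpoly (FF k t s) z).natDegree + 1)).erase l, H l) * G l) := by
          rw [pow_one, hQ, ← Finset.mul_prod_erase _ H hl', map_mul, map_mul, ← hGH l]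
          change _ * (((minpoly (FF k t s) z).coeff l : FF k t s) : K) = _
          ring
        rw [h3]
        exact mem_pol.2 ⟨_, rfl⟩
      · rw [Polynomial.coeff_eq_zero_of_natDegree_lt (by omega), map_zero]
        exact Subalgebra.zero_mem _
    · rw [Polynomial.eval_map_algebraMap]
      exact minpoly.aeval _ _
  obtain ⟨m, hm⟩ := exists_pow_mul_mem_ic hf (fun y hy => hy) h2
  exact ⟨Q ^ m, pow_ne_zero _ hQ0, by rw [map_pow]; exact hm⟩

theorem exists_Q {t s : K} (hc : Coord k t s) (Z : Finset K) :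
    ∃ Q : MvPolynomial (Fin 2) k, Q ≠ 0 ∧ ∀ z ∈ Z, cv t s Q * z ∈ ic (pol k t s) := by
  classical
  choose Q hQ0 hQ using fun z => uclr_one hc z
  refine ⟨∏ z ∈ Z, Q z, Finset.prod_ne_zero_iff.2 fun z _ => hQ0 z, fun z hz => ?_⟩
  have h : cv t s (∏ z ∈ Z, Q z) * z = cv t s (∏ z ∈ Z.erase z, Q z) * (cv t s (Q z) * z) := by
    rw [← Finset.mul_prod_erase Z Q hz, map_mul]
    ring
  rw [h]
  exact mul_mem (le_ic _ (mem_pol.2 ⟨_, rfl⟩)) (hQ z)

theorem exists_b {t s : K} (hc : Coord k t s) (z : K) : ∃ b : ℕ, z * t⁻¹ ^ b ∈ ic (locO k t⁻¹ (s / t)) := by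
  have hc' : Coord k t⁻¹ (s / t) := hc.inv
  obtain ⟨Q, hQ0, hQ⟩ := uclr_one hc' z
  have hp : Prime (X 0 : MvPolynomial (Fin 2) k) := by
    have := prime_X0_sub (0 : k)
    rwa [C_0, sub_zero] at this
  obtain ⟨b, Q', hQ', e⟩ := WfDvdMonoid.max_power_factor hQ0 hp.irreducible
  have hQ'0 : Q' ≠ 0 := by
    rintro rfl
    exact hQ' (dvd_zero _)
  refine ⟨b, ?_⟩
  have h1 : z * t⁻¹ ^ b = (cv t⁻¹ (s / t) Q')⁻¹ * (cv t⁻¹ (s / t) Q * z) := by
    rw [e, map_mul, map_pow, cv_X0]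
    have h2 := hc'.cv_ne hQ'0
    have h4 : (cv t⁻¹ (s / t) Q')⁻¹ * (t⁻¹ ^ b * cv t⁻¹ (s / t) Q' * z) =
        ((cv t⁻¹ (s / t) Q')⁻¹ * cv t⁻¹ (s / t) Q') * (z * t⁻¹ ^ b) := by ring
    rw [h4, inv_mul_cancel₀ h2, one_mul]
  rw [h1]
  have h3 : pol k t⁻¹ (s / t) ≤ locO k t⁻¹ (s / t) := by
    intro x hx
    obtain ⟨G, rfl⟩ := mem_pol.1 hx
    exact cv_mem_loc _ _ hp G
  exact mul_mem (le_ic _ (inv_cv_mem_loc _ _ hQ')) (ic_mono h3 hQ)

end Pool.Agent.Lib.MP_4318ff_ag.Q
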