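import Pool.Agent.Lib.MP_4318ff_ag.Q.UAri

/-!
# Values of polynomials

PROOF. By `MvPolynomial.induction_on` for `there is a representing family `g` of `f` with `R (aeval z f) (fun i => aeval (w · i) (g i))`` (`rep_C` for `C c`, `c = lim a`; `rep_add`; `rep_mul`, `rep_X`), then `rep_unique` and
`R_congr`. `R_cv`: the case `n = 2`, `z = ![t, s]`.
-/

set_option autoImplicit false

namespace Pool.Agent.Lib.MP_4318ff_ag.Q

open Filter MvPolynomial

variable {I : Type} {U : Ultrafilter I} {κ : I → Type} [∀ i, Field (κ i)] {k : Type} [Field k] {L : LimD U κ k}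
  {K : Type} [Field K] [Algebra k K] {Ki : I → Type} [∀ i, Field (Ki i)] [∀ i, Algebra (κ i) (Ki i)]

theorem R_aeval (E : Emb L K Ki) {n : ℕ} {z : Fin n → K} {w : Fin n → ∀ i, Ki i} (hz : ∀ j, E.R (z j) (w j))
    {f : MvPolynomial (Fin n) k} {g : ∀ i, MvPolynomial (Fin n) (κ i)} (h : L.Rep f g) :
    E.R (aeval z f) (fun i => aeval (fun j => w j i) (g i)) := by
  have key : ∀ f : MvPolynomial (Fin n) k, ∃ g₀ : ∀ i, MvPolynomial (Fin n) (κ i),
      L.Rep f g₀ ∧ E.R (aeval z f) (fun i => aeval (fun j => w j i) (g₀ i)) := by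
    intro f
    induction f using MvPolynomial.induction_on with
    | C a =>
      obtain ⟨b, rfl⟩ := L.surj a
      refine ⟨fun i => C (b i), rep_C b, ?_⟩
      simpa only [aeval_C] using E.R_const b
    | add p q hp hq =>
      obtain ⟨gp, hp1, hp2⟩ := hp
      obtain ⟨gq, hq1, hq2⟩ := hq
      refine ⟨fun i => gp i + gq i, rep_add hp1 hq1, ?_⟩
      simpa only [map_add] using E.R_add hp2 hq2
    | mul_X p j hp =>
      obtain ⟨gp, hp1, hp2⟩ := hp
      refine ⟨fun i => gp i * X j, rep_mul hp1 (rep_X j), ?_⟩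
      simpa only [map_mul, aeval_X] using E.R_mul hp2 (hz j)
  obtain ⟨g₀, h1, h2⟩ := key f
  refine E.R_congr h2 ?_
  filter_upwards [rep_unique h1 h] with i hi
  rw [hi]

theorem R_cv (E : Emb L K Ki) {t s : K} {ti si : ∀ i, Ki i} (ht : E.R t ti) (hs : E.R s si)
    {f : MvPolynomial (Fin 2) k} {g : ∀ i, MvPolynomial (Fin 2) (κ i)} (h : L.Rep f g) :
    E.R (cv t s f) (fun i => cv (ti i) (si i) (g i)) := by
  have h1 := R_aeval E (z := ![t, s]) (w := ![ti, si]) (by
    intro j
    fin_cases j
    · exact ht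
    · exact hs) h
  have h2 : (fun i => cv (ti i) (si i) (g i)) =
      fun i => aeval (fun j => (![ti, si] : Fin 2 → ∀ i, Ki i) j i) (g i) := by
    funext i
    have h3 : (fun j => (![ti, si] : Fin 2 → ∀ i, Ki i) j i) = ![ti i, si i] := by
      funext j
      fin_cases j <;> rfl
    unfold cv
    rw [h3]
  rw [h2]
  exact h1

theorem R_aeval3 (E : Emb L K Ki) {t s z : K} {ti si w : ∀ i, Ki i} (ht : E.R t ti) (hs : E.R s si) (hz : E.R z w)
    {f : MvPolynomial (Fin 3) k} {g : ∀ i, MvPolynomial (Fin 3) (κ i)} (h : L.Rep f g) :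
    E.R (aeval ![t, s, z] f) (fun i => aeval ![ti i, si i, w i] (g i)) := by
  have h1 := R_aeval E (z := ![t, s, z]) (w := ![ti, si, w]) (by
    intro j
    fin_cases j
    · exact ht
    · exact hs
    · exact hz) h
  have h2 : (fun i => aeval ![ti i, si i, w i] (g i)) =
      fun i => aeval (fun j => (![ti, si, w] : Fin 3 → ∀ i, Ki i) j i) (g i) := by
    funext i
    have h3 : (fun j => (![ti, si, w] : Fin 3 → ∀ i, Ki i) j i) = ![ti i, si i, w i] := by
      funext j
      fin_cases j <;> rfl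
    rw [h3]
  rw [h2]
  exact h1

/-- Representation of polynomials in one variable: value at `t`. -/
theorem R_poly (E : Emb L K Ki) {t : K} {ti : ∀ i, Ki i} (ht : E.R t ti) (f : Polynomial k) :
    ∃ g : ∀ i, Polynomial (κ i), (∀ i, (g i).natDegree ≤ f.natDegree) ∧ (∀ m, f.coeff m = L.lim (fun i => (g i).coeff m)) ∧
      E.R (Polynomial.aeval t f) (fun i => Polynomial.aeval (ti i) (g i)) := by
  choose a ha using fun m : ℕ => L.surj (f.coeff m)
  refine ⟨fun i => ∑ m ∈ Finset.range (f.natDegree + 1), Polynomial.C (a m i) * Polynomial.X ^ m,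
    fun i => ?_, fun m => ?_, ?_⟩
  · refine Polynomial.natDegree_sum_le_of_forall_le _ _ fun m hm => ?_
    exact (Polynomial.natDegree_C_mul_X_pow_le _ _).trans (Nat.lt_succ_iff.1 (Finset.mem_range.1 hm))
  · have h1 : (fun i => (∑ l ∈ Finset.range (f.natDegree + 1), Polynomial.C (a l i) * Polynomial.X ^ l).coeff m) =
        fun i => if m < f.natDegree + 1 then a m i else 0 := by
      funext i
      rw [Polynomial.finsetSum_coeff]
      simp only [Polynomial.coeff_C_mul_X_pow]
      rw [Finset.sum_ite_eq]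
      simp only [Finset.mem_range]
    rw [h1]
    by_cases hm : m < f.natDegree + 1
    · simp only [if_pos hm]
      exact (ha m).symm
    · simp only [if_neg hm]
      rw [Polynomial.coeff_eq_zero_of_natDegree_lt (by omega), ← map_zero L.lim]
      rfl
  · rw [Polynomial.aeval_eq_sum_range]
    have h1 : (fun i => Polynomial.aeval (ti i)
        (∑ m ∈ Finset.range (f.natDegree + 1), Polynomial.C (a m i) * Polynomial.X ^ m)) =
        fun i => ∑ m ∈ Finset.range (f.natDegree + 1), algebraMap (κ i) (Ki i) (a m i) * ti i ^ m := by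
      funext i
      rw [map_sum]
      refine Finset.sum_congr rfl fun m _ => ?_
      rw [map_mul, map_pow, Polynomial.aeval_C, Polynomial.aeval_X]
    rw [h1]
    refine E.R_sum _ fun m _ => ?_
    rw [Algebra.smul_def, ← ha m]
    exact E.R_mul (E.R_const (a m)) (E.R_pow ht m)

end Pool.Agent.Lib.MP_4318ff_ag.Q
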