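import Pool.Agent.Lib.MP_4318ff_ag.Q.UAri

/-!
# Irreducibility

PROOF. `f` is irreducible, so it has a nonconstant monomial with nonzero coefficient, so eventually `g i` is nonconstant, in particular not a unit and not `0`. If `g i` is not eventually
irreducible, then eventually (ultrafilter) `g i = a i b i` with nonunits `a i, b i`, both nonzero, of total degree `≤ totalDegree (g i) ≤ d` (`MvPolynomial.totalDegree_mul_of_isDomain`); let `a, b` be their limits
(`rep_limit`): `f = a b` (`rep_eq`). So one of them, say `a`, is a unit, `a = C c`, `c ≠ 0` (`MvPolynomial.isUnit_iff_eq_C_of_isReduced` or similar), `c = lim c'`, `a i = C (c' i)` eventually (`rep_unique`), `c' i ≠ 0` eventually: `a i` is a unit.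
Contradiction.
-/

set_option autoImplicit false

namespace Pool.Agent.Lib.MP_4318ff_ag.Q

open Filter MvPolynomial

variable {I : Type} {U : Ultrafilter I} {κ : I → Type} [∀ i, Field (κ i)] {k : Type} [Field k] {L : LimD U κ k} {n : ℕ}

/-- a representative of a unit is eventually a unit -/
private theorem rep_unit {f : MvPolynomial (Fin n) k} {g : ∀ i, MvPolynomial (Fin n) (κ i)} (h : L.Rep f g)
    (hf : IsUnit f) : ∀ᶠ i in (U : Filter I), IsUnit (g i) := by
  obtain ⟨c, hc, hfc⟩ := MvPolynomial.isUnit_iff_eq_C_of_isReduced.1 hf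
  obtain ⟨c', rfl⟩ := L.surj c
  rw [hfc] at h
  have h1 : ∀ᶠ i in (U : Filter I), c' i ≠ 0 := by
    have h2 : ¬ ∀ᶠ i in (U : Filter I), c' i = 0 := fun h3 => hc.ne_zero ((L.ker c').2 h3)
    exact Ultrafilter.eventually_not.2 h2
  filter_upwards [rep_unique h (rep_C c'), h1] with i h2 h3
  rw [h2]
  exact (isUnit_iff_ne_zero.2 h3).map C

/-- a representative of a nonzero nonunit is eventually not a unit -/
private theorem rep_not_unit {f : MvPolynomial (Fin n) k} {g : ∀ i, MvPolynomial (Fin n) (κ i)} (h : L.Rep f g)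
    (hf : ¬ IsUnit f) (hf0 : f ≠ 0) : ∀ᶠ i in (U : Filter I), ¬ IsUnit (g i) := by
  rw [Ultrafilter.eventually_not]
  intro h1
  apply hf
  have h2 : ∀ᶠ i in (U : Filter I), g i = C (coeff 0 (g i)) := by
    filter_upwards [h1] with i hi
    obtain ⟨c, -, hc⟩ := MvPolynomial.isUnit_iff_eq_C_of_isReduced.1 hi
    rw [hc, coeff_zero_C]
  have h3 : f = C (L.lim (fun i => coeff 0 (g i))) := rep_eq (rep_congr h h2) (rep_C _)
  rw [h3] at hf0 ⊢
  have h4 : L.lim (fun i => coeff 0 (g i)) ≠ 0 := by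
    intro h5
    apply hf0
    rw [h5, C_0]
  exact (isUnit_iff_ne_zero.2 h4).map C

theorem rep_irreducible {f : MvPolynomial (Fin n) k} {g : ∀ i, MvPolynomial (Fin n) (κ i)} (h : L.Rep f g)
    (hf : Irreducible f) : ∀ᶠ i in (U : Filter I), Irreducible (g i) := by
  by_contra hcon
  rw [← Ultrafilter.eventually_not] at hcon
  obtain ⟨d, hd⟩ := h.1
  have h0 : ∀ᶠ i in (U : Filter I), ∃ a b : MvPolynomial (Fin n) (κ i), g i = a * b ∧ ¬ IsUnit a ∧ ¬ IsUnit b := by
    filter_upwards [hcon, rep_not_unit h hf.not_isUnit hf.ne_zero] with i h1 h2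
    by_contra h3
    apply h1
    rw [irreducible_iff]
    refine ⟨h2, fun a b hab => ?_⟩
    by_contra h4
    rw [not_or] at h4
    exact h3 ⟨a, b, hab, h4.1, h4.2⟩
  classical
  have h1 : ∀ i, ∃ ab : MvPolynomial (Fin n) (κ i) × MvPolynomial (Fin n) (κ i),
      (∃ a b : MvPolynomial (Fin n) (κ i), g i = a * b ∧ ¬ IsUnit a ∧ ¬ IsUnit b) →
        g i = ab.1 * ab.2 ∧ ¬ IsUnit ab.1 ∧ ¬ IsUnit ab.2 := by
    intro i
    by_cases h2 : ∃ a b : MvPolynomial (Fin n) (κ i), g i = a * b ∧ ¬ IsUnit a ∧ ¬ IsUnit b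
    · obtain ⟨a, b, hab⟩ := h2
      exact ⟨(a, b), fun _ => hab⟩
    · exact ⟨(0, 0), fun h3 => absurd h3 h2⟩
  choose ab hab using h1
  have h2 : ∀ᶠ i in (U : Filter I), g i = (ab i).1 * (ab i).2 ∧ ¬ IsUnit (ab i).1 ∧ ¬ IsUnit (ab i).2 := by
    filter_upwards [h0] with i hi
    exact hab i hi
  have hdeg : ∀ᶠ i in (U : Filter I), (ab i).1.totalDegree ≤ d ∧ (ab i).2.totalDegree ≤ d := by
    filter_upwards [h2, hd, rep_ne h hf.ne_zero] with i h3 h4 h5
    have h6 : (ab i).1 ≠ 0 := by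
      intro h7
      apply h5
      rw [h3.1, h7, zero_mul]
    have h7 : (ab i).2 ≠ 0 := by
      intro h7
      apply h5
      rw [h3.1, h7, mul_zero]
    have h8 := MvPolynomial.totalDegree_mul_of_isDomain h6 h7
    rw [← h3.1] at h8
    omega
  obtain ⟨fa, hfa⟩ := rep_limit L (fun i => (ab i).1) d (hdeg.mono fun i hi => hi.1)
  obtain ⟨fb, hfb⟩ := rep_limit L (fun i => (ab i).2) d (hdeg.mono fun i hi => hi.2)
  have h3 : f = fa * fb := rep_eq h (rep_congr (rep_mul hfa hfb) (h2.mono fun i hi => hi.1.symm))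
  rcases hf.isUnit_or_isUnit h3 with h4 | h4
  · obtain ⟨i, hi, hi'⟩ := ((rep_unit hfa h4).and h2).exists
    exact hi'.2.1 hi
  · obtain ⟨i, hi, hi'⟩ := ((rep_unit hfb h4).and h2).exists
    exact hi'.2.2 hi

end Pool.Agent.Lib.MP_4318ff_ag.Q
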