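import Pool.Agent.Lib.MP_4318ff_ag.Q.UGau
import Pool.Agent.Lib.MP_4318ff_ag.Q.UEval
import Pool.Agent.Lib.MP_4318ff_ag.Q.UIrr
import Pool.Agent.Lib.MP_4318ff_ag.Q.UClr

/-!
# Minimal polynomials are represented by minimal polynomials

PROOF. `Δ ∈ k[t, s]`, `Δ ≠ 0`, `d = cv Δ`, with `d z` integral over `k[t, s]` (`z` is algebraic over `k(t,s)`). `exists_monP` for `d z`: `P` irreducible, coefficients `c l`. Represent `c l`, `Δ` by `ci l`, `Δi` (`rep_exists`); then
`Pi i = X2^m + ∑ rename (ci l i) X2^l` represents `P` (`rep_add, rep_sum, rep_mul, rep_pow, rep_X, rep_rename`), it is eventually irreducible (`rep_irreducible`) and `Pi(ti, si, di wi) = 0` eventually (`R_aeval3`, `R_eq` with `R_zero`), `di = cv Δi`. By `monP_minpoly` in `Ki i` the minimal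
polynomial of `di wi` over `κi(ti, si)` has degree `m` and the coefficients `cv(ci l)`. The minimal polynomial of `z = d⁻¹ (d z)` has the coefficients `cv(c l)/d^(m-l)` (scaling: `minpoly` of `b z` for `b` a nonzero element of the base field, e.g. `Polynomial.scaleRoots` or
`minpoly.eq_of_irreducible_of_monic`), in `Ki i` the same: `cv(ci l i)/di^(m-l)`. For `l = m`: both are `1`; for `l > m`: `0`.
-/

set_option autoImplicit false

namespace Pool.Agent.Lib.MP_4318ff_ag.Q

open Filter MvPolynomial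

private theorem UMin_scale {F K : Type} [Field F] [Field K] [Algebra F K] {b : F} (hb : b ≠ 0) {z : K}
    (hz : IsIntegral F z) : minpoly F (algebraMap F K b * z) = Polynomial.scaleRoots (minpoly F z) b := by
  have hz' : IsIntegral F (algebraMap F K b * z) := isIntegral_algebraMap.mul hz
  refine (minpoly.unique F _ ?_ ?_ ?_).symm
  · exact (Polynomial.monic_scaleRoots_iff b).2 (minpoly.monic hz)
  · exact Polynomial.scaleRoots_aeval_eq_zero (minpoly.aeval F z)
  · intro q hq hq0
    have h1 : Polynomial.aeval z (Polynomial.scaleRoots q b⁻¹) = 0 := by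
      have h2 : Polynomial.aeval (algebraMap F K b⁻¹ * (algebraMap F K b * z)) (Polynomial.scaleRoots q b⁻¹) = 0 :=
        Polynomial.scaleRoots_aeval_eq_zero hq0
      have h3 : algebraMap F K b⁻¹ * (algebraMap F K b * z) = z := by
        rw [← mul_assoc, ← map_mul, inv_mul_cancel₀ hb, map_one, one_mul]
      rwa [h3] at h2
    have h4 := minpoly.min F z ((Polynomial.monic_scaleRoots_iff b⁻¹).2 hq) h1
    rw [Polynomial.degree_scaleRoots] at h4 ⊢
    exact h4

private theorem UMin_key {k K : Type} [Field k] [Field K] [Algebra k K] {t s : K} (hc : Coord k t s) {z : K}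
    {Δ : MvPolynomial (Fin 2) k} (hΔ : Δ ≠ 0) {P : MvPolynomial (Fin 3) k} {m : ℕ} {c : ℕ → MvPolynomial (Fin 2) k}
    (hP : Irreducible P) (hm : 0 < m) (hPm : MonP P m c) (hz : aeval ![t, s, cv t s Δ * z] P = 0) :
    (minpoly (FF k t s) z).natDegree = m ∧
      ∀ l, ((minpoly (FF k t s) z).coeff l : K) =
        if l < m then cv t s (c l) / cv t s Δ ^ (m - l) else if l = m then 1 else 0 := by
  haveI := hc.fin
  obtain ⟨h1, h2⟩ := monP_minpoly hc hP hm hPm hz
  have hz' : IsIntegral (FF k t s) z := Algebra.IsIntegral.isIntegral z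
  have hd : cv t s Δ ≠ 0 := hc.cv_ne hΔ
  let b : FF k t s := ⟨cv t s Δ, cv_mem_FF t s Δ⟩
  have hb : b ≠ 0 := fun h => hd (congrArg Subtype.val h)
  have h3 : minpoly (FF k t s) (cv t s Δ * z) = Polynomial.scaleRoots (minpoly (FF k t s) z) b := UMin_scale hb hz'
  rw [h3, Polynomial.natDegree_scaleRoots] at h1
  refine ⟨h1, fun l => ?_⟩
  split_ifs with h4 h5
  · have h6 := h2 l h4
    rw [h3, Polynomial.coeff_scaleRoots, h1] at h6
    rw [eq_div_iff (pow_ne_zero _ hd), ← h6]
    push_cast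
    rfl
  · subst h5
    rw [← h1]
    have := minpoly.monic hz'
    have h7 : (minpoly (FF k t s) z).coeff (minpoly (FF k t s) z).natDegree = 1 := this
    rw [h7]
    rfl
  · rw [Polynomial.coeff_eq_zero_of_natDegree_lt (by omega)]
    rfl

variable {I : Type} {U : Ultrafilter I} {κ : I → Type} [∀ i, Field (κ i)] {k : Type} [Field k] {L : LimD U κ k}
  {K : Type} [Field K] [Algebra k K] {Ki : I → Type} [∀ i, Field (Ki i)] [∀ i, Algebra (κ i) (Ki i)]

theorem R_minpoly (E : Emb L K Ki) {t s : K} {ti si : ∀ i, Ki i} (hc : Coord k t s)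
    (hci : ∀ᶠ i in (U : Filter I), Coord (κ i) (ti i) (si i)) (ht : E.R t ti) (hs : E.R s si) {z : K} {w : ∀ i, Ki i}
    (hz : E.R z w) :
    (∀ᶠ i in (U : Filter I), (minpoly (FF (κ i) (ti i) (si i)) (w i)).natDegree = (minpoly (FF k t s) z).natDegree) ∧
    ∀ l, E.R ((minpoly (FF k t s) z).coeff l : K) (fun i => ((minpoly (FF (κ i) (ti i) (si i)) (w i)).coeff l : Ki i)) := by
  classical
  obtain ⟨Δ, hΔ, hQ⟩ := exists_Q hc {z}
  obtain ⟨P, m, c, hP, hm, hPm, h0⟩ := exists_monP hc (hQ z (Finset.mem_singleton_self z))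
  obtain ⟨Δi, hΔi, -⟩ := rep_exists L Δ
  choose ci hci' _ using fun l => rep_exists L (c l)
  have hrep : L.Rep P (fun i => X 2 ^ m + ∑ l ∈ Finset.range m, rename (Fin.castSucc : Fin 2 → Fin 3) (ci l i) * X 2 ^ l) := by
    rw [hPm]
    exact rep_add (rep_pow (rep_X 2) m)
      (rep_sum _ (fun l _ => rep_mul (rep_rename _ (hci' l)) (rep_pow (rep_X 2) l)))
  have h1 := rep_irreducible hrep hP
  have h2 := R_aeval3 E ht hs (E.R_mul (R_cv E ht hs hΔi) hz) hrep
  rw [h0] at h2
  have h3 := E.R_eq h2 E.R_zero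
  have h4 := rep_ne hΔi hΔ
  obtain ⟨k1, k2⟩ := UMin_key hc hΔ hP hm hPm h0
  have key : ∀ᶠ i in (U : Filter I), (minpoly (FF (κ i) (ti i) (si i)) (w i)).natDegree = m ∧
      ∀ l, ((minpoly (FF (κ i) (ti i) (si i)) (w i)).coeff l : Ki i) =
        if l < m then cv (ti i) (si i) (ci l i) / cv (ti i) (si i) (Δi i) ^ (m - l) else if l = m then 1 else 0 := by
    filter_upwards [h1, h3, h4, hci] with i f1 f2 f3 f4
    exact UMin_key (c := fun l => ci l i) f4 f3 f1 hm rfl f2
  refine ⟨key.mono fun i hi => by rw [hi.1, k1], fun l => ?_⟩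
  refine E.R_congr (w := fun i => if l < m then cv (ti i) (si i) (ci l i) / cv (ti i) (si i) (Δi i) ^ (m - l) else
    if l = m then 1 else 0) ?_ (key.mono fun i hi => (hi.2 l).symm)
  rw [k2 l]
  split_ifs with h5 h6
  · exact E.R_div (R_cv E ht hs (hci' l)) (E.R_pow (R_cv E ht hs hΔi) _)
  · exact E.R_one
  · exact E.R_zero

end Pool.Agent.Lib.MP_4318ff_ag.Q
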