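import Pool.Agent.Lib.MP_4318ff_ag.Q.UFrac
import Pool.Agent.Lib.MP_4318ff_ag.Q.UMin

/-!
# Automorphisms transfer

PROOF. `exists_monP` for `θ`: `P, m, c`, `Irreducible P`, `aeval ![t, s, θ] P = 0`. As `h` is the identity on `k[t, s]`, `aeval ![t, s, h θ] P = h (aeval ![t, s, θ] P) = 0`. Represent `c l` by `ci l`, `Pi i = X2^m + ∑ rename (ci l i) X2^l`: it represents `P`, is eventually irreducible (`rep_irreducible`), and if `θ'i` represents `h θ`
(`E.exists_R`) then eventually `aeval ![ti, si, θi] Pi = 0`, `aeval ![ti, si, θ'i] Pi = 0` (`R_aeval3`, `R_eq` with `R_zero`). So eventually `exists_aut` (`UFrac`) gives `hi i` with `hi i ti = ti`, `hi i si = si`, `hi i (θi i) = θ'i i` (for the other `i` take the identity). Let `z ∈ K`, `w` represent `z`: `cv Δ * z = ∑_(l<N) cv (g l) * θ^l`, `Δ ≠ 0`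
(`exists_expansion`); represent `Δ, g l` by `Δi, gi l`: eventually `cv Δi * w i = ∑ cv (gi l) * θi^l`, `cv Δi ≠ 0`; apply `hi`: `cv Δi * hi (w i) = ∑ cv (gi l) * θ'i^l` (`hi` fixes `cv (ti) (si) G`). And `cv Δ * h z = ∑ cv (g l) * (h θ)^l`. So `h z = (∑ cv (g l) (h θ)^l)/cv Δ` is represented by `(∑ cv (gi l) θ'i^l)/cv Δi`, which is eventually
`hi (w i)` (`R_div, R_sum, R_mul, R_pow, R_cv`, `R_congr`).
-/

set_option autoImplicit false

namespace Pool.Agent.Lib.MP_4318ff_ag.Q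

variable {I : Type} {U : Ultrafilter I} {κ : I → Type} [∀ i, Field (κ i)] {k : Type} [Field k] {L : LimD U κ k}
  {K : Type} [Field K] [Algebra k K] {Ki : I → Type} [∀ i, Field (Ki i)] [∀ i, Algebra (κ i) (Ki i)]

open Filter MvPolynomial

private theorem aut_cv {k K : Type} [Field k] [Field K] [Algebra k K] {t s : K} (h : K ≃ₐ[k] K) (ht : h t = t)
    (hs : h s = s) (G : MvPolynomial (Fin 2) k) : h (cv t s G) = cv t s G := by
  have h1 : ((h : K →ₐ[k] K).comp (cv t s)) = cv t s := by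
    apply MvPolynomial.algHom_ext
    intro i
    fin_cases i
    · simpa using ht
    · simpa using hs
  exact DFunLike.congr_fun h1 G

private theorem aut_aeval3 {k K : Type} [Field k] [Field K] [Algebra k K] {t s z : K} (h : K ≃ₐ[k] K) (ht : h t = t)
    (hs : h s = s) (P : MvPolynomial (Fin 3) k) : h (aeval ![t, s, z] P) = aeval ![t, s, h z] P := by
  have h1 : ((h : K →ₐ[k] K).comp (aeval ![t, s, z])) = aeval ![t, s, h z] := by
    apply MvPolynomial.algHom_ext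
    intro i
    fin_cases i
    · simpa using ht
    · simpa using hs
    · simp
  exact DFunLike.congr_fun h1 P

theorem exists_hi {E : Emb L K Ki} {t s θ : K} {ti si θi : ∀ i, Ki i} (S : USetup E t s θ ti si θi)
    (hθ : θ ∈ ic (pol k t s)) (h : K ≃ₐ[k] K) (ht : h t = t) (hs : h s = s) :
    ∃ hi : ∀ i, Ki i ≃ₐ[κ i] Ki i, (∀ᶠ i in (U : Filter I), hi i (ti i) = ti i ∧ hi i (si i) = si i) ∧
      ∀ z w, E.R z w → E.R (h z) (fun i => hi i (w i)) := by
  obtain ⟨P, m, c, hP, hm, hPm, hz⟩ := exists_monP S.hc hθ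
  have hz' : aeval ![t, s, h θ] P = 0 := by
    rw [← aut_aeval3 h ht hs, hz, map_zero]
  choose ci hci hcd using fun l => rep_exists L (c l)
  obtain ⟨θ'i, hθ'⟩ := E.exists_R (h θ)
  set Pi : ∀ i, MvPolynomial (Fin 3) (κ i) := fun i =>
    X 2 ^ m + ∑ l ∈ Finset.range m, rename (Fin.castSucc : Fin 2 → Fin 3) (ci l i) * X 2 ^ l with hPi
  have hrep : L.Rep P Pi := by
    have h1 : L.Rep (X 2 ^ m + ∑ l ∈ Finset.range m, rename (Fin.castSucc : Fin 2 → Fin 3) (c l) * X 2 ^ l) Pi :=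
      rep_add (rep_pow (rep_X 2) m) (rep_sum _ fun l _ => rep_mul (rep_rename _ (hci l)) (rep_pow (rep_X 2) l))
    have h2 : P = X 2 ^ m + ∑ l ∈ Finset.range m, rename (Fin.castSucc : Fin 2 → Fin 3) (c l) * X 2 ^ l := hPm
    rwa [← h2] at h1
  have e1 := rep_irreducible hrep hP
  have e2 : ∀ᶠ i in (U : Filter I), aeval ![ti i, si i, θi i] (Pi i) = 0 := by
    have h1 := R_aeval3 E S.rt S.rs S.rθ hrep
    rw [hz] at h1
    exact E.R_eq h1 E.R_zero
  have e3 : ∀ᶠ i in (U : Filter I), aeval ![ti i, si i, θ'i i] (Pi i) = 0 := by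
    have h1 := R_aeval3 E S.rt S.rs hθ' hrep
    rw [hz'] at h1
    exact E.R_eq h1 E.R_zero
  have e4 : ∀ᶠ i in (U : Filter I), ∃ hi : Ki i ≃ₐ[κ i] Ki i,
      hi (ti i) = ti i ∧ hi (si i) = si i ∧ hi (θi i) = θ'i i := by
    filter_upwards [e1, e2, e3, S.hci, S.geni] with i h1 h2 h3 h4 h5
    exact exists_aut h4 h5 (m := m) (c := fun l => ci l i) h1 hm rfl h2 h3
  classical
  have e5 : ∀ i, ∃ hi : Ki i ≃ₐ[κ i] Ki i, (∃ hi : Ki i ≃ₐ[κ i] Ki i,
      hi (ti i) = ti i ∧ hi (si i) = si i ∧ hi (θi i) = θ'i i) →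
      hi (ti i) = ti i ∧ hi (si i) = si i ∧ hi (θi i) = θ'i i := by
    intro i
    by_cases h1 : ∃ hi : Ki i ≃ₐ[κ i] Ki i, hi (ti i) = ti i ∧ hi (si i) = si i ∧ hi (θi i) = θ'i i
    · obtain ⟨hi, h2⟩ := h1
      exact ⟨hi, fun _ => h2⟩
    · exact ⟨AlgEquiv.refl, fun h2 => absurd h2 h1⟩
  choose hi hhi using e5
  have e6 : ∀ᶠ i in (U : Filter I), hi i (ti i) = ti i ∧ hi i (si i) = si i ∧ hi i (θi i) = θ'i i := by
    filter_upwards [e4] with i h1
    exact hhi i h1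
  refine ⟨hi, e6.mono fun i h1 => ⟨h1.1, h1.2.1⟩, ?_⟩
  intro z w hzw
  obtain ⟨Δ, g, hΔ, hexp⟩ := exists_expansion S.hc S.gen z
  obtain ⟨Δi, hΔi, -⟩ := rep_exists L Δ
  choose gi hgi hgd using fun l => rep_exists L (g l)
  set N := Module.finrank (FF k t s) K with hN
  have f1 : ∀ᶠ i in (U : Filter I), cv (ti i) (si i) (Δi i) * w i =
      ∑ l ∈ Finset.range N, cv (ti i) (si i) (gi l i) * θi i ^ l := by
    have h1 := E.R_mul (R_cv E S.rt S.rs hΔi) hzw
    rw [hexp] at h1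
    exact E.R_eq h1 (E.R_sum _ fun l _ => E.R_mul (R_cv E S.rt S.rs (hgi l)) (E.R_pow S.rθ l))
  have f2 : h z = (∑ l ∈ Finset.range N, cv t s (g l) * h θ ^ l) / cv t s Δ := by
    have h1 := congrArg h hexp
    rw [map_mul, map_sum, aut_cv h ht hs] at h1
    rw [eq_div_iff (S.hc.cv_ne hΔ), mul_comm, h1]
    refine Finset.sum_congr rfl fun l _ => ?_
    rw [map_mul, map_pow, aut_cv h ht hs]
  rw [f2]
  have f3 := E.R_div (E.R_sum (Finset.range N) (z := fun l => cv t s (g l) * h θ ^ l)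
    (w := fun l i => cv (ti i) (si i) (gi l i) * θ'i i ^ l)
    fun l _ => E.R_mul (R_cv E S.rt S.rs (hgi l)) (E.R_pow hθ' l)) (R_cv E S.rt S.rs hΔi)
  refine E.R_congr f3 ?_
  filter_upwards [f1, e6, S.hci, rep_ne hΔi hΔ] with i h1 h2 h3 h4
  have h5 : cv (ti i) (si i) (Δi i) ≠ 0 := h3.cv_ne h4
  rw [div_eq_iff h5, mul_comm]
  have h6 := congrArg (hi i) h1
  rw [map_mul, map_sum, aut_cv (hi i) h2.1 h2.2.1] at h6
  rw [h6]
  refine Finset.sum_congr rfl fun l _ => ?_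
  rw [map_mul, map_pow, aut_cv (hi i) h2.1 h2.2.1, h2.2.2]

end Pool.Agent.Lib.MP_4318ff_ag.Q
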