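import Pool.Agent.Lib.MP_4318ff_ag.Q.UAri

/-!
# Divisibility

PROOF. `→`: `f' = f h`, represent `h`, `rep_mul` and `rep_unique`. `←`: if `f' = 0` trivial. Otherwise eventually `g' i ≠ 0`, `g' i = g i h i`, and `totalDegree (h i) ≤ totalDegree (g' i) ≤ d`
(`MvPolynomial.totalDegree_mul_of_isDomain`), so the family `h` (choose `h i = 0` where no quotient exists) has a limit `h` (`rep_limit`), and `f' = f h` (`rep_eq`). `rep_not_dvd`: `Ultrafilter.eventually_not`.
-/

set_option autoImplicit false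

namespace Pool.Agent.Lib.MP_4318ff_ag.Q

open Filter MvPolynomial

variable {I : Type} {U : Ultrafilter I} {κ : I → Type} [∀ i, Field (κ i)] {k : Type} [Field k] {L : LimD U κ k} {n : ℕ}

theorem rep_dvd {f f' : MvPolynomial (Fin n) k} {g g' : ∀ i, MvPolynomial (Fin n) (κ i)} (h : L.Rep f g) (h' : L.Rep f' g') :
    f ∣ f' ↔ ∀ᶠ i in (U : Filter I), g i ∣ g' i := by
  classical
  constructor
  · rintro ⟨q, rfl⟩
    obtain ⟨r, hr, -⟩ := rep_exists L q
    filter_upwards [rep_unique h' (rep_mul h hr)] with i hi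
    rw [hi]
    exact dvd_mul_right _ _
  · intro hd
    by_cases hf : f' = 0
    · rw [hf]
      exact dvd_zero _
    obtain ⟨⟨d, hd'⟩, -⟩ := id h'
    obtain ⟨r, hr⟩ : ∃ r : ∀ i, MvPolynomial (Fin n) (κ i), ∀ i, g i ∣ g' i → g' i = g i * r i := by
      refine ⟨fun i => if hi : g i ∣ g' i then hi.choose else 0, fun i hi => ?_⟩
      simp only [dif_pos hi]
      exact hi.choose_spec
    obtain ⟨q, hq⟩ := rep_limit L r d (by
      filter_upwards [hd, hd', rep_ne h' hf] with i h1 h2 h3
      have e := hr i h1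
      have hg : g i ≠ 0 := by
        intro h0
        rw [h0, zero_mul] at e
        exact h3 e
      have hri : r i ≠ 0 := by
        intro h0
        rw [h0, mul_zero] at e
        exact h3 e
      rw [e, totalDegree_mul_of_isDomain hg hri] at h2
      omega)
    have h4 : L.Rep (f * q) g' := by
      refine rep_congr (rep_mul h hq) ?_
      filter_upwards [hd] with i h1
      exact (hr i h1).symm
    exact ⟨q, rep_eq h' h4⟩

theorem rep_not_dvd {f f' : MvPolynomial (Fin n) k} {g g' : ∀ i, MvPolynomial (Fin n) (κ i)} (h : L.Rep f g)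
    (h' : L.Rep f' g') : ¬ f ∣ f' ↔ ∀ᶠ i in (U : Filter I), ¬ g i ∣ g' i := by
  rw [rep_dvd h h', ← Ultrafilter.eventually_not]

end Pool.Agent.Lib.MP_4318ff_ag.Q
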