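import Pool.Agent.Lib.MP_4318ff_ag.Q.UAdj
import Pool.Agent.Lib.MP_4318ff_ag.Q.UDiv
import Pool.Agent.Lib.MP_4318ff_ag.Q.UIrr
import Pool.Agent.Lib.MP_4318ff_ag.Q.LocUFD

/-!
# Transfer of local rings

PROOF. `Tr_loc`: by `Tr_adjoin'` it is enough to treat `z = G(t,s)/H(t,s)`, `π ∤ H`. Represent `G, H` by `Gi, Hi`: `z` is represented by `Gi(ti,si)/Hi(ti,si)` (`R_cv`, `R_div`), and eventually `πi i ∤ Hi i`
(`rep_not_dvd`); such quotients are in `loc` (definition). `loc_desc`: `c ∈ FF`: `c = G/H` in lowest terms (`exists_coprime`). Suppose `π ∣ H`, then `π ∤ G` (`π` is not a unit). Represent `G, H`: eventually `πi ∣ Hi`, `πi ∤ Gi`, `ci i * cv Hi = cv Gi`, `Hi ≠ 0`, `πi` prime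
(`rep_irreducible`, `irreducible_iff_prime` in the UFD), and `ci i ∈ loc` gives `ci i * cv H' = cv G'`, `πi ∤ H'` (`mem_loc`). So `G' Hi = Gi H'` (injectivity of `cv`), and `πi` divides `Gi H'`: contradiction. So `π ∤ H` and `c ∈ loc`.
-/

set_option autoImplicit false

namespace Pool.Agent.Lib.MP_4318ff_ag.Q

open Filter MvPolynomial

variable {I : Type} {U : Ultrafilter I} {κ : I → Type} [∀ i, Field (κ i)] {k : Type} [Field k] {L : LimD U κ k}
  {K : Type} [Field K] [Algebra k K] {Ki : I → Type} [∀ i, Field (Ki i)] [∀ i, Algebra (κ i) (Ki i)]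

theorem Tr_loc (E : Emb L K Ki) {t s : K} {ti si : ∀ i, Ki i} (ht : E.R t ti) (hs : E.R s si)
    {π : MvPolynomial (Fin 2) k} {πi : ∀ i, MvPolynomial (Fin 2) (κ i)} (hπ : L.Rep π πi) :
    E.Tr (loc t s π) (fun i => loc (ti i) (si i) (πi i)) := by
  refine Tr_adjoin' E fun z hz => ?_
  obtain ⟨G, H, hH, rfl⟩ := hz
  obtain ⟨Gi, hGi, -⟩ := rep_exists L G
  obtain ⟨Hi, hHi, -⟩ := rep_exists L H
  refine ⟨fun i => cv (ti i) (si i) (Gi i) / cv (ti i) (si i) (Hi i),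
    E.R_div (R_cv E ht hs hGi) (R_cv E ht hs hHi), ?_⟩
  filter_upwards [(rep_not_dvd hπ hHi).1 hH] with i hi
  exact Algebra.subset_adjoin ⟨Gi i, Hi i, hi, rfl⟩

theorem rep_prime {π : MvPolynomial (Fin 2) k} {πi : ∀ i, MvPolynomial (Fin 2) (κ i)} (hπ : L.Rep π πi) (h : Prime π) :
    ∀ᶠ i in (U : Filter I), Prime (πi i) := by
  filter_upwards [rep_irreducible hπ h.irreducible] with i hi
  exact UniqueFactorizationMonoid.irreducible_iff_prime.1 hi

theorem loc_desc (E : Emb L K Ki) {t s : K} {ti si : ∀ i, Ki i} (hc : Coord k t s)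
    (hci : ∀ᶠ i in (U : Filter I), Coord (κ i) (ti i) (si i)) (ht : E.R t ti) (hs : E.R s si)
    {π : MvPolynomial (Fin 2) k} {πi : ∀ i, MvPolynomial (Fin 2) (κ i)} (hπ : L.Rep π πi) (hp : Prime π)
    {c : K} {ci : ∀ i, Ki i} (hcF : c ∈ FF k t s) (hR : E.R c ci)
    (h : ∀ᶠ i in (U : Filter I), ci i ∈ loc (ti i) (si i) (πi i)) : c ∈ loc t s π := by
  obtain ⟨G, H, hH, hGH, e⟩ := exists_coprime hc hcF
  rw [mem_loc_coprime hc hp hH hGH e]
  intro hdvd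
  have hG : ¬ π ∣ G := fun hG => hp.not_isUnit (hGH hG hdvd)
  obtain ⟨Gi, hGi, -⟩ := rep_exists L G
  obtain ⟨Hi, hHi, -⟩ := rep_exists L H
  have h1 := E.R_mul hR (R_cv E ht hs hHi)
  rw [e] at h1
  obtain ⟨i, h2, h3, h4, h5, h6, h7⟩ := ((E.R_eq h1 (R_cv E ht hs hGi)).and (((rep_dvd hπ hHi).1 hdvd).and
    (((rep_not_dvd hπ hGi).1 hG).and ((rep_prime hπ hp).and (hci.and h))))).exists
  obtain ⟨G', H', hH', e'⟩ := (mem_loc h6 h5).1 h7
  have h8 : G' * Hi i = Gi i * H' := by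
    apply h6.inj
    rw [map_mul, map_mul, ← h2, ← e']
    ring
  have h9 : πi i ∣ Gi i * H' := by
    rw [← h8]
    exact h3.mul_left _
  rcases h5.dvd_or_dvd h9 with h10 | h10
  · exact h4 h10
  · exact hH' h10

end Pool.Agent.Lib.MP_4318ff_ag.Q
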