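import Pool.Agent.Lib.MP_4318ff_ag.Q.UFam
import Pool.Agent.Lib.MP_4318ff_ag.Q.ULoc

/-!
# Compatibility transfers

PROOF. `ne`: `T.2 ≠ 0`, `rep T.2 i ≠ 0` eventually (`L.ker` and `hrep`), finitely many `T`. `c1`: `Tr_adjoin'` for `k[t, t⁻¹, s, (s - T.2)⁻¹, (s - T.2 t)⁻¹]` (every generator is represented by the corresponding generator), `Tr_ic`, `R_sub`. `c2`: `Tr_loc` with `π = X 1 - C T.2`, represented by `X 1 - C (rep T.2 i)` (`rep_sub, rep_X, rep_C`), `Tr_ic`; the points of `Di i` are the `rep T` (`hD.pts`). `c3`: `X 1 - C T.2 * X 0`.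
`c4`: `locI k t s = loc t s⁻¹ (X 1)`: `Tr_loc` with `R_inv`.
-/

set_option autoImplicit false

namespace Pool.Agent.Lib.MP_4318ff_ag.Q

variable {I : Type} {U : Ultrafilter I} {κ : I → Type} [∀ i, Field (κ i)] {k : Type} [Field k] {L : LimD U κ k}
  {K : Type} [Field K] [Algebra k K] {Ki : I → Type} [∀ i, Field (Ki i)] [∀ i, Algebra (κ i) (Ki i)]

open Filter MvPolynomial

private theorem uc_ne {rep : k → ∀ i, κ i} (hrep : ∀ c, L.lim (rep c) = c) {c : k} (hc : c ≠ 0) :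
    ∀ᶠ i in (U : Filter I), ¬ rep c i = 0 := by
  rw [Ultrafilter.eventually_not, ← L.ker, hrep]
  exact hc

private theorem uc_const (E : Emb L K Ki) {rep : k → ∀ i, κ i} (hrep : ∀ c, L.lim (rep c) = c) (c : k) :
    E.R (algebraMap k K c) (fun i => algebraMap (κ i) (Ki i) (rep c i)) := by
  have h := E.R_const (rep c)
  rwa [hrep] at h

private theorem uc_mem (E : Emb L K Ki) {rep : k → ∀ i, κ i} {D : Fam k K} {Di : ∀ i, Fam (κ i) (Ki i)}
    (hD : E.FamR rep D Di) {T : k × k} (hT : T ∈ D.pts) (i : I) : (rep T.1 i, rep T.2 i) ∈ (Di i).pts := by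
  rw [← Finset.mem_coe, hD.pts i]
  exact ⟨T, hT, rfl⟩

private theorem uc_of_mem (E : Emb L K Ki) {rep : k → ∀ i, κ i} {D : Fam k K} {Di : ∀ i, Fam (κ i) (Ki i)}
    (hD : E.FamR rep D Di) {i : I} {P : κ i × κ i} (hP : P ∈ (Di i).pts) :
    ∃ T ∈ D.pts, (rep T.1 i, rep T.2 i) = P := by
  rw [← Finset.mem_coe, hD.pts i] at hP
  obtain ⟨T, hT, h⟩ := hP
  exact ⟨T, hT, h⟩

/-- A statement about the points of `Di i` holds eventually if it holds eventually for every point of `D`. -/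
private theorem uc_all (E : Emb L K Ki) {rep : k → ∀ i, κ i} {D : Fam k K} {Di : ∀ i, Fam (κ i) (Ki i)}
    (hD : E.FamR rep D Di) {Q : ∀ i, κ i × κ i → Prop}
    (h : ∀ T ∈ D.pts, ∀ᶠ i in (U : Filter I), Q i (rep T.1 i, rep T.2 i)) :
    ∀ᶠ i in (U : Filter I), ∀ P ∈ (Di i).pts, Q i P := by
  filter_upwards [(Filter.eventually_all_finset D.pts).2 h] with i hi P hP
  obtain ⟨T, hT, rfl⟩ := uc_of_mem E hD hP
  exact hi T hT

theorem compat_tr (E : Emb L K Ki) {rep : k → ∀ i, κ i} (hrep : ∀ c, L.lim (rep c) = c) {t s : K} {ti si : ∀ i, Ki i}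
    (ht : E.R t ti) (hs : E.R s si) {D D' : Fam k K} {Di Di' : ∀ i, Fam (κ i) (Ki i)} (hD : E.FamR rep D Di)
    (hD' : E.FamR rep D' Di') (h : Compat t s D D') :
    ∀ᶠ i in (U : Filter I), Compat (ti i) (si i) (Di i) (Di' i) := by
  have hc1 : E.Tr (ic (Algebra.adjoin k ({t, t⁻¹, s} ∪ {x | ∃ T ∈ D.pts, x = (s - algebraMap k K T.2)⁻¹} ∪
      {x | ∃ T ∈ D'.pts, x = (s - algebraMap k K T.2 * t)⁻¹})))
      (fun i => ic (Algebra.adjoin (κ i) ({ti i, (ti i)⁻¹, si i} ∪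
        {x | ∃ T ∈ (Di i).pts, x = (si i - algebraMap (κ i) (Ki i) T.2)⁻¹} ∪
        {x | ∃ T ∈ (Di' i).pts, x = (si i - algebraMap (κ i) (Ki i) T.2 * ti i)⁻¹}))) := by
    refine Tr_ic E (Tr_adjoin' E fun z hz => ?_)
    rcases hz with (hz | ⟨T, hT, rfl⟩) | ⟨T, hT, rfl⟩
    · rcases hz with rfl | rfl | rfl
      · exact ⟨ti, ht, Filter.Eventually.of_forall fun i =>
          Algebra.subset_adjoin (Or.inl (Or.inl (Or.inl rfl)))⟩
      · exact ⟨fun i => (ti i)⁻¹, E.R_inv ht, Filter.Eventually.of_forall fun i =>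
          Algebra.subset_adjoin (Or.inl (Or.inl (Or.inr (Or.inl rfl))))⟩
      · exact ⟨si, hs, Filter.Eventually.of_forall fun i =>
          Algebra.subset_adjoin (Or.inl (Or.inl (Or.inr (Or.inr rfl))))⟩
    · exact ⟨fun i => (si i - algebraMap (κ i) (Ki i) (rep T.2 i))⁻¹, E.R_inv (E.R_sub hs (uc_const E hrep T.2)),
        Filter.Eventually.of_forall fun i =>
          Algebra.subset_adjoin (Or.inl (Or.inr ⟨(rep T.1 i, rep T.2 i), uc_mem E hD hT i, rfl⟩))⟩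
    · exact ⟨fun i => (si i - algebraMap (κ i) (Ki i) (rep T.2 i) * ti i)⁻¹,
        E.R_inv (E.R_sub hs (E.R_mul (uc_const E hrep T.2) ht)),
        Filter.Eventually.of_forall fun i =>
          Algebra.subset_adjoin (Or.inr ⟨(rep T.1 i, rep T.2 i), uc_mem E hD' hT i, rfl⟩)⟩
  have hne : ∀ᶠ i in (U : Filter I), ∀ P ∈ (Di i).pts, P.2 ≠ 0 :=
    uc_all E hD (Q := fun i P => P.2 ≠ 0) fun T hT => uc_ne hrep (h.ne T hT)
  have hne' : ∀ᶠ i in (U : Filter I), ∀ P ∈ (Di' i).pts, P.2 ≠ 0 :=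
    uc_all E hD' (Q := fun i P => P.2 ≠ 0) fun T hT => uc_ne hrep (h.ne' T hT)
  have hc2 : ∀ᶠ i in (U : Filter I), ∀ P ∈ (Di i).pts,
      (Di i).ρT P - (Di' i).ρ1 ∈ ic (loc (ti i) (si i) (X 1 - C P.2)) := by
    refine uc_all E hD (Q := fun i P => (Di i).ρT P - (Di' i).ρ1 ∈ ic (loc (ti i) (si i) (X 1 - C P.2))) fun T hT => ?_
    have hπ : L.Rep (X 1 - C T.2 : MvPolynomial (Fin 2) k) (fun i => X 1 - C (rep T.2 i)) := by
      have h1 := rep_sub (rep_X (L := L) (n := 2) 1) (rep_C (L := L) (n := 2) (rep T.2))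
      rwa [hrep] at h1
    exact Tr_ic E (Tr_loc E ht hs hπ) _ (h.c2 T hT) _ (E.R_sub (hD.rT T hT) hD'.r1)
  have hc3 : ∀ᶠ i in (U : Filter I), ∀ P ∈ (Di' i).pts,
      (Di i).ρ1 - (Di' i).ρT P ∈ ic (loc (ti i) (si i) (X 1 - C P.2 * X 0)) := by
    refine uc_all E hD' (Q := fun i P => (Di i).ρ1 - (Di' i).ρT P ∈ ic (loc (ti i) (si i) (X 1 - C P.2 * X 0)))
      fun T hT => ?_
    have hπ : L.Rep (X 1 - C T.2 * X 0 : MvPolynomial (Fin 2) k) (fun i => X 1 - C (rep T.2 i) * X 0) := by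
      have h1 := rep_sub (rep_X (L := L) (n := 2) 1)
        (rep_mul (rep_C (L := L) (n := 2) (rep T.2)) (rep_X (L := L) (n := 2) 0))
      rwa [hrep] at h1
    exact Tr_ic E (Tr_loc E ht hs hπ) _ (h.c3 T hT) _ (E.R_sub hD.r1 (hD'.rT T hT))
  have hc4 : ∀ᶠ i in (U : Filter I), (Di i).ρ3 - (Di' i).ρ3 ∈ ic (locI (κ i) (ti i) (si i)) :=
    Tr_ic E (Tr_loc E ht (E.R_inv hs) (rep_X (L := L) (n := 2) 1)) _ h.c4 _ (E.R_sub hD.r3 hD'.r3)
  filter_upwards [hne, hne', hc1 _ h.c1 _ (E.R_sub hD.r1 hD'.r1), hc2, hc3, hc4] with i h1 h2 h3 h4 h5 h6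
  exact ⟨h1, h2, h3, h4, h5, h6⟩

end Pool.Agent.Lib.MP_4318ff_ag.Q
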