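import Pool.Agent.Lib.MP_4318ff_ag.Q.UAri

/-!
# The rational function field embeds in the ultraproduct of the rational function fields

PROOF. Choose for every `f` a representing family `r f` (`rep_exists`). `f ↦ mkU (fun i => algebraMap (r f i))` is a ring homomorphism `MvPolynomial (Fin 2) k →+* UP U (F_i)` (`rep_add, rep_mul, rep_zero, rep_one` and `rep_unique`, `mkU_eq`), and a nonzero `f` goes to a unit: `r f i ≠ 0` eventually (`rep_ne`), the inverse is
`mkU (fun i => (algebraMap (r f i))⁻¹)`. So it extends to the fraction field (`IsLocalization.lift`, with `nonZeroDivisors`). For another representing family `g` use `rep_unique` again.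
-/

set_option autoImplicit false

namespace Pool.Agent.Lib.MP_4318ff_ag.Q

variable {I : Type} {U : Ultrafilter I} {κ : I → Type} [∀ i, Field (κ i)] {k : Type} [Field k]

open Filter MvPolynomial

/-- The ring homomorphism from polynomials to the ultraproduct of the rational function fields. -/
private theorem exists_pol (L : LimD U κ k) :
    ∃ φ : MvPolynomial (Fin 2) k →+* UP U (fun i => FractionRing (MvPolynomial (Fin 2) (κ i))),
      ∀ (f : MvPolynomial (Fin 2) k) (g : ∀ i, MvPolynomial (Fin 2) (κ i)), L.Rep f g →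
        φ f = mkU U (fun i => FractionRing (MvPolynomial (Fin 2) (κ i)))
          (fun i => algebraMap (MvPolynomial (Fin 2) (κ i)) (FractionRing (MvPolynomial (Fin 2) (κ i))) (g i)) := by
  choose r hr' using fun f : MvPolynomial (Fin 2) k => rep_exists L f
  have hr : ∀ f, L.Rep f (r f) := fun f => (hr' f).1
  have key : ∀ (f : MvPolynomial (Fin 2) k) (g : ∀ i, MvPolynomial (Fin 2) (κ i)), L.Rep f g →
      mkU U (fun i => FractionRing (MvPolynomial (Fin 2) (κ i)))
          (fun i => algebraMap (MvPolynomial (Fin 2) (κ i)) (FractionRing (MvPolynomial (Fin 2) (κ i))) (r f i)) =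
        mkU U (fun i => FractionRing (MvPolynomial (Fin 2) (κ i)))
          (fun i => algebraMap (MvPolynomial (Fin 2) (κ i)) (FractionRing (MvPolynomial (Fin 2) (κ i))) (g i)) := by
    intro f g hg
    rw [mkU_eq]
    filter_upwards [rep_unique (hr f) hg] with i hi
    rw [hi]
  refine ⟨⟨⟨⟨fun f => mkU U (fun i => FractionRing (MvPolynomial (Fin 2) (κ i)))
          (fun i => algebraMap (MvPolynomial (Fin 2) (κ i)) (FractionRing (MvPolynomial (Fin 2) (κ i))) (r f i)),
          ?_⟩, ?_⟩, ?_, ?_⟩, ?_⟩
  · rw [key 1 _ rep_one]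
    simp only [map_one]
    exact map_one _
  · intro f f'
    change mkU U (fun i => FractionRing (MvPolynomial (Fin 2) (κ i))) _ = _
    rw [key (f * f') _ (rep_mul (hr f) (hr f'))]
    simp only [map_mul]
    change _ = mkU U (fun i => FractionRing (MvPolynomial (Fin 2) (κ i))) _ *
      mkU U (fun i => FractionRing (MvPolynomial (Fin 2) (κ i))) _
    rw [← map_mul]
    rfl
  · change mkU U (fun i => FractionRing (MvPolynomial (Fin 2) (κ i))) _ = _
    rw [key 0 _ rep_zero]
    simp only [map_zero]
    exact map_zero _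
  · intro f f'
    change mkU U (fun i => FractionRing (MvPolynomial (Fin 2) (κ i))) _ = _
    rw [key (f + f') _ (rep_add (hr f) (hr f'))]
    simp only [map_add]
    change _ = mkU U (fun i => FractionRing (MvPolynomial (Fin 2) (κ i))) _ +
      mkU U (fun i => FractionRing (MvPolynomial (Fin 2) (κ i))) _
    rw [← map_add]
    rfl
  · intro f g hg
    exact key f g hg

theorem exists_fld (L : LimD U κ k) :
    ∃ ι : FractionRing (MvPolynomial (Fin 2) k) →+* UP U (fun i => FractionRing (MvPolynomial (Fin 2) (κ i))),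
      ∀ (f : MvPolynomial (Fin 2) k) (g : ∀ i, MvPolynomial (Fin 2) (κ i)), L.Rep f g →
        ι (algebraMap _ _ f) = mkU U (fun i => FractionRing (MvPolynomial (Fin 2) (κ i))) (fun i => algebraMap _ _ (g i)) := by
  obtain ⟨φ, hφ⟩ := exists_pol L
  have hu : ∀ y : nonZeroDivisors (MvPolynomial (Fin 2) k), IsUnit (φ y) := by
    intro y
    obtain ⟨g, hg, -⟩ := rep_exists L (y : MvPolynomial (Fin 2) k)
    have hy : (y : MvPolynomial (Fin 2) k) ≠ 0 := nonZeroDivisors.coe_ne_zero y
    have hne := rep_ne hg hy
    rw [hφ _ _ hg]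
    refine IsUnit.of_mul_eq_one (mkU U (fun i => FractionRing (MvPolynomial (Fin 2) (κ i)))
      (fun i => (algebraMap (MvPolynomial (Fin 2) (κ i)) (FractionRing (MvPolynomial (Fin 2) (κ i))) (g i))⁻¹)) ?_
    rw [← map_mul, ← map_one (mkU U (fun i => FractionRing (MvPolynomial (Fin 2) (κ i)))), mkU_eq]
    filter_upwards [hne] with i hi
    change algebraMap (MvPolynomial (Fin 2) (κ i)) (FractionRing (MvPolynomial (Fin 2) (κ i))) (g i) *
      (algebraMap (MvPolynomial (Fin 2) (κ i)) (FractionRing (MvPolynomial (Fin 2) (κ i))) (g i))⁻¹ = 1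
    refine mul_inv_cancel₀ ?_
    intro h0
    exact hi ((IsFractionRing.injective (MvPolynomial (Fin 2) (κ i)) (FractionRing (MvPolynomial (Fin 2) (κ i)))) (by
      rw [h0, map_zero]))
  refine ⟨IsLocalization.lift hu, ?_⟩
  intro f g hg
  rw [IsLocalization.lift_eq]
  exact hφ f g hg

end Pool.Agent.Lib.MP_4318ff_ag.Q
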