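import Pool.Agent.Lib.MP_4318ff_ag.Q.UFrac
import Pool.Agent.Lib.MP_4318ff_ag.Q.UEval
import Pool.Agent.Lib.MP_4318ff_ag.Q.UIrr
import Pool.Agent.Lib.MP_4318ff_ag.Q.UFld

/-!
# Embedding of `K` in an ultraproduct of function fields over the `κ i`

The minimal polynomial of `θ` is represented by polynomials `f_i` over the fields `F_i`, eventually irreducible and with nonzero
derivative, so separable; `exists_ext`, `exists_fld`, `exists_lift`.
-/

set_option autoImplicit false

namespace Pool.Agent.Lib.MP_4318ff_ag.Q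

variable {I : Type} {U : Ultrafilter I} {κ : I → Type} [∀ i, Field (κ i)] {k : Type} [Field k] {L : LimD U κ k}
  {K : Type} [Field K] [Algebra k K] {Ki : I → Type} [∀ i, Field (Ki i)] [∀ i, Algebra (κ i) (Ki i)]

open Filter MvPolynomial

/-- The polynomial with the given coefficients. -/
private noncomputable def uembP {F : Type} [Field F] (m : ℕ) (a : ℕ → F) : Polynomial F :=
  Polynomial.X ^ m + ∑ l ∈ Finset.range m, Polynomial.C (a l) * Polynomial.X ^ l

private theorem uembP_coeff {F : Type} [Field F] (m : ℕ) (a : ℕ → F) (n : ℕ) :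
    (uembP m a).coeff n = if n = m then 1 else if n < m then a n else 0 := by
  unfold uembP
  rw [Polynomial.coeff_add, Polynomial.coeff_X_pow, Polynomial.finsetSum_coeff]
  simp only [Polynomial.coeff_C_mul_X_pow]
  rw [Finset.sum_ite_eq]
  simp only [Finset.mem_range]
  by_cases h : n = m
  · subst h
    simp
  · rw [if_neg h, if_neg h, zero_add]

private theorem uembP_natDegree_le {F : Type} [Field F] (m : ℕ) (a : ℕ → F) : (uembP m a).natDegree ≤ m := by
  rw [Polynomial.natDegree_le_iff_coeff_eq_zero]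
  intro N hN
  rw [uembP_coeff, if_neg (by omega), if_neg (by omega)]

private theorem uembP_monic {F : Type} [Field F] (m : ℕ) (a : ℕ → F) : (uembP m a).Monic := by
  refine Polynomial.monic_of_natDegree_le_of_coeff_eq_one m (uembP_natDegree_le m a) ?_
  rw [uembP_coeff, if_pos rfl]

private theorem uembP_natDegree {F : Type} [Field F] (m : ℕ) (a : ℕ → F) : (uembP m a).natDegree = m := by
  refine Polynomial.natDegree_eq_of_le_of_coeff_ne_zero (uembP_natDegree_le m a) ?_
  rw [uembP_coeff, if_pos rfl]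
  exact one_ne_zero

private theorem uembP_eval₂ {F B : Type} [Field F] [CommRing B] (m : ℕ) (a : ℕ → F) (φ : F →+* B) (x : B) :
    (uembP m a).eval₂ φ x = x ^ m + ∑ l ∈ Finset.range m, φ (a l) * x ^ l := by
  unfold uembP
  rw [Polynomial.eval₂_add, Polynomial.eval₂_X_pow, Polynomial.eval₂_finsetSum]
  congr 1
  refine Finset.sum_congr rfl fun l _ => ?_
  rw [Polynomial.eval₂_mul, Polynomial.eval₂_C, Polynomial.eval₂_X_pow]

/-- separability of the polynomial of `θ` -/
private theorem uemb_sep {t s θ : K} (hc : Coord k t s) {P : MvPolynomial (Fin 3) k} {m : ℕ}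
    {c : ℕ → MvPolynomial (Fin 2) k} (hP : Irreducible P) (hm : 0 < m) (hPm : MonP P m c)
    (hz : aeval ![t, s, θ] P = 0) :
    (uembP m fun l => algebraMap (MvPolynomial (Fin 2) k) (FractionRing (MvPolynomial (Fin 2) k)) (c l)).Separable := by
  have := hc.fin
  have := hc.sep
  have hint : IsIntegral (FF k t s) θ := IsIntegral.of_finite _ _
  obtain ⟨h1, h2⟩ := monP_minpoly hc hP hm hPm hz
  let j₀ : FractionRing (MvPolynomial (Fin 2) k) →+* K :=
    IsFractionRing.lift (A := MvPolynomial (Fin 2) k) (g := ((cv t s : MvPolynomial (Fin 2) k →ₐ[k] K) :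
      MvPolynomial (Fin 2) k →+* K)) hc.inj
  have hj : ∀ G : MvPolynomial (Fin 2) k, j₀ (algebraMap _ _ G) = cv t s G := fun G =>
    IsFractionRing.lift_algebraMap _ _
  have h3 : (uembP m fun l => algebraMap (MvPolynomial (Fin 2) k) (FractionRing (MvPolynomial (Fin 2) k)) (c l)).map j₀ =
      (minpoly (FF k t s) θ).map (algebraMap (FF k t s) K) := by
    ext n
    rw [Polynomial.coeff_map, Polynomial.coeff_map, uembP_coeff]
    rcases lt_trichotomy n m with hn | hn | hn
    · rw [if_neg hn.ne, if_pos hn, hj]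
      exact (h2 n hn).symm
    · rw [if_pos hn, hn, ← h1, (minpoly.monic hint).coeff_natDegree, map_one, map_one]
    · rw [if_neg (by omega), if_neg (by omega), Polynomial.coeff_eq_zero_of_natDegree_lt (by omega), map_zero, map_zero]
  have h4 : ((minpoly (FF k t s) θ).map (algebraMap (FF k t s) K)).Separable :=
    (Polynomial.separable_map _).2 (Algebra.IsSeparable.isSeparable (FF k t s) θ)
  rw [← h3] at h4
  exact (Polynomial.separable_map _).1 h4

/-- the derivative transfers -/
private theorem uemb_der (L : LimD U κ k) (m : ℕ) {c : ℕ → MvPolynomial (Fin 2) k} {ci : ℕ → ∀ i, MvPolynomial (Fin 2) (κ i)}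
    (hci : ∀ l, L.Rep (c l) (ci l))
    (h : Polynomial.derivative (uembP m fun l =>
      algebraMap (MvPolynomial (Fin 2) k) (FractionRing (MvPolynomial (Fin 2) k)) (c l)) ≠ 0) :
    ∀ᶠ i in (U : Filter I), Polynomial.derivative (uembP m fun l =>
      algebraMap (MvPolynomial (Fin 2) (κ i)) (FractionRing (MvPolynomial (Fin 2) (κ i))) (ci l i)) ≠ 0 := by
  obtain ⟨n, hn⟩ : ∃ n, (Polynomial.derivative (uembP m fun l =>
      algebraMap (MvPolynomial (Fin 2) k) (FractionRing (MvPolynomial (Fin 2) k)) (c l))).coeff n ≠ 0 := by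
    by_contra hcon
    push Not at hcon
    exact h (Polynomial.ext fun n => by rw [hcon n, Polynomial.coeff_zero])
  rw [Polynomial.coeff_derivative, uembP_coeff] at hn
  have hN : L.Rep (((n + 1 : ℕ) : MvPolynomial (Fin 2) k)) (fun i => ((n + 1 : ℕ) : MvPolynomial (Fin 2) (κ i))) := by
    have h1 := rep_C (L := L) (n := 2) (fun i => ((n + 1 : ℕ) : κ i))
    have h2 : L.lim (fun i => ((n + 1 : ℕ) : κ i)) = ((n + 1 : ℕ) : k) := by
      have : (fun i => ((n + 1 : ℕ) : κ i)) = ((n + 1 : ℕ) : ∀ i, κ i) := rfl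
      rw [this, map_natCast]
    rw [h2, map_natCast] at h1
    have h3 : (fun i => (C ((n + 1 : ℕ) : κ i) : MvPolynomial (Fin 2) (κ i))) =
        fun i => ((n + 1 : ℕ) : MvPolynomial (Fin 2) (κ i)) := by
      funext i
      rw [map_natCast]
    rwa [h3] at h1
  have key : ∀ (G : MvPolynomial (Fin 2) k) (g : ∀ i, MvPolynomial (Fin 2) (κ i)), L.Rep G g →
      algebraMap (MvPolynomial (Fin 2) k) (FractionRing (MvPolynomial (Fin 2) k)) G * ((n : FractionRing (MvPolynomial (Fin 2) k)) + 1) ≠ 0 →
      ∀ᶠ i in (U : Filter I), algebraMap (MvPolynomial (Fin 2) (κ i)) (FractionRing (MvPolynomial (Fin 2) (κ i))) (g i) *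
        ((n : FractionRing (MvPolynomial (Fin 2) (κ i))) + 1) ≠ 0 := by
    intro G g hg hne
    have h1 : G * ((n + 1 : ℕ) : MvPolynomial (Fin 2) k) ≠ 0 := by
      intro h0
      apply hne
      have h2 := congrArg (algebraMap (MvPolynomial (Fin 2) k) (FractionRing (MvPolynomial (Fin 2) k))) h0
      rw [map_mul, map_natCast, map_zero] at h2
      push_cast at h2
      exact h2
    filter_upwards [rep_ne (rep_mul hg hN) h1] with i hi h0
    apply hi
    apply IsFractionRing.injective (MvPolynomial (Fin 2) (κ i)) (FractionRing (MvPolynomial (Fin 2) (κ i)))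
    rw [map_mul, map_natCast, map_zero]
    push_cast
    exact h0
  by_cases h1 : n + 1 = m
  · rw [if_pos h1] at hn
    have hn' : algebraMap (MvPolynomial (Fin 2) k) (FractionRing (MvPolynomial (Fin 2) k)) 1 *
        ((n : FractionRing (MvPolynomial (Fin 2) k)) + 1) ≠ 0 := by
      rw [map_one]
      exact hn
    filter_upwards [key 1 _ rep_one hn'] with i hi h0
    apply hi
    have h2 := congrArg (fun p => Polynomial.coeff p n) h0
    simp only [Polynomial.coeff_zero] at h2
    rw [Polynomial.coeff_derivative, uembP_coeff, if_pos h1] at h2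
    rw [map_one]
    exact h2
  · rw [if_neg h1] at hn
    by_cases h2 : n + 1 < m
    · rw [if_pos h2] at hn
      filter_upwards [key _ _ (hci (n + 1)) hn] with i hi h0
      apply hi
      have h3 := congrArg (fun p => Polynomial.coeff p n) h0
      simp only [Polynomial.coeff_zero] at h3
      rw [Polynomial.coeff_derivative, uembP_coeff, if_neg h1, if_pos h2] at h3
      exact h3
    · rw [if_neg h2, zero_mul] at hn
      exact absurd rfl hn

/-- the map between ultraproducts -/
private noncomputable def uembM (U : Ultrafilter I) {A B : I → Type} [∀ i, CommRing (A i)] [∀ i, CommRing (B i)]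
    (φ : ∀ i, A i →+* B i) : UP U A →+* UP U B :=
  Ideal.Quotient.lift (UI U A) ((mkU U B).comp (RingHom.pi fun i => (φ i).comp (Pi.evalRingHom A i))) (by
    intro a ha
    have ha' : ∀ᶠ i in (U : Filter I), a i = 0 := ha
    rw [RingHom.comp_apply, mkU_eq_zero]
    filter_upwards [ha'] with i hi
    change φ i (a i) = 0
    rw [hi, map_zero])

private theorem uembM_mk (U : Ultrafilter I) {A B : I → Type} [∀ i, CommRing (A i)] [∀ i, CommRing (B i)]
    (φ : ∀ i, A i →+* B i) (a : ∀ i, A i) : uembM U φ (mkU U A a) = mkU U B (fun i => φ i (a i)) := rfl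

/-- the fields `K i` -/
private theorem uemb_fields (i : I) (f : Polynomial (FractionRing (MvPolynomial (Fin 2) (κ i)))) (hm : f.Monic) :
    ∃ (K' : Type) (_ : Field K') (_ : Algebra (κ i) K') (φ : FractionRing (MvPolynomial (Fin 2) (κ i)) →+* K') (θ : K'),
      (∀ c : κ i, φ (algebraMap (MvPolynomial (Fin 2) (κ i)) _ (C c)) = algebraMap (κ i) K' c) ∧
      (Irreducible f → f.Separable →
      Coord (κ i) (φ (algebraMap (MvPolynomial (Fin 2) (κ i)) _ (X 0))) (φ (algebraMap (MvPolynomial (Fin 2) (κ i)) _ (X 1))) ∧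
      IntermediateField.adjoin (FF (κ i) (φ (algebraMap (MvPolynomial (Fin 2) (κ i)) _ (X 0)))
        (φ (algebraMap (MvPolynomial (Fin 2) (κ i)) _ (X 1)))) {θ} = ⊤ ∧
      Module.finrank (FF (κ i) (φ (algebraMap (MvPolynomial (Fin 2) (κ i)) _ (X 0)))
        (φ (algebraMap (MvPolynomial (Fin 2) (κ i)) _ (X 1)))) K' = f.natDegree ∧
      f.eval₂ φ θ = 0) := by
  by_cases h : Irreducible f ∧ f.Separable
  · obtain ⟨K', h1, h2, φ, θ, h3, h4⟩ := exists_ext (κ i) f h.1 hm h.2
    exact ⟨K', h1, h2, φ, θ, h3, fun _ _ => h4⟩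
  · exact ⟨FractionRing (MvPolynomial (Fin 2) (κ i)), inferInstance,
      ((algebraMap (MvPolynomial (Fin 2) (κ i)) (FractionRing (MvPolynomial (Fin 2) (κ i)))).comp C).toAlgebra,
      RingHom.id _, 0, fun c => rfl, fun h1 h2 => absurd ⟨h1, h2⟩ h⟩

theorem exists_setup (L : LimD U κ k) {t s θ : K} (hc : Coord k t s) (hθ : θ ∈ ic (pol k t s))
    (hg : IntermediateField.adjoin (FF k t s) {θ} = ⊤) :
    ∃ (Ki : I → Type) (_ : ∀ i, Field (Ki i)) (_ : ∀ i, Algebra (κ i) (Ki i)) (E : Emb L K Ki) (ti si θi : ∀ i, Ki i),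
      USetup E t s θ ti si θi := by
  obtain ⟨P, m, c, hP, hm, hPm, hz⟩ := exists_monP hc hθ
  choose ci hci' using fun l => rep_exists L (c l)
  have hci : ∀ l, L.Rep (c l) (ci l) := fun l => (hci' l).1
  let Pp : ∀ i, MvPolynomial (Fin 3) (κ i) := fun i =>
    X 2 ^ m + ∑ l ∈ Finset.range m, rename (Fin.castSucc : Fin 2 → Fin 3) (ci l i) * X 2 ^ l
  have hrep : L.Rep P Pp := by
    have h1 : P = X 2 ^ m + ∑ l ∈ Finset.range m, rename (Fin.castSucc : Fin 2 → Fin 3) (c l) * X 2 ^ l := hPm
    rw [h1]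
    exact rep_add (rep_pow (rep_X 2) m)
      (rep_sum (Finset.range m) fun l _ => rep_mul (rep_rename _ (hci l)) (rep_pow (rep_X 2) l))
  have hmi : ∀ i, MonP (Pp i) m (fun l => ci l i) := fun i => rfl
  let f : ∀ i, Polynomial (FractionRing (MvPolynomial (Fin 2) (κ i))) := fun i =>
    uembP m fun l => algebraMap (MvPolynomial (Fin 2) (κ i)) (FractionRing (MvPolynomial (Fin 2) (κ i))) (ci l i)
  have hirr : ∀ᶠ i in (U : Filter I), Irreducible (f i) := by
    filter_upwards [rep_irreducible hrep hP] with i hi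
    exact monP_irreducible hi hm (hmi i)
  have hsep0 := uemb_sep hc hP hm hPm hz
  have hirr0 : Irreducible (uembP m fun l =>
      algebraMap (MvPolynomial (Fin 2) k) (FractionRing (MvPolynomial (Fin 2) k)) (c l)) := monP_irreducible hP hm hPm
  have hder : ∀ᶠ i in (U : Filter I), Polynomial.derivative (f i) ≠ 0 :=
    uemb_der L m hci ((Polynomial.separable_iff_derivative_ne_zero hirr0).1 hsep0)
  have hsep : ∀ᶠ i in (U : Filter I), (f i).Separable := by
    filter_upwards [hirr, hder] with i h1 h2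
    exact (Polynomial.separable_iff_derivative_ne_zero h1).2 h2
  choose Ki fld alg φ θi hconst hprop using fun i => uemb_fields (κ := κ) i (f i) (uembP_monic _ _)
  have hprop' : ∀ᶠ i in (U : Filter I), _ := (hirr.and hsep).mono fun i hi => hprop i hi.1 hi.2
  obtain ⟨ι, hι⟩ := exists_fld L
  let mp : UP U (fun i => FractionRing (MvPolynomial (Fin 2) (κ i))) →+* UP U Ki := uembM U φ
  have hmp : ∀ (G : MvPolynomial (Fin 2) k) (g : ∀ i, MvPolynomial (Fin 2) (κ i)), L.Rep G g →
      (mp.comp ι) (algebraMap _ _ G) = mkU U Ki (fun i => φ i (algebraMap _ _ (g i))) := by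
    intro G g hG
    rw [RingHom.comp_apply, hι G g hG]
    exact uembM_mk U φ _
  have hb : (mkU U Ki θi) ^ m + ∑ l ∈ Finset.range m,
      (mp.comp ι) (algebraMap (MvPolynomial (Fin 2) k) _ (c l)) * (mkU U Ki θi) ^ l = 0 := by
    have h1 : (mkU U Ki θi) ^ m + ∑ l ∈ Finset.range m,
        (mp.comp ι) (algebraMap (MvPolynomial (Fin 2) k) _ (c l)) * (mkU U Ki θi) ^ l =
        mkU U Ki (θi ^ m + ∑ l ∈ Finset.range m, (fun i => φ i (algebraMap _ _ (ci l i))) * θi ^ l) := by
      rw [map_add, map_pow, map_sum]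
      congr 1
      refine Finset.sum_congr rfl fun l _ => ?_
      rw [map_mul, map_pow, hmp _ _ (hci l)]
    rw [h1, mkU_eq_zero]
    filter_upwards [hprop'] with i hi
    have h2 := hi.2.2.2
    rw [uembP_eval₂] at h2
    rw [← h2, Pi.add_apply, Finset.sum_apply]
    rfl
  obtain ⟨e, he, heθ⟩ := exists_lift hc hg hP hm hPm hz (mp.comp ι) (mkU U Ki θi) hb
  let E : Emb L K Ki :=
    { emb := e
      const := by
        intro a
        rw [← cv_C t s, he, hmp _ _ (rep_C a)]
        congr 1
        funext i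
        exact hconst i (a i) }
  refine ⟨Ki, fld, alg, E,
    fun i => φ i (algebraMap (MvPolynomial (Fin 2) (κ i)) (FractionRing (MvPolynomial (Fin 2) (κ i))) (X 0)),
    fun i => φ i (algebraMap (MvPolynomial (Fin 2) (κ i)) (FractionRing (MvPolynomial (Fin 2) (κ i))) (X 1)), θi, ?_⟩
  refine ⟨hc, hg, ?_, ?_, heθ, ?_, ?_, ?_⟩
  · change e t = _
    have h1 := he (X 0)
    rw [cv_X0] at h1
    rw [h1]
    exact hmp _ _ (rep_X 0)
  · change e s = _
    have h1 := he (X 1)
    rw [cv_X1] at h1
    rw [h1]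
    exact hmp _ _ (rep_X 1)
  · exact hprop'.mono fun i hi => hi.1
  · exact hprop'.mono fun i hi => hi.2.1
  · have := hc.fin
    have h1 : Module.finrank (FF k t s) K = m := by
      rw [← (monP_minpoly hc hP hm hPm hz).1]
      exact ((Field.primitive_element_iff_minpoly_natDegree_eq (FF k t s) θ).1 hg).symm
    filter_upwards [hprop'] with i hi
    rw [h1, hi.2.2.1, uembP_natDegree]

end Pool.Agent.Lib.MP_4318ff_ag.Q
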