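import Pool.Agent.Lib.MP_4318ff_ag.Q.UFam

/-!
# Cocycles transfer

PROOF. `inj`: the points of `Di i` are the pairs `(rep T.1 i, rep T.2 i)`, `T ∈ D.pts` (`hD.pts`), and eventually `rep` is injective on the finite set of all coordinates of the points (`rep_inj`). `h1`: for every `T ∈ D.pts` the element `(ρ1 - ρT T)/v` is represented by `((Di i).ρ1 - (Di i).ρT (rep T))/vi` (`R_sub, R_div`), and `ringT t s D.pts T` transfers to `ringT (ti i) (si i) (Di i).pts (rep T)`
(`Tr_adjoin'`: the generators `t, s, σ, σ⁻¹, (s - T'.2)⁻¹` are represented by the corresponding generators (`R_const`, `R_sub, R_div, R_inv`), for `T' ≠ T` eventually `rep T' ≠ rep T`), then `Tr_ic`; finite intersection over `T ∈ D.pts` (`Filter.eventually_all_finset`). `h2`: the same with `ringL`.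
-/

set_option autoImplicit false

namespace Pool.Agent.Lib.MP_4318ff_ag.Q

variable {I : Type} {U : Ultrafilter I} {κ : I → Type} [∀ i, Field (κ i)] {k : Type} [Field k] {L : LimD U κ k}
  {K : Type} [Field K] [Algebra k K] {Ki : I → Type} [∀ i, Field (Ki i)] [∀ i, Algebra (κ i) (Ki i)]

open Filter MvPolynomial

theorem reg_tr (E : Emb L K Ki) {rep : k → ∀ i, κ i} (hrep : ∀ c, L.lim (rep c) = c) {t s v : K} {ti si vi : ∀ i, Ki i}
    (ht : E.R t ti) (hs : E.R s si) (hv : E.R v vi) {D : Fam k K} {Di : ∀ i, Fam (κ i) (Ki i)} (hD : E.FamR rep D Di)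
    (h : D.Reg t s v) : ∀ᶠ i in (U : Filter I), (Di i).Reg (ti i) (si i) (vi i) := by
  classical
  have hcst : ∀ c, E.R (algebraMap k K c) (fun i => algebraMap (κ i) (Ki i) (rep c i)) := by
    intro c
    have h1 := E.R_const (rep c)
    rwa [hrep c] at h1
  have hmem : ∀ i T, T ∈ (Di i).pts ↔ ∃ S ∈ D.pts, (rep S.1 i, rep S.2 i) = T := by
    intro i T
    rw [← Finset.mem_coe, hD.pts i]
    exact Iff.rfl
  have hmeml : ∀ i T, T ∈ (Di i).lines ↔ ∃ S ∈ D.lines, (rep S.1 i, rep S.2 i) = T := by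
    intro i T
    rw [← Finset.mem_coe, hD.lines i]
    exact Iff.rfl
  have hinj : ∀ᶠ i in (U : Filter I), ∀ T ∈ D.pts, ∀ T' ∈ D.pts, rep T.2 i = rep T'.2 i → T = T' := by
    filter_upwards [rep_inj hrep (D.pts.image Prod.snd)] with i hi T hT T' hT' e
    exact h.inj T hT T' hT' (hi _ (Finset.mem_image_of_mem _ hT) _ (Finset.mem_image_of_mem _ hT') e)
  have h1 : ∀ T ∈ D.pts, ∀ᶠ i in (U : Filter I), ((Di i).ρ1 - (Di i).ρT (rep T.1 i, rep T.2 i)) / vi i ∈
      ic (ringT (ti i) (si i) (Di i).pts (rep T.1 i, rep T.2 i)) := by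
    intro T hT
    have hσ : E.R (sl t s T) (fun i => sl (ti i) (si i) (rep T.1 i, rep T.2 i)) :=
      E.R_div (E.R_sub hs (hcst T.2)) (E.R_sub ht (hcst T.1))
    have hTr : E.Tr (ringT t s D.pts T) (fun i => ringT (ti i) (si i) (Di i).pts (rep T.1 i, rep T.2 i)) := by
      refine Tr_adjoin' E fun z hz => ?_
      rcases hz with hz | ⟨T', hT', hne, hz⟩
      · rcases hz with hz | hz | hz | hz
        · exact ⟨ti, by rw [hz]; exact ht, Filter.Eventually.of_forall fun i =>
            Algebra.subset_adjoin (Or.inl (Or.inl rfl))⟩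
        · exact ⟨si, by rw [hz]; exact hs, Filter.Eventually.of_forall fun i =>
            Algebra.subset_adjoin (Or.inl (Or.inr (Or.inl rfl)))⟩
        · exact ⟨_, by rw [hz]; exact hσ, Filter.Eventually.of_forall fun i =>
            Algebra.subset_adjoin (Or.inl (Or.inr (Or.inr (Or.inl rfl))))⟩
        · refine ⟨_, by rw [Set.mem_singleton_iff.1 hz]; exact E.R_inv hσ, Filter.Eventually.of_forall fun i =>
            Algebra.subset_adjoin (Or.inl (Or.inr (Or.inr (Or.inr rfl))))⟩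
      · refine ⟨_, by rw [hz]; exact E.R_inv (E.R_sub hs (hcst T'.2)), ?_⟩
        filter_upwards [hinj] with i hi
        refine Algebra.subset_adjoin (Or.inr ⟨(rep T'.1 i, rep T'.2 i), (hmem i _).2 ⟨T', hT', rfl⟩, ?_, rfl⟩)
        intro e
        exact hne (hi T' hT' T hT (congrArg Prod.snd e))
    exact Tr_ic E hTr _ (h.h1 T hT) _ (E.R_div (E.R_sub hD.r1 (hD.rT T hT)) hv)
  have h2 : ∀ᶠ i in (U : Filter I), ((Di i).ρ1 - (Di i).ρ3) / vi i ∈ ic (ringL (ti i) (si i) (Di i).lines) := by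
    have hTr : E.Tr (ringL t s D.lines) (fun i => ringL (ti i) (si i) (Di i).lines) := by
      refine Tr_adjoin' E fun z hz => ?_
      rcases hz with hz | ⟨c, hc, hz⟩
      · rcases hz with hz | hz
        · exact ⟨ti, by rw [hz]; exact ht, Filter.Eventually.of_forall fun i =>
            Algebra.subset_adjoin (Or.inl (Or.inl rfl))⟩
        · exact ⟨si, by rw [Set.mem_singleton_iff.1 hz]; exact hs, Filter.Eventually.of_forall fun i =>
            Algebra.subset_adjoin (Or.inl (Or.inr rfl))⟩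
      · refine ⟨_, by rw [hz]; exact E.R_inv (E.R_sub (E.R_sub hs (hcst c.1)) (E.R_mul (hcst c.2) ht)),
          Filter.Eventually.of_forall fun i => ?_⟩
        exact Algebra.subset_adjoin (Or.inr ⟨(rep c.1 i, rep c.2 i), (hmeml i _).2 ⟨c, hc, rfl⟩, rfl⟩)
    exact Tr_ic E hTr _ h.h2 _ (E.R_div (E.R_sub hD.r1 hD.r3) hv)
  have h3 : ∀ᶠ i in (U : Filter I), ∀ T ∈ D.pts, ((Di i).ρ1 - (Di i).ρT (rep T.1 i, rep T.2 i)) / vi i ∈
      ic (ringT (ti i) (si i) (Di i).pts (rep T.1 i, rep T.2 i)) := by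
    rw [Filter.eventually_all_finset]
    exact h1
  filter_upwards [hinj, h2, h3] with i hi h4 h5
  refine ⟨?_, ?_, h4⟩
  · intro T hT T' hT' e
    obtain ⟨S, hS, rfl⟩ := (hmem i T).1 hT
    obtain ⟨S', hS', rfl⟩ := (hmem i T').1 hT'
    rw [hi S hS S' hS' e]
  · intro T hT
    obtain ⟨S, hS, rfl⟩ := (hmem i T).1 hT
    exact h5 S hS

end Pool.Agent.Lib.MP_4318ff_ag.Q
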