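import Pool.Agent.Lib.MP_4318ff_ag.Q.UMin
import Pool.Agent.Lib.MP_4318ff_ag.Q.ULoc
import Pool.Agent.Lib.MP_4318ff_ag.Q.MinPoly

/-!
# Integrality descends from almost all `Ki i` to `K`

PROOF. `ic_loc_desc`: `w i` is integral over `loc (ti i) (si i) (πi i)`, so the coefficients of its minimal polynomial over `FF` lie in it (`minpoly_coeff_mem`, `loc_int`, `loc_le_FF`). They represent the coefficients of the minimal polynomial of `z`
(`R_minpoly`), which therefore lie in `loc t s π` (`loc_desc`); so `z` is a root of a monic polynomial over `loc t s π` (`mem_ic_iff_poly`). `ic_ringV_desc`: for a prime `π` not associated to the lines `X 1 - C T.2` (`T ∈ pts`) represent `π` by `πi` (`rep_exists`): eventually `πi` is prime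
(`rep_prime`) and not associated to the lines `X 1 - C (rep T.2 i)` (`Associated` = mutual divisibility, `rep_dvd`, `rep_not_dvd`, `rep_sub`, `rep_C`), so `ringV ≤ loc πi` (`ringV_le_loc`), `w i ∈ ic (loc πi)`, `z ∈ ic (loc π)` by the first part. So the coefficients of
`minpoly (FF k t s) z` lie in `loc t s π` for all these `π` (`minpoly_coeff_mem`, `loc_int`), hence in `ringV` (`mem_ringV_of_loc`), and `z ∈ ic (ringV)`.
-/

set_option autoImplicit false

namespace Pool.Agent.Lib.MP_4318ff_ag.Q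

open Filter MvPolynomial

variable {I : Type} {U : Ultrafilter I} {κ : I → Type} [∀ i, Field (κ i)] {k : Type} [Field k] {L : LimD U κ k}
  {K : Type} [Field K] [Algebra k K] {Ki : I → Type} [∀ i, Field (Ki i)] [∀ i, Algebra (κ i) (Ki i)]

private theorem udesc_of_coeff {t s : K} (hc : Coord k t s) {S : Subalgebra k K} {z : K}
    (h : ∀ l, (((minpoly (FF k t s) z).coeff l : FF k t s) : K) ∈ S) : z ∈ ic S := by
  have := hc.fin
  have hz : IsIntegral (FF k t s) z := IsIntegral.of_finite (FF k t s) z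
  rw [mem_ic_iff_poly]
  refine ⟨(minpoly (FF k t s) z).map (algebraMap (FF k t s) K), (minpoly.monic hz).map _, ?_, ?_⟩
  · intro l
    rw [Polynomial.coeff_map]
    exact h l
  · rw [Polynomial.eval_map_algebraMap]
    exact minpoly.aeval _ _

theorem ic_loc_desc (E : Emb L K Ki) {t s : K} {ti si : ∀ i, Ki i} (hc : Coord k t s)
    (hci : ∀ᶠ i in (U : Filter I), Coord (κ i) (ti i) (si i)) (ht : E.R t ti) (hs : E.R s si)
    {π : MvPolynomial (Fin 2) k} {πi : ∀ i, MvPolynomial (Fin 2) (κ i)} (hπ : L.Rep π πi) (hp : Prime π)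
    {z : K} {w : ∀ i, Ki i} (hz : E.R z w) (h : ∀ᶠ i in (U : Filter I), w i ∈ ic (loc (ti i) (si i) (πi i))) :
    z ∈ ic (loc t s π) := by
  refine udesc_of_coeff hc fun l => ?_
  refine loc_desc E hc hci ht hs hπ hp ((minpoly (FF k t s) z).coeff l).2 ((R_minpoly E hc hci ht hs hz).2 l) ?_
  filter_upwards [h, hci, rep_prime hπ hp] with i h1 h2 h3
  exact minpoly_coeff_mem (FF (κ i) (ti i) (si i)) (loc (ti i) (si i) (πi i)) (fun x hx => loc_le_FF (πi i) hx)
    (fun x hx h' => loc_int h2 h3 hx h') h1 l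

theorem ic_ringV_desc (E : Emb L K Ki) {t s : K} {ti si : ∀ i, Ki i} (hc : Coord k t s)
    (hci : ∀ᶠ i in (U : Filter I), Coord (κ i) (ti i) (si i)) (ht : E.R t ti) (hs : E.R s si)
    (rep : k → ∀ i, κ i) (hrep : ∀ c, L.lim (rep c) = c) (pts : Finset (k × k)) (ptsi : ∀ i, Finset (κ i × κ i))
    (hp : ∀ i, ((ptsi i : Finset (κ i × κ i)) : Set (κ i × κ i)) = (fun T : k × k => (rep T.1 i, rep T.2 i)) '' (pts : Set (k × k)))
    {z : K} {w : ∀ i, Ki i} (hz : E.R z w) (h : ∀ᶠ i in (U : Filter I), w i ∈ ic (ringV (ti i) (si i) (ptsi i))) :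
    z ∈ ic (ringV t s pts) := by
  refine udesc_of_coeff hc fun l => ?_
  refine mem_ringV_of_loc hc pts ((minpoly (FF k t s) z).coeff l).2 fun π hπ hna => ?_
  refine minpoly_coeff_mem (FF k t s) (loc t s π) (fun x hx => loc_le_FF π hx)
    (fun x hx h' => loc_int hc hπ hx h') ?_ l
  obtain ⟨πi, hπi, -⟩ := rep_exists L π
  have h1 : ∀ T ∈ pts, ∀ᶠ i in (U : Filter I), ¬ πi i ∣ (X 1 - C (rep T.2 i) : MvPolynomial (Fin 2) (κ i)) := by
    intro T hT
    have h2 : L.Rep (X 1 - C T.2 : MvPolynomial (Fin 2) k) (fun i => X 1 - C (rep T.2 i)) := by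
      have h3 := rep_C (L := L) (n := 2) (rep T.2)
      rw [hrep T.2] at h3
      exact rep_sub (rep_X 1) h3
    refine (rep_not_dvd hπi h2).1 fun hd => ?_
    exact hna T hT (hπ.irreducible.associated_of_dvd (prime_X1_sub T.2).irreducible hd)
  have h2 : ∀ᶠ i in (U : Filter I), ∀ T ∈ pts, ¬ πi i ∣ (X 1 - C (rep T.2 i) : MvPolynomial (Fin 2) (κ i)) := by
    rw [Filter.eventually_all_finset]
    exact h1
  refine ic_loc_desc E hc hci ht hs hπi hπ hz ?_
  filter_upwards [h, hci, rep_prime hπi hπ, h2] with i h3 h4 h5 h6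
  refine ic_mono (ringV_le_loc h4 (ptsi i) h5 ?_) h3
  intro T' hT' has
  have h7 : T' ∈ ((ptsi i : Finset (κ i × κ i)) : Set (κ i × κ i)) := hT'
  rw [hp i] at h7
  obtain ⟨T, hT, rfl⟩ := h7
  exact h6 T hT has.dvd

end Pool.Agent.Lib.MP_4318ff_ag.Q
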