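import Pool.Agent.Lib.MP_4318ff_ag.Q.UFam
import Pool.Agent.Lib.MP_4318ff_ag.Q.UDesc
import Pool.Agent.Lib.MP_4318ff_ag.Q.CoordCh

/-!
# Solutions descend

PROOF. `s1`: `ic_ringV_desc` for `z = (x - ρ1)/v`, represented by `(xi i - (Di i).ρ1)/vi i` (`R_sub, R_div`). `s2`: `ic_loc_desc` with `π = X 1 - C T.2` (`prime_X1_sub`), represented by `X 1 - C (rep T.2 i)` (`rep_sub, rep_X, rep_C`). `s3`: `locE t s T = loc t σ (X 0 - C T.1)`, `σ = sl t s T`, coordinates `t, σ` (`Coord.sl`), `σ` is represented by `sl (ti i) (si i) (rep T)` (`R_const`). `s4`: `locI k t s = loc t s⁻¹ (X 1)`,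
`Coord.sInv`, `R_inv`, `prime_X1_sub 0`.
-/

set_option autoImplicit false

namespace Pool.Agent.Lib.MP_4318ff_ag.Q

variable {I : Type} {U : Ultrafilter I} {κ : I → Type} [∀ i, Field (κ i)] {k : Type} [Field k] {L : LimD U κ k}
  {K : Type} [Field K] [Algebra k K] {Ki : I → Type} [∀ i, Field (Ki i)] [∀ i, Algebra (κ i) (Ki i)]

open Filter MvPolynomial

theorem sol_desc (E : Emb L K Ki) {rep : k → ∀ i, κ i} (hrep : ∀ c, L.lim (rep c) = c) {t s v x : K} {ti si vi xi : ∀ i, Ki i}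
    (hc : Coord k t s) (hci : ∀ᶠ i in (U : Filter I), Coord (κ i) (ti i) (si i))
    (ht : E.R t ti) (hs : E.R s si) (hv : E.R v vi) (hx : E.R x xi) {D : Fam k K} {Di : ∀ i, Fam (κ i) (Ki i)}
    (hD : E.FamR rep D Di) (h : ∀ᶠ i in (U : Filter I), (Di i).Sol (ti i) (si i) (vi i) (xi i)) : D.Sol t s v x := by
  have hcst : ∀ c, E.R (algebraMap k K c) (fun i => algebraMap (κ i) (Ki i) (rep c i)) := by
    intro c
    have h1 := E.R_const (rep c)
    rwa [hrep c] at h1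
  have hX : ∀ (c : k) (j : Fin 2), L.Rep (X j - C c : MvPolynomial (Fin 2) k) (fun i => X j - C (rep c i)) := by
    intro c j
    have h3 := rep_C (L := L) (n := 2) (rep c)
    rw [hrep c] at h3
    exact rep_sub (rep_X j) h3
  have hmem : ∀ T ∈ D.pts, ∀ i, (rep T.1 i, rep T.2 i) ∈ (Di i).pts := by
    intro T hT i
    rw [← Finset.mem_coe, hD.pts i]
    exact ⟨T, hT, rfl⟩
  refine ⟨?_, ?_, ?_, ?_⟩
  · refine ic_ringV_desc E hc hci ht hs rep hrep D.pts (fun i => (Di i).pts) hD.pts (E.R_div (E.R_sub hx hD.r1) hv) ?_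
    filter_upwards [h] with i hi
    exact hi.s1
  · intro T hT
    refine ic_loc_desc E hc hci ht hs (hX T.2 1) (prime_X1_sub T.2) (E.R_div (E.R_sub hx (hD.rT T hT)) hv) ?_
    filter_upwards [h] with i hi
    exact hi.s2 (rep T.1 i, rep T.2 i) (hmem T hT i)
  · intro T hT
    have hσ : E.R (sl t s T) (fun i => sl (ti i) (si i) (rep T.1 i, rep T.2 i)) :=
      E.R_div (E.R_sub hs (hcst T.2)) (E.R_sub ht (hcst T.1))
    refine ic_loc_desc E (hc.sl T) (hci.mono fun i hi => hi.sl (rep T.1 i, rep T.2 i)) ht hσ (hX T.1 0)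
      (prime_X0_sub T.1) (E.R_div (E.R_sub hx hD.r1) hv) ?_
    filter_upwards [h] with i hi
    exact hi.s3 (rep T.1 i, rep T.2 i) (hmem T hT i)
  · have hp : Prime (X 1 : MvPolynomial (Fin 2) k) := by
      have := prime_X1_sub (0 : k)
      rwa [C_0, sub_zero] at this
    refine ic_loc_desc E hc.sInv (hci.mono fun i hi => hi.sInv) ht (E.R_inv hs) (rep_X 1) hp
      (E.R_div (E.R_sub hx hD.r3) hv) ?_
    filter_upwards [h] with i hi
    exact hi.s4

end Pool.Agent.Lib.MP_4318ff_ag.Q
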