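import Pool.Agent.Lib.MP_4318ff_ag.Q.SpecS0
import Pool.Agent.Lib.MP_4318ff_ag.Q.CP
import Pool.Agent.Lib.MP_4318ff_ag.Q.U1
import Pool.Agent.Lib.MP_4318ff_ag.Q.UEmb
import Pool.Agent.Lib.MP_4318ff_ag.Q.UAut
import Pool.Agent.Lib.MP_4318ff_ag.Q.UAlg
import Pool.Agent.Lib.MP_4318ff_ag.Q.UReg
import Pool.Agent.Lib.MP_4318ff_ag.Q.UCompat
import Pool.Agent.Lib.MP_4318ff_ag.Q.USol
import Pool.Agent.Lib.MP_4318ff_ag.Q.UClr
import Pool.Agent.Lib.MP_4318ff_ag.Q.UBound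
import Pool.Agent.Lib.MP_4318ff_ag.Q.UBd

/-!
# Theorem S0 from the theorem in characteristic `p` (assembly of the transfer block)
-/

set_option autoImplicit false

namespace Pool.Agent.Lib.MP_4318ff_ag.Q

open Filter MvPolynomial

/-- The theorem in characteristic `p` with a bounded solution. -/
private theorem charP_bounded {k K : Type} [Field k] [Field K] [Algebra k K] (p : ℕ) [Fact p.Prime] [CharP k p]
    [PerfectField k] {t s u θ : K} (hc : Coord k t s) {n κ a b q : ℕ}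
    (hn : 0 < n) (hκ : 0 < κ) (hu : u ^ n * t = 1)
    (hθ : IntermediateField.adjoin (FF k t s) {θ} = ⊤) (hG : GenBd k t s θ a)
    (hp : pBound n (Module.finrank (FF k t s) K) a ≤ p)
    {D D' : Fam k K} (hD : D.Reg t s 1) (hD' : D'.Reg t⁻¹ (s / t) (u ^ κ)) (hco : Compat t s D D')
    (h : K ≃ₐ[k] K) (ht : h t = t) (hs : h s = s) (conn : ∀ z : K, AlgT k t z → h z = z)
    {Q : MvPolynomial (Fin 2) k} (hQ : Q ≠ 0) (hQd : Q.totalDegree ≤ q)
    (hQ1 : cv t s Q * (h D.ρ1 - D.ρ1) ∈ ic (pol k t s))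
    (hQ2 : ∀ T ∈ D.pts, cv t s Q * (h (D.ρT T) - D.ρT T) ∈ ic (pol k t s))
    (hb : (h D'.ρ1 - D'.ρ1) * t⁻¹ ^ b ∈ ic (locO k t⁻¹ (s / t))) :
    ∃ x : K, ((D.map (fun y => h y - y)).Sol t s 1 x ∧ (D'.map (fun y => h y - y)).Sol t⁻¹ (s / t) (u ^ κ) x) ∧
      ∃ (Δ : MvPolynomial (Fin 2) k) (z : ℕ → MvPolynomial (Fin 2) k), Δ ≠ 0 ∧
        Δ.totalDegree ≤ a * (Module.finrank (FF k t s) K * (Module.finrank (FF k t s) K - 1)) + q + b ∧
        (∀ l < Module.finrank (FF k t s) K, (z l).totalDegree ≤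
          a * (Module.finrank (FF k t s) K * (Module.finrank (FF k t s) K - 1)) + q + b) ∧
        cv t s Δ * x = ∑ l ∈ Finset.range (Module.finrank (FF k t s) K), cv t s (z l) * θ ^ l := by
  have h1 := genBd_int hG
  have h2 := genBd_inf hc.t_ne hG
  obtain ⟨x, hx, hx'⟩ := charP_main p hc hn hκ hu rfl hθ h1 h2 hp hD hD' hco h ht hs conn
  refine ⟨x, ⟨hx, hx'⟩, ?_⟩
  obtain ⟨Δ, z, hΔ, h3, h4, h5⟩ := bounded_of_loc (b := b) hc hθ h1 h2 hQ
    (fun π hπ => sol_loc (D := D.map (fun y => h y - y)) hc hQ1 hQ2 hx hπ)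
    (sol_inf (D := D'.map (fun y => h y - y)) hc hn hu hb hx')
  exact ⟨Δ, z, hΔ, by omega, fun l hl => (h4 l hl).trans (by omega), h5⟩

theorem s0 : S0Stmt := by
  intro K _ _ t s u n κ D D' h hc hn hκ hu hD hD' hco ht hs conn
  classical
  obtain ⟨θ, a, hg, hG⟩ := exists_gen hc
  have hθ := genBd_int hG
  obtain ⟨U, hU, κf, _, hcl, hch, ⟨L⟩⟩ := exists_limD
  obtain ⟨Ki, _, _, E, ti, si, θi, S⟩ := exists_setup L hc hθ hg
  obtain ⟨rep, hrep⟩ : ∃ rep : ℂ → ∀ i, κf i, ∀ c, L.lim (rep c) = c := ⟨fun c => (L.surj c).choose, fun c => (L.surj c).choose_spec⟩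
  obtain ⟨ui, hui⟩ := E.exists_R u
  obtain ⟨Di, hDi⟩ := exists_famR E hrep D
  obtain ⟨Di', hDi'⟩ := exists_famR E hrep D'
  obtain ⟨hi, hhi, hR⟩ := exists_hi S hθ h ht hs
  -- the data for the bounds
  obtain ⟨Q, hQ0, hQ⟩ := exists_Q hc (insert (h D.ρ1 - D.ρ1) (D.pts.image (fun T => h (D.ρT T) - D.ρT T)))
  obtain ⟨b, hb⟩ := exists_b hc (h D'.ρ1 - D'.ρ1)
  obtain ⟨Qi, hQi, hQid⟩ := rep_exists L Q
  set N := Module.finrank (FF ℂ t s) K with hN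
  -- representations
  have rt' := E.R_inv S.rt
  have rs' := E.R_div S.rs S.rt
  have ruk := E.R_pow hui κ
  have hf : ∀ z w, E.R z w → E.R (h z - z) (fun i => hi i (w i) - w i) := fun z w hz => E.R_sub (hR z w hz) hz
  have e1 : ∀ᶠ i in (U : Filter Nat.Primes), (Di i).Reg (ti i) (si i) 1 := by
    have := reg_tr E hrep S.rt S.rs E.R_one hDi hD
    exact this
  have e2 : ∀ᶠ i in (U : Filter Nat.Primes), (Di' i).Reg (ti i)⁻¹ (si i / ti i) (ui i ^ κ) :=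
    reg_tr E hrep rt' rs' ruk hDi' hD'
  have e3 : ∀ᶠ i in (U : Filter Nat.Primes), Compat (ti i) (si i) (Di i) (Di' i) :=
    compat_tr E hrep S.rt S.rs hDi hDi' hco
  have e4 : ∀ᶠ i in (U : Filter Nat.Primes), ui i ^ n * ti i = 1 := by
    have h1 := E.R_mul (E.R_pow hui n) S.rt
    rw [hu] at h1
    exact E.R_eq h1 E.R_one
  have e5 : ∀ᶠ i in (U : Filter Nat.Primes), ∀ y : Ki i, AlgT (κf i) (ti i) y → hi i y = y :=
    algT_fixed S hG h conn hi (hhi.mono fun i hi' => hi'.1) hR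
  have e6 : ∀ᶠ i in (U : Filter Nat.Primes), GenBd (κf i) (ti i) (si i) (θi i) a := genBd_tr E S.rt S.rs S.rθ hG
  have e7 : ∀ᶠ i in (U : Filter Nat.Primes), Qi i ≠ 0 := rep_ne hQi hQ0
  have e8 : ∀ᶠ i in (U : Filter Nat.Primes),
      cv (ti i) (si i) (Qi i) * (hi i (Di i).ρ1 - (Di i).ρ1) ∈ ic (pol (κf i) (ti i) (si i)) := by
    refine Tr_ic E (Tr_pol E S.rt S.rs) _ (hQ _ (Finset.mem_insert_self _ _)) _ ?_
    exact E.R_mul (R_cv E S.rt S.rs hQi) (hf _ _ hDi.r1)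
  have e9 : ∀ᶠ i in (U : Filter Nat.Primes), ∀ T ∈ (Di i).pts,
      cv (ti i) (si i) (Qi i) * (hi i ((Di i).ρT T) - (Di i).ρT T) ∈ ic (pol (κf i) (ti i) (si i)) := by
    have : ∀ᶠ i in (U : Filter Nat.Primes), ∀ T ∈ D.pts,
        cv (ti i) (si i) (Qi i) * (hi i ((Di i).ρT (rep T.1 i, rep T.2 i)) - (Di i).ρT (rep T.1 i, rep T.2 i)) ∈
          ic (pol (κf i) (ti i) (si i)) := by
      rw [Filter.eventually_all_finset]
      intro T hT
      refine Tr_ic E (Tr_pol E S.rt S.rs) _ (hQ _ (Finset.mem_insert_of_mem (Finset.mem_image_of_mem _ hT))) _ ?_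
      exact E.R_mul (R_cv E S.rt S.rs hQi) (hf _ _ (hDi.rT T hT))
    filter_upwards [this] with i h1 T hT
    have h2 : T ∈ ((Di i).pts : Set (κf i × κf i)) := hT
    rw [hDi.pts i] at h2
    obtain ⟨T', hT', rfl⟩ := h2
    exact h1 T' hT'
  have e10 : ∀ᶠ i in (U : Filter Nat.Primes),
      (hi i (Di' i).ρ1 - (Di' i).ρ1) * (ti i)⁻¹ ^ b ∈ ic (locO (κf i) (ti i)⁻¹ (si i / ti i)) := by
    refine Tr_ic E (Tr_loc E rt' rs' (rep_X 0)) _ hb _ ?_
    exact E.R_mul (hf _ _ hDi'.r1) (E.R_pow rt' b)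
  have e11 : ∀ᶠ i : Nat.Primes in (U : Filter Nat.Primes), pBound n N a ≤ (i : ℕ) :=
    (hU (pBound n N a)).mono fun i h => h.le
  -- solutions in characteristic `p`
  have key : ∀ᶠ i in (U : Filter Nat.Primes), ∃ x : Ki i,
      (((Di i).map (fun y => hi i y - y)).Sol (ti i) (si i) 1 x ∧
        ((Di' i).map (fun y => hi i y - y)).Sol (ti i)⁻¹ (si i / ti i) (ui i ^ κ) x) ∧
      ∃ (Δ : MvPolynomial (Fin 2) (κf i)) (z : ℕ → MvPolynomial (Fin 2) (κf i)), Δ ≠ 0 ∧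
        Δ.totalDegree ≤ a * (N * (N - 1)) + Q.totalDegree + b ∧
        (∀ l < N, (z l).totalDegree ≤ a * (N * (N - 1)) + Q.totalDegree + b) ∧
        cv (ti i) (si i) Δ * x = ∑ l ∈ Finset.range N, cv (ti i) (si i) (z l) * θi i ^ l := by
    filter_upwards [e1, e2, e3, e4, e5, e6, e7, e8, e9, e10, e11, S.hci, S.geni, S.rank, hhi] with i f1 f2 f3 f4 f5 f6 f7 f8
      f9 f10 f11 f12 f13 f14 f15
    haveI : Fact (i : ℕ).Prime := ⟨i.2⟩
    haveI := hcl i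
    haveI : CharP (κf i) (i : ℕ) := hch i
    have := charP_bounded (i : ℕ) f12 hn hκ f4 f13 f6 (by rw [f14]; exact f11) f1 f2 f3 (hi i) f15.1 f15.2 f5 f7
      (hQid i) f8 f9 f10
    rw [f14] at this
    exact this
  obtain ⟨xi, hxi⟩ : ∃ xi : ∀ i, Ki i, ∀ᶠ i in (U : Filter Nat.Primes),
      (((Di i).map (fun y => hi i y - y)).Sol (ti i) (si i) 1 (xi i) ∧
        ((Di' i).map (fun y => hi i y - y)).Sol (ti i)⁻¹ (si i / ti i) (ui i ^ κ) (xi i)) ∧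
      ∃ (Δ : MvPolynomial (Fin 2) (κf i)) (z : ℕ → MvPolynomial (Fin 2) (κf i)), Δ ≠ 0 ∧
        Δ.totalDegree ≤ a * (N * (N - 1)) + Q.totalDegree + b ∧
        (∀ l < N, (z l).totalDegree ≤ a * (N * (N - 1)) + Q.totalDegree + b) ∧
        cv (ti i) (si i) Δ * (xi i) = ∑ l ∈ Finset.range N, cv (ti i) (si i) (z l) * θi i ^ l := by
    refine ⟨fun i => if hx : ∃ x : Ki i,
      (((Di i).map (fun y => hi i y - y)).Sol (ti i) (si i) 1 x ∧
        ((Di' i).map (fun y => hi i y - y)).Sol (ti i)⁻¹ (si i / ti i) (ui i ^ κ) x) ∧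
      ∃ (Δ : MvPolynomial (Fin 2) (κf i)) (z : ℕ → MvPolynomial (Fin 2) (κf i)), Δ ≠ 0 ∧
        Δ.totalDegree ≤ a * (N * (N - 1)) + Q.totalDegree + b ∧
        (∀ l < N, (z l).totalDegree ≤ a * (N * (N - 1)) + Q.totalDegree + b) ∧
        cv (ti i) (si i) Δ * x = ∑ l ∈ Finset.range N, cv (ti i) (si i) (z l) * θi i ^ l then hx.choose else 0, ?_⟩
    filter_upwards [key] with i hx
    rw [dif_pos hx]
    exact hx.choose_spec
  obtain ⟨x, hx⟩ := exists_of_bounded E S.hci S.rt S.rs S.rθ N (a * (N * (N - 1)) + Q.totalDegree + b) xi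
    (hxi.mono fun i hi' => hi'.2)
  refine ⟨x, ?_, ?_⟩
  · exact sol_desc E hrep hc S.hci S.rt S.rs E.R_one hx (famR_map E hDi _ _ hf) (hxi.mono fun i hi' => hi'.1.1)
  · exact sol_desc E hrep hc.inv (S.hci.mono fun i hi' => hi'.inv) rt' rs' ruk hx (famR_map E hDi' _ _ hf)
      (hxi.mono fun i hi' => hi'.1.2)

end Pool.Agent.Lib.MP_4318ff_ag.Q
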