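import Pool.Agent.Lib.MP_4318ff_ag.Q.AllB
import Pool.Agent.Lib.MP_4318ff_ag.Q.S0

/-!
# Part S is complete: `S1Stmt ℂ` and the theorem for infinitesimally rigid configurations
-/

set_option autoImplicit false

namespace Pool.Agent.Lib.MP_4318ff_ag

/-- Part S over `ℂ`. -/
theorem s1_complex : S1Stmt ℂ := Q.s1_of_S0 Q.s0

/-- The main theorem for infinitesimally rigid configurations. -/
theorem main_complex : MainFor ℂ := Q.main_of_S0 Q.s0

end Pool.Agent.Lib.MP_4318ff_ag
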