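import Pool.Agent.Lib.MP_4318ff_ag.Q.SpecB

/-!
# From single automorphisms to the average
-/

set_option autoImplicit false

namespace Pool.Agent.Lib.MP_4318ff_ag.Q

private theorem bAvg_aux {k K : Type} [Field k] [CharZero k] [Field K] [Algebra k K] (S : Subalgebra k K) (v ρ : K)
    (G : Finset (K ≃ₐ[k] K)) (x : (K ≃ₐ[k] K) → K) (hG : G.Nonempty) (h0 : ∑ h ∈ G, h ρ = 0)
    (hx : ∀ h ∈ G, (x h - (h ρ - ρ)) / v ∈ ic S) :
    (algebraMap k K (-((G.card : k)⁻¹)) * ∑ h ∈ G, x h - ρ) / v ∈ ic S := by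
  have hc : (G.card : k) ≠ 0 := Nat.cast_ne_zero.2 hG.card_pos.ne'
  have h1 : ∑ h ∈ G, (x h - (h ρ - ρ)) / v = (∑ h ∈ G, x h + (G.card : K) * ρ) / v := by
    rw [← Finset.sum_div, Finset.sum_sub_distrib, Finset.sum_sub_distrib, h0, Finset.sum_const, nsmul_eq_mul]
    ring
  have h2 : algebraMap k K (-((G.card : k)⁻¹)) * (G.card : K) = -1 := by
    rw [← map_natCast (algebraMap k K), ← map_mul, neg_mul, inv_mul_cancel₀ hc, map_neg, map_one]
  have h3 : (algebraMap k K (-((G.card : k)⁻¹)) * ∑ h ∈ G, x h - ρ) / v =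
      algebraMap k K (-((G.card : k)⁻¹)) * ∑ h ∈ G, (x h - (h ρ - ρ)) / v := by
    rw [h1, mul_div_assoc', mul_add, ← mul_assoc _ (G.card : K), h2]
    ring
  rw [h3]
  exact (ic S).mul_mem ((ic S).algebraMap_mem _) ((ic S).sum_mem hx)

theorem bAvg : BAvgStmt := by
  intro k _ _ K _ _ t s v D G x hG h1 h3 hT hS
  refine ⟨?_, ?_, ?_, ?_⟩
  · exact bAvg_aux _ v D.ρ1 G x hG h1 fun h hh => (hS h hh).s1
  · exact fun T hTD => bAvg_aux _ v (D.ρT T) G x hG (hT T) fun h hh => (hS h hh).s2 T hTD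
  · exact fun T hTD => bAvg_aux _ v D.ρ1 G x hG h1 fun h hh => (hS h hh).s3 T hTD
  · exact bAvg_aux _ v D.ρ3 G x hG h3 fun h hh => (hS h hh).s4

end Pool.Agent.Lib.MP_4318ff_ag.Q
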