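import Pool.Agent.Lib.MP_4318ff_ag.Q.SpecB
import Pool.Agent.Lib.MP_4318ff_ag.A.Ev
import Pool.Agent.Lib.MP_4318ff_ag.LA.Pnt

/-!
# MP_4318ff_ag, Q/BConv: comparison of the two languages
-/

set_option autoImplicit false

namespace Pool.Agent.Lib.MP_4318ff_ag.Q

open MvPolynomial

section

variable {k : Type} [Field k] (K : Type) [Field K] [Algebra (F k) K] [Algebra k K] [IsScalarTower k (F k) K]

private theorem mem_J {S : Subalgebra k (F k)} {x : K} : x ∈ J K S ↔ ∃ y ∈ S, algebraMap (F k) K y = x := by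
  unfold J
  rw [Subalgebra.mem_map]
  rfl

private theorem conv1 (S : Subalgebra k (F k)) (x : K) : x ∈ MP_4318ff_ag.ic K S ↔ x ∈ Q.ic (J K S) := by
  rw [mem_ic_iff_poly]
  have h0 : x ∈ MP_4318ff_ag.ic K S ↔ IsIntegral S x := Iff.rfl
  rw [h0]
  constructor
  · rintro ⟨p, hp, hx⟩
    refine ⟨p.map (algebraMap S K), hp.map _, fun i => ?_, ?_⟩
    · rw [Polynomial.coeff_map]
      exact (mem_J K).2 ⟨(p.coeff i : F k), (p.coeff i).2, rfl⟩
    · rw [Polynomial.eval_map]
      exact hx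
  · rintro ⟨p, hp, hc, hx⟩
    have hl : p ∈ Polynomial.lifts (algebraMap S K) := by
      rw [Polynomial.lifts_iff_coeff_lifts]
      intro i
      obtain ⟨y, hy, hyx⟩ := (mem_J K).1 (hc i)
      exact ⟨⟨y, hy⟩, hyx⟩
    obtain ⟨q, hq, -, hqm⟩ := Polynomial.lifts_and_degree_eq_and_monic hl hp
    refine ⟨q, hqm, ?_⟩
    rw [← Polynomial.eval_map, hq]
    exact hx

private theorem cv_eq (z w : F k) (G : MvPolynomial (Fin 2) k) :
    cv (algebraMap (F k) K z) (algebraMap (F k) K w) G = algebraMap (F k) K (cm z w G) := by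
  have h : (cv (k := k) (algebraMap (F k) K z) (algebraMap (F k) K w)) =
      (IsScalarTower.toAlgHom k (F k) K).comp (cm z w) := by
    apply MvPolynomial.algHom_ext
    intro i
    fin_cases i <;> simp [cv, cm]
  rw [h]
  rfl

private theorem FF_eq {z w : F k} (h : IsCoord z w) :
    FF k (algebraMap (F k) K z) (algebraMap (F k) K w) = (IsScalarTower.toAlgHom k (F k) K).fieldRange := by
  apply le_antisymm
  · rw [IntermediateField.adjoin_le_iff]
    rintro x (rfl | rfl)
    · exact ⟨z, rfl⟩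
    · exact ⟨w, rfl⟩
  · rintro x ⟨f, rfl⟩
    obtain ⟨h₁, h₂, -, hf⟩ := h.2 f
    have h1 : (IsScalarTower.toAlgHom k (F k) K).toRingHom f = algebraMap (F k) K f := rfl
    rw [h1, hf, map_div₀, ← cv_eq, ← cv_eq]
    exact div_mem (cv_mem_FF _ _ _) (cv_mem_FF _ _ _)

private theorem conv4 [CharZero k] [FiniteDimensional (F k) K] {z w : F k} (h : IsCoord z w) :
    Coord k (algebraMap (F k) K z) (algebraMap (F k) K w) := by
  have hfin : FiniteDimensional (FF k (algebraMap (F k) K z) (algebraMap (F k) K w)) K := by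
    rw [FF_eq K h]
    let e : F k ≃+* (IsScalarTower.toAlgHom k (F k) K).fieldRange :=
      (AlgEquiv.ofInjectiveField (IsScalarTower.toAlgHom k (F k) K)).toRingEquiv
    refine Module.Finite.of_equiv_equiv e (RingEquiv.refl K) ?_
    ext x
    rfl
  have := hfin
  have : CharZero (FF k (algebraMap (F k) K z) (algebraMap (F k) K w)) :=
    charZero_of_injective_algebraMap
      (algebraMap k (FF k (algebraMap (F k) K z) (algebraMap (F k) K w))).injective
  refine ⟨?_, hfin, inferInstance⟩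
  intro G H hGH
  rw [cv_eq, cv_eq] at hGH
  exact h.1 ((algebraMap (F k) K).injective hGH)

private theorem conv3 [CharZero k] [FiniteDimensional (F k) K] {z w : F k} {p : MvPolynomial (Fin 2) k}
    {O : Subalgebra k (F k)} (h : IsCoord z w) (hO : IsLoc z w p O) :
    J K O = loc (algebraMap (F k) K z) (algebraMap (F k) K w) p := by
  ext x
  rw [mem_J, mem_loc (conv4 K h) hO.1.prime]
  constructor
  · rintro ⟨y, hy, rfl⟩
    obtain ⟨h₁, h₂, hp, he⟩ := (hO.2 y).1 hy
    refine ⟨h₁, h₂, hp, ?_⟩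
    rw [cv_eq, cv_eq, ← map_mul, he]
  · rintro ⟨G, H, hp, he⟩
    have hH : cm z w H ≠ 0 := by
      intro h0
      have h1 : H = 0 := h.1 (by rw [h0, map_zero])
      exact hp (h1 ▸ dvd_zero p)
    have hH' : algebraMap (F k) K (cm z w H) ≠ 0 := by
      intro h0
      exact hH ((map_eq_zero _).1 h0)
    refine ⟨cm z w G / cm z w H, (hO.2 _).2 ⟨G, H, hp, div_mul_cancel₀ _ hH⟩, ?_⟩
    rw [cv_eq, cv_eq] at he
    rw [map_div₀, div_eq_iff hH', he]

private theorem int_iff {R : Type} [CommRing R] [Algebra R K] {z : K} :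
    IsIntegral R z ↔ ∃ p : Polynomial K, p.Monic ∧ (∀ i, p.coeff i ∈ Set.range (algebraMap R K)) ∧ p.eval z = 0 := by
  constructor
  · rintro ⟨p, hp, hx⟩
    refine ⟨p.map (algebraMap R K), hp.map _, fun i => ?_, ?_⟩
    · rw [Polynomial.coeff_map]
      exact ⟨p.coeff i, rfl⟩
    · rw [Polynomial.eval_map]
      exact hx
  · rintro ⟨p, hp, hc, hx⟩
    have hl : p ∈ Polynomial.lifts (algebraMap R K) := by
      rw [Polynomial.lifts_iff_coeff_lifts]
      exact hc
    obtain ⟨q, hq, -, hqm⟩ := Polynomial.lifts_and_degree_eq_and_monic hl hp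
    refine ⟨q, hqm, ?_⟩
    rw [← Polynomial.eval_map, hq]
    exact hx

omit [IsScalarTower k (F k) K] [Algebra k K] [Algebra (F k) K] in
private theorem PF_eq (P : Pt k) (l0 l1 : Fin 3 → k) (hl : LinearIndependent k ![l0, l1]) (h0 : l0 ⬝ᵥ P.rep = 0)
    (h1 : l1 ⬝ᵥ P.rep = 0) : PF P = IntermediateField.adjoin k {ev l1 / ev l0} := by
  obtain ⟨hadd, hsmul, hzero⟩ := tEv k
  obtain ⟨-, hspan, -⟩ := tPnt k
  have hl0 : ev l0 ≠ 0 := by
    intro h
    exact hl.ne_zero 0 ((hzero l0).1 h)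
  have hlin : ∀ c : Fin 3 → k, c ⬝ᵥ P.rep = 0 →
      ev c / ev l0 ∈ IntermediateField.adjoin k {ev l1 / ev l0} := by
    intro c hc
    obtain ⟨x, y, rfl⟩ := hspan P l0 l1 c hl h0 h1 hc
    have h2 : ev (x • l0 + y • l1) / ev l0 = algebraMap k (F k) x + algebraMap k (F k) y * (ev l1 / ev l0) := by
      rw [hadd, hsmul, hsmul]
      field_simp
    rw [h2]
    exact add_mem (IntermediateField.algebraMap_mem _ _) (mul_mem (IntermediateField.algebraMap_mem _ _)
      (IntermediateField.mem_adjoin_simple_self k _))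
  apply le_antisymm
  · unfold PF
    rw [IntermediateField.adjoin_le_iff]
    rintro x ⟨c, c', hc, hc', rfl⟩
    have h2 : ev c / ev c' = (ev c / ev l0) / (ev c' / ev l0) := by
      rw [div_div_div_cancel_right₀ hl0]
    rw [h2]
    exact div_mem (hlin c hc) (hlin c' hc')
  · rw [IntermediateField.adjoin_le_iff]
    rintro x rfl
    exact IntermediateField.subset_adjoin k _ ⟨l1, l0, h1, h0, rfl⟩

private theorem conv5 (P : Pt k) (l0 l1 : Fin 3 → k) (hl : LinearIndependent k ![l0, l1]) (h0 : l0 ⬝ᵥ P.rep = 0)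
    (h1 : l1 ⬝ᵥ P.rep = 0) (z : K) :
    AlgT k (algebraMap (F k) K (ev l1 / ev l0)) z ↔ IsAlgebraic (PF P) z := by
  rw [PF_eq P l0 l1 hl h0 h1]
  unfold AlgT
  rw [isAlgebraic_iff_isIntegral, isAlgebraic_iff_isIntegral, int_iff, int_iff]
  have h2 : Set.range (algebraMap (IntermediateField.adjoin k {algebraMap (F k) K (ev l1 / ev l0)}) K) =
      Set.range (algebraMap (IntermediateField.adjoin k {ev l1 / ev l0}) K) := by
    have h3 : (IntermediateField.adjoin k {ev l1 / ev l0}).map (IsScalarTower.toAlgHom k (F k) K) =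
        IntermediateField.adjoin k {algebraMap (F k) K (ev l1 / ev l0)} := by
      rw [IntermediateField.adjoin_map, Set.image_singleton]
      rfl
    ext x
    constructor
    · rintro ⟨⟨y, hy⟩, rfl⟩
      rw [← h3] at hy
      obtain ⟨v, hv, hvy⟩ := hy
      exact ⟨⟨v, hv⟩, hvy⟩
    · rintro ⟨y, rfl⟩
      refine ⟨⟨algebraMap (F k) K y, ?_⟩, rfl⟩
      rw [← h3]
      exact ⟨y, y.2, rfl⟩
  rw [h2]

end

theorem tBConv : BConvStmt := by
  intro k _ _ K _ _ _ _ _
  refine ⟨conv1 K, fun S S' h => Subalgebra.map_mono h, fun z w p O h hO => conv3 K h hO, fun z w h => conv4 K h, ?_⟩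
  intro P l0 l1 hl h0 h1 z
  exact conv5 K P l0 l1 hl h0 h1 z

end Pool.Agent.Lib.MP_4318ff_ag.Q
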