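import Pool.Agent.Lib.MP_4318ff_ag.Q.SpecB
import Pool.Agent.Lib.MP_4318ff_ag.Q.LocUFD
import Pool.Agent.Lib.MP_4318ff_ag.A.RegLin

/-!
# Solutions at the divisors
-/

set_option autoImplicit false

namespace Pool.Agent.Lib.MP_4318ff_ag.Q

open MvPolynomial
open scoped LinearAlgebra.Projectivization

section bdiv

variable {k K : Type} [Field k] [Field K] [Algebra k K]

/-- changes of coordinates by automorphisms of the polynomial ring -/
theorem bdiv_loc_equiv (t s t' s' : K) (θ : MvPolynomial (Fin 2) k ≃ₐ[k] MvPolynomial (Fin 2) k)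
    (h0 : cv t s (θ (X 0)) = t') (h1 : cv t s (θ (X 1)) = s') (π : MvPolynomial (Fin 2) k) :
    loc t' s' π = loc t s (θ π) := by
  have hcv : ∀ G, cv t' s' G = cv t s (θ G) := by
    intro G
    have h2 : cv (k := k) t' s' = (cv t s).comp θ.toAlgHom := by
      apply MvPolynomial.algHom_ext
      intro i
      fin_cases i
      · change cv t' s' (X 0) = cv t s (θ (X 0))
        rw [cv_X0, h0]
      · change cv t' s' (X 1) = cv t s (θ (X 1))
        rw [cv_X1, h1]
    rw [h2]
    rfl
  unfold loc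
  congr 1
  ext x
  constructor
  · rintro ⟨G, H, hH, rfl⟩
    exact ⟨θ G, θ H, fun hd => hH ((map_dvd_iff θ).1 hd), by rw [hcv, hcv]⟩
  · rintro ⟨G, H, hH, rfl⟩
    refine ⟨θ.symm G, θ.symm H, fun hd => hH ?_, by
      rw [hcv, hcv, θ.apply_symm_apply, θ.apply_symm_apply]⟩
    have h3 := map_dvd θ hd
    rwa [θ.apply_symm_apply] at h3

theorem bdiv_loc_assoc (t s : K) {π π' : MvPolynomial (Fin 2) k} (h : Associated π π') :
    loc t s π = loc t s π' := by
  unfold loc
  simp only [h.dvd_iff_dvd_left]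

/-- The automorphism `X₀ ↦ a (X₀ - τ)`. -/
noncomputable def bdiv_aut (a τ : k) (ha : a ≠ 0) : MvPolynomial (Fin 2) k ≃ₐ[k] MvPolynomial (Fin 2) k :=
  AlgEquiv.ofAlgHom (aeval ![C a * (X 0 - C τ), X 1]) (aeval ![C a⁻¹ * X 0 + C τ, X 1])
    (by
      apply MvPolynomial.algHom_ext
      intro i
      fin_cases i
      · simp [algebraMap_eq]
        rw [← mul_assoc, ← C_mul, inv_mul_cancel₀ ha, C_1]
        ring
      · simp)
    (by
      apply MvPolynomial.algHom_ext
      intro i
      fin_cases i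
      · simp [algebraMap_eq]
        rw [← mul_assoc, ← C_mul, mul_inv_cancel₀ ha, C_1, one_mul]
      · simp)

theorem bdiv_loc_scale (t σ : K) (a τ : k) (ha : a ≠ 0) :
    loc (algebraMap k K a * (t - algebraMap k K τ)) σ (X 0 : MvPolynomial (Fin 2) k) =
      loc t σ (X 0 - C τ) := by
  have h0 : (bdiv_aut a τ ha) (X 0) = C a * (X 0 - C τ) := by simp [bdiv_aut]
  have h1 : (bdiv_aut a τ ha) (X 1) = X 1 := by simp [bdiv_aut]
  rw [bdiv_loc_equiv t σ _ σ (bdiv_aut a τ ha) (by
    rw [h0, map_mul, map_sub, cv_C, cv_C, cv_X0]) (by rw [h1, cv_X1]), h0]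
  apply bdiv_loc_assoc
  have hu : IsUnit (C a : MvPolynomial (Fin 2) k) := by
    rw [isUnit_iff_exists_inv]
    exact ⟨C a⁻¹, by rw [← C_mul, mul_inv_cancel₀ ha, C_1]⟩
  exact associated_unit_mul_left (X 0 - C τ) (C a) hu

theorem bdiv_loc_swap (t σ : K) :
    loc σ t (X 0 : MvPolynomial (Fin 2) k) = loc t σ (X 1 : MvPolynomial (Fin 2) k) := by
  have h0 : (renameEquiv k (Equiv.swap (0 : Fin 2) 1)) (X 0) = X 1 := by simp
  have h1 : (renameEquiv k (Equiv.swap (0 : Fin 2) 1)) (X 1) = X 0 := by simp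
  rw [bdiv_loc_equiv t σ σ t (renameEquiv k (Equiv.swap (0 : Fin 2) 1)) (by rw [h0, cv_X1])
    (by rw [h1, cv_X0]), h0]

end bdiv

section main

variable {k : Type} [Field k] {K : Type} [Field K] [Algebra (F k) K] [Algebra k K] [IsScalarTower k (F k) K]

theorem bdiv_le {S S' : Subalgebra k (F k)} (h : J K S ≤ J K S') : S ≤ S' := by
  intro x hx
  have h1 : algebraMap (F k) K x ∈ J K S := ⟨x, hx, rfl⟩
  obtain ⟨y, hy, hxy⟩ := h h1
  have h2 : algebraMap (F k) K y = algebraMap (F k) K x := hxy
  rw [← (algebraMap (F k) K).injective h2]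
  exact hy

theorem bdiv_mono {S S' : Subalgebra k (F k)} (h : S ≤ S') : J K S ≤ J K S' := by
  rintro x ⟨y, hy, rfl⟩
  exact ⟨y, h hy, rfl⟩

end main

theorem tBDiv : CurveStmt → ExcStmt → EvStmt → CoordStmt → BConvStmt → BIncStmt → BDivStmt := by
  intro hCur hExc hEv hCo hConv hInc k _ _ K _ _ _ _ _ r C Ms P l0 l1 c2 h v x ρ
  intro t s hρ hsol u O hO huO htO
  classical
  obtain ⟨e1, e2, e3⟩ := hEv k
  obtain ⟨v1, -, v3, v4, -⟩ := hConv k K
  have hl0 : l0 ≠ 0 := h.l0_ne
  have hc2 : c2 ≠ 0 := h.c2_ne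
  have hl1 : l1 ≠ 0 := h.symm.l0_ne
  have hel0 : ev l0 ≠ 0 := fun h0 => hl0 ((e3 l0).1 h0)
  have hel1 : ev l1 ≠ 0 := fun h0 => hl1 ((e3 l1).1 h0)
  have hec2 : ev c2 ≠ 0 := fun h0 => hc2 ((e3 c2).1 h0)
  have hcoo := (hCo k l0 l1 c2 h.li).1
  have hc : Coord k t s := v4 _ _ hcoo
  obtain ⟨i1, i2, i3, i4, i5, i6, i7, i8, i9, i10⟩ := hInc k K r C Ms P l0 l1 c2 h hc
  -- the final step
  have hfin : ∀ a : Chart C, t ∈ J K a.R → a.R ≤ O → (x - ρ a) / v ∈ Q.ic (J K O) →
      (x - ρ u) / v ∈ MP_4318ff_ag.ic K O := by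
    intro a ht ha hx
    rw [v1]
    have h1 : (ρ u - ρ a) / v ∈ Q.ic (J K O) := by
      have h2 := hρ u a (bdiv_mono le_sup_right ht)
      exact ic_mono (bdiv_mono (sup_le huO ha)) h2
    have h2 : (x - ρ u) / v = (x - ρ a) / v - (ρ u - ρ a) / v := by
      rw [← sub_div]
      congr 1
      ring
    rw [h2]
    exact sub_mem hx h1
  rcases hO with hO | ⟨T, hT, hO⟩
  · -- curves
    obtain ⟨-, -, k3, k4⟩ := hCur k O hO
    have hu0 : UnitForm O l0 := by
      rcases k3 l0 hl0 with h1 | h1
      · exact h1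
      · exfalso
        have h2 := (h1 l1 h.li01).2.2.1
        rw [inv_div] at h2
        exact h2 htO
    obtain ⟨p, hp⟩ := k4 l0 l1 c2 h.li hu0
    have hJ : J K O = loc t s p := v3 _ _ p O hcoo hp
    have hpp : Prime p := hp.1.prime
    by_cases hass : ∀ c ∈ ptsOf Ms l0 l1 c2, ¬ Associated p (X 1 - MvPolynomial.C c.2)
    · have h1 := ringV_le_loc hc (ptsOf Ms l0 l1 c2) hpp hass
      rw [← hJ] at h1
      refine hfin (chV h) i1 (bdiv_le (K := K) (i4.trans h1)) ?_
      exact ic_mono h1 hsol.s1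
    · push Not at hass
      obtain ⟨c, hcp, hassoc⟩ := hass
      have hJ' : J K O = loc t s (X 1 - MvPolynomial.C c.2) := by
        rw [hJ]
        exact bdiv_loc_assoc t s hassoc
      have hex : ∃ T ∈ Ms, l0 ⬝ᵥ T.rep ≠ 0 ∧ ptOf l0 l1 c2 T = c := by
        unfold ptsOf at hcp
        rw [Finset.mem_image] at hcp
        obtain ⟨T, hT, hTc⟩ := hcp
        rw [Finset.mem_filter] at hT
        exact ⟨T, hT.1, hT.2, hTc⟩
      have hch := hex.choose_spec
      set T' := hex.choose with hT'
      have h2 : (famOf h ρ).ρT c = ρ (chW h T') := by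
        unfold famOf
        dsimp only
        rw [dif_pos hex]
      have h3 := hsol.s2 c hcp
      rw [h2] at h3
      have h4 : J K (chW h T').R ≤ J K O := by
        rw [hJ']
        have h5 := i8 T' hch.1 hch.2.1
        rw [hch.2.2] at h5
        exact (bdiv_mono le_sup_left).trans h5
      refine hfin (chW h T') (i2 T') (bdiv_le (K := K) h4) ?_
      rw [hJ']
      exact h3
  · by_cases hTP : T = P
    · -- the exceptional curve over `P`
      subst hTP
      have hli : LinearIndependent k ![c2, l0, l1] := by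
        have h1 := reglin_rot _ _ _ (reglin_rot _ _ _ h.li)
        exact h1
      have h4 := ((hExc k T).2 O hO).2.2.2 c2 l0 l1 hli h.p0 h.p1
      have h5 := (hCo k c2 l0 l1 hli).2
      have hJ : J K O = locI k t s := by
        rw [v3 _ _ _ O h5 h4]
        have h6 : algebraMap (F k) K (ev l0 / ev c2) = s⁻¹ := by
          rw [← map_inv₀, inv_div]
        rw [h6]
        exact bdiv_loc_swap t s⁻¹
      refine hfin (ch3 h) i3 (bdiv_le (K := K) ?_) ?_
      · rw [hJ]
        exact (bdiv_mono le_sup_left).trans i10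
      · rw [hJ]
        exact hsol.s4
    · obtain ⟨x1, x2, x3, x4⟩ := (hExc k T).2 O hO
      have hl0T : l0 ⬝ᵥ T.rep ≠ 0 := by
        intro h0
        have hl1T : l1 ⬝ᵥ T.rep ≠ 0 := by
          intro h1
          exact hTP (reglin_pts T P l0 l1 h.li01 h0 h1 h.p0 h.p1)
        have h2 := (x3 l1 l0 hl1T hl0 h0).2.1
        rw [inv_div] at h2
        exact h2 htO
      have hTMs : T ∈ Ms := (h.mem T).2 hT
      have hpt : ptOf l0 l1 c2 T ∈ ptsOf Ms l0 l1 c2 := by
        unfold ptsOf
        rw [Finset.mem_image]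
        exact ⟨T, Finset.mem_filter.2 ⟨hTMs, hl0T⟩, rfl⟩
      have hli : LinearIndependent k ![l0, lin2 T l0 l1, lin2 T l0 c2] := by
        have h1 := h.li
        rw [Fintype.linearIndependent_iff] at h1 ⊢
        intro g hg
        rw [Fin.sum_univ_three] at hg
        simp only [Matrix.cons_val_zero, Matrix.cons_val_one, Matrix.cons_val_two, Matrix.head_cons,
          Matrix.tail_cons] at hg
        have h2 := h1 ![g 0 - g 1 * (l1 ⬝ᵥ T.rep) - g 2 * (c2 ⬝ᵥ T.rep), g 1 * (l0 ⬝ᵥ T.rep),
          g 2 * (l0 ⬝ᵥ T.rep)] (by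
            rw [Fin.sum_univ_three]
            simp only [Matrix.cons_val_zero, Matrix.cons_val_one, Matrix.cons_val_two, Matrix.head_cons,
              Matrix.tail_cons]
            rw [← hg]
            unfold lin2
            module)
        have g1 : g 1 = 0 := by
          have := h2 1
          simp only [Matrix.cons_val_one, Matrix.cons_val_zero] at this
          exact (mul_eq_zero.1 this).resolve_right hl0T
        have g2 : g 2 = 0 := by
          have := h2 2
          simp only [Matrix.cons_val_two, Matrix.tail_cons, Matrix.head_cons, Matrix.cons_val] at this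
          exact (mul_eq_zero.1 this).resolve_right hl0T
        have g0 : g 0 = 0 := by
          have := h2 0
          simp only [Matrix.cons_val_zero] at this
          rw [g1, g2] at this
          simpa using this
        intro i
        fin_cases i
        · exact g0
        · exact g1
        · exact g2
      have h4 := x4 l0 (lin2 T l0 l1) (lin2 T l0 c2) hli (lin2_through T l0 l1) (lin2_through T l0 c2)
      have h5 := (hCo k l0 (lin2 T l0 l1) (lin2 T l0 c2) hli).2
      have hevlin : ∀ c : Fin 3 → k, ev (lin2 T l0 c) = algebraMap k (F k) (l0 ⬝ᵥ T.rep) *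
          (ev l0 * (ev c / ev l0 - algebraMap k (F k) ((c ⬝ᵥ T.rep) / (l0 ⬝ᵥ T.rep)))) := by
        intro c
        have hk : algebraMap k (F k) (l0 ⬝ᵥ T.rep) ≠ 0 := by
          rw [Ne, map_eq_zero]
          exact hl0T
        unfold lin2
        rw [sub_eq_add_neg, ← neg_smul, e1, e2, e2, map_div₀, map_neg]
        field_simp
        ring
      have hkK : algebraMap k (F k) (l0 ⬝ᵥ T.rep) ≠ 0 := by
        rw [Ne, map_eq_zero]
        exact hl0T
      have hJ : J K O = locE t s (ptOf l0 l1 c2 T) := by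
        rw [v3 _ _ _ O h5 h4]
        have h6 : algebraMap (F k) K (ev (lin2 T l0 l1) / ev l0) =
            algebraMap k K (l0 ⬝ᵥ T.rep) * (t - algebraMap k K (ptOf l0 l1 c2 T).1) := by
          rw [hevlin l1]
          have h7 : algebraMap k (F k) (l0 ⬝ᵥ T.rep) *
              (ev l0 * (ev l1 / ev l0 - algebraMap k (F k) ((l1 ⬝ᵥ T.rep) / (l0 ⬝ᵥ T.rep)))) / ev l0 =
              algebraMap k (F k) (l0 ⬝ᵥ T.rep) *
              (ev l1 / ev l0 - algebraMap k (F k) ((l1 ⬝ᵥ T.rep) / (l0 ⬝ᵥ T.rep))) := by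
            field_simp
          rw [h7, map_mul, map_sub, ← IsScalarTower.algebraMap_apply, ← IsScalarTower.algebraMap_apply]
          rfl
        have h8 : algebraMap (F k) K (ev (lin2 T l0 c2) / ev (lin2 T l0 l1)) =
            sl t s (ptOf l0 l1 c2 T) := by
          rw [hevlin l1, hevlin c2, mul_div_mul_left _ _ hkK, mul_div_mul_left _ _ hel0, map_div₀,
            map_sub, map_sub, ← IsScalarTower.algebraMap_apply, ← IsScalarTower.algebraMap_apply]
          rfl
        rw [h6, h8]
        exact bdiv_loc_scale t _ _ _ hl0T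
      refine hfin (chV h) i1 ?_ ?_
      · -- the chart `chV` contains the exceptional curve
        unfold Chart.R
        refine Algebra.adjoin_le ?_
        rintro z (⟨c, rfl⟩ | ⟨T', hT', c, hcT, rfl⟩)
        · exact (x1 l0 hl0T).2 c
        · have haT : (chV h).a T' = if l0 ⬝ᵥ T'.rep = 0 then l0 else lin2 T' l0 c2 := rfl
          by_cases h0 : l0 ⬝ᵥ T'.rep = 0
          · rw [haT, if_pos h0]
            exact (x1 l0 hl0T).2 c
          · rw [haT, if_neg h0]
            by_cases hTT : T' = T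
            · subst hTT
              exact x2 _ _ (lin2_ne h.li02 h0) (lin2_through T' l0 c2) hcT
            · refine (x1 (lin2 T' l0 c2) ?_).2 c
              intro h6
              apply hTT
              refine (h.s0 T' ((h.mem T').2 hT') T hTMs h0 hl0T ?_)
              unfold lin2 at h6
              rw [sub_dotProduct, smul_dotProduct, smul_dotProduct, smul_eq_mul, smul_eq_mul] at h6
              linear_combination -h6
      · rw [hJ]
        exact hsol.s3 _ hpt

end Pool.Agent.Lib.MP_4318ff_ag.Q
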