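import Pool.Agent.Lib.MP_4318ff_ag.Q.SpecB

/-!
# MP_4318ff_ag, bridge: existence of a frame
-/

set_option autoImplicit false

namespace Pool.Agent.Lib.MP_4318ff_ag.Q

open scoped LinearAlgebra.Projectivization

namespace BFrAux

variable {k : Type} [Field k]

theorem dot3 (c v : Fin 3 → k) : c ⬝ᵥ v = c 0 * v 0 + c 1 * v 1 + c 2 * v 2 := by
  simp [dotProduct, Fin.sum_univ_three]

/-- a form which does not vanish at finitely many given nonzero vectors -/
theorem avoid [Infinite k] (U : Finset (Fin 3 → k)) (hU : ∀ u ∈ U, u ≠ 0) :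
    ∃ c : Fin 3 → k, ∀ u ∈ U, c ⬝ᵥ u ≠ 0 := by
  classical
  let p : (Fin 3 → k) → Polynomial k := fun u =>
    Polynomial.C (u 0) + Polynomial.C (u 1) * Polynomial.X + Polynomial.C (u 2) * Polynomial.X ^ 2
  have hp : ∀ u : Fin 3 → k, u ≠ 0 → p u ≠ 0 := by
    intro u hu h0
    apply hu
    have h1 : (p u).coeff 0 = 0 := by rw [h0, Polynomial.coeff_zero]
    have h2 : (p u).coeff 1 = 0 := by rw [h0, Polynomial.coeff_zero]
    have h3 : (p u).coeff 2 = 0 := by rw [h0, Polynomial.coeff_zero]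
    simp only [p, Polynomial.coeff_add, Polynomial.coeff_C_mul, Polynomial.coeff_X_pow,
      Polynomial.coeff_C, Polynomial.coeff_X] at h1 h2 h3
    norm_num at h1 h2 h3
    funext i
    fin_cases i
    · exact h1
    · exact h2
    · exact h3
  have hprod : ∏ u ∈ U, p u ≠ 0 := Finset.prod_ne_zero_iff.mpr fun u hu => hp u (hU u hu)
  obtain ⟨x, hx⟩ := Infinite.exists_notMem_finset (∏ u ∈ U, p u).roots.toFinset
  rw [Multiset.mem_toFinset, Polynomial.mem_roots hprod, Polynomial.IsRoot.def,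
    Polynomial.eval_prod] at hx
  refine ⟨![1, x, x ^ 2], fun u hu h0 => hx (Finset.prod_eq_zero hu ?_)⟩
  rw [dot3] at h0
  simp only [Matrix.cons_val_zero, Matrix.cons_val_one, Matrix.cons_val] at h0
  simp only [p, Polynomial.eval_add, Polynomial.eval_mul, Polynomial.eval_C, Polynomial.eval_pow,
    Polynomial.eval_X]
  linear_combination h0

theorem eq_of_smul {T T' : Pt k} {a b : k} (ha : a ≠ 0) (h : a • T.rep = b • T'.rep) : T = T' := by
  have h1 : T.rep = (a⁻¹ * b) • T'.rep := by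
    rw [mul_smul, ← h, smul_smul, inv_mul_cancel₀ ha, one_smul]
  rw [← T.mk_rep, ← T'.mk_rep]
  exact (Projectivization.mk_eq_mk_iff' _ _ _ _ _).mpr ⟨a⁻¹ * b, h1.symm⟩

/-- the vector which compares the slopes of two points -/
noncomputable def dv (l : Fin 3 → k) (q : Pt k × Pt k) : Fin 3 → k :=
  (l ⬝ᵥ q.2.rep) • q.1.rep - (l ⬝ᵥ q.1.rep) • q.2.rep

theorem dv_dot (l c : Fin 3 → k) (q : Pt k × Pt k) :
    c ⬝ᵥ dv l q = (c ⬝ᵥ q.1.rep) * (l ⬝ᵥ q.2.rep) - (c ⬝ᵥ q.2.rep) * (l ⬝ᵥ q.1.rep) := by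
  unfold dv
  rw [dotProduct_sub, dotProduct_smul, dotProduct_smul, smul_eq_mul, smul_eq_mul]
  ring

theorem dv_ne {l : Fin 3 → k} {q : Pt k × Pt k} (hq : q.1 ≠ q.2) (hl : l ⬝ᵥ q.2.rep ≠ 0) :
    dv l q ≠ 0 := by
  intro h0
  exact hq (eq_of_smul hl (sub_eq_zero.mp h0))

end BFrAux

open BFrAux in
/-- Module BFr: existence of a frame. -/
theorem tBFr : BFrStmt := by
  classical
  intro k _ _ r C Ms P l0 l1 hMs hP hli h0 h1
  let pr : (Fin 3 → k) → Finset (Pt k × Pt k) := fun l =>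
    (Ms ×ˢ Ms).filter fun q => q.1 ≠ q.2 ∧ l ⬝ᵥ q.2.rep ≠ 0
  let U : Finset (Fin 3 → k) := Ms.image (fun T => T.rep) ∪
    ((pr l0).image (dv l0) ∪ (pr l1).image (dv l1))
  have hU : ∀ u ∈ U, u ≠ 0 := by
    intro u hu
    rcases Finset.mem_union.mp hu with hu | hu
    · obtain ⟨T, _, rfl⟩ := Finset.mem_image.mp hu
      exact T.rep_nonzero
    · rcases Finset.mem_union.mp hu with hu | hu
      · obtain ⟨q, hq, rfl⟩ := Finset.mem_image.mp hu
        have hq2 := (Finset.mem_filter.mp hq).2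
        exact dv_ne hq2.1 hq2.2
      · obtain ⟨q, hq, rfl⟩ := Finset.mem_image.mp hu
        have hq2 := (Finset.mem_filter.mp hq).2
        exact dv_ne hq2.1 hq2.2
  obtain ⟨c2, hc2⟩ := avoid U hU
  have hT : ∀ T ∈ Ms, c2 ⬝ᵥ T.rep ≠ 0 := fun T hT =>
    hc2 _ (Finset.mem_union_left _ (Finset.mem_image_of_mem _ hT))
  have key : ∀ l : Fin 3 → k, (∀ q ∈ pr l, c2 ⬝ᵥ dv l q ≠ 0) → ∀ T ∈ Ms, ∀ T' ∈ Ms,
      l ⬝ᵥ T.rep ≠ 0 → l ⬝ᵥ T'.rep ≠ 0 →
      (c2 ⬝ᵥ T.rep) * (l ⬝ᵥ T'.rep) = (c2 ⬝ᵥ T'.rep) * (l ⬝ᵥ T.rep) → T = T' := by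
    intro l hl T hT T' hT' _ hlT' heq
    by_contra hne
    refine hl (T, T') (Finset.mem_filter.mpr ⟨Finset.mem_product.mpr ⟨hT, hT'⟩, hne, hlT'⟩) ?_
    rw [dv_dot]
    exact sub_eq_zero.mpr heq
  refine ⟨c2, hMs, hP, ?_, h0, h1, hT, key l0 fun q hq => hc2 _ ?_, key l1 fun q hq => hc2 _ ?_⟩
  · rw [Fintype.linearIndependent_iff]
    intro g hg
    rw [Fin.sum_univ_three] at hg
    simp only [Matrix.cons_val_zero, Matrix.cons_val_one, Matrix.cons_val] at hg
    have h3 : g 2 = 0 := by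
      have h4 := congrArg (fun v : Fin 3 → k => v ⬝ᵥ P.rep) hg
      simp only [add_dotProduct, smul_dotProduct, h0, h1, zero_dotProduct, smul_eq_mul, mul_zero,
        zero_add] at h4
      exact (mul_eq_zero.mp h4).resolve_right (hT P hP)
    rw [h3, zero_smul, add_zero] at hg
    have h5 := LinearIndependent.pair_iff.mp hli (g 0) (g 1) hg
    intro i
    fin_cases i
    · exact h5.1
    · exact h5.2
    · exact h3
  · exact Finset.mem_union_right _ (Finset.mem_union_left _ (Finset.mem_image_of_mem _ hq))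
  · exact Finset.mem_union_right _ (Finset.mem_union_right _ (Finset.mem_image_of_mem _ hq))

end Pool.Agent.Lib.MP_4318ff_ag.Q
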