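import Pool.Agent.Lib.MP_4318ff_ag.Q.SpecB
import Pool.Agent.Lib.MP_4318ff_ag.A.Ev
import Pool.Agent.Lib.MP_4318ff_ag.LA.Pnt

/-!
# MP_4318ff_ag, bridge: the chart rings in coordinates
-/

set_option autoImplicit false

namespace Pool.Agent.Lib.MP_4318ff_ag.Q

open MvPolynomial

namespace BIncAux

variable {k : Type} [Field k] {K : Type} [Field K] [Algebra (F k) K] [Algebra k K]
  [IsScalarTower k (F k) K] {r : ℕ} {C : Config k r} {Ms : Finset (Pt k)} {P : Pt k}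
  {l0 l1 c2 : Fin 3 → k}

variable (K) in
/-- the value of a form in `K` -/
noncomputable def e (c : Fin 3 → k) : K := algebraMap (F k) K (ev c)

theorem e_add (a b : Fin 3 → k) : e K (a + b) = e K a + e K b := by
  unfold e
  rw [(tEv k).1, map_add]

theorem e_smul (x : k) (a : Fin 3 → k) : e K (x • a) = algebraMap k K x * e K a := by
  unfold e
  rw [(tEv k).2.1, map_mul, ← IsScalarTower.algebraMap_apply]

theorem e_ne {a : Fin 3 → k} (h : a ≠ 0) : e K a ≠ 0 := by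
  unfold e
  intro h0
  rw [map_eq_zero_iff _ (algebraMap (F k) K).injective, (tEv k).2.2] at h0
  exact h h0

theorem e_sub (a b : Fin 3 → k) : e K (a - b) = e K a - e K b := by
  have h : a - b = a + (-1 : k) • b := by
    rw [neg_smul, one_smul, sub_eq_add_neg]
  rw [h, e_add, e_smul, map_neg, map_one]
  ring

theorem e_lin2 (T : Pt k) (c d : Fin 3 → k) : e K (lin2 T c d) =
    algebraMap k K (c ⬝ᵥ T.rep) * e K d - algebraMap k K (d ⬝ᵥ T.rep) * e K c := by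
  unfold lin2
  rw [e_sub, e_smul, e_smul]

theorem J_le {u : Chart C} {S : Subalgebra k K} (h1 : ∀ c : Fin 3 → k, e K c / e K u.b ∈ S)
    (h2 : ∀ T ∈ C.M, ∀ c : Fin 3 → k, c ⬝ᵥ T.rep = 0 → e K c / e K (u.a T) ∈ S) :
    J K u.R ≤ S := by
  unfold J
  rw [Subalgebra.map_le]
  unfold Chart.R
  refine Algebra.adjoin_le ?_
  rintro z (⟨c, rfl⟩ | ⟨T, hT, c, hc, rfl⟩)
  · have h3 := h1 c
    unfold e at h3
    rw [← map_div₀] at h3
    exact h3
  · have h3 := h2 T hT c hc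
    unfold e at h3
    rw [← map_div₀] at h3
    exact h3

theorem J_sup_le {A B : Subalgebra k (F k)} {S : Subalgebra k K} (hA : J K A ≤ S)
    (hB : J K B ≤ S) : J K (A ⊔ B) ≤ S := by
  unfold J at hA hB ⊢
  rw [Subalgebra.map_le] at hA hB ⊢
  exact sup_le hA hB

theorem basis (h : LinearIndependent k ![l0, l1, c2]) (c : Fin 3 → k) :
    ∃ x y z : k, c = x • l0 + y • l1 + z • c2 := by
  have h1 : Submodule.span k (Set.range ![l0, l1, c2]) = ⊤ :=
    h.span_eq_top_of_card_eq_finrank (by simp)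
  have h2 : c ∈ Submodule.span k (Set.range ![l0, l1, c2]) := by
    rw [h1]
    exact Submodule.mem_top
  rw [Submodule.mem_span_range_iff_exists_fun] at h2
  obtain ⟨g, hg⟩ := h2
  refine ⟨g 0, g 1, g 2, ?_⟩
  rw [← hg, Fin.sum_univ_three]
  rfl

theorem dec0 (h : LinearIndependent k ![l0, l1, c2]) {T : Pt k} (h0 : l0 ⬝ᵥ T.rep ≠ 0)
    {c : Fin 3 → k} (hc : c ⬝ᵥ T.rep = 0) : ∃ x y : k, c = x • lin2 T l0 l1 + y • lin2 T l0 c2 := by
  obtain ⟨x, y, z, rfl⟩ := basis h c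
  rw [add_dotProduct, add_dotProduct, smul_dotProduct, smul_dotProduct, smul_dotProduct,
    smul_eq_mul, smul_eq_mul, smul_eq_mul] at hc
  refine ⟨y / (l0 ⬝ᵥ T.rep), z / (l0 ⬝ᵥ T.rep), ?_⟩
  funext i
  simp only [lin2, Pi.add_apply, Pi.smul_apply, Pi.sub_apply, smul_eq_mul]
  field_simp
  linear_combination (l0 i) * hc

theorem dec1 (h : LinearIndependent k ![l0, l1, c2]) {T : Pt k} (h0 : l0 ⬝ᵥ T.rep = 0)
    (h1 : l1 ⬝ᵥ T.rep ≠ 0) {c : Fin 3 → k} (hc : c ⬝ᵥ T.rep = 0) :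
    ∃ x y : k, c = x • l0 + y • lin2 T l1 c2 := by
  obtain ⟨x, y, z, rfl⟩ := basis h c
  rw [add_dotProduct, add_dotProduct, smul_dotProduct, smul_dotProduct, smul_dotProduct,
    smul_eq_mul, smul_eq_mul, smul_eq_mul, h0] at hc
  refine ⟨x, z / (l1 ⬝ᵥ T.rep), ?_⟩
  funext i
  simp only [lin2, Pi.add_apply, Pi.smul_apply, Pi.sub_apply, smul_eq_mul]
  field_simp
  linear_combination (l1 i) * hc

theorem alg_mem (S : Subalgebra k K) (x : k) : algebraMap k K x ∈ S := S.algebraMap_mem x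

/-- the quotients with denominator `l0` -/
theorem div_l0 (h : Fr C Ms P l0 l1 c2) {S : Subalgebra k K} (ht : e K l1 / e K l0 ∈ S)
    (hs : e K c2 / e K l0 ∈ S) (c : Fin 3 → k) : e K c / e K l0 ∈ S := by
  obtain ⟨x, y, z, rfl⟩ := basis h.li c
  have h0 : e K l0 ≠ 0 := e_ne h.l0_ne
  have h1 : e K (x • l0 + y • l1 + z • c2) / e K l0 =
      algebraMap k K x + algebraMap k K y * (e K l1 / e K l0) +
        algebraMap k K z * (e K c2 / e K l0) := by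
    rw [e_add, e_add, e_smul, e_smul, e_smul]
    field_simp
  rw [h1]
  exact add_mem (add_mem (alg_mem S x) (mul_mem (alg_mem S y) ht)) (mul_mem (alg_mem S z) hs)

/-- the slope quotient -/
theorem ratio (h : Fr C Ms P l0 l1 c2) {T : Pt k} (h0 : l0 ⬝ᵥ T.rep ≠ 0) :
    e K (lin2 T l0 l1) / e K (lin2 T l0 c2) =
      (e K l1 / e K l0 - algebraMap k K (ptOf l0 l1 c2 T).1) /
        (e K c2 / e K l0 - algebraMap k K (ptOf l0 l1 c2 T).2) := by
  have hl0 : e K l0 ≠ 0 := e_ne h.l0_ne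
  have hk : algebraMap k K (l0 ⬝ᵥ T.rep) ≠ 0 := by
    rw [map_ne_zero]
    exact h0
  have h1 : e K (lin2 T l0 l1) = (algebraMap k K (l0 ⬝ᵥ T.rep) * e K l0) *
      (e K l1 / e K l0 - algebraMap k K (ptOf l0 l1 c2 T).1) := by
    rw [e_lin2]
    unfold ptOf
    rw [map_div₀]
    field_simp
  have h2 : e K (lin2 T l0 c2) = (algebraMap k K (l0 ⬝ᵥ T.rep) * e K l0) *
      (e K c2 / e K l0 - algebraMap k K (ptOf l0 l1 c2 T).2) := by
    rw [e_lin2]
    unfold ptOf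
    rw [map_div₀]
    field_simp
  rw [h1, h2]
  exact mul_div_mul_left _ _ (mul_ne_zero hk hl0)

theorem div_lin (h : Fr C Ms P l0 l1 c2) {S : Subalgebra k K} {T : Pt k} (h0 : l0 ⬝ᵥ T.rep ≠ 0)
    (hr : (e K l1 / e K l0 - algebraMap k K (ptOf l0 l1 c2 T).1) /
        (e K c2 / e K l0 - algebraMap k K (ptOf l0 l1 c2 T).2) ∈ S) {c : Fin 3 → k}
    (hc : c ⬝ᵥ T.rep = 0) : e K c / e K (lin2 T l0 c2) ∈ S := by
  obtain ⟨x, y, rfl⟩ := dec0 h.li h0 hc
  have hne : e K (lin2 T l0 c2) ≠ 0 := e_ne (lin2_ne h.li02 h0)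
  rw [e_add, e_smul, e_smul, add_div, mul_div_assoc, mul_div_assoc, div_self hne, ratio h h0]
  exact add_mem (mul_mem (alg_mem S x) hr) (mul_mem (alg_mem S y) (one_mem S))

theorem div_lin' (h : Fr C Ms P l0 l1 c2) {S : Subalgebra k K} {T : Pt k} (h0 : l0 ⬝ᵥ T.rep ≠ 0)
    (hr : (e K c2 / e K l0 - algebraMap k K (ptOf l0 l1 c2 T).2) /
      (e K l1 / e K l0 - algebraMap k K (ptOf l0 l1 c2 T).1) ∈ S) {c : Fin 3 → k}
    (hc : c ⬝ᵥ T.rep = 0) : e K c / e K (lin2 T l0 l1) ∈ S := by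
  obtain ⟨x, y, rfl⟩ := dec0 h.li h0 hc
  have hne : e K (lin2 T l0 l1) ≠ 0 := e_ne (lin2_ne h.li01 h0)
  have h1 : e K (lin2 T l0 c2) / e K (lin2 T l0 l1) =
      (e K c2 / e K l0 - algebraMap k K (ptOf l0 l1 c2 T).2) /
      (e K l1 / e K l0 - algebraMap k K (ptOf l0 l1 c2 T).1) := by
    rw [← inv_div, ratio h h0, inv_div]
  rw [e_add, e_smul, e_smul, add_div, mul_div_assoc, mul_div_assoc, div_self hne, h1]
  exact add_mem (mul_mem (alg_mem S x) (one_mem S)) (mul_mem (alg_mem S y) hr)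

theorem JV (h : Fr C Ms P l0 l1 c2) {S : Subalgebra k K} (ht : e K l1 / e K l0 ∈ S)
    (hs : e K c2 / e K l0 ∈ S)
    (hr : ∀ T ∈ Ms, l0 ⬝ᵥ T.rep ≠ 0 → (e K l1 / e K l0 - algebraMap k K (ptOf l0 l1 c2 T).1) /
        (e K c2 / e K l0 - algebraMap k K (ptOf l0 l1 c2 T).2) ∈ S) :
    J K (chV h).R ≤ S := by
  classical
  refine J_le (fun c => div_l0 h ht hs c) (fun T hT c hc => ?_)
  have hTM : T ∈ Ms := (h.mem T).mpr hT
  by_cases h0 : l0 ⬝ᵥ T.rep = 0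
  · have h1 : (chV h).a T = l0 := if_pos h0
    rw [h1]
    exact div_l0 h ht hs c
  · have h1 : (chV h).a T = lin2 T l0 c2 := if_neg h0
    rw [h1]
    exact div_lin h h0 (hr T hTM h0) hc

theorem JW (h : Fr C Ms P l0 l1 c2) (T₀ : Pt k) {S : Subalgebra k K} (ht : e K l1 / e K l0 ∈ S)
    (hs : e K c2 / e K l0 ∈ S)
    (hr : ∀ T ∈ Ms, T ≠ T₀ → l0 ⬝ᵥ T.rep ≠ 0 →
      (e K l1 / e K l0 - algebraMap k K (ptOf l0 l1 c2 T).1) /
        (e K c2 / e K l0 - algebraMap k K (ptOf l0 l1 c2 T).2) ∈ S)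
    (hσ : l0 ⬝ᵥ T₀.rep ≠ 0 → (e K c2 / e K l0 - algebraMap k K (ptOf l0 l1 c2 T₀).2) /
      (e K l1 / e K l0 - algebraMap k K (ptOf l0 l1 c2 T₀).1) ∈ S) :
    J K (chW h T₀).R ≤ S := by
  classical
  refine J_le (fun c => div_l0 h ht hs c) (fun T hT c hc => ?_)
  have hTM : T ∈ Ms := (h.mem T).mpr hT
  by_cases h0 : l0 ⬝ᵥ T.rep = 0
  · have h1 : (chW h T₀).a T = l0 := if_pos h0
    rw [h1]
    exact div_l0 h ht hs c
  · by_cases hT0 : T = T₀
    · have h1 : (chW h T₀).a T = lin2 T l0 l1 := (if_neg h0).trans (if_pos hT0)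
      rw [h1]
      subst hT0
      exact div_lin' h h0 (hσ h0) hc
    · have h1 : (chW h T₀).a T = lin2 T l0 c2 := (if_neg h0).trans (if_neg hT0)
      rw [h1]
      exact div_lin h h0 (hr T hTM hT0 h0) hc

theorem J3 (h : Fr C Ms P l0 l1 c2) {S : Subalgebra k K} (ht : e K l1 / e K l0 ∈ S)
    (hs : (e K c2 / e K l0)⁻¹ ∈ S)
    (hr : ∀ T ∈ Ms, l0 ⬝ᵥ T.rep ≠ 0 → (e K l1 / e K l0 - algebraMap k K (ptOf l0 l1 c2 T).1) /
        (e K c2 / e K l0 - algebraMap k K (ptOf l0 l1 c2 T).2) ∈ S)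
    (hq : ∀ T ∈ Ms, T ≠ P → l0 ⬝ᵥ T.rep = 0 → l1 ⬝ᵥ T.rep ≠ 0 →
      (e K c2 / e K l0 - algebraMap k K (ptOf l1 l0 c2 T).2 * (e K l1 / e K l0))⁻¹ ∈ S) :
    J K (ch3 h).R ≤ S := by
  classical
  have hl0 : e K l0 ≠ 0 := e_ne h.l0_ne
  have hc2 : e K c2 ≠ 0 := e_ne h.c2_ne
  refine J_le (fun c => ?_) (fun T hT c hc => ?_)
  · change e K c / e K c2 ∈ S
    obtain ⟨x, y, z, rfl⟩ := basis h.li c
    have h1 : e K (x • l0 + y • l1 + z • c2) / e K c2 =
        algebraMap k K x * (e K c2 / e K l0)⁻¹ +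
        algebraMap k K y * ((e K l1 / e K l0) * (e K c2 / e K l0)⁻¹) + algebraMap k K z := by
      rw [e_add, e_add, e_smul, e_smul, e_smul]
      field_simp
    rw [h1]
    exact add_mem (add_mem (mul_mem (alg_mem S x) hs) (mul_mem (alg_mem S y) (mul_mem ht hs)))
      (alg_mem S z)
  · have hTM : T ∈ Ms := (h.mem T).mpr hT
    by_cases hTP : T = P
    · have h1 : (ch3 h).a T = l0 := if_pos hTP
      rw [h1]
      subst hTP
      obtain ⟨x, y, rfl⟩ := (tPnt k).2.1 T l0 l1 c h.li01 h.p0 h.p1 hc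
      have h2 : e K (x • l0 + y • l1) / e K l0 =
          algebraMap k K x + algebraMap k K y * (e K l1 / e K l0) := by
        rw [e_add, e_smul, e_smul]
        field_simp
      rw [h2]
      exact add_mem (alg_mem S x) (mul_mem (alg_mem S y) ht)
    · by_cases h0 : l0 ⬝ᵥ T.rep = 0
      · have h1 : l1 ⬝ᵥ T.rep ≠ 0 := fun h1 =>
          hTP ((tPnt k).1 l0 l1 T P h.li01 h0 h1 h.p0 h.p1)
        have h2 : (ch3 h).a T = lin2 T l1 c2 :=
          (if_neg hTP).trans ((if_pos h0).trans (if_neg h1))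
        rw [h2]
        obtain ⟨x, y, rfl⟩ := dec1 h.li h0 h1 hc
        have hk : algebraMap k K (l1 ⬝ᵥ T.rep) ≠ 0 := by
          rw [map_ne_zero]
          exact h1
        have hne : e K (lin2 T l1 c2) ≠ 0 := e_ne (lin2_ne h.symm.li02 h1)
        have h3 : e K (lin2 T l1 c2) = algebraMap k K (l1 ⬝ᵥ T.rep) * e K l0 *
            (e K c2 / e K l0 - algebraMap k K (ptOf l1 l0 c2 T).2 * (e K l1 / e K l0)) := by
          rw [e_lin2]
          unfold ptOf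
          rw [map_div₀]
          field_simp
        have hD := hq T hTM hTP h0 h1
        generalize e K c2 / e K l0 - algebraMap k K (ptOf l1 l0 c2 T).2 * (e K l1 / e K l0) = D
          at h3 hD
        have hD0 : D ≠ 0 := by
          intro h5
          apply hne
          rw [h3, h5, mul_zero]
        have h4 : e K l0 / e K (lin2 T l1 c2) = algebraMap k K (l1 ⬝ᵥ T.rep)⁻¹ * D⁻¹ := by
          rw [h3, map_inv₀]
          field_simp
        rw [e_add, e_smul, e_smul, add_div, mul_div_assoc, mul_div_assoc, div_self hne, h4]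
        exact add_mem (mul_mem (alg_mem S x) (mul_mem (alg_mem S _) hD))
          (mul_mem (alg_mem S y) (one_mem S))
      · have h2 : (ch3 h).a T = lin2 T l0 c2 := (if_neg hTP).trans (if_neg h0)
        rw [h2]
        exact div_lin h h0 (hr T hTM h0) hc

theorem nd {π H : MvPolynomial (Fin 2) k} (a b : k) (h1 : MvPolynomial.eval ![a, b] π = 0)
    (h2 : MvPolynomial.eval ![a, b] H ≠ 0) : ¬ π ∣ H := by
  rintro ⟨q, rfl⟩
  apply h2
  rw [map_mul, h1, zero_mul]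

end BIncAux

open BIncAux in
/-- Module BInc: the chart rings in coordinates. -/
theorem tBInc : BIncStmt := by
  classical
  intro k _ K _ _ _ _ r C Ms P l0 l1 c2 h t s hc
  have ht : t = e K l1 / e K l0 := map_div₀ _ _ _
  have hs : s = e K c2 / e K l0 := map_div₀ _ _ _
  clear_value t s
  have hl0 : e K l0 ≠ 0 := e_ne h.l0_ne
  have hl1 : e K l1 ≠ 0 := e_ne h.symm.l0_ne
  have hc2 : e K c2 ≠ 0 := e_ne h.c2_ne
  have ht0 : t ≠ 0 := hc.t_ne
  have hs0 : s ≠ 0 := hc.s_ne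
  have ht' : e K l0 / e K l1 = t⁻¹ := by rw [ht, inv_div]
  have hs' : e K c2 / e K l1 = s * t⁻¹ := by
    rw [hs, ht]
    field_simp
  have hsT : ∀ T ∈ Ms, l0 ⬝ᵥ T.rep ≠ 0 → (ptOf l0 l1 c2 T).2 ≠ 0 := fun T hT h0 =>
    div_ne_zero (h.c2T T hT) h0
  have hsT' : ∀ T ∈ Ms, l1 ⬝ᵥ T.rep ≠ 0 → (ptOf l1 l0 c2 T).2 ≠ 0 := fun T hT h0 =>
    div_ne_zero (h.c2T T hT) h0
  have hinj : ∀ T ∈ Ms, ∀ T' ∈ Ms, l0 ⬝ᵥ T.rep ≠ 0 → l0 ⬝ᵥ T'.rep ≠ 0 →
      (ptOf l0 l1 c2 T).2 = (ptOf l0 l1 c2 T').2 → T = T' := by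
    intro T hT T' hT' h0 h0' heq
    refine h.s0 T hT T' hT' h0 h0' ?_
    unfold ptOf at heq
    exact (div_eq_div_iff h0 h0').mp heq
  have hinj' : ∀ T ∈ Ms, ∀ T' ∈ Ms, l1 ⬝ᵥ T.rep ≠ 0 → l1 ⬝ᵥ T'.rep ≠ 0 →
      (ptOf l1 l0 c2 T).2 = (ptOf l1 l0 c2 T').2 → T = T' := by
    intro T hT T' hT' h0 h0' heq
    refine h.s1 T hT T' hT' h0 h0' ?_
    unfold ptOf at heq
    exact (div_eq_div_iff h0 h0').mp heq
  have hmem : ∀ T ∈ Ms, l0 ⬝ᵥ T.rep ≠ 0 → ptOf l0 l1 c2 T ∈ ptsOf Ms l0 l1 c2 := fun T hT h0 =>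
    Finset.mem_image_of_mem _ (Finset.mem_filter.mpr ⟨hT, h0⟩)
  have hmem' : ∀ T ∈ Ms, l1 ⬝ᵥ T.rep ≠ 0 → ptOf l1 l0 c2 T ∈ ptsOf Ms l1 l0 c2 := fun T hT h0 =>
    Finset.mem_image_of_mem _ (Finset.mem_filter.mpr ⟨hT, h0⟩)
  -- conversion of the quotients on the other side
  have conv : ∀ T : Pt k, (e K l0 / e K l1 - algebraMap k K (ptOf l1 l0 c2 T).1) /
      (e K c2 / e K l1 - algebraMap k K (ptOf l1 l0 c2 T).2) =
      (1 - algebraMap k K (ptOf l1 l0 c2 T).1 * t) *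
        (s - algebraMap k K (ptOf l1 l0 c2 T).2 * t)⁻¹ := by
    intro T
    rw [ht', hs', ← mul_div_mul_left _ _ ht0, div_eq_mul_inv]
    congr 1
    · field_simp
    · congr 1
      field_simp
  have conv' : ∀ T : Pt k, (e K c2 / e K l1 - algebraMap k K (ptOf l1 l0 c2 T).2) /
      (e K l0 / e K l1 - algebraMap k K (ptOf l1 l0 c2 T).1) =
      (s - algebraMap k K (ptOf l1 l0 c2 T).2 * t) *
        (1 - algebraMap k K (ptOf l1 l0 c2 T).1 * t)⁻¹ := by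
    intro T
    rw [ht', hs', ← mul_div_mul_left _ _ ht0, div_eq_mul_inv]
    congr 1
    · field_simp
    · congr 1
      field_simp
  have hPM : P ∈ C.M := (h.mem P).mp h.hP
  -- memberships of t
  have ht1 : t ∈ J K (chV h).R := by
    refine Subalgebra.mem_map.mpr ⟨ev l1 / ev l0, Algebra.subset_adjoin (Or.inl ⟨l1, rfl⟩), ?_⟩
    rw [ht]
    exact map_div₀ _ _ _
  have ht2 : ∀ T₀, t ∈ J K (chW h T₀).R := by
    intro T₀
    refine Subalgebra.mem_map.mpr ⟨ev l1 / ev l0, Algebra.subset_adjoin (Or.inl ⟨l1, rfl⟩), ?_⟩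
    rw [ht]
    exact map_div₀ _ _ _
  have ht3 : t ∈ J K (ch3 h).R := by
    refine Subalgebra.mem_map.mpr ⟨ev l1 / ev l0,
      Algebra.subset_adjoin (Or.inr ⟨P, hPM, l1, h.p1, ?_⟩), ?_⟩
    · have h1 : (ch3 h).a P = l0 := if_pos rfl
      rw [h1]
    · rw [ht]
      exact map_div₀ _ _ _
  -- the general lemmas in terms of t and s
  have gV : ∀ S : Subalgebra k K, t ∈ S → s ∈ S →
      (∀ T ∈ Ms, l0 ⬝ᵥ T.rep ≠ 0 → (t - algebraMap k K (ptOf l0 l1 c2 T).1) *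
        (s - algebraMap k K (ptOf l0 l1 c2 T).2)⁻¹ ∈ S) → J K (chV h).R ≤ S := by
    intro S h1 h2 h3
    rw [ht] at h1
    rw [hs] at h2
    refine JV h h1 h2 fun T hT h0 => ?_
    rw [← ht, ← hs, div_eq_mul_inv]
    exact h3 T hT h0
  have gW : ∀ (T₀ : Pt k) (S : Subalgebra k K), t ∈ S → s ∈ S →
      (∀ T ∈ Ms, T ≠ T₀ → l0 ⬝ᵥ T.rep ≠ 0 → (t - algebraMap k K (ptOf l0 l1 c2 T).1) *
        (s - algebraMap k K (ptOf l0 l1 c2 T).2)⁻¹ ∈ S) →
      ((s - algebraMap k K (ptOf l0 l1 c2 T₀).2) *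
        (t - algebraMap k K (ptOf l0 l1 c2 T₀).1)⁻¹ ∈ S) → J K (chW h T₀).R ≤ S := by
    intro T₀ S h1 h2 h3 h4
    rw [ht] at h1
    rw [hs] at h2
    refine JW h T₀ h1 h2 (fun T hT hne h0 => ?_) (fun h0 => ?_)
    · rw [← ht, ← hs, div_eq_mul_inv]
      exact h3 T hT hne h0
    · rw [← ht, ← hs, div_eq_mul_inv]
      exact h4
  have g3 : ∀ S : Subalgebra k K, t ∈ S → s⁻¹ ∈ S →
      (∀ T ∈ Ms, l0 ⬝ᵥ T.rep ≠ 0 → (t - algebraMap k K (ptOf l0 l1 c2 T).1) *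
        (s - algebraMap k K (ptOf l0 l1 c2 T).2)⁻¹ ∈ S) →
      (∀ T ∈ Ms, T ≠ P → l0 ⬝ᵥ T.rep = 0 → l1 ⬝ᵥ T.rep ≠ 0 →
        (s - algebraMap k K (ptOf l1 l0 c2 T).2 * t)⁻¹ ∈ S) → J K (ch3 h).R ≤ S := by
    intro S h1 h2 h3 h4
    rw [ht] at h1
    rw [hs] at h2
    refine J3 h h1 h2 (fun T hT h0 => ?_) (fun T hT hne h0 h5 => ?_)
    · rw [← ht, ← hs, div_eq_mul_inv]
      exact h3 T hT h0
    · rw [← ht, ← hs]
      exact h4 T hT hne h0 h5
  have gV' : ∀ S : Subalgebra k K, t⁻¹ ∈ S → s * t⁻¹ ∈ S →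
      (∀ T ∈ Ms, l1 ⬝ᵥ T.rep ≠ 0 → (1 - algebraMap k K (ptOf l1 l0 c2 T).1 * t) *
        (s - algebraMap k K (ptOf l1 l0 c2 T).2 * t)⁻¹ ∈ S) → J K (chV h.symm).R ≤ S := by
    intro S h1 h2 h3
    refine JV h.symm (by rw [ht']; exact h1) (by rw [hs']; exact h2) fun T hT h0 => ?_
    rw [conv T]
    exact h3 T hT h0
  have gW' : ∀ (T₀ : Pt k) (S : Subalgebra k K), t⁻¹ ∈ S → s * t⁻¹ ∈ S →
      (∀ T ∈ Ms, T ≠ T₀ → l1 ⬝ᵥ T.rep ≠ 0 → (1 - algebraMap k K (ptOf l1 l0 c2 T).1 * t) *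
        (s - algebraMap k K (ptOf l1 l0 c2 T).2 * t)⁻¹ ∈ S) →
      ((s - algebraMap k K (ptOf l1 l0 c2 T₀).2 * t) *
        (1 - algebraMap k K (ptOf l1 l0 c2 T₀).1 * t)⁻¹ ∈ S) → J K (chW h.symm T₀).R ≤ S := by
    intro T₀ S h1 h2 h3 h4
    refine JW h.symm T₀ (by rw [ht']; exact h1) (by rw [hs']; exact h2)
      (fun T hT hne h0 => ?_) (fun h0 => ?_)
    · rw [conv T]
      exact h3 T hT hne h0
    · rw [conv' T₀]
      exact h4
  have g3' : ∀ S : Subalgebra k K, t ∈ S → t⁻¹ ∈ S → s⁻¹ ∈ S →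
      (∀ T ∈ Ms, l1 ⬝ᵥ T.rep ≠ 0 → (1 - algebraMap k K (ptOf l1 l0 c2 T).1 * t) *
        (s - algebraMap k K (ptOf l1 l0 c2 T).2 * t)⁻¹ ∈ S) →
      (∀ T ∈ Ms, T ≠ P → l1 ⬝ᵥ T.rep = 0 → l0 ⬝ᵥ T.rep ≠ 0 →
        (s - algebraMap k K (ptOf l0 l1 c2 T).2)⁻¹ ∈ S) → J K (ch3 h.symm).R ≤ S := by
    intro S h0 h1 h2 h3 h4
    refine J3 h.symm (by rw [ht']; exact h1) ?_ (fun T hT h5 => ?_) (fun T hT hne h5 h6 => ?_)
    · rw [hs', mul_inv, inv_inv]
      exact mul_mem h2 h0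
    · rw [conv T]
      exact h3 T hT h5
    · have h7 : (e K c2 / e K l1 - algebraMap k K (ptOf l0 l1 c2 T).2 * (e K l0 / e K l1))⁻¹ =
          t * (s - algebraMap k K (ptOf l0 l1 c2 T).2)⁻¹ := by
        rw [hs', ht', ← sub_mul, mul_inv, inv_inv, mul_comm]
      rw [h7]
      exact mul_mem h0 (h4 T hT hne h5 h6)
  have hk : ∀ (S : Subalgebra k K) (x : k), algebraMap k K x ∈ S := fun S x => S.algebraMap_mem x
  refine ⟨ht1, ht2, ht3, ?_, ?_, ?_, ?_, ?_, ?_, ?_⟩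
  · -- ringV
    refine gV _ (Algebra.subset_adjoin (Or.inl (Or.inl rfl)))
      (Algebra.subset_adjoin (Or.inl (Or.inr rfl))) fun T hT h0 => ?_
    refine mul_mem (sub_mem (Algebra.subset_adjoin (Or.inl (Or.inl rfl))) (hk _ _)) ?_
    exact Algebra.subset_adjoin (Or.inr ⟨_, hmem T hT h0, rfl⟩)
  · -- ringL
    have mt : t ∈ ringL t s (linesOf Ms P l0 l1 c2) := Algebra.subset_adjoin (Or.inl (Or.inl rfl))
    have ms : s ∈ ringL t s (linesOf Ms P l0 l1 c2) := Algebra.subset_adjoin (Or.inl (Or.inr rfl))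
    have ml : ∀ c ∈ linesOf Ms P l0 l1 c2,
        (s - algebraMap k K c.1 - algebraMap k K c.2 * t)⁻¹ ∈
          ringL t s (linesOf Ms P l0 l1 c2) := fun c hc =>
      Algebra.subset_adjoin (Or.inr ⟨c, hc, rfl⟩)
    have msi : s⁻¹ ∈ ringL t s (linesOf Ms P l0 l1 c2) := by
      have h1 := ml (0, 0) (Finset.mem_insert_self _ _)
      rw [map_zero, sub_zero, zero_mul, sub_zero] at h1
      exact h1
    have mr : ∀ T ∈ Ms, l0 ⬝ᵥ T.rep ≠ 0 → (t - algebraMap k K (ptOf l0 l1 c2 T).1) *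
        (s - algebraMap k K (ptOf l0 l1 c2 T).2)⁻¹ ∈ ringL t s (linesOf Ms P l0 l1 c2) := by
      intro T hT h0
      refine mul_mem (sub_mem mt (hk _ _)) ?_
      have h1 := ml ((c2 ⬝ᵥ T.rep) / (l0 ⬝ᵥ T.rep), 0) (Finset.mem_insert_of_mem
        (Finset.mem_union_left _ (Finset.mem_image.mpr
          ⟨T, Finset.mem_filter.mpr ⟨hT, h0⟩, rfl⟩)))
      rw [map_zero, zero_mul, sub_zero] at h1
      exact h1
    refine J_sup_le (gV _ mt ms mr) (g3 _ mt msi mr fun T hT hTP h0 h1 => ?_)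
    have h2 := ml (0, (c2 ⬝ᵥ T.rep) / (l1 ⬝ᵥ T.rep)) (Finset.mem_insert_of_mem
      (Finset.mem_union_right _ (Finset.mem_image.mpr
        ⟨T, Finset.mem_filter.mpr ⟨hT, h0, hTP⟩, rfl⟩)))
    rw [map_zero, sub_zero] at h2
    exact h2
  · -- ringT
    intro T hT h0
    have mt : t ∈ ringT t s (ptsOf Ms l0 l1 c2) (ptOf l0 l1 c2 T) :=
      Algebra.subset_adjoin (Or.inl (Or.inl rfl))
    have ms : s ∈ ringT t s (ptsOf Ms l0 l1 c2) (ptOf l0 l1 c2 T) :=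
      Algebra.subset_adjoin (Or.inl (Or.inr (Or.inl rfl)))
    have mσ : sl t s (ptOf l0 l1 c2 T) ∈ ringT t s (ptsOf Ms l0 l1 c2) (ptOf l0 l1 c2 T) :=
      Algebra.subset_adjoin (Or.inl (Or.inr (Or.inr (Or.inl rfl))))
    have mσi : (sl t s (ptOf l0 l1 c2 T))⁻¹ ∈
        ringT t s (ptsOf Ms l0 l1 c2) (ptOf l0 l1 c2 T) :=
      Algebra.subset_adjoin (Or.inl (Or.inr (Or.inr (Or.inr rfl))))
    have mr : ∀ T' ∈ Ms, T' ≠ T → l0 ⬝ᵥ T'.rep ≠ 0 →
        (t - algebraMap k K (ptOf l0 l1 c2 T').1) *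
        (s - algebraMap k K (ptOf l0 l1 c2 T').2)⁻¹ ∈
          ringT t s (ptsOf Ms l0 l1 c2) (ptOf l0 l1 c2 T) := by
      intro T' hT' hne h0'
      refine mul_mem (sub_mem mt (hk _ _)) (Algebra.subset_adjoin (Or.inr
        ⟨_, hmem T' hT' h0', ?_, rfl⟩))
      intro heq
      exact hne (hinj T' hT' T hT h0' h0 (congrArg Prod.snd heq))
    refine J_sup_le (gV _ mt ms fun T' hT' h0' => ?_) (gW T _ mt ms mr ?_)
    · by_cases hTT : T' = T
      · rw [hTT]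
        unfold sl at mσi
        rw [inv_div, div_eq_mul_inv] at mσi
        exact mσi
      · exact mr T' hT' hTT h0'
    · unfold sl at mσ
      rw [div_eq_mul_inv] at mσ
      exact mσ
  · -- the overlap of the charts chV
    have mt : t ∈ Algebra.adjoin k (({t, t⁻¹, s} ∪
        {x | ∃ T ∈ ptsOf Ms l0 l1 c2, x = (s - algebraMap k K T.2)⁻¹} ∪
        {x | ∃ T ∈ ptsOf Ms l1 l0 c2, x = (s - algebraMap k K T.2 * t)⁻¹} : Set K)) :=
      Algebra.subset_adjoin (Or.inl (Or.inl (Or.inl rfl)))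
    have mti : t⁻¹ ∈ Algebra.adjoin k (({t, t⁻¹, s} ∪
        {x | ∃ T ∈ ptsOf Ms l0 l1 c2, x = (s - algebraMap k K T.2)⁻¹} ∪
        {x | ∃ T ∈ ptsOf Ms l1 l0 c2, x = (s - algebraMap k K T.2 * t)⁻¹} : Set K)) :=
      Algebra.subset_adjoin (Or.inl (Or.inl (Or.inr (Or.inl rfl))))
    have ms : s ∈ Algebra.adjoin k (({t, t⁻¹, s} ∪
        {x | ∃ T ∈ ptsOf Ms l0 l1 c2, x = (s - algebraMap k K T.2)⁻¹} ∪
        {x | ∃ T ∈ ptsOf Ms l1 l0 c2, x = (s - algebraMap k K T.2 * t)⁻¹} : Set K)) :=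
      Algebra.subset_adjoin (Or.inl (Or.inl (Or.inr (Or.inr rfl))))
    refine J_sup_le (gV _ mt ms fun T hT h0 => ?_)
      (gV' _ mti (mul_mem ms mti) fun T hT h0 => ?_)
    · exact mul_mem (sub_mem mt (hk _ _))
        (Algebra.subset_adjoin (Or.inl (Or.inr ⟨_, hmem T hT h0, rfl⟩)))
    · exact mul_mem (sub_mem (one_mem _) (mul_mem (hk _ _) mt))
        (Algebra.subset_adjoin (Or.inr ⟨_, hmem' T hT h0, rfl⟩))
  · -- line s = s_T
    intro T hT h0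
    have hπ : Prime (X 1 - MvPolynomial.C (ptOf l0 l1 c2 T).2 : MvPolynomial (Fin 2) k) :=
      prime_X1_sub _
    generalize hS : loc t s (X 1 - MvPolynomial.C (ptOf l0 l1 c2 T).2) = S
    have mp : ∀ G : MvPolynomial (Fin 2) k, cv t s G ∈ S := fun G => hS ▸ cv_mem_loc t s hπ G
    have mi : ∀ H : MvPolynomial (Fin 2) k,
        ¬ (X 1 - MvPolynomial.C (ptOf l0 l1 c2 T).2) ∣ H → (cv t s H)⁻¹ ∈ S := fun H hH =>
      hS ▸ inv_cv_mem_loc t s hH
    have mt : t ∈ S := by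
      have := mp (X 0)
      rwa [cv_X0] at this
    have ms : s ∈ S := by
      have := mp (X 1)
      rwa [cv_X1] at this
    have mti : t⁻¹ ∈ S := by
      have := mi (X 0) (nd 1 (ptOf l0 l1 c2 T).2 (by simp) (by simp))
      rwa [cv_X0] at this
    have msi : ∀ T' ∈ Ms, T' ≠ T → l0 ⬝ᵥ T'.rep ≠ 0 →
        (s - algebraMap k K (ptOf l0 l1 c2 T').2)⁻¹ ∈ S := by
      intro T' hT' hne h0'
      have := mi (X 1 - MvPolynomial.C (ptOf l0 l1 c2 T').2) (nd 0 (ptOf l0 l1 c2 T).2 (by simp)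
        (by
          simp only [map_sub, eval_X, eval_C, Matrix.cons_val_one, Matrix.cons_val_fin_one]
          rw [sub_ne_zero]
          intro heq
          exact hne (hinj T hT T' hT' h0 h0' heq).symm))
      rwa [map_sub, cv_X1, cv_C] at this
    have mtT : (t - algebraMap k K (ptOf l0 l1 c2 T).1)⁻¹ ∈ S := by
      have := mi (X 0 - MvPolynomial.C (ptOf l0 l1 c2 T).1)
        (nd ((ptOf l0 l1 c2 T).1 + 1) (ptOf l0 l1 c2 T).2 (by simp) (by simp))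
      rwa [map_sub, cv_X0, cv_C] at this
    have msl : ∀ T' ∈ Ms, (s - algebraMap k K (ptOf l1 l0 c2 T').2 * t)⁻¹ ∈ S := by
      intro T' _
      have := mi (X 1 - MvPolynomial.C (ptOf l1 l0 c2 T').2 * X 0)
        (nd 0 (ptOf l0 l1 c2 T).2 (by simp)
        (by
          simp only [map_sub, map_mul, eval_X, eval_C, Matrix.cons_val_one,
            Matrix.cons_val_zero, Matrix.cons_val_fin_one, mul_zero, sub_zero]
          exact hsT T hT h0))
      rwa [map_sub, map_mul, cv_X0, cv_X1, cv_C] at this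
    refine J_sup_le (gW T _ mt ms (fun T' hT' hne h0' => ?_) ?_)
      (gV' _ mti (mul_mem ms mti) fun T' hT' h0' => ?_)
    · exact mul_mem (sub_mem mt (hk _ _)) (msi T' hT' hne h0')
    · exact mul_mem (sub_mem ms (hk _ _)) mtT
    · exact mul_mem (sub_mem (one_mem _) (mul_mem (hk _ _) mt)) (msl T' hT')
  · -- line s = s'_T t
    intro T hT h0
    have hπ : Prime (X 1 - MvPolynomial.C (ptOf l1 l0 c2 T).2 * X 0 :
        MvPolynomial (Fin 2) k) := by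
      have := prime_line (0 : k) (ptOf l1 l0 c2 T).2
      rwa [map_zero, sub_zero] at this
    generalize hS : loc t s (X 1 - MvPolynomial.C (ptOf l1 l0 c2 T).2 * X 0) = S
    have mp : ∀ G : MvPolynomial (Fin 2) k, cv t s G ∈ S := fun G => hS ▸ cv_mem_loc t s hπ G
    have mi : ∀ H : MvPolynomial (Fin 2) k,
        ¬ (X 1 - MvPolynomial.C (ptOf l1 l0 c2 T).2 * X 0) ∣ H → (cv t s H)⁻¹ ∈ S := fun H hH =>
      hS ▸ inv_cv_mem_loc t s hH
    have mt : t ∈ S := by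
      have := mp (X 0)
      rwa [cv_X0] at this
    have ms : s ∈ S := by
      have := mp (X 1)
      rwa [cv_X1] at this
    have mti : t⁻¹ ∈ S := by
      have := mi (X 0) (nd 1 (ptOf l1 l0 c2 T).2 (by simp) (by simp))
      rwa [cv_X0] at this
    have msi : ∀ T' ∈ Ms, l0 ⬝ᵥ T'.rep ≠ 0 →
        (s - algebraMap k K (ptOf l0 l1 c2 T').2)⁻¹ ∈ S := by
      intro T' hT' h0'
      have := mi (X 1 - MvPolynomial.C (ptOf l0 l1 c2 T').2) (nd 0 0 (by simp)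
        (by
          simp only [map_sub, eval_X, eval_C, Matrix.cons_val_one, Matrix.cons_val_fin_one,
            zero_sub]
          exact neg_ne_zero.mpr (hsT T' hT' h0')))
      rwa [map_sub, cv_X1, cv_C] at this
    have mtT : (1 - algebraMap k K (ptOf l1 l0 c2 T).1 * t)⁻¹ ∈ S := by
      have := mi (1 - MvPolynomial.C (ptOf l1 l0 c2 T).1 * X 0)
        (nd 0 0 (by simp) (by simp))
      rwa [map_sub, map_mul, map_one, cv_X0, cv_C] at this
    have msl : ∀ T' ∈ Ms, T' ≠ T → l1 ⬝ᵥ T'.rep ≠ 0 →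
        (s - algebraMap k K (ptOf l1 l0 c2 T').2 * t)⁻¹ ∈ S := by
      intro T' hT' hne h0'
      have := mi (X 1 - MvPolynomial.C (ptOf l1 l0 c2 T').2 * X 0)
        (nd 1 (ptOf l1 l0 c2 T).2 (by simp)
        (by
          simp only [map_sub, map_mul, eval_X, eval_C, Matrix.cons_val_one,
            Matrix.cons_val_zero, Matrix.cons_val_fin_one, mul_one]
          rw [sub_ne_zero]
          intro heq
          exact hne (hinj' T hT T' hT' h0 h0' heq).symm))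
      rwa [map_sub, map_mul, cv_X0, cv_X1, cv_C] at this
    refine J_sup_le (gV _ mt ms fun T' hT' h0' => ?_)
      (gW' T _ mti (mul_mem ms mti) (fun T' hT' hne h0' => ?_) ?_)
    · exact mul_mem (sub_mem mt (hk _ _)) (msi T' hT' h0')
    · exact mul_mem (sub_mem (one_mem _) (mul_mem (hk _ _) mt)) (msl T' hT' hne h0')
    · exact mul_mem (sub_mem ms (mul_mem (hk _ _) mt)) mtT
  · -- infinity
    have hπ : Prime (X 1 : MvPolynomial (Fin 2) k) := by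
      have := prime_X1_sub (0 : k)
      rwa [map_zero, sub_zero] at this
    generalize hS : locI k t s = S
    have mp : ∀ G : MvPolynomial (Fin 2) k, cv t s⁻¹ G ∈ S := fun G =>
      hS ▸ cv_mem_loc t s⁻¹ hπ G
    have mi : ∀ H : MvPolynomial (Fin 2) k, ¬ (X 1) ∣ H → (cv t s⁻¹ H)⁻¹ ∈ S := fun H hH =>
      hS ▸ inv_cv_mem_loc t s⁻¹ hH
    have mt : t ∈ S := by
      have := mp (X 0)
      rwa [cv_X0] at this
    have ms : s⁻¹ ∈ S := by
      have := mp (X 1)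
      rwa [cv_X1] at this
    have mti : t⁻¹ ∈ S := by
      have := mi (X 0) (nd 1 0 (by simp) (by simp))
      rwa [cv_X0] at this
    have msi : ∀ T' : Pt k, (s - algebraMap k K (ptOf l0 l1 c2 T').2)⁻¹ ∈ S := by
      intro T'
      have h1 := mi (1 - MvPolynomial.C (ptOf l0 l1 c2 T').2 * X 1)
        (nd 0 0 (by simp) (by simp))
      rw [map_sub, map_mul, map_one, cv_X1, cv_C] at h1
      have h2 : (s - algebraMap k K (ptOf l0 l1 c2 T').2)⁻¹ =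
          s⁻¹ * (1 - algebraMap k K (ptOf l0 l1 c2 T').2 * s⁻¹)⁻¹ := by
        rw [← mul_inv]
        congr 1
        field_simp
      rw [h2]
      exact mul_mem ms h1
    have msl : ∀ T' : Pt k, (s - algebraMap k K (ptOf l1 l0 c2 T').2 * t)⁻¹ ∈ S := by
      intro T'
      have h1 := mi (1 - MvPolynomial.C (ptOf l1 l0 c2 T').2 * X 0 * X 1)
        (nd 0 0 (by simp) (by simp))
      rw [map_sub, map_mul, map_mul, map_one, cv_X0, cv_X1, cv_C] at h1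
      have h2 : (s - algebraMap k K (ptOf l1 l0 c2 T').2 * t)⁻¹ =
          s⁻¹ * (1 - algebraMap k K (ptOf l1 l0 c2 T').2 * t * s⁻¹)⁻¹ := by
        rw [← mul_inv]
        congr 1
        field_simp
      rw [h2]
      exact mul_mem ms h1
    refine J_sup_le (g3 _ mt ms (fun T hT h0 => ?_) (fun T _ _ _ _ => msl T))
      (g3' _ mt mti ms (fun T hT h0 => ?_) (fun T _ _ _ _ => msi T))
    · exact mul_mem (sub_mem mt (hk _ _)) (msi T)
    · exact mul_mem (sub_mem (one_mem _) (mul_mem (hk _ _) mt)) (msl T)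

end Pool.Agent.Lib.MP_4318ff_ag.Q
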