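import Pool.Agent.Lib.MP_4318ff_ag.Q.SpecB
import Pool.Agent.Lib.MP_4318ff_ag.A.G1
import Pool.Agent.Lib.MP_4318ff_ag.A.G2

/-!
MP_4318ff_ag, module Q/BPF: decomposition of fractions.
-/

set_option autoImplicit false

namespace Pool.Agent.Lib.MP_4318ff_ag.Q

private theorem bpf_span {k : Type} [Field k] (x c d e : Fin 3 → k) (hx : x ≠ 0)
    (hcd : LinearIndependent k ![c, d]) (hc : c ⬝ᵥ x = 0) (hd : d ⬝ᵥ x = 0) (he : e ⬝ᵥ x = 0) :
    ∃ α β : k, e = α • c + β • d := by
  classical
  by_contra hcon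
  push Not at hcon
  have hli : LinearIndependent k ![c, d, e] := by
    rw [LinearIndependent.pair_iff] at hcd
    rw [Fintype.linearIndependent_iff]
    intro g hg
    rw [Fin.sum_univ_three] at hg
    simp only [Matrix.cons_val_zero, Matrix.cons_val_one, Matrix.cons_val_two, Matrix.tail_cons,
      Matrix.head_cons] at hg
    have h2 : g 2 = 0 := by
      by_contra h2
      apply hcon (-(g 2)⁻¹ * g 0) (-(g 2)⁻¹ * g 1)
      have : g 2 • e = -(g 0 • c) - g 1 • d := by
        rw [← sub_eq_zero, ← hg]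
        abel
      calc e = (g 2)⁻¹ • (g 2 • e) := by rw [smul_smul, inv_mul_cancel₀ h2, one_smul]
        _ = _ := by
          rw [this, smul_sub, smul_neg, smul_smul, smul_smul, neg_mul, neg_mul, neg_smul, neg_smul]
          abel
    rw [h2, zero_smul, add_zero] at hg
    have := hcd _ _ hg
    intro i
    fin_cases i
    · exact this.1
    · exact this.2
    · exact h2
  have hsp : Submodule.span k (Set.range ![c, d, e]) = ⊤ :=
    hli.span_eq_top_of_card_eq_finrank' (by simp)
  apply hx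
  have hall : ∀ v : Fin 3 → k, v ⬝ᵥ x = 0 := by
    intro v
    have hv : v ∈ Submodule.span k (Set.range ![c, d, e]) := hsp ▸ Submodule.mem_top
    refine Submodule.span_induction (p := fun v _ => v ⬝ᵥ x = 0) ?_ ?_ ?_ ?_ hv
    · rintro _ ⟨i, rfl⟩
      fin_cases i
      · exact hc
      · exact hd
      · exact he
    · exact zero_dotProduct x
    · intro a b _ _ ha hb
      rw [add_dotProduct, ha, hb, add_zero]
    · intro a b _ hb
      rw [smul_dotProduct, hb, smul_zero]
  funext i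
  have := hall (Pi.single i 1)
  rwa [single_dotProduct, one_mul] at this

/-- the identity for sums of simple fractions -/
private theorem bpf_frac {k : Type} [Field k] {ι : Type} [DecidableEq ι] (I : Finset ι)
    (hI : I.Nonempty) (A B : ι → k) (hB : ∀ i ∈ I, B i ≠ 0)
    (hAB : ∀ i ∈ I, ∀ j ∈ I, i ≠ j → A i * B j ≠ A j * B i) :
    ∃ κ : ι → k, ∀ (R : Type) [CommRing R] [Algebra k R] (t : R),
      ∑ i ∈ I, algebraMap k R (κ i) * ∏ j ∈ I.erase i, (algebraMap k R (A j) + algebraMap k R (B j) * t) = 1 := by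
  let v : ι → k := fun i => - (A i / B i)
  have hv : Set.InjOn v I := by
    intro i hi j hj h
    by_contra hij
    apply hAB i hi j hj hij
    have h1 : A i / B i = A j / B j := neg_injective h
    rwa [div_eq_div_iff (hB i hi) (hB j hj)] at h1
  refine ⟨fun i => ∏ j ∈ I.erase i, ((v i - v j)⁻¹ * (B j)⁻¹), ?_⟩
  intro R _ _ t
  have h1 := congrArg (fun p => Polynomial.aeval t p) (Lagrange.sum_basis hv hI)
  rw [map_sum, map_one] at h1
  rw [← h1]
  refine Finset.sum_congr rfl fun i hi => ?_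
  rw [map_prod, ← Finset.prod_mul_distrib, Lagrange.basis, map_prod]
  refine Finset.prod_congr rfl fun j hj => ?_
  have hj' := Finset.mem_of_mem_erase hj
  have h4 : Polynomial.aeval t (Lagrange.basisDivisor (v i) (v j)) =
      algebraMap k R (v i - v j)⁻¹ * (t - algebraMap k R (v j)) := by
    rw [Lagrange.basisDivisor, map_mul, map_sub, Polynomial.aeval_C, Polynomial.aeval_X,
      Polynomial.aeval_C]
  rw [h4, map_mul]
  have h2 : algebraMap k R (v j) = - (algebraMap k R (A j) * algebraMap k R (B j)⁻¹) := by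
    rw [← map_mul, ← map_neg]
    exact congrArg (algebraMap k R) (show -(A j / B j) = -(A j * (B j)⁻¹) by rw [div_eq_mul_inv])
  have h3 : algebraMap k R (B j)⁻¹ * algebraMap k R (B j) = 1 := by
    rw [← map_mul, inv_mul_cancel₀ (hB j hj'), map_one]
  rw [h2]
  linear_combination (algebraMap k R (v i - v j)⁻¹ * t) * h3

theorem tBPF : BPFStmt := by
  classical
  intro k _ _ r n C K _ _ _ _ P i₀ i₁ I w hn hi₀ hi₁ h01 hI hw u v D hD ht
  have hφ : Function.Injective (algebraMap (F k) K) := (algebraMap (F k) K).injective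
  have hP : P.rep ≠ 0 := P.rep_nonzero
  have hne : ∀ i, C.ℓ i ≠ 0 := by
    intro i
    by_cases h : i = i₀
    · exact (C.indep i i₁ (fun h' => h01 (h ▸ h'))).ne_zero 0
    · exact (C.indep i i₀ h).ne_zero 0
  have hev : ∀ i, ev (C.ℓ i) ≠ 0 := fun i => ev_ne_zero (hne i)
  -- coefficients
  have hcoef : ∀ i, ∃ α β : k, i ∈ I → C.ℓ i = α • C.ℓ i₀ + β • C.ℓ i₁ := by
    intro i
    by_cases hi : i ∈ I
    · obtain ⟨α, β, h⟩ := bpf_span P.rep (C.ℓ i₀) (C.ℓ i₁) (C.ℓ i) hP (C.indep i₀ i₁ h01) hi₀ hi₁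
        ((hI i).1 hi).1
      exact ⟨α, β, fun _ => h⟩
    · exact ⟨0, 0, fun h => absurd h hi⟩
  choose α β hαβ using hcoef
  have hβ : ∀ i ∈ I, β i ≠ 0 := by
    intro i hi h0
    have h1 := hαβ i hi
    rw [h0, zero_smul, add_zero] at h1
    have h2 := (LinearIndependent.pair_iff.1 (C.indep i i₀ ((hI i).1 hi).2)) 1 (-(α i))
      (by rw [one_smul, h1, neg_smul, add_neg_cancel])
    exact one_ne_zero h2.1
  have hαβne : ∀ i ∈ I, ∀ j ∈ I, i ≠ j → α i * β j ≠ α j * β i := by
    intro i hi j hj hij h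
    have h2 := (LinearIndependent.pair_iff.1 (C.indep i j hij)) (β j) (-(β i)) (by
      rw [hαβ i hi, hαβ j hj, smul_add, smul_add, smul_smul, smul_smul, smul_smul, smul_smul]
      have e1 : β j * α i = β i * α j := by rw [mul_comm, h, mul_comm]
      have e2 : -(β i) * α j = -(β j * α i) := by rw [e1]; ring
      have e3 : -(β i) * β j = -(β j * β i) := by ring
      rw [e2, e3, neg_smul, neg_smul]
      abel)
    exact hβ j hj h2.1
  obtain ⟨κ, hκ⟩ := bpf_frac I ⟨i₁, (hI i₁).2 ⟨hi₁, h01.symm⟩⟩ α β hβ hαβne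
  obtain ⟨t, htdef⟩ : ∃ t, t = ev (C.ℓ i₁) / ev (C.ℓ i₀) := ⟨_, rfl⟩
  rw [← htdef] at ht ⊢
  obtain ⟨S, hS⟩ : ∃ S : Subalgebra k (F k), S = u.R ⊔ v.R := ⟨_, rfl⟩
  rw [← hS] at ht hD ⊢
  have hquot : ∀ i ∈ I, ev (C.ℓ i) / ev (C.ℓ i₀) = algebraMap k (F k) (α i) + algebraMap k (F k) (β i) * t := by
    intro i hi
    rw [hαβ i hi, ev_add, ev_smul, ev_smul, htdef]
    have := hev i₀
    field_simp
  have hw' : ∀ i ∈ I, w i ^ n = algebraMap k K (α i) + algebraMap k K (β i) * algebraMap (F k) K t := by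
    intro i hi
    rw [hw i hi, hquot i hi, map_add, map_mul, ← IsScalarTower.algebraMap_apply,
      ← IsScalarTower.algebraMap_apply]
  have hw0 : ∀ i ∈ I, w i ≠ 0 := by
    intro i hi h0
    have h1 := hw i hi
    rw [h0, zero_pow hn.ne'] at h1
    have h2 : ev (C.ℓ i) / ev (C.ℓ i₀) = 0 := hφ (by rw [← h1, map_zero])
    exact (div_ne_zero (hev i) (hev i₀)) h2
  have hconst : ∀ c : k, algebraMap k K c ∈ MP_4318ff_ag.ic K S := by
    intro c
    rw [IsScalarTower.algebraMap_apply k (F k) K]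
    exact algebraMap_mem_ic K (S.algebraMap_mem c)
  have hwic : ∀ i ∈ I, w i ∈ MP_4318ff_ag.ic K S := by
    intro i hi
    have h1 : w i ^ n ∈ MP_4318ff_ag.ic K S := by
      rw [hw i hi, hquot i hi]
      exact algebraMap_mem_ic K (S.add_mem (S.algebraMap_mem _) (S.mul_mem (S.algebraMap_mem _) ht))
    rw [MP_4318ff_ag.mem_ic] at h1 ⊢
    exact h1.of_pow hn
  have hwK : ∀ i ∈ I, w i ∈ Kummer K C n := by
    intro i hi
    exact Subfield.subset_closure (Or.inr ⟨i, i₀, hw i hi⟩)
  have hDw : ∀ i ∈ I, D (w i) ∈ MP_4318ff_ag.ic K S := fun i hi => hD _ (hwic i hi) (hwK i hi)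
  have hDt : ∀ i ∈ I, algebraMap k K (β i) * D (algebraMap (F k) K t) = (n : K) * w i ^ (n - 1) * D (w i) := by
    intro i hi
    have h1 := congrArg D (hw' i hi)
    rw [map_add, D.map_algebraMap, zero_add, ← Algebra.smul_def, D.map_smul, Algebra.smul_def,
      Derivation.leibniz_pow] at h1
    rw [← h1, nsmul_eq_mul, smul_eq_mul]
    ring
  have hκ' := hκ K (algebraMap (F k) K t)
  have key : D (algebraMap (F k) K t) / (∏ i ∈ I, w i) ^ (n - 1) =
      ∑ i ∈ I, algebraMap k K (κ i * ((n : k) * (β i)⁻¹)) * (∏ j ∈ I.erase i, w j) * D (w i) := by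
    have hprod : (∏ i ∈ I, w i) ^ (n - 1) ≠ 0 := pow_ne_zero _ (Finset.prod_ne_zero_iff.2 hw0)
    rw [div_eq_iff hprod, Finset.sum_mul]
    calc D (algebraMap (F k) K t) = (∑ i ∈ I, algebraMap k K (κ i) * ∏ j ∈ I.erase i,
          (algebraMap k K (α j) + algebraMap k K (β j) * algebraMap (F k) K t)) * D (algebraMap (F k) K t) := by
            rw [hκ', one_mul]
      _ = _ := by
        rw [Finset.sum_mul]
        refine Finset.sum_congr rfl fun i hi => ?_
        have e1 : ∏ j ∈ I.erase i, (algebraMap k K (α j) + algebraMap k K (β j) * algebraMap (F k) K t) =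
            (∏ j ∈ I.erase i, w j) ^ (n - 1) * ∏ j ∈ I.erase i, w j := by
          rw [← pow_succ, Nat.sub_add_cancel hn, ← Finset.prod_pow]
          refine Finset.prod_congr rfl fun j hj => ?_
          rw [hw' j (Finset.mem_of_mem_erase hj)]
        have e2 : ∏ j ∈ I, w j = w i * ∏ j ∈ I.erase i, w j := (Finset.mul_prod_erase I w hi).symm
        have hb : algebraMap k K (β i) ≠ 0 := by
          intro h
          exact hβ i hi ((algebraMap k K).injective (by rw [h, map_zero]))
        have e3 : D (algebraMap (F k) K t) = (algebraMap k K (β i))⁻¹ * ((n : K) * w i ^ (n - 1) * D (w i)) := by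
          rw [← hDt i hi, ← mul_assoc, inv_mul_cancel₀ hb, one_mul]
        rw [e1, e2, e3, mul_pow, map_mul, map_mul, map_inv₀, map_natCast]
        ring
  rw [key]
  refine (MP_4318ff_ag.ic K S).sum_mem fun i hi => ?_
  refine (MP_4318ff_ag.ic K S).mul_mem ((MP_4318ff_ag.ic K S).mul_mem (hconst _) ?_) (hDw i hi)
  exact (MP_4318ff_ag.ic K S).prod_mem fun j hj => hwic j (Finset.mem_of_mem_erase hj)

end Pool.Agent.Lib.MP_4318ff_ag.Q
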