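import Pool.Agent.Lib.MP_4318ff_ag.Q.SpecB

/-!
Module Q/BReg: regularity and compatibility of the families given by a function on the charts.
-/

set_option autoImplicit false

namespace Pool.Agent.Lib.MP_4318ff_ag.Q

open MvPolynomial

private theorem BReg_J_mono {k : Type} [Field k] {K : Type} [Field K] [Algebra (F k) K] [Algebra k K]
    [IsScalarTower k (F k) K] {S S' : Subalgebra k (F k)} (h : S ≤ S') : J K S ≤ J K S' := by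
  unfold J
  exact Subalgebra.map_mono h

private theorem BReg_mem_pts {k : Type} [Field k] {Ms : Finset (Pt k)} {l0 l1 c2 : Fin 3 → k} {c : k × k} :
    c ∈ ptsOf Ms l0 l1 c2 ↔ ∃ T ∈ Ms, l0 ⬝ᵥ T.rep ≠ 0 ∧ ptOf l0 l1 c2 T = c := by
  classical
  unfold ptsOf
  rw [Finset.mem_image]
  constructor
  · rintro ⟨T, hT, h1⟩
    rw [Finset.mem_filter] at hT
    exact ⟨T, hT.1, hT.2, h1⟩
  · rintro ⟨T, hT, h1, h2⟩
    exact ⟨T, Finset.mem_filter.2 ⟨hT, h1⟩, h2⟩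

private theorem BReg_ρT {k : Type} [Field k] {K : Type} [Field K] {r : ℕ} {C : Config k r} {Ms : Finset (Pt k)}
    {P : Pt k} {l0 l1 c2 : Fin 3 → k} (h : Fr C Ms P l0 l1 c2) (ρ : Chart C → K) {c : k × k}
    (hc : c ∈ ptsOf Ms l0 l1 c2) :
    ∃ T ∈ Ms, l0 ⬝ᵥ T.rep ≠ 0 ∧ ptOf l0 l1 c2 T = c ∧ (famOf h ρ).ρT c = ρ (chW h T) := by
  classical
  have hT : ∃ T ∈ Ms, l0 ⬝ᵥ T.rep ≠ 0 ∧ ptOf l0 l1 c2 T = c := BReg_mem_pts.1 hc
  refine ⟨hT.choose, hT.choose_spec.1, hT.choose_spec.2.1, hT.choose_spec.2.2, ?_⟩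
  unfold famOf
  exact dif_pos hT

private theorem BReg_ne {k : Type} [Field k] {r : ℕ} {C : Config k r} {Ms : Finset (Pt k)}
    {P : Pt k} {l0 l1 c2 : Fin 3 → k} (h : Fr C Ms P l0 l1 c2) {c : k × k}
    (hc : c ∈ ptsOf Ms l0 l1 c2) : c.2 ≠ 0 := by
  obtain ⟨T, hT, h1, rfl⟩ := BReg_mem_pts.1 hc
  exact div_ne_zero (h.c2T T hT) h1

theorem tBReg : BIncStmt → BRegStmt := by
  intro hI k _ K _ _ _ _ r C Ms P l0 l1 c2 h v ρ t s hc hρ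
  obtain ⟨b1, b2, b3, -, b5, b6, b7, b8, b9, b10⟩ := hI k K r C Ms P l0 l1 c2 h hc
  have hL : ∀ a b : Chart C, t ∈ J K a.R → t ∈ J K (a.R ⊔ b.R) :=
    fun a b ha => BReg_J_mono le_sup_left ha
  refine ⟨⟨?_, ?_, ?_⟩, ?_⟩
  · intro T hT T' hT' hTT
    obtain ⟨T1, hT1, h1, rfl⟩ := BReg_mem_pts.1 hT
    obtain ⟨T2, hT2, h2, rfl⟩ := BReg_mem_pts.1 hT'
    have h3 : (c2 ⬝ᵥ T1.rep) / (l0 ⬝ᵥ T1.rep) = (c2 ⬝ᵥ T2.rep) / (l0 ⬝ᵥ T2.rep) := hTT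
    rw [div_eq_div_iff h1 h2] at h3
    rw [h.s0 T1 hT1 T2 hT2 h1 h2 h3]
  · intro T hT
    obtain ⟨T1, hT1, h1, h2, h3⟩ := BReg_ρT h ρ hT
    rw [h3]
    have h4 := b6 T1 hT1 h1
    rw [h2] at h4
    exact ic_mono h4 (hρ (chV h) (chW h T1) (hL _ _ b1))
  · exact ic_mono b5 (hρ (chV h) (ch3 h) (hL _ _ b1))
  · intro hv
    subst hv
    have hρ1 : ∀ a b : Chart C, t ∈ J K (a.R ⊔ b.R) → ρ a - ρ b ∈ Q.ic (J K (a.R ⊔ b.R)) := by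
      intro a b hab
      have := hρ a b hab
      rwa [div_one] at this
    refine ⟨fun T hT => BReg_ne h hT, fun T hT => BReg_ne h.symm hT, ?_, ?_, ?_, ?_⟩
    · exact ic_mono b7 (hρ1 (chV h) (chV h.symm) (hL _ _ b1))
    · intro T hT
      obtain ⟨T1, hT1, h1, h2, h3⟩ := BReg_ρT h ρ hT
      rw [h3]
      have h4 := b8 T1 hT1 h1
      rw [h2] at h4
      exact ic_mono h4 (hρ1 (chW h T1) (chV h.symm) (hL _ _ (b2 T1)))
    · intro T hT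
      obtain ⟨T1, hT1, h1, h2, h3⟩ := BReg_ρT h.symm ρ hT
      rw [h3]
      have h4 := b9 T1 hT1 h1
      rw [h2] at h4
      exact ic_mono h4 (hρ1 (chV h) (chW h.symm T1) (hL _ _ b1))
    · exact ic_mono b10 (hρ1 (ch3 h) (ch3 h.symm) (hL _ _ b3))

end Pool.Agent.Lib.MP_4318ff_ag.Q
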