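import Pool.Agent.Lib.MP_4318ff_ag.Q.SpecB
import Pool.Agent.Lib.MP_4318ff_ag.A.RegLin

/-!
# Regularity along the pencil
-/

set_option autoImplicit false

namespace Pool.Agent.Lib.MP_4318ff_ag.Q

open MvPolynomial
open scoped LinearAlgebra.Projectivization

section bregat

variable {k : Type} [Field k] {K : Type} [Field K] [Algebra (F k) K] [Algebra k K] [IsScalarTower k (F k) K]

private theorem bregat_dep {c c' : Fin 3 → k} (hc' : c' ≠ 0) (h : ¬ LinearIndependent k ![c, c']) :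
    ∃ s : k, c = s • c' := by
  rw [LinearIndependent.pair_symm_iff, LinearIndependent.pair_iff' hc'] at h
  push Not at h
  obtain ⟨s, hs⟩ := h
  exact ⟨s, hs.symm⟩

omit [Algebra k K] [IsScalarTower k (F k) K] in
private theorem bregat_mem {O : Subalgebra k (F k)} {x : F k} (hx : x ∈ O) :
    algebraMap (F k) K x ∈ MP_4318ff_ag.ic K O := by
  change IsIntegral O (algebraMap (F k) K x)
  have h1 : IsIntegral O x := isIntegral_algebraMap (R := O) (A := F k) (x := ⟨x, hx⟩)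
  exact h1.map (IsScalarTower.toAlgHom O (F k) K)

omit [Algebra k K] [IsScalarTower k (F k) K] in
private theorem bregat_root {O : Subalgebra k (F k)} {x : K} {n : ℕ} (hn : 0 < n) {f : F k} (hf : f ∈ O)
    (h : x ^ n = algebraMap (F k) K f) : x ∈ MP_4318ff_ag.ic K O := by
  have h1 := bregat_mem (K := K) hf
  rw [← h] at h1
  change IsIntegral O x
  exact IsIntegral.of_pow hn h1

omit [Algebra (F k) K] [IsScalarTower k (F k) K] in
private theorem bregat_quot (Δ : Derivation k K K) {x y : K} (hy : y ≠ 0) :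
    Δ (x / y) = (y * Δ x - x * Δ y) * (y⁻¹) ^ 2 := by
  have h1 : Δ (x / y * y) = x / y * Δ y + y * Δ (x / y) := by
    rw [Derivation.leibniz]
    simp only [smul_eq_mul]
  rw [div_mul_cancel₀ _ hy] at h1
  field_simp
  field_simp at h1
  linear_combination -h1

omit [Algebra (F k) K] [IsScalarTower k (F k) K] in
private theorem bregat_pow (Δ : Derivation k K K) {n : ℕ} (hn0 : (n : K) ≠ 0) {z : K}
    (hz : z ≠ 0) : Δ z = (n : K)⁻¹ * (z⁻¹) ^ (n - 1) * Δ (z ^ n) := by
  rw [Derivation.leibniz_pow]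
  simp only [smul_eq_mul, nsmul_eq_mul]
  have h1 : z ^ (n - 1) ≠ 0 := pow_ne_zero _ hz
  rw [inv_pow]
  field_simp

end bregat

theorem tBRegAt : EvStmt → CurveStmt → ExcStmt → UnifStmt → BRegAtStmt := by
  intro hEv _ _ _ k _ _ r n C K _ _ _ _ P i₀ i₁ I w y O Δ hn hi₀ hi₁ hne hI hw hO htO hy hΔ
  obtain ⟨e1, e2, e3⟩ := hEv k
  have hcK : CharZero K := charZero_of_injective_algebraMap (algebraMap k K).injective
  have hn0 : (n : K) ≠ 0 := Nat.cast_ne_zero.2 hn.ne'
  set A := MP_4318ff_ag.ic K O with hA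
  set φ := algebraMap (F k) K with hφ
  set l0 := C.ℓ i₀ with hl0
  set l1 := C.ℓ i₁ with hl1
  set t := ev l1 / ev l0 with ht
  have hli : LinearIndependent k ![l0, l1] := C.indep i₀ i₁ hne
  have hl00 : l0 ≠ 0 := hli.ne_zero 0
  have hel0 : ev l0 ≠ 0 := fun h => hl00 ((e3 l0).1 h)
  have hkA : ∀ a : k, φ (algebraMap k (F k) a) ∈ A := fun a => bregat_mem (O.algebraMap_mem a)
  -- forms through `P`
  have hform : ∀ c : Fin 3 → k, c ⬝ᵥ P.rep = 0 → ∃ α β : k,
      ev c / ev l0 = algebraMap k (F k) α + algebraMap k (F k) β * t := by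
    intro c hc
    obtain ⟨α, β, hab⟩ := reglin_span l0 l1 c P.rep_nonzero hli hi₀ hi₁ hc
    refine ⟨α, β, ?_⟩
    rw [hab, e1, e2, e2, ht]
    field_simp
  have hin : ∀ c : Fin 3 → k, c ⬝ᵥ P.rep = 0 → ev c / ev l0 ∈ O := by
    intro c hc
    obtain ⟨α, β, h⟩ := hform c hc
    rw [h]
    exact O.add_mem (O.algebraMap_mem α) (O.mul_mem (O.algebraMap_mem β) htO)
  have hder : ∀ c : Fin 3 → k, c ⬝ᵥ P.rep = 0 → ∃ β : k,
      Δ (φ (ev c / ev l0)) = φ (algebraMap k (F k) β) * Δ (φ t) := by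
    intro c hc
    obtain ⟨α, β, h⟩ := hform c hc
    refine ⟨β, ?_⟩
    rw [h, map_add, map_mul, map_add, Derivation.leibniz, hφ, ← IsScalarTower.algebraMap_apply,
      ← IsScalarTower.algebraMap_apply, Derivation.map_algebraMap, Derivation.map_algebraMap]
    simp only [smul_eq_mul]
    ring
  have hwA : ∀ i ∈ I, w i ∈ A := by
    intro i hi
    exact bregat_root hn (hin _ ((hI i).1 hi).1) (hw i hi)
  have hΔt : Δ (φ t) ∈ A := by
    rw [hΔ]
    exact A.mul_mem (A.pow_mem (A.prod_mem hwA) _) hy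
  have hell : ∀ i, i ∈ C.through P → ev (C.ℓ i) ≠ 0 := by
    intro i hi h0
    have h1 := (e3 _).1 h0
    by_cases h2 : i = i₀
    · rw [h2] at h1
      exact hl00 h1
    · have h3 := (C.indep i i₀ h2).ne_zero 0
      simp only [Matrix.cons_val_zero] at h3
      exact h3 h1
  -- independent forms with a regular quotient
  have hunit : ∀ c c' : Fin 3 → k, c ⬝ᵥ P.rep = 0 → c' ⬝ᵥ P.rep = 0 → LinearIndependent k ![c, c'] →
      ev c / ev c' ∈ O → (ev c' / ev l0)⁻¹ ∈ O := by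
    intro c c' hc hc' hcc hq
    obtain ⟨x, y, hxy⟩ := reglin_span c c' l0 P.rep_nonzero hcc hc hc' hi₀
    have hc'0 : c' ≠ 0 := hcc.ne_zero 1
    have hec' : ev c' ≠ 0 := fun h => hc'0 ((e3 c').1 h)
    have h1 : (ev c' / ev l0)⁻¹ = algebraMap k (F k) x * (ev c / ev c') + algebraMap k (F k) y := by
      have h2 : ev l0 = algebraMap k (F k) x * ev c + algebraMap k (F k) y * ev c' := by
        rw [← e2, ← e2, ← e1, ← hxy]
      rw [inv_div, h2]
      field_simp
    rw [h1]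
    exact O.add_mem (O.mul_mem (O.algebraMap_mem x) hq) (O.algebraMap_mem y)
  -- the derivative of a quotient of independent forms
  have hquot : ∀ c c' : Fin 3 → k, c ⬝ᵥ P.rep = 0 → c' ⬝ᵥ P.rep = 0 → LinearIndependent k ![c, c'] →
      ev c / ev c' ∈ O → ∃ q ∈ A, Δ (φ (ev c / ev c')) = q * Δ (φ t) := by
    intro c c' hc hc' hcc hq
    have hu := hunit c c' hc hc' hcc hq
    have hc'0 : c' ≠ 0 := hcc.ne_zero 1
    have hec' : ev c' ≠ 0 := fun h => hc'0 ((e3 c').1 h)
    have h1 : ev c / ev c' = (ev c / ev l0) / (ev c' / ev l0) := by field_simp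
    have hne' : φ (ev c' / ev l0) ≠ 0 := by
      rw [Ne, map_eq_zero]
      exact div_ne_zero hec' hel0
    obtain ⟨β, hβ⟩ := hder c hc
    obtain ⟨β', hβ'⟩ := hder c' hc'
    refine ⟨(φ (ev c' / ev l0) * φ (algebraMap k (F k) β) - φ (ev c / ev l0) * φ (algebraMap k (F k) β')) *
      (φ (ev c' / ev l0)⁻¹) ^ 2, ?_, ?_⟩
    · exact A.mul_mem (A.sub_mem (A.mul_mem (bregat_mem (hin c' hc')) (hkA β))
        (A.mul_mem (bregat_mem (hin c hc)) (hkA β'))) (A.pow_mem (bregat_mem hu) 2)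
    · rw [h1, map_div₀, bregat_quot Δ hne', hβ, hβ', map_inv₀]
      ring
  have hfirst : ∀ c c' : Fin 3 → k, c ⬝ᵥ P.rep = 0 → c' ⬝ᵥ P.rep = 0 → ev c / ev c' ∈ O →
      Δ (φ (ev c / ev c')) ∈ A := by
    intro c c' hc hc' hq
    by_cases hc0 : c' = 0
    · have h1 : ev c' = 0 := (e3 c').2 hc0
      rw [h1, div_zero, map_zero, map_zero]
      exact A.zero_mem
    have hec' : ev c' ≠ 0 := fun h => hc0 ((e3 c').1 h)
    by_cases hcc : LinearIndependent k ![c, c']
    · obtain ⟨q, hqA, h⟩ := hquot c c' hc hc' hcc hq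
      rw [h]
      exact A.mul_mem hqA hΔt
    · obtain ⟨s, hs⟩ := bregat_dep hc0 hcc
      have h1 : ev c / ev c' = algebraMap k (F k) s := by
        rw [hs, e2]
        field_simp
      rw [h1, hφ, ← IsScalarTower.algebraMap_apply, Derivation.map_algebraMap]
      exact A.zero_mem
  refine ⟨hfirst, ?_⟩
  intro i hi j hj hq z hz
  have hei := hell i hi
  have hej := hell j hj
  have hlam : φ (ev (C.ℓ i) / ev (C.ℓ j)) ≠ 0 := by
    rw [Ne, map_eq_zero]
    exact div_ne_zero hei hej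
  have hz0 : z ≠ 0 := by
    rintro rfl
    rw [zero_pow hn.ne'] at hz
    exact hlam hz.symm
  have hninv : (n : K)⁻¹ ∈ A := by
    have h1 := hkA ((n : k)⁻¹)
    rw [map_inv₀, map_inv₀, map_natCast, map_natCast] at h1
    exact h1
  rw [bregat_pow Δ hn0 hz0, hz]
  by_cases hij : i = j
  · rw [hij, div_self hej, map_one, Derivation.map_one_eq_zero, mul_zero]
    exact A.zero_mem
  have hcc := C.indep i j hij
  have hu := hunit _ _ hi hj hcc hq
  by_cases hii : i = i₀
  · -- the root is a unit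
    have hz1 : z⁻¹ ∈ A := by
      refine bregat_root hn (hin _ hj) ?_
      rw [inv_pow, hz, ← map_inv₀, inv_div, hii]
    exact A.mul_mem (A.mul_mem hninv (A.pow_mem hz1 _)) (hfirst _ _ hi hj hq)
  · have hiI : i ∈ I := (hI i).2 ⟨hi, hii⟩
    have hw0 : w i ≠ 0 := by
      intro h0
      have h1 := hw i hiI
      rw [h0, zero_pow hn.ne'] at h1
      have h2 : φ (ev (C.ℓ i) / ev l0) ≠ 0 := by
        rw [Ne, map_eq_zero]
        exact div_ne_zero hei hel0
      exact h2 h1.symm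
    have hwz : w i / z ∈ A := by
      refine bregat_root hn (hin _ hj) ?_
      rw [div_pow, hz, hw i hiI, ← map_div₀]
      congr 1
      field_simp
    obtain ⟨q, hqA, h⟩ := hquot _ _ hi hj hcc hq
    classical
    have hprod : ∏ i ∈ I, w i = w i * ∏ j ∈ I.erase i, w j := (Finset.mul_prod_erase I w hiI).symm
    have h1 : (n : K)⁻¹ * z⁻¹ ^ (n - 1) * Δ (φ (ev (C.ℓ i) / ev (C.ℓ j))) =
        (n : K)⁻¹ * (w i / z) ^ (n - 1) * (q * ((∏ j ∈ I.erase i, w j) ^ (n - 1) * y)) := by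
      rw [h, hΔ, hprod, mul_pow, div_pow, inv_pow]
      field_simp
    rw [h1]
    exact A.mul_mem (A.mul_mem hninv (A.pow_mem hwz _)) (A.mul_mem hqA
      (A.mul_mem (A.pow_mem (A.prod_mem fun j hj => hwA j (Finset.mem_of_mem_erase hj)) _) hy))

end Pool.Agent.Lib.MP_4318ff_ag.Q
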