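import Pool.Agent.Lib.MP_4318ff_ag.Q.SpecB
import Pool.Agent.Lib.MP_4318ff_ag.Q.ExDer
import Pool.Agent.Lib.MP_4318ff_ag.Q.CoordCh
import Pool.Agent.Lib.MP_4318ff_ag.A.Ev
import Pool.Agent.Lib.MP_4318ff_ag.A.Coord
import Pool.Agent.Lib.MP_4318ff_ag.A.Loc
import Pool.Agent.Lib.MP_4318ff_ag.A.Unif
import Pool.Agent.Lib.MP_4318ff_ag.A.Curve
import Pool.Agent.Lib.MP_4318ff_ag.A.Exc
import Pool.Agent.Lib.MP_4318ff_ag.A.MFin

/-!
# From Theorem S0 to `S1Stmt ℂ`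
-/

set_option autoImplicit false

namespace Pool.Agent.Lib.MP_4318ff_ag.Q

/-- A form which vanishes at a point is a combination of two independent forms vanishing there. -/
private theorem bs_span {k : Type} [Field k] (x c d e : Fin 3 → k) (hx : x ≠ 0)
    (h : LinearIndependent k ![c, d]) (hc : c ⬝ᵥ x = 0) (hd : d ⬝ᵥ x = 0) (he : e ⬝ᵥ x = 0) :
    ∃ a b : k, e = a • c + b • d := by
  have h1 : (Matrix.of ![e, c, d]).det = 0 := by
    refine Matrix.exists_mulVec_eq_zero_iff.1 ⟨x, hx, ?_⟩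
    ext i
    fin_cases i
    · exact he
    · exact hc
    · exact hd
  obtain ⟨w, hw, hw2⟩ := Matrix.exists_vecMul_eq_zero_iff.2 h1
  have h2 : w 0 • e + w 1 • c + w 2 • d = 0 := by
    ext i
    have h3 := congrFun hw2 i
    simp only [Matrix.vecMul, dotProduct, Fin.sum_univ_three, Matrix.of_apply, Pi.zero_apply] at h3
    simpa using h3
  have h3 : w 0 ≠ 0 := by
    intro h0
    rw [h0, zero_smul, zero_add] at h2
    have h4 := LinearIndependent.pair_iff.1 h (w 1) (w 2) h2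
    apply hw
    ext i
    fin_cases i
    · exact h0
    · exact h4.1
    · exact h4.2
  refine ⟨-(w 0)⁻¹ * w 1, -(w 0)⁻¹ * w 2, ?_⟩
  ext i
  have h4 := congrFun h2 i
  simp only [Pi.add_apply, Pi.smul_apply, smul_eq_mul, Pi.zero_apply] at h4 ⊢
  field_simp
  linear_combination h4

section

variable {k : Type} [Field k] {K : Type} [Field K] [Algebra (F k) K] [Algebra k K] [IsScalarTower k (F k) K]

private theorem bs_ev_ne {c : Fin 3 → k} (h : c ≠ 0) : ev c ≠ 0 := fun h0 => h (((tEv k).2.2 c).1 h0)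

/-- Two derivations which agree on one coordinate of the pencil agree on the pencil. -/
private theorem bs_eqOn (P : Pt k) (l0 l1 : Fin 3 → k) (hli : LinearIndependent k ![l0, l1]) (h0 : l0 ⬝ᵥ P.rep = 0)
    (h1 : l1 ⬝ᵥ P.rep = 0) (E Δ : Derivation k K K)
    (h : E (algebraMap (F k) K (ev l1 / ev l0)) = Δ (algebraMap (F k) K (ev l1 / ev l0))) : EqOn P E Δ := by
  have hl0 : ev l0 ≠ 0 := bs_ev_ne (hli.ne_zero 0)
  set D : Derivation k K K := E - Δ with hD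
  set t : K := algebraMap (F k) K (ev l1 / ev l0) with ht
  have hDt : D t = 0 := by
    rw [hD, Derivation.sub_apply, h, sub_self]
  have hlin : ∀ a b : k, D (algebraMap k K a + algebraMap k K b * t) = 0 := by
    intro a b
    rw [map_add, Derivation.map_algebraMap, zero_add, ← Algebra.smul_def, D.map_smul, hDt, smul_zero]
  have key : ∀ c : Fin 3 → k, c ⬝ᵥ P.rep = 0 → ∃ a b : k,
      algebraMap (F k) K (ev c / ev l0) = algebraMap k K a + algebraMap k K b * t := by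
    intro c hc
    obtain ⟨a, b, rfl⟩ := bs_span P.rep l0 l1 c P.rep_nonzero hli h0 h1 hc
    refine ⟨a, b, ?_⟩
    rw [(tEv k).1, (tEv k).2.1, (tEv k).2.1, IsScalarTower.algebraMap_apply k (F k) K a,
      IsScalarTower.algebraMap_apply k (F k) K b, ht, ← map_mul, ← map_add]
    congr 1
    field_simp
  intro c c' hc hc'
  obtain ⟨a, b, hab⟩ := key c hc
  obtain ⟨a', b', hab'⟩ := key c' hc'
  have h2 : algebraMap (F k) K (ev c / ev c') =
      algebraMap (F k) K (ev c / ev l0) / algebraMap (F k) K (ev c' / ev l0) := by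
    rw [← map_div₀]
    congr 1
    rw [div_div_div_cancel_right₀ hl0]
  have h3 : D (algebraMap (F k) K (ev c / ev c')) = 0 := by
    rw [h2, Derivation.leibniz_div, hab, hab', hlin, hlin, smul_zero, smul_zero, sub_zero, smul_zero]
  rw [hD, Derivation.sub_apply, sub_eq_zero] at h3
  exact h3

open Classical in
/-- The sum over `N` of the conjugates. -/
private theorem bs_sum [CharZero k] [FiniteDimensional (F k) K] (N : Subgroup (K ≃ₐ[F k] K)) (D : Derivation k K K)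
    (h : avgD N D = 0) (f : F k) :
    (∑ g ∈ (Finset.univ.filter (fun g : K ≃ₐ[F k] K => g ∈ N)), g (D (algebraMap (F k) K f))) = 0 := by
  have hne : ((Finset.univ.filter (fun g : K ≃ₐ[F k] K => g ∈ N)).card : k) ≠ 0 := by
    rw [Nat.cast_ne_zero]
    apply Finset.card_ne_zero_of_mem (a := (1 : K ≃ₐ[F k] K))
    rw [Finset.mem_filter]
    exact ⟨Finset.mem_univ _, N.one_mem⟩
  have h1 : (∑ g ∈ (Finset.univ.filter (fun g : K ≃ₐ[F k] K => g ∈ N)), conjD g D) = 0 := by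
    unfold avgD at h
    rcases smul_eq_zero.1 h with h2 | h2
    · exfalso
      apply hne
      have h3 := inv_eq_zero.1 h2
      convert h3
    · convert h2
  have h2 : ∀ g : K ≃ₐ[F k] K, (conjD g D) (algebraMap (F k) K f) = g (D (algebraMap (F k) K f)) := by
    intro g
    have h3 : (conjD g D) (algebraMap (F k) K f) = g (D (g.symm (algebraMap (F k) K f))) := rfl
    rw [h3, AlgEquiv.commutes]
  have h3 := congrArg (fun E : Derivation k K K => E (algebraMap (F k) K f)) h1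
  simp only [Derivation.coe_zero, Pi.zero_apply] at h3
  rw [← h3]
  rw [show (∑ g ∈ (Finset.univ.filter (fun g : K ≃ₐ[F k] K => g ∈ N)), conjD g D) (algebraMap (F k) K f) =
    ∑ g ∈ (Finset.univ.filter (fun g : K ≃ₐ[F k] K => g ∈ N)), (conjD g D) (algebraMap (F k) K f) from ?_]
  · exact Finset.sum_congr rfl (fun g _ => (h2 g).symm)
  · exact map_sum (⟨⟨fun E : Derivation k K K => E (algebraMap (F k) K f), rfl⟩, fun _ _ => rfl⟩ : Derivation k K K →+ K) _ _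

end

/-- Division by a root of unity free product: the two modulus functions. -/
private theorem bs_prod {r : ℕ} {K : Type} [Field K] [DecidableEq (Fin r)] (T : Finset (Fin r)) (i₀ i₁ : Fin r) (h0 : i₀ ∈ T)
    (h1 : i₁ ∈ T) (hne : i₀ ≠ i₁) (w w' : Fin r → K) (υ : K) (hυ : υ ≠ 0) (hw : w i₁ = υ⁻¹) (hw0 : w' i₀ = υ)
    (hw' : ∀ i, i ≠ i₀ → w' i = w i * υ) :
    ∏ i ∈ T.erase i₁, w' i = (∏ i ∈ T.erase i₀, w i) * υ ^ T.card := by
  have e1 : i₀ ∈ T.erase i₁ := Finset.mem_erase.2 ⟨hne, h0⟩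
  have e2 : i₁ ∈ T.erase i₀ := Finset.mem_erase.2 ⟨hne.symm, h1⟩
  rw [← Finset.mul_prod_erase _ _ e1, ← Finset.mul_prod_erase _ _ e2, Finset.erase_right_comm, hw0, hw]
  have h3 : ∏ x ∈ (T.erase i₀).erase i₁, w' x = (∏ x ∈ (T.erase i₀).erase i₁, w x) * υ ^ ((T.erase i₀).erase i₁).card := by
    rw [← Finset.prod_const, ← Finset.prod_mul_distrib]
    refine Finset.prod_congr rfl fun i hi => ?_
    apply hw'
    rw [Finset.mem_erase, Finset.mem_erase] at hi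
    exact hi.2.1
  have h4 : T.card = ((T.erase i₀).erase i₁).card + 2 := by
    rw [Finset.card_erase_of_mem e2, Finset.card_erase_of_mem h0]
    have h5 : 2 ≤ T.card := Finset.one_lt_card.2 ⟨i₀, h0, i₁, h1, hne⟩
    omega
  rw [h3, h4, pow_add]
  field_simp

open Classical in
theorem tBS1 (hConv : BConvStmt) (hFr : BFrStmt) (hReg : BRegStmt) (hPF : BPFStmt) (hAvg : BAvgStmt) (hDiv : BDivStmt)
    (hRA : BRegAtStmt) : BS1Stmt := by
  intro hS0 r n C K _ _ _ _ _ _ hn hroots P hP D hD hPres hav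
  have hn0 : 0 < n := by omega
  -- the lines through `P`
  set T : Finset (Fin r) := Finset.univ.filter (fun i => i ∈ C.through P) with hT
  have hTm : ∀ i, i ∈ T ↔ i ∈ C.through P := by
    intro i
    rw [hT, Finset.mem_filter]
    exact ⟨fun h => h.2, fun h => ⟨Finset.mem_univ _, h⟩⟩
  have hTc : 3 ≤ T.card := by
    have h1 : 3 ≤ (C.through P).ncard := hP
    have h2 : (C.through P) = (T : Set (Fin r)) := by
      ext i
      rw [Finset.mem_coe, hTm]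
    rwa [h2, Set.ncard_coe_finset] at h1
  obtain ⟨i₀, hi₀T, i₁, hi₁T, hne⟩ := Finset.one_lt_card.1 (show 1 < T.card by omega)
  have hi₀ : i₀ ∈ C.through P := (hTm _).1 hi₀T
  have hi₁ : i₁ ∈ C.through P := (hTm _).1 hi₁T
  set l0 := C.ℓ i₀ with hl0
  set l1 := C.ℓ i₁ with hl1
  have hli : LinearIndependent ℂ ![l0, l1] := C.indep i₀ i₁ hne
  have hp0 : l0 ⬝ᵥ P.rep = 0 := hi₀
  have hp1 : l1 ⬝ᵥ P.rep = 0 := hi₁
  have hMs : ∀ Q, Q ∈ (tMFin ℂ r C).toFinset ↔ Q ∈ C.M := fun Q => Set.Finite.mem_toFinset _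
  obtain ⟨c2, h⟩ := hFr ℂ r C (tMFin ℂ r C).toFinset P l0 l1 hMs ((hMs P).2 hP) hli hp0 hp1
  obtain ⟨hC1, -, -, hC4, hC5⟩ := hConv ℂ K
  have el0 : ev l0 ≠ 0 := bs_ev_ne (hli.ne_zero 0)
  have el1 : ev l1 ≠ 0 := bs_ev_ne (hli.ne_zero 1)
  set t : K := algebraMap (F ℂ) K (ev l1 / ev l0) with ht
  set s : K := algebraMap (F ℂ) K (ev c2 / ev l0) with hs
  have hco : Coord ℂ t s := hC4 _ _ (tCoord ℂ l0 l1 c2 h.li).1
  have ht0 : t ≠ 0 := hco.t_ne
  have ht' : algebraMap (F ℂ) K (ev l0 / ev l1) = t⁻¹ := by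
    rw [ht, ← map_inv₀, inv_div]
  have hs' : algebraMap (F ℂ) K (ev c2 / ev l1) = s / t := by
    rw [ht, hs, ← map_div₀]
    congr 1
    field_simp
  -- the roots
  obtain ⟨υ, hυ⟩ := hroots i₀ i₁
  have hυn : υ ^ n = t⁻¹ := by rw [hυ, ← ht']
  have hυt : υ ^ n * t = 1 := by rw [hυn, inv_mul_cancel₀ ht0]
  have hυ0 : υ ≠ 0 := by
    rintro rfl
    rw [zero_pow hn0.ne', zero_mul] at hυt
    exact zero_ne_one hυt
  choose w0 hw0 using fun i => hroots i i₀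
  set w : Fin r → K := fun i => if i = i₁ then υ⁻¹ else w0 i with hw
  set w' : Fin r → K := fun i => if i = i₀ then υ else w i * υ with hw'
  have hwn : ∀ i, w i ^ n = algebraMap (F ℂ) K (ev (C.ℓ i) / ev (C.ℓ i₀)) := by
    intro i
    rw [hw]
    by_cases hi : i = i₁
    · simp only [hi, if_true]
      rw [inv_pow, hυn, inv_inv]
    · simp only [hi, if_false]
      exact hw0 i
  have hwn' : ∀ i, w' i ^ n = algebraMap (F ℂ) K (ev (C.ℓ i) / ev (C.ℓ i₁)) := by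
    intro i
    rw [hw']
    by_cases hi : i = i₀
    · simp only [hi, if_true]
      rw [hυn, ← ht']
    · simp only [hi, if_false]
      rw [mul_pow, hwn, hυn, ← ht', ← map_mul]
      congr 1
      rw [hl0, hl1] at *
      field_simp
  set I : Finset (Fin r) := T.erase i₀ with hI
  set I' : Finset (Fin r) := T.erase i₁ with hI'
  have hIm : ∀ i, i ∈ I ↔ i ∈ C.through P ∧ i ≠ i₀ := by
    intro i
    rw [hI, Finset.mem_erase, hTm]
    exact and_comm
  have hIm' : ∀ i, i ∈ I' ↔ i ∈ C.through P ∧ i ≠ i₁ := by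
    intro i
    rw [hI', Finset.mem_erase, hTm]
    exact and_comm
  have hprod : ∏ i ∈ I', w' i = (∏ i ∈ I, w i) * υ ^ T.card :=
    bs_prod T i₀ i₁ hi₀T hi₁T hne w w' υ hυ0 (by simp [hw]) (by simp [hw'])
      (by intro i hi; simp only [hw', hi, if_false])
  have hw_ne : ∀ i ∈ I, w i ≠ 0 := by
    intro i hi h0
    have h1 := hwn i
    rw [h0, zero_pow hn0.ne'] at h1
    have h2 : ev (C.ℓ i) / ev (C.ℓ i₀) ≠ 0 := by
      refine div_ne_zero (bs_ev_ne ?_) el0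
      exact (C.indep i i₀ ((hIm i).1 hi).2).ne_zero 0
    exact h2 ((map_eq_zero _).1 h1.symm)
  set g : K := (∏ i ∈ I, w i) ^ (n - 1) with hg
  set g' : K := (∏ i ∈ I', w' i) ^ (n - 1) with hg'
  have hg0 : g ≠ 0 := pow_ne_zero _ (Finset.prod_ne_zero_iff.2 hw_ne)
  set κ : ℕ := (n - 1) * T.card - 2 * n with hκ
  have hκ1 : (n - 1) * T.card = 2 * n + κ ∧ 0 < κ := by
    have h1 : (n - 1) * 3 ≤ (n - 1) * T.card := Nat.mul_le_mul_left _ hTc
    constructor <;> omega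
  have hgg : g' = g * (υ ^ (2 * n) * υ ^ κ) := by
    rw [hg', hprod, mul_pow, ← hg, ← pow_mul, mul_comm T.card, hκ1.1, pow_add]
  have hυ2 : υ ^ (2 * n) = t⁻¹ ^ 2 := by
    rw [mul_comm, pow_mul, hυn]
  -- the family
  set ρ : Chart C → K := fun a => D (chV h) a t / g with hρ
  have hρd : ∀ a b, ρ a - ρ b = D b a t / g := by
    intro a b
    rw [hρ]
    simp only
    rw [← hD (chV h) b a, Derivation.add_apply, add_div, add_sub_cancel_left]
  have hmemJ : ∀ (S : Subalgebra ℂ (F ℂ)) (f : F ℂ), algebraMap (F ℂ) K f ∈ J K S → f ∈ S := by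
    intro S f hf
    obtain ⟨f', hf', he⟩ := hf
    have he' : algebraMap (F ℂ) K f' = algebraMap (F ℂ) K f := he
    rw [← (algebraMap (F ℂ) K).injective he']
    exact hf'
  have hρ1 : ∀ a b : Chart C, t ∈ J K (a.R ⊔ b.R) → (ρ a - ρ b) / 1 ∈ Q.ic (J K (a.R ⊔ b.R)) := by
    intro a b hab
    have h1 := hPF ℂ r n C K P i₀ i₁ I w hn0 hi₀ hi₁ hne hIm (fun i _ => hwn i) b a (D b a) (hPres b a)
      (by rw [sup_comm]; exact hmemJ _ _ hab)
    rw [div_one, hρd, ← hC1, sup_comm]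
    exact h1
  have hρ2 : ∀ a b : Chart C, algebraMap (F ℂ) K (ev l0 / ev l1) ∈ J K (a.R ⊔ b.R) →
      (ρ a - ρ b) / υ ^ κ ∈ Q.ic (J K (a.R ⊔ b.R)) := by
    intro a b hab
    have h1 := hPF ℂ r n C K P i₁ i₀ I' w' hn0 hi₁ hi₀ hne.symm hIm' (fun i _ => hwn' i) b a (D b a) (hPres b a)
      (by rw [sup_comm]; exact hmemJ _ _ hab)
    have h2 : D b a (algebraMap (F ℂ) K (ev (C.ℓ i₀) / ev (C.ℓ i₁))) / (∏ i ∈ I', w' i) ^ (n - 1) =
        -((ρ a - ρ b) / υ ^ κ) := by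
      rw [← hg', hgg, hρd]
      change D b a (algebraMap (F ℂ) K (ev l0 / ev l1)) / _ = _
      rw [ht', Derivation.leibniz_inv, hυ2, smul_eq_mul]
      field_simp
    rw [h2] at h1
    rw [← hC1, sup_comm]
    have h3 := neg_mem h1
    rwa [neg_neg] at h3
  have hco' : Coord ℂ t⁻¹ (s / t) := hco.inv
  have hR1 := hReg ℂ K r C _ P l0 l1 c2 h 1 ρ hco hρ1
  have hR2 := hReg ℂ K r C _ P l1 l0 c2 h.symm (υ ^ κ) ρ (by rw [ht', hs']; exact hco') hρ2
  rw [ht', hs'] at hR2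
  -- the group
  have hfixF : ∀ (σ : K ≃ₐ[F ℂ] K) (f : F ℂ), σ (algebraMap (F ℂ) K f) = algebraMap (F ℂ) K f := fun σ f => σ.commutes f
  have hconn : ∀ σ ∈ NP K P, ∀ z : K, AlgT ℂ t z → σ z = z := by
    intro σ hσ z hz
    exact hσ z ((hC5 P l0 l1 hli hp0 hp1 z).1 hz)
  have hAlgPow : ∀ z : K, (∃ f : F ℂ, f ∈ PF P ∧ z ^ n = algebraMap (F ℂ) K f) → IsAlgebraic (PF P) z := by
    rintro z ⟨f, hf, hz⟩
    refine IsAlgebraic.of_pow hn0 ?_
    rw [hz]
    exact isAlgebraic_algebraMap (⟨f, hf⟩ : PF P)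
  have hPFl : ∀ i ∈ C.through P, ev (C.ℓ i) / ev (C.ℓ i₀) ∈ PF P := by
    intro i hi
    exact IntermediateField.subset_adjoin _ _ ⟨C.ℓ i, C.ℓ i₀, hi, hi₀, rfl⟩
  have hwfix : ∀ σ ∈ NP K P, ∀ i ∈ I, σ (w i) = w i := by
    intro σ hσ i hi
    exact hσ _ (hAlgPow _ ⟨_, hPFl i ((hIm i).1 hi).1, hwn i⟩)
  have hgfix : ∀ σ ∈ NP K P, σ g = g := by
    intro σ hσ
    rw [hg, map_pow, map_prod]
    congr 1
    exact Finset.prod_congr rfl (fun i hi => hwfix σ hσ i hi)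
  set N : Finset (K ≃ₐ[F ℂ] K) := Finset.univ.filter (fun σ => σ ∈ NP K P) with hN
  have hNm : ∀ σ ∈ N, σ ∈ NP K P := fun σ hσ => (Finset.mem_filter.1 hσ).2
  have hρsum : ∀ a : Chart C, ∑ σ ∈ N, σ (ρ a) = 0 := by
    intro a
    have h1 : ∀ σ ∈ N, σ (ρ a) = σ (D (chV h) a t) / g := by
      intro σ hσ
      rw [hρ]
      simp only
      rw [map_div₀, hgfix σ (hNm σ hσ)]
    rw [Finset.sum_congr rfl h1, ← Finset.sum_div, bs_sum (NP K P) (D (chV h) a) (hav _ _) (ev l1 / ev l0), zero_div]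
  -- solutions for the single automorphisms
  set res : (K ≃ₐ[F ℂ] K) → (K ≃ₐ[ℂ] K) := fun σ => σ.restrictScalars ℂ with hres
  have hres_inj : Function.Injective res := AlgEquiv.restrictScalars_injective ℂ
  have hsol : ∀ τ : K ≃ₐ[ℂ] K, τ ∈ N.image res → ∃ x : K,
      ((famOf h ρ).map (fun y => τ y - y)).Sol t s 1 x ∧
      ((famOf h.symm ρ).map (fun y => τ y - y)).Sol t⁻¹ (s / t) (υ ^ κ) x := by
    intro τ hτ
    obtain ⟨σ, hσ, rfl⟩ := Finset.mem_image.1 hτ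
    exact hS0 K t s υ n κ (famOf h ρ) (famOf h.symm ρ) (res σ) hco hn0 hκ1.2 hυt hR1.1 hR2.1 (hR1.2 rfl)
      (hfixF σ _) (hfixF σ _) (fun z hz => hconn σ (hNm σ hσ) z hz)
  choose! xf hxf using hsol
  set G : Finset (K ≃ₐ[ℂ] K) := N.image res with hG
  have hGne : G.Nonempty := by
    refine ⟨res 1, Finset.mem_image.2 ⟨1, ?_, rfl⟩⟩
    rw [hN, Finset.mem_filter]
    exact ⟨Finset.mem_univ _, (NP K P).one_mem⟩
  have hGsum : ∀ z : K, (∑ σ ∈ N, σ z = 0) → ∑ τ ∈ G, τ z = 0 := by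
    intro z hz
    rw [hG, Finset.sum_image (fun a _ b _ hab => hres_inj hab)]
    exact hz
  set x : K := algebraMap ℂ K (-((G.card : ℂ)⁻¹)) * ∑ τ ∈ G, xf τ with hx
  have hTsum : ∀ (l0 l1 : Fin 3 → ℂ) (h : Fr C (tMFin ℂ r C).toFinset P l0 l1 c2) (c : ℂ × ℂ),
      ∑ τ ∈ G, τ ((famOf h ρ).ρT c) = 0 := by
    intro l0 l1 h c
    by_cases hc : ∃ T ∈ (tMFin ℂ r C).toFinset, l0 ⬝ᵥ T.rep ≠ 0 ∧ ptOf l0 l1 c2 T = c
    · have h1 : (famOf h ρ).ρT c = ρ (chW h hc.choose) := dif_pos hc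
      rw [h1]
      exact hGsum _ (hρsum _)
    · have h1 : (famOf h ρ).ρT c = 0 := dif_neg hc
      rw [h1]
      exact Finset.sum_eq_zero (fun τ _ => map_zero τ)
  have hS1 : (famOf h ρ).Sol t s 1 x :=
    hAvg ℂ K t s 1 (famOf h ρ) G xf hGne (hGsum _ (hρsum _)) (hGsum _ (hρsum _)) (hTsum l0 l1 h)
      (fun τ hτ => (hxf τ hτ).1)
  have hS2 : (famOf h.symm ρ).Sol t⁻¹ (s / t) (υ ^ κ) x :=
    hAvg ℂ K t⁻¹ (s / t) (υ ^ κ) (famOf h.symm ρ) G xf hGne (hGsum _ (hρsum _)) (hGsum _ (hρsum _)) (hTsum l1 l0 h.symm)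
      (fun τ hτ => (hxf τ hτ).2)
  -- the vector fields
  choose Δ hΔt hΔs using fun u : Chart C => exists_der hco (g * (ρ u - x)) 0
  refine ⟨Δ, ?_, ?_⟩
  · intro u O hO huO
    have hval : ∀ f : F ℂ, f ∈ O ∨ f⁻¹ ∈ O := by
      have hunif : ∃ π, IsUnif O π := by
        rcases hO with hc | ⟨Q, hQ, he⟩
        · exact (tCurve tEv tCoord tLoc ℂ O hc).1
        · obtain ⟨b, c, d, hbcd, hc, hd, hloc⟩ := he
          exact ⟨_, ((tLoc ℂ _ _ (tCoord ℂ b c d hbcd).2 _ hloc.1).2 O hloc).2.2⟩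
      obtain ⟨π, hπ⟩ := hunif
      exact (tUnif ℂ O π hπ).1
    rcases hval (ev l1 / ev l0) with hcase | hcase
    · have h1 := hDiv ℂ K r C _ P l0 l1 c2 h 1 x ρ hρ1 hS1 u O hO huO hcase
      rw [div_one] at h1
      have h2 := neg_mem h1
      rw [neg_sub] at h2
      exact hRA ℂ r n C K P i₀ i₁ I w (ρ u - x) O (Δ u) hn0 hi₀ hi₁ hne hIm (fun i _ => hwn i) hO hcase h2 (hΔt u)
    · rw [inv_div] at hcase
      have h1 := hDiv ℂ K r C _ P l1 l0 c2 h.symm (υ ^ κ) x ρ hρ2 (by rw [ht', hs']; exact hS2) u O hO huO hcase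
      refine hRA ℂ r n C K P i₁ i₀ I' w' ((x - ρ u) / υ ^ κ) O (Δ u) hn0 hi₁ hi₀ hne.symm hIm' (fun i _ => hwn' i) hO hcase h1 ?_
      rw [← hg', hgg]
      change Δ u (algebraMap (F ℂ) K (ev l0 / ev l1)) = _
      rw [ht', Derivation.leibniz_inv, hΔt, hυ2, smul_eq_mul]
      field_simp
      ring
  · intro u v
    refine bs_eqOn P l0 l1 hli hp0 hp1 _ _ ?_
    rw [← ht, Derivation.sub_apply, hΔt, hΔt, ← mul_sub, sub_sub_sub_cancel_right, hρd, mul_div_cancel₀ _ hg0]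

end Pool.Agent.Lib.MP_4318ff_ag.Q
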