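import Pool.Agent.Lib.MP_4318ff_ag.All.Main
import Pool.Agent.Lib.MP_4318ff_ag.Q.BConv
import Pool.Agent.Lib.MP_4318ff_ag.Q.BFr
import Pool.Agent.Lib.MP_4318ff_ag.Q.BInc
import Pool.Agent.Lib.MP_4318ff_ag.Q.BReg
import Pool.Agent.Lib.MP_4318ff_ag.Q.BPF
import Pool.Agent.Lib.MP_4318ff_ag.Q.BAvg
import Pool.Agent.Lib.MP_4318ff_ag.Q.BDiv
import Pool.Agent.Lib.MP_4318ff_ag.Q.BRegAt
import Pool.Agent.Lib.MP_4318ff_ag.Q.BS1

/-!
# Assembly of the bridge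

`s1_of_S0`: Theorem S in the explicit form `S0Stmt` (over ℂ) implies `S1Stmt ℂ`.
`main_of_S0`: so it implies the main theorem over ℂ.
-/

set_option autoImplicit false

namespace Pool.Agent.Lib.MP_4318ff_ag.Q

theorem s1_of_S0 (hS0 : S0Stmt) : S1Stmt ℂ :=
  tBS1 tBConv tBFr (tBReg tBInc) tBPF bAvg (tBDiv all_curve all_exc tEv tCoord tBConv tBInc)
    (tBRegAt tEv all_curve all_exc tUnif) hS0

theorem main_of_S0 (hS0 : S0Stmt) : MainFor ℂ :=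
  main_of_S1 ℂ (s1_of_S0 hS0)

end Pool.Agent.Lib.MP_4318ff_ag.Q
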