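import Pool.Agent.Lib.MP_4318ff_ag.Q.Fin
import Pool.Agent.Lib.MP_4318ff_ag.Q.CoordCh

/-!
# The blow-up of one point

PROOF. Put `a = t - t_T`, `b = s - s_T`, `σ = b/a` (so `k[t, σ] = k[a, σ] ∋ b`, `k[s, 1/σ] = k[b, 1/σ] ∋ a`). Let `e_j` be generators of `A₂ := ic k[s, 1/σ]` over
`k[s, 1/σ]` (`exists_gens` for the coordinates `s, 1/σ`, `Coord.sl_inv`). There is `N` with `σ^l e_j ∈ A₁ := ic k[t, σ]` for `l ≥ N`: `e_j^n + ∑ a_i e_j^i = 0`, `a_i ∈ k[s, 1/σ]`, and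
`σ^(l(n-i)) a_i ∈ k[s, σ] ⊆ k[t, σ]` for `l ≥ N`. Let `z ∈ ic k[t,s,σ,1/σ]`. `k[t,s,σ,1/σ] = k[s,1/σ][σ]`, so `σ^(-m) z ∈ A₂` for some `m` (`exists_pow_mul_mem_ic` with `f = 1/σ`), `z = σ^m ∑ G_j e_j`
with `G_j ∈ k[s, 1/σ]`: `z = ∑_j ∑_(l ≤ m) g_jl(s) σ^l e_j` (`l` integers, finite sum). The terms with `l ≤ 0` are in `A₂`, with `l ≥ N` in `A₁` (`k[s] ⊆ k[t,σ]`); for `0 < l < N`:
`a^l σ^l = b^l`, so `a^N σ^l e_j = a^(N-l) b^l e_j ∈ A₂`. Finally `a ∈ k[t,σ] ∩ k[s,1/σ]`.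
-/

set_option autoImplicit false

namespace Pool.Agent.Lib.MP_4318ff_ag.Q

open MvPolynomial

variable {k K : Type} [Field k] [Field K] [Algebra k K]

theorem bl_cv_monomial (t s : K) (d : Fin 2 →₀ ℕ) (c : k) :
    cv t s (monomial d c) = algebraMap k K c * (t ^ d 0 * s ^ d 1) := by
  unfold cv
  rw [aeval_monomial, Finsupp.prod_fintype _ _ (by intro i; exact pow_zero _), Fin.prod_univ_two]
  rfl

/-- Multiples by powers of `f` of the elements of a generated algebra. -/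
theorem bl_adjoin_pow_mul {S : Subalgebra k K} {f : K} (hf : f ∈ S) {X : Set K}
    (hX : ∀ y ∈ X, ∃ m : ℕ, f ^ m * y ∈ S) {y : K} (hy : y ∈ Algebra.adjoin k X) : ∃ m : ℕ, f ^ m * y ∈ S := by
  induction hy using Algebra.adjoin_induction with
  | mem y hy => exact hX y hy
  | algebraMap r => exact ⟨0, by rw [pow_zero, one_mul]; exact S.algebraMap_mem r⟩
  | add y z _ _ ihy ihz =>
    obtain ⟨m, hm⟩ := ihy
    obtain ⟨n, hn⟩ := ihz
    refine ⟨m + n, ?_⟩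
    have : f ^ (m + n) * (y + z) = f ^ n * (f ^ m * y) + f ^ m * (f ^ n * z) := by ring
    rw [this]
    exact S.add_mem (S.mul_mem (S.pow_mem hf n) hm) (S.mul_mem (S.pow_mem hf m) hn)
  | mul y z _ _ ihy ihz =>
    obtain ⟨m, hm⟩ := ihy
    obtain ⟨n, hn⟩ := ihz
    refine ⟨m + n, ?_⟩
    have : f ^ (m + n) * (y * z) = (f ^ m * y) * (f ^ n * z) := by ring
    rw [this]
    exact S.mul_mem hm hn

theorem blowup {t s : K} (hc : Coord k t s) (T : k × k) :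
    ∃ N : ℕ, ∀ z ∈ ic (Algebra.adjoin k {t, s, sl t s T, (sl t s T)⁻¹}),
      ∃ α ∈ ic (Algebra.adjoin k {t, sl t s T}), ∃ β ∈ ic (Algebra.adjoin k {s, (sl t s T)⁻¹}),
        (t - algebraMap k K T.1) ^ N * z = α + β := by
  set σ := sl t s T with hσ
  set a := t - algebraMap k K T.1 with ha
  set b := s - algebraMap k K T.2 with hb
  have ha0 : a ≠ 0 := hc.t_sub_ne T.1
  have hb0 : b ≠ 0 := hc.s_sub_ne T.2
  have hσd : σ = b / a := rfl
  have hσ0 : σ ≠ 0 := by rw [hσd]; exact div_ne_zero hb0 ha0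
  have hbσ : b = σ * a := by rw [hσd, div_mul_cancel₀ _ ha0]
  have haσ : a = b * σ⁻¹ := by rw [hbσ]; field_simp
  have hts : t = a + algebraMap k K T.1 := by rw [ha]; ring
  have hss : s = b + algebraMap k K T.2 := by rw [hb]; ring
  set S₁ : Subalgebra k K := Algebra.adjoin k {t, σ} with hS₁
  set S₂ : Subalgebra k K := Algebra.adjoin k {s, σ⁻¹} with hS₂
  have ht1 : t ∈ S₁ := Algebra.subset_adjoin (by simp)
  have hσ1 : σ ∈ S₁ := Algebra.subset_adjoin (by simp)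
  have hs2 : s ∈ S₂ := Algebra.subset_adjoin (by simp)
  have hσ2 : σ⁻¹ ∈ S₂ := Algebra.subset_adjoin (by simp)
  have ha1 : a ∈ S₁ := S₁.sub_mem ht1 (S₁.algebraMap_mem _)
  have hb1 : b ∈ S₁ := by rw [hbσ]; exact S₁.mul_mem hσ1 ha1
  have hs1 : s ∈ S₁ := by rw [hss]; exact S₁.add_mem hb1 (S₁.algebraMap_mem _)
  have hb2 : b ∈ S₂ := S₂.sub_mem hs2 (S₂.algebraMap_mem _)
  have ha2 : a ∈ S₂ := by rw [haσ]; exact S₂.mul_mem hb2 hσ2
  have ht2 : t ∈ S₂ := by rw [hts]; exact S₂.add_mem ha2 (S₂.algebraMap_mem _)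
  obtain ⟨m, e, he, hgen⟩ := exists_gens (hc.sl_inv T)
  -- the exponent
  have h1 : ∀ j, ∃ n : ℕ, σ ^ n * e j ∈ ic S₁ := by
    intro j
    refine exists_pow_mul_mem_ic hσ1 ?_ (he j)
    intro y hy
    refine bl_adjoin_pow_mul hσ1 ?_ hy
    intro y hy
    simp only [Set.mem_insert_iff, Set.mem_singleton_iff] at hy
    rcases hy with rfl | rfl
    · exact ⟨0, by rw [pow_zero, one_mul]; exact hs1⟩
    · refine ⟨1, ?_⟩
      rw [pow_one, ← hσ, mul_inv_cancel₀ hσ0]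
      exact S₁.one_mem
  choose n hn using h1
  set N := ∑ j, n j with hN
  have h2 : ∀ j, ∀ l : ℕ, N ≤ l → σ ^ l * e j ∈ ic S₁ := by
    intro j l hl
    have h3 : n j ≤ l := (Finset.single_le_sum (fun _ _ => Nat.zero_le _) (Finset.mem_univ j)).trans hl
    have h4 : σ ^ l * e j = σ ^ (l - n j) * (σ ^ n j * e j) := by
      rw [← mul_assoc, ← pow_add]
      congr 2
      omega
    rw [h4]
    exact (ic S₁).mul_mem ((ic S₁).pow_mem (le_ic S₁ hσ1) _) (hn j)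
  refine ⟨N, ?_⟩
  -- the submodule of good elements
  let W : Submodule k K :=
    (Subalgebra.toSubmodule (ic S₁) ⊔ Subalgebra.toSubmodule (ic S₂)).comap (LinearMap.mulLeft k (a ^ N))
  have hW : ∀ z, z ∈ W ↔ ∃ α ∈ ic S₁, ∃ β ∈ ic S₂, a ^ N * z = α + β := by
    intro z
    simp only [W, Submodule.mem_comap, LinearMap.mulLeft_apply, Submodule.mem_sup, Subalgebra.mem_toSubmodule]
    constructor
    · rintro ⟨α, hα, β, hβ, h⟩
      exact ⟨α, hα, β, hβ, h.symm⟩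
    · rintro ⟨α, hα, β, hβ, h⟩
      exact ⟨α, hα, β, hβ, h.symm⟩
  have hmon : ∀ (j : Fin m) (u : ℕ) (l : ℤ), s ^ u * σ ^ l * e j ∈ W := by
    intro j u l
    rw [hW]
    rcases le_or_gt l 0 with hl | hl
    · refine ⟨0, (ic S₁).zero_mem, a ^ N * (s ^ u * σ ^ l * e j), ?_, by ring⟩
      have h5 : σ ^ l = σ⁻¹ ^ (-l).toNat := by
        rw [inv_pow, ← zpow_natCast, ← zpow_neg]
        congr 1
        omega
      rw [h5]
      refine (ic S₂).mul_mem ((ic S₂).pow_mem (le_ic S₂ ha2) _) ((ic S₂).mul_mem ((ic S₂).mul_mem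
        ((ic S₂).pow_mem (le_ic S₂ hs2) _) ((ic S₂).pow_mem (le_ic S₂ hσ2) _)) (he j))
    · obtain ⟨l', rfl⟩ := Int.eq_ofNat_of_zero_le hl.le
      simp only [zpow_natCast]
      rcases le_or_gt N l' with hl' | hl'
      · refine ⟨a ^ N * (s ^ u * σ ^ l' * e j), ?_, 0, (ic S₂).zero_mem, by ring⟩
        rw [mul_assoc (s ^ u)]
        exact (ic S₁).mul_mem ((ic S₁).pow_mem (le_ic S₁ ha1) _) ((ic S₁).mul_mem
          ((ic S₁).pow_mem (le_ic S₁ hs1) _) (h2 j l' hl'))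
      · refine ⟨0, (ic S₁).zero_mem, a ^ N * (s ^ u * σ ^ l' * e j), ?_, by ring⟩
        have h6 : a ^ N * (s ^ u * σ ^ l' * e j) = a ^ (N - l') * b ^ l' * s ^ u * e j := by
          have : a ^ N = a ^ (N - l') * a ^ l' := by
            rw [← pow_add]
            congr 1
            omega
          rw [this, hbσ, mul_pow]
          ring
        rw [h6]
        exact (ic S₂).mul_mem ((ic S₂).mul_mem ((ic S₂).mul_mem ((ic S₂).pow_mem (le_ic S₂ ha2) _)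
          ((ic S₂).pow_mem (le_ic S₂ hb2) _)) ((ic S₂).pow_mem (le_ic S₂ hs2) _)) (he j)
  intro z hz
  have h7 : ∃ m' : ℕ, σ⁻¹ ^ m' * z ∈ ic S₂ := by
    refine exists_pow_mul_mem_ic hσ2 ?_ hz
    intro y hy
    refine bl_adjoin_pow_mul hσ2 ?_ hy
    intro y hy
    simp only [Set.mem_insert_iff, Set.mem_singleton_iff] at hy
    rcases hy with rfl | rfl | rfl | rfl
    · exact ⟨0, by rw [pow_zero, one_mul]; exact ht2⟩
    · exact ⟨0, by rw [pow_zero, one_mul]; exact hs2⟩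
    · refine ⟨1, ?_⟩
      rw [pow_one, inv_mul_cancel₀ hσ0]
      exact S₂.one_mem
    · exact ⟨0, by rw [pow_zero, one_mul]; exact hσ2⟩
  obtain ⟨m', hm'⟩ := h7
  obtain ⟨G, hG⟩ := hgen _ hm'
  rw [← hW]
  have h8 : z = ∑ j, σ ^ (m' : ℤ) * (cv s σ⁻¹ (G j) * e j) := by
    rw [← Finset.mul_sum, ← hσ] at *
    rw [← hG, zpow_natCast, ← mul_assoc, ← mul_pow, mul_inv_cancel₀ hσ0, one_pow, one_mul]
  rw [h8]
  refine W.sum_mem fun j _ => ?_
  generalize G j = P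
  induction P using MvPolynomial.induction_on' with
  | monomial d c =>
    rw [bl_cv_monomial]
    have h9 : σ ^ (m' : ℤ) * (algebraMap k K c * (s ^ d 0 * σ⁻¹ ^ d 1) * e j) =
        c • (s ^ d 0 * σ ^ ((m' : ℤ) - d 1) * e j) := by
      rw [Algebra.smul_def, zpow_sub₀ hσ0, zpow_natCast, zpow_natCast, inv_pow]
      field_simp
    rw [h9]
    exact W.smul_mem _ (hmon j _ _)
  | add P Q hP hQ =>
    rw [map_add, add_mul, mul_add]
    exact W.add_mem hP hQ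

end Pool.Agent.Lib.MP_4318ff_ag.Q
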