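import Pool.Agent.Lib.MP_4318ff_ag.Q.HorAlg

/-!
# A common denominator

The vectors `c` with `∑ c_j(t) e_j - α ∈ ic (locI)` for some `α ∈ AH` form a finitely generated `k[X]`-module; clear the
denominators (`ah_clear`) of the elements `α` which belong to the generators.
-/

set_option autoImplicit false

namespace Pool.Agent.Lib.MP_4318ff_ag.Q

open MvPolynomial

variable {k K : Type} [Field k] [Field K] [Algebra k K]

private theorem clear_mem_locI (t s : K) (f : Polynomial k) : Polynomial.aeval t f ∈ locI k t s := by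
  rw [← cv_aeval_X0 t s⁻¹ f]
  exact cv_mem_loc t s⁻¹ (X_prime) _

private theorem clear_mem_AH (t s : K) (f : Polynomial k) : Polynomial.aeval t f ∈ AH k t s := by
  unfold AH
  simp only [Algebra.mem_iInf]
  intro π hπ
  rw [← cv_aeval_X0 t s f]
  exact le_ic _ (cv_mem_loc t s hπ.1 _)

private theorem clear_mem_pol (t s : K) (p : Polynomial k) : Polynomial.aeval t p ∈ pol k t s := by
  rw [Polynomial.aeval_eq_sum_range]
  exact sum_mem fun i _ => Subalgebra.smul_mem _ (pow_mem (Algebra.subset_adjoin (by simp)) i) _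

/-- The module of the vectors in question. -/
private noncomputable def clearN (t s : K) (m : ℕ) (e : Fin m → K) :
    Submodule (Polynomial k) (Fin m → Polynomial k) where
  carrier := {c | ∃ α ∈ AH k t s, ∑ j, Polynomial.aeval t (c j) * e j - α ∈ ic (locI k t s)}
  zero_mem' := by
    refine ⟨0, zero_mem _, ?_⟩
    simp only [Pi.zero_apply, map_zero, zero_mul, Finset.sum_const_zero, sub_zero]
    exact zero_mem _
  add_mem' := by
    rintro c d ⟨α, hα, h1⟩ ⟨β, hβ, h2⟩
    refine ⟨α + β, add_mem hα hβ, ?_⟩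
    have h3 := add_mem h1 h2
    have h4 : ∑ j, Polynomial.aeval t ((c + d) j) * e j - (α + β) =
        ∑ j, Polynomial.aeval t (c j) * e j - α + (∑ j, Polynomial.aeval t (d j) * e j - β) := by
      simp only [Pi.add_apply, map_add, add_mul, Finset.sum_add_distrib]
      ring
    rw [h4]
    exact h3
  smul_mem' := by
    rintro a c ⟨α, hα, h1⟩
    refine ⟨Polynomial.aeval t a * α, mul_mem (clear_mem_AH t s a) hα, ?_⟩
    have h4 : ∑ j, Polynomial.aeval t ((a • c) j) * e j - Polynomial.aeval t a * α =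
        Polynomial.aeval t a * (∑ j, Polynomial.aeval t (c j) * e j - α) := by
      simp only [Pi.smul_apply, smul_eq_mul, map_mul, mul_sub, Finset.mul_sum, mul_assoc]
    rw [h4]
    exact mul_mem (le_ic _ (clear_mem_locI t s a)) h1

theorem clear {t s : K} (hc : Coord k t s) (m : ℕ) (e : Fin m → K) :
    ∃ ψ : Polynomial k, ψ ≠ 0 ∧ ∀ c : Fin m → Polynomial k,
      (∃ α ∈ AH k t s, ∑ j, Polynomial.aeval t (c j) * e j - α ∈ ic (locI k t s)) →
      ∃ α ∈ ic (pol k t s), Polynomial.aeval t ψ * ∑ j, Polynomial.aeval t (c j) * e j - α ∈ ic (locI k t s) := by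
  classical
  obtain ⟨S, hS⟩ := IsNoetherian.noetherian (clearN (k := k) t s m e)
  have h1 : ∀ c : Fin m → Polynomial k, ∃ f : Polynomial k, f ≠ 0 ∧ (c ∈ S →
      ∃ α : K, Polynomial.aeval t f * α ∈ ic (pol k t s) ∧
        ∑ j, Polynomial.aeval t (c j) * e j - α ∈ ic (locI k t s)) := by
    intro c
    by_cases hc' : c ∈ S
    · have h2 : c ∈ clearN (k := k) t s m e := by
        rw [← hS]
        exact Submodule.subset_span hc'
      obtain ⟨α, hα, h3⟩ := h2
      obtain ⟨f, hf, h4⟩ := ah_clear hc hα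
      exact ⟨f, hf, fun _ => ⟨α, h4, h3⟩⟩
    · exact ⟨1, one_ne_zero, fun h => absurd h hc'⟩
  choose f hf hfα using h1
  refine ⟨∏ c ∈ S, f c, Finset.prod_ne_zero_iff.2 fun c _ => hf c, fun c hc' => ?_⟩
  have h2 : c ∈ Submodule.span (Polynomial k) (S : Set (Fin m → Polynomial k)) := by
    rw [hS]
    exact hc'
  clear hc'
  obtain ⟨ψ, hψ⟩ : ∃ ψ, ψ = ∏ c ∈ S, f c := ⟨_, rfl⟩
  rw [← hψ]
  induction h2 using Submodule.span_induction with
  | mem c hcS =>
    have hcS' : c ∈ S := hcS
    obtain ⟨α, h3, h4⟩ := hfα c hcS'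
    refine ⟨Polynomial.aeval t ψ * α, ?_, ?_⟩
    · rw [hψ, ← Finset.mul_prod_erase S f hcS', map_mul, mul_comm (Polynomial.aeval t (f c)),
        mul_assoc]
      exact mul_mem (le_ic _ (clear_mem_pol t s _)) h3
    · rw [← mul_sub]
      exact mul_mem (le_ic _ (clear_mem_locI t s _)) h4
  | zero =>
    refine ⟨0, zero_mem _, ?_⟩
    simp only [Pi.zero_apply, map_zero, zero_mul, Finset.sum_const_zero, mul_zero, sub_zero]
    exact zero_mem _
  | add c d _ _ h3 h4 =>
    obtain ⟨α, hα, h5⟩ := h3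
    obtain ⟨β, hβ, h6⟩ := h4
    refine ⟨α + β, add_mem hα hβ, ?_⟩
    have h7 : Polynomial.aeval t ψ * ∑ j, Polynomial.aeval t ((c + d) j) * e j - (α + β) =
        (Polynomial.aeval t ψ * ∑ j, Polynomial.aeval t (c j) * e j - α) +
        (Polynomial.aeval t ψ * ∑ j, Polynomial.aeval t (d j) * e j - β) := by
      simp only [Pi.add_apply, map_add, add_mul, Finset.sum_add_distrib]
      ring
    rw [h7]
    exact add_mem h5 h6
  | smul a c _ h3 =>
    obtain ⟨α, hα, h5⟩ := h3
    refine ⟨Polynomial.aeval t a * α, mul_mem (le_ic _ (clear_mem_pol t s a)) hα, ?_⟩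
    have h7 : Polynomial.aeval t ψ * ∑ j, Polynomial.aeval t ((a • c) j) * e j -
        Polynomial.aeval t a * α = Polynomial.aeval t a *
        (Polynomial.aeval t ψ * ∑ j, Polynomial.aeval t (c j) * e j - α) := by
      have h8 : ∑ j, Polynomial.aeval t ((a • c) j) * e j =
          Polynomial.aeval t a * ∑ j, Polynomial.aeval t (c j) * e j := by
        simp only [Pi.smul_apply, smul_eq_mul, map_mul, Finset.mul_sum, mul_assoc]
      rw [h8]
      ring
    rw [h7]
    exact mul_mem (le_ic _ (clear_mem_locI t s a)) h5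

end Pool.Agent.Lib.MP_4318ff_ag.Q
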