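import Mathlib

/-!
# MP_4318ff_ag, part S, route 2 (note 2293): definitions

`k` and `K` are fields, `K` is a `k`-algebra, `t, s ∈ K`. All rings are `k`-subalgebras of `K`.

* `cv t s G = G(t, s)` for `G ∈ k[X₀, X₁] = MvPolynomial (Fin 2) k`.
* `Coord k t s`: `t, s` are algebraically independent over `k` and `K` is finite and separable over `k(t, s)`.
* `ic S`: the integral closure of the subalgebra `S` in `K`.
* `loc t s π`: the local ring `{G(t,s)/H(t,s) : π ∤ H}` of the prime divisor `π = 0`.
* `Fam`: the data of a family `ρ` on one side (`t ≠ ∞`): `pts` = the points `T = (t_T, s_T)` which are blown up,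
  `lines` = the lines `s = c.1 + c.2 t` which are excluded near `s = ∞`, `ρ1` (chart 1), `ρT T` (chart at `T`),
  `ρ3` (chart at `s = ∞`).
* `sl t s T = (s - s_T) / (t - t_T)`.
* `Fam.Reg`: the family is a cocycle with values in `v A`.
* `Fam.Sol`: `x` solves the family modulo `v A`.
* `Compat`: the family `D` in the coordinates `t, s` and the family `D'` in the coordinates `1/t, s/t` fit together along the
  horizontal prime divisors (those which are not given by a polynomial in `t` alone).
-/

set_option autoImplicit false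

namespace Pool.Agent.Lib.MP_4318ff_ag.Q

open MvPolynomial

variable {k K : Type} [Field k] [Field K] [Algebra k K]

/-- The value `G(t, s)`. -/
noncomputable def cv (t s : K) : MvPolynomial (Fin 2) k →ₐ[k] K := aeval ![t, s]

/-- The field `k(t, s)`. -/
noncomputable abbrev FF (k : Type) {K : Type} [Field k] [Field K] [Algebra k K] (t s : K) : IntermediateField k K :=
  IntermediateField.adjoin k {t, s}

/-- `t, s` are coordinates: algebraically independent, and `K` is finite separable over `k(t, s)`. -/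
structure Coord (k : Type) {K : Type} [Field k] [Field K] [Algebra k K] (t s : K) : Prop where
  inj : Function.Injective (cv (k := k) t s)
  fin : FiniteDimensional (FF k t s) K
  sep : Algebra.IsSeparable (FF k t s) K

/-- The integral closure of `S` in `K`. -/
noncomputable def ic (S : Subalgebra k K) : Subalgebra k K := (integralClosure S K).restrictScalars k

/-- The local ring of the prime divisor `π = 0` in the coordinates `t, s`. -/
noncomputable def loc (t s : K) (π : MvPolynomial (Fin 2) k) : Subalgebra k K :=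
  Algebra.adjoin k {x | ∃ G H : MvPolynomial (Fin 2) k, ¬ π ∣ H ∧ x = cv t s G / cv t s H}

/-- `k[t, s]`. -/
noncomputable def pol (k : Type) {K : Type} [Field k] [Field K] [Algebra k K] (t s : K) : Subalgebra k K :=
  Algebra.adjoin k {t, s}

/-- The slope `(s - s_T) / (t - t_T)`. -/
noncomputable def sl (t s : K) (T : k × k) : K :=
  (s - algebraMap k K T.2) / (t - algebraMap k K T.1)

/-- `k[t, s, 1/(s - s_T) : T ∈ pts]`. -/
noncomputable def ringV (t s : K) (pts : Finset (k × k)) : Subalgebra k K :=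
  Algebra.adjoin k ({t, s} ∪ {x | ∃ T ∈ pts, x = (s - algebraMap k K T.2)⁻¹})

/-- `k[t, s, σ, 1/σ, 1/(s - s_(T')) : T' ∈ pts, T' ≠ T]`, `σ` the slope at `T`. -/
noncomputable def ringT (t s : K) (pts : Finset (k × k)) (T : k × k) : Subalgebra k K :=
  Algebra.adjoin k ({t, s, sl t s T, (sl t s T)⁻¹} ∪ {x | ∃ T' ∈ pts, T' ≠ T ∧ x = (s - algebraMap k K T'.2)⁻¹})

/-- `k[t, s, 1/(s - c.1 - c.2 t) : c ∈ lines]`. -/
noncomputable def ringL (t s : K) (lines : Finset (k × k)) : Subalgebra k K :=
  Algebra.adjoin k ({t, s} ∪ {x | ∃ c ∈ lines, x = (s - algebraMap k K c.1 - algebraMap k K c.2 * t)⁻¹})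

/-- The local ring of the line `s = s_T`. -/
noncomputable def locS (t s : K) (T : k × k) : Subalgebra k K := loc t s (X 1 - C T.2)

/-- The local ring of the exceptional curve over `T`. -/
noncomputable def locE (t s : K) (T : k × k) : Subalgebra k K := loc t (sl t s T) (X 0 - C T.1)

/-- The local ring of `s = ∞` (the exceptional curve over the centre of the pencil). -/
noncomputable def locI (k : Type) {K : Type} [Field k] [Field K] [Algebra k K] (t s : K) : Subalgebra k K :=
  loc (k := k) t s⁻¹ (X 1)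

/-- The local ring of the line `t = 0`. -/
noncomputable def locO (k : Type) {K : Type} [Field k] [Field K] [Algebra k K] (t s : K) : Subalgebra k K :=
  loc (k := k) t s (X 0)

/-- The data of a family on one side. -/
structure Fam (k K : Type) where
  pts : Finset (k × k)
  lines : Finset (k × k)
  ρ1 : K
  ρ3 : K
  ρT : k × k → K

namespace Fam

/-- Apply a map to all members of the family. -/
def map (f : K → K) (D : Fam k K) : Fam k K :=
  { pts := D.pts, lines := D.lines, ρ1 := f D.ρ1, ρ3 := f D.ρ3, ρT := fun T => f (D.ρT T) }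

/-- Add an element to the member at `s = ∞`. -/
def add3 (z : K) (D : Fam k K) : Fam k K :=
  { pts := D.pts, lines := D.lines, ρ1 := D.ρ1, ρ3 := D.ρ3 + z, ρT := D.ρT }

/-- The family is a cocycle with values in `v A`. -/
structure Reg (t s v : K) (D : Fam k K) : Prop where
  inj : ∀ T ∈ D.pts, ∀ T' ∈ D.pts, T.2 = T'.2 → T = T'
  h1 : ∀ T ∈ D.pts, (D.ρ1 - D.ρT T) / v ∈ ic (ringT t s D.pts T)
  h2 : (D.ρ1 - D.ρ3) / v ∈ ic (ringL t s D.lines)

/-- `x` solves the family modulo `v A`. -/
structure Sol (t s v : K) (D : Fam k K) (x : K) : Prop where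
  s1 : (x - D.ρ1) / v ∈ ic (ringV t s D.pts)
  s2 : ∀ T ∈ D.pts, (x - D.ρT T) / v ∈ ic (locS t s T)
  s3 : ∀ T ∈ D.pts, (x - D.ρ1) / v ∈ ic (locE t s T)
  s4 : (x - D.ρ3) / v ∈ ic (locI k t s)

end Fam

/-- The two families fit together along the horizontal divisors. `D` in the coordinates `t, s`; `D'` in the coordinates
`1/t, s/t`. -/
structure Compat (t s : K) (D D' : Fam k K) : Prop where
  ne : ∀ T ∈ D.pts, T.2 ≠ 0
  ne' : ∀ T ∈ D'.pts, T.2 ≠ 0
  c1 : D.ρ1 - D'.ρ1 ∈ ic (Algebra.adjoin k ({t, t⁻¹, s} ∪ {x | ∃ T ∈ D.pts, x = (s - algebraMap k K T.2)⁻¹} ∪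
    {x | ∃ T ∈ D'.pts, x = (s - algebraMap k K T.2 * t)⁻¹}))
  c2 : ∀ T ∈ D.pts, D.ρT T - D'.ρ1 ∈ ic (loc t s (X 1 - C T.2))
  c3 : ∀ T ∈ D'.pts, D.ρ1 - D'.ρT T ∈ ic (loc t s (X 1 - C T.2 * X 0))
  c4 : D.ρ3 - D'.ρ3 ∈ ic (locI k t s)

/-- `π` is a horizontal prime: it divides no nonzero polynomial in `X₀` alone. -/
def Hor (π : MvPolynomial (Fin 2) k) : Prop :=
  Prime π ∧ ∀ f : Polynomial k, f ≠ 0 → ¬ π ∣ Polynomial.aeval (X 0 : MvPolynomial (Fin 2) k) f

/-- The functions which are regular at all horizontal prime divisors except possibly `s = ∞`. -/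
noncomputable def AH (k : Type) {K : Type} [Field k] [Field K] [Algebra k K] (t s : K) : Subalgebra k K :=
  ⨅ (π : MvPolynomial (Fin 2) k) (_ : Hor π), ic (loc t s π)

/-- `x` is algebraic over `k(t)`. -/
def AlgT (k : Type) {K : Type} [Field k] [Field K] [Algebra k K] (t x : K) : Prop :=
  IsAlgebraic (IntermediateField.adjoin k {t}) x

end Pool.Agent.Lib.MP_4318ff_ag.Q
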