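import Pool.Agent.Lib.MP_4318ff_ag.Q.Basic

/-!
# Finiteness of the integral closure

PROOF. `pol k t s ≅ MvPolynomial (Fin 2) k` is Noetherian and integrally closed with fraction field `FF k t s`, and `K` is a finite separable
extension: `IsIntegralClosure.finite` (or `isNoetherian`). Generators of the module `ic (pol k t s)`.
-/

set_option autoImplicit false

namespace Pool.Agent.Lib.MP_4318ff_ag.Q

open MvPolynomial

variable {k K : Type} [Field k] [Field K] [Algebra k K]

theorem exists_gens {t s : K} (hc : Coord k t s) :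
    ∃ (m : ℕ) (e : Fin m → K), (∀ j, e j ∈ ic (pol k t s)) ∧
      ∀ z ∈ ic (pol k t s), ∃ G : Fin m → MvPolynomial (Fin 2) k, z = ∑ j, cv t s (G j) * e j := by
  have := hc.fin
  have := hc.sep
  let algK : Algebra (MvPolynomial (Fin 2) k) K := (cv (k := k) t s).toRingHom.toAlgebra
  have hmem : ∀ G : MvPolynomial (Fin 2) k, cv t s G ∈ (FF k t s).toSubalgebra := by
    intro G
    change cv t s G ∈ FF k t s
    rw [mem_FF hc]
    exact ⟨G, 1, one_ne_zero, by rw [map_one, mul_one]⟩
  let algF : Algebra (MvPolynomial (Fin 2) k) (FF k t s) :=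
    ((cv (k := k) t s).codRestrict (FF k t s).toSubalgebra hmem).toRingHom.toAlgebra
  have hmapF : ∀ G : MvPolynomial (Fin 2) k, ((algebraMap (MvPolynomial (Fin 2) k) (FF k t s) G : FF k t s) : K) = cv t s G :=
    fun G => rfl
  have tower : IsScalarTower (MvPolynomial (Fin 2) k) (FF k t s) K := IsScalarTower.of_algebraMap_eq fun G => rfl
  have hinj : Function.Injective (algebraMap (MvPolynomial (Fin 2) k) (FF k t s)) := by
    intro G H h
    exact hc.inj (congrArg Subtype.val h)
  have : FaithfulSMul (MvPolynomial (Fin 2) k) (FF k t s) := (faithfulSMul_iff_algebraMap_injective _ _).2 hinj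
  have frac : IsFractionRing (MvPolynomial (Fin 2) k) (FF k t s) := by
    apply IsFractionRing.of_field
    rintro ⟨z, hz⟩
    obtain ⟨G, H, hH, h⟩ := (mem_FF hc).1 hz
    refine ⟨G, H, ?_⟩
    apply Subtype.ext
    change z = cv t s G / cv t s H
    rw [← h, mul_div_cancel_right₀ _ (hc.cv_ne hH)]
  have hfin := IsIntegralClosure.finite (MvPolynomial (Fin 2) k) (FF k t s) K
    (integralClosure (MvPolynomial (Fin 2) k) K)
  obtain ⟨m, e, he⟩ := Module.Finite.exists_fin (R := MvPolynomial (Fin 2) k)
    (M := integralClosure (MvPolynomial (Fin 2) k) K)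
  refine ⟨m, fun j => (e j : K), ?_, ?_⟩
  · intro j
    have h1 : IsIntegral (MvPolynomial (Fin 2) k) (e j : K) := (e j).2
    obtain ⟨p, hp, hpe⟩ := h1
    rw [mem_ic_iff_poly]
    refine ⟨p.map (algebraMap (MvPolynomial (Fin 2) k) K), hp.map _, ?_, ?_⟩
    · intro i
      rw [Polynomial.coeff_map, mem_pol]
      exact ⟨_, rfl⟩
    · rw [Polynomial.eval_map]
      exact hpe
  · intro z hz
    have h1 : IsIntegral (MvPolynomial (Fin 2) k) z := by
      rw [mem_ic_iff_poly] at hz
      obtain ⟨p, hp, hpc, hpz⟩ := hz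
      have hl : p ∈ Polynomial.lifts (algebraMap (MvPolynomial (Fin 2) k) K) := by
        rw [Polynomial.lifts_iff_coeff_lifts]
        intro i
        obtain ⟨G, hG⟩ := mem_pol.1 (hpc i)
        exact ⟨G, hG.symm⟩
      obtain ⟨q, hq, -, hqm⟩ := Polynomial.lifts_and_degree_eq_and_monic hl hp
      refine ⟨q, hqm, ?_⟩
      rw [← Polynomial.eval_map, hq]
      exact hpz
    have h2 : (⟨z, h1⟩ : integralClosure (MvPolynomial (Fin 2) k) K) ∈ Submodule.span (MvPolynomial (Fin 2) k) (Set.range e) := by
      rw [he]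
      trivial
    rw [Submodule.mem_span_range_iff_exists_fun] at h2
    obtain ⟨G, hG⟩ := h2
    refine ⟨G, ?_⟩
    have h3 := congrArg (Subtype.val : integralClosure (MvPolynomial (Fin 2) k) K → K) hG
    rw [AddSubmonoidClass.coe_finsetSum] at h3
    refine h3.symm.trans ?_
    apply Finset.sum_congr rfl
    intro j _
    rfl

end Pool.Agent.Lib.MP_4318ff_ag.Q
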