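import Pool.Agent.Lib.MP_4318ff_ag.Q.Basic

/-!
# Powers and twists of families

PROOF. `(a - b)^q = a^q - b^q` for `q = p^e` in characteristic `p`; `h (a^q) - a^q = (h a - a)^q`. `reg_frob_div`: `(ρ1 - ρT)^q/τ^d = ((ρ1 - ρT)/u^κ)^q u^(κq - nd)` with `τ = 1/t = u^n` and `u ∈ ic k[1/t]`.
`sol_twist`: `h` fixes `t, s, k`, so it maps each of the rings `ringV, locS, locE, locI` into itself, and `ic` of them into itself (`map_mem_ic`); `h v = v`;
`(h x - x - (h ρ - ρ))/v = h((x - ρ)/v) - (x - ρ)/v`.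
-/

set_option autoImplicit false

namespace Pool.Agent.Lib.MP_4318ff_ag.Q

open MvPolynomial

variable {k K : Type} [Field k] [Field K] [Algebra k K]

theorem frob_sub (p : ℕ) [Fact p.Prime] [CharP k p] (e : ℕ) (a b : K) : (a - b) ^ p ^ e = a ^ p ^ e - b ^ p ^ e := by
  have hK : CharP K p := charP_of_injective_algebraMap (algebraMap k K).injective p
  exact sub_pow_char_pow a b e

theorem frob_div (p : ℕ) [Fact p.Prime] [CharP k p] (e : ℕ) {S : Subalgebra k K} {a b v : K}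
    (h : (a - b) / v ∈ ic S) : (a ^ p ^ e - b ^ p ^ e) / v ^ p ^ e ∈ ic S := by
  rw [← frob_sub (k := k) p e, ← div_pow]
  exact pow_mem h _

theorem reg_frob (p : ℕ) [Fact p.Prime] [CharP k p] {t s v : K} {D : Fam k K} (h : D.Reg t s v) (e : ℕ) :
    (D.map (fun x => x ^ p ^ e)).Reg t s (v ^ p ^ e) :=
  ⟨h.inj, fun T hT => frob_div p e (h.h1 T hT), frob_div p e h.h2⟩

theorem sol_frob (p : ℕ) [Fact p.Prime] [CharP k p] {t s v x : K} {D : Fam k K} (h : D.Sol t s v x) (e : ℕ) :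
    (D.map (fun x => x ^ p ^ e)).Sol t s (v ^ p ^ e) (x ^ p ^ e) :=
  ⟨frob_div p e h.s1, fun T hT => frob_div p e (h.s2 T hT), fun T hT => frob_div p e (h.s3 T hT),
    frob_div p e h.s4⟩

theorem frob_sub_mem (p : ℕ) [Fact p.Prime] [CharP k p] (e : ℕ) {S : Subalgebra k K} {a b : K}
    (h : a - b ∈ ic S) : a ^ p ^ e - b ^ p ^ e ∈ ic S := by
  rw [← frob_sub (k := k) p e]
  exact pow_mem h _

theorem compat_frob (p : ℕ) [Fact p.Prime] [CharP k p] {t s : K} {D D' : Fam k K} (h : Compat t s D D') (e : ℕ) :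
    Compat t s (D.map (fun x => x ^ p ^ e)) (D'.map (fun x => x ^ p ^ e)) :=
  ⟨h.ne, h.ne', frob_sub_mem p e h.c1, fun T hT => frob_sub_mem p e (h.c2 T hT),
    fun T hT => frob_sub_mem p e (h.c3 T hT), frob_sub_mem p e h.c4⟩

/-- Regularity of `ρ^q / τ^d` in the coordinates `τ = 1/t, s' = s/t`. -/
theorem reg_frob_div (p : ℕ) [Fact p.Prime] [CharP k p] {t s u : K} (ht : t ≠ 0) {n κ : ℕ} (hn : 0 < n) (hu : u ^ n * t = 1) {D : Fam k K}
    (h : D.Reg t⁻¹ (s / t) (u ^ κ)) (e d : ℕ) (hd : n * d ≤ κ * p ^ e) :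
    (D.map (fun x => x ^ p ^ e * t ^ d)).Reg t⁻¹ (s / t) 1 := by
  have hun : u ^ n = t⁻¹ := eq_inv_of_mul_eq_one_left hu
  have hu0 : u ≠ 0 := by
    rintro rfl
    rw [zero_pow hn.ne', zero_mul] at hu
    exact zero_ne_one hu
  have key : ∀ (S : Subalgebra k K), t⁻¹ ∈ S → ∀ a b : K, (a - b) / u ^ κ ∈ ic S →
      (a ^ p ^ e * t ^ d - b ^ p ^ e * t ^ d) / 1 ∈ ic S := by
    intro S hS a b hab
    have huS : u ∈ ic S := mem_ic_of_pow hn (by rw [hun]; exact le_ic _ hS)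
    have e1 : (a ^ p ^ e * t ^ d - b ^ p ^ e * t ^ d) / 1 = ((a - b) / u ^ κ) ^ p ^ e * u ^ (κ * p ^ e - n * d) := by
      have h1 : t ^ d * (u ^ n) ^ d = 1 := by rw [← mul_pow, mul_comm, hu, one_pow]
      have h2 : u ^ (κ * p ^ e) = u ^ (κ * p ^ e - n * d) * (u ^ n) ^ d := by
        rw [← pow_mul, ← pow_add, Nat.sub_add_cancel hd]
      rw [div_pow, frob_sub (k := k) p e, ← pow_mul, h2, div_one, eq_comm, div_mul_eq_mul_div, div_eq_iff]
      · linear_combination (-(a ^ p ^ e - b ^ p ^ e) * u ^ (κ * p ^ e - n * d)) * h1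
      · exact mul_ne_zero (pow_ne_zero _ hu0) (pow_ne_zero _ (pow_ne_zero _ hu0))
    rw [e1]
    exact mul_mem (pow_mem hab _) (pow_mem huS _)
  refine ⟨h.inj, fun T hT => ?_, ?_⟩
  · exact key _ (Algebra.subset_adjoin (Or.inl (Or.inl rfl))) _ _ (h.h1 T hT)
  · exact key _ (Algebra.subset_adjoin (Or.inl (Or.inl rfl))) _ _ h.h2

section Twist

variable {t s : K} (h : K ≃ₐ[k] K) (ht : h t = t) (hs : h s = s)

include ht hs in
theorem twist_cv (G : MvPolynomial (Fin 2) k) : h (cv t s G) = cv t s G := by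
  have e : (h : K →ₐ[k] K).comp (cv t s) = cv t s := by
    apply MvPolynomial.algHom_ext
    intro i
    fin_cases i
    · change h (cv t s (X 0)) = cv t s (X 0)
      rw [cv_X0, ht]
    · change h (cv t s (X 1)) = cv t s (X 1)
      rw [cv_X1, hs]
  exact DFunLike.congr_fun e G

include ht hs in
theorem twist_sl (T : k × k) : h (sl t s T) = sl t s T := by
  unfold sl
  rw [map_div₀, map_sub, map_sub, ht, hs, AlgEquiv.commutes, AlgEquiv.commutes]

/-- An algebra automorphism which fixes the generators fixes the algebra. -/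
theorem twist_adjoin (A : Set K) (hA : ∀ x ∈ A, h x = x) : ∀ x ∈ Algebra.adjoin k A, h x = x := by
  intro x hx
  induction hx using Algebra.adjoin_induction with
  | mem x hx => exact hA x hx
  | algebraMap r => exact h.commutes r
  | add x y _ _ hx hy => rw [map_add, hx, hy]
  | mul x y _ _ hx hy => rw [map_mul, hx, hy]

include ht hs in
theorem twist_ringV (pts : Finset (k × k)) : ∀ x ∈ ringV t s pts, h x = x := by
  apply twist_adjoin
  rintro x ((rfl | rfl) | ⟨T, -, rfl⟩)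
  · exact ht
  · exact hs
  · rw [map_inv₀, map_sub, hs, AlgEquiv.commutes]

include ht hs in
theorem twist_loc (π : MvPolynomial (Fin 2) k) : ∀ x ∈ loc t s π, h x = x := by
  apply twist_adjoin
  rintro x ⟨G, H, -, rfl⟩
  rw [map_div₀, twist_cv h ht hs, twist_cv h ht hs]

theorem twist_mem {S : Subalgebra k K} (hS : ∀ x ∈ S, h x = x) {x ρ v : K} (hv : h v = v)
    (hx : (x - ρ) / v ∈ ic S) : (h x - x - (h ρ - ρ)) / v ∈ ic S := by
  have h1 : h ((x - ρ) / v) ∈ ic S :=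
    map_mem_ic (h : K →+* K) (fun y hy => by
      change h y ∈ S
      rw [hS y hy]
      exact hy) hx
  rw [map_div₀, map_sub, hv] at h1
  have e : (h x - x - (h ρ - ρ)) / v = (h x - h ρ) / v - (x - ρ) / v := by ring
  rw [e]
  exact sub_mem h1 hx

end Twist

theorem sol_twist {t s v x : K} {D : Fam k K} (h : K ≃ₐ[k] K) (ht : h t = t) (hs : h s = s) (hv : h v = v)
    (hx : D.Sol t s v x) : (D.map (fun y => h y - y)).Sol t s v (h x - x) := by
  refine ⟨?_, ?_, ?_, ?_⟩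
  · exact twist_mem h (twist_ringV h ht hs _) hv hx.s1
  · intro T hT
    exact twist_mem h (twist_loc h ht hs _) hv (hx.s2 T hT)
  · intro T hT
    exact twist_mem h (twist_loc h ht (twist_sl h ht hs T) _) hv (hx.s3 T hT)
  · exact twist_mem h (twist_loc h ht (by rw [map_inv₀, hs]) _) hv hx.s4

/-- Change of the modulus: `v` may be replaced by `v'` if `v / v'` is integral over `k[t]`. -/
theorem sol_mono {t s v v' x : K} {D : Fam k K} (hv : v ≠ 0) (h : v / v' ∈ ic (Algebra.adjoin k {t})) (hx : D.Sol t s v x) :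
    D.Sol t s v' x := by
  have key : ∀ (S : Subalgebra k K), t ∈ S → ∀ a : K, a / v ∈ ic S → a / v' ∈ ic S := by
    intro S hS a ha
    have e : a / v' = a / v * (v / v') := by field_simp
    rw [e]
    refine mul_mem ha (ic_mono (Algebra.adjoin_le ?_) h)
    rintro y rfl
    exact hS
  have hloc : ∀ (t' s' : K) (π : MvPolynomial (Fin 2) k), Prime π → t' ∈ loc t' s' π := by
    intro t' s' π hπ
    have := cv_mem_loc t' s' hπ (X 0)
    rwa [cv_X0] at this
  refine ⟨?_, ?_, ?_, ?_⟩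
  · exact key _ (Algebra.subset_adjoin (Or.inl (Or.inl rfl))) _ hx.s1
  · intro T hT
    exact key _ (hloc _ _ _ (prime_X1_sub T.2)) _ (hx.s2 T hT)
  · intro T hT
    exact key _ (hloc _ _ _ (prime_X0_sub T.1)) _ (hx.s3 T hT)
  · refine key _ (hloc _ _ _ ?_) _ hx.s4
    have := prime_X1_sub (0 : k)
    rwa [C_0, sub_zero] at this

theorem sol_congr {t s v x : K} {D D' : Fam k K} (h1 : D.pts = D'.pts) (h2 : D.ρ1 = D'.ρ1) (h3 : D.ρ3 = D'.ρ3) (h4 : D.ρT = D'.ρT)
    (hx : D.Sol t s v x) : D'.Sol t s v x := by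
  refine ⟨?_, ?_, ?_, ?_⟩
  · rw [← h1, ← h2]; exact hx.s1
  · rw [← h1, ← h4]; exact hx.s2
  · rw [← h1, ← h2]; exact hx.s3
  · rw [← h3]; exact hx.s4

end Pool.Agent.Lib.MP_4318ff_ag.Q
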