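import Pool.Agent.Lib.MP_4318ff_ag.Q.Basic

/-!
# Glueing by decomposition into fractions

`h = ∏_(T ∈ pts) (s - s_T)`, `h^m y_T ∈ ic k[t,s]`; the polynomials `∏_(T' ≠ T) (s - s_(T'))^m` generate the unit ideal
of `k[s]`, and `y₀` is the corresponding combination of the `y_T`.
-/

set_option autoImplicit false

namespace Pool.Agent.Lib.MP_4318ff_ag.Q

open MvPolynomial

variable {k K : Type} [Field k] [Field K] [Algebra k K]

/-- `k[t, s, 1/(s - s_(T')) : T' ∈ pts, T' ≠ T]`. -/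
noncomputable def ringG (t s : K) (pts : Finset (k × k)) (T : k × k) : Subalgebra k K :=
  Algebra.adjoin k ({t, s} ∪ {x | ∃ T' ∈ pts, T' ≠ T ∧ x = (s - algebraMap k K T'.2)⁻¹})

private theorem pol_le_ringG (t s : K) (pts : Finset (k × k)) (T : k × k) :
    pol k t s ≤ ringG t s pts T :=
  Algebra.adjoin_mono Set.subset_union_left

private theorem pol_le_ringV (t s : K) (pts : Finset (k × k)) :
    pol k t s ≤ ringV t s pts :=
  Algebra.adjoin_mono Set.subset_union_left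

private theorem lin_mem_pol (t s : K) (a : k) : s - algebraMap k K a ∈ pol k t s :=
  sub_mem (Algebra.subset_adjoin (by simp)) (Subalgebra.algebraMap_mem _ a)

private theorem ringV_den {t s : K} (hc : Coord k t s) (pts : Finset (k × k)) (y : K)
    (hy : y ∈ ringV t s pts) :
    ∃ m : ℕ, (∏ T ∈ pts, (s - algebraMap k K T.2)) ^ m * y ∈ pol k t s := by
  classical
  have hh : (∏ T ∈ pts, (s - algebraMap k K T.2)) ∈ pol k t s :=
    Subalgebra.prod_mem _ fun T _ => lin_mem_pol t s T.2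
  unfold ringV at hy
  induction hy using Algebra.adjoin_induction with
  | mem x hx =>
    rcases hx with hx | ⟨T, hT, rfl⟩
    · refine ⟨0, ?_⟩
      rw [pow_zero, one_mul]
      exact Algebra.subset_adjoin hx
    · refine ⟨1, ?_⟩
      rw [pow_one, ← Finset.mul_prod_erase pts (fun T => s - algebraMap k K T.2) hT, mul_comm,
        ← mul_assoc, inv_mul_cancel₀ (hc.s_sub_ne T.2), one_mul]
      exact Subalgebra.prod_mem _ fun T _ => lin_mem_pol t s T.2
  | algebraMap r =>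
    refine ⟨0, ?_⟩
    rw [pow_zero, one_mul]
    exact Subalgebra.algebraMap_mem _ r
  | add x y _ _ h1 h2 =>
    obtain ⟨m, hm⟩ := h1
    obtain ⟨n, hn⟩ := h2
    refine ⟨m + n, ?_⟩
    have e : (∏ T ∈ pts, (s - algebraMap k K T.2)) ^ (m + n) * (x + y) =
        (∏ T ∈ pts, (s - algebraMap k K T.2)) ^ n *
          ((∏ T ∈ pts, (s - algebraMap k K T.2)) ^ m * x) +
        (∏ T ∈ pts, (s - algebraMap k K T.2)) ^ m *
          ((∏ T ∈ pts, (s - algebraMap k K T.2)) ^ n * y) := by ring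
    rw [e]
    exact add_mem (mul_mem (pow_mem hh n) hm) (mul_mem (pow_mem hh m) hn)
  | mul x y _ _ h1 h2 =>
    obtain ⟨m, hm⟩ := h1
    obtain ⟨n, hn⟩ := h2
    refine ⟨m + n, ?_⟩
    have e : (∏ T ∈ pts, (s - algebraMap k K T.2)) ^ (m + n) * (x * y) =
        ((∏ T ∈ pts, (s - algebraMap k K T.2)) ^ m * x) *
          ((∏ T ∈ pts, (s - algebraMap k K T.2)) ^ n * y) := by ring
    rw [e]
    exact mul_mem hm hn

private theorem glue_pf (s : K) (pts : Finset (k × k)) (hne : pts.Nonempty)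
    (inj : ∀ T ∈ pts, ∀ T' ∈ pts, T.2 = T'.2 → T = T') (M : ℕ) [DecidableEq (k × k)] :
    ∃ μ : k × k → Polynomial k, ∑ i ∈ pts, Polynomial.aeval s (μ i) *
      ∏ j ∈ pts \ {i}, (s - algebraMap k K j.2) ^ M = 1 := by
  have hcop : Pairwise (Function.onFun IsCoprime
      fun T : pts => (Polynomial.X - Polynomial.C (T : k × k).2 : Polynomial k) ^ M) := by
    intro T T' hTT
    refine IsCoprime.pow ?_
    refine Polynomial.isCoprime_X_sub_C_of_isUnit_sub (IsUnit.mk0 _ ?_)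
    intro h
    exact hTT (Subtype.ext (inj _ T.2 _ T'.2 (sub_eq_zero.1 h)))
  obtain ⟨μ, hμ⟩ := (exists_sum_eq_one_iff_pairwise_coprime (s := fun T : k × k =>
    (Polynomial.X - Polynomial.C T.2 : Polynomial k) ^ M) hne).2 hcop
  refine ⟨μ, ?_⟩
  have hμ' := congrArg (fun p => Polynomial.aeval s p) hμ
  simp only [map_sum, map_mul, map_prod, map_pow, map_sub, Polynomial.aeval_X, Polynomial.aeval_C,
    map_one] at hμ'
  exact hμ'

private theorem aeval_s_mem (t s : K) (p : Polynomial k) : Polynomial.aeval s p ∈ pol k t s := by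
  rw [Polynomial.aeval_eq_sum_range]
  exact sum_mem fun i _ => Subalgebra.smul_mem _ (pow_mem (Algebra.subset_adjoin (by simp)) i) _

private theorem glue_id {I : Type} [DecidableEq I] (pts : Finset I) (L : I → K)
    (hL : ∀ T, L T ≠ 0) {i T : I} (hT : T ∈ pts) (hTi : T ∈ pts \ {i}) (M : ℕ) (a u v : K) :
    (a * ∏ j ∈ pts \ {i}, L j ^ M) * (u - v) =
    (a * (∏ j ∈ (pts \ {i}).erase T, L j) ^ M) *
      ((∏ j ∈ pts \ {T}, (L j)⁻¹) ^ M * ((∏ T ∈ pts, L T) ^ M * u - (∏ T ∈ pts, L T) ^ M * v)) := by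
  have hG : ∏ j ∈ pts \ {T}, L j ≠ 0 := Finset.prod_ne_zero_iff.2 fun j _ => hL j
  have e2 : ∏ j ∈ pts \ {i}, L j ^ M = (∏ j ∈ pts \ {T}, (L j)⁻¹) ^ M *
        ((∏ j ∈ (pts \ {i}).erase T, L j) ^ M * (∏ T ∈ pts, L T) ^ M) := by
    rw [Finset.prod_pow, ← Finset.mul_prod_erase _ L hTi, ← Finset.mul_prod_erase pts L hT,
      ← Finset.sdiff_singleton_eq_erase T pts, Finset.prod_inv_distrib, ← mul_pow, ← mul_pow]
    congr 1
    field_simp
  rw [e2]
  ring

theorem glue {t s : K} (hc : Coord k t s) (pts : Finset (k × k))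
    (inj : ∀ T ∈ pts, ∀ T' ∈ pts, T.2 = T'.2 → T = T') (y : k × k → K)
    (hy : ∀ T ∈ pts, y T ∈ ic (ringV t s pts)) :
    ∃ y₀ ∈ ic (ringV t s pts), ∀ T ∈ pts, y₀ - y T ∈ ic (ringG t s pts T) := by
  classical
  rcases pts.eq_empty_or_nonempty with rfl | hne
  · exact ⟨0, zero_mem _, fun T hT => absurd hT (Finset.notMem_empty T)⟩
  have hh : (∏ T ∈ pts, (s - algebraMap k K T.2)) ∈ pol k t s :=
    Subalgebra.prod_mem _ fun T _ => lin_mem_pol t s T.2
  have h1 : ∀ T : k × k, ∃ m : ℕ, T ∈ pts →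
      (∏ T ∈ pts, (s - algebraMap k K T.2)) ^ m * y T ∈ ic (pol k t s) := by
    intro T
    by_cases hT : T ∈ pts
    · obtain ⟨m, hm⟩ := exists_pow_mul_mem_ic hh (ringV_den hc pts) (hy T hT)
      exact ⟨m, fun _ => hm⟩
    · exact ⟨0, fun h => absurd h hT⟩
  choose m hm using h1
  obtain ⟨M, hM⟩ : ∃ M, M = pts.sup m := ⟨_, rfl⟩
  have hMT : ∀ T ∈ pts, (∏ T ∈ pts, (s - algebraMap k K T.2)) ^ M * y T ∈ ic (pol k t s) := by
    intro T hT
    have h2 : m T ≤ M := hM ▸ Finset.le_sup (f := m) hT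
    have e : (∏ T ∈ pts, (s - algebraMap k K T.2)) ^ M * y T =
        (∏ T ∈ pts, (s - algebraMap k K T.2)) ^ (M - m T) *
          ((∏ T ∈ pts, (s - algebraMap k K T.2)) ^ m T * y T) := by
      rw [← mul_assoc, ← pow_add, Nat.sub_add_cancel h2]
    rw [e]
    exact mul_mem (le_ic _ (pow_mem hh _)) (hm T hT)
  obtain ⟨μ, hμ⟩ := glue_pf (K := K) s pts hne inj M
  have hterm : ∀ i, Polynomial.aeval s (μ i) * ∏ j ∈ pts \ {i}, (s - algebraMap k K j.2) ^ M ∈
      pol k t s := fun i => mul_mem (aeval_s_mem t s _)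
    (Subalgebra.prod_mem _ fun j _ => pow_mem (lin_mem_pol t s _) _)
  refine ⟨∑ i ∈ pts, (Polynomial.aeval s (μ i) *
    ∏ j ∈ pts \ {i}, (s - algebraMap k K j.2) ^ M) * y i,
    sum_mem fun i hi => mul_mem (le_ic _ (pol_le_ringV t s pts (hterm i))) (hy i hi),
    fun T hT => ?_⟩
  have e1 : (∑ i ∈ pts, (Polynomial.aeval s (μ i) *
      ∏ j ∈ pts \ {i}, (s - algebraMap k K j.2) ^ M) * y i) - y T =
      ∑ i ∈ pts, (Polynomial.aeval s (μ i) *
      ∏ j ∈ pts \ {i}, (s - algebraMap k K j.2) ^ M) * (y i - y T) := by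
    simp only [mul_sub, Finset.sum_sub_distrib]
    rw [← Finset.sum_mul, hμ, one_mul]
  rw [e1]
  refine sum_mem fun i hi => ?_
  by_cases hiT : i = T
  · rw [hiT, sub_self, mul_zero]
    exact zero_mem _
  have hTi : T ∈ pts \ {i} := by
    rw [Finset.mem_sdiff, Finset.mem_singleton]
    exact ⟨hT, fun h => hiT h.symm⟩
  rw [glue_id pts (fun T => s - algebraMap k K T.2) (fun T => hc.s_sub_ne T.2) hT hTi M]
  refine mul_mem (le_ic _ (pol_le_ringG t s pts T (mul_mem (aeval_s_mem t s _) (pow_mem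
    (Subalgebra.prod_mem _ fun j _ => lin_mem_pol t s j.2) _)))) (mul_mem ?_ ?_)
  · refine pow_mem (le_ic _ (Subalgebra.prod_mem _ fun j hj => ?_)) _
    rw [Finset.mem_sdiff, Finset.mem_singleton] at hj
    exact Algebra.subset_adjoin (Or.inr ⟨j, hj.1, hj.2, rfl⟩)
  · exact ic_mono (pol_le_ringG t s pts T) (sub_mem (hMT i hi) (hMT T hT))

end Pool.Agent.Lib.MP_4318ff_ag.Q
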