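import Mathlib

/-!
# Linear algebra over `k(t)`

Choose a basis of the span of the `e_j` and `e'_j`; clear the denominators of the coordinates by `ψ ∈ k[X]`; multiply the
equation by `t^D` and compare degrees of polynomials.
-/

set_option autoImplicit false

namespace Pool.Agent.Lib.MP_4318ff_ag.Q

open Polynomial

private theorem lin_reflect {k L : Type} [Field k] [Field L] [Algebra k L] [Algebra k[X] L] [IsScalarTower k k[X] L]
    [IsFractionRing k[X] L] (N : ℕ) (p : k[X]) (hp : p.natDegree ≤ N) :
    aeval (algebraMap k[X] L X)⁻¹ p * (algebraMap k[X] L X) ^ N = algebraMap k[X] L (reflect N p) := by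
  have ht : algebraMap k[X] L X ≠ 0 := by
    intro h
    have := (IsFractionRing.injective k[X] L) (h.trans (map_zero _).symm)
    exact X_ne_zero this
  haveI : Invertible (algebraMap k[X] L X) := invertibleOfNonzero ht
  have hN : (reflect N p).natDegree ≤ N := natDegree_reflect_le.trans (max_le le_rfl hp)
  have h := eval₂_reflect_mul_pow (algebraMap k L) (algebraMap k[X] L X) N (reflect N p) hN
  rw [reflect_reflect, invOf_eq_inv] at h
  have h2 : aeval (algebraMap k[X] L X) (reflect N p) = algebraMap k[X] L (reflect N p) := by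
    rw [aeval_algebraMap_apply, aeval_X_left_apply]
  rw [← h2, aeval_def, aeval_def]
  exact h

theorem lin {k L V : Type} [Field k] [Field L] [Algebra k L] [Algebra k[X] L] [IsScalarTower k k[X] L] [IsFractionRing k[X] L]
    [AddCommGroup V] [Module L V] (m m' : ℕ) (e : Fin m → V) (e' : Fin m' → V) (φ φ' : k[X]) (hφ : φ ≠ 0) (hφ' : φ' ≠ 0) :
    ∃ d₀ : ℕ, ∀ d ≥ d₀, ∀ (c : Fin m → k[X]) (c' : Fin m' → k[X]),
      (aeval (algebraMap k[X] L X)⁻¹ φ' * (algebraMap k[X] L X) ^ d) • ∑ j, algebraMap k[X] L (c j) • e j =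
        algebraMap k[X] L φ • ∑ j, aeval (algebraMap k[X] L X)⁻¹ (c' j) • e' j →
      ∑ j, algebraMap k[X] L (c j) • e j = 0 := by
  classical
  have hinj : Function.Injective (algebraMap k[X] L) := IsFractionRing.injective k[X] L
  let W : Submodule L V := Submodule.span L (Set.range e ∪ Set.range e')
  haveI : FiniteDimensional L W := FiniteDimensional.span_of_finite L ((Set.finite_range e).union (Set.finite_range e'))
  let b := Module.finBasis L W
  let eW : Fin m → W := fun j => ⟨e j, Submodule.subset_span (Or.inl ⟨j, rfl⟩)⟩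
  let eW' : Fin m' → W := fun j => ⟨e' j, Submodule.subset_span (Or.inr ⟨j, rfl⟩)⟩
  obtain ⟨ψ, hψ⟩ := IsLocalization.exist_integer_multiples_of_finite (nonZeroDivisors k[X])
    (fun p : Fin (Module.finrank L W) × (Fin m ⊕ Fin m') => b.repr (Sum.elim eW eW' p.2) p.1)
  choose P hP using hψ
  have hψ0 : (ψ : k[X]) ≠ 0 := nonZeroDivisors.ne_zero ψ.2
  let B := Finset.univ.sup (fun p : Fin (Module.finrank L W) × (Fin m ⊕ Fin m') => (P p).natDegree)
  have hB : ∀ p, (P p).natDegree ≤ B := fun p =>
    Finset.le_sup (f := fun p : Fin (Module.finrank L W) × (Fin m ⊕ Fin m') => (P p).natDegree) (Finset.mem_univ p)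
  refine ⟨φ'.natDegree + φ.natDegree + B + 1, fun d hd c c' h => ?_⟩
  have hx : ∑ j, algebraMap k[X] L (c j) • eW j = 0 := by
    apply b.repr.injective
    rw [map_zero]
    ext i
    rw [Finsupp.zero_apply]
    by_contra hne
    let Q : k[X] := ∑ j, c j * P (i, Sum.inl j)
    have hQ : algebraMap k[X] L Q = algebraMap k[X] L ψ * b.repr (∑ j, algebraMap k[X] L (c j) • eW j) i := by
      simp only [Q, map_sum, map_mul, map_smul, Finsupp.coe_finsetSum, Finset.sum_apply, Finset.mul_sum,
        Finsupp.smul_apply, smul_eq_mul]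
      refine Finset.sum_congr rfl fun j _ => ?_
      rw [hP (i, Sum.inl j), Algebra.smul_def]
      simp only [Sum.elim_inl]
      ring
    have hQ0 : Q ≠ 0 := by
      intro h0
      rw [h0, map_zero] at hQ
      rcases mul_eq_zero.1 hQ.symm with h1 | h1
      · exact hψ0 (hinj (h1.trans (map_zero _).symm))
      · exact hne h1
    let D := max φ'.natDegree (Finset.univ.sup (fun j => (c' j).natDegree))
    have hD1 : φ'.natDegree ≤ D := le_max_left _ _
    have hD2 : ∀ j, (c' j).natDegree ≤ D := fun j =>
      (Finset.le_sup (f := fun j => (c' j).natDegree) (Finset.mem_univ j)).trans (le_max_right _ _)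
    let R : k[X] := ∑ j, reflect D (c' j) * P (i, Sum.inr j)
    have hW : (aeval (algebraMap k[X] L X)⁻¹ φ' * (algebraMap k[X] L X) ^ d) •
        ∑ j, algebraMap k[X] L (c j) • eW j =
        algebraMap k[X] L φ • ∑ j, aeval (algebraMap k[X] L X)⁻¹ (c' j) • eW' j := by
      apply Subtype.ext
      simpa [eW, eW'] using h
    have hW2 := congrArg (fun w => b.repr w i) hW
    simp only [map_smul, Finsupp.smul_apply, smul_eq_mul] at hW2
    have key : reflect D φ' * X ^ d * Q = φ * R := by
      apply hinj
      have h1 : algebraMap k[X] L (reflect D φ' * X ^ d * Q) =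
          algebraMap k[X] L X ^ D * algebraMap k[X] L ψ * ((aeval (algebraMap k[X] L X)⁻¹ φ' * (algebraMap k[X] L X) ^ d) *
            b.repr (∑ j, algebraMap k[X] L (c j) • eW j) i) := by
        rw [map_mul, map_mul, hQ, ← lin_reflect D φ' hD1, map_pow]
        ring
      rw [h1, hW2]
      simp only [R, map_sum, map_mul, map_smul, Finsupp.coe_finsetSum, Finset.sum_apply, Finset.mul_sum,
        Finsupp.smul_apply, smul_eq_mul]
      refine Finset.sum_congr rfl fun j _ => ?_
      rw [hP (i, Sum.inr j), Algebra.smul_def, ← lin_reflect D (c' j) (hD2 j)]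
      simp only [Sum.elim_inr]
      ring
    have hr0 : (reflect D φ').coeff (D - φ'.natDegree) ≠ 0 := by
      rw [coeff_reflect, revAt_le (Nat.sub_le _ _), Nat.sub_sub_self hD1]
      exact leadingCoeff_ne_zero.2 hφ'
    have hr1 : D - φ'.natDegree ≤ (reflect D φ').natDegree := le_natDegree_of_ne_zero hr0
    have hr2 : reflect D φ' ≠ 0 := fun h0 => hr0 (by rw [h0, coeff_zero])
    have hL : (reflect D φ' * X ^ d * Q).natDegree = (reflect D φ').natDegree + d + Q.natDegree := by
      rw [natDegree_mul (mul_ne_zero hr2 (pow_ne_zero _ X_ne_zero)) hQ0, natDegree_mul hr2 (pow_ne_zero _ X_ne_zero),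
        natDegree_X_pow]
    have hR : R.natDegree ≤ D + B := by
      apply natDegree_sum_le_of_forall_le
      intro j _
      refine natDegree_mul_le.trans (add_le_add ?_ (hB _))
      exact natDegree_reflect_le.trans (max_le le_rfl (hD2 j))
    have hR' : (φ * R).natDegree ≤ φ.natDegree + (D + B) := natDegree_mul_le.trans (add_le_add le_rfl hR)
    rw [← key, hL] at hR'
    omega
  have := congrArg Subtype.val hx
  simpa [eW] using this

end Pool.Agent.Lib.MP_4318ff_ag.Q
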