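import Pool.Agent.Lib.MP_4318ff_ag.Q.CoordCh

/-!
# The local rings in the coordinates `1/t, s/t`

A polynomial in `1/t` and `s/t` (or `1/t` and `t w`, `w = 1/s`) becomes a polynomial in `t, s` (or `t, w`) after multiplication
by a power of `t`; divisibility by `X₁ - c X₀` or `X₁` is tested by substituting.
-/

set_option autoImplicit false

namespace Pool.Agent.Lib.MP_4318ff_ag.Q

open MvPolynomial

variable {k K : Type} [Field k] [Field K] [Algebra k K]

private theorem trans_poly (u : K → K → K) (P : MvPolynomial (Fin 2) k)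
    (hu : ∀ t s : K, t ≠ 0 → t * u t s = cv t s P) (G : MvPolynomial (Fin 2) k) :
    ∃ (D : ℕ) (G' : MvPolynomial (Fin 2) k), ∀ t s : K, t ≠ 0 →
      t ^ D * cv t⁻¹ (u t s) G = cv t s G' := by
  induction G using MvPolynomial.induction_on with
  | C a =>
    refine ⟨0, C a, fun t s _ => ?_⟩
    rw [pow_zero, one_mul, cv_C, cv_C]
  | add p q hp hq =>
    obtain ⟨D, p', h1⟩ := hp
    obtain ⟨E, q', h2⟩ := hq
    refine ⟨D + E, X 0 ^ E * p' + X 0 ^ D * q', fun t s ht => ?_⟩
    rw [map_add, map_add, map_mul, map_mul, map_pow, map_pow, cv_X0, ← h1 t s ht, ← h2 t s ht]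
    ring
  | mul_X p i hp =>
    obtain ⟨D, p', h1⟩ := hp
    fin_cases i
    · refine ⟨D + 1, p', fun t s ht => ?_⟩
      rw [← h1 t s ht]
      change t ^ (D + 1) * cv t⁻¹ (u t s) (p * X 0) = _
      rw [map_mul, cv_X0, pow_succ]
      calc t ^ D * t * (cv t⁻¹ (u t s) p * t⁻¹) = t ^ D * cv t⁻¹ (u t s) p * (t * t⁻¹) := by ring
        _ = _ := by rw [mul_inv_cancel₀ ht, mul_one]
    · refine ⟨D + 1, p' * P, fun t s ht => ?_⟩
      change t ^ (D + 1) * cv t⁻¹ (u t s) (p * X 1) = _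
      rw [map_mul, map_mul, cv_X1, ← h1 t s ht, ← hu t s ht]
      ring

private theorem trans_dvd (c : k) (H : MvPolynomial (Fin 2) k)
    (h : aeval (![X 0, C c] : Fin 2 → MvPolynomial (Fin 2) k) H = 0) : X 1 - C c ∣ H := by
  rw [← Ideal.mem_span_singleton, ← Ideal.Quotient.eq_zero_iff_mem]
  have h1 : (Ideal.Quotient.mkₐ k (Ideal.span {(X 1 - C c : MvPolynomial (Fin 2) k)})).comp
      (aeval (![X 0, C c] : Fin 2 → MvPolynomial (Fin 2) k)) =
      Ideal.Quotient.mkₐ k (Ideal.span {(X 1 - C c : MvPolynomial (Fin 2) k)}) := by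
    apply MvPolynomial.algHom_ext
    intro i
    rw [AlgHom.comp_apply, aeval_X]
    fin_cases i
    · rfl
    · change Ideal.Quotient.mk _ (C c) = Ideal.Quotient.mk _ (X 1)
      rw [eq_comm, Ideal.Quotient.eq]
      exact Ideal.mem_span_singleton_self _
  have h2 := congrArg (fun f => f H) h1
  simp only [AlgHom.comp_apply, h, map_zero] at h2
  exact h2.symm

private theorem trans_core {t s v : K} {c' : k} (u : K → K → K) (P : MvPolynomial (Fin 2) k)
    (hu : ∀ t s : K, t ≠ 0 → t * u t s = cv t s P) (ht : t ≠ 0)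
    (hc' : Coord k t⁻¹ (u t s)) {π : MvPolynomial (Fin 2) k} (hπ : Prime π)
    (hv : cv t v π = 0) (hcv : u t v = algebraMap k K c') :
    loc t⁻¹ (u t s) (X 1 - C c') ≤ loc t s π := by
  refine Algebra.adjoin_le ?_
  rintro _ ⟨G, H, hH, rfl⟩
  obtain ⟨D, G', h1⟩ := trans_poly u P hu G
  obtain ⟨E, H', h2⟩ := trans_poly u P hu H
  have hH' : ¬ π ∣ H' := by
    rintro ⟨Q, hQ⟩
    have h3 := h2 t v ht
    rw [hQ, map_mul, hv, zero_mul, hcv] at h3
    have h4 : cv t⁻¹ (algebraMap k K c') H = 0 := (mul_eq_zero.1 h3).resolve_left (pow_ne_zero _ ht)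
    have h5 : (cv (k := k) t⁻¹ (u t s)).comp
        (aeval (![X 0, C c'] : Fin 2 → MvPolynomial (Fin 2) k)) =
        cv t⁻¹ (algebraMap k K c') := by
      apply MvPolynomial.algHom_ext
      intro i
      rw [AlgHom.comp_apply, aeval_X]
      fin_cases i
      · change cv t⁻¹ (u t s) (X 0) = cv t⁻¹ _ (X 0)
        rw [cv_X0, cv_X0]
      · change cv t⁻¹ (u t s) (C c') = cv t⁻¹ _ (X 1)
        rw [cv_C, cv_X1]
    have h6 := congrArg (fun f => f H) h5
    simp only [AlgHom.comp_apply] at h6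
    rw [h4] at h6
    exact hH (trans_dvd c' H (hc'.inj (by rw [h6, map_zero])))
  have hX : ¬ π ∣ (X 0 : MvPolynomial (Fin 2) k) := by
    rintro ⟨Q, hQ⟩
    have h3 : cv t v (X 0 : MvPolynomial (Fin 2) k) = 0 := by
      rw [hQ, map_mul, hv, zero_mul]
    rw [cv_X0] at h3
    exact ht h3
  refine Algebra.subset_adjoin ⟨G' * X 0 ^ E, X 0 ^ D * H', fun h => ?_, ?_⟩
  · rcases hπ.dvd_or_dvd h with h | h
    · exact hX (hπ.dvd_of_dvd_pow h)
    · exact hH' h
  · have h3 := hc'.cv_ne (H := H) (by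
      rintro rfl
      exact hH (dvd_zero _))
    rw [map_mul, map_mul, map_pow, map_pow, cv_X0, ← h1 t s ht, ← h2 t s ht]
    have h4 : t ^ D ≠ 0 := pow_ne_zero _ ht
    have h5 : t ^ E ≠ 0 := pow_ne_zero _ ht
    field_simp

private theorem trans_line (c : k) : Prime (X 1 - C c * X 0 : MvPolynomial (Fin 2) k) := by
  have h := prime_line (k := k) 0 c
  rwa [C_0, sub_zero] at h

theorem loc_line_inv {t s : K} (hc : Coord k t s) (c : k) :
    loc t⁻¹ (s / t) (X 1 - C c) ≤ loc t s (X 1 - C c * X 0) := by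
  refine trans_core (v := algebraMap k K c * t) (fun t s => s / t) (X 1) (fun t s ht => ?_)
    hc.t_ne hc.inv (trans_line c) ?_ ?_
  · rw [cv_X1, mul_div_cancel₀ _ ht]
  · rw [map_sub, map_mul, cv_X1, cv_C, cv_X0, sub_self]
  · exact mul_div_cancel_right₀ _ hc.t_ne

theorem locI_inv {t s : K} (hc : Coord k t s) : locI k t⁻¹ (s / t) ≤ locI k t s := by
  have h := trans_core (t := t) (s := s⁻¹) (v := 0) (c' := (0 : k)) (fun t s => t * s)
    (X 0 ^ 2 * X 1) (fun t s ht => by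
      rw [map_mul, map_pow, cv_X0, cv_X1]
      ring) hc.t_ne (by
      have h1 := hc.inv.sInv
      rw [inv_div, div_eq_mul_inv] at h1
      exact h1) (X_prime (i := 1)) (by rw [cv_X1]) (by
      change t * 0 = _
      rw [mul_zero, map_zero])
  rw [C_0, sub_zero] at h
  unfold locI
  rw [inv_div, div_eq_mul_inv]
  exact h

private theorem trans_X0 {π : MvPolynomial (Fin 2) k} (hπ : Hor π) :
    ¬ π ∣ (X 0 : MvPolynomial (Fin 2) k) := by
  have h := hπ.2 Polynomial.X Polynomial.X_ne_zero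
  rwa [Polynomial.aeval_X] at h

private theorem trans_inv {t s : K} {π : MvPolynomial (Fin 2) k} (hπ : Hor π) :
    t⁻¹ ∈ loc t s π := by
  have h := inv_cv_mem_loc t s (trans_X0 hπ)
  rwa [cv_X0] at h

private theorem trans_gen {t s : K} {π : MvPolynomial (Fin 2) k} (hπ : Hor π) :
    ({t⁻¹, s / t} : Set K) ⊆ loc t s π := by
  have h1 := trans_inv (t := t) (s := s) hπ
  have h2 : s ∈ loc t s π := by
    have h := cv_mem_loc t s hπ.1 (X 1)
    rwa [cv_X1] at h
  rintro x (rfl | rfl)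
  · exact h1
  · rw [div_eq_mul_inv]
    exact mul_mem h2 h1

theorem ringV_inv {t s : K} (hc : Coord k t s) (pts : Finset (k × k)) {π : MvPolynomial (Fin 2) k} (hπ : Hor π)
    (h : ∀ T ∈ pts, ¬ Associated π (X 1 - C T.2 * X 0)) : ringV t⁻¹ (s / t) pts ≤ loc t s π := by
  refine Algebra.adjoin_le (Set.union_subset (trans_gen hπ) ?_)
  rintro _ ⟨T, hT, rfl⟩
  have h1 : ¬ π ∣ X 1 - C T.2 * X 0 := fun hd =>
    h T hT ((hπ.1.dvd_prime_iff_associated (trans_line T.2)).1 hd)
  have h2 := inv_cv_mem_loc t s h1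
  rw [map_sub, map_mul, cv_X1, cv_C, cv_X0] at h2
  have h3 : t ∈ loc t s π := by
    have h := cv_mem_loc t s hπ.1 (X 0)
    rwa [cv_X0] at h
  have ht := hc.t_ne
  have h4 : (s / t - algebraMap k K T.2)⁻¹ = t * (s - algebraMap k K T.2 * t)⁻¹ := by
    rw [div_sub' ht, inv_div, div_eq_mul_inv, mul_comm t (algebraMap k K T.2)]
  rw [h4]
  exact mul_mem h3 h2

/-- Regular functions of `t ≠ 0` are regular at the horizontal divisors. -/
theorem polInv_le {t s : K} (hc : Coord k t s) {π : MvPolynomial (Fin 2) k} (hπ : Hor π) : pol k t⁻¹ (s / t) ≤ loc t s π :=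
  Algebra.adjoin_le (trans_gen hπ)

end Pool.Agent.Lib.MP_4318ff_ag.Q
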