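import Pool.Agent.Lib.MP_4318ff_ag.Q.HorAlg
import Pool.Agent.Lib.MP_4318ff_ag.Q.Trans

/-!
# Two solutions differ by an element algebraic over `k(t)`

PROOF. `sol_hor`: at a horizontal `π` not associated to a line `s = s_T`: `s1` and `ringV_le_loc`, and `Φ(t)` is a unit of `loc π`; at the line `s = s_T`: `s2`; at infinity `s4`. So the member
`ρ_π` (`ρ1` or `ρT T`) satisfies `x - ρ_π ∈ ic (loc π)`, the same for both solutions. `hor_alg`.
`cross`: `u^m` and `Φ'(1/t)` are units of `ic (loc π)`, `π` horizontal (`u^n = 1/t`; `u` is integral over `k[1/t]`, `u = t^(-1) (1/u)^(n-1)` ...: `1/u` is integral over `k[t]`). At a horizontal `π`: (1) not associated to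
a line `s = s_T`, `T ∈ D.pts` or `s = s_T t`, `T ∈ D'.pts`: `x - ρ1, x' - ρ1' ∈ ic (loc π)` (`ringV_inv`) and `c1`; (2) `π ~ X₁ - s_T`, `T ∈ D.pts`: it is not associated to `X₁ - s_(T') X₀` (`s_T, s_(T') ≠ 0`), so `x - ρ_T` and `x' - ρ1'`, `c2`;
(3) `π ~ X₁ - s_T X₀`, `T ∈ D'.pts`: `x - ρ1`, `x' - ρ'_T` (`loc_line_inv`), `c3`. At infinity: `s4`, `s4` of `D'` with `locI_inv`, `c4`.
-/

set_option autoImplicit false

namespace Pool.Agent.Lib.MP_4318ff_ag.Q

open MvPolynomial

variable {k K : Type} [Field k] [Field K] [Algebra k K]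

private theorem loc_assoc (t s : K) {π π' : MvPolynomial (Fin 2) k} (h : Associated π π') :
    loc t s π = loc t s π' := by
  have h1 : {x : K | ∃ G H : MvPolynomial (Fin 2) k, ¬ π ∣ H ∧ x = cv t s G / cv t s H} =
      {x : K | ∃ G H : MvPolynomial (Fin 2) k, ¬ π' ∣ H ∧ x = cv t s G / cv t s H} := by
    ext x
    simp only [Set.mem_ofPred_eq, h.dvd_iff_dvd_left]
  unfold loc
  rw [h1]

private theorem mem_loc_of_AH {t s x : K} (h : x ∈ AH k t s) {π : MvPolynomial (Fin 2) k} (hπ : Hor π) :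
    x ∈ ic (loc t s π) := by
  unfold AH at h
  rw [Algebra.mem_iInf] at h
  have h1 := h π
  rw [Algebra.mem_iInf] at h1
  exact h1 hπ

private theorem of_div {S : Subalgebra k K} {y v : K} (hv : v ≠ 0) (h : y / v ∈ S) (h' : v ∈ S) : y ∈ S := by
  have h1 : y = y / v * v := by
    rw [div_mul_cancel₀ _ hv]
  rw [h1]
  exact mul_mem h h'

private theorem at_line {t s : K} (hc : Coord k t s) {D : Fam k K} {v : K} (hv : v ≠ 0) {x : K}
    (h : D.Sol t s v x) {π : MvPolynomial (Fin 2) k} (hvπ : v ∈ ic (loc t s π)) {T : k × k} (hT : T ∈ D.pts)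
    (ha : Associated π (X 1 - C T.2)) : x - D.ρT T ∈ ic (loc t s π) := by
  have _ := hc
  refine of_div hv ?_ hvπ
  have h1 := h.s2 T hT
  unfold locS at h1
  rw [loc_assoc t s ha]
  exact h1

private theorem off_line {t s : K} (hc : Coord k t s) {D : Fam k K} {v : K} (hv : v ≠ 0) {x : K}
    (h : D.Sol t s v x) {π : MvPolynomial (Fin 2) k} (hπ : Prime π) (hvπ : v ∈ ic (loc t s π))
    (ha : ∀ T ∈ D.pts, ¬ Associated π (X 1 - C T.2)) : x - D.ρ1 ∈ ic (loc t s π) := by
  refine of_div hv ?_ hvπ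
  exact ic_mono (ringV_le_loc hc D.pts hπ ha) h.s1

theorem sol_diff {t s : K} (hc : Coord k t s) {D : Fam k K} {Φ Φ' : Polynomial k} (hΦ : Φ ≠ 0) (hΦ' : Φ' ≠ 0) {x x' : K}
    (h : D.Sol t s (Polynomial.aeval t Φ)⁻¹ x) (h' : D.Sol t s (Polynomial.aeval t Φ')⁻¹ x') : AlgT k t (x - x') := by
  have hv : (Polynomial.aeval t Φ)⁻¹ ≠ 0 := inv_ne_zero (hc.aeval_ne hΦ)
  have hv' : (Polynomial.aeval t Φ')⁻¹ ≠ 0 := inv_ne_zero (hc.aeval_ne hΦ')
  refine hor_alg hc ?_ ?_
  · unfold AH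
    rw [Algebra.mem_iInf]
    intro π
    rw [Algebra.mem_iInf]
    intro hπ
    have hm : (Polynomial.aeval t Φ)⁻¹ ∈ ic (loc t s π) := mem_loc_of_AH (inv_mem_AH hΦ) hπ
    have hm' : (Polynomial.aeval t Φ')⁻¹ ∈ ic (loc t s π) := mem_loc_of_AH (inv_mem_AH hΦ') hπ
    by_cases hT : ∃ T ∈ D.pts, Associated π (X 1 - C T.2)
    · obtain ⟨T, hT, ha⟩ := hT
      have h1 := sub_mem (at_line hc hv h hm hT ha) (at_line hc hv' h' hm' hT ha)
      rwa [sub_sub_sub_cancel_right] at h1
    · push Not at hT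
      have h1 := sub_mem (off_line hc hv h hπ.1 hm hT) (off_line hc hv' h' hπ.1 hm' hT)
      rwa [sub_sub_sub_cancel_right] at h1
  · have h1 := of_div hv h.s4 (le_ic _ (inv_mem_locI hc hΦ))
    have h2 := of_div hv' h'.s4 (le_ic _ (inv_mem_locI hc hΦ'))
    have h3 := sub_mem h1 h2
    rwa [sub_sub_sub_cancel_right] at h3

private theorem not_assoc {a b : k} (hb : b ≠ 0) :
    ¬ Associated (X 1 - C a : MvPolynomial (Fin 2) k) (X 1 - C b * X 0) := by
  intro h
  obtain ⟨g, hg⟩ := h.dvd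
  have h1 := congrArg (aeval ![(Polynomial.X : Polynomial k), Polynomial.C a]) hg
  rw [map_mul] at h1
  simp only [map_sub, map_mul, aeval_X, aeval_C, Matrix.cons_val_zero, Matrix.cons_val_one,
    Polynomial.algebraMap_eq, sub_self, zero_mul] at h1
  have h2 := congrArg (fun p => Polynomial.coeff p 1) h1
  simp only [Polynomial.coeff_sub, Polynomial.coeff_C_mul, Polynomial.coeff_X_one, mul_one,
    Polynomial.coeff_zero, Polynomial.coeff_C_succ, zero_sub, neg_eq_zero] at h2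
  exact hb h2

private theorem inv_aeval_inv {t : K} (ht : t ≠ 0) (f : Polynomial k) :
    (Polynomial.aeval t⁻¹ f)⁻¹ = t ^ f.natDegree * (Polynomial.aeval t f.reverse)⁻¹ := by
  have hi : IsUnit t⁻¹ := (inv_ne_zero ht).isUnit
  let _ : Invertible t⁻¹ := hi.invertible
  have h1 := Polynomial.eval₂_reverse_mul_pow (algebraMap k K) t⁻¹ f
  have h2 : (⅟ t⁻¹ : K) = t := by
    rw [invOf_eq_inv, inv_inv]
  rw [h2] at h1
  rw [Polynomial.aeval_def, Polynomial.aeval_def, ← h1, mul_inv, inv_pow, inv_inv, mul_comm]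

theorem cross {t s u : K} (hc : Coord k t s) {n m : ℕ} (hn : 0 < n) (hu : u ^ n * t = 1) {D D' : Fam k K}
    (hco : Compat t s D D') {Φ Φ' : Polynomial k} (hΦ : Φ ≠ 0) (hΦ' : Φ' ≠ 0) {x x' : K}
    (h : D.Sol t s (Polynomial.aeval t Φ)⁻¹ x) (h' : D'.Sol t⁻¹ (s / t) (u ^ m / Polynomial.aeval t⁻¹ Φ') x') :
    AlgT k t (x - x') := by
  have ht := hc.t_ne
  have hv : (Polynomial.aeval t Φ)⁻¹ ≠ 0 := inv_ne_zero (hc.aeval_ne hΦ)
  have hrev : Φ'.reverse ≠ 0 := by
    rwa [Ne, Polynomial.reverse_eq_zero]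
  have hu0 : u ≠ 0 := by
    rintro rfl
    rw [zero_pow (by omega), zero_mul] at hu
    exact zero_ne_one hu
  have hun : u ^ n = t⁻¹ := eq_inv_of_mul_eq_one_left hu
  have hΦi : (Polynomial.aeval t⁻¹ Φ') ≠ 0 := by
    intro h0
    have h1 := inv_aeval_inv ht Φ'
    rw [h0, inv_zero] at h1
    exact mul_ne_zero (pow_ne_zero _ ht) (inv_ne_zero (hc.aeval_ne hrev)) h1.symm
  have hv' : u ^ m / Polynomial.aeval t⁻¹ Φ' ≠ 0 := div_ne_zero (pow_ne_zero _ hu0) hΦi
  -- v' is integral over every algebra containing the elements below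
  have hvi : ∀ S : Subalgebra k K, t ∈ ic S → t⁻¹ ∈ ic S → (Polynomial.aeval t Φ'.reverse)⁻¹ ∈ ic S →
      u ^ m / Polynomial.aeval t⁻¹ Φ' ∈ ic S := by
    intro S h1 h2 h3
    rw [div_eq_mul_inv, inv_aeval_inv ht]
    refine mul_mem (pow_mem (mem_ic_of_pow hn ?_) m) (mul_mem (pow_mem h1 _) h3)
    rw [hun]
    exact h2
  have hX : (Polynomial.aeval t (Polynomial.X : Polynomial k))⁻¹ = t⁻¹ := by
    rw [Polynomial.aeval_X]
  refine hor_alg hc ?_ ?_
  · unfold AH
    rw [Algebra.mem_iInf]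
    intro π
    rw [Algebra.mem_iInf]
    intro hπ
    have hm : (Polynomial.aeval t Φ)⁻¹ ∈ ic (loc t s π) := mem_loc_of_AH (inv_mem_AH hΦ) hπ
    have htm : t ∈ loc t s π := by
      have := cv_mem_loc t s hπ.1 (X 0)
      rwa [cv_X0] at this
    have hsm : s ∈ loc t s π := by
      have := cv_mem_loc t s hπ.1 (X 1)
      rwa [cv_X1] at this
    have htim : t⁻¹ ∈ loc t s π := by
      have h1 : ¬ π ∣ (X 0 : MvPolynomial (Fin 2) k) := by
        have := hπ.2 Polynomial.X Polynomial.X_ne_zero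
        rwa [Polynomial.aeval_X] at this
      have := inv_cv_mem_loc t s h1
      rwa [cv_X0] at this
    have hm' : u ^ m / Polynomial.aeval t⁻¹ Φ' ∈ ic (loc t s π) :=
      hvi _ (le_ic _ htm) (le_ic _ htim) (mem_loc_of_AH (inv_mem_AH hrev) hπ)
    by_cases hT : ∃ T ∈ D.pts, Associated π (X 1 - C T.2)
    · obtain ⟨T, hT, ha⟩ := hT
      have h1 : x - D.ρT T ∈ ic (loc t s π) := at_line hc hv h hm hT ha
      have h2 : ∀ T' ∈ D'.pts, ¬ Associated π (X 1 - C T'.2 * X 0) := by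
        intro T' hT' hcon
        exact not_assoc (hco.ne' T' hT') (ha.symm.trans hcon)
      have h3 : x' - D'.ρ1 ∈ ic (loc t s π) :=
        of_div hv' (ic_mono (ringV_inv hc D'.pts hπ h2) h'.s1) hm'
      have h4 : D.ρT T - D'.ρ1 ∈ ic (loc t s π) := by
        rw [loc_assoc t s ha]
        exact hco.c2 T hT
      have h5 : x - x' = (x - D.ρT T) + (D.ρT T - D'.ρ1) - (x' - D'.ρ1) := by ring
      rw [h5]
      exact sub_mem (add_mem h1 h4) h3
    · push Not at hT
      have h1 : x - D.ρ1 ∈ ic (loc t s π) := off_line hc hv h hπ.1 hm hT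
      by_cases hT' : ∃ T ∈ D'.pts, Associated π (X 1 - C T.2 * X 0)
      · obtain ⟨T, hTm, ha⟩ := hT'
        have h3 : x' - D'.ρT T ∈ ic (loc t s π) := by
          refine of_div hv' ?_ hm'
          have h6 := h'.s2 T hTm
          unfold locS at h6
          rw [loc_assoc t s ha]
          exact ic_mono (loc_line_inv hc T.2) h6
        have h4 : D.ρ1 - D'.ρT T ∈ ic (loc t s π) := by
          rw [loc_assoc t s ha]
          exact hco.c3 T hTm
        have h5 : x - x' = (x - D.ρ1) + (D.ρ1 - D'.ρT T) - (x' - D'.ρT T) := by ring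
        rw [h5]
        exact sub_mem (add_mem h1 h4) h3
      · push Not at hT'
        have h3 : x' - D'.ρ1 ∈ ic (loc t s π) :=
          of_div hv' (ic_mono (ringV_inv hc D'.pts hπ hT') h'.s1) hm'
        have h4 : D.ρ1 - D'.ρ1 ∈ ic (loc t s π) := by
          refine ic_mono (Algebra.adjoin_le ?_) hco.c1
          rintro y (((rfl | rfl | rfl) | ⟨T, hTm, rfl⟩) | ⟨T, hTm, rfl⟩)
          · exact htm
          · exact htim
          · exact hsm
          · have h6 : ¬ π ∣ (X 1 - C T.2) := by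
              intro hd
              exact hT T hTm (hπ.1.irreducible.associated_of_dvd (prime_X1_sub T.2).irreducible hd)
            have := inv_cv_mem_loc t s h6
            rwa [map_sub, cv_X1, cv_C] at this
          · have hp : Prime (X 1 - C T.2 * X 0 : MvPolynomial (Fin 2) k) := by
              have := prime_line (k := k) 0 T.2
              rwa [C_0, sub_zero] at this
            have h6 : ¬ π ∣ (X 1 - C T.2 * X 0) := by
              intro hd
              exact hT' T hTm (hπ.1.irreducible.associated_of_dvd hp.irreducible hd)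
            have := inv_cv_mem_loc t s h6
            rwa [map_sub, map_mul, cv_X1, cv_C, cv_X0] at this
        have h5 : x - x' = (x - D.ρ1) + (D.ρ1 - D'.ρ1) - (x' - D'.ρ1) := by ring
        rw [h5]
        exact sub_mem (add_mem h1 h4) h3
  · have h1 : x - D.ρ3 ∈ ic (locI k t s) := of_div hv h.s4 (le_ic _ (inv_mem_locI hc hΦ))
    have htm : t ∈ locI k t s := by
      have := cv_mem_loc (k := k) t s⁻¹ (π := X 1) (X_prime) (X 0)
      rwa [cv_X0] at this
    have htim : t⁻¹ ∈ locI k t s := by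
      have := inv_mem_locI hc (f := Polynomial.X) Polynomial.X_ne_zero
      rwa [hX] at this
    have h3 : x' - D'.ρ3 ∈ ic (locI k t s) :=
      of_div hv' (ic_mono (locI_inv hc) h'.s4)
        (hvi _ (le_ic _ htm) (le_ic _ htim) (le_ic _ (inv_mem_locI hc hrev)))
    have h5 : x - x' = (x - D.ρ3) + (D.ρ3 - D'.ρ3) - (x' - D'.ρ3) := by ring
    rw [h5]
    exact sub_mem (add_mem h1 hco.c4) h3

end Pool.Agent.Lib.MP_4318ff_ag.Q
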