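import Pool.Agent.Lib.MP_4318ff_ag.Q.Side
import Pool.Agent.Lib.MP_4318ff_ag.Q.Lin
import Pool.Agent.Lib.MP_4318ff_ag.Q.Clear
import Pool.Agent.Lib.MP_4318ff_ag.Q.Uniq
import Pool.Agent.Lib.MP_4318ff_ag.Q.Frob

/-!
# Half solutions

`AH_inv`: homogenisation, `half_sol`: the lemma `side` for both sides, the linear algebra of `lin` in `K/(AH + ic locI)`,
and `clear` for both sides.
-/

set_option autoImplicit false

namespace Pool.Agent.Lib.MP_4318ff_ag.Q

open MvPolynomial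

variable {k K : Type} [Field k] [Field K] [Algebra k K]

/-- Homogenisation. -/
private theorem hom_ex {t s : K} (ht : t ≠ 0) {G : MvPolynomial (Fin 2) k} {D : ℕ} (hG : G.totalDegree ≤ D) :
    ∃ G' : MvPolynomial (Fin 2) k, G'.totalDegree ≤ D ∧ cv t⁻¹ (s / t) G' * t ^ D = cv t s G := by
  classical
  have hdeg : ∀ v ∈ G.support, v 0 + v 1 ≤ D := by
    intro v hv
    have h1 := MvPolynomial.le_totalDegree hv
    have h2 : (v.sum fun _ e => e) = v 0 + v 1 := by
      rw [Finsupp.sum_fintype _ _ (fun _ => rfl), Fin.sum_univ_two]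
    rw [h2] at h1
    omega
  refine ⟨∑ v ∈ G.support, C (coeff v G) * X 0 ^ (D - v 0 - v 1) * X 1 ^ (v 1), ?_, ?_⟩
  · apply MvPolynomial.totalDegree_finsetSum_le
    intro v hv
    have h3 := hdeg v hv
    refine le_trans (MvPolynomial.totalDegree_mul _ _) ?_
    have h4 : (C (coeff v G) * X 0 ^ (D - v 0 - v 1) : MvPolynomial (Fin 2) k).totalDegree ≤ D - v 0 - v 1 := by
      refine le_trans (MvPolynomial.totalDegree_mul _ _) ?_
      rw [MvPolynomial.totalDegree_C, MvPolynomial.totalDegree_X_pow, zero_add]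
    rw [MvPolynomial.totalDegree_X_pow]
    omega
  · conv_rhs => rw [← MvPolynomial.support_sum_monomial_coeff G]
    rw [map_sum, map_sum, Finset.sum_mul]
    refine Finset.sum_congr rfl fun v hv => ?_
    have h3 := hdeg v hv
    rw [map_mul, map_mul, map_pow, map_pow, cv_C, cv_X0, cv_X1]
    have h5 : cv t s (monomial v (coeff v G)) = algebraMap k K (coeff v G) * (t ^ v 0 * s ^ v 1) := by
      unfold cv
      rw [aeval_monomial, Finsupp.prod_fintype _ _ (fun _ => pow_zero _), Fin.prod_univ_two]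
      rfl
    rw [h5]
    obtain ⟨r, hr⟩ : ∃ r, D = r + v 0 + v 1 := ⟨D - v 0 - v 1, by omega⟩
    have h6 : D - v 0 - v 1 = r := by omega
    rw [h6, hr, pow_add, pow_add, inv_pow, div_pow]
    field_simp

private theorem hom_ex' {t s : K} (ht : t ≠ 0) {G : MvPolynomial (Fin 2) k} {D : ℕ} (hG : G.totalDegree ≤ D) :
    ∃ G' : MvPolynomial (Fin 2) k, G'.totalDegree ≤ D ∧ cv t s G' = cv t⁻¹ (s / t) G * t ^ D := by
  obtain ⟨G', h1, h2⟩ := hom_ex (t := t⁻¹) (s := s / t) (inv_ne_zero ht) hG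
  refine ⟨G', h1, ?_⟩
  have h3 : s / t / t⁻¹ = s := by
    field_simp
  rw [inv_inv, h3] at h2
  rw [← h2, mul_assoc, ← mul_pow, inv_mul_cancel₀ ht, one_pow, mul_one]

private theorem not_X0_dvd {π : MvPolynomial (Fin 2) k} (hπ : Hor π) : ¬ (X 0 : MvPolynomial (Fin 2) k) ∣ π := by
  intro h
  have h1 : Associated (X 0 : MvPolynomial (Fin 2) k) π := (X_prime).associated_of_dvd hπ.1 h
  apply hπ.2 Polynomial.X Polynomial.X_ne_zero
  rw [Polynomial.aeval_X]
  exact h1.symm.dvd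

/-- Horizontal primes in the coordinates `1/t, s/t`. -/
private theorem hor_hom {t s : K} (hc : Coord k t s) {π' : MvPolynomial (Fin 2) k} (hπ' : Hor π') :
    ∃ π : MvPolynomial (Fin 2) k, Hor π ∧ loc t s π ≤ loc t⁻¹ (s / t) π' := by
  have ht := hc.t_ne
  have hci := hc.inv
  have htD : ∀ j : ℕ, t ^ j ≠ 0 := fun j => pow_ne_zero _ ht
  have hXt : ∀ j : ℕ, cv t⁻¹ (s / t) ((X 0 : MvPolynomial (Fin 2) k) ^ j) * t ^ j = 1 := by
    intro j
    rw [map_pow, cv_X0, ← mul_pow, inv_mul_cancel₀ ht, one_pow]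
  obtain ⟨π, hπd, hπ⟩ := hom_ex' (t := t) (s := s) ht (le_refl π'.totalDegree)
  set D := π'.totalDegree with hDdef
  have hπ0 : π ≠ 0 := by
    intro h0
    rw [h0, map_zero] at hπ
    exact (mul_ne_zero (hci.cv_ne hπ'.1.ne_zero) (htD D)) hπ.symm
  have hX : ¬ (X 0 : MvPolynomial (Fin 2) k) ∣ π := by
    rintro ⟨Q, hQ⟩
    have hQ0 : Q ≠ 0 := by
      rintro rfl
      exact hπ0 (by rw [hQ, mul_zero])
    have hdeg : π.totalDegree = 1 + Q.totalDegree := by
      rw [hQ, MvPolynomial.totalDegree_mul_of_isDomain (X_ne_zero 0) hQ0, MvPolynomial.totalDegree_X]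
    obtain ⟨Q', hQd, hQ'⟩ := hom_ex (t := t) (s := s) ht (le_refl Q.totalDegree)
    have h1 : π' = Q' * X 0 ^ (D - 1 - Q.totalDegree) := by
      apply hci.inj
      obtain ⟨r, hr⟩ : ∃ r, D = 1 + Q.totalDegree + r := ⟨D - 1 - Q.totalDegree, by omega⟩
      have h2 : D - 1 - Q.totalDegree = r := by omega
      rw [h2, map_mul]
      have h3 : cv t⁻¹ (s / t) π' * t ^ D = (cv t⁻¹ (s / t) Q' * cv t⁻¹ (s / t) ((X 0 : MvPolynomial (Fin 2) k) ^ r)) * t ^ D := by
        rw [← hπ, hQ, map_mul, cv_X0, ← hQ', hr, pow_add, pow_add]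
        linear_combination (-(cv t⁻¹ (s / t) Q') * t ^ 1 * t ^ Q.totalDegree) * hXt r
      exact mul_right_cancel₀ (htD D) h3
    have h4 : π'.totalDegree ≤ Q.totalDegree + (D - 1 - Q.totalDegree) := by
      rw [h1]
      refine le_trans (MvPolynomial.totalDegree_mul _ _) ?_
      rw [MvPolynomial.totalDegree_X_pow]
      omega
    omega
  have hX' := not_X0_dvd hπ'
  -- divisibility is transported
  have hdvd : ∀ (G H : MvPolynomial (Fin 2) k) (E : ℕ), cv t s G = cv t⁻¹ (s / t) H * t ^ E →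
      H.totalDegree ≤ E → π' ∣ H → H ≠ 0 → π ∣ G := by
    rintro G H E hGH hHE ⟨Q, hQ⟩ hH0
    have hQ0 : Q ≠ 0 := by
      rintro rfl
      exact hH0 (by rw [hQ, mul_zero])
    have hdeg : H.totalDegree = D + Q.totalDegree := by
      rw [hQ, MvPolynomial.totalDegree_mul_of_isDomain hπ'.1.ne_zero hQ0]
    obtain ⟨Q', -, hQ'⟩ := hom_ex' (t := t) (s := s) ht (le_refl Q.totalDegree)
    refine ⟨Q' * X 0 ^ (E - D - Q.totalDegree), ?_⟩
    apply hc.inj
    obtain ⟨r, hr⟩ : ∃ r, E = D + Q.totalDegree + r := ⟨E - D - Q.totalDegree, by omega⟩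
    have h2 : E - D - Q.totalDegree = r := by omega
    rw [h2, map_mul, map_mul, map_pow, cv_X0, hGH, hQ, map_mul, hπ, hQ', hr, pow_add, pow_add]
    ring
  have hirr : Irreducible π := by
    constructor
    · intro hu
      obtain ⟨c, hcu, hcc⟩ := MvPolynomial.isUnit_iff_eq_C_of_isReduced.mp hu
      have h1 : π' * C 1 = C c * X 0 ^ D := by
        apply hci.inj
        rw [map_mul, map_mul, cv_C, cv_C, map_one, mul_one]
        apply mul_right_cancel₀ (htD D)
        rw [← hπ, hcc, cv_C, mul_assoc, hXt, mul_one]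
      rw [C_1, mul_one] at h1
      have hD0 : D = 0 := by
        by_contra hD0
        apply hX'
        rw [h1]
        exact Dvd.dvd.mul_left (dvd_pow_self _ hD0) _
      rw [hD0, pow_zero, mul_one] at h1
      exact hπ'.1.not_isUnit (by rw [h1]; exact hcu.map C)
    · intro G H hGH
      have hG0 : G ≠ 0 := by
        rintro rfl
        exact hπ0 (by rw [hGH, zero_mul])
      have hH0 : H ≠ 0 := by
        rintro rfl
        exact hπ0 (by rw [hGH, mul_zero])
      have hdeg : π.totalDegree = G.totalDegree + H.totalDegree := by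
        rw [hGH, MvPolynomial.totalDegree_mul_of_isDomain hG0 hH0]
      obtain ⟨G', -, hG'⟩ := hom_ex (t := t) (s := s) ht (le_refl G.totalDegree)
      obtain ⟨H', -, hH'⟩ := hom_ex (t := t) (s := s) ht (le_refl H.totalDegree)
      obtain ⟨r, hr⟩ : ∃ r, D = G.totalDegree + H.totalDegree + r :=
        ⟨D - G.totalDegree - H.totalDegree, by omega⟩
      have h1 : π' = G' * H' * X 0 ^ r := by
        apply hci.inj
        apply mul_right_cancel₀ (htD D)
        rw [← hπ, hGH, map_mul, map_mul, map_mul, ← hG', ← hH', hr, pow_add, pow_add]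
        linear_combination (-(cv t⁻¹ (s / t) G' * cv t⁻¹ (s / t) H' * t ^ G.totalDegree * t ^ H.totalDegree)) * hXt r
      have hr0 : r = 0 := by
        by_contra hr0
        apply hX'
        rw [h1]
        exact Dvd.dvd.mul_left (dvd_pow_self _ hr0) _
      rw [hr0, pow_zero, mul_one] at h1
      have hunit : ∀ A A' B : MvPolynomial (Fin 2) k, A ∣ π → cv t⁻¹ (s / t) A' * t ^ A.totalDegree = cv t s A →
          IsUnit A' → IsUnit A := by
        intro A A' _ hAπ hA hu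
        obtain ⟨c, hcu, hcc⟩ := MvPolynomial.isUnit_iff_eq_C_of_isReduced.mp hu
        have h2 : A = C c * X 0 ^ A.totalDegree := by
          apply hc.inj
          rw [← hA, hcc, map_mul, map_pow, cv_C, cv_C, cv_X0]
        have h3 : A.totalDegree = 0 := by
          by_contra h4
          apply hX
          refine dvd_trans ?_ hAπ
          rw [h2]
          exact Dvd.dvd.mul_left (dvd_pow_self _ h4) _
        rw [h2, h3, pow_zero, mul_one]
        exact hcu.map C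
      rcases hπ'.1.irreducible.isUnit_or_isUnit h1 with h | h
      · exact Or.inl (hunit G G' H ⟨H, hGH⟩ hG' h)
      · exact Or.inr (hunit H H' G ⟨G, by rw [hGH, mul_comm]⟩ hH' h)
  have hprime : Prime π := hirr.prime
  refine ⟨π, ⟨hprime, ?_⟩, ?_⟩
  · rintro f hf ⟨Q, hQ⟩
    obtain ⟨Q', -, hQ'⟩ := hom_ex (t := t) (s := s) ht (le_refl Q.totalDegree)
    have : Invertible t := invertibleOfNonzero ht
    have hrev := Polynomial.eval₂_reverse_mul_pow (algebraMap k K) t f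
    rw [invOf_eq_inv] at hrev
    have hrev' : Polynomial.aeval t⁻¹ f.reverse * t ^ f.natDegree = Polynomial.aeval t f := hrev
    have h1 : cv t⁻¹ (s / t) (π' * Q' * X 0 ^ f.natDegree) =
        cv t⁻¹ (s / t) (Polynomial.aeval (X 0 : MvPolynomial (Fin 2) k) (f.reverse * Polynomial.X ^ (D + Q.totalDegree))) := by
      apply mul_right_cancel₀ (htD (D + Q.totalDegree + f.natDegree))
      have h2 := congrArg (cv t s) hQ
      rw [cv_aeval_X0, map_mul, hπ, ← hQ', ← hrev'] at h2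
      have e1 : Polynomial.aeval t⁻¹ ((Polynomial.X : Polynomial k) ^ (D + Q.totalDegree)) =
          t⁻¹ ^ (D + Q.totalDegree) := by
        rw [map_pow, Polynomial.aeval_X]
      rw [cv_aeval_X0, map_mul, map_mul, map_mul, e1]
      have h3 := hXt f.natDegree
      have h4 : t⁻¹ ^ (D + Q.totalDegree) * t ^ (D + Q.totalDegree) = 1 := by
        rw [← mul_pow, inv_mul_cancel₀ ht, one_pow]
      have h5 : t ^ (D + Q.totalDegree + f.natDegree) = t ^ (D + Q.totalDegree) * t ^ f.natDegree := pow_add _ _ _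
      have h6 : t ^ (D + Q.totalDegree) = t ^ D * t ^ Q.totalDegree := pow_add _ _ _
      rw [h5]
      linear_combination (cv t⁻¹ (s / t) π' * cv t⁻¹ (s / t) Q' * t ^ (D + Q.totalDegree)) * h3 -
        (Polynomial.aeval t⁻¹ f.reverse * t ^ f.natDegree) * h4 - h2 +
        (cv t⁻¹ (s / t) π' * cv t⁻¹ (s / t) Q') * h6
    have h2 := hci.inj h1
    apply hπ'.2 (f.reverse * Polynomial.X ^ (D + Q.totalDegree))
      (mul_ne_zero (by rw [Ne, Polynomial.reverse_eq_zero]; exact hf) (pow_ne_zero _ Polynomial.X_ne_zero))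
    rw [← h2, mul_assoc]
    exact dvd_mul_right _ _
  · unfold loc
    refine Algebra.adjoin_le ?_
    rintro x ⟨G, H, hH, rfl⟩
    have hH0 : H ≠ 0 := by
      rintro rfl
      exact hH (dvd_zero _)
    obtain ⟨G', -, hG'⟩ := hom_ex (t := t) (s := s) ht (Nat.le_add_right G.totalDegree H.totalDegree)
    obtain ⟨H', hHd, hH'⟩ := hom_ex (t := t) (s := s) ht (Nat.le_add_left H.totalDegree G.totalDegree)
    refine Algebra.subset_adjoin ⟨G', H', ?_, ?_⟩
    · intro h
      apply hH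
      refine hdvd H H' _ hH'.symm hHd h ?_
      rintro rfl
      rw [map_zero, zero_mul] at hH'
      exact hc.cv_ne hH0 hH'.symm
    · rw [← hG', ← hH', mul_div_mul_right _ _ (htD _)]

/-- `AH` is the same for both coordinate systems. -/
theorem AH_inv {t s : K} (hc : Coord k t s) : AH k t s ≤ AH k t⁻¹ (s / t) := by
  intro x hx
  unfold AH at hx ⊢
  rw [Algebra.mem_iInf] at hx ⊢
  intro π'
  rw [Algebra.mem_iInf]
  intro hπ'
  obtain ⟨π, hπ, hle⟩ := hor_hom hc hπ'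
  have h1 := hx π
  rw [Algebra.mem_iInf] at h1
  exact ic_mono hle (h1 hπ)

private theorem loc_assoc {t s : K} {π π' : MvPolynomial (Fin 2) k} (h : Associated π π') :
    loc t s π = loc t s π' := by
  unfold loc
  congr 1
  ext x
  constructor
  · rintro ⟨G, H, hH, hx⟩
    exact ⟨G, H, fun h1 => hH (h.dvd_iff_dvd_left.2 h1), hx⟩
  · rintro ⟨G, H, hH, hx⟩
    exact ⟨G, H, fun h1 => hH (h.dvd_iff_dvd_left.1 h1), hx⟩

private theorem mem_AH_iff {t s x : K} :
    x ∈ AH k t s ↔ ∀ π : MvPolynomial (Fin 2) k, Hor π → x ∈ ic (loc t s π) := by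
  unfold AH
  rw [Algebra.mem_iInf]
  simp only [Algebra.mem_iInf]

private theorem lines_ne {a b : k} (ha : a ≠ 0) :
    ¬ Associated (X 1 - C a : MvPolynomial (Fin 2) k) (X 1 - C b * X 0) := by
  intro h
  obtain ⟨Q, hQ⟩ := h.dvd
  have h1 := congrArg (aeval ![(0 : k), a] : MvPolynomial (Fin 2) k →ₐ[k] k) hQ
  rw [map_mul] at h1
  simp at h1
  exact ha h1

private theorem aev_mem {S : Subalgebra k K} {x : K} (hx : x ∈ S) (f : Polynomial k) :
    Polynomial.aeval x f ∈ S := by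
  have h1 : Algebra.adjoin k {x} ≤ S := Algebra.adjoin_le (by
    intro y hy
    rw [Set.mem_singleton_iff] at hy
    rw [hy]
    exact hx)
  exact h1 (Polynomial.aeval_mem_adjoin_singleton k x)

private theorem cross_AH {t s : K} (hc : Coord k t s) {D D' : Fam k K} (hco : Compat t s D D') {P P' b b' : K}
    (hP : P ∈ AH k t s) (hP' : P' ∈ AH k t s)
    (h1 : b - P * D.ρ1 ∈ ic (ringV t s D.pts)) (h2 : ∀ T ∈ D.pts, b - P * D.ρT T ∈ ic (locS t s T))
    (h1' : b' - P' * D'.ρ1 ∈ ic (ringV t⁻¹ (s / t) D'.pts))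
    (h2' : ∀ T ∈ D'.pts, b' - P' * D'.ρT T ∈ ic (locS t⁻¹ (s / t) T)) :
    P' * b - P * b' ∈ AH k t s := by
  rw [mem_AH_iff]
  intro π hπ
  have hPπ := mem_AH_iff.1 hP π hπ
  have hPπ' := mem_AH_iff.1 hP' π hπ
  have key : ∀ r r' : K, b - P * r ∈ ic (loc t s π) → b' - P' * r' ∈ ic (loc t s π) →
      r - r' ∈ ic (loc t s π) → P' * b - P * b' ∈ ic (loc t s π) := by
    intro r r' ha ha' hr
    have h3 : P' * b - P * b' = P' * (b - P * r) - P * (b' - P' * r') + P * P' * (r - r') := by ring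
    rw [h3]
    exact (ic _).add_mem ((ic _).sub_mem ((ic _).mul_mem hPπ' ha) ((ic _).mul_mem hPπ ha'))
      ((ic _).mul_mem ((ic _).mul_mem hPπ hPπ') hr)
  by_cases hA : ∃ T ∈ D.pts, Associated π (X 1 - C T.2)
  · obtain ⟨T, hT, hass⟩ := hA
    have hB : ∀ T' ∈ D'.pts, ¬ Associated π (X 1 - C T'.2 * X 0) := fun T' _ h =>
      lines_ne (hco.ne T hT) (hass.symm.trans h)
    refine key (D.ρT T) D'.ρ1 ?_ (ic_mono (ringV_inv hc D'.pts hπ hB) h1') ?_
    · rw [loc_assoc hass]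
      exact h2 T hT
    · rw [loc_assoc hass]
      exact hco.c2 T hT
  · push Not at hA
    by_cases hB : ∃ T ∈ D'.pts, Associated π (X 1 - C T.2 * X 0)
    · obtain ⟨T, hT, hass⟩ := hB
      refine key D.ρ1 (D'.ρT T) (ic_mono (ringV_le_loc hc D.pts hπ.1 hA) h1) ?_ ?_
      · rw [loc_assoc hass]
        exact ic_mono (loc_line_inv hc T.2) (h2' T hT)
      · rw [loc_assoc hass]
        exact hco.c3 T hT
    · push Not at hB
      refine key D.ρ1 D'.ρ1 (ic_mono (ringV_le_loc hc D.pts hπ.1 hA) h1)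
        (ic_mono (ringV_inv hc D'.pts hπ hB) h1') (ic_mono ?_ hco.c1)
      refine Algebra.adjoin_le ?_
      rintro x ((hx | ⟨T, hT, rfl⟩) | ⟨T, hT, rfl⟩)
      · simp only [Set.mem_insert_iff, Set.mem_singleton_iff] at hx
        rcases hx with rfl | rfl | rfl
        · have h3 := cv_mem_loc x s hπ.1 (X 0)
          rwa [cv_X0] at h3
        · have h3 := inv_cv_mem_loc t s (π := π) (H := X 0) (by
            have h4 := hπ.2 Polynomial.X Polynomial.X_ne_zero
            rwa [Polynomial.aeval_X] at h4)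
          rwa [cv_X0] at h3
        · have h3 := cv_mem_loc t x hπ.1 (X 1)
          rwa [cv_X1] at h3
      · have h3 := inv_cv_mem_loc t s (π := π) (H := X 1 - C T.2)
          (fun h => hA T hT (hπ.1.associated_of_dvd (prime_X1_sub _) h))
        rwa [map_sub, cv_X1, cv_C] at h3
      · have h3 := inv_cv_mem_loc t s (π := π) (H := X 1 - C T.2 * X 0) (fun h => by
          have h4 : Prime (X 1 - C T.2 * X 0 : MvPolynomial (Fin 2) k) := by
            have h5 := prime_line (0 : k) T.2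
            rwa [C_0, sub_zero] at h5
          exact hB T hT (hπ.1.associated_of_dvd h4 h))
        rwa [map_sub, map_mul, cv_X1, cv_C, cv_X0] at h3

/-- `s4` and the linear algebra. -/
private theorem lin_apply {t s : K} (hc : Coord k t s) {m m' : ℕ} (e : Fin m → K) (e' : Fin m' → K)
    {φ φ' : Polynomial k} (hφ : φ ≠ 0) (hφ' : φ' ≠ 0) :
    ∃ d₀ : ℕ, ∀ d ≥ d₀, ∀ (c : Fin m → Polynomial k) (c' : Fin m' → Polynomial k),
      (∃ α ∈ AH k t s, Polynomial.aeval t⁻¹ φ' * t ^ d * (∑ j, Polynomial.aeval t (c j) * e j) -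
        Polynomial.aeval t φ * (∑ j, Polynomial.aeval t⁻¹ (c' j) * e' j) - α ∈ ic (locI k t s)) →
      (∃ α ∈ AH k t s, ∑ j, Polynomial.aeval t (c j) * e j - α ∈ ic (locI k t s)) ∧
      (∃ α ∈ AH k t s, ∑ j, Polynomial.aeval t⁻¹ (c' j) * e' j - α ∈ ic (locI k t s)) := by
  have hinj : Function.Injective (Polynomial.aeval t : Polynomial k →ₐ[k] K) := by
    rw [injective_iff_map_eq_zero]
    intro f hf
    by_contra h0
    exact hc.aeval_ne h0 hf
  let L := FractionRing (Polynomial k)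
  let ι : L →ₐ[k] K := IsFractionRing.liftAlgHom hinj
  have hι : ∀ f : Polynomial k, ι (algebraMap (Polynomial k) L f) = Polynomial.aeval t f := by
    intro f
    exact IsFractionRing.lift_algebraMap hinj f
  let _ : Module L K := Module.compHom K (ι : L →+* K)
  have hsmul : ∀ (c : L) (x : K), c • x = ι c * x := fun _ _ => rfl
  have htAH : t ∈ AH k t s := by
    rw [mem_AH_iff]
    intro π hπ
    have h3 := cv_mem_loc t s hπ.1 (X 0)
    rw [cv_X0] at h3
    exact le_ic _ h3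
  have hprI : Prime (X 1 : MvPolynomial (Fin 2) k) := X_prime
  have htI : t ∈ locI k t s := by
    have h3 := cv_mem_loc t s⁻¹ hprI (X 0)
    rwa [cv_X0] at h3
  have hLAH : ∀ c : L, ι c ∈ AH k t s := by
    intro c
    obtain ⟨f, g, hg, rfl⟩ := IsFractionRing.div_surjective (A := Polynomial k) c
    rw [map_div₀, hι, hι, div_eq_mul_inv]
    exact (AH k t s).mul_mem (aev_mem htAH f) (inv_mem_AH (nonZeroDivisors.ne_zero hg))
  have hLI : ∀ c : L, ι c ∈ ic (locI k t s) := by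
    intro c
    obtain ⟨f, g, hg, rfl⟩ := IsFractionRing.div_surjective (A := Polynomial k) c
    rw [map_div₀, hι, hι, div_eq_mul_inv]
    exact (ic _).mul_mem (le_ic _ (aev_mem htI f))
      (le_ic _ (inv_mem_locI hc (nonZeroDivisors.ne_zero hg)))
  let W : Submodule L K :=
    { carrier := {w | ∃ α ∈ AH k t s, w - α ∈ ic (locI k t s)}
      add_mem' := by
        rintro a b ⟨α, hα, ha⟩ ⟨β, hβ, hb⟩
        refine ⟨α + β, (AH k t s).add_mem hα hβ, ?_⟩
        have h3 : a + b - (α + β) = (a - α) + (b - β) := by ring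
        rw [h3]
        exact (ic _).add_mem ha hb
      zero_mem' := ⟨0, (AH k t s).zero_mem, by rw [sub_zero]; exact (ic _).zero_mem⟩
      smul_mem' := by
        rintro c a ⟨α, hα, ha⟩
        refine ⟨ι c * α, (AH k t s).mul_mem (hLAH c) hα, ?_⟩
        rw [hsmul, ← mul_sub]
        exact (ic _).mul_mem (hLI c) ha }
  have hW : ∀ w : K, w ∈ W ↔ ∃ α ∈ AH k t s, w - α ∈ ic (locI k t s) := fun _ => Iff.rfl
  obtain ⟨d₀, hd₀⟩ := lin (k := k) (L := L) (V := K ⧸ W) m m' (fun j => W.mkQ (e j)) (fun j => W.mkQ (e' j))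
    φ φ' hφ hφ'
  have hX : ι ((algebraMap (Polynomial k) L Polynomial.X)⁻¹) = t⁻¹ := by
    rw [map_inv₀, hι, Polynomial.aeval_X]
  have hev : ∀ f : Polynomial k, ι (Polynomial.aeval (algebraMap (Polynomial k) L Polynomial.X)⁻¹ f) =
      Polynomial.aeval t⁻¹ f := by
    intro f
    rw [← Polynomial.aeval_algHom_apply, hX]
  have hsum1 : ∀ c : Fin m → Polynomial k, ∑ j, algebraMap (Polynomial k) L (c j) • W.mkQ (e j) =
      W.mkQ (∑ j, Polynomial.aeval t (c j) * e j) := by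
    intro c
    rw [map_sum]
    refine Finset.sum_congr rfl fun j _ => ?_
    rw [← map_smul, hsmul, hι]
  have hsum2 : ∀ c' : Fin m' → Polynomial k,
      ∑ j, Polynomial.aeval (algebraMap (Polynomial k) L Polynomial.X)⁻¹ (c' j) • W.mkQ (e' j) =
      W.mkQ (∑ j, Polynomial.aeval t⁻¹ (c' j) * e' j) := by
    intro c'
    rw [map_sum]
    refine Finset.sum_congr rfl fun j _ => ?_
    rw [← map_smul, hsmul, hev]
  refine ⟨d₀, fun d hd c c' hα => ?_⟩
  have h4 : (Polynomial.aeval (algebraMap (Polynomial k) L Polynomial.X)⁻¹ φ' *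
      (algebraMap (Polynomial k) L Polynomial.X) ^ d) • W.mkQ (∑ j, Polynomial.aeval t (c j) * e j) =
      algebraMap (Polynomial k) L φ • W.mkQ (∑ j, Polynomial.aeval t⁻¹ (c' j) * e' j) := by
    have e1 : ι (Polynomial.aeval (algebraMap (Polynomial k) L Polynomial.X)⁻¹ φ' *
        (algebraMap (Polynomial k) L Polynomial.X) ^ d) = Polynomial.aeval t⁻¹ φ' * t ^ d := by
      rw [map_mul, hev, map_pow, hι, Polynomial.aeval_X]
    rw [← map_smul, ← map_smul, hsmul, hsmul, e1, hι, Submodule.mkQ_apply, Submodule.mkQ_apply, Submodule.Quotient.eq, hW]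
    exact hα
  have h5 := hd₀ d hd c c' (by rw [hsum1, hsum2]; exact h4)
  rw [hsum1] at h5
  have h6 : algebraMap (Polynomial k) L φ • W.mkQ (∑ j, Polynomial.aeval t⁻¹ (c' j) * e' j) = 0 := by
    rw [← h4, h5, smul_zero]
  have hφL : algebraMap (Polynomial k) L φ ≠ 0 := by
    intro h0
    have h7 := hι φ
    rw [h0, map_zero] at h7
    exact hc.aeval_ne hφ h7.symm
  have h7 : W.mkQ (∑ j, Polynomial.aeval t⁻¹ (c' j) * e' j) = 0 := by
    rcases smul_eq_zero.1 h6 with h | h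
    · exact absurd h hφL
    · exact h
  rw [Submodule.mkQ_apply, Submodule.Quotient.mk_eq_zero, hW] at h5 h7
  exact ⟨h5, h7⟩

private theorem sol_of {t s : K} (hc : Coord k t s) {D : Fam k K} {a ψ b α v x y : K}
    (hψ : ψ ∈ pol k t s) (hα : α ∈ ic (pol k t s)) (hy : y ∈ ic (pol k t s))
    (h : ∀ r : K, (x - r) / v = (ψ * (b - a * r) - α) * y)
    (s1 : b - a * D.ρ1 ∈ ic (ringV t s D.pts)) (s2 : ∀ T ∈ D.pts, b - a * D.ρT T ∈ ic (locS t s T))
    (s3 : ∀ T ∈ D.pts, b - a * D.ρ1 ∈ ic (locE t s T))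
    (s4 : ψ * (b - a * D.ρ3) - α ∈ ic (locI k t s)) (hyI : y ∈ ic (locI k t s)) : D.Sol t s v x := by
  have hV : pol k t s ≤ ringV t s D.pts := by
    unfold pol ringV
    exact Algebra.adjoin_mono Set.subset_union_left
  have hS : ∀ T : k × k, pol k t s ≤ locS t s T := by
    intro T z hz
    obtain ⟨G, rfl⟩ := mem_pol.1 hz
    exact cv_mem_loc t s (prime_X1_sub _) G
  have hE : ∀ T : k × k, pol k t s ≤ locE t s T := by
    intro T
    unfold pol
    refine Algebra.adjoin_le ?_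
    have hp : Prime (X 0 - C T.1 : MvPolynomial (Fin 2) k) := prime_X0_sub _
    intro z hz
    simp only [Set.mem_insert_iff, Set.mem_singleton_iff] at hz
    rcases hz with rfl | rfl
    · have h3 := cv_mem_loc z (sl z s T) hp (X 0)
      rw [cv_X0] at h3
      exact h3
    · have h3 := cv_mem_loc t (sl t z T) hp (C T.2 + X 1 * (X 0 - C T.1))
      rw [map_add, map_mul, map_sub, cv_X0, cv_X1, cv_C, cv_C] at h3
      have h4 : algebraMap k K T.2 + sl t z T * (t - algebraMap k K T.1) = z := by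
        unfold sl
        rw [div_mul_cancel₀ _ (hc.t_sub_ne T.1)]
        ring
      rw [h4] at h3
      exact h3
  refine ⟨?_, ?_, ?_, ?_⟩
  · rw [h]
    exact (ic _).mul_mem ((ic _).sub_mem ((ic _).mul_mem (le_ic _ (hV hψ)) s1) (ic_mono hV hα)) (ic_mono hV hy)
  · intro T hT
    rw [h]
    exact (ic _).mul_mem ((ic _).sub_mem ((ic _).mul_mem (le_ic _ (hS T hψ)) (s2 T hT)) (ic_mono (hS T) hα))
      (ic_mono (hS T) hy)
  · intro T hT
    rw [h]
    exact (ic _).mul_mem ((ic _).sub_mem ((ic _).mul_mem (le_ic _ (hE T hψ)) (s3 T hT)) (ic_mono (hE T) hα))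
      (ic_mono (hE T) hy)
  · rw [h]
    exact (ic _).mul_mem s4 hyI

private theorem loc_t {t s : K} (hc : Coord k t s) : t ∈ locI k t s ∧ t⁻¹ ∈ locI k t s ∧ t ∈ AH k t s ∧
    t⁻¹ ∈ AH k t s ∧ t ∈ pol k t s := by
  have h1 : (Polynomial.aeval t (Polynomial.X : Polynomial k))⁻¹ = t⁻¹ := by rw [Polynomial.aeval_X]
  refine ⟨?_, ?_, ?_, ?_, Algebra.subset_adjoin (by simp)⟩
  · have h3 := cv_mem_loc (k := k) t s⁻¹ (X_prime : Prime (X 1 : MvPolynomial (Fin 2) k)) (X 0)
    rwa [cv_X0] at h3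
  · rw [← h1]
    exact inv_mem_locI hc Polynomial.X_ne_zero
  · rw [mem_AH_iff]
    intro π hπ
    have h3 := cv_mem_loc t s hπ.1 (X 0)
    rw [cv_X0] at h3
    exact le_ic _ h3
  · rw [← h1]
    exact inv_mem_AH Polynomial.X_ne_zero

theorem half_sol (p : ℕ) [Fact p.Prime] [CharP k p] {t s u : K} (hc : Coord k t s) {n κ : ℕ} (hn : 0 < n) (hκ : 0 < κ)
    (hu : u ^ n * t = 1) {D D' : Fam k K} (hD : D.Reg t s 1) (hD' : D'.Reg t⁻¹ (s / t) (u ^ κ)) (hco : Compat t s D D') :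
    ∃ Φ Φ' : Polynomial k, Φ ≠ 0 ∧ Φ' ≠ 0 ∧ ∃ e₀ : ℕ, ∀ e ≥ e₀, ∃ x x' : K,
      (D.map (fun y => y ^ p ^ e)).Sol t s (Polynomial.aeval t Φ)⁻¹ x ∧
      (D'.map (fun y => y ^ p ^ e)).Sol t⁻¹ (s / t) (u ^ (κ * p ^ e) / Polynomial.aeval t⁻¹ Φ') x' ∧
      AlgT k t (x - x') := by
  have ht := hc.t_ne
  have hci := hc.inv
  have hst : s / t / t⁻¹ = s := by field_simp
  have hp : p.Prime := Fact.out
  obtain ⟨φ, hφ, m, ee, hside⟩ := side hc D.pts D.lines
  obtain ⟨φ', hφ', m', ee', hside'⟩ := side hci D'.pts D'.lines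
  obtain ⟨ψ, hψ, hclear⟩ := clear hc m ee
  obtain ⟨ψ', hψ', hclear'⟩ := clear hci m' ee'
  obtain ⟨d₀, hlin⟩ := lin_apply hc ee ee' hφ hφ'
  obtain ⟨htI, htiI, htA, htiA, htp⟩ := loc_t hc
  obtain ⟨htI', -, -, -, htp'⟩ := loc_t hci
  have hIle : locI k t s ≤ locI k t⁻¹ (s / t) := by
    have h1 := locI_inv hci
    rwa [inv_inv, hst] at h1
  refine ⟨ψ * φ, ψ' * φ' * Polynomial.X, mul_ne_zero hψ hφ, mul_ne_zero (mul_ne_zero hψ' hφ') Polynomial.X_ne_zero,
    n * d₀, fun e he => ?_⟩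
  set q := p ^ e with hq
  have hqe : n * d₀ ≤ q := le_trans he (Nat.lt_pow_self hp.one_lt).le
  set d := κ * q / n with hd
  have hdle : n * d ≤ κ * q := Nat.mul_div_le _ _
  have hdlt : κ * q < n * (d + 1) := Nat.lt_mul_div_succ _ hn
  have hd₀ : d₀ ≤ d := by
    rw [hd, Nat.le_div_iff_mul_le hn]
    nlinarith
  have hDb : (D.map (fun x => x ^ q)).Reg t s 1 := by
    have h1 := reg_frob p hD e
    rwa [one_pow] at h1
  have hDb' : (D'.map (fun x => x ^ q * t ^ d)).Reg t⁻¹ (s / t) 1 := reg_frob_div p ht hn hu hD' e d hdle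
  obtain ⟨b, c, hb⟩ := hside (D.map (fun x => x ^ q)) rfl rfl hDb
  obtain ⟨b', c', hb'⟩ := hside' (D'.map (fun x => x ^ q * t ^ d)) rfl rfl hDb'
  set σ := ∑ j, Polynomial.aeval t (c j) * ee j with hσ
  set σ' := ∑ j, Polynomial.aeval t⁻¹ (c' j) * ee' j with hσ'
  set P := Polynomial.aeval t φ with hP
  set P' := Polynomial.aeval t⁻¹ φ' with hP'
  have b1 : b - P * D.ρ1 ^ q ∈ ic (ringV t s D.pts) := by
    have h1 := hb.s1
    rw [div_one] at h1
    exact h1
  have b2 : ∀ T ∈ D.pts, b - P * D.ρT T ^ q ∈ ic (locS t s T) := by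
    intro T hT
    have h1 := hb.s2 T hT
    rw [div_one] at h1
    exact h1
  have b3 : ∀ T ∈ D.pts, b - P * D.ρ1 ^ q ∈ ic (locE t s T) := by
    intro T hT
    have h1 := hb.s3 T hT
    rw [div_one] at h1
    exact h1
  have b4 : b - (P * D.ρ3 ^ q + σ) ∈ ic (locI k t s) := by
    have h1 := hb.s4
    rw [div_one] at h1
    exact h1
  have b1' : b' - P' * (D'.ρ1 ^ q * t ^ d) ∈ ic (ringV t⁻¹ (s / t) D'.pts) := by
    have h1 := hb'.s1
    rw [div_one] at h1
    exact h1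
  have b2' : ∀ T ∈ D'.pts, b' - P' * (D'.ρT T ^ q * t ^ d) ∈ ic (locS t⁻¹ (s / t) T) := by
    intro T hT
    have h1 := hb'.s2 T hT
    rw [div_one] at h1
    exact h1
  have b3' : ∀ T ∈ D'.pts, b' - P' * (D'.ρ1 ^ q * t ^ d) ∈ ic (locE t⁻¹ (s / t) T) := by
    intro T hT
    have h1 := hb'.s3 T hT
    rw [div_one] at h1
    exact h1
  have b4' : b' - (P' * (D'.ρ3 ^ q * t ^ d) + σ') ∈ ic (locI k t⁻¹ (s / t)) := by
    have h1 := hb'.s4
    rw [div_one] at h1
    exact h1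
  have hcoq := compat_frob p hco e
  rw [← hq] at hcoq
  have hPA : P ∈ AH k t s := aev_mem htA φ
  have hPA' : P' * t ^ d ∈ AH k t s := (AH k t s).mul_mem (aev_mem htiA φ') ((AH k t s).pow_mem htA d)
  have hγ : P' * t ^ d * b - P * b' ∈ AH k t s := by
    refine cross_AH hc hcoq hPA hPA' b1 b2 ?_ ?_
    · have h1 : b' - P' * t ^ d * (D'.map (fun x => x ^ q)).ρ1 = b' - P' * (D'.ρ1 ^ q * t ^ d) := by
        change b' - P' * t ^ d * D'.ρ1 ^ q = _
        ring
      rw [h1]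
      exact b1'
    · intro T hT
      have h1 : b' - P' * t ^ d * (D'.map (fun x => x ^ q)).ρT T = b' - P' * (D'.ρT T ^ q * t ^ d) := by
        change b' - P' * t ^ d * D'.ρT T ^ q = _
        ring
      rw [h1]
      exact b2' T hT
  have hc4 : D.ρ3 ^ q - D'.ρ3 ^ q ∈ ic (locI k t s) := hcoq.c4
  have hPI : P ∈ ic (locI k t s) := le_ic _ (aev_mem htI φ)
  have hPI' : P' * t ^ d ∈ ic (locI k t s) :=
    le_ic _ ((locI k t s).mul_mem (aev_mem htiI φ') ((locI k t s).pow_mem htI d))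
  obtain ⟨⟨α0, hα0, hα0'⟩, ⟨β0, hβ0, hβ0'⟩⟩ := hlin d hd₀ c c' (by
    refine ⟨P' * t ^ d * b - P * b', hγ, ?_⟩
    have h1 : P' * t ^ d * σ - P * σ' - (P' * t ^ d * b - P * b') =
        P * (b' - (P' * (D'.ρ3 ^ q * t ^ d) + σ')) - P' * t ^ d * (b - (P * D.ρ3 ^ q + σ)) -
        P * (P' * t ^ d) * (D.ρ3 ^ q - D'.ρ3 ^ q) := by ring
    rw [h1]
    exact (ic _).sub_mem ((ic _).sub_mem ((ic _).mul_mem hPI (ic_mono (locI_inv hc) b4'))
      ((ic _).mul_mem hPI' b4)) ((ic _).mul_mem ((ic _).mul_mem hPI hPI') hc4))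
  obtain ⟨α, hα, hαI⟩ := hclear c ⟨α0, hα0, hα0'⟩
  obtain ⟨β, hβ, hβI⟩ := hclear' c' ⟨β0, AH_inv hc hβ0, ic_mono hIle hβ0'⟩
  rw [← hσ] at hαI
  rw [← hσ'] at hβI
  set Q := Polynomial.aeval t ψ with hQ
  set Q' := Polynomial.aeval t⁻¹ ψ' with hQ'
  have hPne : P ≠ 0 := hc.aeval_ne hφ
  have hQne : Q ≠ 0 := hc.aeval_ne hψ
  have hPne' : P' ≠ 0 := hci.aeval_ne hφ'
  have hQne' : Q' ≠ 0 := hci.aeval_ne hψ'
  have hune : u ≠ 0 := by
    rintro rfl
    rw [zero_pow hn.ne', zero_mul] at hu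
    exact zero_ne_one hu
  have hun : u ^ n = t⁻¹ := eq_inv_of_mul_eq_one_left hu
  have htd : t ^ d ≠ 0 := pow_ne_zero _ ht
  obtain ⟨r, hr⟩ : ∃ r, n * (d + 1) = κ * q + r := ⟨n * (d + 1) - κ * q, by omega⟩
  have huI : u ^ r ∈ ic (pol k t⁻¹ (s / t)) := by
    refine (ic _).pow_mem (mem_ic_of_pow hn ?_) r
    rw [hun]
    exact le_ic _ htp'
  have huI' : u ^ r ∈ ic (locI k t⁻¹ (s / t)) := by
    refine (ic _).pow_mem (mem_ic_of_pow hn ?_) r
    rw [hun]
    exact le_ic _ htI'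
  have hut : t ^ d * u ^ (κ * q) * u ^ r = t⁻¹ := by
    have h1 : u ^ (κ * q) * u ^ r = (u ^ n) ^ (d + 1) := by
      rw [← pow_add, ← pow_mul, hr]
    rw [mul_assoc, h1, hun, pow_succ, ← mul_assoc, ← mul_pow, mul_inv_cancel₀ ht, one_pow, one_mul]
  have hx : (D.map (fun y => y ^ q)).Sol t s (Polynomial.aeval t (ψ * φ))⁻¹ ((Q * b - α) / (Q * P)) := by
    refine sol_of hc (a := P) (ψ := Q) (b := b) (α := α) (y := 1) (aev_mem htp ψ) hα (ic _).one_mem ?_
      b1 b2 b3 ?_ (ic _).one_mem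
    · intro r
      rw [map_mul, ← hQ, ← hP]
      field_simp
      ring
    · change Q * (b - P * D.ρ3 ^ q) - α ∈ _
      have h1 : Q * (b - P * D.ρ3 ^ q) - α = Q * (b - (P * D.ρ3 ^ q + σ)) + (Q * σ - α) := by ring
      rw [h1]
      exact (ic _).add_mem ((ic _).mul_mem (le_ic _ (aev_mem htI ψ)) b4) hαI
  have hx' : (D'.map (fun y => y ^ q)).Sol t⁻¹ (s / t)
      (u ^ (κ * q) / Polynomial.aeval t⁻¹ (ψ' * φ' * Polynomial.X)) ((Q' * b' - β) / (Q' * P' * t ^ d)) := by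
    refine sol_of hci (a := P' * t ^ d) (ψ := Q') (b := b') (α := β) (y := u ^ r) (aev_mem htp' ψ') hβ huI ?_
      ?_ ?_ ?_ ?_ huI'
    · intro r'
      rw [map_mul, map_mul, Polynomial.aeval_X, ← hQ', ← hP', ← hut]
      field_simp
      ring
    · change b' - P' * t ^ d * D'.ρ1 ^ q ∈ _
      have h1 : b' - P' * t ^ d * D'.ρ1 ^ q = b' - P' * (D'.ρ1 ^ q * t ^ d) := by ring
      rw [h1]
      exact b1'
    · intro T hT
      change b' - P' * t ^ d * D'.ρT T ^ q ∈ _
      have h1 : b' - P' * t ^ d * D'.ρT T ^ q = b' - P' * (D'.ρT T ^ q * t ^ d) := by ring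
      rw [h1]
      exact b2' T hT
    · intro T hT
      change b' - P' * t ^ d * D'.ρ1 ^ q ∈ _
      have h1 : b' - P' * t ^ d * D'.ρ1 ^ q = b' - P' * (D'.ρ1 ^ q * t ^ d) := by ring
      rw [h1]
      exact b3' T hT
    · change Q' * (b' - P' * t ^ d * D'.ρ3 ^ q) - β ∈ _
      have h1 : Q' * (b' - P' * t ^ d * D'.ρ3 ^ q) - β =
          Q' * (b' - (P' * (D'.ρ3 ^ q * t ^ d) + σ')) + (Q' * σ' - β) := by ring
      rw [h1]
      exact (ic _).add_mem ((ic _).mul_mem (le_ic _ (aev_mem htI' ψ')) b4') hβI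
  exact ⟨_, _, hx, hx', cross hc hn hu hcoq (mul_ne_zero hψ hφ)
    (mul_ne_zero (mul_ne_zero hψ' hφ') Polynomial.X_ne_zero) hx hx'⟩

end Pool.Agent.Lib.MP_4318ff_ag.Q
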