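import Pool.Agent.Lib.MP_4318ff_ag.Q.MinPoly
import Pool.Agent.Lib.MP_4318ff_ag.Q.LocUFD
import Pool.Agent.Lib.MP_4318ff_ag.Q.CoordCh

/-!
# Elements without horizontal poles

`ah_clear`: the coefficients of the minimal polynomial of `x` lie in all horizontal local rings, so they become polynomials after
multiplication by a polynomial in `t`. `hor_alg`: a polynomial in `s` over `k[t]` of positive degree in `s` is not in `locI`.
-/

set_option autoImplicit false

namespace Pool.Agent.Lib.MP_4318ff_ag.Q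

open MvPolynomial

variable {k K : Type} [Field k] [Field K] [Algebra k K]

private theorem ha_cv_aeval (t s : K) (f : Polynomial k) :
    cv t s (Polynomial.aeval (X 0 : MvPolynomial (Fin 2) k) f) = Polynomial.aeval t f := by
  rw [← Polynomial.aeval_algHom_apply, cv_X0]

/-- The map `k[X][Y] → k[X₀, X₁]`. -/
private noncomputable def haTh (k : Type) [Field k] : Polynomial (Polynomial k) →+* MvPolynomial (Fin 2) k :=
  Polynomial.eval₂RingHom ((Polynomial.aeval (X 0 : MvPolynomial (Fin 2) k) : Polynomial k →ₐ[k] _) : Polynomial k →+* _) (X 1)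

private theorem haTh_surj (G : MvPolynomial (Fin 2) k) : ∃ g, haTh k g = G := by
  induction G using MvPolynomial.induction_on with
  | C a => exact ⟨Polynomial.C (Polynomial.C a), by simp [haTh]⟩
  | add p q hp hq =>
    obtain ⟨a, ha⟩ := hp
    obtain ⟨b, hb⟩ := hq
    exact ⟨a + b, by rw [map_add, ha, hb]⟩
  | mul_X p i hp =>
    obtain ⟨a, ha⟩ := hp
    fin_cases i
    · exact ⟨a * Polynomial.C Polynomial.X, by rw [map_mul, ha]; simp [haTh]⟩
    · exact ⟨a * Polynomial.X, by rw [map_mul, ha]; simp [haTh]⟩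

private theorem ha_cv_th (t s : K) (g : Polynomial (Polynomial k)) :
    cv t s (haTh k g) = g.eval₂ ((Polynomial.aeval t : Polynomial k →ₐ[k] K) : Polynomial k →+* K) s := by
  have h : ((cv t s : MvPolynomial (Fin 2) k →ₐ[k] K) : MvPolynomial (Fin 2) k →+* K).comp (haTh k) =
      Polynomial.eval₂RingHom ((Polynomial.aeval t : Polynomial k →ₐ[k] K) : Polynomial k →+* K) s := by
    apply Polynomial.ringHom_ext
    · intro a
      simp [haTh, ha_cv_aeval]
    · simp [haTh]
  exact congrArg (fun φ : Polynomial (Polynomial k) →+* K => φ g) h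

private theorem ha_not_dvd {t s : K} (hc : Coord k t s) (g : Polynomial (Polynomial k)) (hg : g.coeff 0 ≠ 0) :
    ¬ (X 1 : MvPolynomial (Fin 2) k) ∣ haTh k g := by
  rintro ⟨Q, hQ⟩
  have h1 : cv t 0 (haTh k g) = 0 := by
    rw [hQ, map_mul, cv_X1, zero_mul]
  rw [ha_cv_th, Polynomial.eval₂_at_zero] at h1
  exact hc.aeval_ne hg h1

private theorem ha_prime1 : Prime (X 1 : MvPolynomial (Fin 2) k) := by
  have := prime_X1_sub (k := k) 0
  rwa [C_0, sub_zero] at this

/-- A polynomial which is regular at `s = ∞` is a polynomial in `t`. -/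
private theorem ha_pol {t s : K} (hc : Coord k t s) (G : MvPolynomial (Fin 2) k) (h : cv t s G ∈ locI k t s) :
    ∃ f : Polynomial k, cv t s G = Polynomial.aeval t f := by
  obtain ⟨g, rfl⟩ := haTh_surj G
  by_cases hg : g = 0
  · exact ⟨0, by rw [hg]; simp⟩
  obtain ⟨G', H, hH, hGH⟩ := (mem_loc hc.sInv ha_prime1).1 h
  rcases Nat.eq_zero_or_pos g.natDegree with he | he
  · refine ⟨g.coeff 0, ?_⟩
    rw [ha_cv_th, Polynomial.eq_C_of_natDegree_eq_zero he, Polynomial.eval₂_C, Polynomial.coeff_C_zero]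
    rfl
  exfalso
  have hs := hc.s_ne
  have hrev : cv t s⁻¹ (haTh k g.reverse) * s ^ g.natDegree = cv t s (haTh k g) := by
    rw [ha_cv_th, ha_cv_th]
    have : Invertible s := invertibleOfNonzero hs
    have h3 := Polynomial.eval₂_reverse_mul_pow ((Polynomial.aeval t : Polynomial k →ₐ[k] K) : Polynomial k →+* K) s g
    rwa [invOf_eq_inv] at h3
  have hmul : haTh k g.reverse * H = X 1 ^ g.natDegree * G' := by
    apply hc.sInv.inj
    rw [map_mul, map_mul, map_pow, cv_X1, ← hGH, ← hrev, inv_pow]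
    have hs2 : s ^ g.natDegree ≠ 0 := pow_ne_zero _ hs
    have h9 : ∀ a b c : K, c ≠ 0 → a * b = c⁻¹ * (a * c * b) := fun a b c hc0 => by
      field_simp
    exact h9 _ _ _ hs2
  have hdvd : (X 1 : MvPolynomial (Fin 2) k) ∣ haTh k g.reverse * H := by
    rw [hmul]
    exact (dvd_pow_self _ he.ne').mul_right _
  rcases ha_prime1.dvd_or_dvd hdvd with h1 | h1
  · refine ha_not_dvd hc g.reverse ?_ h1
    rw [Polynomial.coeff_zero_reverse]
    exact Polynomial.leadingCoeff_ne_zero.2 hg
  · exact hH h1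

private theorem ha_coeff {t s : K} (hc : Coord k t s) {x : K} (hx : x ∈ AH k t s) (i : ℕ)
    (π : MvPolynomial (Fin 2) k) (hπ : Hor π) : (((minpoly (FF k t s) x).coeff i : FF k t s) : K) ∈ loc t s π := by
  refine minpoly_coeff_mem (FF k t s) (loc t s π) (fun y hy => loc_le_FF π hy)
    (fun y hy h => loc_int hc hπ.1 hy h) ?_ i
  simp only [AH, Algebra.mem_iInf] at hx
  exact hx π hπ

theorem ah_clear {t s : K} (hc : Coord k t s) {x : K} (hx : x ∈ AH k t s) :
    ∃ f : Polynomial k, f ≠ 0 ∧ Polynomial.aeval t f * x ∈ ic (pol k t s) := by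
  classical
  have := hc.fin
  have hint : IsIntegral (FF k t s) x := IsIntegral.of_finite _ _
  set p := minpoly (FF k t s) x with hp
  have h1 : ∀ i : ℕ, ∃ f : Polynomial k, f ≠ 0 ∧ Polynomial.aeval t f * ((p.coeff i : FF k t s) : K) ∈ pol k t s :=
    fun i => hor_den hc (p.coeff i).2 (ha_coeff hc hx i)
  choose f hf hfp using h1
  let F : Polynomial k := ∏ i ∈ Finset.range p.natDegree, f i
  have hF : F ≠ 0 := Finset.prod_ne_zero_iff.2 fun i _ => hf i
  have hpolt : ∀ g : Polynomial k, Polynomial.aeval t g ∈ pol k t s := fun g =>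
    mem_pol.2 ⟨Polynomial.aeval (X 0) g, (ha_cv_aeval t s g).symm⟩
  have hFp : ∀ i < p.natDegree, Polynomial.aeval t F * ((p.coeff i : FF k t s) : K) ∈ pol k t s := by
    intro i hi
    have h2 : F = (∏ j ∈ (Finset.range p.natDegree).erase i, f j) * f i :=
      (Finset.prod_erase_mul _ _ (Finset.mem_range.2 hi)).symm
    rw [h2, map_mul, mul_assoc]
    exact (pol k t s).mul_mem (hpolt _) (hfp i)
  refine ⟨F, hF, mem_ic_iff_poly.2 ⟨(p.map (algebraMap (FF k t s) K)).scaleRoots (Polynomial.aeval t F), ?_, ?_, ?_⟩⟩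
  · rw [Polynomial.monic_scaleRoots_iff]
    exact (minpoly.monic hint).map _
  · intro i
    rw [Polynomial.coeff_scaleRoots, Polynomial.coeff_map,
      Polynomial.natDegree_map_eq_of_injective (algebraMap (FF k t s) K).injective]
    rcases lt_trichotomy i p.natDegree with hi | hi | hi
    · obtain ⟨m, hm⟩ := Nat.exists_eq_add_of_lt hi
      have h3 : p.natDegree - i = m + 1 := by omega
      rw [h3, pow_succ]
      have h4 : algebraMap (FF k t s) K (p.coeff i) * (Polynomial.aeval t F ^ m * Polynomial.aeval t F) =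
          Polynomial.aeval t F ^ m * (Polynomial.aeval t F * ((p.coeff i : FF k t s) : K)) := by
        change ((p.coeff i : FF k t s) : K) * _ = _
        ring
      rw [h4]
      exact (pol k t s).mul_mem ((pol k t s).pow_mem (hpolt F) m) (hFp i hi)
    · rw [hi, Nat.sub_self, pow_zero, mul_one]
      have h5 : p.coeff p.natDegree = 1 := (minpoly.monic hint).coeff_natDegree
      rw [h5, map_one]
      exact (pol k t s).one_mem
    · rw [Polynomial.coeff_eq_zero_of_natDegree_lt hi, map_zero, zero_mul]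
      exact (pol k t s).zero_mem
  · have h6 : Polynomial.eval x (p.map (algebraMap (FF k t s) K)) = 0 := by
      rw [Polynomial.eval_map, ← Polynomial.aeval_def]
      exact minpoly.aeval _ _
    have h7 := Polynomial.scaleRoots_aeval_eq_zero (p := p.map (algebraMap (FF k t s) K)) (a := x)
      (r := Polynomial.aeval t F) (by rw [Polynomial.coe_aeval_eq_eval]; exact h6)
    rw [Polynomial.coe_aeval_eq_eval] at h7
    exact h7

theorem hor_alg {t s : K} (hc : Coord k t s) {x : K} (h1 : x ∈ AH k t s) (h2 : x ∈ ic (locI k t s)) : AlgT k t x := by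
  have := hc.fin
  have hint : IsIntegral (FF k t s) x := IsIntegral.of_finite _ _
  set p := minpoly (FF k t s) x with hp
  have hI : ∀ i, ((p.coeff i : FF k t s) : K) ∈ locI k t s := by
    intro i
    refine minpoly_coeff_mem (FF k t s) (locI k t s) (fun y hy => ?_) (fun y hy h => ?_) h2 i
    · rw [← FF_sInv]
      exact loc_le_FF _ hy
    · refine loc_int hc.sInv ha_prime1 ?_ h
      rw [FF_sInv]
      exact hy
  have htmem : ∀ g : Polynomial k, Polynomial.aeval t g ∈ IntermediateField.adjoin k {t} := fun g => by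
    rw [← IntermediateField.AdjoinSimple.coe_aeval_gen_apply k t g]
    exact Subtype.property _
  have hT : ∀ i, ((p.coeff i : FF k t s) : K) ∈ IntermediateField.adjoin k {t} := by
    intro i
    obtain ⟨f, hf, hfp⟩ := hor_den hc (p.coeff i).2 (ha_coeff hc h1 i)
    obtain ⟨G, hG⟩ := mem_pol.1 hfp
    have hft : Polynomial.aeval t f ∈ locI k t s := by
      rw [← ha_cv_aeval t s⁻¹ f]
      exact cv_mem_loc t s⁻¹ ha_prime1 _
    have h3 : cv t s G ∈ locI k t s := by
      rw [← hG]
      exact (locI k t s).mul_mem hft (hI i)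
    obtain ⟨g, hg⟩ := ha_pol hc G h3
    have h4 : ((p.coeff i : FF k t s) : K) = (Polynomial.aeval t f)⁻¹ * Polynomial.aeval t g := by
      rw [← hg, ← hG, inv_mul_cancel_left₀ (hc.aeval_ne hf)]
    rw [h4]
    exact mul_mem (inv_mem (htmem f)) (htmem g)
  have hlift : p.map (algebraMap (FF k t s) K) ∈ Polynomial.lifts (algebraMap (IntermediateField.adjoin k {t}) K) := by
    rw [Polynomial.lifts_iff_coeff_lifts]
    intro i
    rw [Polynomial.coeff_map]
    exact ⟨⟨_, hT i⟩, rfl⟩
  obtain ⟨q, hq⟩ := hlift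
  refine ⟨q, ?_, ?_⟩
  · rintro rfl
    have h5 : p.map (algebraMap (FF k t s) K) = 0 := by
      rw [← hq]
      simp
    exact (minpoly.ne_zero hint) ((Polynomial.map_eq_zero _).1 h5)
  · have h6 : Polynomial.aeval x q = Polynomial.eval x (q.map (algebraMap (IntermediateField.adjoin k {t}) K)) := by
      rw [Polynomial.eval_map, ← Polynomial.aeval_def]
    rw [h6]
    have h7 : q.map (algebraMap (IntermediateField.adjoin k {t}) K) = p.map (algebraMap (FF k t s) K) := hq
    rw [h7, Polynomial.eval_map, ← Polynomial.aeval_def]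
    exact minpoly.aeval _ _

/-- Nonzero polynomials in `t` are units at all horizontal divisors. -/
theorem inv_mem_AH {t s : K} {f : Polynomial k} (hf : f ≠ 0) : (Polynomial.aeval t f)⁻¹ ∈ AH k t s := by
  simp only [AH, Algebra.mem_iInf]
  intro π hπ
  refine le_ic _ ?_
  rw [← ha_cv_aeval t s f]
  exact inv_cv_mem_loc t s (hπ.2 f hf)

theorem inv_mem_locI {t s : K} (hc : Coord k t s) {f : Polynomial k} (hf : f ≠ 0) :
    (Polynomial.aeval t f)⁻¹ ∈ locI k t s := by
  rw [← ha_cv_aeval t s⁻¹ f]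
  refine inv_cv_mem_loc t s⁻¹ ?_
  rintro ⟨Q, hQ⟩
  have h1 : cv t 0 (Polynomial.aeval (X 0 : MvPolynomial (Fin 2) k) f) = 0 := by
    rw [hQ, map_mul, cv_X1, zero_mul]
  rw [ha_cv_aeval] at h1
  exact hc.aeval_ne hf h1

end Pool.Agent.Lib.MP_4318ff_ag.Q
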