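import Pool.Agent.Lib.MP_4318ff_ag.Q.Expand
import Pool.Agent.Lib.MP_4318ff_ag.Q.Blowup
import Pool.Agent.Lib.MP_4318ff_ag.Q.Glue
import Pool.Agent.Lib.MP_4318ff_ag.Q.LocUFD

/-!
# The side lemma

PROOF. For `T ∈ pts` let `N_T` be the number of `blowup`, `N` their maximum, `φ = ∏_(T ∈ pts) (X - t_T)^N`, `φ = (X - t_T)^N φ_T`. Let `e_j` be the elements of `expand` for
`lines' = lines ∪ {(s_T, 0) : T ∈ pts}`. Let `D` be regular. `g_T = ∏_(T' ∈ pts, T' ≠ T) (s - s_(T'))`. By `h1` and `exists_pow_mul_mem_ic`: `g_T^m (ρ1 - ρ_T) ∈ ic k[t,s,σ_T,1/σ_T]`, so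
`(t - t_T)^N g_T^m (ρ1 - ρ_T) = α_T + β_T` with `α_T ∈ ic k[t,σ_T]`, `β_T ∈ ic k[s,1/σ_T]` (if `N_T < N` multiply by `(t - t_T)^(N - N_T)`, `t - t_T ∈ k[t,σ_T] ∩ k[s,1/σ_T]`).
`y_T := - φ_T(t) β_T / g_T^m`: it lies in `ic (ringV)` (`1/σ_T = (t - t_T)/(s - s_T)`), and `φ ρ1 + y_T - φ ρ_T = φ_T α_T/g_T^m`. `y₀` from `glue`. `y₀ + φ (ρ1 - ρ3) ∈ ic (ringL lines')`, so
`y₀ + φ (ρ1 - ρ3) = α + ∑ c_j e_j + (element of ic (locI))`, `α ∈ ic k[t,s]`. `b := φ ρ1 + y₀ - α`. Check: `s1`: `b - φ ρ1 = y₀ - α ∈ ic (ringV)`. `s2`: `b - φ ρ_T = (y₀ - y_T) - α + φ_T α_T/g_T^m`: `ringG`, `k[t,s]`, `k[t,σ_T]`, `1/g_T`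
are contained in `locS t s T` (`g_T` is not divisible by `X 1 - C s_T`; `σ_T = (s - s_T)/(t - t_T)`). `s3`: `b - φ ρ1 = (y₀ - y_T) + y_T - α`: `k[t,s]`, `k[s,1/σ_T]`, `1/g_T` are contained in `locE t s T` (coordinates `t, σ`;
`s = s_T + σ (t - t_T)`, `g_T(s) ≡ g_T(s_T) ≠ 0` modulo `t - t_T`; `1/σ` is a unit). `s4`: `b - φ ρ3 - ∑ c_j e_j ∈ ic (locI)`.
-/

set_option autoImplicit false

namespace Pool.Agent.Lib.MP_4318ff_ag.Q

open MvPolynomial

variable {k K : Type} [Field k] [Field K] [Algebra k K]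

/-- A prime does not divide a polynomial which does not vanish at some point of its zero set. -/
theorem side_not_dvd {π H : MvPolynomial (Fin 2) k} (a b : k) (h0 : eval ![a, b] π = 0) (h1 : eval ![a, b] H ≠ 0) :
    ¬ π ∣ H := by
  rintro ⟨G, rfl⟩
  rw [map_mul, h0, zero_mul] at h1
  exact h1 rfl

/-- Denominators `g` are removed from an `adjoin`. -/
theorem side_den {S : Subalgebra k K} {f : K} (hf : f ∈ S) (A : Set K) (hA : ∀ y ∈ A, ∃ m : ℕ, f ^ m * y ∈ S) :
    ∀ y ∈ Algebra.adjoin k A, ∃ m : ℕ, f ^ m * y ∈ S := by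
  intro y hy
  induction hy using Algebra.adjoin_induction with
  | mem x hx => exact hA x hx
  | algebraMap r => exact ⟨0, by rw [pow_zero, one_mul]; exact S.algebraMap_mem r⟩
  | add x y _ _ hx hy =>
    obtain ⟨m, hm⟩ := hx
    obtain ⟨n, hn⟩ := hy
    refine ⟨m + n, ?_⟩
    have e : f ^ (m + n) * (x + y) = f ^ n * (f ^ m * x) + f ^ m * (f ^ n * y) := by ring
    rw [e]
    exact S.add_mem (S.mul_mem (S.pow_mem hf _) hm) (S.mul_mem (S.pow_mem hf _) hn)
  | mul x y _ _ hx hy =>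
    obtain ⟨m, hm⟩ := hx
    obtain ⟨n, hn⟩ := hy
    refine ⟨m + n, ?_⟩
    have e : f ^ (m + n) * (x * y) = (f ^ m * x) * (f ^ n * y) := by ring
    rw [e]
    exact S.mul_mem hm hn

theorem side_aeval_mem {S : Subalgebra k K} {t : K} (ht : t ∈ S) (f : Polynomial k) : Polynomial.aeval t f ∈ S := by
  have h : Polynomial.aeval t f ∈ Algebra.adjoin k {t} := Polynomial.aeval_mem_adjoin_singleton k t
  exact (Algebra.adjoin_le (by rintro x rfl; exact ht) : Algebra.adjoin k {t} ≤ S) h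

section Rings

variable {t s : K}

theorem side_t_V (pts : Finset (k × k)) : t ∈ ringV t s pts := Algebra.subset_adjoin (Or.inl (Or.inl rfl))

theorem side_s_V (pts : Finset (k × k)) : s ∈ ringV t s pts := Algebra.subset_adjoin (Or.inl (Or.inr rfl))

theorem side_inv_V {pts : Finset (k × k)} {T : k × k} (hT : T ∈ pts) :
    (s - algebraMap k K T.2)⁻¹ ∈ ringV t s pts := Algebra.subset_adjoin (Or.inr ⟨T, hT, rfl⟩)

theorem side_pol_V (pts : Finset (k × k)) : pol k t s ≤ ringV t s pts := by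
  apply Algebra.adjoin_le
  rintro x (rfl | rfl)
  · exact side_t_V pts
  · exact side_s_V pts

/-- `k[s, 1/σ] ≤ ringV`. -/
theorem side_slinv_V {pts : Finset (k × k)} {T : k × k} (hT : T ∈ pts) :
    Algebra.adjoin k {s, (sl t s T)⁻¹} ≤ ringV t s pts := by
  apply Algebra.adjoin_le
  rintro x (rfl | rfl)
  · exact side_s_V pts
  · unfold sl
    rw [inv_div, div_eq_mul_inv]
    exact mul_mem (sub_mem (side_t_V pts) (Subalgebra.algebraMap_mem _ _)) (side_inv_V hT)

theorem side_V_L (pts lines lines' : Finset (k × k)) (h : ∀ T ∈ pts, (T.2, (0 : k)) ∈ lines') :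
    ringV t s pts ≤ ringL t s lines' := by
  apply Algebra.adjoin_le
  rintro x (hx | ⟨T, hT, rfl⟩)
  · exact Algebra.subset_adjoin (Or.inl hx)
  · refine Algebra.subset_adjoin (Or.inr ⟨(T.2, 0), h T hT, ?_⟩)
    simp

theorem side_L_L {lines lines' : Finset (k × k)} (h : lines ⊆ lines') : ringL t s lines ≤ ringL t s lines' := by
  apply Algebra.adjoin_mono
  rintro x (hx | ⟨c, hc, rfl⟩)
  · exact Or.inl hx
  · exact Or.inr ⟨c, h hc, rfl⟩

/-! ### The local ring of the line `s = s_T` -/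

theorem side_t_S (T : k × k) : t ∈ locS t s T := by
  have h := cv_mem_loc t s (prime_X1_sub T.2) (X 0)
  rwa [cv_X0] at h

theorem side_s_S (T : k × k) : s ∈ locS t s T := by
  have h := cv_mem_loc t s (prime_X1_sub T.2) (X 1)
  rwa [cv_X1] at h

theorem side_inv_S {T T' : k × k} (h : T.2 ≠ T'.2) : (s - algebraMap k K T'.2)⁻¹ ∈ locS t s T := by
  have h := inv_cv_mem_loc t s (π := X 1 - C T.2) (H := X 1 - C T'.2)
    (side_not_dvd 0 T.2 (by simp) (by simpa [sub_eq_zero] using h))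
  rwa [map_sub, cv_X1, cv_C] at h

theorem side_invt_S (T : k × k) : (t - algebraMap k K T.1)⁻¹ ∈ locS t s T := by
  have h := inv_cv_mem_loc t s (π := X 1 - C T.2) (H := X 0 - C T.1)
    (side_not_dvd (T.1 + 1) T.2 (by simp) (by simp))
  rwa [map_sub, cv_X0, cv_C] at h

theorem side_sl_S (T : k × k) : sl t s T ∈ locS t s T := by
  unfold sl
  rw [div_eq_mul_inv]
  exact mul_mem (sub_mem (side_s_S T) (Subalgebra.algebraMap_mem _ _)) (side_invt_S T)

theorem side_pol_S (T : k × k) : pol k t s ≤ locS t s T := by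
  apply Algebra.adjoin_le
  rintro x (rfl | rfl)
  · exact side_t_S T
  · exact side_s_S T

theorem side_tsl_S (T : k × k) : Algebra.adjoin k {t, sl t s T} ≤ locS t s T := by
  apply Algebra.adjoin_le
  rintro x (rfl | rfl)
  · exact side_t_S T
  · exact side_sl_S T

theorem side_G_S {pts : Finset (k × k)} (inj : ∀ T ∈ pts, ∀ T' ∈ pts, T.2 = T'.2 → T = T') {T : k × k} (hT : T ∈ pts) :
    ringG t s pts T ≤ locS t s T := by
  apply Algebra.adjoin_le
  rintro x ((rfl | rfl) | ⟨T', hT', hne, rfl⟩)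
  · exact side_t_S T
  · exact side_s_S T
  · exact side_inv_S fun h => hne (inj T hT T' hT' h).symm

/-! ### The local ring of the exceptional curve -/

theorem side_t_E (T : k × k) : t ∈ locE t s T := by
  have h := cv_mem_loc t (sl t s T) (prime_X0_sub T.1) (X 0)
  rwa [cv_X0] at h

theorem side_sl_E (T : k × k) : sl t s T ∈ locE t s T := by
  have h := cv_mem_loc t (sl t s T) (prime_X0_sub T.1) (X 1)
  rwa [cv_X1] at h

theorem side_slinv_E (T : k × k) : (sl t s T)⁻¹ ∈ locE t s T := by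
  have h := inv_cv_mem_loc t (sl t s T) (π := X 0 - C T.1) (H := X 1)
    (side_not_dvd T.1 1 (by simp) (by simp))
  rwa [cv_X1] at h

theorem side_s_eq (hc : Coord k t s) (T : k × k) :
    s = algebraMap k K T.2 + sl t s T * (t - algebraMap k K T.1) := by
  unfold sl
  rw [div_mul_cancel₀ _ (hc.t_sub_ne T.1)]
  ring

theorem side_s_E (hc : Coord k t s) (T : k × k) : s ∈ locE t s T := by
  have h : algebraMap k K T.2 + sl t s T * (t - algebraMap k K T.1) ∈ locE t s T :=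
    add_mem (Subalgebra.algebraMap_mem _ _)
      (mul_mem (side_sl_E T) (sub_mem (side_t_E T) (Subalgebra.algebraMap_mem _ _)))
  rwa [← side_s_eq hc T] at h

theorem side_inv_E (hc : Coord k t s) {T T' : k × k} (h : T.2 ≠ T'.2) : (s - algebraMap k K T'.2)⁻¹ ∈ locE t s T := by
  have h := inv_cv_mem_loc t (sl t s T) (π := X 0 - C T.1) (H := C (T.2 - T'.2) + X 1 * (X 0 - C T.1))
    (side_not_dvd T.1 0 (by simp) (by simpa [sub_eq_zero] using h))
  rw [map_add, map_mul, map_sub (cv t (sl t s T)) (X 0) (C T.1), cv_X0, cv_X1, cv_C, cv_C] at h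
  have e : s - algebraMap k K T'.2 = algebraMap k K (T.2 - T'.2) + sl t s T * (t - algebraMap k K T.1) := by
    rw [map_sub]
    linear_combination side_s_eq hc T
  rwa [e]

theorem side_pol_E (hc : Coord k t s) (T : k × k) : pol k t s ≤ locE t s T := by
  apply Algebra.adjoin_le
  rintro x (hx | hx)
  · rw [hx]; exact side_t_E T
  · rw [Set.mem_singleton_iff] at hx
    rw [hx]
    exact side_s_E hc T

theorem side_slinv_le_E (hc : Coord k t s) (T : k × k) : Algebra.adjoin k {s, (sl t s T)⁻¹} ≤ locE t s T := by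
  apply Algebra.adjoin_le
  rintro x (hx | hx)
  · rw [hx]; exact side_s_E hc T
  · rw [Set.mem_singleton_iff] at hx
    rw [hx]
    exact side_slinv_E T

theorem side_G_E (hc : Coord k t s) {pts : Finset (k × k)} (inj : ∀ T ∈ pts, ∀ T' ∈ pts, T.2 = T'.2 → T = T')
    {T : k × k} (hT : T ∈ pts) : ringG t s pts T ≤ locE t s T := by
  apply Algebra.adjoin_le
  rintro x ((hx | hx) | ⟨T', hT', hne, hx⟩)
  · rw [hx]; exact side_t_E T
  · rw [Set.mem_singleton_iff] at hx
    rw [hx]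
    exact side_s_E hc T
  · rw [hx]
    exact side_inv_E hc fun h => hne (inj T hT T' hT' h).symm

end Rings

theorem side {t s : K} (hc : Coord k t s) (pts lines : Finset (k × k)) :
    ∃ φ : Polynomial k, φ ≠ 0 ∧ ∃ (m : ℕ) (e : Fin m → K), ∀ D : Fam k K, D.pts = pts → D.lines = lines →
      D.Reg t s 1 → ∃ (b : K) (c : Fin m → Polynomial k),
        ((D.map (fun x => Polynomial.aeval t φ * x)).add3 (∑ j, Polynomial.aeval t (c j) * e j)).Sol t s 1 b := by
  classical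
  choose NT hNT using fun T : k × k => blowup hc T
  set N : ℕ := pts.sup NT with hN
  set φ : Polynomial k := ∏ T ∈ pts, (Polynomial.X - Polynomial.C T.1) ^ N with hφ
  have hφ0 : φ ≠ 0 := Finset.prod_ne_zero_iff.2 fun T _ => pow_ne_zero _ (Polynomial.X_sub_C_ne_zero _)
  set lines' : Finset (k × k) := lines ∪ pts.image (fun T => (T.2, (0 : k))) with hl'
  obtain ⟨m, e, hme⟩ := expand hc lines'
  refine ⟨φ, hφ0, m, e, ?_⟩
  intro D hDp hDl hD
  have inj : ∀ T ∈ pts, ∀ T' ∈ pts, T.2 = T'.2 → T = T' := by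
    intro T hT T' hT'
    exact hD.inj T (hDp ▸ hT) T' (hDp ▸ hT')
  set Φ : K := Polynomial.aeval t φ with hΦ
  -- the polynomials `g_T`
  set g : k × k → K := fun T => ∏ T' ∈ pts.erase T, (s - algebraMap k K T'.2) with hg
  have hg0 : ∀ T, g T ≠ 0 := fun T => Finset.prod_ne_zero_iff.2 fun T' _ => hc.s_sub_ne T'.2
  have hginv : ∀ (S : Subalgebra k K) (T : k × k), (∀ T' ∈ pts, T' ≠ T → (s - algebraMap k K T'.2)⁻¹ ∈ S) →
      (g T)⁻¹ ∈ S := by
    intro S T h
    rw [hg]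
    simp only
    rw [← Finset.prod_inv_distrib]
    exact S.prod_mem fun T' hT' => h T' (Finset.mem_of_mem_erase hT') (Finset.ne_of_mem_erase hT')
  -- local solutions at the points
  have key : ∀ T ∈ pts, ∃ (mT : ℕ) (φT : Polynomial k) (α β : K), φ = (Polynomial.X - Polynomial.C T.1) ^ N * φT ∧
      α ∈ ic (Algebra.adjoin k {t, sl t s T}) ∧ β ∈ ic (Algebra.adjoin k {s, (sl t s T)⁻¹}) ∧
      (t - algebraMap k K T.1) ^ N * (g T ^ mT * (D.ρ1 - D.ρT T)) = α + β := by
    intro T hT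
    have h1 := hD.h1 T (hDp ▸ hT)
    rw [div_one, hDp] at h1
    have hgS : g T ∈ Algebra.adjoin k {t, s, sl t s T, (sl t s T)⁻¹} := by
      apply Subalgebra.prod_mem
      intro T' _
      exact sub_mem (Algebra.subset_adjoin (by simp)) (Subalgebra.algebraMap_mem _ _)
    obtain ⟨mT, hmT⟩ := exists_pow_mul_mem_ic hgS (T := ringT t s pts T) (side_den hgS _ (by
      rintro y (hy | ⟨T', hT', hne, rfl⟩)
      · exact ⟨0, by rw [pow_zero, one_mul]; exact Algebra.subset_adjoin hy⟩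
      · refine ⟨1, ?_⟩
        have hmem : T' ∈ pts.erase T := Finset.mem_erase.2 ⟨hne, hT'⟩
        have e : g T ^ 1 * (s - algebraMap k K T'.2)⁻¹ =
            ∏ T'' ∈ (pts.erase T).erase T', (s - algebraMap k K T''.2) := by
          rw [pow_one, hg]
          simp only
          rw [← Finset.mul_prod_erase _ _ hmem]
          rw [mul_comm (s - algebraMap k K T'.2), mul_assoc, mul_inv_cancel₀ (hc.s_sub_ne T'.2), mul_one]
        rw [e]
        apply Subalgebra.prod_mem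
        intro T'' _
        exact sub_mem (Algebra.subset_adjoin (by simp)) (Subalgebra.algebraMap_mem _ _))) h1
    obtain ⟨α, hα, β, hβ, hαβ⟩ := hNT T _ hmT
    have hle : NT T ≤ N := Finset.le_sup (f := NT) hT
    refine ⟨mT, ∏ T' ∈ pts.erase T, (Polynomial.X - Polynomial.C T'.1) ^ N,
      (t - algebraMap k K T.1) ^ (N - NT T) * α, (t - algebraMap k K T.1) ^ (N - NT T) * β, ?_, ?_, ?_, ?_⟩
    · rw [hφ, Finset.mul_prod_erase _ (fun T' : k × k => (Polynomial.X - Polynomial.C T'.1) ^ N) hT]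
    · apply mul_mem _ hα
      apply pow_mem
      apply le_ic
      exact sub_mem (Algebra.subset_adjoin (by simp)) (Subalgebra.algebraMap_mem _ _)
    · apply mul_mem _ hβ
      apply pow_mem
      apply le_ic
      have e : t - algebraMap k K T.1 = (s - algebraMap k K T.2) * (sl t s T)⁻¹ := by
        unfold sl
        rw [inv_div, mul_div_cancel₀ _ (hc.s_sub_ne T.2)]
      rw [e]
      exact mul_mem (sub_mem (Algebra.subset_adjoin (by simp)) (Subalgebra.algebraMap_mem _ _))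
        (Algebra.subset_adjoin (by simp))
    · rw [← mul_add, ← hαβ, ← mul_assoc ((t - algebraMap k K T.1) ^ (N - NT T)), ← pow_add,
        Nat.sub_add_cancel hle]
  choose! mT φT α β hφT hα hβ hαβ using key
  set y : k × k → K := fun T => -(Polynomial.aeval t (φT T) * β T * (g T ^ mT T)⁻¹) with hy
  have hyV : ∀ T ∈ pts, y T ∈ ic (ringV t s pts) := by
    intro T hT
    apply neg_mem
    refine mul_mem (mul_mem (le_ic _ (side_aeval_mem (side_t_V pts) _)) (ic_mono (side_slinv_V hT) (hβ T hT))) ?_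
    apply le_ic
    rw [← inv_pow]
    exact pow_mem (hginv _ T fun T' hT' _ => side_inv_V hT') _
  obtain ⟨y₀, hy₀, hy₀T⟩ := glue hc pts inj y hyV
  -- the relation at `T`
  have hΦT : ∀ T ∈ pts, Φ = (t - algebraMap k K T.1) ^ N * Polynomial.aeval t (φT T) := by
    intro T hT
    rw [hΦ]
    conv_lhs => rw [hφT T hT]
    rw [map_mul, map_pow, map_sub, Polynomial.aeval_X, Polynomial.aeval_C]
  have hrel : ∀ T ∈ pts, Φ * D.ρ1 + y T - Φ * D.ρT T = Polynomial.aeval t (φT T) * α T * (g T ^ mT T)⁻¹ := by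
    intro T hT
    have h1 := hαβ T hT
    have h2 : g T ^ mT T ≠ 0 := pow_ne_zero _ (hg0 T)
    rw [hΦT T hT, hy]
    simp only
    field_simp
    linear_combination Polynomial.aeval t (φT T) * h1
  -- expansion at infinity
  have hz : y₀ + Φ * (D.ρ1 - D.ρ3) ∈ ic (ringL t s lines') := by
    apply add_mem
    · refine ic_mono (side_V_L pts lines lines' ?_) hy₀
      intro T hT
      rw [hl']
      exact Finset.mem_union_right _ (Finset.mem_image_of_mem (fun T : k × k => (T.2, (0 : k))) hT)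
    · apply mul_mem
      · have ht : t ∈ ringL t s lines' := Algebra.subset_adjoin (Or.inl (Or.inl rfl))
        exact le_ic _ (side_aeval_mem ht _)
      · have h2 := hD.h2
        rw [div_one, hDl] at h2
        exact ic_mono (side_L_L Finset.subset_union_left) h2
  obtain ⟨α₀, hα₀, c, hcI⟩ := hme _ hz
  refine ⟨Φ * D.ρ1 + y₀ - α₀, c, ?_, ?_, ?_, ?_⟩
  · change (Φ * D.ρ1 + y₀ - α₀ - Φ * D.ρ1) / 1 ∈ ic (ringV t s D.pts)
    rw [div_one, hDp]
    have e : Φ * D.ρ1 + y₀ - α₀ - Φ * D.ρ1 = y₀ - α₀ := by ring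
    rw [e]
    exact sub_mem hy₀ (ic_mono (side_pol_V pts) hα₀)
  · intro T hT
    have hT' : T ∈ pts := hDp ▸ hT
    change (Φ * D.ρ1 + y₀ - α₀ - Φ * D.ρT T) / 1 ∈ ic (locS t s T)
    have e : (Φ * D.ρ1 + y₀ - α₀ - Φ * D.ρT T) / 1 =
        (y₀ - y T) - α₀ + Polynomial.aeval t (φT T) * α T * (g T ^ mT T)⁻¹ := by
      rw [← hrel T hT']
      ring
    rw [e]
    refine add_mem (sub_mem (ic_mono (side_G_S inj hT') (hy₀T T hT')) (ic_mono (side_pol_S T) hα₀)) ?_
    refine mul_mem (mul_mem (le_ic _ (side_aeval_mem (side_t_S T) _)) (ic_mono (side_tsl_S T) (hα T hT'))) ?_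
    apply le_ic
    rw [← inv_pow]
    exact pow_mem (hginv _ T fun T' hT'' hne => side_inv_S fun h => hne (inj T hT' T' hT'' h).symm) _
  · intro T hT
    have hT' : T ∈ pts := hDp ▸ hT
    change (Φ * D.ρ1 + y₀ - α₀ - Φ * D.ρ1) / 1 ∈ ic (locE t s T)
    have e : (Φ * D.ρ1 + y₀ - α₀ - Φ * D.ρ1) / 1 = (y₀ - y T) + y T - α₀ := by ring
    rw [e]
    refine sub_mem (add_mem (ic_mono (side_G_E hc inj hT') (hy₀T T hT')) ?_) (ic_mono (side_pol_E hc T) hα₀)
    apply neg_mem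
    refine mul_mem (mul_mem (le_ic _ (side_aeval_mem (side_t_E T) _)) (ic_mono (side_slinv_le_E hc T) (hβ T hT'))) ?_
    apply le_ic
    rw [← inv_pow]
    exact pow_mem (hginv _ T fun T' hT'' hne => side_inv_E hc fun h => hne (inj T hT' T' hT'' h).symm) _
  · change (Φ * D.ρ1 + y₀ - α₀ - (Φ * D.ρ3 + ∑ j, Polynomial.aeval t (c j) * e j)) / 1 ∈ ic (locI k t s)
    have e' : (Φ * D.ρ1 + y₀ - α₀ - (Φ * D.ρ3 + ∑ j, Polynomial.aeval t (c j) * e j)) / 1 =
        y₀ + Φ * (D.ρ1 - D.ρ3) - α₀ - ∑ j, Polynomial.aeval t (c j) * e j := by ring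
    rw [e']
    exact hcI

end Pool.Agent.Lib.MP_4318ff_ag.Q
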