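import Pool.Agent.Lib.MP_4318ff_ag.Q.Defs

/-!
# Theorem S0: the interface between the transfer block (helper12) and the bridge to part A (helper10)
-/

set_option autoImplicit false

namespace Pool.Agent.Lib.MP_4318ff_ag.Q

/-- THEOREM S0 (`k = ℂ`). PROOF: `Q/CP.lean` (characteristic `p`) and transfer by ultraproducts (note 2293). -/
def S0Stmt : Prop := ∀ (K : Type) [Field K] [Algebra ℂ K] (t s u : K) (n κ : ℕ) (D D' : Fam ℂ K) (h : K ≃ₐ[ℂ] K),
  Coord ℂ t s → 0 < n → 0 < κ → u ^ n * t = 1 → D.Reg t s 1 → D'.Reg t⁻¹ (s / t) (u ^ κ) → Compat t s D D' →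
  h t = t → h s = s → (∀ z : K, AlgT ℂ t z → h z = z) →
  ∃ x : K, (D.map (fun y => h y - y)).Sol t s 1 x ∧ (D'.map (fun y => h y - y)).Sol t⁻¹ (s / t) (u ^ κ) x

end Pool.Agent.Lib.MP_4318ff_ag.Q
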