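import Pool.Agent.Lib.MP_4318ff_ag.Q.Basic
import Pool.Agent.Lib.MP_4318ff_ag.Q.SpecS0
import Pool.Agent.Lib.MP_4318ff_ag.Spec.A4

/-!
# The bridge from Theorem S0 to `S1Stmt ℂ`

Notation: `φ = algebraMap (F k) K`; a form is a vector `c : Fin 3 → k`, `c(T) = c ⬝ᵥ T.rep`; `P^⊥` = forms with `c(P) = 0`.
`l0, l1` = two lines of `C` through `P`, `c2` a general form. `t = ev l1 / ev l0`, `s = ev c2 / ev l0`. Side 1 = `(l0, l1)` (where `t` is regular),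
side 2 = `(l1, l0)`: its coordinates are `1/t = ev l0 / ev l1` and `s/t = ev c2 / ev l1`. Everything is symmetric under `l0 ↔ l1`.
Every `...Stmt` is the statement of one module (theorem of type `AStmt → BStmt → CStmt` for the statements quoted after USES; proved statements
of part A may also be imported as theorems).
-/

set_option autoImplicit false

namespace Pool.Agent.Lib.MP_4318ff_ag.Q

open MvPolynomial

/-- The image in `K` of a subalgebra of `F`. -/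
noncomputable def J {k : Type} [Field k] (K : Type) [Field K] [Algebra (F k) K] [Algebra k K] [IsScalarTower k (F k) K]
    (S : Subalgebra k (F k)) : Subalgebra k K :=
  S.map (IsScalarTower.toAlgHom k (F k) K)

/-- MODULE `Q/BConv` (150 lines). Comparison of the two languages. PROOF: (1) `S → J S` is bijective, so integrality over `S` and over `J S` are the same. (2) clear. (3) `cv (φ z) (φ w) = φ ∘ cm z w`; `mem_loc`.
(4) injectivity from `IsCoord`; `FF k (φ z) (φ w)` is the image of `F` (`IsCoord`), so `K` is finite over it, separable in characteristic 0. (5) `PF P` is generated by the quotients of forms of `P^⊥`, spanned by `l0, l1`; so it is `k(t)`, `t = ev l1 / ev l0`,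
and its image in `K` is `k(φ t)`. -/
def BConvStmt : Prop := ∀ (k : Type) [Field k] [CharZero k] (K : Type) [Field K] [Algebra (F k) K] [Algebra k K]
  [IsScalarTower k (F k) K] [FiniteDimensional (F k) K],
  (∀ (S : Subalgebra k (F k)) (x : K), x ∈ MP_4318ff_ag.ic K S ↔ x ∈ Q.ic (J K S)) ∧
  (∀ S S' : Subalgebra k (F k), S ≤ S' → J K S ≤ J K S') ∧
  (∀ (z w : F k) (p : MvPolynomial (Fin 2) k) (O : Subalgebra k (F k)), IsCoord z w → IsLoc z w p O →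
    J K O = loc (algebraMap (F k) K z) (algebraMap (F k) K w) p) ∧
  (∀ z w : F k, IsCoord z w → Coord k (algebraMap (F k) K z) (algebraMap (F k) K w)) ∧
  (∀ (P : Pt k) (l0 l1 : Fin 3 → k), LinearIndependent k ![l0, l1] → l0 ⬝ᵥ P.rep = 0 → l1 ⬝ᵥ P.rep = 0 → ∀ z : K,
    AlgT k (algebraMap (F k) K (ev l1 / ev l0)) z ↔ IsAlgebraic (PF P) z)

/-- The frame of the pencil `P`; `Ms` = the set of the multiple points. -/
structure Fr {k : Type} [Field k] {r : ℕ} (C : Config k r) (Ms : Finset (Pt k)) (P : Pt k) (l0 l1 c2 : Fin 3 → k) : Prop where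
  mem : ∀ T, T ∈ Ms ↔ T ∈ C.M
  hP : P ∈ Ms
  li : LinearIndependent k ![l0, l1, c2]
  p0 : l0 ⬝ᵥ P.rep = 0
  p1 : l1 ⬝ᵥ P.rep = 0
  c2T : ∀ T ∈ Ms, c2 ⬝ᵥ T.rep ≠ 0
  s0 : ∀ T ∈ Ms, ∀ T' ∈ Ms, l0 ⬝ᵥ T.rep ≠ 0 → l0 ⬝ᵥ T'.rep ≠ 0 →
    (c2 ⬝ᵥ T.rep) * (l0 ⬝ᵥ T'.rep) = (c2 ⬝ᵥ T'.rep) * (l0 ⬝ᵥ T.rep) → T = T'
  s1 : ∀ T ∈ Ms, ∀ T' ∈ Ms, l1 ⬝ᵥ T.rep ≠ 0 → l1 ⬝ᵥ T'.rep ≠ 0 →
    (c2 ⬝ᵥ T.rep) * (l1 ⬝ᵥ T'.rep) = (c2 ⬝ᵥ T'.rep) * (l1 ⬝ᵥ T.rep) → T = T'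

theorem Fr.symm {k : Type} [Field k] {r : ℕ} {C : Config k r} {Ms : Finset (Pt k)} {P : Pt k} {l0 l1 c2 : Fin 3 → k}
    (h : Fr C Ms P l0 l1 c2) : Fr C Ms P l1 l0 c2 := by
  refine ⟨h.mem, h.hP, ?_, h.p1, h.p0, h.c2T, h.s1, h.s0⟩
  have h1 := h.li
  have h2 : (![l1, l0, c2] : Fin 3 → Fin 3 → k) = ![l0, l1, c2] ∘ (Equiv.swap (0 : Fin 3) 1) := by
    funext i
    fin_cases i <;> rfl
  rw [h2]
  exact h1.comp _ (Equiv.injective _)

/-- MODULE `Q/BFr` (120 lines). Existence of a frame. PROOF: `Ms = hM.toFinset`. `c2` has to avoid finitely many proper subspaces of `k^3` (`k` infinite; Mathlib: a vector space over an infinite field is not a finite union of proper subspaces,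
`Subspace.biUnion_ne_univ_of_top_nmem` or similar): the plane spanned by `l0, l1`, the planes `c2(T) = 0`, and for `T ≠ T'` in `Ms` not on `l0` the plane `c2(l0(T') T.rep - l0(T) T'.rep) = 0` (the vector is not zero because
`T ≠ T'` are different points), the same for `l1`. -/
def BFrStmt : Prop := ∀ (k : Type) [Field k] [Infinite k] (r : ℕ) (C : Config k r) (Ms : Finset (Pt k)) (P : Pt k) (l0 l1 : Fin 3 → k),
  (∀ T, T ∈ Ms ↔ T ∈ C.M) → P ∈ Ms → LinearIndependent k ![l0, l1] → l0 ⬝ᵥ P.rep = 0 → l1 ⬝ᵥ P.rep = 0 →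
  ∃ c2, Fr C Ms P l0 l1 c2

section Charts

variable {k : Type} [Field k] {r : ℕ} {C : Config k r} {Ms : Finset (Pt k)} {P : Pt k} {l0 l1 c2 : Fin 3 → k}

/-- The form through `T` in the pencil spanned by `c` and `d`. -/
noncomputable def lin2 (T : Pt k) (c d : Fin 3 → k) : Fin 3 → k := (c ⬝ᵥ T.rep) • d - (d ⬝ᵥ T.rep) • c

theorem lin2_through (T : Pt k) (c d : Fin 3 → k) : lin2 T c d ⬝ᵥ T.rep = 0 := by
  unfold lin2
  rw [sub_dotProduct, smul_dotProduct, smul_dotProduct, smul_eq_mul, smul_eq_mul]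
  ring

theorem lin2_ne {T : Pt k} {c d : Fin 3 → k} (h : LinearIndependent k ![c, d]) (hc : c ⬝ᵥ T.rep ≠ 0) : lin2 T c d ≠ 0 := by
  intro h0
  unfold lin2 at h0
  rw [LinearIndependent.pair_iff] at h
  have h1 := h (-(d ⬝ᵥ T.rep)) (c ⬝ᵥ T.rep) (by rw [neg_smul, neg_add_eq_sub]; exact h0)
  exact hc h1.2

theorem Fr.li01 (h : Fr C Ms P l0 l1 c2) : LinearIndependent k ![l0, l1] := by
  have h2 : (![l0, l1] : Fin 2 → Fin 3 → k) = ![l0, l1, c2] ∘ ![0, 1] := by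
    funext i
    fin_cases i <;> rfl
  rw [h2]
  exact h.li.comp _ (by intro i j; fin_cases i <;> fin_cases j <;> simp)

theorem Fr.li02 (h : Fr C Ms P l0 l1 c2) : LinearIndependent k ![l0, c2] := by
  have h2 : (![l0, c2] : Fin 2 → Fin 3 → k) = ![l0, l1, c2] ∘ ![0, 2] := by
    funext i
    fin_cases i <;> rfl
  rw [h2]
  exact h.li.comp _ (by intro i j; fin_cases i <;> fin_cases j <;> simp)

theorem Fr.l0_ne (h : Fr C Ms P l0 l1 c2) : l0 ≠ 0 := h.li01.ne_zero 0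

theorem Fr.c2_ne (h : Fr C Ms P l0 l1 c2) : c2 ≠ 0 := h.li02.ne_zero 1

open Classical in
/-- Chart 1. -/
noncomputable def chV (h : Fr C Ms P l0 l1 c2) : Chart C where
  b := l0
  b_ne := h.l0_ne
  a := fun T => if l0 ⬝ᵥ T.rep = 0 then l0 else lin2 T l0 c2
  a_ne := by
    intro T hT
    split_ifs with h0
    · exact h.l0_ne
    · exact lin2_ne h.li02 h0
  a_through := by
    intro T hT
    split_ifs with h0
    · exact h0
    · exact lin2_through T l0 c2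

open Classical in
/-- The chart at the point `T₀`. -/
noncomputable def chW (h : Fr C Ms P l0 l1 c2) (T₀ : Pt k) : Chart C where
  b := l0
  b_ne := h.l0_ne
  a := fun T => if l0 ⬝ᵥ T.rep = 0 then l0 else if T = T₀ then lin2 T l0 l1 else lin2 T l0 c2
  a_ne := by
    intro T hT
    split_ifs with h0 h1
    · exact h.l0_ne
    · exact lin2_ne h.li01 h0
    · exact lin2_ne h.li02 h0
  a_through := by
    intro T hT
    split_ifs with h0 h1
    · exact h0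
    · exact lin2_through T l0 l1
    · exact lin2_through T l0 c2

open Classical in
/-- The chart at `s = ∞`. -/
noncomputable def ch3 (h : Fr C Ms P l0 l1 c2) : Chart C where
  b := c2
  b_ne := h.c2_ne
  a := fun T => if T = P then l0 else if l0 ⬝ᵥ T.rep = 0 then
      (if l1 ⬝ᵥ T.rep = 0 then l0 else lin2 T l1 c2) else lin2 T l0 c2
  a_ne := by
    intro T hT
    split_ifs with h0 h1 h2
    · exact h.l0_ne
    · exact h.l0_ne
    · exact lin2_ne h.symm.li02 h2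
    · exact lin2_ne h.li02 h1
  a_through := by
    intro T hT
    split_ifs with h0 h1 h2
    · rw [h0]; exact h.p0
    · exact h1
    · exact lin2_through T l1 c2
    · exact lin2_through T l0 c2

/-- The coordinates of the point `T`. -/
noncomputable def ptOf (l0 l1 c2 : Fin 3 → k) (T : Pt k) : k × k :=
  ((l1 ⬝ᵥ T.rep) / (l0 ⬝ᵥ T.rep), (c2 ⬝ᵥ T.rep) / (l0 ⬝ᵥ T.rep))

open Classical in
/-- The points of the side. -/
noncomputable def ptsOf (Ms : Finset (Pt k)) (l0 l1 c2 : Fin 3 → k) : Finset (k × k) :=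
  (Ms.filter (fun T => l0 ⬝ᵥ T.rep ≠ 0)).image (ptOf l0 l1 c2)

open Classical in
/-- The lines excluded near `s = ∞`. -/
noncomputable def linesOf (Ms : Finset (Pt k)) (P : Pt k) (l0 l1 c2 : Fin 3 → k) : Finset (k × k) :=
  insert (0, 0) ((Ms.filter (fun T => l0 ⬝ᵥ T.rep ≠ 0)).image (fun T => ((c2 ⬝ᵥ T.rep) / (l0 ⬝ᵥ T.rep), 0)) ∪
    (Ms.filter (fun T => l0 ⬝ᵥ T.rep = 0 ∧ T ≠ P)).image (fun T => (0, (c2 ⬝ᵥ T.rep) / (l1 ⬝ᵥ T.rep))))

open Classical in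
/-- The family on one side given by a function on the charts. -/
noncomputable def famOf {K : Type} [Field K] (h : Fr C Ms P l0 l1 c2) (ρ : Chart C → K) : Fam k K where
  pts := ptsOf Ms l0 l1 c2
  lines := linesOf Ms P l0 l1 c2
  ρ1 := ρ (chV h)
  ρ3 := ρ (ch3 h)
  ρT := fun c => if hT : ∃ T ∈ Ms, l0 ⬝ᵥ T.rep ≠ 0 ∧ ptOf l0 l1 c2 T = c then ρ (chW h hT.choose) else 0

end Charts

/-- MODULE `Q/BInc` (250 lines). The chart rings in coordinates. `t = φ(ev l1/ev l0)`, `s = φ(ev c2/ev l0)`; `ev` is linear. PROOF: `Algebra.adjoin_le` on the generators of `J (u.R)` (images of the generators). Every form is `α l0 + β l1 + γ c2`, so `ev c/ev l0 = α + β t + γ s`.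
For `T` with `l0(T) ≠ 0`, `(t_T, s_T) = ptOf T`: `lin2 T l0 c2/l0 = l0(T)(s - s_T)`, `lin2 T l0 l1/l0 = l0(T)(t - t_T)` and these two forms span `T^⊥`; for `T` with `l0(T) = 0`: `T^⊥` is spanned by `l0` and (if `T ≠ P`) `lin2 T l1 c2`, `lin2 T l1 c2/l0 = l1(T) (s - s'_T t)`, `s'_T = c2(T)/l1(T)` (`l1(T) ≠ 0` if `T ≠ P`, `l0(T) = 0`: `P` is the only point
on both lines), `P^⊥` by `l0, l1`. (1) `chV`: generators `t, s`, `(t - t_T)/(s - s_T)`, and polynomials in `t, s` for `l0(T) = 0` (`a T = l0`). (2) `ch3`: `1/s`, `t/s`, `t`, `(t - t_T)/(s - s_T)`, `1/(s - s'_T t)`. (3) `chW T₀`: as `chV` with `σ = (s - s_(T₀))/(t - t_(T₀))` instead of `1/σ`.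
(4) (5) (6) (7) union of the generators of both sides; for the other side `1/t`, `s/t`, `(1/t - 1/t_T …)`: with `l1(T) ≠ 0`: `lin2 T l1 c2/l1 = l1(T)(s/t - s'_T)`, `lin2 T l1 l0/l1 = l1(T)(1/t - l0(T)/l1(T))`. At the line `s = s_T` (`X₁ - s_T`, `l0(T) ≠ 0`): all `s - s_(T')`, `T' ≠ T`, all `s - s'_(T') t` (`s_T ≠ 0`) and `t` are units of `loc`.
At `s = s'_T t`: the same. At infinity (`locI`, coordinates `t, 1/s`): `1/s ∈ locI`, `1/(s - c - c' t) = (1/s)/(1 - (c + c' t)/s)`, the denominator is a unit. -/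
def BIncStmt : Prop := ∀ (k : Type) [Field k] (K : Type) [Field K] [Algebra (F k) K] [Algebra k K]
  [IsScalarTower k (F k) K] (r : ℕ) (C : Config k r) (Ms : Finset (Pt k)) (P : Pt k) (l0 l1 c2 : Fin 3 → k)
  (h : Fr C Ms P l0 l1 c2),
  let t := algebraMap (F k) K (ev l1 / ev l0)
  let s := algebraMap (F k) K (ev c2 / ev l0)
  Coord k t s →
  t ∈ J K (chV h).R ∧ (∀ T₀, t ∈ J K (chW h T₀).R) ∧ t ∈ J K (ch3 h).R ∧
  J K (chV h).R ≤ ringV t s (ptsOf Ms l0 l1 c2) ∧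
  J K ((chV h).R ⊔ (ch3 h).R) ≤ ringL t s (linesOf Ms P l0 l1 c2) ∧
  (∀ T ∈ Ms, l0 ⬝ᵥ T.rep ≠ 0 → J K ((chV h).R ⊔ (chW h T).R) ≤ ringT t s (ptsOf Ms l0 l1 c2) (ptOf l0 l1 c2 T)) ∧
  J K ((chV h).R ⊔ (chV h.symm).R) ≤ Algebra.adjoin k ({t, t⁻¹, s} ∪
      {x | ∃ T ∈ ptsOf Ms l0 l1 c2, x = (s - algebraMap k K T.2)⁻¹} ∪
      {x | ∃ T ∈ ptsOf Ms l1 l0 c2, x = (s - algebraMap k K T.2 * t)⁻¹}) ∧
  (∀ T ∈ Ms, l0 ⬝ᵥ T.rep ≠ 0 → J K ((chW h T).R ⊔ (chV h.symm).R) ≤ loc t s (X 1 - MvPolynomial.C (ptOf l0 l1 c2 T).2)) ∧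
  (∀ T ∈ Ms, l1 ⬝ᵥ T.rep ≠ 0 → J K ((chV h).R ⊔ (chW h.symm T).R) ≤ loc t s (X 1 - MvPolynomial.C (ptOf l1 l0 c2 T).2 * X 0)) ∧
  J K ((ch3 h).R ⊔ (ch3 h.symm).R) ≤ locI k t s

/-- MODULE `Q/BReg` (100 lines). USES `BIncStmt`. Regularity and compatibility of the families of a function `ρ` on charts whose differences are integral. PROOF: `Fam.Reg.inj`: `ptsOf` and `s0` of the frame. `h1`: for `c ∈ pts` the chosen `T` has `ptOf T = c`; `J((chV).R ⊔ (chW T).R) ≤ ringT` and `ic_mono`; `ρ a - ρ b` and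
`ρ b - ρ a`. `h2`: the same. Compat: `ne`: `c2(T) ≠ 0`. `c1, …, c4`: the inclusions (both `t` and `1/t` lie in the rings; for `c2` the chosen point of `chW`). -/
def BRegStmt : Prop := ∀ (k : Type) [Field k] (K : Type) [Field K] [Algebra (F k) K] [Algebra k K]
  [IsScalarTower k (F k) K] (r : ℕ) (C : Config k r) (Ms : Finset (Pt k)) (P : Pt k) (l0 l1 c2 : Fin 3 → k)
  (h : Fr C Ms P l0 l1 c2) (v : K) (ρ : Chart C → K),
  let t := algebraMap (F k) K (ev l1 / ev l0)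
  let s := algebraMap (F k) K (ev c2 / ev l0)
  Coord k t s →
  (∀ a b : Chart C, t ∈ J K (a.R ⊔ b.R) → (ρ a - ρ b) / v ∈ Q.ic (J K (a.R ⊔ b.R))) →
  (famOf h ρ).Reg t s v ∧
  (v = 1 → Compat t s (famOf h ρ) (famOf h.symm ρ))

/-- MODULE `Q/BPF` (150 lines). Partial fractions. `w i` (`i` through `P`, `i ≠ i₀`) are `n`-th roots of `ℓ_i/ℓ_(i₀)`. PROOF: `R = u.R ⊔ v.R`, `t = ℓ_(i₁)/ℓ_(i₀) ∈ J R` (any `i₁` through `P`, `i₁ ≠ i₀`); `ℓ_i/ℓ_(i₀) = α_i + β_i t`, `β_i ≠ 0`, so `w i ∈ ic R`, and `w i` lies in the Kummer field, `D (w i) ∈ ic K R` (`Pres`); `n (w i)^(n-1) D(w i) = β_i D t`.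
The linear polynomials `e_i = α_i + β_i X` are pairwise not proportional (the lines are different), so `1/∏ e_i = ∑ κ_i/e_i` with `κ_i ∈ k` (`κ_i = β_i^(..)/∏ …`; if the index set is empty the product is 1 and there is nothing to prove; Lagrange interpolation of the constant 1). So
`D t/∏ (w i)^(n-1) = D t ∏ w_i/∏ e_i(t) = ∑_i κ_i (∏_(j ≠ i) w_j) D t/(w i)^(n-1) = ∑_i κ_i (∏_(j≠i) w_j) (n/β_i) D(w i) ∈ ic K R`. (The index set `{i ∈ through P, i ≠ i₀}` is not empty because it contains `i₁`.) -/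
def BPFStmt : Prop := ∀ (k : Type) [Field k] [CharZero k] (r n : ℕ) (C : Config k r) (K : Type) [Field K] [Algebra (F k) K]
  [Algebra k K] [IsScalarTower k (F k) K] (P : Pt k) (i₀ i₁ : Fin r) (I : Finset (Fin r)) (w : Fin r → K), 0 < n →
  i₀ ∈ C.through P → i₁ ∈ C.through P → i₀ ≠ i₁ → (∀ i, i ∈ I ↔ i ∈ C.through P ∧ i ≠ i₀) →
  (∀ i ∈ I, w i ^ n = algebraMap (F k) K (ev (C.ℓ i) / ev (C.ℓ i₀))) →
  ∀ (u v : Chart C) (D : Derivation k K K),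
  (∀ x ∈ MP_4318ff_ag.ic K (u.R ⊔ v.R), x ∈ Kummer K C n → D x ∈ MP_4318ff_ag.ic K (u.R ⊔ v.R)) →
  ev (C.ℓ i₁) / ev (C.ℓ i₀) ∈ u.R ⊔ v.R →
  D (algebraMap (F k) K (ev (C.ℓ i₁) / ev (C.ℓ i₀))) / (∏ i ∈ I, w i) ^ (n - 1) ∈ MP_4318ff_ag.ic K (u.R ⊔ v.R)

/-- MODULE `Q/BAvg` (100 lines). From single automorphisms to the average. `G` a finite set of automorphisms which all fix `t, s, v, v'`, `∑_(h ∈ G) h (ρ a) = 0` for all members of the families, `x_h` solutions of the families `h ρ - ρ`. PROOF: `x = - (1/|G|) ∑ x_h`: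
`x - ρ = - (1/|G|) ∑_h (x_h - (h ρ - ρ))` because `∑_h (h ρ - ρ) = - |G| ρ`. (`G` not empty, characteristic 0; `Q.ic` is a `k`-algebra.) -/
def BAvgStmt : Prop := ∀ (k : Type) [Field k] [CharZero k] (K : Type) [Field K] [Algebra k K] (t s v : K) (D : Fam k K)
  (G : Finset (K ≃ₐ[k] K)) (x : (K ≃ₐ[k] K) → K), G.Nonempty →
  (∑ h ∈ G, h D.ρ1 = 0) → (∑ h ∈ G, h D.ρ3 = 0) → (∀ T, ∑ h ∈ G, h (D.ρT T) = 0) →
  (∀ h ∈ G, (D.map (fun y => h y - y)).Sol t s v (x h)) →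
  D.Sol t s v (algebraMap k K (-((G.card : k)⁻¹)) * ∑ h ∈ G, x h)

/-- MODULE `Q/BDiv` (200 lines). USES `CurveStmt`, `ExcStmt`, `EvStmt`, `CoordStmt`, `BConvStmt`, `BIncStmt`. A solution of the family of `ρ` solves `ρ` at all divisors where `t` is regular. `v ≠ 0` arbitrary. PROOF: `O` a divisor with `t = ev l1/ev l0 ∈ O`. (a) `O` a curve. Then `l0` is a unit form at `O`: otherwise (`CurveStmt`) `l1` is a unit form
and `ev l0/ev l1` is a uniformiser, so `t ∉ O`. So `IsLoc t s p O` with an irreducible `p` (`CurveStmt`, basis `l0, l1, c2`), `J O = loc (φ t) (φ s) p` (`BConvStmt`). If `p` is not associated to `X₁ - s_T` for a point `T` of the side, `J (chV).R ≤ ringV ≤ loc` (`ringV_le_loc`): take `a = chV`: `(x - ρ a)/v ∈ ic (ringV) ≤ ic (J O)` (`s1`).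
If `p` is associated to `X₁ - s_T`, `loc … p = loc … (X₁ - s_T)`, `a = chW T` (the chosen point of the family is `T`), `(x - ρ a)/v ∈ ic (J O)` by `s2`, and `(chW T).R ≤ O` by `BIncStmt`. (b) `O` exceptional over `T ∈ C.M`, `T ≠ P`: `l0(T) ≠ 0` (otherwise `l1(T) ≠ 0`, `l1` is a unit form and `ev l0/ev l1` a uniformiser (`ExcStmt`), `t ∉ O`).
`IsLoc (t - t_T) (σ) (X 0) O` up to constants (`ExcStmt` with `b = l0`, `c = lin2 T l0 l1`, `d = lin2 T l0 c2`), so `J O = locE t s (ptOf T)` (change of the coordinate `t - t_T` to `t`), `a = chV`, `(chV).R ≤ O`, `s3`. (c) `O` exceptional over `P`: `ExcStmt` with `b = c2`, `c = l0`, `d = l1`: `IsLoc (ev l0/ev c2) (ev l1/ev l0) (X 0) O`, i.e.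
coordinates `1/s, t` and the prime `X 0`; `J O = locI (φ t) (φ s)` (swap of the coordinates), `a = ch3`, `(ch3).R ≤ O`, `s4`. In all cases: for the given chart `u` with `u.R ≤ O`: `(ρ u - ρ a)/v ∈ ic (J (u.R ⊔ a.R)) ≤ ic (J O)` (`t ∈ J a.R`), so `(x - ρ u)/v ∈ ic (J O)`. -/
def BDivStmt : Prop := ∀ (k : Type) [Field k] [CharZero k] (K : Type) [Field K] [Algebra (F k) K] [Algebra k K]
  [IsScalarTower k (F k) K] [FiniteDimensional (F k) K] (r : ℕ) (C : Config k r) (Ms : Finset (Pt k)) (P : Pt k)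
  (l0 l1 c2 : Fin 3 → k) (h : Fr C Ms P l0 l1 c2) (v x : K) (ρ : Chart C → K),
  let t := algebraMap (F k) K (ev l1 / ev l0)
  let s := algebraMap (F k) K (ev c2 / ev l0)
  (∀ a b : Chart C, t ∈ J K (a.R ⊔ b.R) → (ρ a - ρ b) / v ∈ Q.ic (J K (a.R ⊔ b.R))) →
  (famOf h ρ).Sol t s v x →
  ∀ (u : Chart C) (O : Subalgebra k (F k)), IsDiv C O → u.R ≤ O → ev l1 / ev l0 ∈ O → (x - ρ u) / v ∈ MP_4318ff_ag.ic K O

/-- MODULE `Q/BRegAt` (200 lines). USES `EvStmt`, `CurveStmt`, `ExcStmt`, `UnifStmt`. PROOF: `φ`, `e_i = ev ℓ_i/ev ℓ_(i₀) = α_i + β_i t`, `t = e_(i₁) ∈ O`, so all quotients `ev c/ev ℓ_(i₀)`, `c ∈ P^⊥`, lie in `O`. `O` is a valuation ring (`UnifStmt`). `Δ(φ t) = (∏ w_i)^(n-1) y`, `w_i ∈ ic K O`, so `Δ(φ t) ∈ ic K O`. First item of `RegAt`: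
`c/c' ∈ O`, `c, c' ∈ P^⊥`: `c/c' = (γ + δ t)/(γ' + δ' t)`; if `γ' + δ' t` is a unit of `O` the quotient rule gives `Δ ∈ ic`; otherwise (`c/c' ∈ O`, numerator also a nonunit, so numerator and denominator are proportional: two independent linear polynomials in `t` generate the unit ideal) `c/c'` is constant.
Second item: `λ = ℓ_i/ℓ_j ∈ O`, `z^n = φ λ`, `i, j` through `P`; `i = j`: `z` is a root of unity times 1, `Δ z = 0` (`n z^(n-1) Δ z = 0`). `i ≠ j`: `e_j` is a unit of `O` (as before; `e_(i₀) = 1`). If `e_i` is a unit too: `z, 1/z ∈ ic K O`, `Δ z = Δ(φ λ)/(n z^(n-1))`, `Δ(φ λ) ∈ ic`. If `e_i` is not a unit (`i ≠ i₀`): `z = w_i ε`, `ε^n = 1/e_j` up to …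
(`(z/w_i)^n = φ(e_i/e_j)/φ(e_i) = φ(1/e_j)`), so `ε, 1/ε ∈ ic K O`; `Δ(φ λ) = λ'(t) Δ(φ t)` with `λ'(t) ∈ O` and `Δ(φ t) ∈ w_i^(n-1) ic K O`: `Δ z = Δ(φ λ)/(n z^(n-1)) ∈ ic K O`. -/
def BRegAtStmt : Prop := ∀ (k : Type) [Field k] [CharZero k] (r n : ℕ) (C : Config k r) (K : Type) [Field K] [Algebra (F k) K]
  [Algebra k K] [IsScalarTower k (F k) K] (P : Pt k) (i₀ i₁ : Fin r) (I : Finset (Fin r)) (w : Fin r → K) (y : K)
  (O : Subalgebra k (F k)) (Δ : Derivation k K K), 0 < n →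
  i₀ ∈ C.through P → i₁ ∈ C.through P → i₀ ≠ i₁ → (∀ i, i ∈ I ↔ i ∈ C.through P ∧ i ≠ i₀) →
  (∀ i ∈ I, w i ^ n = algebraMap (F k) K (ev (C.ℓ i) / ev (C.ℓ i₀))) →
  IsDiv C O → ev (C.ℓ i₁) / ev (C.ℓ i₀) ∈ O → y ∈ MP_4318ff_ag.ic K O →
  Δ (algebraMap (F k) K (ev (C.ℓ i₁) / ev (C.ℓ i₀))) = (∏ i ∈ I, w i) ^ (n - 1) * y → RegAt C n P O Δ

/-- MODULE `Q/BS1` (250 lines). USES all statements above, `S0Stmt`, `CoordStmt`, `EvStmt`, `UnifStmt`, `CurveStmt`, `ExcStmt`, `MFinStmt`. PROOF: (1) choose `i₀ ≠ i₁` through `P`, `l0 = ℓ_(i₀)`, `l1 = ℓ_(i₁)`, a frame `c2`, `t = φ(ev l1/ev l0)`, `s = φ(ev c2/ev l0)`; `Coord` (`CoordStmt`, `BConvStmt`). Choose `υ` with `υ^n = φ(ev l0/ev l1) = 1/t`, roots `w_i^n = φ(ev ℓ_i/ev l0)` for `i` through `P`,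
`i ≠ i₀`, with `w_(i₁) = 1/υ`, and `w'_i^n = φ(ev ℓ_i/ev l1)` for `i ≠ i₁`: `w'_(i₀) = υ`, `w'_i = w_i υ`. `g = (∏ w_i)^(n-1)`, `g' = (∏ w'_i)^(n-1) = g υ^((n-1) m)`, `m` = number of lines through `P`, `m ≥ 3`. `κ = (n-1) m - 2n ≥ n - 3 ≥ 1`.
(2) fix a chart `u₀`; `ρ a = D u₀ a (t)/g`. `ρ a - ρ b = D b a (t)/g`. If `t ∈ J(a.R ⊔ b.R)`: integral (`BPFStmt`). If `1/t ∈ J(a.R ⊔ b.R)`: `D(1/t) = - D(t)/t² = - υ^(2n) D t`, so `D(1/t)/g' = - (D t/g)/υ^κ`, integral by `BPFStmt` for `(i₁, i₀)`: `(ρ a - ρ b)/υ^κ` is integral. (`ev l0/ev l1 ∈ u.R ⊔ v.R` iff its image lies in `J`.)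
(3) `BRegStmt` for `h` and `v = 1`, and for `h.symm` and `v = υ^κ`: `Reg t s 1`, `Compat`, `Reg t⁻¹ (s/t) (υ^κ)` (`φ(ev c2/ev l1) = s/t`). (4) for every `g ∈ N_P` (as a `k`-automorphism of `K`): it fixes `t, s` and all elements algebraic over `k(t)` (`BConvStmt` (5)); `S0Stmt` gives `x_g`. `∑_(g ∈ N_P) g(ρ a) = 0`: the average of `D u₀ a` over `N_P` is `0`,
`(conjD g D)(φ f) = g (D (φ f))`, and `g` fixes `w_i` (algebraic over `k(t)`). `BAvgStmt` on both sides with the same `x`. (5) `Δ u` := a derivation with `Δ u (t) = g (ρ u - x)`, `Δ u (s) = 0` (`DerVStmt` or `Q/ExDer`). `D u v (t) = g (ρ v - ρ u) = (Δ v - Δ u)(t)`, so `EqOn P` (every `c/c'`, `c, c' ∈ P^⊥`, is a fraction in `t`; `PenStmt`). (6) `RegAt C n P O (Δ u)`: `O` is a valuation ring: `t ∈ O`: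
`BDivStmt` (side 1, `v = 1`) and `BRegAtStmt` with `y = ρ u - x` (sign). `1/t ∈ O`: `Δ u (1/t) = - υ^(2n) g (ρ u - x) = - g' (ρ u - x)/υ^κ`, `BDivStmt` (side 2, `v = υ^κ`), `BRegAtStmt` for `(i₁, i₀)`. -/
def BS1Stmt : Prop := S0Stmt → S1Stmt ℂ

end Pool.Agent.Lib.MP_4318ff_ag.Q
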