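import Pool.Agent.Lib.MP_4318ff_ag.Q.UEval
import Pool.Agent.Lib.MP_4318ff_ag.Q.Basic

/-!
# Transfer of generated subalgebras and of integral closures

PROOF. `Tr_adjoin`: `Algebra.adjoin_induction`: the set of all `z` all of whose representatives are eventually in `Si i` contains the constants (`z = algebraMap c`, `c = lim a`, `R_const`, `R_eq`), is closed under
sums and products (represent the summands, `R_add`, `R_mul`, `R_eq`). `Tr_ic`: `z ∈ ic S`: a monic equation `z^m + ∑_(l<m) a_l z^l = 0`, `a_l ∈ S` (`mem_ic_iff_poly`); represent `a_l` by `b_l`; eventually `b_l i ∈ Si i` for all `l < m`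
(`Filter.eventually_all_finset`) and `w i ^ m + ∑ b_l i * w i ^ l = 0` (`R_add`, `R_sum`, `R_mul`, `R_pow`, `R_zero`, `R_eq`).
-/

set_option autoImplicit false

namespace Pool.Agent.Lib.MP_4318ff_ag.Q

open Filter MvPolynomial

variable {I : Type} {U : Ultrafilter I} {κ : I → Type} [∀ i, Field (κ i)] {k : Type} [Field k] {L : LimD U κ k}
  {K : Type} [Field K] [Algebra k K] {Ki : I → Type} [∀ i, Field (Ki i)] [∀ i, Algebra (κ i) (Ki i)]

private theorem uadj_mem_ic {k' K' : Type} [Field k'] [Field K'] [Algebra k' K'] {S : Subalgebra k' K'} {m : ℕ}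
    {b : ℕ → K'} {x : K'} (hb : ∀ l ∈ Finset.range m, b l ∈ S)
    (hx : x ^ m + ∑ l ∈ Finset.range m, b l * x ^ l = 0) : x ∈ ic S := by
  rw [mem_ic_iff_poly]
  refine ⟨Polynomial.X ^ m + ∑ l ∈ Finset.range m, Polynomial.C (b l) * Polynomial.X ^ l, ?_, ?_, ?_⟩
  · apply Polynomial.monic_X_pow_add
    refine lt_of_le_of_lt (Polynomial.degree_sum_le _ _) ?_
    refine (Finset.sup_lt_iff (WithBot.bot_lt_coe m)).2 fun l hl => ?_
    refine lt_of_le_of_lt (Polynomial.degree_C_mul_X_pow_le l (b l)) ?_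
    exact WithBot.coe_lt_coe.2 (Finset.mem_range.1 hl)
  · intro j
    rw [Polynomial.coeff_add, Polynomial.coeff_X_pow, Polynomial.finsetSum_coeff]
    refine add_mem ?_ (sum_mem fun l hl => ?_)
    · split_ifs
      · exact one_mem _
      · exact zero_mem _
    · rw [Polynomial.coeff_C_mul_X_pow]
      split_ifs
      · exact hb l hl
      · exact zero_mem _
  · rw [← hx, Polynomial.eval_add, Polynomial.eval_pow, Polynomial.eval_X, Polynomial.eval_finsetSum]
    refine congrArg _ (Finset.sum_congr rfl fun l _ => ?_)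
    rw [Polynomial.eval_mul, Polynomial.eval_C, Polynomial.eval_pow, Polynomial.eval_X]

theorem Tr_adjoin (E : Emb L K Ki) {T : Set K} {Si : ∀ i, Subalgebra (κ i) (Ki i)}
    (h : ∀ z ∈ T, ∀ w, E.R z w → ∀ᶠ i in (U : Filter I), w i ∈ Si i) : E.Tr (Algebra.adjoin k T) Si := by
  intro z hz
  refine Algebra.adjoin_induction (p := fun z _ => ∀ w, E.R z w → ∀ᶠ i in (U : Filter I), w i ∈ Si i) ?_ ?_ ?_ ?_ hz
  · intro x hx
    exact h x hx
  · intro c w hw
    obtain ⟨a, rfl⟩ := L.surj c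
    filter_upwards [E.R_eq hw (E.R_const a)] with i hi
    rw [hi]
    exact (Si i).algebraMap_mem _
  · intro x y _ _ hx hy w hw
    obtain ⟨u, hu⟩ := E.exists_R x
    obtain ⟨v, hv⟩ := E.exists_R y
    filter_upwards [E.R_eq hw (E.R_add hu hv), hx u hu, hy v hv] with i h1 h2 h3
    rw [h1]
    exact add_mem h2 h3
  · intro x y _ _ hx hy w hw
    obtain ⟨u, hu⟩ := E.exists_R x
    obtain ⟨v, hv⟩ := E.exists_R y
    filter_upwards [E.R_eq hw (E.R_mul hu hv), hx u hu, hy v hv] with i h1 h2 h3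
    rw [h1]
    exact mul_mem h2 h3

/-- It is enough to know one representative of every generator. -/
theorem Tr_adjoin' (E : Emb L K Ki) {T : Set K} {Si : ∀ i, Subalgebra (κ i) (Ki i)}
    (h : ∀ z ∈ T, ∃ w, E.R z w ∧ ∀ᶠ i in (U : Filter I), w i ∈ Si i) : E.Tr (Algebra.adjoin k T) Si := by
  refine Tr_adjoin E fun z hz w hw => ?_
  obtain ⟨w', hw', h'⟩ := h z hz
  filter_upwards [E.R_eq hw hw', h'] with i h1 h2
  rw [h1]
  exact h2

theorem Tr_ic (E : Emb L K Ki) {S : Subalgebra k K} {Si : ∀ i, Subalgebra (κ i) (Ki i)} (h : E.Tr S Si) :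
    E.Tr (ic S) (fun i => ic (Si i)) := by
  intro z hz w hw
  obtain ⟨p, hp, hc, hx⟩ := mem_ic_iff_poly.1 hz
  have h1 : z ^ p.natDegree + ∑ l ∈ Finset.range p.natDegree, p.coeff l * z ^ l = 0 := by
    have h2 := congrArg (Polynomial.eval z) hp.as_sum
    rw [hx, Polynomial.eval_add, Polynomial.eval_pow, Polynomial.eval_X, Polynomial.eval_finsetSum] at h2
    rw [h2]
    refine congrArg _ (Finset.sum_congr rfl fun l _ => ?_)
    rw [Polynomial.eval_mul, Polynomial.eval_C, Polynomial.eval_pow, Polynomial.eval_X]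
  choose b hb using fun l => E.exists_R (p.coeff l)
  have h3 := E.R_add (E.R_pow hw p.natDegree)
    (E.R_sum (Finset.range p.natDegree) (z := fun l => p.coeff l * z ^ l) (w := fun l i => b l i * w i ^ l)
      (fun l _ => E.R_mul (hb l) (E.R_pow hw l)))
  rw [h1] at h3
  have h4 : ∀ᶠ i in (U : Filter I), ∀ l ∈ Finset.range p.natDegree, b l i ∈ Si i := by
    rw [Filter.eventually_all_finset]
    intro l _
    exact h _ (hc l) _ (hb l)
  filter_upwards [E.R_eq h3 E.R_zero, h4] with i h5 h6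
  exact uadj_mem_ic h6 h5

theorem Tr_pol (E : Emb L K Ki) {t s : K} {ti si : ∀ i, Ki i} (ht : E.R t ti) (hs : E.R s si) :
    E.Tr (pol k t s) (fun i => pol (κ i) (ti i) (si i)) := by
  refine Tr_adjoin' E fun z hz => ?_
  rcases hz with rfl | hz
  · exact ⟨ti, ht, Filter.Eventually.of_forall fun i => Algebra.subset_adjoin (by simp)⟩
  · rw [Set.mem_singleton_iff] at hz
    subst hz
    exact ⟨si, hs, Filter.Eventually.of_forall fun i => Algebra.subset_adjoin (by simp)⟩

end Pool.Agent.Lib.MP_4318ff_ag.Q
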