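import Pool.Agent.Lib.MP_4318ff_ag.Q.URep

/-!
# Arithmetic of representations

PROOF. Coefficientwise: `coeff m (f f') = ∑ over the antidiagonal of m` (`MvPolynomial.coeff_mul`), `lim` is a ring homomorphism (`map_sum` after writing the family as a sum of families). `rep_eq`: `f - f'` is represented by
`g - g = 0`, so it is `0` by `rep_ne`. `rep_rename`, `rep_pderiv`: coefficientwise, or by `MvPolynomial.induction_on` for the statement that there is a representing family `g` of `f` such that …, and uniqueness.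
-/

set_option autoImplicit false

namespace Pool.Agent.Lib.MP_4318ff_ag.Q

open Filter MvPolynomial

variable {I : Type} {U : Ultrafilter I} {κ : I → Type} [∀ i, Field (κ i)] {k : Type} [Field k] {L : LimD U κ k} {n : ℕ}

theorem rep_add {f f' : MvPolynomial (Fin n) k} {g g' : ∀ i, MvPolynomial (Fin n) (κ i)} (h : L.Rep f g) (h' : L.Rep f' g') :
    L.Rep (f + f') (fun i => g i + g' i) := by
  obtain ⟨⟨d, hd⟩, hc⟩ := h
  obtain ⟨⟨d', hd'⟩, hc'⟩ := h'
  refine ⟨⟨max d d', ?_⟩, fun m => ?_⟩
  · filter_upwards [hd, hd'] with i h1 h2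
    exact (totalDegree_add _ _).trans (max_le_max h1 h2)
  · rw [coeff_add, hc m, hc' m, ← map_add]
    refine congrArg L.lim (funext fun i => ?_)
    exact (coeff_add _ _ _).symm

theorem rep_neg {f : MvPolynomial (Fin n) k} {g : ∀ i, MvPolynomial (Fin n) (κ i)} (h : L.Rep f g) :
    L.Rep (- f) (fun i => - g i) := by
  obtain ⟨⟨d, hd⟩, hc⟩ := h
  refine ⟨⟨d, ?_⟩, fun m => ?_⟩
  · filter_upwards [hd] with i h1
    rwa [totalDegree_neg]
  · rw [coeff_neg, hc m, ← map_neg]
    refine congrArg L.lim (funext fun i => ?_)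
    exact (coeff_neg _ _ _).symm

theorem rep_sub {f f' : MvPolynomial (Fin n) k} {g g' : ∀ i, MvPolynomial (Fin n) (κ i)} (h : L.Rep f g) (h' : L.Rep f' g') :
    L.Rep (f - f') (fun i => g i - g' i) := by
  have h1 := rep_add h (rep_neg h')
  simpa only [← sub_eq_add_neg] using h1

theorem rep_mul {f f' : MvPolynomial (Fin n) k} {g g' : ∀ i, MvPolynomial (Fin n) (κ i)} (h : L.Rep f g) (h' : L.Rep f' g') :
    L.Rep (f * f') (fun i => g i * g' i) := by
  obtain ⟨⟨d, hd⟩, hc⟩ := h
  obtain ⟨⟨d', hd'⟩, hc'⟩ := h'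
  refine ⟨⟨d + d', ?_⟩, fun m => ?_⟩
  · filter_upwards [hd, hd'] with i h1 h2
    exact (totalDegree_mul _ _).trans (add_le_add h1 h2)
  · have e : (fun i => coeff m (g i * g' i)) =
        ∑ x ∈ Finset.HasAntidiagonal.antidiagonal m, ((fun i => coeff x.1 (g i)) * (fun i => coeff x.2 (g' i))) := by
      funext i
      rw [coeff_mul, Finset.sum_apply]
      rfl
    rw [e, coeff_mul, map_sum]
    refine Finset.sum_congr rfl fun x _ => ?_
    rw [hc, hc', map_mul]

theorem rep_C (a : ∀ i, κ i) : L.Rep (C (L.lim a) : MvPolynomial (Fin n) k) (fun i => C (a i)) := by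
  refine ⟨⟨0, Eventually.of_forall fun i => (totalDegree_C (a i)).le⟩, fun m => ?_⟩
  rw [coeff_C]
  split_ifs with hm
  · refine congrArg L.lim (funext fun i => ?_)
    rw [coeff_C, if_pos hm]
  · rw [← map_zero L.lim]
    refine congrArg L.lim (funext fun i => ?_)
    rw [coeff_C, if_neg hm]
    rfl

theorem rep_X (j : Fin n) : L.Rep (X j : MvPolynomial (Fin n) k) (fun _ => X j) := by
  refine ⟨⟨1, Eventually.of_forall fun i => (totalDegree_X j).le⟩, fun m => ?_⟩
  rw [coeff_X]
  split_ifs with hm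
  · rw [← map_one L.lim]
    refine congrArg L.lim (funext fun i => ?_)
    rw [coeff_X, if_pos hm]
    rfl
  · rw [← map_zero L.lim]
    refine congrArg L.lim (funext fun i => ?_)
    rw [coeff_X, if_neg hm]
    rfl

theorem rep_zero : L.Rep (0 : MvPolynomial (Fin n) k) (fun _ => 0) := by
  have h := rep_C (L := L) (n := n) 0
  simpa only [map_zero, Pi.zero_apply] using h

theorem rep_one : L.Rep (1 : MvPolynomial (Fin n) k) (fun _ => 1) := by
  have h := rep_C (L := L) (n := n) 1
  simpa only [map_one, Pi.one_apply] using h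

theorem rep_pow {f : MvPolynomial (Fin n) k} {g : ∀ i, MvPolynomial (Fin n) (κ i)} (h : L.Rep f g) (m : ℕ) :
    L.Rep (f ^ m) (fun i => g i ^ m) := by
  induction m with
  | zero => simpa only [pow_zero] using rep_one (L := L) (n := n)
  | succ m ih => simpa only [pow_succ] using rep_mul ih h

theorem rep_sum {α : Type} (S : Finset α) {f : α → MvPolynomial (Fin n) k} {g : α → ∀ i, MvPolynomial (Fin n) (κ i)}
    (h : ∀ a ∈ S, L.Rep (f a) (g a)) : L.Rep (∑ a ∈ S, f a) (fun i => ∑ a ∈ S, g a i) := by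
  classical
  induction S using Finset.induction_on with
  | empty => simpa only [Finset.sum_empty] using rep_zero (L := L) (n := n)
  | insert a S ha ih =>
    have h1 := rep_add (h a (Finset.mem_insert_self a S))
      (ih (fun b hb => h b (Finset.mem_insert_of_mem hb)))
    simpa only [Finset.sum_insert ha] using h1

theorem rep_eq {f f' : MvPolynomial (Fin n) k} {g : ∀ i, MvPolynomial (Fin n) (κ i)} (h : L.Rep f g) (h' : L.Rep f' g) :
    f = f' := by
  ext m
  rw [h.2 m, h'.2 m]

theorem rep_rename {m : ℕ} (e : Fin n → Fin m) {f : MvPolynomial (Fin n) k} {g : ∀ i, MvPolynomial (Fin n) (κ i)}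
    (h : L.Rep f g) : L.Rep (rename e f) (fun i => rename e (g i)) := by
  have key : ∀ f : MvPolynomial (Fin n) k, ∃ g₀ : ∀ i, MvPolynomial (Fin n) (κ i),
      L.Rep f g₀ ∧ L.Rep (rename e f) (fun i => rename e (g₀ i)) := by
    intro f
    induction f using MvPolynomial.induction_on with
    | C a =>
      obtain ⟨b, rfl⟩ := L.surj a
      refine ⟨fun i => C (b i), rep_C b, ?_⟩
      simpa only [rename_C] using rep_C (L := L) (n := m) b
    | add p q hp hq =>
      obtain ⟨gp, hp1, hp2⟩ := hp
      obtain ⟨gq, hq1, hq2⟩ := hq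
      refine ⟨fun i => gp i + gq i, rep_add hp1 hq1, ?_⟩
      simpa only [map_add] using rep_add hp2 hq2
    | mul_X p j hp =>
      obtain ⟨gp, hp1, hp2⟩ := hp
      refine ⟨fun i => gp i * X j, rep_mul hp1 (rep_X j), ?_⟩
      simpa only [map_mul, rename_X] using rep_mul hp2 (rep_X (L := L) (e j))
  obtain ⟨g₀, h1, h2⟩ := key f
  refine rep_congr h2 ?_
  filter_upwards [rep_unique h1 h] with i hi
  rw [hi]

theorem rep_pderiv (j : Fin n) {f : MvPolynomial (Fin n) k} {g : ∀ i, MvPolynomial (Fin n) (κ i)}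
    (h : L.Rep f g) : L.Rep (pderiv j f) (fun i => pderiv j (g i)) := by
  have key : ∀ f : MvPolynomial (Fin n) k, ∃ g₀ : ∀ i, MvPolynomial (Fin n) (κ i),
      L.Rep f g₀ ∧ L.Rep (pderiv j f) (fun i => pderiv j (g₀ i)) := by
    intro f
    induction f using MvPolynomial.induction_on with
    | C a =>
      obtain ⟨b, rfl⟩ := L.surj a
      refine ⟨fun i => C (b i), rep_C b, ?_⟩
      simpa only [pderiv_C] using rep_zero (L := L) (n := n)
    | add p q hp hq =>
      obtain ⟨gp, hp1, hp2⟩ := hp
      obtain ⟨gq, hq1, hq2⟩ := hq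
      refine ⟨fun i => gp i + gq i, rep_add hp1 hq1, ?_⟩
      simpa only [map_add] using rep_add hp2 hq2
    | mul_X p l hp =>
      obtain ⟨gp, hp1, hp2⟩ := hp
      refine ⟨fun i => gp i * X l, rep_mul hp1 (rep_X l), ?_⟩
      have hX : L.Rep (pderiv j (X l : MvPolynomial (Fin n) k))
          (fun i => pderiv j (X l : MvPolynomial (Fin n) (κ i))) := by
        by_cases hl : l = j
        · subst hl
          simpa only [pderiv_X_self] using rep_one (L := L) (n := n)
        · simpa only [pderiv_X_of_ne hl] using rep_zero (L := L) (n := n)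
      have h3 := rep_add (rep_mul hp2 (rep_X (L := L) l)) (rep_mul hp1 hX)
      simpa only [pderiv_mul] using h3
  obtain ⟨g₀, h1, h2⟩ := key f
  refine rep_congr h2 ?_
  filter_upwards [rep_unique h1 h] with i hi
  rw [hi]

end Pool.Agent.Lib.MP_4318ff_ag.Q
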