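import Pool.Agent.Lib.MP_4318ff_ag.Q.UDsc
import Pool.Agent.Lib.MP_4318ff_ag.Q.Frob

/-!
# Solutions are bounded (no ultrafilter)

PROOF. `bounded_of_loc`: `N = [K : FF]`, `δ = dsc (FF k t s) θ`. Let `π` be a prime. `dsc_mul` with `O = loc t s π` (`loc_int`, `loc_le_FF`; `θ ∈ ic (pol) ≤ ic (loc t s π)`): `δ * (cv Q * x) = ∑ c_l θ^l`, `c_l ∈ loc t s π`. The `c_l ∈ FF` do not depend on `π` (the `θ^l` are linearly independent over `FF`), so `c_l ∈ pol k t s` (`mem_pol_of_loc`), `c_l = cv (z l)`.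
(There are primes, e.g. `X 0`, so the `c_l` exist.) With `O' = locO k t⁻¹ (s/t)` (`Coord.inv`, `FF_inv`) and the generator `θ' = θ t⁻¹^a` (`h2`, `pol k t⁻¹ (s/t) ≤ O'`): `dsc θ' * (cv Q t⁻¹^q x t⁻¹^b) = ∑ c'_l θ'^l`, `c'_l ∈ O'` (`cv t s Q * t⁻¹^q ∈ k[1/t, s/t]` for `q = totalDegree Q`: monomials), and `dsc θ' = t⁻¹^(a N(N-1)) δ` (`dsc_smul`). So
`c_l t⁻¹^(a N(N-1) + q + b) = c'_l t⁻¹^(a l) ∈ O'` and `totalDegree (z l) ≤ a N(N-1) + q + b` (`deg_le`). `δ = cv Δ₀` (`dsc_cv`), `Δ = Δ₀ Q`.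
`sol_loc`: let `π` be a prime. If `π` is associated to `X 1 - C T.2` for a `T ∈ pts`, then `loc t s π = locS t s T` and `cv Q x = cv Q (x - ρT) + cv Q ρT` (`s2`); otherwise `ringV ≤ loc t s π` (`ringV_le_loc`) and `cv Q x = cv Q (x - ρ1) + cv Q ρ1` (`s1`). `sol_inf`: the line `t⁻¹ = 0` in the coordinates `t⁻¹, s/t`: `ringV t⁻¹ (s/t) pts ≤ locO k t⁻¹ (s/t)` (`ringV_le_loc`; `X 0` is not
associated to `X 1 - C c`), so `(x - ρ1)/u^κ ∈ ic (locO …)` and `u ∈ ic (locO …)` because `u^n = t⁻¹`; `t⁻¹^b (x - ρ1) + t⁻¹^b ρ1`.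
-/

set_option autoImplicit false

namespace Pool.Agent.Lib.MP_4318ff_ag.Q

variable {k K : Type} [Field k] [Field K] [Algebra k K]

open MvPolynomial

/-- The powers of a generator are linearly independent. -/
private theorem UBound_indep (F : IntermediateField k K) [FiniteDimensional F K] {θ : K}
    (hθ : IntermediateField.adjoin F {θ} = ⊤) {c : Fin (Module.finrank F K) → K} (hc : ∀ i, c i ∈ F)
    (h : ∑ i, c i * θ ^ (i : ℕ) = 0) : ∀ i, c i = 0 := by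
  have hint : IsIntegral F θ := IsIntegral.of_finite F θ
  have hdeg : (minpoly F θ).natDegree = Module.finrank F K := by
    rw [← IntermediateField.adjoin.finrank hint, hθ, IntermediateField.finrank_top']
  have hli := linearIndependent_pow (K := F) θ
  rw [hdeg] at hli
  rw [Fintype.linearIndependent_iff] at hli
  have h1 := hli (fun i => (⟨c i, hc i⟩ : F)) (by
    rw [← h]
    refine Finset.sum_congr rfl fun i _ => ?_
    rw [Algebra.smul_def]
    rfl)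
  intro i
  exact congrArg Subtype.val (h1 i)

/-- Equality of coefficients. -/
private theorem UBound_eq (F : IntermediateField k K) [FiniteDimensional F K] {θ : K}
    (hθ : IntermediateField.adjoin F {θ} = ⊤) {c d : Fin (Module.finrank F K) → K} (hc : ∀ i, c i ∈ F)
    (hd : ∀ i, d i ∈ F) (h : ∑ i, c i * θ ^ (i : ℕ) = ∑ i, d i * θ ^ (i : ℕ)) : ∀ i, c i = d i := by
  intro i
  have h1 := UBound_indep F hθ (c := fun i => c i - d i) (fun i => sub_mem (hc i) (hd i)) (by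
    rw [← sub_eq_zero.2 h, ← Finset.sum_sub_distrib]
    refine Finset.sum_congr rfl fun i _ => ?_
    ring) i
  exact sub_eq_zero.1 h1

private theorem UBound_gen (F : IntermediateField k K) {θ b : K} (hb : b ∈ F) (hb0 : b ≠ 0)
    (hθ : IntermediateField.adjoin F {θ} = ⊤) : IntermediateField.adjoin F {θ * b} = ⊤ := by
  rw [eq_top_iff, ← hθ, IntermediateField.adjoin_le_iff, Set.singleton_subset_iff]
  have h1 : θ * b ∈ IntermediateField.adjoin F {θ * b} := IntermediateField.mem_adjoin_simple_self F _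
  have h2 : (algebraMap F K ⟨b, hb⟩)⁻¹ ∈ IntermediateField.adjoin F {θ * b} :=
    inv_mem (IntermediateField.algebraMap_mem _ _)
  have h3 : θ = θ * b * (algebraMap F K ⟨b, hb⟩)⁻¹ := by
    change θ = θ * b * b⁻¹
    rw [mul_assoc, mul_inv_cancel₀ hb0, mul_one]
  have h4 := mul_mem h1 h2
  rw [← h3] at h4
  exact h4

private theorem UBound_cv {t s : K} (ht : t ≠ 0) (Q : MvPolynomial (Fin 2) k) :
    cv t s Q * t⁻¹ ^ Q.totalDegree ∈ pol k t⁻¹ (s / t) := by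
  have ht' : t⁻¹ ∈ pol k t⁻¹ (s / t) := Algebra.subset_adjoin (Or.inl rfl)
  have hs' : s / t ∈ pol k t⁻¹ (s / t) := Algebra.subset_adjoin (Or.inr rfl)
  have h1 : cv t s Q = ∑ m ∈ Q.support, algebraMap k K (coeff m Q) * (t ^ m 0 * s ^ m 1) := by
    unfold cv
    rw [aeval_def, eval₂_eq']
    refine Finset.sum_congr rfl fun m _ => ?_
    rw [Fin.prod_univ_two]
    rfl
  rw [h1, Finset.sum_mul]
  refine sum_mem fun m hm => ?_
  have h2 : m 0 + m 1 ≤ Q.totalDegree := by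
    have h3 := le_totalDegree hm
    rw [Finsupp.sum_fintype _ _ (fun _ => rfl), Fin.sum_univ_two] at h3
    exact h3
  have h4 : algebraMap k K (coeff m Q) * (t ^ m 0 * s ^ m 1) * t⁻¹ ^ Q.totalDegree =
      algebraMap k K (coeff m Q) * ((s / t) ^ m 1 * t⁻¹ ^ (Q.totalDegree - (m 0 + m 1))) := by
    obtain ⟨e, he⟩ := Nat.exists_eq_add_of_le h2
    rw [he, Nat.add_sub_cancel_left, pow_add, pow_add, div_pow, inv_pow, inv_pow, inv_pow]
    have h5 : t ^ m 0 ≠ 0 := pow_ne_zero _ ht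
    have h6 : t ^ m 1 ≠ 0 := pow_ne_zero _ ht
    have h7 : t ^ e ≠ 0 := pow_ne_zero _ ht
    field_simp
  rw [h4]
  exact mul_mem (Subalgebra.algebraMap_mem _ _) (mul_mem (pow_mem hs' _) (pow_mem ht' _))

private theorem UBound_pol_le (t s : K) {π : MvPolynomial (Fin 2) k} (hπ : Prime π) : pol k t s ≤ loc t s π := by
  intro y hy
  obtain ⟨G, rfl⟩ := mem_pol.1 hy
  exact cv_mem_loc t s hπ G

theorem bounded_of_loc {t s θ x : K} (hc : Coord k t s) (hg : IntermediateField.adjoin (FF k t s) {θ} = ⊤) {a b : ℕ}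
    (h1 : θ ∈ ic (pol k t s)) (h2 : θ * t⁻¹ ^ a ∈ ic (pol k t⁻¹ (s / t))) {Q : MvPolynomial (Fin 2) k} (hQ : Q ≠ 0)
    (hx : ∀ π : MvPolynomial (Fin 2) k, Prime π → cv t s Q * x ∈ ic (loc t s π))
    (hx' : x * t⁻¹ ^ b ∈ ic (locO k t⁻¹ (s / t))) :
    ∃ (Δ : MvPolynomial (Fin 2) k) (z : ℕ → MvPolynomial (Fin 2) k), Δ ≠ 0 ∧
      Δ.totalDegree ≤ a * (Module.finrank (FF k t s) K * (Module.finrank (FF k t s) K - 1)) + Q.totalDegree + b ∧
      (∀ l < Module.finrank (FF k t s) K, (z l).totalDegree ≤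
        a * (Module.finrank (FF k t s) K * (Module.finrank (FF k t s) K - 1)) + Q.totalDegree + b) ∧
      cv t s Δ * x = ∑ l ∈ Finset.range (Module.finrank (FF k t s) K), cv t s (z l) * θ ^ l := by
  classical
  have := hc.fin
  have := hc.sep
  have ht := hc.t_ne
  obtain ⟨Δ₀, hΔ₀, hdeg, hdsc⟩ := dsc_cv hc hg h1 h2
  -- the coefficients
  have h3 : ∀ π : MvPolynomial (Fin 2) k, Prime π → ∃ c : Fin (Module.finrank (FF k t s) K) → K,
      (∀ i, c i ∈ loc t s π) ∧ dsc (FF k t s) θ * (cv t s Q * x) = ∑ i, c i * θ ^ (i : ℕ) := by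
    intro π hπ
    exact dsc_mul (FF k t s) hg (loc t s π) (fun y hy => loc_le_FF π hy) (fun y hy => loc_int hc hπ hy)
      (ic_mono (UBound_pol_le t s hπ) h1) (hx π hπ)
  obtain ⟨c, hc1, hc2⟩ := h3 (X 0) X_prime
  have hcF : ∀ i, c i ∈ FF k t s := fun i => loc_le_FF _ (hc1 i)
  have hcl : ∀ i, ∀ π : MvPolynomial (Fin 2) k, Prime π → c i ∈ loc t s π := by
    intro i π hπ
    obtain ⟨d, hd1, hd2⟩ := h3 π hπ
    rw [UBound_eq (FF k t s) hg hcF (fun i => loc_le_FF _ (hd1 i)) (hc2.symm.trans hd2) i]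
    exact hd1 i
  have hcp : ∀ i, ∃ G : MvPolynomial (Fin 2) k, c i = cv t s G := fun i =>
    mem_pol.1 (mem_pol_of_loc hc (hcF i) (hcl i))
  choose G hG using hcp
  -- the line at infinity
  have hFF := FF_inv hc
  have hti : t⁻¹ ∈ FF k t s := inv_mem (IntermediateField.subset_adjoin _ _ (Or.inl rfl))
  have hX0 : Prime (X 0 : MvPolynomial (Fin 2) k) := X_prime
  have hle : pol k t⁻¹ (s / t) ≤ locO k t⁻¹ (s / t) := UBound_pol_le _ _ hX0
  have hO : ∀ y ∈ locO k t⁻¹ (s / t), y ∈ FF k t s := by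
    intro y hy
    rw [← hFF]
    exact loc_le_FF _ hy
  have hy : cv t s Q * t⁻¹ ^ Q.totalDegree * (x * t⁻¹ ^ b) ∈ ic (locO k t⁻¹ (s / t)) :=
    mul_mem (le_ic _ (hle (UBound_cv ht Q))) hx'
  obtain ⟨c', hc'1, hc'2⟩ := dsc_mul (FF k t s) (UBound_gen (FF k t s) (pow_mem hti a) (pow_ne_zero _ (inv_ne_zero ht)) hg)
    (locO k t⁻¹ (s / t)) hO (fun y hy h => by
      rw [← hFF] at hy
      exact loc_int hc.inv hX0 hy h) (ic_mono hle h2) hy
  have hds : dsc (FF k t s) (θ * t⁻¹ ^ a) =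
      (t⁻¹ ^ a) ^ (Module.finrank (FF k t s) K * (Module.finrank (FF k t s) K - 1)) * dsc (FF k t s) θ := by
    rw [mul_comm θ]
    exact dsc_smul (FF k t s) _ _ (pow_mem hti a)
  set M := a * (Module.finrank (FF k t s) K * (Module.finrank (FF k t s) K - 1)) + Q.totalDegree + b with hM
  have hcc : ∀ i, t⁻¹ ^ M * c i = c' i * (t⁻¹ ^ a) ^ (i : ℕ) := by
    refine UBound_eq (FF k t s) hg (fun i => mul_mem (pow_mem hti _) (hcF i))
      (fun i => mul_mem (hO _ (hc'1 i)) (pow_mem (pow_mem hti _) _)) ?_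
    have e1 : ∑ i, t⁻¹ ^ M * c i * θ ^ (i : ℕ) = t⁻¹ ^ M * (dsc (FF k t s) θ * (cv t s Q * x)) := by
      rw [hc2, Finset.mul_sum]
      exact Finset.sum_congr rfl fun i _ => mul_assoc _ _ _
    have e2 : ∑ i, c' i * (t⁻¹ ^ a) ^ (i : ℕ) * θ ^ (i : ℕ) = ∑ i, c' i * (θ * t⁻¹ ^ a) ^ (i : ℕ) := by
      refine Finset.sum_congr rfl fun i _ => ?_
      rw [mul_pow]
      ring
    rw [e1, e2, ← hc'2, hds, hM, pow_add, pow_add, pow_mul]
    ring
  have hdegG : ∀ i, (G i).totalDegree ≤ M := by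
    intro i
    apply deg_le hc
    rw [← hG i, mul_comm, hcc i]
    have ht' : t⁻¹ ∈ locO k t⁻¹ (s / t) := hle (Algebra.subset_adjoin (Or.inl rfl))
    exact mul_mem (hc'1 i) (pow_mem (pow_mem ht' _) _)
  refine ⟨Δ₀ * Q, fun l => if h : l < Module.finrank (FF k t s) K then G ⟨l, h⟩ else 0, mul_ne_zero hΔ₀ hQ, ?_, ?_, ?_⟩
  · refine (totalDegree_mul _ _).trans ?_
    omega
  · intro l hl
    simp only [dif_pos hl]
    exact hdegG _
  · rw [map_mul, mul_assoc, ← hdsc, hc2, Finset.sum_range]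
    refine Finset.sum_congr rfl fun i _ => ?_
    simp only [dif_pos i.2, hG i]

private theorem UBound_assoc (t s : K) {π π' : MvPolynomial (Fin 2) k} (h : Associated π π') :
    loc t s π = loc t s π' := by
  unfold loc
  simp only [h.dvd_iff_dvd_left]

theorem sol_loc {t s x : K} (hc : Coord k t s) {Q : MvPolynomial (Fin 2) k} {D : Fam k K}
    (hQ : cv t s Q * D.ρ1 ∈ ic (pol k t s)) (hQ' : ∀ T ∈ D.pts, cv t s Q * D.ρT T ∈ ic (pol k t s)) (h : D.Sol t s 1 x)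
    {π : MvPolynomial (Fin 2) k} (hπ : Prime π) : cv t s Q * x ∈ ic (loc t s π) := by
  have hcv : cv t s Q ∈ ic (loc t s π) := le_ic _ (cv_mem_loc t s hπ Q)
  have hle := ic_mono (UBound_pol_le t s hπ)
  by_cases hT : ∃ T ∈ D.pts, Associated π (X 1 - C T.2)
  · obtain ⟨T, hT1, hT2⟩ := hT
    have h1 := h.s2 T hT1
    rw [div_one, locS, ← UBound_assoc t s hT2] at h1
    have h2 := add_mem (mul_mem hcv h1) (hle (hQ' T hT1))
    have e : cv t s Q * (x - D.ρT T) + cv t s Q * D.ρT T = cv t s Q * x := by ring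
    rwa [e] at h2
  · push Not at hT
    have h1 := ic_mono (ringV_le_loc hc D.pts hπ hT) h.s1
    rw [div_one] at h1
    have h2 := add_mem (mul_mem hcv h1) (hle hQ)
    have e : cv t s Q * (x - D.ρ1) + cv t s Q * D.ρ1 = cv t s Q * x := by ring
    rwa [e] at h2

theorem sol_inf {t s u x : K} (hc : Coord k t s) {n κ b : ℕ} (hn : 0 < n) (hu : u ^ n * t = 1) {D : Fam k K}
    (hb : D.ρ1 * t⁻¹ ^ b ∈ ic (locO k t⁻¹ (s / t))) (h : D.Sol t⁻¹ (s / t) (u ^ κ) x) :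
    x * t⁻¹ ^ b ∈ ic (locO k t⁻¹ (s / t)) := by
  have hX0 : Prime (X 0 : MvPolynomial (Fin 2) k) := X_prime
  have hun : u ^ n = t⁻¹ := eq_inv_of_mul_eq_one_left hu
  have hu0 : u ≠ 0 := by
    rintro rfl
    rw [zero_pow hn.ne', zero_mul] at hu
    exact zero_ne_one hu
  have ht' : t⁻¹ ∈ ic (locO k t⁻¹ (s / t)) :=
    le_ic _ (UBound_pol_le _ _ hX0 (Algebra.subset_adjoin (Or.inl rfl)))
  have hu' : u ∈ ic (locO k t⁻¹ (s / t)) := mem_ic_of_pow hn (by rw [hun]; exact ht')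
  have hT : ∀ T ∈ D.pts, ¬ Associated (X 0 : MvPolynomial (Fin 2) k) (X 1 - C T.2) := by
    intro T _ h1
    obtain ⟨E, hE⟩ := h1.dvd
    have h2 := congrArg (MvPolynomial.eval ![(0 : k), T.2 + 1]) hE
    simp at h2
  have h1 : (x - D.ρ1) / u ^ κ ∈ ic (locO k t⁻¹ (s / t)) := ic_mono (ringV_le_loc hc.inv D.pts hX0 hT) h.s1
  have h2 := add_mem (mul_mem (mul_mem h1 (pow_mem hu' κ)) (pow_mem ht' b)) hb
  have e : (x - D.ρ1) / u ^ κ * u ^ κ * t⁻¹ ^ b + D.ρ1 * t⁻¹ ^ b = x * t⁻¹ ^ b := by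
    rw [div_mul_cancel₀ _ (pow_ne_zero _ hu0)]
    ring
  rwa [e] at h2

end Pool.Agent.Lib.MP_4318ff_ag.Q
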