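import Pool.Agent.Lib.MP_4318ff_ag.Q.Defs

/-!
# MP_4318ff_ag, part S, TRANSFER block: ultraproducts, definitions

`U` is an ultrafilter on `I`, `κ i` are fields, `k` is a field which is the limit (ultraproduct) of the `κ i`:
`LimD U κ k` is a surjective ring homomorphism `lim : (∀ i, κ i) →+* k` whose kernel consists of the families which vanish
`U`-almost everywhere. In the application `I` is the set of primes, `κ p` the algebraic closure of `𝔽_p`, `k = ℂ`.
-/

set_option autoImplicit false

namespace Pool.Agent.Lib.MP_4318ff_ag.Q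

open Filter

section UP

variable {I : Type} (U : Ultrafilter I) (A : I → Type) [∀ i, CommRing (A i)]

/-- The ideal of the families which vanish almost everywhere. -/
def UI : Ideal (∀ i, A i) where
  carrier := {a | ∀ᶠ i in (U : Filter I), a i = 0}
  add_mem' := by
    intro a b ha hb
    filter_upwards [ha, hb] with i h1 h2
    simp [h1, h2]
  zero_mem' := by simp
  smul_mem' := by
    intro c a ha
    filter_upwards [ha] with i h
    simp [h]

/-- The ultraproduct of the rings `A i`. -/
abbrev UP : Type := (∀ i, A i) ⧸ UI U A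

/-- The class of a family in the ultraproduct. -/
def mkU : (∀ i, A i) →+* UP U A := Ideal.Quotient.mk (UI U A)

variable {A}

theorem mkU_eq (a b : ∀ i, A i) : mkU U A a = mkU U A b ↔ ∀ᶠ i in (U : Filter I), a i = b i := by
  unfold mkU
  rw [Ideal.Quotient.eq]
  change (∀ᶠ i in (U : Filter I), (a - b) i = 0) ↔ _
  simp only [Pi.sub_apply, sub_eq_zero]

theorem mkU_eq_zero (a : ∀ i, A i) : mkU U A a = 0 ↔ ∀ᶠ i in (U : Filter I), a i = 0 := by
  rw [← map_zero (mkU U A), mkU_eq]
  rfl

theorem mkU_surj : Function.Surjective (mkU U A) := Ideal.Quotient.mk_surjective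

end UP

section Lim

variable {I : Type} (U : Ultrafilter I) (κ : I → Type) [∀ i, Field (κ i)] (k : Type) [Field k]

/-- `k` is the ultraproduct of the fields `κ i`. -/
structure LimD where
  lim : (∀ i, κ i) →+* k
  surj : Function.Surjective lim
  ker : ∀ a, lim a = 0 ↔ ∀ᶠ i in (U : Filter I), a i = 0

end Lim

namespace LimD

variable {I : Type} {U : Ultrafilter I} {κ : I → Type} [∀ i, Field (κ i)] {k : Type} [Field k] (L : LimD U κ k)

theorem lim_eq (a b : ∀ i, κ i) : L.lim a = L.lim b ↔ ∀ᶠ i in (U : Filter I), a i = b i := by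
  rw [← sub_eq_zero, ← map_sub, L.ker]
  simp only [Pi.sub_apply, sub_eq_zero]

/-- The polynomial `f` over `k` is the limit of the polynomials `g i` over `κ i` (of bounded degree). -/
def Rep {n : ℕ} (f : MvPolynomial (Fin n) k) (g : ∀ i, MvPolynomial (Fin n) (κ i)) : Prop :=
  (∃ d : ℕ, ∀ᶠ i in (U : Filter I), (g i).totalDegree ≤ d) ∧
    ∀ m, MvPolynomial.coeff m f = L.lim (fun i => MvPolynomial.coeff m (g i))

end LimD

/-- A system of fields `K i` over `κ i` whose ultraproduct contains `K`, compatible with the limit `L`. `emb` is the embedding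
of `K` in the ultraproduct, `E.R z w` says that the family `w` represents `z`. -/
structure Emb {I : Type} {U : Ultrafilter I} {κ : I → Type} [∀ i, Field (κ i)] {k : Type} [Field k] (L : LimD U κ k)
    (K : Type) [Field K] [Algebra k K] (Ki : I → Type) [∀ i, Field (Ki i)] [∀ i, Algebra (κ i) (Ki i)] where
  emb : K →+* UP U Ki
  const : ∀ a : ∀ i, κ i, emb (algebraMap k K (L.lim a)) = mkU U Ki (fun i => algebraMap (κ i) (Ki i) (a i))

namespace Emb

variable {I : Type} {U : Ultrafilter I} {κ : I → Type} [∀ i, Field (κ i)] {k : Type} [Field k] {L : LimD U κ k}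
  {K : Type} [Field K] [Algebra k K] {Ki : I → Type} [∀ i, Field (Ki i)] [∀ i, Algebra (κ i) (Ki i)]
  (E : Emb L K Ki)

/-- The family `w` represents the element `z` of `K`. -/
def R (z : K) (w : ∀ i, Ki i) : Prop := E.emb z = mkU U Ki w

theorem exists_R (z : K) : ∃ w, E.R z w := by
  obtain ⟨w, hw⟩ := mkU_surj U (E.emb z)
  exact ⟨w, hw.symm⟩

theorem R_eq {z : K} {w w' : ∀ i, Ki i} (h : E.R z w) (h' : E.R z w') : ∀ᶠ i in (U : Filter I), w i = w' i := by
  rw [← mkU_eq U]
  exact h.symm.trans h'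

theorem R_congr {z : K} {w w' : ∀ i, Ki i} (h : E.R z w) (h' : ∀ᶠ i in (U : Filter I), w i = w' i) : E.R z w' := by
  unfold R at h ⊢
  rw [h]
  exact (mkU_eq U _ _).2 h'

theorem R_add {z z' : K} {w w' : ∀ i, Ki i} (h : E.R z w) (h' : E.R z' w') : E.R (z + z') (fun i => w i + w' i) := by
  unfold R at *
  rw [map_add, h, h', ← map_add]
  rfl

theorem R_mul {z z' : K} {w w' : ∀ i, Ki i} (h : E.R z w) (h' : E.R z' w') : E.R (z * z') (fun i => w i * w' i) := by
  unfold R at *
  rw [map_mul, h, h', ← map_mul]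
  rfl

theorem R_neg {z : K} {w : ∀ i, Ki i} (h : E.R z w) : E.R (-z) (fun i => - w i) := by
  unfold R at *
  rw [map_neg, h, ← map_neg]
  rfl

theorem R_sub {z z' : K} {w w' : ∀ i, Ki i} (h : E.R z w) (h' : E.R z' w') : E.R (z - z') (fun i => w i - w' i) := by
  unfold R at *
  rw [map_sub, h, h', ← map_sub]
  rfl

theorem R_pow {z : K} {w : ∀ i, Ki i} (h : E.R z w) (m : ℕ) : E.R (z ^ m) (fun i => w i ^ m) := by
  unfold R at *
  rw [map_pow, h, ← map_pow]
  rfl

theorem R_zero : E.R 0 (fun _ => 0) := by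
  unfold R
  rw [map_zero]
  exact (map_zero (mkU U Ki)).symm

theorem R_one : E.R 1 (fun _ => 1) := by
  unfold R
  rw [map_one]
  exact (map_one (mkU U Ki)).symm

theorem R_const (a : ∀ i, κ i) : E.R (algebraMap k K (L.lim a)) (fun i => algebraMap (κ i) (Ki i) (a i)) := E.const a

instance : Nontrivial (UP U Ki) := by
  refine ⟨⟨mkU U Ki 1, mkU U Ki 0, ?_⟩⟩
  intro h
  rw [mkU_eq] at h
  obtain ⟨i, hi⟩ := h.exists
  exact one_ne_zero hi

theorem R_inj {z z' : K} {w : ∀ i, Ki i} (h : E.R z w) (h' : E.R z' w) : z = z' := by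
  apply E.emb.injective
  exact h.trans h'.symm

theorem R_ne_zero {z : K} {w : ∀ i, Ki i} (h : E.R z w) (hz : z ≠ 0) : ∀ᶠ i in (U : Filter I), w i ≠ 0 := by
  obtain ⟨w', hw'⟩ := E.exists_R z⁻¹
  have h1 := E.R_mul h hw'
  rw [mul_inv_cancel₀ hz] at h1
  filter_upwards [E.R_eq h1 E.R_one] with i hi h0
  rw [h0, zero_mul] at hi
  exact zero_ne_one hi

theorem R_eq_zero {z : K} {w : ∀ i, Ki i} (h : E.R z w) (hw : ∃ᶠ i in (U : Filter I), w i = 0) : z = 0 := by
  by_contra hz
  exact hw (E.R_ne_zero h hz)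

theorem R_inv {z : K} {w : ∀ i, Ki i} (h : E.R z w) : E.R z⁻¹ (fun i => (w i)⁻¹) := by
  by_cases hz : z = 0
  · subst hz
    rw [inv_zero]
    refine E.R_congr E.R_zero ?_
    filter_upwards [E.R_eq h E.R_zero] with i hi
    rw [hi, inv_zero]
  · obtain ⟨w', hw'⟩ := E.exists_R z⁻¹
    refine E.R_congr hw' ?_
    have h1 := E.R_mul h hw'
    rw [mul_inv_cancel₀ hz] at h1
    filter_upwards [E.R_eq h1 E.R_one] with i hi
    exact (eq_inv_of_mul_eq_one_right hi)

theorem R_div {z z' : K} {w w' : ∀ i, Ki i} (h : E.R z w) (h' : E.R z' w') : E.R (z / z') (fun i => w i / w' i) := by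
  have := E.R_mul h (E.R_inv h')
  simpa only [div_eq_mul_inv] using this

theorem R_sum {α : Type} (s : Finset α) {z : α → K} {w : α → ∀ i, Ki i} (h : ∀ a ∈ s, E.R (z a) (w a)) :
    E.R (∑ a ∈ s, z a) (fun i => ∑ a ∈ s, w a i) := by
  classical
  induction s using Finset.induction_on with
  | empty => simpa using E.R_zero
  | insert a s ha ih =>
    have h1 := h a (Finset.mem_insert_self a s)
    have h2 := ih (fun b hb => h b (Finset.mem_insert_of_mem hb))
    have h3 := E.R_add h1 h2
    simpa only [Finset.sum_insert ha] using h3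

theorem R_prod {α : Type} (s : Finset α) {z : α → K} {w : α → ∀ i, Ki i} (h : ∀ a ∈ s, E.R (z a) (w a)) :
    E.R (∏ a ∈ s, z a) (fun i => ∏ a ∈ s, w a i) := by
  classical
  induction s using Finset.induction_on with
  | empty => simpa using E.R_one
  | insert a s ha ih =>
    have h1 := h a (Finset.mem_insert_self a s)
    have h2 := ih (fun b hb => h b (Finset.mem_insert_of_mem hb))
    have h3 := E.R_mul h1 h2
    simpa only [Finset.prod_insert ha] using h3

/-- The subalgebra `S` of `K` transfers to the family `Si`: representatives of elements of `S` are eventually in `Si i`. -/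
def Tr (S : Subalgebra k K) (Si : ∀ i, Subalgebra (κ i) (Ki i)) : Prop :=
  ∀ z ∈ S, ∀ w, E.R z w → ∀ᶠ i in (U : Filter I), w i ∈ Si i

/-- The family `Di` (over the fields `κ i`) represents the family `D`; `rep c` is a family of constants with the limit `c`. -/
structure FamR (rep : k → ∀ i, κ i) (D : Fam k K) (Di : ∀ i, Fam (κ i) (Ki i)) : Prop where
  pts : ∀ i, ((Di i).pts : Set (κ i × κ i)) = (fun T : k × k => (rep T.1 i, rep T.2 i)) '' (D.pts : Set (k × k))
  lines : ∀ i, ((Di i).lines : Set (κ i × κ i)) = (fun T : k × k => (rep T.1 i, rep T.2 i)) '' (D.lines : Set (k × k))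
  r1 : E.R D.ρ1 (fun i => (Di i).ρ1)
  r3 : E.R D.ρ3 (fun i => (Di i).ρ3)
  rT : ∀ T ∈ D.pts, E.R (D.ρT T) (fun i => (Di i).ρT (rep T.1 i, rep T.2 i))

end Emb

/-- The common situation: `t, s` coordinates of `K`, `K = k(t, s)(θ)`, represented by coordinates `ti i, si i` and generators `θi i`
of the fields `Ki i`, with the same degree. -/
structure USetup {I : Type} {U : Ultrafilter I} {κ : I → Type} [∀ i, Field (κ i)] {k : Type} [Field k] {L : LimD U κ k}
    {K : Type} [Field K] [Algebra k K] {Ki : I → Type} [∀ i, Field (Ki i)] [∀ i, Algebra (κ i) (Ki i)]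
    (E : Emb L K Ki) (t s θ : K) (ti si θi : ∀ i, Ki i) : Prop where
  hc : Coord k t s
  gen : IntermediateField.adjoin (FF k t s) {θ} = ⊤
  rt : E.R t ti
  rs : E.R s si
  rθ : E.R θ θi
  hci : ∀ᶠ i in (U : Filter I), Coord (κ i) (ti i) (si i)
  geni : ∀ᶠ i in (U : Filter I), IntermediateField.adjoin (FF (κ i) (ti i) (si i)) {θi i} = ⊤
  rank : ∀ᶠ i in (U : Filter I), Module.finrank (FF (κ i) (ti i) (si i)) (Ki i) = Module.finrank (FF k t s) K

/-- `θ` is a root of a monic polynomial over `k[t, s]` with coefficients of total degree `≤ a`. -/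
def GenBd (k : Type) {K : Type} [Field k] [Field K] [Algebra k K] (t s θ : K) (a : ℕ) : Prop :=
  ∃ (m : ℕ) (c : ℕ → MvPolynomial (Fin 2) k), 0 < m ∧ (∀ l < m, (c l).totalDegree ≤ a) ∧
    θ ^ m + ∑ l ∈ Finset.range m, cv t s (c l) * θ ^ l = 0

end Pool.Agent.Lib.MP_4318ff_ag.Q
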