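import Pool.Agent.Lib.MP_4318ff_ag.Q.Basic
import Pool.Agent.Lib.MP_4318ff_ag.Q.LocUFD

/-!
# Gauss' lemma for the minimal polynomial (no ultrafilter)

PROOF. `k[t,s] ≅ MvPolynomial (Fin 2) k =: R` is integrally closed (UFD) and `k(t,s)` is its fraction field; the minimal polynomial over the fraction field of an element which is integral over the ring is the image of the one over
the ring (`minpoly.isIntegrallyClosed_eq_field_fractions'`); for a monic polynomial over `R` irreducibility over `R` and over the fraction field are the same (`Polynomial.Monic.irreducible_iff_irreducible_map_fraction_map`);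
identify `R[X]` with `MvPolynomial (Fin 3) k`: `MvPolynomial.finSuccEquiv` and a renaming of the variables, or directly `e : MvPolynomial (Fin 3) k → R[X]`, `aeval ![C (X 0), C (X 1), X]`, with the inverse `Polynomial.eval₂Hom (rename castSucc) (X 2)`. `e P` is monic if
`MonP P m c`. (The minimal polynomial of `z` is the monic irreducible polynomial which kills `z`.)
-/

set_option autoImplicit false

namespace Pool.Agent.Lib.MP_4318ff_ag.Q

open MvPolynomial

/-- `P` is monic of degree `m` in the last of three variables, the other coefficients are `c l`. -/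
def MonP {k : Type} [Field k] (P : MvPolynomial (Fin 3) k) (m : ℕ) (c : ℕ → MvPolynomial (Fin 2) k) : Prop :=
  P = X 2 ^ m + ∑ l ∈ Finset.range m, rename (Fin.castSucc : Fin 2 → Fin 3) (c l) * X 2 ^ l

variable {k K : Type} [Field k] [Field K] [Algebra k K]

/-- From `k[X₀, X₁][X]` to `k[X₀, X₁, X₂]`. -/
private noncomputable def UGau_f (k : Type) [Field k] : Polynomial (MvPolynomial (Fin 2) k) →+* MvPolynomial (Fin 3) k :=
  Polynomial.eval₂RingHom (rename (Fin.castSucc : Fin 2 → Fin 3)).toRingHom (X 2)

private noncomputable def UGau_g (k : Type) [Field k] : MvPolynomial (Fin 3) k →+* Polynomial (MvPolynomial (Fin 2) k) :=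
  (aeval ![Polynomial.C (X 0), Polynomial.C (X 1), Polynomial.X]).toRingHom

private noncomputable def UGau_e (k : Type) [Field k] : Polynomial (MvPolynomial (Fin 2) k) ≃+* MvPolynomial (Fin 3) k :=
  RingEquiv.ofRingHom (UGau_f k) (UGau_g k)
    (by
      apply MvPolynomial.ringHom_ext
      · intro c
        simp [UGau_f, UGau_g]
      · intro i
        fin_cases i
        · simp [UGau_f, UGau_g]
        · simp [UGau_f, UGau_g]
        · simp [UGau_f, UGau_g])
    (by
      apply Polynomial.ringHom_ext
      · intro c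
        have h : ((UGau_g k).comp (UGau_f k)).comp Polynomial.C = Polynomial.C := by
          apply MvPolynomial.ringHom_ext
          · intro c
            simp [UGau_f, UGau_g]
          · intro i
            fin_cases i <;> simp [UGau_f, UGau_g]
        exact RingHom.congr_fun h c
      · simp [UGau_f, UGau_g])

/-- The polynomial in one variable. -/
private noncomputable def UGau_p (m : ℕ) (c : ℕ → MvPolynomial (Fin 2) k) : Polynomial (MvPolynomial (Fin 2) k) :=
  Polynomial.X ^ m + ∑ l ∈ Finset.range m, Polynomial.C (c l) * Polynomial.X ^ l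

private theorem UGau_deg (m : ℕ) (c : ℕ → MvPolynomial (Fin 2) k) :
    (∑ l ∈ Finset.range m, Polynomial.C (c l) * Polynomial.X ^ l : Polynomial (MvPolynomial (Fin 2) k)).degree < m :=
  Polynomial.mem_degreeLT.1 (Submodule.sum_mem _ fun l hl => Polynomial.mem_degreeLT.2
    ((Polynomial.degree_C_mul_X_pow_le l (c l)).trans_lt (by exact_mod_cast Finset.mem_range.1 hl)))

private theorem UGau_monic (m : ℕ) (c : ℕ → MvPolynomial (Fin 2) k) : (UGau_p m c).Monic :=
  Polynomial.monic_X_pow_add (UGau_deg m c)

private theorem UGau_nat (m : ℕ) (c : ℕ → MvPolynomial (Fin 2) k) : (UGau_p m c).natDegree = m :=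
  by
    have h : (UGau_p m c).degree = m := by
      unfold UGau_p
      rw [Polynomial.degree_add_eq_left_of_degree_lt, Polynomial.degree_X_pow]
      rw [Polynomial.degree_X_pow]
      exact UGau_deg m c
    exact Polynomial.natDegree_eq_of_degree_eq_some h

private theorem UGau_coeff (m : ℕ) (c : ℕ → MvPolynomial (Fin 2) k) {l : ℕ} (hl : l < m) : (UGau_p m c).coeff l = c l := by
  unfold UGau_p
  rw [Polynomial.coeff_add, Polynomial.coeff_X_pow, if_neg (by omega), zero_add, Polynomial.finsetSum_coeff,
    Finset.sum_eq_single l]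
  · rw [Polynomial.coeff_C_mul_X_pow, if_pos rfl]
  · intro j _ hj
    rw [Polynomial.coeff_C_mul_X_pow, if_neg (Ne.symm hj)]
  · intro h
    exact absurd (Finset.mem_range.2 hl) h

private theorem UGau_eq0 (m : ℕ) (c : ℕ → MvPolynomial (Fin 2) k) :
    UGau_e k (UGau_p m c) =
      X 2 ^ m + ∑ l ∈ Finset.range m, rename (Fin.castSucc : Fin 2 → Fin 3) (c l) * X 2 ^ l := by
  change UGau_f k (UGau_p m c) = _
  unfold UGau_p
  rw [map_add, map_pow, map_sum]
  congr 1
  · simp [UGau_f]
  · refine Finset.sum_congr rfl fun l _ => ?_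
    rw [map_mul, map_pow]
    simp [UGau_f]

private theorem UGau_eq {P : MvPolynomial (Fin 3) k} {m : ℕ} {c : ℕ → MvPolynomial (Fin 2) k} (hPm : MonP P m c) :
    UGau_e k (UGau_p m c) = P := by
  rw [hPm]
  exact UGau_eq0 m c

private theorem UGau_irr {P : MvPolynomial (Fin 3) k} {m : ℕ} {c : ℕ → MvPolynomial (Fin 2) k} (hP : Irreducible P)
    (hPm : MonP P m c) : Irreducible (UGau_p m c) := by
  rw [← UGau_eq hPm] at hP
  exact (MulEquiv.irreducible_iff (UGau_e k).toMulEquiv).1 hP

/-- `k[X₀, X₁] → FF`. -/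
private noncomputable def UGau_cv (t s : K) : MvPolynomial (Fin 2) k →+* FF k t s :=
  (cv (k := k) t s).toRingHom.codRestrict (FF k t s).toSubfield fun G => cv_mem_FF t s G

private theorem UGau_eval (t s z : K) (p : Polynomial (MvPolynomial (Fin 2) k)) :
    aeval ![t, s, z] (UGau_e k p) = p.eval₂ (cv t s).toRingHom z := by
  have h : ((aeval ![t, s, z] : MvPolynomial (Fin 3) k →ₐ[k] K).toRingHom.comp (UGau_f k)) =
      Polynomial.eval₂RingHom (cv t s).toRingHom z := by
    apply Polynomial.ringHom_ext
    · intro c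
      have h1 : (((aeval ![t, s, z] : MvPolynomial (Fin 3) k →ₐ[k] K).toRingHom.comp (UGau_f k)).comp Polynomial.C) =
          (Polynomial.eval₂RingHom (cv t s).toRingHom z).comp Polynomial.C := by
        apply MvPolynomial.ringHom_ext
        · intro c
          simp [UGau_f]
        · intro i
          fin_cases i <;> simp [UGau_f]
      exact RingHom.congr_fun h1 c
    · simp [UGau_f]
  exact RingHom.congr_fun h p

theorem exists_monP {t s : K} (hc : Coord k t s) {z : K} (hz : z ∈ ic (pol k t s)) :
    ∃ (P : MvPolynomial (Fin 3) k) (m : ℕ) (c : ℕ → MvPolynomial (Fin 2) k), Irreducible P ∧ 0 < m ∧ MonP P m c ∧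
      aeval ![t, s, z] P = 0 := by
  let _ : Algebra (MvPolynomial (Fin 2) k) K := (cv (k := k) t s).toRingHom.toAlgebra
  have hint : IsIntegral (MvPolynomial (Fin 2) k) z := by
    obtain ⟨p, hp, hpc, h0⟩ := mem_ic_iff_poly.1 hz
    have hl : p ∈ Polynomial.lifts (algebraMap (MvPolynomial (Fin 2) k) K) := by
      rw [Polynomial.lifts_iff_coeff_lifts]
      intro i
      obtain ⟨G, hG⟩ := mem_pol.1 (hpc i)
      exact ⟨G, hG.symm⟩
    obtain ⟨q, hq, -, hqm⟩ := Polynomial.lifts_and_degree_eq_and_monic hl hp
    refine ⟨q, hqm, ?_⟩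
    rw [← Polynomial.eval_map, hq]
    exact h0
  set p := minpoly (MvPolynomial (Fin 2) k) z with hp
  have hpm : p.Monic := minpoly.monic hint
  have hpp : UGau_p p.natDegree p.coeff = p := by
    unfold UGau_p
    conv_rhs => rw [hpm.as_sum]
  refine ⟨UGau_e k p, p.natDegree, p.coeff, ?_, minpoly.natDegree_pos hint, ?_, ?_⟩
  · exact (MulEquiv.irreducible_iff (UGau_e k).toMulEquiv).2 (minpoly.irreducible hint)
  · unfold MonP
    conv_lhs => rw [← hpp]
    exact UGau_eq0 p.natDegree p.coeff
  · rw [UGau_eval]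
    exact minpoly.aeval _ _

theorem monP_minpoly {t s : K} (hc : Coord k t s) {z : K} {P : MvPolynomial (Fin 3) k} {m : ℕ}
    {c : ℕ → MvPolynomial (Fin 2) k} (hP : Irreducible P) (_hm : 0 < m) (hPm : MonP P m c) (hz : aeval ![t, s, z] P = 0) :
    (minpoly (FF k t s) z).natDegree = m ∧ ∀ l < m, ((minpoly (FF k t s) z).coeff l : K) = cv t s (c l) := by
  let _ : Algebra (MvPolynomial (Fin 2) k) (FF k t s) := (UGau_cv t s).toAlgebra
  have hinj : Function.Injective (algebraMap (MvPolynomial (Fin 2) k) (FF k t s)) := by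
    intro G H h
    exact hc.inj (congrArg Subtype.val h)
  have : FaithfulSMul (MvPolynomial (Fin 2) k) (FF k t s) := (faithfulSMul_iff_algebraMap_injective _ _).2 hinj
  have hfr : IsFractionRing (MvPolynomial (Fin 2) k) (FF k t s) := by
    refine IsFractionRing.of_field _ _ fun x => ?_
    obtain ⟨G, H, hH, h⟩ := (mem_FF hc).1 x.2
    refine ⟨G, H, ?_⟩
    apply Subtype.ext
    change (x : K) = cv t s G / cv t s H
    rw [← h, mul_div_cancel_right₀ _ (hc.cv_ne hH)]
  have h1 : Irreducible ((UGau_p m c).map (algebraMap (MvPolynomial (Fin 2) k) (FF k t s))) :=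
    (UGau_monic m c).irreducible_iff_irreducible_map_fraction_map.1 (UGau_irr hP hPm)
  have h2 : Polynomial.aeval z ((UGau_p m c).map (algebraMap (MvPolynomial (Fin 2) k) (FF k t s))) = 0 := by
    rw [← UGau_eq hPm, UGau_eval] at hz
    rw [Polynomial.aeval_def, Polynomial.eval₂_map]
    exact hz
  rw [← minpoly.eq_of_irreducible_of_monic h1 h2 ((UGau_monic m c).map _)]
  refine ⟨?_, fun l hl => ?_⟩
  · rw [(UGau_monic m c).natDegree_map, UGau_nat]
  · rw [Polynomial.coeff_map, UGau_coeff m c hl]
    rfl

theorem monP_irreducible {P : MvPolynomial (Fin 3) k} {m : ℕ} {c : ℕ → MvPolynomial (Fin 2) k} (hP : Irreducible P)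
    (_hm : 0 < m) (hPm : MonP P m c) :
    Irreducible (Polynomial.X ^ m + ∑ l ∈ Finset.range m,
      Polynomial.C (algebraMap (MvPolynomial (Fin 2) k) (FractionRing (MvPolynomial (Fin 2) k)) (c l)) * Polynomial.X ^ l) := by
  have h1 : Irreducible ((UGau_p m c).map (algebraMap (MvPolynomial (Fin 2) k) (FractionRing (MvPolynomial (Fin 2) k)))) :=
    (UGau_monic m c).irreducible_iff_irreducible_map_fraction_map.1 (UGau_irr hP hPm)
  have h2 : (UGau_p m c).map (algebraMap (MvPolynomial (Fin 2) k) (FractionRing (MvPolynomial (Fin 2) k))) =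
      Polynomial.X ^ m + ∑ l ∈ Finset.range m,
      Polynomial.C (algebraMap (MvPolynomial (Fin 2) k) (FractionRing (MvPolynomial (Fin 2) k)) (c l)) * Polynomial.X ^ l := by
    unfold UGau_p
    simp [Polynomial.map_sum]
  rw [← h2]
  exact h1

end Pool.Agent.Lib.MP_4318ff_ag.Q
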