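import Pool.Agent.Lib.MP_4318ff_ag.Q.Basic
import Pool.Agent.Lib.MP_4318ff_ag.Q.LocUFD
import Pool.Agent.Lib.MP_4318ff_ag.Q.UGau

/-!
# Fields generated over the rational function field (no ultrafilter)

PROOF. `F := FractionRing (MvPolynomial (Fin 2) k)`. For `Coord k t s` the injective map `cv t s : MvPolynomial (Fin 2) k → K` extends to `j₀ : F →+* K` (`IsFractionRing.lift`), whose image is `FF k t s` (`IntermediateField.adjoin` is generated by `t, s`).
`exists_ext`: `K := AdjoinRoot f` (a field by `Fact (Irreducible f)`), `φ = AdjoinRoot.of f` (the coefficient map, `algebraMap F K`), `θ = AdjoinRoot.root f`, `Algebra k K` = the composite (`AdjoinRoot` has an instance). `FF k (φ X0) (φ X1)` is the image of `φ`, so `K` is finite over it (power basis), of degree `deg f`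
(`Module.Finite`, `finrank` and `Algebra.IsSeparable` may be transported from `F` to the image of `φ` along `Algebra.finrank_eq_of_equiv_equiv`, `Algebra.IsSeparable.of_equiv_equiv`, `Module.Finite.of_equiv_equiv` or by hand); `K/F` is generated by the separable element `θ` (its minimal polynomial divides `f`), so it is
separable. `cv` is injective as a composite of injective maps (`MvPolynomial → F → K`).
`exists_lift`: `f = X^m + ∑ C(c l) X^l ∈ F[X]` is irreducible (`monP_irreducible`), and its image `j₀ f` in `FF[X]` is the minimal polynomial of `θ` (it is monic, irreducible and kills `θ`; or `monP_minpoly`). `K = FF(θ) ≅ AdjoinRoot` (e.g. `IntermediateField.adjoinRootEquivAdjoin` and `hg`, or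
the power basis `PowerBasis.ofAdjoinEqTop` and `PowerBasis.lift` with `B` as an algebra over `FF` through `j`), `e` = the map which is `j ∘ j₀⁻¹` on `FF` and sends `θ` to `b`.
`exists_aut`: `exists_lift` with `B = K`, `j = j₀`, `b = θ'` gives a ring homomorphism `e : K →+* K` with `e(G(t,s)) = G(t,s)`, `e θ = θ'`; it is the identity on `FF k t s` (quotients), so `FF`-linear, injective, hence bijective (finite dimension: `LinearMap.injective_iff_surjective`).
`exists_expansion`: `1, θ, …, θ^(N-1)` is a basis of `K` over `FF` (power basis); the `N` coefficients have a common denominator (`mem_FF`).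
-/

set_option autoImplicit false

namespace Pool.Agent.Lib.MP_4318ff_ag.Q

variable {k K : Type} [Field k] [Field K] [Algebra k K]

open MvPolynomial

/-- Construction of `k(t, s)(θ)` from an irreducible separable polynomial. -/
theorem exists_ext (k : Type) [Field k] (f : Polynomial (FractionRing (MvPolynomial (Fin 2) k))) (hf : Irreducible f) (_hm : f.Monic)
    (hs : f.Separable) :
    ∃ (K : Type) (_ : Field K) (_ : Algebra k K) (φ : FractionRing (MvPolynomial (Fin 2) k) →+* K) (θ : K),
      (∀ c : k, φ (algebraMap (MvPolynomial (Fin 2) k) _ (C c)) = algebraMap k K c) ∧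
      Coord k (φ (algebraMap (MvPolynomial (Fin 2) k) _ (X 0))) (φ (algebraMap (MvPolynomial (Fin 2) k) _ (X 1))) ∧
      IntermediateField.adjoin (FF k (φ (algebraMap (MvPolynomial (Fin 2) k) _ (X 0)))
        (φ (algebraMap (MvPolynomial (Fin 2) k) _ (X 1)))) {θ} = ⊤ ∧
      Module.finrank (FF k (φ (algebraMap (MvPolynomial (Fin 2) k) _ (X 0)))
        (φ (algebraMap (MvPolynomial (Fin 2) k) _ (X 1)))) K = f.natDegree ∧
      f.eval₂ φ θ = 0 := by
  have hfact : Fact (Irreducible f) := ⟨hf⟩
  let K := AdjoinRoot f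
  let φ : FractionRing (MvPolynomial (Fin 2) k) →+* K := AdjoinRoot.of f
  have hC : ∀ c : k, φ (algebraMap (MvPolynomial (Fin 2) k) _ (C c)) = algebraMap k K c := by
    intro c
    rfl
  set a := φ (algebraMap (MvPolynomial (Fin 2) k) _ (X 0)) with ha
  set b := φ (algebraMap (MvPolynomial (Fin 2) k) _ (X 1)) with hb
  have hcv : ∀ G : MvPolynomial (Fin 2) k, cv a b G = φ (algebraMap (MvPolynomial (Fin 2) k) _ G) := by
    intro G
    induction G using MvPolynomial.induction_on with
    | C c => rw [cv_C, hC]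
    | add P Q hP hQ => rw [map_add, map_add, map_add, hP, hQ]
    | mul_X P i hP =>
      rw [map_mul, map_mul, map_mul, hP]
      congr 1
      fin_cases i
      · exact cv_X0 a b
      · exact cv_X1 a b
  have hinj : Function.Injective (cv (k := k) a b) := by
    intro G H h
    rw [hcv, hcv] at h
    exact IsFractionRing.injective (MvPolynomial (Fin 2) k) (FractionRing (MvPolynomial (Fin 2) k)) (φ.injective h)
  have hmem : ∀ x, φ x ∈ FF k a b := by
    intro x
    obtain ⟨G, H, hH, rfl⟩ := IsFractionRing.div_surjective (A := MvPolynomial (Fin 2) k) x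
    rw [map_div₀, ← hcv, ← hcv]
    exact div_mem (cv_mem_FF a b G) (cv_mem_FF a b H)
  have hsur : ∀ y ∈ FF k a b, ∃ x, φ x = y := by
    intro y hy
    have h1 : FF k a b ≤ (Algebra.ofId (FractionRing (MvPolynomial (Fin 2) k)) K |>.restrictScalars k).fieldRange := by
      rw [IntermediateField.adjoin_le_iff]
      rintro x (rfl | hx)
      · exact ⟨_, rfl⟩
      · rw [Set.mem_singleton_iff.1 hx]
        exact ⟨_, rfl⟩
    obtain ⟨x, hx⟩ := h1 hy
    exact ⟨x, hx⟩
  let i : FractionRing (MvPolynomial (Fin 2) k) ≃+* FF k a b :=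
    RingEquiv.ofBijective (φ.codRestrict (FF k a b).toSubfield hmem)
      ⟨RingHom.injective _, fun y => by
        obtain ⟨x, hx⟩ := hsur y.1 y.2
        exact ⟨x, Subtype.ext hx⟩⟩
  have hcomp : (algebraMap (FF k a b) K).comp i.toRingHom =
      (RingEquiv.refl K).toRingHom.comp (algebraMap (FractionRing (MvPolynomial (Fin 2) k)) K) := by
    ext x
    rfl
  have hfin : Module.Finite (FractionRing (MvPolynomial (Fin 2) k)) K := (AdjoinRoot.powerBasis hf.ne_zero).finite
  have hroot : IsSeparable (FractionRing (MvPolynomial (Fin 2) k)) (AdjoinRoot.root f) := by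
    refine hs.of_dvd (minpoly.dvd _ _ ?_)
    rw [Polynomial.aeval_def]
    exact AdjoinRoot.eval₂_root f
  have htop : IntermediateField.adjoin (FractionRing (MvPolynomial (Fin 2) k)) {AdjoinRoot.root f} = ⊤ := by
    rw [IntermediateField.adjoin_simple_eq_top_iff_of_isAlgebraic]
    · exact AdjoinRoot.adjoinRoot_eq_top
    · exact Algebra.IsAlgebraic.isAlgebraic _
  have hsep : Algebra.IsSeparable (FractionRing (MvPolynomial (Fin 2) k)) K := by
    have h1 := (IntermediateField.isSeparable_adjoin_simple_iff_isSeparable _ _).2 hroot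
    rw [htop] at h1
    exact Algebra.IsSeparable.of_algHom _ _ (IntermediateField.topEquiv.symm.toAlgHom)
  refine ⟨K, inferInstance, inferInstance, φ, AdjoinRoot.root f, hC, ⟨hinj, ?_, ?_⟩, ?_, ?_, AdjoinRoot.eval₂_root f⟩
  · exact Module.Finite.of_equiv_equiv i (RingEquiv.refl K) hcomp
  · exact Algebra.IsSeparable.of_equiv_equiv i (RingEquiv.refl K) hcomp
  · rw [eq_top_iff]
    rintro x -
    obtain ⟨p, rfl⟩ := AdjoinRoot.mk_surjective x
    have h1 : AdjoinRoot.root f ∈ IntermediateField.adjoin (FF k a b) {AdjoinRoot.root f} :=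
      IntermediateField.mem_adjoin_simple_self _ _
    induction p using Polynomial.induction_on' with
    | add p q hp hq =>
      rw [map_add]
      exact add_mem hp hq
    | monomial n c =>
      rw [← Polynomial.C_mul_X_pow_eq_monomial, map_mul, map_pow, AdjoinRoot.mk_X]
      refine mul_mem ?_ (pow_mem h1 n)
      exact IntermediateField.algebraMap_mem (IntermediateField.adjoin (FF k a b) {AdjoinRoot.root f}) ⟨φ c, hmem c⟩
  · rw [← Algebra.finrank_eq_of_equiv_equiv i (RingEquiv.refl K) hcomp, (AdjoinRoot.powerBasis hf.ne_zero).finrank,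
      AdjoinRoot.powerBasis_dim]

/-- Homomorphisms from `K = k(t, s)(θ)`. -/
theorem exists_lift {t s θ : K} (hc : Coord k t s) (hg : IntermediateField.adjoin (FF k t s) {θ} = ⊤)
    {P : MvPolynomial (Fin 3) k} {m : ℕ} {c : ℕ → MvPolynomial (Fin 2) k} (hP : Irreducible P) (hm : 0 < m) (hPm : MonP P m c)
    (hz : aeval ![t, s, θ] P = 0) {B : Type} [CommRing B] (j : FractionRing (MvPolynomial (Fin 2) k) →+* B) (b : B)
    (hb : b ^ m + ∑ l ∈ Finset.range m, j (algebraMap (MvPolynomial (Fin 2) k) _ (c l)) * b ^ l = 0) :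
    ∃ e : K →+* B, (∀ G : MvPolynomial (Fin 2) k, e (cv t s G) = j (algebraMap (MvPolynomial (Fin 2) k) _ G)) ∧ e θ = b := by
  have hinj : Function.Injective (cv (k := k) t s).toRingHom := hc.inj
  let j0 : FractionRing (MvPolynomial (Fin 2) k) →+* K := IsFractionRing.lift hinj
  have hj : ∀ G : MvPolynomial (Fin 2) k, j0 (algebraMap (MvPolynomial (Fin 2) k) _ G) = cv t s G := fun G =>
    IsFractionRing.lift_algebraMap hinj G
  set f : Polynomial (FractionRing (MvPolynomial (Fin 2) k)) := Polynomial.X ^ m + ∑ l ∈ Finset.range m,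
      Polynomial.C (algebraMap (MvPolynomial (Fin 2) k) (FractionRing (MvPolynomial (Fin 2) k)) (c l)) * Polynomial.X ^ l with hf
  have hfi : Irreducible f := monP_irreducible hP hm hPm
  have hfact : Fact (Irreducible f) := ⟨hfi⟩
  have h0 : f.eval₂ j0 θ = 0 := by
    rw [← hz, hPm, hf]
    have h5 : (![t, s, θ] ∘ (Fin.castSucc : Fin 2 → Fin 3)) = ![t, s] := by
      funext i
      fin_cases i <;> rfl
    simp only [map_add, map_pow, map_sum, map_mul, aeval_X, aeval_rename, Polynomial.eval₂_add, Polynomial.eval₂_pow,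
      Polynomial.eval₂_X, Polynomial.eval₂_finsetSum, Polynomial.eval₂_mul, Polynomial.eval₂_C, hj]
    rw [h5]
    rfl
  have h1 : f.eval₂ j b = 0 := by
    rw [← hb, hf]
    simp only [Polynomial.eval₂_add, Polynomial.eval₂_pow,
      Polynomial.eval₂_X, Polynomial.eval₂_finsetSum, Polynomial.eval₂_mul, Polynomial.eval₂_C]
  let φ : AdjoinRoot f →+* K := AdjoinRoot.lift j0 θ h0
  let ψ : AdjoinRoot f →+* B := AdjoinRoot.lift j b h1
  have hφG : ∀ G : MvPolynomial (Fin 2) k, φ (AdjoinRoot.of f (algebraMap _ _ G)) = cv t s G := fun G =>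
    (AdjoinRoot.lift_of h0).trans (hj G)
  have hφθ : φ (AdjoinRoot.root f) = θ := AdjoinRoot.lift_root h0
  have hFF : ∀ x ∈ FF k t s, x ∈ φ.fieldRange := by
    intro x hx
    obtain ⟨G, H, hH, h⟩ := (mem_FF hc).1 hx
    have h2 : x = cv t s G / cv t s H := by rw [← h, mul_div_cancel_right₀ _ (hc.cv_ne hH)]
    rw [h2]
    exact div_mem ⟨_, hφG G⟩ ⟨_, hφG H⟩
  have hsur : Function.Surjective φ := by
    let S : IntermediateField (FF k t s) K :=
      { φ.fieldRange with
        algebraMap_mem' := fun x => hFF x.1 x.2 }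
    have h3 : IntermediateField.adjoin (FF k t s) {θ} ≤ S := by
      rw [IntermediateField.adjoin_le_iff, Set.singleton_subset_iff]
      exact ⟨_, hφθ⟩
    rw [hg] at h3
    intro x
    have h4 : x ∈ S := h3 IntermediateField.mem_top
    exact h4
  let φ' : AdjoinRoot f ≃+* K := RingEquiv.ofBijective φ ⟨φ.injective, hsur⟩
  have hφ' : ∀ x, φ'.symm (φ x) = x := fun x => φ'.symm_apply_apply x
  refine ⟨ψ.comp φ'.symm.toRingHom, fun G => ?_, ?_⟩
  · rw [← hφG G]
    change ψ (φ'.symm (φ _)) = _
    rw [hφ']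
    exact AdjoinRoot.lift_of h1
  · change ψ (φ'.symm θ) = b
    rw [← hφθ, hφ']
    exact AdjoinRoot.lift_root h1

/-- Automorphisms of `K = k(t, s)(θ)`. -/
theorem exists_aut {t s θ θ' : K} (hc : Coord k t s) (hg : IntermediateField.adjoin (FF k t s) {θ} = ⊤)
    {P : MvPolynomial (Fin 3) k} {m : ℕ} {c : ℕ → MvPolynomial (Fin 2) k} (hP : Irreducible P) (hm : 0 < m) (hPm : MonP P m c)
    (hz : aeval ![t, s, θ] P = 0) (hz' : aeval ![t, s, θ'] P = 0) :
    ∃ h : K ≃ₐ[k] K, h t = t ∧ h s = s ∧ h θ = θ' := by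
  have hinj : Function.Injective (cv (k := k) t s).toRingHom := hc.inj
  let j : FractionRing (MvPolynomial (Fin 2) k) →+* K := IsFractionRing.lift hinj
  have hj : ∀ G : MvPolynomial (Fin 2) k, j (algebraMap (MvPolynomial (Fin 2) k) _ G) = cv t s G := fun G =>
    IsFractionRing.lift_algebraMap hinj G
  have hb : θ' ^ m + ∑ l ∈ Finset.range m, j (algebraMap (MvPolynomial (Fin 2) k) _ (c l)) * θ' ^ l = 0 := by
    rw [← hz', hPm]
    simp only [map_add, map_pow, map_sum, map_mul, aeval_X, aeval_rename, hj]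
    have h5 : (![t, s, θ'] ∘ (Fin.castSucc : Fin 2 → Fin 3)) = ![t, s] := by
      funext i
      fin_cases i <;> rfl
    rw [h5]
    rfl
  obtain ⟨e, he1, he2⟩ := exists_lift hc hg hP hm hPm hz j θ' hb
  have he3 : ∀ G : MvPolynomial (Fin 2) k, e (cv t s G) = cv t s G := fun G => (he1 G).trans (hj G)
  have hFF : ∀ x ∈ FF k t s, e x = x := by
    intro x hx
    obtain ⟨G, H, hH, h⟩ := (mem_FF hc).1 hx
    have h1 := congrArg e h
    rw [map_mul, he3, he3, ← h] at h1
    exact mul_right_cancel₀ (hc.cv_ne hH) h1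
  have := hc.fin
  let f : K →ₐ[FF k t s] K :=
    { e with
      commutes' := fun x => hFF x.1 x.2 }
  have hbij : Function.Bijective f := Algebra.IsAlgebraic.algHom_bijective f
  let f' : K ≃ₐ[FF k t s] K := AlgEquiv.ofBijective f hbij
  refine ⟨f'.restrictScalars k, ?_, ?_, ?_⟩
  · exact hFF t (IntermediateField.subset_adjoin _ _ (Or.inl rfl))
  · exact hFF s (IntermediateField.subset_adjoin _ _ (Or.inr rfl))
  · exact he2

theorem exists_expansion {t s θ : K} (hc : Coord k t s) (hg : IntermediateField.adjoin (FF k t s) {θ} = ⊤) (z : K) :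
    ∃ (Δ : MvPolynomial (Fin 2) k) (g : ℕ → MvPolynomial (Fin 2) k), Δ ≠ 0 ∧
      cv t s Δ * z = ∑ l ∈ Finset.range (Module.finrank (FF k t s) K), cv t s (g l) * θ ^ l := by
  classical
  have := hc.fin
  have hi : IsIntegral (FF k t s) θ := Algebra.IsIntegral.isIntegral θ
  let pb := PowerBasis.ofAdjoinEqTop hi
    ((IntermediateField.adjoin_simple_eq_top_iff_of_isAlgebraic hi.isAlgebraic).1 hg)
  have hgen : pb.gen = θ := PowerBasis.ofAdjoinEqTop_gen _ _
  have hdim : pb.dim = Module.finrank (FF k t s) K := pb.finrank.symm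
  have h1 := pb.basis.sum_equivFun z
  have h2 : ∀ i : Fin pb.dim, ∃ G H : MvPolynomial (Fin 2) k, H ≠ 0 ∧
      ((pb.basis.equivFun z i : FF k t s) : K) * cv t s H = cv t s G := fun i => (mem_FF hc).1 (pb.basis.equivFun z i).2
  choose G H hH hGH using h2
  refine ⟨∏ i, H i, fun l => if hl : l < pb.dim then G ⟨l, hl⟩ * ∏ i ∈ Finset.univ.erase ⟨l, hl⟩, H i else 0,
    Finset.prod_ne_zero_iff.2 fun i _ => hH i, ?_⟩
  rw [← hdim, Finset.sum_range]
  conv_lhs => rw [← h1]
  rw [Finset.mul_sum]
  refine Finset.sum_congr rfl fun i _ => ?_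
  simp only [dif_pos i.2]
  rw [PowerBasis.coe_basis, hgen, Algebra.smul_def, map_mul, ← hGH i,
    ← Finset.mul_prod_erase Finset.univ H (Finset.mem_univ i), map_mul]
  change cv t s (H i) * _ * ((((pb.basis.equivFun z) i : FF k t s) : K) * θ ^ (i : ℕ)) = _
  ring

end Pool.Agent.Lib.MP_4318ff_ag.Q
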