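import Pool.Agent.Lib.MP_4318ff_ag.Q.UDefs
import Pool.Agent.Lib.MP_4318ff_ag.Q.Der
import Pool.Agent.Lib.MP_4318ff_ag.Q.Deg
import Pool.Agent.Lib.MP_4318ff_ag.Q.CoordCh
import Pool.Agent.Lib.MP_4318ff_ag.Q.LocUFD
import Pool.Agent.Lib.MP_4318ff_ag.Q.UFrac

/-!
# The discriminant is a polynomial of bounded degree (no ultrafilter)

PROOF. `dsc_smul`: `(b θ)^i = b^i θ^i`; `Algebra.discr_of_matrix_vecMul` with the diagonal matrix `(b^i)`, determinant `b^(N(N-1)/2)`. `dsc_cv`: `dsc_mem` with `O = k[t,s]` (`pol_int`, `cv_mem_FF`): `dsc = cv Δ` (`mem_pol`), `Δ ≠ 0` by `dsc_ne`. With `O' = locO k t⁻¹ (s/t)` (coordinates `t⁻¹, s/t`, `Coord.inv`, `FF_inv`; `loc_int`, `loc_le_FF`,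
`prime_X0_sub 0`; `k[1/t, s/t] ≤ O'`, `ic_mono`) and the element `θ t⁻¹^a` (`dsc_mem`; the same field `FF`): `t⁻¹^(a N(N-1)) dsc θ = dsc (t⁻¹^a θ) ∈ O'`, so `deg_le` gives `totalDegree Δ ≤ a N (N-1)`.
`genBd_int`: the equation is monic with coefficients in `k[t,s]`. `genBd_inf`: multiply the equation by `t⁻¹^(a m)`: `(θ t⁻¹^a)^m + ∑ cv(c l) t⁻¹^(a(m-l)) (θ t⁻¹^a)^l = 0` and `cv(c) t⁻¹^b ∈ k[1/t, s/t]` if `totalDegree c ≤ b` (monomials: `t^i s^j t⁻¹^b = (s/t)^j t⁻¹^(b-i-j)`). `genBd_s`: in the same way with `s⁻¹`: `cv(c) s⁻¹^b ∈ k[t, s⁻¹]`.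
`exists_gen`: `Field.exists_primitive_element (FF k t s) K`, multiply by a nonzero element of `k[t,s]` to make it integral over `k[t,s]` (its minimal polynomial over `FF`, common denominator; `IntermediateField.adjoin` does not change). The coefficients of a monic equation over `k[t,s]` are `cv (c l)`; `a` = maximum of the total degrees.
-/

set_option autoImplicit false

namespace Pool.Agent.Lib.MP_4318ff_ag.Q

variable {k K : Type} [Field k] [Field K] [Algebra k K]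

open MvPolynomial

private theorem UDsc_sum (N : ℕ) : ∑ i : Fin N, (i : ℕ) * 2 = N * (N - 1) := by
  rw [Fin.sum_univ_eq_sum_range (fun i => i * 2) N, ← Finset.sum_mul, Finset.sum_range_id_mul_two]

theorem dsc_smul (F : IntermediateField k K) (b θ : K) (hb : b ∈ F) :
    dsc F (b * θ) = b ^ (Module.finrank F K * (Module.finrank F K - 1)) * dsc F θ := by
  classical
  let b' : F := ⟨b, hb⟩
  let P : Matrix (Fin (Module.finrank F K)) (Fin (Module.finrank F K)) F :=
    Matrix.diagonal fun i => b' ^ (i : ℕ)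
  have h1 := Algebra.discr_of_matrix_mulVec (A := F) (B := K)
    (fun i : Fin (Module.finrank F K) => θ ^ (i : ℕ)) P
  have h2 : Matrix.mulVec (P.map (algebraMap F K)) (fun i : Fin (Module.finrank F K) => θ ^ (i : ℕ)) =
      fun i : Fin (Module.finrank F K) => (b * θ) ^ (i : ℕ) := by
    funext i
    have h3 : P.map (algebraMap F K) = Matrix.diagonal fun i : Fin (Module.finrank F K) => b ^ (i : ℕ) := by
      rw [Matrix.diagonal_map (map_zero _)]
      rfl
    rw [h3, Matrix.mulVec_diagonal, mul_pow]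
  have h4 : P.det ^ 2 = b' ^ (Module.finrank F K * (Module.finrank F K - 1)) := by
    rw [Matrix.det_diagonal, Finset.prod_pow_eq_pow_sum, ← pow_mul, Finset.sum_mul, UDsc_sum]
  unfold dsc
  rw [← h2, h1, h4]
  rfl

theorem dsc_cv {t s θ : K} (hc : Coord k t s) (hg : IntermediateField.adjoin (FF k t s) {θ} = ⊤) {a : ℕ}
    (h1 : θ ∈ ic (pol k t s)) (h2 : θ * t⁻¹ ^ a ∈ ic (pol k t⁻¹ (s / t))) :
    ∃ Δ : MvPolynomial (Fin 2) k, Δ ≠ 0 ∧
      Δ.totalDegree ≤ a * (Module.finrank (FF k t s) K * (Module.finrank (FF k t s) K - 1)) ∧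
      dsc (FF k t s) θ = cv t s Δ := by
  have hfin : FiniteDimensional (FF k t s) K := hc.fin
  have hsep : Algebra.IsSeparable (FF k t s) K := hc.sep
  have h3 : dsc (FF k t s) θ ∈ pol k t s := by
    refine dsc_mem (FF k t s) (pol k t s) ?_ (fun x hx h => pol_int hc hx h) h1
    intro x hx
    obtain ⟨G, rfl⟩ := mem_pol.1 hx
    exact cv_mem_FF t s G
  obtain ⟨Δ, hΔ⟩ := mem_pol.1 h3
  refine ⟨Δ, ?_, ?_, hΔ⟩
  · rintro rfl
    rw [map_zero] at hΔ
    exact dsc_ne (FF k t s) hg hΔ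
  · have hc' := hc.inv
    have hF : FF k t⁻¹ (s / t) = FF k t s := FF_inv hc
    have hX : Prime (X 0 : MvPolynomial (Fin 2) k) := X_prime
    have ht : t⁻¹ ∈ FF k t s := by
      have h4 := cv_mem_FF (k := k) t s (X 0)
      rw [cv_X0] at h4
      exact inv_mem h4
    have h4 : dsc (FF k t s) (t⁻¹ ^ a * θ) ∈ locO k t⁻¹ (s / t) := by
      refine dsc_mem (FF k t s) (locO k t⁻¹ (s / t)) ?_ ?_ ?_
      · intro x hx
        rw [← hF]
        exact loc_le_FF (X 0) hx
      · intro x hx h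
        rw [← hF] at hx
        exact loc_int hc' hX hx h
      · rw [mul_comm]
        refine ic_mono ?_ h2
        intro x hx
        obtain ⟨G, rfl⟩ := mem_pol.1 hx
        exact cv_mem_loc _ _ hX G
    rw [dsc_smul (FF k t s) (t⁻¹ ^ a) θ (pow_mem ht a), hΔ, ← pow_mul, mul_comm] at h4
    exact deg_le hc h4

private theorem UDsc_int {S : Subalgebra k K} {x : K} {m : ℕ} {a : ℕ → K} (ha : ∀ l < m, a l ∈ S)
    (h : x ^ m + ∑ l ∈ Finset.range m, a l * x ^ l = 0) : x ∈ ic S := by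
  rw [mem_ic_iff_poly]
  have hd : (∑ l ∈ Finset.range m, Polynomial.C (a l) * Polynomial.X ^ l : Polynomial K).degree < m := by
    refine Polynomial.mem_degreeLT.1 (Submodule.sum_mem _ fun l hl => Polynomial.mem_degreeLT.2 ?_)
    exact (Polynomial.degree_C_mul_X_pow_le l (a l)).trans_lt (by exact_mod_cast Finset.mem_range.1 hl)
  refine ⟨Polynomial.X ^ m + ∑ l ∈ Finset.range m, Polynomial.C (a l) * Polynomial.X ^ l, ?_, ?_, ?_⟩
  · exact Polynomial.monic_X_pow_add hd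
  · intro i
    rw [Polynomial.coeff_add, Polynomial.coeff_X_pow, Polynomial.finsetSum_coeff]
    refine S.add_mem ?_ (S.sum_mem ?_)
    · split_ifs
      · exact S.one_mem
      · exact S.zero_mem
    · intro l hl
      rw [Polynomial.coeff_C_mul, Polynomial.coeff_X_pow]
      split_ifs
      · rw [mul_one]
        exact ha l (Finset.mem_range.1 hl)
      · rw [mul_zero]
        exact S.zero_mem
  · rw [Polynomial.eval_add, Polynomial.eval_pow, Polynomial.eval_X, Polynomial.eval_finsetSum, ← h]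
    congr 1
    refine Finset.sum_congr rfl fun l _ => ?_
    rw [Polynomial.eval_mul, Polynomial.eval_C, Polynomial.eval_pow, Polynomial.eval_X]

theorem genBd_int {t s θ : K} {a : ℕ} (h : GenBd k t s θ a) : θ ∈ ic (pol k t s) := by
  obtain ⟨m, c, -, -, h0⟩ := h
  exact UDsc_int (fun l _ => mem_pol.2 ⟨c l, rfl⟩) h0

/-- scaling the equation by `u` -/
private theorem UDsc_scale {S : Subalgebra k K} {t s θ u : K} {a : ℕ} (h : GenBd k t s θ a)
    (hu : u ∈ S) (hS : ∀ G : MvPolynomial (Fin 2) k, G.totalDegree ≤ a → cv t s G * u ^ a ∈ S) :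
    θ * u ^ a ∈ ic S := by
  obtain ⟨m, c, -, hd, h0⟩ := h
  refine UDsc_int (m := m) (a := fun l => cv t s (c l) * u ^ a * (u ^ a) ^ (m - l - 1)) ?_ ?_
  · intro l hl
    exact S.mul_mem (hS _ (hd l hl)) (S.pow_mem (S.pow_mem hu _) _)
  · have h1 : ∀ l ∈ Finset.range m, cv t s (c l) * u ^ a * (u ^ a) ^ (m - l - 1) * (θ * u ^ a) ^ l =
        (u ^ a) ^ m * (cv t s (c l) * θ ^ l) := by
      intro l hl
      rw [Finset.mem_range] at hl
      obtain ⟨j, hj⟩ : ∃ j, m = l + 1 + j := ⟨m - l - 1, by omega⟩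
      have h2 : m - l - 1 = j := by omega
      rw [h2, hj, mul_pow, pow_add (u ^ a) (l + 1) j, pow_succ (u ^ a) l]
      ring
    rw [Finset.sum_congr rfl h1, ← Finset.mul_sum, mul_pow, mul_comm (θ ^ m), ← mul_add, h0, mul_zero]

private theorem UDsc_cv (t s : K) (G : MvPolynomial (Fin 2) k) :
    cv t s G = ∑ m ∈ G.support, algebraMap k K (coeff m G) * (t ^ (m 0) * s ^ (m 1)) := by
  unfold cv
  rw [aeval_def, eval₂_eq']
  refine Finset.sum_congr rfl fun m _ => ?_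
  rw [Fin.prod_univ_two]
  rfl

private theorem UDsc_le {G : MvPolynomial (Fin 2) k} {m : Fin 2 →₀ ℕ} (hm : m ∈ G.support) :
    m 0 + m 1 ≤ G.totalDegree := by
  have h := le_totalDegree hm
  rw [Finsupp.sum_fintype _ _ (fun _ => rfl), Fin.sum_univ_two] at h
  exact h

theorem genBd_inf {t s θ : K} {a : ℕ} (ht : t ≠ 0) (h : GenBd k t s θ a) : θ * t⁻¹ ^ a ∈ ic (pol k t⁻¹ (s / t)) := by
  have h1 : t⁻¹ ∈ pol k t⁻¹ (s / t) := Algebra.subset_adjoin (by simp)
  have h2 : s / t ∈ pol k t⁻¹ (s / t) := Algebra.subset_adjoin (by simp)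
  refine UDsc_scale h h1 fun G hG => ?_
  rw [UDsc_cv, Finset.sum_mul]
  refine Subalgebra.sum_mem _ fun m hm => ?_
  have h3 := (UDsc_le hm).trans hG
  obtain ⟨j, hj⟩ : ∃ j, a = m 0 + m 1 + j := ⟨a - (m 0 + m 1), by omega⟩
  have h4 : algebraMap k K (coeff m G) * (t ^ (m 0) * s ^ (m 1)) * t⁻¹ ^ a =
      algebraMap k K (coeff m G) * ((s / t) ^ (m 1) * t⁻¹ ^ j) := by
    rw [hj, pow_add, pow_add, div_eq_mul_inv, mul_pow]
    have h5 : t ^ (m 0) * t⁻¹ ^ (m 0) = 1 := by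
      rw [← mul_pow, mul_inv_cancel₀ ht, one_pow]
    linear_combination (algebraMap k K (coeff m G) * s ^ (m 1) * t⁻¹ ^ (m 1) * t⁻¹ ^ j) * h5
  rw [h4]
  exact mul_mem (Subalgebra.algebraMap_mem _ _) (mul_mem (pow_mem h2 _) (pow_mem h1 _))

theorem genBd_s {t s θ : K} {a : ℕ} (hs : s ≠ 0) (h : GenBd k t s θ a) : θ * s⁻¹ ^ a ∈ ic (pol k t s⁻¹) := by
  have h1 : t ∈ pol k t s⁻¹ := Algebra.subset_adjoin (by simp)
  have h2 : s⁻¹ ∈ pol k t s⁻¹ := Algebra.subset_adjoin (by simp)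
  refine UDsc_scale h h2 fun G hG => ?_
  rw [UDsc_cv, Finset.sum_mul]
  refine Subalgebra.sum_mem _ fun m hm => ?_
  have h3 := (UDsc_le hm).trans hG
  obtain ⟨j, hj⟩ : ∃ j, a = m 1 + j := ⟨a - m 1, by omega⟩
  have h4 : algebraMap k K (coeff m G) * (t ^ (m 0) * s ^ (m 1)) * s⁻¹ ^ a =
      algebraMap k K (coeff m G) * (t ^ (m 0) * s⁻¹ ^ j) := by
    rw [hj, pow_add]
    have h5 : s ^ (m 1) * s⁻¹ ^ (m 1) = 1 := by
      rw [← mul_pow, mul_inv_cancel₀ hs, one_pow]
    linear_combination (algebraMap k K (coeff m G) * t ^ (m 0) * s⁻¹ ^ j) * h5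
  rw [h4]
  exact mul_mem (Subalgebra.algebraMap_mem _ _) (mul_mem (pow_mem h1 _) (pow_mem h2 _))

open scoped IntermediateField.algebraAdjoinAdjoin in
private theorem UDsc_alg {t s x : K} (hx : IsAlgebraic (FF k t s) x) :
    ∃ H : MvPolynomial (Fin 2) k, cv t s H ≠ 0 ∧ cv t s H * x ∈ ic (pol k t s) := by
  have h1 : IsAlgebraic (Algebra.adjoin k {t, s}) x :=
    (IsFractionRing.isAlgebraic_iff (Algebra.adjoin k {t, s}) (FF k t s) K).2 hx
  obtain ⟨y, hy, h2⟩ := h1.exists_integral_multiple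
  obtain ⟨H, hH⟩ := mem_pol.1 (show (y : K) ∈ pol k t s from y.2)
  refine ⟨H, ?_, ?_⟩
  · rw [← hH]
    intro h
    exact hy (Subtype.ext h)
  · rw [← hH, mem_ic]
    exact h2

theorem exists_gen {t s : K} (hc : Coord k t s) :
    ∃ (θ : K) (a : ℕ), IntermediateField.adjoin (FF k t s) {θ} = ⊤ ∧ GenBd k t s θ a := by
  have hfin : FiniteDimensional (FF k t s) K := hc.fin
  have hsep : Algebra.IsSeparable (FF k t s) K := hc.sep
  obtain ⟨α, hα⟩ := Field.exists_primitive_element (FF k t s) K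
  obtain ⟨H, hH0, hH⟩ := UDsc_alg (k := k) (t := t) (s := s) (x := α)
    (Algebra.IsIntegral.isIntegral (R := FF k t s) α).isAlgebraic
  set θ : K := cv t s H * α with hθ
  rw [mem_ic_iff_poly] at hH
  obtain ⟨p, hp, hpc, hp0⟩ := hH
  choose c hc2 using fun i => mem_pol.1 (hpc i)
  refine ⟨θ, (Finset.range p.natDegree).sup fun l => (c l).totalDegree, ?_, p.natDegree, c, ?_, ?_, ?_⟩
  · rw [eq_top_iff, ← hα, IntermediateField.adjoin_simple_le_iff]
    have h1 : θ ∈ IntermediateField.adjoin (FF k t s) {θ} := IntermediateField.mem_adjoin_simple_self _ θ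
    have h2 : cv t s H ∈ IntermediateField.adjoin (FF k t s) {θ} :=
      IntermediateField.algebraMap_mem _ (⟨cv t s H, cv_mem_FF t s H⟩ : FF k t s)
    have h3 : α = θ / cv t s H := by
      rw [hθ, mul_div_cancel_left₀ _ hH0]
    rw [h3]
    exact div_mem h1 h2
  · rcases Nat.eq_zero_or_pos p.natDegree with h | h
    · rw [hp.natDegree_eq_zero.1 h, Polynomial.eval_one] at hp0
      exact absurd hp0 one_ne_zero
    · exact h
  · intro l hl
    exact Finset.le_sup (f := fun l => (c l).totalDegree) (Finset.mem_range.2 hl)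
  · rw [Polynomial.eval_eq_sum_range, Finset.sum_range_succ, hp.coeff_natDegree, one_mul, add_comm] at hp0
    rw [← hp0]
    congr 1
    refine Finset.sum_congr rfl fun l _ => ?_
    rw [hc2 l]

end Pool.Agent.Lib.MP_4318ff_ag.Q
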