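import Pool.Agent.Lib.MP_4318ff_ag.Q.UAdj

/-!
# Families transfer

PROOF. `exists_famR`: `Di i := {pts := D.pts.image (fun T => (rep T.1 i, rep T.2 i)), lines := …, ρ1 := w1 i, ρ3 := w3 i, ρT := fun x => if h : ∃ T ∈ D.pts, (rep T.1 i, rep T.2 i) = x then wT h.choose i else 0}` with representatives `w1, w3, wT T` of `D.ρ1, D.ρ3, D.ρT T` (`E.exists_R`). For `rT`: eventually `T ↦ (rep T.1 i, rep T.2 i)` is injective on the finite set `D.pts` (`rep_inj`), then
`h.choose = T`; `R_congr`. `famR_map`: immediate from the hypothesis on `h, hi` and `R_sub`. `rep_inj`: `c ≠ c'` gives `rep c i ≠ rep c' i` eventually (`L.lim_eq`, `Ultrafilter.eventually_not`); finite intersection.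
-/

set_option autoImplicit false

namespace Pool.Agent.Lib.MP_4318ff_ag.Q

variable {I : Type} {U : Ultrafilter I} {κ : I → Type} [∀ i, Field (κ i)] {k : Type} [Field k] {L : LimD U κ k}
  {K : Type} [Field K] [Algebra k K] {Ki : I → Type} [∀ i, Field (Ki i)] [∀ i, Algebra (κ i) (Ki i)]

open Filter MvPolynomial

theorem rep_inj {rep : k → ∀ i, κ i} (hrep : ∀ c, L.lim (rep c) = c) (S : Finset k) :
    ∀ᶠ i in (U : Filter I), ∀ c ∈ S, ∀ c' ∈ S, rep c i = rep c' i → c = c' := by
  rw [Filter.eventually_all_finset]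
  intro c _
  rw [Filter.eventually_all_finset]
  intro c' _
  by_cases h : c = c'
  · exact Filter.Eventually.of_forall fun i _ => h
  · have h1 : ¬ ∀ᶠ i in (U : Filter I), rep c i = rep c' i := by
      rw [← L.lim_eq, hrep, hrep]
      exact h
    rw [← Ultrafilter.eventually_not] at h1
    filter_upwards [h1] with i hi h2
    exact absurd h2 hi

theorem exists_famR (E : Emb L K Ki) {rep : k → ∀ i, κ i} (hrep : ∀ c, L.lim (rep c) = c) (D : Fam k K) :
    ∃ Di : ∀ i, Fam (κ i) (Ki i), E.FamR rep D Di := by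
  classical
  obtain ⟨w1, hw1⟩ := E.exists_R D.ρ1
  obtain ⟨w3, hw3⟩ := E.exists_R D.ρ3
  choose wT hwT using fun T => E.exists_R (D.ρT T)
  refine ⟨fun i =>
    { pts := D.pts.image (fun T => (rep T.1 i, rep T.2 i))
      lines := D.lines.image (fun T => (rep T.1 i, rep T.2 i))
      ρ1 := w1 i
      ρ3 := w3 i
      ρT := fun x => if h : ∃ T ∈ D.pts, (rep T.1 i, rep T.2 i) = x then wT h.choose i else 0 }, ?_, ?_, hw1, hw3, ?_⟩
  · intro i
    simp only [Finset.coe_image]
  · intro i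
    simp only [Finset.coe_image]
  · intro T hT
    refine E.R_congr (hwT T) ?_
    filter_upwards [rep_inj (L := L) hrep (D.pts.image Prod.fst), rep_inj (L := L) hrep (D.pts.image Prod.snd)] with i h1 h2
    have h : ∃ T' ∈ D.pts, (rep T'.1 i, rep T'.2 i) = (rep T.1 i, rep T.2 i) := ⟨T, hT, rfl⟩
    have h3 : h.choose = T := by
      obtain ⟨h4, h5⟩ := h.choose_spec
      apply Prod.ext
      · exact h1 _ (Finset.mem_image_of_mem _ h4) _ (Finset.mem_image_of_mem _ hT) (congrArg Prod.fst h5)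
      · exact h2 _ (Finset.mem_image_of_mem _ h4) _ (Finset.mem_image_of_mem _ hT) (congrArg Prod.snd h5)
    rw [dif_pos h, h3]

theorem famR_map (E : Emb L K Ki) {rep : k → ∀ i, κ i} {D : Fam k K} {Di : ∀ i, Fam (κ i) (Ki i)} (h : E.FamR rep D Di)
    (f : K → K) (fi : ∀ i, Ki i → Ki i) (hf : ∀ z w, E.R z w → E.R (f z) (fun i => fi i (w i))) :
    E.FamR rep (D.map f) (fun i => (Di i).map (fi i)) :=
  ⟨h.pts, h.lines, hf _ _ h.r1, hf _ _ h.r3, fun T hT => hf _ _ (h.rT T hT)⟩

end Pool.Agent.Lib.MP_4318ff_ag.Q
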