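import Pool.Agent.Lib.MP_4318ff_ag.Q.UFrac
import Pool.Agent.Lib.MP_4318ff_ag.Q.UEval
import Pool.Agent.Lib.MP_4318ff_ag.Q.UDegS

/-!
# Linear independence over `k(t)` transfers

`F₀ = k(t)`, `F₀i = κi(ti)`.
PROOF. (1) `indep_pow` (no ultrafilter): the `s^j θ^l` (`j < d`, `l < N`) are linearly independent over `k(t)`: the `θ^l` (`l < N = [K : FF]`) are linearly independent over `FF k t s`, and `s` is transcendental over `k(t)` (clear denominators, `hc.inj`). (2) `R_ft`: an element of `k(t)` is `f(t)/g(t)`, `g ≠ 0` (`IntermediateField.mem_adjoin_simple_iff`), represent `f, g` by `R_poly`; quotients of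
polynomials in `ti` are in `κi(ti)`; `R_div`. (3) Let `z_0, …, z_(ρ-1)` be linearly independent over `k(t)`. By `exists_expansion` and a common denominator (product) there are `Δ ≠ 0` and polynomials `g_(j,l)` with `cv Δ * z_j = ∑_(l<N) cv (g_(j,l)) θ^l`, and by `expand_s` `= ∑_(l<N) ∑_(n<d) a_(j,l,n)(t) s^n θ^l` with polynomials `a_(j,l,n)` in one variable.
The rows of the matrix `(a_(j,(l,n))(t))` over `k(t)` are linearly independent (a relation between the rows is a relation between the `cv Δ * z_j`), so it has a right inverse `A` over `k(t)`: `∑_(l,n) a_(j,(l,n)) A_((l,n),j') = δ_(j j')` (e.g. `Matrix`/`LinearMap`: `LinearMap.exists_leftInverse_of_injective` applied to the transposed map). Represent everything: `Δ` by `Δi`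
(`rep_exists`, `R_cv`), `a` and `A` by (2). Eventually: `cv Δi ≠ 0`, `cv Δi * z_(j,i) = ∑ a_(j,l,n),i s^n θ^l`, `∑ a A = δ`, `Coord`, `gen`, `rank` (so `N` is the same), all entries in `κi(ti)`. Then a relation `∑_j x_j z_(j,i) = 0` with `x_j ∈ κi(ti)` gives `∑_j x_j a_(j,(l,n)),i = 0` for all `(l,n)` by (1), and multiplying with `A`: `x_(j') = 0`.
-/

set_option autoImplicit false

namespace Pool.Agent.Lib.MP_4318ff_ag.Q

variable {I : Type} {U : Ultrafilter I} {κ : I → Type} [∀ i, Field (κ i)] {k : Type} [Field k] {L : LimD U κ k}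
  {K : Type} [Field K] [Algebra k K] {Ki : I → Type} [∀ i, Field (Ki i)] [∀ i, Algebra (κ i) (Ki i)]

open Filter MvPolynomial

private theorem s_indep_poly {t s : K} (hc : Coord k t s) {d : ℕ} (F : ℕ → Polynomial k)
    (h : ∑ j ∈ Finset.range d, Polynomial.aeval t (F j) * s ^ j = 0) : ∀ j < d, F j = 0 := by
  intro j hj
  set G : MvPolynomial (Fin 2) k :=
    ∑ j ∈ Finset.range d, Polynomial.aeval (X 0 : MvPolynomial (Fin 2) k) (F j) * X 1 ^ j with hG
  have h1 : cv t s G = 0 := by
    rw [hG, map_sum, ← h]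
    refine Finset.sum_congr rfl fun i _ => ?_
    rw [map_mul, map_pow, cv_X1, cv_aeval_X0]
  have h2 : G = 0 := hc.inj (by rw [h1, map_zero])
  set φ : MvPolynomial (Fin 2) k →ₐ[k] Polynomial (Polynomial k) :=
    aeval ![Polynomial.C Polynomial.X, Polynomial.X] with hφ
  have hφ0 : φ (X 0) = Polynomial.C Polynomial.X := by simp [hφ]
  have hφ1 : φ (X 1) = Polynomial.X := by simp [hφ]
  have hφ2 : ∀ f : Polynomial k, φ (Polynomial.aeval (X 0 : MvPolynomial (Fin 2) k) f) = Polynomial.C f := by
    intro f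
    rw [← Polynomial.aeval_algHom_apply, hφ0]
    induction f using Polynomial.induction_on' with
    | add p q hp hq => rw [map_add, hp, hq, Polynomial.C_add]
    | monomial n a =>
      rw [Polynomial.aeval_monomial, ← Polynomial.C_mul_X_pow_eq_monomial, Polynomial.C_mul, Polynomial.C_pow]
      rfl
  have h3 : φ G = 0 := by rw [h2, map_zero]
  rw [hG, map_sum] at h3
  have h4 := congrArg (fun P => Polynomial.coeff P j) h3
  simp only [Polynomial.finsetSum_coeff, map_mul, map_pow, hφ1, hφ2, Polynomial.coeff_C_mul_X_pow,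
    Polynomial.coeff_zero] at h4
  rw [Finset.sum_ite_eq (Finset.range d) j F, if_pos (Finset.mem_range.2 hj)] at h4
  exact h4

private theorem s_indep {t s : K} (hc : Coord k t s) {d : ℕ} (x : ℕ → K)
    (hx : ∀ j, x j ∈ IntermediateField.adjoin k {t})
    (h : ∑ j ∈ Finset.range d, x j * s ^ j = 0) : ∀ j < d, x j = 0 := by
  classical
  have h1 : ∀ j, ∃ f g : Polynomial k, g ≠ 0 ∧ x j * Polynomial.aeval t g = Polynomial.aeval t f := by
    intro j
    obtain ⟨f, g, hfg⟩ := IntermediateField.mem_adjoin_simple_iff k (x j) |>.1 (hx j)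
    by_cases hg : g = 0
    · refine ⟨0, 1, one_ne_zero, ?_⟩
      rw [hfg, hg, map_zero, div_zero, zero_mul]
    · exact ⟨f, g, hg, by rw [hfg, div_mul_cancel₀ _ (hc.aeval_ne hg)]⟩
  choose f g hg hfg using h1
  set F : ℕ → Polynomial k := fun j => f j * ∏ i ∈ (Finset.range d).erase j, g i with hF
  have hD : ∀ j ∈ Finset.range d, Polynomial.aeval t (F j) =
      Polynomial.aeval t (∏ i ∈ Finset.range d, g i) * x j := by
    intro j hj
    rw [hF, ← Finset.mul_prod_erase _ _ hj]
    simp only [map_mul]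
    rw [← hfg j]
    ring
  have h2 : ∑ j ∈ Finset.range d, Polynomial.aeval t (F j) * s ^ j = 0 := by
    rw [Finset.sum_congr rfl (fun j hj => by rw [hD j hj, mul_assoc]), ← Finset.mul_sum, h, mul_zero]
  have h3 := s_indep_poly hc F h2
  intro j hj
  have h4 := hD j (Finset.mem_range.2 hj)
  rw [h3 j hj, map_zero] at h4
  have h5 : Polynomial.aeval t (∏ i ∈ Finset.range d, g i) ≠ 0 :=
    hc.aeval_ne (Finset.prod_ne_zero_iff.2 fun i _ => hg i)
  rcases mul_eq_zero.1 h4.symm with h6 | h6
  · exact absurd h6 h5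
  · exact h6

private theorem adj_le_FF (t s : K) : IntermediateField.adjoin k {t} ≤ FF k t s := by
  apply IntermediateField.adjoin.mono
  intro x hx
  rw [Set.mem_singleton_iff] at hx
  rw [hx]
  exact Set.mem_insert _ _

private theorem s_mem_FF (t s : K) : s ∈ FF k t s :=
  IntermediateField.subset_adjoin _ _ (Set.mem_insert_of_mem _ (Set.mem_singleton s))

theorem indep_pow {t s θ : K} (hc : Coord k t s) (hg : IntermediateField.adjoin (FF k t s) {θ} = ⊤) {d : ℕ}
    (x : ℕ → ℕ → K) (hx : ∀ l j, x l j ∈ IntermediateField.adjoin k {t})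
    (h : ∑ l ∈ Finset.range (Module.finrank (FF k t s) K), ∑ j ∈ Finset.range d, x l j * s ^ j * θ ^ l = 0) :
    ∀ l < Module.finrank (FF k t s) K, ∀ j < d, x l j = 0 := by
  have := hc.fin
  have hint : IsIntegral (FF k t s) θ := Algebra.IsIntegral.isIntegral θ
  have hN : Module.finrank (FF k t s) K = (minpoly (FF k t s) θ).natDegree := by
    rw [← IntermediateField.adjoin.finrank hint, hg, IntermediateField.finrank_top']
  have hli : LinearIndependent (FF k t s) fun i : Fin (minpoly (FF k t s) θ).natDegree => θ ^ (i : ℕ) :=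
    linearIndependent_pow θ
  have hmem : ∀ l, (∑ j ∈ Finset.range d, x l j * s ^ j) ∈ FF k t s := by
    intro l
    refine sum_mem fun j _ => mul_mem (adj_le_FF t s (hx l j)) (pow_mem (s_mem_FF t s) j)
  have h1 : ∀ l < Module.finrank (FF k t s) K, ∑ j ∈ Finset.range d, x l j * s ^ j = 0 := by
    rw [hN] at h ⊢
    rw [Fintype.linearIndependent_iff] at hli
    have h2 := hli (fun l => ⟨_, hmem l⟩) (by
      rw [Finset.sum_range] at h
      rw [← h]
      refine Finset.sum_congr rfl fun l _ => ?_
      rw [← Finset.sum_mul]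
      rfl)
    intro l hl
    have h3 := congrArg Subtype.val (h2 ⟨l, hl⟩)
    exact h3
  intro l hl
  exact s_indep hc (x l) (hx l) (h1 l hl)

theorem R_ft (E : Emb L K Ki) {t : K} {ti : ∀ i, Ki i} (ht : E.R t ti) {c : K}
    (hc : c ∈ IntermediateField.adjoin k {t}) {ci : ∀ i, Ki i} (hR : E.R c ci) :
    ∀ᶠ i in (U : Filter I), ci i ∈ IntermediateField.adjoin (κ i) {ti i} := by
  obtain ⟨f, g, hfg⟩ := (IntermediateField.mem_adjoin_simple_iff k c).1 hc
  obtain ⟨fi, -, -, hf⟩ := R_poly E ht f
  obtain ⟨gi, -, -, hg⟩ := R_poly E ht g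
  have h1 := E.R_div hf hg
  rw [← hfg] at h1
  filter_upwards [E.R_eq hR h1] with i hi
  rw [hi]
  exact (IntermediateField.mem_adjoin_simple_iff (κ i) _).2 ⟨fi i, gi i, rfl⟩

theorem linInd_tr {E : Emb L K Ki} {t s θ : K} {ti si θi : ∀ i, Ki i} (S : USetup E t s θ ti si θi) {ρ : ℕ}
    (z : Fin ρ → K) (zi : Fin ρ → ∀ i, Ki i) (hz : ∀ j, E.R (z j) (zi j))
    (h : LinearIndependent (IntermediateField.adjoin k {t}) z) :
    ∀ᶠ i in (U : Filter I), LinearIndependent (IntermediateField.adjoin (κ i) {ti i}) (fun j => zi j i) := by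
  classical
  obtain ⟨N, hN⟩ : ∃ N, Module.finrank (FF k t s) K = N := ⟨_, rfl⟩
  have hSr := S.rank
  rw [hN] at hSr
  -- expansions
  choose Δ g hΔ hg using fun j => exists_expansion S.hc S.gen (z j)
  rw [hN] at hg
  set D : MvPolynomial (Fin 2) k := ∏ j, Δ j with hD
  have hD0 : D ≠ 0 := Finset.prod_ne_zero_iff.2 fun j _ => hΔ j
  set g' : Fin ρ → ℕ → MvPolynomial (Fin 2) k := fun j l => (∏ i ∈ Finset.univ.erase j, Δ i) * g j l with hg'
  have hexp : ∀ j, cv t s D * z j = ∑ l ∈ Finset.range N, cv t s (g' j l) * θ ^ l := by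
    intro j
    rw [hD, ← Finset.mul_prod_erase Finset.univ Δ (Finset.mem_univ j), map_mul, mul_comm (cv t s (Δ j)), mul_assoc,
      hg j, Finset.mul_sum]
    refine Finset.sum_congr rfl fun l _ => ?_
    rw [hg', map_mul]
    ring
  -- degree bound
  clear_value g'
  obtain ⟨d, hdeg⟩ : ∃ d : ℕ, ∀ j, ∀ l < N, (g' j l).degreeOf 1 ≤ d := by
    refine ⟨Finset.univ.sup fun j => (Finset.range N).sup fun l => (g' j l).degreeOf 1, fun j l hl => ?_⟩
    exact (Finset.le_sup (f := fun l => (g' j l).degreeOf 1) (Finset.mem_range.2 hl)).trans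
      (Finset.le_sup (f := fun j => (Finset.range N).sup fun l => (g' j l).degreeOf 1) (Finset.mem_univ j))
  have hex : ∀ j l, ∃ a : ℕ → Polynomial k, l < N →
      cv t s (g' j l) = ∑ n ∈ Finset.range (d + 1), Polynomial.aeval t (a n) * s ^ n := by
    intro j l
    by_cases hl : l < N
    · obtain ⟨a, ha⟩ := expand_s (g' j l) (hdeg j l hl)
      exact ⟨a, fun _ => ha t s⟩
    · exact ⟨fun _ => 0, fun h => absurd h hl⟩
  choose a ha using hex
  have hexp2 : ∀ j, cv t s D * z j =
      ∑ l ∈ Finset.range N, ∑ n ∈ Finset.range (d + 1), Polynomial.aeval t (a j l n) * s ^ n * θ ^ l := by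
    intro j
    rw [hexp j]
    refine Finset.sum_congr rfl fun l hl => ?_
    rw [ha j l (Finset.mem_range.1 hl), Finset.sum_mul]
  -- the matrix over `k(t)`
  have hmem : ∀ f : Polynomial k, Polynomial.aeval t f ∈ IntermediateField.adjoin k {t} := by
    intro f
    refine (IntermediateField.mem_adjoin_simple_iff k _).2 ⟨f, 1, ?_⟩
    rw [map_one, div_one]
  set M : Fin ρ → (Fin N × Fin (d + 1)) → IntermediateField.adjoin k {t} := fun j q =>
    ⟨Polynomial.aeval t (a j q.1 q.2), hmem _⟩ with hM
  set f : (Fin ρ → IntermediateField.adjoin k {t}) →ₗ[IntermediateField.adjoin k {t}]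
      ((Fin N × Fin (d + 1)) → IntermediateField.adjoin k {t}) :=
    { toFun := fun x q => ∑ j, x j * M j q
      map_add' := by
        intro x y
        funext q
        simp only [Pi.add_apply, add_mul, Finset.sum_add_distrib]
      map_smul' := by
        intro c x
        funext q
        simp only [Pi.smul_apply, smul_eq_mul, RingHom.id_apply, Finset.mul_sum, mul_assoc] } with hf
  have hf0 : LinearMap.ker f = ⊥ := by
    rw [LinearMap.ker_eq_bot']
    intro x hx
    have h1 : ∑ j, x j • z j = 0 := by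
      have h2 : cv t s D * ∑ j, x j • z j = 0 := by
        rw [Finset.mul_sum]
        have h3 : ∀ j, cv t s D * (x j • z j) =
            ∑ l : Fin N, ∑ n : Fin (d + 1), ((x j * M j (l, n) : IntermediateField.adjoin k {t}) : K) * s ^ (n : ℕ) * θ ^ (l : ℕ) := by
          intro j
          rw [Algebra.smul_def, mul_left_comm, hexp2 j, Finset.sum_range, Finset.mul_sum]
          refine Finset.sum_congr rfl fun l _ => ?_
          rw [Finset.sum_range, Finset.mul_sum]
          refine Finset.sum_congr rfl fun n _ => ?_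
          have : algebraMap (IntermediateField.adjoin k {t}) K (x j) = ((x j : IntermediateField.adjoin k {t}) : K) := rfl
          rw [this]
          push_cast
          rw [hM]
          ring
        rw [Finset.sum_congr rfl fun j _ => h3 j, Finset.sum_comm]
        refine Finset.sum_eq_zero fun l _ => ?_
        rw [Finset.sum_comm]
        refine Finset.sum_eq_zero fun n _ => ?_
        rw [← Finset.sum_mul, ← Finset.sum_mul]
        have h4 := congrFun hx (l, n)
        have h5 : ((∑ j, x j * M j (l, n) : IntermediateField.adjoin k {t}) : K) = 0 := by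
          have h6 : (∑ j, x j * M j (l, n)) = 0 := h4
          rw [h6]
          rfl
        push_cast at h5 ⊢
        rw [h5, zero_mul, zero_mul]
      rcases mul_eq_zero.1 h2 with h3 | h3
      · exact absurd h3 (S.hc.cv_ne hD0)
      · exact h3
    funext j
    exact (Fintype.linearIndependent_iff.1 h) x h1 j
  obtain ⟨gl, hgl⟩ := LinearMap.exists_leftInverse_of_injective f hf0
  set A : (Fin N × Fin (d + 1)) → Fin ρ → IntermediateField.adjoin k {t} := fun q => gl (Pi.single q 1) with hA
  have hMA : ∀ j j', ∑ q, M j q * A q j' = if j = j' then 1 else 0 := by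
    intro j j'
    have h1 : f (Pi.single j 1) = fun q => M j q := by
      funext q
      change ∑ i, (Pi.single j (1 : IntermediateField.adjoin k {t}) : Fin ρ → _) i * M i q = M j q
      rw [Finset.sum_eq_single j]
      · rw [Pi.single_eq_same, one_mul]
      · intro i _ hi
        rw [Pi.single_eq_of_ne hi, zero_mul]
      · intro hj
        exact absurd (Finset.mem_univ j) hj
    have h2 : gl (f (Pi.single j 1)) = Pi.single j 1 := by
      have := congrArg (fun φ => φ (Pi.single j 1)) hgl
      exact this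
    rw [h1] at h2
    have h3 : (fun q => M j q) = ∑ q, M j q • (Pi.single q 1 : (Fin N × Fin (d + 1)) → IntermediateField.adjoin k {t}) := by
      funext q
      rw [Finset.sum_apply, Finset.sum_eq_single q]
      · rw [Pi.smul_apply, Pi.single_eq_same, smul_eq_mul, mul_one]
      · intro q' _ hq'
        rw [Pi.smul_apply, Pi.single_eq_of_ne hq'.symm, smul_zero]
      · intro hq
        exact absurd (Finset.mem_univ q) hq
    rw [h3, map_sum] at h2
    have h4 := congrFun h2 j'
    rw [Finset.sum_apply] at h4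
    simp only [map_smul, Pi.smul_apply, smul_eq_mul] at h4
    rw [hA]
    refine h4.trans ?_
    rw [Pi.single_apply]
    simp only [eq_comm]
  -- representatives
  obtain ⟨Di, hDi, -⟩ := rep_exists (L := L) D
  have hRD := R_cv E S.rt S.rs hDi
  choose ai ha1 ha2 hRa using fun (j : Fin ρ) (l n : ℕ) => R_poly E S.rt (a j l n)
  choose Ai hAi using fun (q : Fin N × Fin (d + 1)) (j : Fin ρ) => E.exists_R ((A q j : IntermediateField.adjoin k {t}) : K)
  have e1 := E.R_ne_zero hRD (S.hc.cv_ne hD0)
  have e2 : ∀ j, ∀ᶠ i in (U : Filter I), cv (ti i) (si i) (Di i) * zi j i =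
      ∑ l ∈ Finset.range N, ∑ n ∈ Finset.range (d + 1), Polynomial.aeval (ti i) (ai j l n i) * si i ^ n * θi i ^ l := by
    intro j
    have h1 := E.R_mul hRD (hz j)
    rw [hexp2 j] at h1
    exact E.R_eq h1 (E.R_sum _ fun l _ => E.R_sum _ fun n _ =>
      E.R_mul (E.R_mul (hRa j l n) (E.R_pow S.rs n)) (E.R_pow S.rθ l))
  have e3 : ∀ j j', ∀ᶠ i in (U : Filter I),
      ∑ q : Fin N × Fin (d + 1), Polynomial.aeval (ti i) (ai j q.1 q.2 i) * Ai q j' i = if j = j' then 1 else 0 := by
    intro j j'
    have h1 := E.R_sum (Finset.univ : Finset (Fin N × Fin (d + 1)))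
      (z := fun q => Polynomial.aeval t (a j q.1 q.2) * ((A q j' : IntermediateField.adjoin k {t}) : K))
      (w := fun q i => Polynomial.aeval (ti i) (ai j q.1 q.2 i) * Ai q j' i)
      fun q _ => E.R_mul (hRa j q.1 q.2) (hAi q j')
    have h2 : ∑ q : Fin N × Fin (d + 1), Polynomial.aeval t (a j q.1 q.2) * ((A q j' : IntermediateField.adjoin k {t}) : K) =
        if j = j' then 1 else 0 := by
      have h3 := congrArg (fun y : IntermediateField.adjoin k {t} => (y : K)) (hMA j j')
      push_cast at h3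
      refine h3.trans ?_
      split_ifs <;> rfl
    rw [h2] at h1
    by_cases hj : j = j'
    · simp only [hj, if_true] at h1 ⊢
      exact E.R_eq h1 E.R_one
    · simp only [hj, if_false] at h1 ⊢
      exact E.R_eq h1 E.R_zero
  filter_upwards [e1, eventually_all.2 e2, eventually_all.2 fun j => eventually_all.2 (e3 j), S.hci, S.geni, hSr]
    with i h1 h2 h3 h4 h5 h6
  rw [Fintype.linearIndependent_iff]
  intro x hx
  have hmi : ∀ f : Polynomial (κ i), Polynomial.aeval (ti i) f ∈ IntermediateField.adjoin (κ i) {ti i} := by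
    intro f
    refine (IntermediateField.mem_adjoin_simple_iff (κ i) _).2 ⟨f, 1, ?_⟩
    rw [map_one, div_one]
  have hrel : ∑ l ∈ Finset.range (Module.finrank (FF (κ i) (ti i) (si i)) (Ki i)), ∑ n ∈ Finset.range (d + 1),
      (∑ j, (x j : Ki i) * Polynomial.aeval (ti i) (ai j l n i)) * si i ^ n * θi i ^ l = 0 := by
    rw [h6]
    have h7 : cv (ti i) (si i) (Di i) * ∑ j, x j • zi j i = 0 := by rw [hx, mul_zero]
    rw [Finset.mul_sum] at h7
    rw [← h7]
    have h8 : ∀ j, cv (ti i) (si i) (Di i) * (x j • zi j i) =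
        ∑ l ∈ Finset.range N, ∑ n ∈ Finset.range (d + 1),
          (x j : Ki i) * Polynomial.aeval (ti i) (ai j l n i) * si i ^ n * θi i ^ l := by
      intro j
      rw [Algebra.smul_def, mul_left_comm, h2 j, Finset.mul_sum]
      refine Finset.sum_congr rfl fun l _ => ?_
      rw [Finset.mul_sum]
      refine Finset.sum_congr rfl fun n _ => ?_
      have : algebraMap (IntermediateField.adjoin (κ i) {ti i}) (Ki i) (x j) = (x j : Ki i) := rfl
      rw [this]
      ring
    rw [Finset.sum_congr rfl fun j _ => h8 j]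
    symm
    rw [Finset.sum_comm]
    refine Finset.sum_congr rfl fun l _ => ?_
    rw [Finset.sum_comm]
    refine Finset.sum_congr rfl fun n _ => ?_
    rw [Finset.sum_mul, Finset.sum_mul]
  have h9 := indep_pow h4 h5 (d := d + 1) (fun l n => ∑ j, (x j : Ki i) * Polynomial.aeval (ti i) (ai j l n i))
    (fun l n => sum_mem fun j _ => mul_mem (x j).2 (hmi _)) hrel
  rw [h6] at h9
  intro j'
  have h10 : (x j' : Ki i) = 0 := by
    have h11 : (x j' : Ki i) = ∑ j, (x j : Ki i) * (if j = j' then 1 else 0) := by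
      rw [Finset.sum_eq_single j']
      · rw [if_pos rfl, mul_one]
      · intro j _ hj
        rw [if_neg hj, mul_zero]
      · intro hj
        exact absurd (Finset.mem_univ j') hj
    rw [h11]
    have h12 : ∀ j, (x j : Ki i) * (if j = j' then 1 else 0) =
        ∑ q : Fin N × Fin (d + 1), (x j : Ki i) * Polynomial.aeval (ti i) (ai j q.1 q.2 i) * Ai q j' i := by
      intro j
      rw [← h3 j j', Finset.mul_sum]
      refine Finset.sum_congr rfl fun q _ => ?_
      rw [mul_assoc]
    rw [Finset.sum_congr rfl fun j _ => h12 j, Finset.sum_comm]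
    refine Finset.sum_eq_zero fun q _ => ?_
    rw [← Finset.sum_mul]
    have h13 : ∑ j, (x j : Ki i) * Polynomial.aeval (ti i) (ai j q.1 q.2 i) = 0 := h9 q.1 q.1.2 q.2 q.2.2
    rw [h13, zero_mul]
  exact Subtype.ext h10

end Pool.Agent.Lib.MP_4318ff_ag.Q
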