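import Pool.Agent.Lib.MP_4318ff_ag.Q.UDefs

/-!
# Representation of polynomials

PROOF. `rep_exists`: choose for every `c : k` a family `r c` with `lim (r c) = c`, `r 0 = 0`; `g i = ∑_(m ∈ supp f) monomial m (r (coeff m f) i)`. `rep_congr`: the coefficients agree eventually,
so their limits are equal (`lim_eq`). `rep_unique`: eventually both degrees are `≤ d`; for each of the finitely many exponents `m` of degree `≤ d` the coefficients agree eventually; for the
others both vanish. `rep_ne`: some `coeff m f ≠ 0`, so `coeff m (g i) ≠ 0` eventually (`ker`, `Ultrafilter.eventually_not`). `rep_limit`: `f = ∑_(|m| ≤ d) monomial m (lim (coeff m (g i)))` (finite set of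
exponents; for `|m| > d` the coefficients vanish eventually, the limit is `0`).
-/

set_option autoImplicit false

namespace Pool.Agent.Lib.MP_4318ff_ag.Q

open Filter MvPolynomial

variable {I : Type} {U : Ultrafilter I} {κ : I → Type} [∀ i, Field (κ i)] {k : Type} [Field k] (L : LimD U κ k) {n : ℕ}

/-- a finite set containing all exponents of degree `≤ d` -/
private noncomputable def urepB (n d : ℕ) : Finset (Fin n →₀ ℕ) :=
  Finset.Iic (Finsupp.equivFunOnFinite.symm fun _ => d)

private theorem urep_mem {n d : ℕ} {m : Fin n →₀ ℕ} (h : (m.sum fun _ e => e) ≤ d) : m ∈ urepB n d := by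
  unfold urepB
  rw [Finset.mem_Iic]
  intro i
  rw [Finsupp.equivFunOnFinite_symm_apply_apply]
  refine le_trans ?_ h
  by_cases hi : i ∈ m.support
  · exact Finset.single_le_sum (f := fun i => m i) (fun _ _ => Nat.zero_le _) hi
  · rw [Finsupp.notMem_support_iff.1 hi]
    exact Nat.zero_le _

private theorem urep_coeff {n d : ℕ} {R : Type} [CommSemiring R] {p : MvPolynomial (Fin n) R} (h : p.totalDegree ≤ d)
    {m : Fin n →₀ ℕ} (hm : m ∉ urepB n d) : MvPolynomial.coeff m p = 0 := by
  by_contra hc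
  exact hm (urep_mem ((MvPolynomial.le_totalDegree (MvPolynomial.mem_support_iff.2 hc)).trans h))

private theorem urep_sum {n : ℕ} {R : Type} [CommSemiring R] (s : Finset (Fin n →₀ ℕ)) (c : (Fin n →₀ ℕ) → R)
    (m : Fin n →₀ ℕ) [Decidable (m ∈ s)] :
    MvPolynomial.coeff m (∑ m' ∈ s, MvPolynomial.monomial m' (c m')) = if m ∈ s then c m else 0 := by
  classical
  rw [MvPolynomial.coeff_sum]
  simp only [MvPolynomial.coeff_monomial]
  rw [Finset.sum_ite_eq' s m c]
  split_ifs <;> rfl

theorem rep_exists (f : MvPolynomial (Fin n) k) : ∃ g, L.Rep f g ∧ ∀ i, (g i).totalDegree ≤ f.totalDegree := by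
  classical
  choose r hr using L.surj
  have hdeg : ∀ i, (∑ m ∈ f.support, MvPolynomial.monomial m (r (MvPolynomial.coeff m f) i)).totalDegree ≤
      f.totalDegree := by
    intro i
    refine Finset.sup_mono ?_
    intro m hm
    rw [MvPolynomial.mem_support_iff, urep_sum] at hm
    by_contra h
    rw [if_neg h] at hm
    exact hm rfl
  refine ⟨fun i => ∑ m ∈ f.support, MvPolynomial.monomial m (r (MvPolynomial.coeff m f) i),
    ⟨⟨f.totalDegree, Filter.Eventually.of_forall hdeg⟩, fun m => ?_⟩, hdeg⟩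
  by_cases hm : m ∈ f.support
  · have h1 : (fun i => MvPolynomial.coeff m (∑ m' ∈ f.support, MvPolynomial.monomial m' (r (MvPolynomial.coeff m' f) i))) =
        r (MvPolynomial.coeff m f) := by
      funext i
      rw [urep_sum, if_pos hm]
    rw [h1, hr]
  · have h1 : (fun i => MvPolynomial.coeff m (∑ m' ∈ f.support, MvPolynomial.monomial m' (r (MvPolynomial.coeff m' f) i))) =
        fun i => (0 : κ i) := by
      funext i
      rw [urep_sum, if_neg hm]
    rw [h1, MvPolynomial.notMem_support_iff.1 hm]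
    exact (map_zero L.lim).symm

variable {L}

theorem rep_congr {f : MvPolynomial (Fin n) k} {g g' : ∀ i, MvPolynomial (Fin n) (κ i)} (h : L.Rep f g)
    (h' : ∀ᶠ i in (U : Filter I), g i = g' i) : L.Rep f g' := by
  obtain ⟨⟨d, hd⟩, hc⟩ := h
  refine ⟨⟨d, ?_⟩, fun m => ?_⟩
  · filter_upwards [hd, h'] with i h1 h2
    rw [← h2]
    exact h1
  · rw [hc m, L.lim_eq]
    filter_upwards [h'] with i h2
    rw [h2]

theorem rep_unique {f : MvPolynomial (Fin n) k} {g g' : ∀ i, MvPolynomial (Fin n) (κ i)} (h : L.Rep f g) (h' : L.Rep f g') :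
    ∀ᶠ i in (U : Filter I), g i = g' i := by
  obtain ⟨⟨d, hd⟩, hc⟩ := h
  obtain ⟨⟨d', hd'⟩, hc'⟩ := h'
  have h1 : ∀ᶠ i in (U : Filter I), ∀ m ∈ urepB n (max d d'), MvPolynomial.coeff m (g i) = MvPolynomial.coeff m (g' i) := by
    rw [Filter.eventually_all_finset]
    intro m _
    rw [← L.lim_eq, ← hc m, ← hc' m]
  filter_upwards [hd, hd', h1] with i e1 e2 e3
  refine MvPolynomial.ext _ _ fun m => ?_
  by_cases hm : m ∈ urepB n (max d d')
  · exact e3 m hm
  · rw [urep_coeff (e1.trans (le_max_left _ _)) hm, urep_coeff (e2.trans (le_max_right _ _)) hm]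

theorem rep_ne {f : MvPolynomial (Fin n) k} {g : ∀ i, MvPolynomial (Fin n) (κ i)} (h : L.Rep f g) (hf : f ≠ 0) :
    ∀ᶠ i in (U : Filter I), g i ≠ 0 := by
  obtain ⟨m, hm⟩ : ∃ m, MvPolynomial.coeff m f ≠ 0 := by
    by_contra hcon
    push Not at hcon
    exact hf (MvPolynomial.ext _ _ fun m => by rw [hcon m, MvPolynomial.coeff_zero])
  have h1 : ¬ ∀ᶠ i in (U : Filter I), MvPolynomial.coeff m (g i) = 0 := by
    intro h2
    apply hm
    rw [h.2 m]
    exact (L.ker _).2 h2
  have h2 : ∀ᶠ i in (U : Filter I), ¬ MvPolynomial.coeff m (g i) = 0 := Ultrafilter.eventually_not.2 h1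
  filter_upwards [h2] with i hi h0
  exact hi (by rw [h0, MvPolynomial.coeff_zero])

/-- If `g i` is eventually nonzero, then `f ≠ 0`. -/
theorem rep_ne' {f : MvPolynomial (Fin n) k} {g : ∀ i, MvPolynomial (Fin n) (κ i)} (h : L.Rep f g)
    (hg : ∀ᶠ i in (U : Filter I), g i ≠ 0) : f ≠ 0 := by
  rintro rfl
  have h0 : L.Rep (0 : MvPolynomial (Fin n) k) (fun i => (0 : MvPolynomial (Fin n) (κ i))) := by
    refine ⟨⟨0, Filter.Eventually.of_forall fun i => by rw [MvPolynomial.totalDegree_zero]⟩, fun m => ?_⟩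
    have h1 : (fun i => MvPolynomial.coeff m (0 : MvPolynomial (Fin n) (κ i))) = fun i => (0 : κ i) := by
      funext i
      exact MvPolynomial.coeff_zero m
    rw [h1, MvPolynomial.coeff_zero]
    exact (map_zero L.lim).symm
  obtain ⟨i, h1, h2⟩ := (hg.and (rep_unique h h0)).exists
  exact h1 h2

variable (L) in
theorem rep_limit (g : ∀ i, MvPolynomial (Fin n) (κ i)) (d : ℕ) (hg : ∀ᶠ i in (U : Filter I), (g i).totalDegree ≤ d) :
    ∃ f, L.Rep f g := by
  classical
  refine ⟨∑ m ∈ urepB n d, MvPolynomial.monomial m (L.lim (fun i => MvPolynomial.coeff m (g i))), ⟨d, hg⟩, fun m => ?_⟩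
  rw [urep_sum]
  split_ifs with hm
  · rfl
  · symm
    rw [L.ker]
    filter_upwards [hg] with i hi
    exact urep_coeff hi hm

end Pool.Agent.Lib.MP_4318ff_ag.Q
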